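import Pool.Agent.HN.NEv
import Pool.Agent.HN.AH.Rest

/-! # HN/AH : the Artin-Hasse series over `ℤ_[p]` (module HN-12)

PLAN.  Over `ℚ_[p]` (or `ℚ`): for `h` with zero constant coefficient there is a unique power series
`f` with `f_0 = 1` and `n f_n = ∑ f_{n-i} h_i` (i.e. `X f' = f h`).  `E` := the one for `h = ∑ X^(p^l)`,
`ep = exp(pX)` the one for `h = pX`.
Uniqueness gives `E^p = E(X^p) ep` (both have `h = p ∑ X^(p^l)`), and
`E(pX) = ∏_{j<J} ep(p^(p^j-j-1) X^(p^j))` up to degree `< p^J` (both have `h = ∑ p^(p^j) X^(p^j)`).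
Integrality: `ep_n = p^n/n!` is in `p ℤ_p` for `n ≥ 1`; for `E` by induction on `n` (Dwork's lemma):
comparing the coefficients of `X^n` in `E^p = E(X^p) ep`: `p E_n + [(E_{<n})^p]_n`
`= [E(X^p) ep]_n`, and mod `p`: `(∑_{i<n} E_i X^i)^p ≡ ∑_{i<n} E_i X^(pi)`
(`E_i ∈ ℤ_p`, `ZMod.expand_card`/`frobenius`), `[E(X^p) ep]_n ≡ [E_{<n}(X^p)]_n`.
-/

namespace HN

variable (p : ℕ) [hp : Fact p.Prime]

open AHs in
theorem exists_AH : ∃ E ep : PowerSeries ℤ_[p],
    PowerSeries.coeff 0 E = 1 ∧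
    (∀ n : ℕ, (n : ℤ_[p]) * PowerSeries.coeff n E
      = ∑ l ∈ (Finset.range (n + 1)).filter (fun l => p ^ l ≤ n),
          PowerSeries.coeff (n - p ^ l) E) ∧
    (∀ n : ℕ, (n.factorial : ℤ_[p]) * PowerSeries.coeff n ep = (p : ℤ_[p]) ^ n) ∧
    (∀ n : ℕ, 1 ≤ n → (p : ℤ_[p]) ∣ PowerSeries.coeff n ep) ∧
    (∀ n : ℕ, PowerSeries.coeff n (E ^ p) = ∑ i ∈ Finset.range (n / p + 1),
      PowerSeries.coeff i E * PowerSeries.coeff (n - p * i) ep) ∧
    (∀ (n J : ℕ), n < p ^ J → (p : ℤ_[p]) ^ n * PowerSeries.coeff n E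
      = PowerSeries.coeff n (∏ j ∈ Finset.range J, PowerSeries.mk (fun m =>
          if p ^ j ∣ m then PowerSeries.coeff (m / p ^ j) ep
            * ((p : ℤ_[p]) ^ (p ^ j - j - 1)) ^ (m / p ^ j) else 0))) := by
  classical
  have hx : ∀ n, ‖xK p n‖ ≤ 1 := by
    intro n
    rcases Nat.eq_zero_or_pos n with rfl | hn
    · rw [xK_zero]; simp
    · obtain ⟨y, hy⟩ := xK_PI p n (by omega)
      rw [hy]
      exact (((p : ℤ_[p]) * y) : ℤ_[p]).2
  let φ : ℤ_[p] →+* ℚ_[p] := PadicInt.Coe.ringHom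
  have hφ : Function.Injective φ := Subtype.coe_injective
  let E : PowerSeries ℤ_[p] := PowerSeries.mk (e p)
  let ep : PowerSeries ℤ_[p] := PowerSeries.mk fun n => ⟨xK p n, hx n⟩
  have hE : PowerSeries.map φ E = PowerSeries.mk (eK p) := by
    ext n; simp only [E, PowerSeries.coeff_map, PowerSeries.coeff_mk]; rfl
  have hEn : ∀ n, φ (PowerSeries.coeff n E) = eK p n := by
    intro n; simp only [E, PowerSeries.coeff_mk]; rfl
  have hepn : ∀ n, φ (PowerSeries.coeff n ep) = xK p n := by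
    intro n; simp only [ep, PowerSeries.coeff_mk]; rfl
  refine ⟨E, ep, ?_, ?_, ?_, ?_, ?_, ?_⟩
  · apply hφ; rw [hEn, eK_zero, map_one]
  · intro n
    apply hφ
    rw [map_mul, map_natCast, hEn, eK_rec, map_sum]
    exact Finset.sum_congr rfl fun l _ => (hEn _).symm
  · intro n
    apply hφ
    rw [map_mul, map_natCast, hepn, map_pow, map_natCast, xK]
    have h2 : ((n.factorial : ℕ) : ℚ_[p]) ≠ 0 := by exact_mod_cast Nat.factorial_ne_zero n
    field_simp
  · intro n hn
    obtain ⟨y, hy⟩ := xK_PI p n (by omega)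
    refine ⟨y, ?_⟩
    apply hφ
    rw [hepn, hy, map_mul, map_natCast]
    rfl
  · intro n
    apply hφ
    rw [← PowerSeries.coeff_map, map_pow, hE, eK_pow, PowerSeries.coeff_mul,
      Finset.Nat.sum_antidiagonal_eq_sum_range_succ_mk, map_sum]
    simp only [PowerSeries.coeff_mk, PowerSeries.coeff_expand]
    rw [← Finset.sum_range_reflect]
    simp only [Nat.succ_eq_add_one, Nat.add_sub_cancel]
    have h1 : ∀ j ∈ Finset.range (n + 1),
        xK p (n - j) * (if p ∣ n - (n - j) then eK p ((n - (n - j)) / p) else 0)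
        = if p ∣ j then eK p (j / p) * xK p (n - j) else 0 := by
      intro j hj
      have hj' : n - (n - j) = j := by have := Finset.mem_range.mp hj; omega
      rw [hj']
      split_ifs
      · ring
      · ring
    rw [Finset.sum_congr rfl h1, ← Finset.sum_filter]
    symm
    refine Finset.sum_bij (fun i _ => p * i) ?_ ?_ ?_ ?_
    · intro i hi
      have := Finset.mem_range.mp hi
      rw [Finset.mem_filter, Finset.mem_range]
      refine ⟨?_, dvd_mul_right p i⟩
      have h3 : p * i ≤ n := by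
        calc p * i ≤ p * (n / p) := Nat.mul_le_mul_left p (by omega)
          _ ≤ n := Nat.mul_div_le n p
      omega
    · intro i _ j _ h
      exact Nat.eq_of_mul_eq_mul_left hp.out.pos h
    · intro j hj
      obtain ⟨h3, i, rfl⟩ := Finset.mem_filter.mp hj
      refine ⟨i, ?_, rfl⟩
      rw [Finset.mem_range] at h3 ⊢
      have h4 : p * i ≤ n := by omega
      have := (Nat.le_div_iff_mul_le hp.out.pos).mpr (by rw [mul_comm]; exact h4 : i * p ≤ n)
      omega
    · intro i _
      rw [map_mul, hEn, hepn, Nat.mul_div_cancel_left _ hp.out.pos]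
  · intro n J hn
    apply hφ
    rw [map_mul, map_pow, map_natCast, hEn, eK_p p J n hn, ← PowerSeries.coeff_map, map_prod, PK]
    congr 1
    refine Finset.prod_congr rfl fun j _ => ?_
    ext m
    rw [FK_coeff, PowerSeries.coeff_map, PowerSeries.coeff_mk]
    split_ifs
    · rw [map_mul, hepn, map_pow, map_pow, map_natCast]
    · rw [map_zero]

/-- the Artin-Hasse series `exp (∑ X^(p^i)/p^i)` -/
noncomputable def AH : PowerSeries ℤ_[p] := (exists_AH p).choose

/-- `exp (pX)` -/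
noncomputable def EP : PowerSeries ℤ_[p] := (exists_AH p).choose_spec.choose

theorem AH_zero : PowerSeries.coeff 0 (AH p) = 1 := (exists_AH p).choose_spec.choose_spec.1

theorem AH_rec (n : ℕ) : (n : ℤ_[p]) * PowerSeries.coeff n (AH p)
    = ∑ l ∈ (Finset.range (n + 1)).filter (fun l => p ^ l ≤ n),
        PowerSeries.coeff (n - p ^ l) (AH p) :=
  (exists_AH p).choose_spec.choose_spec.2.1 n

/-- `E_n = 1/n!` for `n < p` -/
theorem AH_small {n : ℕ} (hn : n < p) :
    (n.factorial : ℤ_[p]) * PowerSeries.coeff n (AH p) = 1 := by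
  induction n with
  | zero => rw [AH_zero]; simp
  | succ n ih =>
    have h1 := AH_rec p (n + 1)
    have h2 : (Finset.range (n + 1 + 1)).filter (fun l => p ^ l ≤ n + 1) = {0} := by
      ext l
      rw [Finset.mem_filter, Finset.mem_range, Finset.mem_singleton]
      constructor
      · rintro ⟨_, h⟩
        by_contra hl
        have : p ≤ p ^ l := Nat.le_self_pow hl p
        omega
      · rintro rfl
        exact ⟨by omega, by simp⟩
    rw [h2, Finset.sum_singleton, pow_zero, Nat.add_sub_cancel] at h1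
    have h3 := ih (by omega)
    rw [Nat.factorial_succ]
    push_cast at h1 ⊢
    calc ((n : ℤ_[p]) + 1) * (n.factorial : ℤ_[p]) * PowerSeries.coeff (n + 1) (AH p)
        = (n.factorial : ℤ_[p]) * (((n : ℤ_[p]) + 1) * PowerSeries.coeff (n + 1) (AH p)) := by ring
      _ = 1 := by rw [h1, h3]

theorem EP_fac (n : ℕ) : (n.factorial : ℤ_[p]) * PowerSeries.coeff n (EP p) = (p : ℤ_[p]) ^ n :=
  (exists_AH p).choose_spec.choose_spec.2.2.1 n

theorem EP_dvd {n : ℕ} (hn : 1 ≤ n) : (p : ℤ_[p]) ∣ PowerSeries.coeff n (EP p) :=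
  (exists_AH p).choose_spec.choose_spec.2.2.2.1 n hn

theorem AH_powc (n : ℕ) : PowerSeries.coeff n (AH p ^ p) = ∑ i ∈ Finset.range (n / p + 1),
    PowerSeries.coeff i (AH p) * PowerSeries.coeff (n - p * i) (EP p) :=
  (exists_AH p).choose_spec.choose_spec.2.2.2.2.1 n

theorem AH_pc (n J : ℕ) (hn : n < p ^ J) : (p : ℤ_[p]) ^ n * PowerSeries.coeff n (AH p)
    = PowerSeries.coeff n (∏ j ∈ Finset.range J, PowerSeries.mk (fun m =>
        if p ^ j ∣ m then PowerSeries.coeff (m / p ^ j) (EP p)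
          * ((p : ℤ_[p]) ^ (p ^ j - j - 1)) ^ (m / p ^ j) else 0)) :=
  (exists_AH p).choose_spec.choose_spec.2.2.2.2.2 n J hn

section
variable {B : Type*} [CommRing B] [Algebra ℤ_[p] B]

omit hp [CommRing B] [Algebra ℤ_[p] B] in
theorem sum_dvd {R : Type*} [AddCommMonoid R] (hp0 : 0 < p) (f : ℕ → R) (n : ℕ) :
    ∑ i ∈ Finset.range (n / p + 1), f (p * i)
      = ∑ k ∈ Finset.range (n + 1), if p ∣ k then f k else 0 := by
  rw [← Finset.sum_filter]
  refine Finset.sum_bij (fun i _ => p * i) ?_ ?_ ?_ ?_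
  · intro i hi
    have := Finset.mem_range.mp hi
    rw [Finset.mem_filter, Finset.mem_range]
    refine ⟨?_, dvd_mul_right p i⟩
    have h3 : p * i ≤ n := by
      calc p * i ≤ p * (n / p) := Nat.mul_le_mul_left p (by omega)
        _ ≤ n := Nat.mul_div_le n p
    omega
  · intro i _ j _ h
    exact Nat.eq_of_mul_eq_mul_left hp0 h
  · intro j hj
    obtain ⟨h3, i, rfl⟩ := Finset.mem_filter.mp hj
    refine ⟨i, ?_, rfl⟩
    rw [Finset.mem_range] at h3 ⊢
    have h4 : p * i ≤ n := by omega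
    have := (Nat.le_div_iff_mul_le hp0).mpr (by rw [mul_comm]; exact h4 : i * p ≤ n)
    omega
  · intro i _
    rfl

/-- `E(x)^p = E(x^p) exp(px)` -/
theorem nev_AH_pow {x : B} (hx : IsNilpotent x) :
    nev (AH p) x ^ p = nev (AH p) (x ^ p) * nev (EP p) x := by
  let G : PowerSeries ℤ_[p] := PowerSeries.mk fun n =>
    if p ∣ n then PowerSeries.coeff (n / p) (AH p) * 1 ^ (n / p) else 0
  have hG : AH p ^ p = G * EP p := by
    ext n
    have h1 := AH_powc p n
    rw [h1, PowerSeries.coeff_mul, Finset.Nat.sum_antidiagonal_eq_sum_range_succ_mk]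
    have h2 := sum_dvd p hp.out.pos
      (fun k => PowerSeries.coeff (k / p) (AH p) * PowerSeries.coeff (n - k) (EP p)) n
    simp only [Nat.mul_div_cancel_left _ hp.out.pos] at h2
    rw [h2]
    refine Finset.sum_congr rfl fun k _ => ?_
    simp only [G, PowerSeries.coeff_mk, one_pow, mul_one]
    split_ifs
    · rfl
    · rw [zero_mul]
  have h3 : nev G x = nev (AH p) (algebraMap ℤ_[p] B 1 * x ^ p) :=
    nev_comp (AH p) G 1 hp.out.one_le (fun n => by simp only [G, PowerSeries.coeff_mk]) hx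
  rw [← nev_pow _ _ hx, hG, nev_mul _ _ hx, h3, map_one, one_mul]

/-- `E(py) = ∏_j exp(p * p^(p^j-j-1) y^(p^j))` -/
theorem nev_AH_p {y : B} {J : ℕ} (hy : y ^ (p ^ J) = 0) :
    nev (AH p) ((p : B) * y)
      = ∏ j ∈ Finset.range J, nev (EP p) ((p : B) ^ (p ^ j - j - 1) * y ^ p ^ j) := by
  have hy' : IsNilpotent y := ⟨_, hy⟩
  let F : ℕ → PowerSeries ℤ_[p] := fun j => PowerSeries.mk (fun m =>
    if p ^ j ∣ m then PowerSeries.coeff (m / p ^ j) (EP p)
      * ((p : ℤ_[p]) ^ (p ^ j - j - 1)) ^ (m / p ^ j) else 0)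
  let G : PowerSeries ℤ_[p] := PowerSeries.mk fun n =>
    if 1 ∣ n then PowerSeries.coeff (n / 1) (AH p) * (p : ℤ_[p]) ^ (n / 1) else 0
  have h1 : nev G y = nev (AH p) (algebraMap ℤ_[p] B p * y ^ 1) :=
    nev_comp (AH p) G p le_rfl (fun n => by simp only [G, PowerSeries.coeff_mk]) hy'
  rw [map_natCast, pow_one] at h1
  have h2 : nev G y = nev (∏ j ∈ Finset.range J, F j) y := by
    refine nev_congr hy fun n hn => ?_
    have h3 := AH_pc p n J hn
    rw [← h3]
    simp only [G, PowerSeries.coeff_mk, one_dvd, if_true, Nat.div_one]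
    ring
  rw [← h1, h2, nev_prod _ _ hy']
  refine Finset.prod_congr rfl fun j _ => ?_
  have h4 := nev_comp (EP p) (F j) ((p : ℤ_[p]) ^ (p ^ j - j - 1))
    (Nat.one_le_iff_ne_zero.mpr (pow_ne_zero j hp.out.ne_zero))
    (fun n => by simp only [F, PowerSeries.coeff_mk]) hy'
  rw [h4, map_pow, map_natCast]

/-- `exp(px) exp(py) = exp(p(x+y))` -/
theorem nev_EP_add {x y : B} (hx : IsNilpotent x) (hy : IsNilpotent y) :
    nev (EP p) x * nev (EP p) y = nev (EP p) (x + y) := by
  classical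
  obtain ⟨L₁, hL₁⟩ := hx
  obtain ⟨L₂, hL₂⟩ := hy
  obtain ⟨L, hL1, hL2⟩ : ∃ L, L₁ ≤ L ∧ L₂ ≤ L := ⟨max L₁ L₂, le_max_left _ _, le_max_right _ _⟩
  have hxL : ∀ n, L ≤ n → x ^ n = 0 := fun n hn => pow_eq_zero_of_le (le_trans hL1 hn) hL₁
  have hyL : ∀ n, L ≤ n → y ^ n = 0 := fun n hn => pow_eq_zero_of_le (le_trans hL2 hn) hL₂
  have hadd : ∀ n, (x + y) ^ n = ∑ q ∈ Finset.HasAntidiagonal.antidiagonal n,
      (n.choose q.1 : B) * (x ^ q.1 * y ^ q.2) := by
    intro n
    rw [(Commute.all x y).add_pow']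
    refine Finset.sum_congr rfl fun q _ => ?_
    rw [nsmul_eq_mul]
  have hcoef : ∀ n, ∀ q ∈ Finset.HasAntidiagonal.antidiagonal n,
      PowerSeries.coeff n (EP p) * (n.choose q.1 : ℤ_[p])
        = PowerSeries.coeff q.1 (EP p) * PowerSeries.coeff q.2 (EP p) := by
    intro n q hq
    have hq' := Finset.HasAntidiagonal.mem_antidiagonal.mp hq
    have h1 := EP_fac p n
    have h2 := EP_fac p q.1
    have h3 := EP_fac p q.2
    have h4 : n.choose q.1 * q.1.factorial * q.2.factorial = n.factorial := by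
      have := Nat.choose_mul_factorial_mul_factorial (n := n) (k := q.1) (by omega)
      rwa [show n - q.1 = q.2 by omega] at this
    have h5 : ((q.1.factorial * q.2.factorial : ℕ) : ℤ_[p]) ≠ 0 := by
      exact_mod_cast Nat.mul_ne_zero (Nat.factorial_ne_zero _) (Nat.factorial_ne_zero _)
    apply mul_left_cancel₀ h5
    calc ((q.1.factorial * q.2.factorial : ℕ) : ℤ_[p]) *
          (PowerSeries.coeff n (EP p) * (n.choose q.1 : ℤ_[p]))
        = ((n.choose q.1 * q.1.factorial * q.2.factorial : ℕ) : ℤ_[p]) *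
          PowerSeries.coeff n (EP p) := by push_cast; ring
      _ = (p : ℤ_[p]) ^ q.1 * (p : ℤ_[p]) ^ q.2 := by rw [h4, h1, ← hq', pow_add]
      _ = _ := by rw [← h2, ← h3]; push_cast; ring
  have hxy : (x + y) ^ (2 * L) = 0 := by
    rw [hadd]
    refine Finset.sum_eq_zero fun q hq => ?_
    have hq' := Finset.HasAntidiagonal.mem_antidiagonal.mp hq
    rcases Nat.lt_or_ge q.1 L with h | h
    · rw [hyL q.2 (by omega), mul_zero, mul_zero]
    · rw [hxL q.1 h, zero_mul, mul_zero]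
  let g : ℕ × ℕ → B := fun q => algebraMap ℤ_[p] B (PowerSeries.coeff q.1 (EP p)) * x ^ q.1 *
    (algebraMap ℤ_[p] B (PowerSeries.coeff q.2 (EP p)) * y ^ q.2)
  rw [nev_eq _ (hxL L le_rfl), nev_eq _ (hyL L le_rfl), nev_eq _ hxy, Finset.sum_mul_sum,
    ← Finset.sum_product']
  have h6 : ∀ n ∈ Finset.range (2 * L),
      algebraMap ℤ_[p] B (PowerSeries.coeff n (EP p)) * (x + y) ^ n
        = ∑ q ∈ Finset.HasAntidiagonal.antidiagonal n, g q := by
    intro n _
    rw [hadd, Finset.mul_sum]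
    refine Finset.sum_congr rfl fun q hq => ?_
    have h7 := congrArg (algebraMap ℤ_[p] B) (hcoef n q hq)
    rw [map_mul, map_mul, map_natCast] at h7
    calc algebraMap ℤ_[p] B (PowerSeries.coeff n (EP p)) *
          ((n.choose q.1 : B) * (x ^ q.1 * y ^ q.2))
        = (algebraMap ℤ_[p] B (PowerSeries.coeff n (EP p)) * (n.choose q.1 : B)) *
          (x ^ q.1 * y ^ q.2) := by ring
      _ = g q := by rw [h7]; simp only [g]; ring
  rw [Finset.sum_congr rfl h6, Finset.sum_sigma']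
  symm
  rw [← Finset.sum_filter_add_sum_filter_not _ (fun z : (_ : ℕ) × ℕ × ℕ => z.2.1 < L ∧ z.2.2 < L)]
  rw [Finset.sum_eq_zero (s := Finset.filter (fun z : (_ : ℕ) × ℕ × ℕ =>
    ¬ (z.2.1 < L ∧ z.2.2 < L)) _), add_zero]
  · refine Finset.sum_bij (fun z _ => z.2) ?_ ?_ ?_ ?_
    · intro z hz
      obtain ⟨_, h8⟩ := Finset.mem_filter.mp hz
      rw [Finset.mem_product, Finset.mem_range, Finset.mem_range]
      exact h8
    · intro z hz w hw h
      obtain ⟨h8, _⟩ := Finset.mem_filter.mp hz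
      obtain ⟨h9, _⟩ := Finset.mem_filter.mp hw
      have h10 := Finset.HasAntidiagonal.mem_antidiagonal.mp (Finset.mem_sigma.mp h8).2
      have h11 := Finset.HasAntidiagonal.mem_antidiagonal.mp (Finset.mem_sigma.mp h9).2
      rcases z with ⟨z1, z2⟩
      rcases w with ⟨w1, w2⟩
      simp only at h h10 h11
      subst h
      have : z1 = w1 := by omega
      subst this
      rfl
    · intro q hq
      obtain ⟨h8, h9⟩ := Finset.mem_product.mp hq
      rw [Finset.mem_range] at h8 h9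
      refine ⟨⟨q.1 + q.2, q⟩, ?_, rfl⟩
      rw [Finset.mem_filter, Finset.mem_sigma, Finset.mem_range,
        Finset.HasAntidiagonal.mem_antidiagonal]
      have h12 : q.1 + q.2 < 2 * L := by omega
      exact ⟨⟨h12, rfl⟩, h8, h9⟩
    · intro z _
      rfl
  · intro z hz
    obtain ⟨_, h8⟩ := Finset.mem_filter.mp hz
    simp only [g]
    by_cases h9 : z.2.1 < L
    · have h10 : L ≤ z.2.2 := by
        by_contra h11
        exact h8 ⟨h9, by omega⟩
      rw [hyL _ h10, mul_zero, mul_zero]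
    · rw [hxL _ (by omega), mul_zero, zero_mul]

theorem nev_EP_sum {α : Type*} (s : Finset α) (f : α → B) (hf : ∀ i ∈ s, IsNilpotent (f i)) :
    ∏ i ∈ s, nev (EP p) (f i) = nev (EP p) (∑ i ∈ s, f i) := by
  classical
  induction s using Finset.induction_on with
  | empty =>
    have h0 : PowerSeries.coeff 0 (EP p) = 1 := by
      have := EP_fac p 0
      simpa using this
    rw [Finset.prod_empty, Finset.sum_empty, nev_zero, h0, map_one]
  | insert a s ha ih =>
    rw [Finset.prod_insert ha, Finset.sum_insert ha,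
      ih (fun i hi => hf i (Finset.mem_insert_of_mem hi)), nev_EP_add]
    · exact hf a (Finset.mem_insert_self a s)
    · exact isNilpotent_sum fun i hi => hf i (Finset.mem_insert_of_mem hi)

end

end HN
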