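import Pool.Agent.HN.AH

/-! # HN/AddChar : the additive character (module HN-13)

`A = W(K)/p^k`, `K` a finite field with `p^h` elements, `B` an `A`-algebra with an element `γ`,
`γ^(p-1) = p u`.  `Psi x = ∏_{i<h} E(γ [x]^(p^i))`.

PLAN.  `Psi_pow`: `Psi^p = ∏_i E(γ^p τ^(p^(i+1))) exp(p γ τ^(p^i))` (`nev_AH_pow`), and
`∏_i E(γ^p τ^(p^(i+1))) = ∏_i E(γ^p τ^(p^i))` (`τ^(p^h) = τ`), `γ^p = p (u γ)`, so by `nev_AH_p`
everything is a product of values of `exp(p ·)`, with total argument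
`∑_i τ^(p^i) γ (1 + ∑_{j<J} p^(p^j-j-1) u^(p^j) (p u)^(g_j))`, `g_j = gi p j`
(`γ^(p^j) = γ (γ^(p-1))^(g_j)`), and the bracket is `1 + u + ∑_{i≥2} p^(g_i - i) u^(g_i) = 0`
(`i = j + 1`: `g_{j+1} = p^j + g_j`; terms with `i ≥ k + 2` vanish because `p^k = 0`).
`Psi_two`: `E(x) = 1 + x + x²(...)`.
`Psi_add`: `z = Psi x Psi y / Psi (x+y)`; `z = 1 + w`, `w = γ² w'`: by `Psi_two` and
`τ x + τ y - τ (x+y) ∈ p A` (kernel of `π`), `p = γ^(p-1) u⁻¹ ∈ γ B`.
`(1+w)^p = 1` and `(1+w)^p - 1 = p w (1 + nilpotent)` (`w^(p-1) = (pu)² w'^(p-1)`,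
`p ∣ choose p i`), so `p w = 0`.
`Psi_sum`: `x₀` with `∑_i x₀^(p^i) ≠ 0` (polynomial of degree `< p^h`); `Psi x₀ - 1 = γ * unit`;
`(Psi x₀ - 1) ∑_x Psi x = ∑_x (Psi x₀ Psi x - Psi (x₀ + x))` is killed by `p`.
-/

namespace HN

variable {p k h : ℕ} [hp : Fact p.Prime] {K A B : Type*} [Field K] [Fintype K] [CommRing A]
  [CommRing B] [Algebra ℤ_[p] B] [Algebra A B]

variable (p h) in
/-- `∏_{i<h} E(γ [x]^(p^i))` -/
noncomputable def Psi (D : WD p k K A) (γ : B) (x : K) : B :=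
  ∏ i ∈ Finset.range h, nev (AH p) (γ * algebraMap A B (D.τ x) ^ p ^ i)

section
variable (D : WD p k K A) (Pi : PiData p k A) (γ : B)

include D in
theorem ppow_zero : (p : A) ^ k = 0 := by
  have h := (D.ann k le_rfl 1).mpr (by rw [Nat.sub_self, pow_zero])
  rwa [mul_one] at h

include D in
theorem p_nilp : IsNilpotent (p : A) := ⟨k, ppow_zero D⟩

include D in
theorem gam_pow (hγ : γ ^ (p - 1) = algebraMap A B (p * Pi.u)) : γ ^ ((p - 1) * k) = 0 := by
  rw [pow_mul, hγ, ← map_pow, mul_pow, ppow_zero D, zero_mul, map_zero]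

include D in
theorem gam_nilp (hγ : γ ^ (p - 1) = algebraMap A B (p * Pi.u)) : IsNilpotent γ :=
  ⟨_, gam_pow D Pi γ hγ⟩

include D in
theorem u_unit (hk : 1 ≤ k) : IsUnit Pi.u := by
  obtain ⟨y, hy⟩ := Pi.u1
  have h1 : Pi.u = (p : A) * y - 1 := by rw [← hy]; ring
  have h2 : IsUnit (1 - (p : A) * y) :=
    IsNilpotent.isUnit_one_sub ((Commute.all _ _).isNilpotent_mul_right (p_nilp D))
  rw [h1, ← neg_sub]
  exact h2.neg

include D in
theorem Psi_zero (hγ : γ ^ (p - 1) = algebraMap A B (p * Pi.u)) (hk : 1 ≤ k) :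
    Psi p h D γ 0 = 1 := by
  rw [Psi]
  refine Finset.prod_eq_one fun i _ => ?_
  rw [map_zero, map_zero, zero_pow (pow_ne_zero i hp.out.ne_zero), mul_zero, nev_zero, AH_zero,
    map_one]

theorem h_pos (hh : Fintype.card K = p ^ h) : 1 ≤ h := by
  rcases Nat.eq_zero_or_pos h with rfl | h0
  · exfalso
    rw [pow_zero] at hh
    have := Fintype.one_lt_card (α := K)
    omega
  · exact h0

/-- cyclic invariance of products -/
theorem prod_cyc {M : Type*} [CommMonoid M] (f : ℕ → M) {h : ℕ} (hh : 1 ≤ h) (h0 : f h = f 0) :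
    ∏ i ∈ Finset.range h, f (i + 1) = ∏ i ∈ Finset.range h, f i := by
  obtain ⟨m, rfl⟩ : ∃ m, h = m + 1 := ⟨h - 1, by omega⟩
  rw [Finset.prod_range_succ, Finset.prod_range_succ', h0]

theorem sum_cyc {M : Type*} [AddCommMonoid M] (f : ℕ → M) {h : ℕ} (hh : 1 ≤ h) (h0 : f h = f 0) :
    ∑ i ∈ Finset.range h, f (i + 1) = ∑ i ∈ Finset.range h, f i := by
  obtain ⟨m, rfl⟩ : ∃ m, h = m + 1 := ⟨h - 1, by omega⟩
  rw [Finset.sum_range_succ, Finset.sum_range_succ', h0]

theorem tau_card (hh : Fintype.card K = p ^ h) (x : K) : D.τ x ^ p ^ h = D.τ x := by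
  rw [← map_pow, ← hh, FiniteField.pow_card]

theorem tau_cyc (hh : Fintype.card K = p ^ h) (x : K) (j : ℕ) :
    ∑ i ∈ Finset.range h, D.τ x ^ p ^ (i + j) = ∑ i ∈ Finset.range h, D.τ x ^ p ^ i := by
  induction j with
  | zero => rfl
  | succ j ih =>
    rw [← ih]
    have h1 := sum_cyc (fun i => D.τ x ^ p ^ (i + j)) (h_pos hh) (by
      show D.τ x ^ p ^ (h + j) = D.τ x ^ p ^ (0 + j)
      rw [pow_add, pow_mul, tau_card D hh, Nat.zero_add])
    rw [← h1]
    refine Finset.sum_congr rfl fun i _ => ?_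
    rw [show i + 1 + j = i + (j + 1) by ring]

theorem gi_succ (p i : ℕ) : gi p (i + 1) = gi p i + p ^ i := by
  rw [gi, gi, Finset.sum_range_succ]

theorem gi_zero (p : ℕ) : gi p 0 = 0 := by rw [gi]; simp

theorem gi_mul' (hp1 : 1 ≤ p) (i : ℕ) : (p - 1) * gi p i + 1 = p ^ i := by
  induction i with
  | zero => rw [gi_zero]; simp
  | succ i ih =>
    rw [gi_succ, mul_add]
    have : (p - 1) * gi p i + (p - 1) * p ^ i + 1 = ((p - 1) * gi p i + 1) + (p - 1) * p ^ i := by
      ring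
    rw [this, ih]
    obtain ⟨q, rfl⟩ : ∃ q, p = q + 1 := ⟨p - 1, by omega⟩
    rw [Nat.add_sub_cancel, pow_succ]
    ring

theorem le_gi' (hp2 : 2 ≤ p) (i : ℕ) : i ≤ gi p i := by
  induction i with
  | zero => exact Nat.zero_le _
  | succ i ih =>
    rw [gi_succ]
    have : 1 ≤ p ^ i := Nat.one_le_pow _ _ (by omega)
    omega

theorem gam_ppow (hγ : γ ^ (p - 1) = algebraMap A B (p * Pi.u)) (j : ℕ) :
    γ ^ p ^ j = γ * algebraMap A B (p * Pi.u) ^ gi p j := by
  rw [← gi_mul' hp.out.one_le j, pow_succ, pow_mul, hγ, mul_comm]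

theorem Psi_pow (hγ : γ ^ (p - 1) = algebraMap A B (p * Pi.u)) (hk : 1 ≤ k)
    (hh : Fintype.card K = p ^ h) (x : K) : Psi p h D γ x ^ p = 1 := by
  have hγn : IsNilpotent γ := gam_nilp D Pi γ hγ
  have hp2 := hp.out.two_le
  set t : ℕ → B := fun i => algebraMap A B (D.τ x ^ p ^ i) with ht
  set u : B := algebraMap A B Pi.u with hu
  have hPsi : Psi p h D γ x = ∏ i ∈ Finset.range h, nev (AH p) (γ * t i) := by
    rw [Psi]
    refine Finset.prod_congr rfl fun i _ => ?_
    simp only [ht, map_pow]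
  have htp : ∀ i, t i ^ p = t (i + 1) := by
    intro i
    simp only [ht, ← map_pow, ← pow_mul, ← pow_succ]
  have htpj : ∀ i j, t i ^ p ^ j = t (i + j) := by
    intro i j
    simp only [ht, ← map_pow, ← pow_mul, ← pow_add]
  have hth : t h = t 0 := by
    simp only [ht, tau_card D hh, pow_zero, pow_one]
  -- the powers
  have h1 : ∀ i, nev (AH p) (γ * t i) ^ p
      = nev (AH p) (γ ^ p * t (i + 1)) * nev (EP p) (γ * t i) := by
    intro i
    rw [nev_AH_pow p ((Commute.all _ _).isNilpotent_mul_right hγn), mul_pow, htp]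
  have h2 : ∏ i ∈ Finset.range h, nev (AH p) (γ ^ p * t (i + 1))
      = ∏ i ∈ Finset.range h, nev (AH p) (γ ^ p * t i) :=
    prod_cyc (fun i => nev (AH p) (γ ^ p * t i)) (h_pos hh) (by simp only [hth])
  -- the value at multiples of p
  have hγp : γ ^ p = (p : B) * (u * γ) := by
    have := gam_ppow Pi γ hγ 1
    rw [pow_one] at this
    rw [this, show gi p 1 = 1 by rw [gi]; simp, pow_one, map_mul, map_natCast]
    ring
  have hnil : ∀ i, (u * γ * t i) ^ p ^ (k + 1) = 0 := by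
    intro i
    have h3 : (p - 1) * k ≤ p ^ (k + 1) := by
      have h4 : k ≤ p ^ k := (Nat.lt_pow_self (by omega)).le
      calc (p - 1) * k ≤ p * p ^ k := Nat.mul_le_mul (by omega) h4
        _ = p ^ (k + 1) := by rw [pow_succ, mul_comm]
    rw [mul_pow, mul_pow, pow_eq_zero_of_le h3 (gam_pow D Pi γ hγ), mul_zero, zero_mul]
  have h3 : ∀ i, nev (AH p) (γ ^ p * t i) = ∏ j ∈ Finset.range (k + 1), nev (EP p)
      (γ * (algebraMap A B ((p : A) ^ (gi p (j + 1) - (j + 1)) * Pi.u ^ gi p (j + 1)) *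
        t (i + j))) := by
    intro i
    have h4 : γ ^ p * t i = (p : B) * (u * γ * t i) := by rw [hγp]; ring
    rw [h4, nev_AH_p p (hnil i)]
    refine Finset.prod_congr rfl fun j _ => ?_
    congr 1
    rw [mul_pow, mul_pow, htpj, gam_ppow Pi γ hγ j, gi_succ]
    have h5 := AHs.ppow_sub p j
    have h6 : gi p j + p ^ j - (j + 1) = (p ^ j - j - 1) + gi p j := by omega
    rw [h6]
    simp only [map_mul, map_pow, map_natCast, ← hu]
    rw [pow_add, pow_add, mul_pow]
    ring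
  have hnil2 : ∀ b : B, IsNilpotent (γ * b) := fun b =>
    (Commute.all _ _).isNilpotent_mul_right hγn
  have h4 : ∀ i, nev (AH p) (γ ^ p * t i) = nev (EP p) (∑ j ∈ Finset.range (k + 1),
      (γ * (algebraMap A B ((p : A) ^ (gi p (j + 1) - (j + 1)) * Pi.u ^ gi p (j + 1)) *
        t (i + j)))) := by
    intro i
    rw [h3, nev_EP_sum p _ _ fun j _ => hnil2 _]
  have hnil3 : ∀ i, IsNilpotent (∑ j ∈ Finset.range (k + 1),
      (γ * (algebraMap A B ((p : A) ^ (gi p (j + 1) - (j + 1)) * Pi.u ^ gi p (j + 1)) *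
        t (i + j)))) := fun i => isNilpotent_sum fun j _ => hnil2 _
  rw [hPsi, ← Finset.prod_pow, Finset.prod_congr rfl fun i _ => h1 i, Finset.prod_mul_distrib, h2,
    Finset.prod_congr rfl fun i _ => h4 i, nev_EP_sum p _ _ fun i _ => hnil3 i,
    nev_EP_sum p _ _ fun i _ => hnil2 _,
    nev_EP_add p (isNilpotent_sum fun i _ => hnil3 i) (isNilpotent_sum fun i _ => hnil2 _)]
  have hT : ∀ j, ∑ i ∈ Finset.range h, t (i + j) = ∑ i ∈ Finset.range h, t i := by
    intro j
    simp only [ht]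
    rw [← map_sum, tau_cyc D hh x j, map_sum]
  have h5 : (∑ i ∈ Finset.range h, ∑ j ∈ Finset.range (k + 1),
      γ * (algebraMap A B ((p : A) ^ (gi p (j + 1) - (j + 1)) * Pi.u ^ gi p (j + 1)) * t (i + j)))
      + ∑ i ∈ Finset.range h, γ * t i
      = γ * (∑ i ∈ Finset.range h, t i) * algebraMap A B (1 + Pi.u +
        ∑ i ∈ Finset.Ico 2 (k + 2), (p : A) ^ (gi p i - i) * Pi.u ^ gi p i) := by
    rw [Finset.sum_comm]
    have h6 : ∀ j ∈ Finset.range (k + 1), ∑ i ∈ Finset.range h,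
        γ * (algebraMap A B ((p : A) ^ (gi p (j + 1) - (j + 1)) * Pi.u ^ gi p (j + 1)) * t (i + j))
        = γ * (∑ i ∈ Finset.range h, t i) *
          algebraMap A B ((p : A) ^ (gi p (j + 1) - (j + 1)) * Pi.u ^ gi p (j + 1)) := by
      intro j _
      rw [← Finset.mul_sum, ← Finset.mul_sum, hT j]
      ring
    rw [Finset.sum_congr rfl h6, ← Finset.mul_sum, ← Finset.mul_sum]
    have h8 : ∑ j ∈ Finset.range (k + 1), algebraMap A B ((p : A) ^ (gi p (j + 1) - (j + 1)) *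
        Pi.u ^ gi p (j + 1)) = algebraMap A B (∑ j ∈ Finset.range (k + 1),
        (p : A) ^ (gi p (j + 1) - (j + 1)) * Pi.u ^ gi p (j + 1)) := (map_sum _ _ _).symm
    have h7 : ∑ j ∈ Finset.range (k + 1), (p : A) ^ (gi p (j + 1) - (j + 1)) * Pi.u ^ gi p (j + 1)
        = Pi.u + ∑ i ∈ Finset.Ico 2 (k + 2), (p : A) ^ (gi p i - i) * Pi.u ^ gi p i := by
      rw [Finset.sum_range_succ', Finset.sum_Ico_eq_sum_range, add_comm]
      congr 1
      · rw [show gi p (0 + 1) = 1 by rw [gi]; simp]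
        simp
      · refine Finset.sum_congr (by congr 1) fun i _ => ?_
        rw [show i + 1 + 1 = 2 + i by ring]
    rw [h8, h7, map_add, map_add, map_add, map_one]
    ring
  rw [h5, Pi.eq, map_zero, mul_zero, nev_zero]
  have h0 : PowerSeries.coeff 0 (EP p) = 1 := by
    have := EP_fac p 0
    simpa using this
  rw [h0, map_one]

omit hp [Field K] [Fintype K] [CommRing A] [Algebra ℤ_[p] B] [Algebra A B] in
theorem prod_two {b : B} (s : Finset ℕ) (f a : ℕ → B)
    (hf : ∀ i ∈ s, ∃ c, f i = 1 + b * a i + b ^ 2 * c) :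
    ∃ c, ∏ i ∈ s, f i = 1 + b * ∑ i ∈ s, a i + b ^ 2 * c := by
  classical
  induction s using Finset.induction_on with
  | empty => exact ⟨0, by simp⟩
  | insert i s hi ih =>
    obtain ⟨c, hc⟩ := ih fun j hj => hf j (Finset.mem_insert_of_mem hj)
    obtain ⟨c', hc'⟩ := hf i (Finset.mem_insert_self i s)
    refine ⟨c + c' + a i * (∑ i ∈ s, a i) + b * (a i * c + c' * ∑ i ∈ s, a i) + b ^ 2 * (c * c'), ?_⟩
    rw [Finset.prod_insert hi, Finset.sum_insert hi, hc, hc']
    ring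

theorem AH_one : PowerSeries.coeff 1 (AH p) = 1 := by
  have := AH_small p (n := 1) hp.out.one_lt
  simpa using this

theorem Psi_two (hγ : γ ^ (p - 1) = algebraMap A B (p * Pi.u)) (hk : 1 ≤ k) (x : K) :
    ∃ c : B, Psi p h D γ x
      = 1 + γ * algebraMap A B (∑ i ∈ Finset.range h, D.τ x ^ p ^ i) + γ ^ 2 * c := by
  have h1 := prod_two (b := γ) (Finset.range h)
    (fun i => nev (AH p) (γ * algebraMap A B (D.τ x) ^ p ^ i))
    (fun i => algebraMap A B (D.τ x ^ p ^ i)) (fun i _ => by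
      obtain ⟨c, hc⟩ := nev_two (AH p) (x := γ * algebraMap A B (D.τ x) ^ p ^ i)
        ((Commute.all _ _).isNilpotent_mul_right (gam_nilp D Pi γ hγ))
      refine ⟨(algebraMap A B (D.τ x) ^ p ^ i) ^ 2 * c, ?_⟩
      rw [hc, AH_zero, AH_one, map_one, map_pow]
      ring)
  obtain ⟨c, hc⟩ := h1
  refine ⟨c, ?_⟩
  rw [Psi, map_sum]
  exact hc

include D in
theorem p_dvd_gam (hγ : γ ^ (p - 1) = algebraMap A B (p * Pi.u)) (hk : 1 ≤ k) :
    ∃ v : B, (p : B) = γ * v := by
  obtain ⟨u', hu'⟩ := (u_unit D Pi hk).exists_right_inv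
  have hp2 := hp.out.two_le
  refine ⟨γ ^ (p - 2) * algebraMap A B u', ?_⟩
  have h1 : γ * (γ ^ (p - 2) * algebraMap A B u') = γ ^ (p - 1) * algebraMap A B u' := by
    rw [← mul_assoc, ← pow_succ', show p - 2 + 1 = p - 1 by omega]
  rw [h1, hγ, ← map_mul, mul_assoc, hu', mul_one, map_natCast]

theorem Psi_add (hγ : γ ^ (p - 1) = algebraMap A B (p * Pi.u)) (hk : 1 ≤ k)
    (hh : Fintype.card K = p ^ h) (x y : K) :
    (p : B) * (Psi p h D γ x * Psi p h D γ y - Psi p h D γ (x + y)) = 0 := by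
  have hp2 := hp.out.two_le
  have hγn : IsNilpotent γ := gam_nilp D Pi γ hγ
  obtain ⟨c₁, h1⟩ := Psi_two (h := h) D Pi γ hγ hk x
  obtain ⟨c₂, h2⟩ := Psi_two (h := h) D Pi γ hγ hk y
  obtain ⟨c₃, h3⟩ := Psi_two (h := h) D Pi γ hγ hk (x + y)
  have e1 := Psi_pow D Pi γ hγ hk hh x
  have e2 := Psi_pow D Pi γ hγ hk hh y
  have e3 := Psi_pow D Pi γ hγ hk hh (x + y)
  set P₁ := Psi p h D γ x
  set P₂ := Psi p h D γ y
  set P₃ := Psi p h D γ (x + y)
  set T : K → A := fun z => ∑ i ∈ Finset.range h, D.τ z ^ p ^ i with hT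
  have : CharP K p := by
    have hc : CharP K (ringChar K) := ringChar.charP K
    obtain ⟨n, hn, hcard⟩ := FiniteField.card K (ringChar K)
    have hpd : p ∣ ringChar K ^ (n : ℕ) := by
      rw [← hcard, hh]; exact dvd_pow_self p (by have := h_pos (K := K) hh; omega)
    have h5 := (Nat.prime_dvd_prime_iff_eq hp.out hn).mp (hp.out.dvd_of_dvd_pow hpd)
    rwa [← h5] at hc
  obtain ⟨a, ha⟩ : (p : A) ∣ T x + T y - T (x + y) := by
    rw [← D.ker, map_sub, map_add]
    simp only [hT, map_sum, map_pow, D.πτ]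
    rw [← Finset.sum_add_distrib, ← Finset.sum_sub_distrib]
    refine Finset.sum_eq_zero fun i _ => ?_
    rw [add_pow_char_pow, sub_self]
  obtain ⟨v, hv⟩ := p_dvd_gam D Pi γ hγ hk
  -- P₁ P₂ = P₃ + γ^2 c
  obtain ⟨c, hc⟩ : ∃ c, P₁ * P₂ = P₃ + γ ^ 2 * c := by
    refine ⟨c₁ + c₂ - c₃ + algebraMap A B (T x) * algebraMap A B (T y) + v * algebraMap A B a
      + γ * (algebraMap A B (T x) * c₂ + c₁ * algebraMap A B (T y)) + γ ^ 2 * (c₁ * c₂), ?_⟩
    have h6 : algebraMap A B (T x) + algebraMap A B (T y) - algebraMap A B (T (x + y))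
        = γ * v * algebraMap A B a := by
      rw [← map_add, ← map_sub, ha, map_mul, map_natCast, hv]
    rw [h1, h2, h3]
    linear_combination γ * h6
  -- the quotient
  set Q : B := P₃ ^ (p - 1) with hQ
  have hQ3 : P₃ * Q = 1 := by
    rw [hQ, ← pow_succ', show p - 1 + 1 = p by omega, e3]
  have hQp : Q ^ p = 1 := by rw [hQ, ← pow_mul, mul_comm, pow_mul, e3, one_pow]
  set w' : B := c * Q
  set w : B := γ ^ 2 * w' with hw
  have hz : P₁ * P₂ * Q = 1 + w := by
    rw [hc, hw]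
    linear_combination hQ3
  have hzp : (1 + w) ^ p = 1 := by
    rw [← hz, mul_pow, mul_pow, e1, e2, hQp]; ring
  have hwn : IsNilpotent w := by
    rw [hw]
    exact (Commute.all _ _).isNilpotent_mul_right (hγn.pow_of_pos (by norm_num))
  -- expansion
  have hexp : ∃ s, (1 + w) ^ p = 1 + w ^ p + (p : B) * (w + w ^ 2 * s) := by
    rw [add_pow_prime_eq' hp.out, one_pow]
    have h7 : w ^ 2 ∣ ∑ j ∈ Finset.Ioo 0 p, 1 ^ j * w ^ (p - j) * ((p.choose j / p : ℕ) : B) - w := by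
      rw [← Finset.sum_erase_add _ _ (Finset.mem_Ioo.mpr ⟨by omega, by omega⟩ : p - 1 ∈
        Finset.Ioo 0 p)]
      have h8 : p.choose (p - 1) / p = 1 := by
        rw [Nat.choose_symm (by omega : 1 ≤ p), Nat.choose_one_right, Nat.div_self hp.out.pos]
      rw [h8, Nat.cast_one, mul_one, one_pow, one_mul, show p - (p - 1) = 1 by omega, pow_one,
        add_sub_cancel_right]
      refine Finset.dvd_sum fun j hj => ?_
      obtain ⟨h9, h10⟩ := Finset.mem_erase.mp hj
      obtain ⟨h11, h12⟩ := Finset.mem_Ioo.mp h10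
      rw [one_pow, one_mul]
      exact Dvd.dvd.mul_right (pow_dvd_pow _ (by omega)) _
    obtain ⟨s, hs⟩ := h7
    refine ⟨s, ?_⟩
    rw [← hs]
    ring
  obtain ⟨s, hs⟩ := hexp
  -- w^p = p w (nilpotent)
  have hwp : w ^ p = (p : B) * (w * ((p : B) * (algebraMap A B Pi.u ^ 2 * w' ^ (p - 1)))) := by
    have h13 : w ^ (p - 1) = (p : B) ^ 2 * (algebraMap A B Pi.u ^ 2 * w' ^ (p - 1)) := by
      rw [hw, mul_pow, ← pow_mul, mul_comm 2 (p - 1), pow_mul, hγ, map_mul, map_natCast]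
      ring
    calc w ^ p = w * w ^ (p - 1) := by rw [← pow_succ', show p - 1 + 1 = p by omega]
      _ = _ := by rw [h13]; ring
  have hpn : IsNilpotent (p : B) := by
    have := (p_nilp D).map (algebraMap A B)
    rwa [map_natCast] at this
  have hunit : IsUnit (1 + (w * s + (p : B) * (algebraMap A B Pi.u ^ 2 * w' ^ (p - 1)))) := by
    apply IsNilpotent.isUnit_one_add
    exact (Commute.all _ _).isNilpotent_add ((Commute.all _ _).isNilpotent_mul_right hwn)
      ((Commute.all _ _).isNilpotent_mul_right hpn)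
  have hpw : (p : B) * w = 0 := by
    have h14 : (p : B) * w * (1 + (w * s + (p : B) * (algebraMap A B Pi.u ^ 2 * w' ^ (p - 1))))
        = 0 := by
      have h15 : w ^ p + (p : B) * (w + w ^ 2 * s) = 0 := by
        linear_combination hs.symm.trans hzp
      rw [hwp] at h15
      linear_combination h15
    exact (hunit.mul_left_eq_zero).mp h14
  have hfin : P₁ * P₂ - P₃ = w * P₃ := by
    have h16 : P₁ * P₂ * (P₃ * Q) = P₁ * P₂ := by rw [hQ3, mul_one]
    have h17 : P₁ * P₂ = (1 + w) * P₃ := by rw [← h16, ← hz]; ring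
    rw [h17]; ring
  rw [hfin, ← mul_assoc, hpw, zero_mul]

theorem unit_of_pi (a : A) (ha : D.π a ≠ 0) : IsUnit a := by
  have h1 : D.π (a * D.τ (D.π a)⁻¹ - 1) = 0 := by
    rw [map_sub, map_mul, D.πτ, mul_inv_cancel₀ ha, map_one, sub_self]
  obtain ⟨b, hb⟩ := (D.ker _).mp h1
  have h2 : a * D.τ (D.π a)⁻¹ = 1 + (p : A) * b := by rw [← hb]; ring
  have h3 : IsUnit (a * D.τ (D.π a)⁻¹) := by
    rw [h2]
    exact IsNilpotent.isUnit_one_add ((Commute.all _ _).isNilpotent_mul_right (p_nilp D))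
  exact isUnit_of_mul_isUnit_left h3

omit [CommRing B] [Algebra ℤ_[p] B] [Algebra A B] in
theorem exists_trace_ne (hh : Fintype.card K = p ^ h) :
    ∃ x₀ : K, ∑ i ∈ Finset.range h, x₀ ^ p ^ i ≠ 0 := by
  classical
  by_contra hcon
  push Not at hcon
  have hh1 := h_pos hh
  set P : Polynomial K := ∑ i ∈ Finset.range h, Polynomial.X ^ p ^ i with hP
  have hdeg : P.natDegree ≤ p ^ (h - 1) := by
    refine Polynomial.natDegree_sum_le_of_forall_le _ _ fun i hi => ?_
    rw [Polynomial.natDegree_X_pow]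
    exact Nat.pow_le_pow_right hp.out.pos (by have := Finset.mem_range.mp hi; omega)
  have hP0 : P ≠ 0 := by
    intro h0
    have h1 := congrArg (fun q => Polynomial.coeff q 1) h0
    simp only [hP, Polynomial.finsetSum_coeff, Polynomial.coeff_X_pow, Polynomial.coeff_zero] at h1
    rw [Finset.sum_eq_single 0] at h1
    · simp at h1
    · intro i _ hi
      rw [if_neg]
      intro h2
      have h3 : p ≤ p ^ i := Nat.le_self_pow hi p
      have := hp.out.two_le
      omega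
    · intro h2
      exact absurd (Finset.mem_range.mpr hh1) h2
  have hroots : ∀ x : K, x ∈ P.roots := by
    intro x
    rw [Polynomial.mem_roots hP0, Polynomial.IsRoot, hP, Polynomial.eval_finsetSum]
    simpa using hcon x
  have hcard : Fintype.card K ≤ P.roots.toFinset.card := by
    rw [← Finset.card_univ]
    exact Finset.card_le_card fun x _ => Multiset.mem_toFinset.mpr (hroots x)
  have h4 : P.roots.toFinset.card ≤ p ^ (h - 1) :=
    le_trans (Multiset.toFinset_card_le _) (le_trans (Polynomial.card_roots' P) hdeg)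
  rw [hh] at hcard
  have h5 : p ^ (h - 1) < p ^ h := Nat.pow_lt_pow_right hp.out.one_lt (by omega)
  omega

theorem Psi_sum (hγ : γ ^ (p - 1) = algebraMap A B (p * Pi.u)) (hk : 1 ≤ k)
    (hh : Fintype.card K = p ^ h) : (p : B) ^ 2 * ∑ x : K, Psi p h D γ x = 0 := by
  have hp2 := hp.out.two_le
  have hγn : IsNilpotent γ := gam_nilp D Pi γ hγ
  obtain ⟨x₀, hx₀⟩ := exists_trace_ne (K := K) hh
  obtain ⟨c, hc⟩ := Psi_two (h := h) D Pi γ hγ hk x₀
  set S : B := ∑ x : K, Psi p h D γ x with hS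
  set T : A := ∑ i ∈ Finset.range h, D.τ x₀ ^ p ^ i with hT
  have hTu : IsUnit T := by
    apply unit_of_pi D
    rw [hT]
    simpa only [map_sum, map_pow, D.πτ] using hx₀
  have hv : IsUnit (algebraMap A B T + γ * c) := by
    obtain ⟨t', ht'⟩ := (hTu.map (algebraMap A B)).exists_right_inv
    have h1 : (algebraMap A B T + γ * c) * t' = 1 + γ * (c * t') := by
      rw [add_mul, ht']; ring
    have h2 : IsUnit ((algebraMap A B T + γ * c) * t') := by
      rw [h1]
      exact IsNilpotent.isUnit_one_add ((Commute.all _ _).isNilpotent_mul_right hγn)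
    exact isUnit_of_mul_isUnit_left h2
  have h3 : (p : B) * ((Psi p h D γ x₀ - 1) * S) = 0 := by
    have h4 : (Psi p h D γ x₀ - 1) * S
        = ∑ x : K, (Psi p h D γ x₀ * Psi p h D γ x - Psi p h D γ (x₀ + x)) := by
      rw [Finset.sum_sub_distrib, ← Finset.mul_sum, sub_mul, one_mul]
      congr 1
      rw [hS]
      exact (Fintype.sum_equiv (Equiv.addLeft x₀) _ _ fun x => rfl).symm
    rw [h4, Finset.mul_sum]
    exact Finset.sum_eq_zero fun x _ => Psi_add D Pi γ hγ hk hh x₀ x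
  have h5 : Psi p h D γ x₀ - 1 = γ * (algebraMap A B T + γ * c) := by
    rw [hc]; ring
  have h6 : (p : B) * (γ * S) = 0 := by
    have h7 : (p : B) * (γ * S) * (algebraMap A B T + γ * c) = 0 := by
      rw [h5] at h3
      linear_combination h3
    exact (hv.mul_left_eq_zero).mp h7
  obtain ⟨u', hu'⟩ := ((u_unit D Pi hk).map (algebraMap A B)).exists_right_inv
  have h8 : (p : B) * ((p : B) * algebraMap A B Pi.u * S) = 0 := by
    have h9 : γ ^ (p - 1) = γ ^ (p - 2) * γ := by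
      rw [← pow_succ, show p - 2 + 1 = p - 1 by omega]
    have h10 : (p : B) * algebraMap A B Pi.u = γ ^ (p - 2) * γ := by
      rw [← h9, hγ, map_mul, map_natCast]
    rw [h10]
    linear_combination γ ^ (p - 2) * h6
  linear_combination u' * h8 - (p : B) ^ 2 * S * hu'

end

end HN
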