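import Pool.Agent.HN.SP

/-! # HN/Al : the Frobenius operator `α` on Laurent polynomials (module HND-22)

PLAN.  `al` keeps the coefficients of `ψ(P * sP f)` at the exponents of `bx C δ' N`.
`al_coeff`: unfold.
`sP_al`: let `f` have exponents `≥ 0` of degree `δ`.  A nonzero coefficient of `ψ(P * sP f)` at `m` gives
`p • m + fs β = m₁ + m₂` with `coeff m₁ P ≠ 0` (`deg m₁ = 0`), `f.coeff (zz m₂) ≠ 0` (`deg = δ`), so
`p deg m + ∑ wd_v β_v = δ`, `deg m = δ'` (`hδ`); and `ϖ^(wt m) ≠ 0`, so `wt m < N` (`hϖ`).  So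
`zz m ∈ bx C δ' N`.
`al_thr`: if `(al f).coeff e' ≠ 0` then `e' ≥ 0` and there is `e` with `f.coeff e ≠ 0`, `0 ≤ e`,
`e v ≤ p e' v + β v` for all `v`.  So if `v ∉ Ys` (`β v = 0`) and `1 ≤ e v`, then `1 ≤ e' v`.
`al_tw`: `sP_inj`, `sP_al`, `sP_tw`, `psi_tw` (`al f`, `tw f` have exponents `≥ 0` and the right degree:
`tw` preserves the degree).
-/

open MvPolynomial

namespace HN

section
variable {ι : Type*} [Fintype ι] [DecidableEq ι] {R : Type*} [CommRing R]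

/-- `α f = ψ(P f)`, cut off to the exponents in `bx C δ' N` -/
noncomputable def al (C : CType ι) (p : ℕ) (ϖ : R) (β : ι → ℕ) (δ' : ℤ) (N : ℕ)
    (P : MvPowerSeries ι R) : Lau ι R →ₗ[R] Lau ι R :=
  ∑ e ∈ bx C δ' N, (AddMonoidAlgebra.lsingle e : R →ₗ[R] Lau ι R) ∘ₗ
    (MvPowerSeries.coeff (nn e)) ∘ₗ psi C p ϖ β ∘ₗ (LinearMap.mulLeft R P) ∘ₗ sP

theorem al_coeff (C : CType ι) (p : ℕ) (ϖ : R) (β : ι → ℕ) (δ' : ℤ) (N : ℕ)
    (P : MvPowerSeries ι R) (f : Lau ι R) (e : ι → ℤ) :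
    (al C p ϖ β δ' N P f).coeff e = if e ∈ bx C δ' N then
      MvPowerSeries.coeff (nn e) (psi C p ϖ β (P * sP f)) else 0 := by
  classical
  have h1 : al C p ϖ β δ' N P f = ∑ e' ∈ bx C δ' N, AddMonoidAlgebra.single e'
      (MvPowerSeries.coeff (nn e') (psi C p ϖ β (P * sP f))) := by
    rw [al, LinearMap.sum_apply]
    rfl
  rw [h1, AddMonoidAlgebra.coeff_sum, Finsupp.finsetSum_apply]
  by_cases he : e ∈ bx C δ' N
  · rw [if_pos he, Finset.sum_eq_single e]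
    · simp
    · intro e' _ hne
      rw [AddMonoidAlgebra.coeff_single, Finsupp.single_eq_of_ne]
      exact fun h => hne h.symm
    · intro h
      exact absurd he h
  · rw [if_neg he]
    refine Finset.sum_eq_zero fun e' he' => ?_
    rw [AddMonoidAlgebra.coeff_single, Finsupp.single_eq_of_ne]
    rintro rfl
    exact he he'

/-- the hypotheses on the data of `α` -/
structure AlOK (C : CType ι) (p : ℕ) (ϖ : R) (β : ι → ℕ) (δ δ' : ℤ) (N : ℕ)
    (P : MvPowerSeries ι R) : Prop where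
  hp : 1 ≤ p
  hβ : ∀ v, β v < p
  hβ0 : ∀ v, v ∉ C.Ys → β v = 0
  hδ : (p : ℤ) * δ' + ∑ v, C.wd v * β v = δ
  hϖ : ϖ ^ N = 0
  hP : ∀ m, MvPowerSeries.coeff m P ≠ 0 → C.deg (zz m) = 0

variable {C : CType ι} {p : ℕ} {ϖ : R} {β : ι → ℕ} {δ δ' : ℤ} {N : ℕ} {P : MvPowerSeries ι R}

private theorem al_wN_nn (C : CType ι) {e : ι → ℤ} (he : ∀ v, 0 ≤ e v) :
    (wN C (nn e) : ℤ) = C.wt e := by
  rw [wN_eq, zz_nn he]

/-- a nonzero coefficient of `α f` -/
private theorem al_split {C : CType ι} {p : ℕ} {ϖ : R} {β : ι → ℕ} {P : MvPowerSeries ι R}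
    {f : Lau ι R} {m : ι →₀ ℕ}
    (h : MvPowerSeries.coeff m (psi C p ϖ β (P * sP f)) ≠ 0) :
    ϖ ^ wN C m ≠ 0 ∧ ∃ m₁ m₂ : ι →₀ ℕ, m₁ + m₂ = p • m + fs β ∧
      MvPowerSeries.coeff m₁ P ≠ 0 ∧ f.coeff (zz m₂) ≠ 0 := by
  classical
  rw [coeff_psi] at h
  refine ⟨left_ne_zero_of_mul h, ?_⟩
  have h1 := right_ne_zero_of_mul h
  rw [MvPowerSeries.coeff_mul] at h1
  obtain ⟨⟨m₁, m₂⟩, hm, hne⟩ := Finset.exists_ne_zero_of_sum_ne_zero h1
  rw [Finset.HasAntidiagonal.mem_antidiagonal] at hm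
  refine ⟨m₁, m₂, hm, left_ne_zero_of_mul hne, ?_⟩
  have := right_ne_zero_of_mul hne
  rw [coeff_sP] at this
  exact this

private theorem al_deg_zz (C : CType ι) {p : ℕ} {β : ι → ℕ} {m m₁ m₂ : ι →₀ ℕ}
    (h : m₁ + m₂ = p • m + fs β) :
    C.deg (zz m₁) + C.deg (zz m₂) = p * C.deg (zz m) + ∑ v, C.wd v * β v := by
  have h1 : ∀ v, (m₁ v : ℤ) + m₂ v = p * m v + β v := by
    intro v
    have := congrArg (fun x : ι →₀ ℕ => x v) h
    simp only [Finsupp.add_apply, Finsupp.smul_apply, fs_apply, smul_eq_mul] at this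
    exact_mod_cast this
  unfold CType.deg zz
  rw [← Finset.sum_add_distrib, Finset.mul_sum, ← Finset.sum_add_distrib]
  refine Finset.sum_congr rfl fun v _ => ?_
  have := h1 v
  linear_combination (C.wd v) * this

theorem sP_al (H : AlOK C p ϖ β δ δ' N P) {f : Lau ι R} (hn : Nonneg f)
    (hd : ∀ e, f.coeff e ≠ 0 → C.deg e = δ) :
    sP (al C p ϖ β δ' N P f) = psi C p ϖ β (P * sP f) := by
  ext m
  rw [coeff_sP, al_coeff, nn_zz]
  by_cases hm : zz m ∈ bx C δ' N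
  · rw [if_pos hm]
  · rw [if_neg hm]
    by_contra hne
    have hne' : MvPowerSeries.coeff m (psi C p ϖ β (P * sP f)) ≠ 0 := fun h => hne h.symm
    obtain ⟨h1, m₁, m₂, h2, h3, h4⟩ := al_split hne'
    apply hm
    rw [mem_bx]
    refine ⟨?_, fun v => ?_, ?_⟩
    · have h5 := al_deg_zz C h2
      rw [H.hP m₁ h3, hd _ h4, zero_add, ← H.hδ] at h5
      have h6 : (p : ℤ) * C.deg (zz m) = p * δ' := by linarith
      have hp0 : (p : ℤ) ≠ 0 := by
        have := H.hp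
        omega
      exact mul_left_cancel₀ hp0 h6
    · exact Int.natCast_nonneg _
    · rw [← wN_eq]
      by_contra hN
      apply h1
      have hle : N ≤ wN C m := by omega
      obtain ⟨t, ht⟩ := Nat.exists_eq_add_of_le hle
      rw [ht, pow_add, H.hϖ, zero_mul]

theorem al_nonneg (H : AlOK C p ϖ β δ δ' N P) (f : Lau ι R) :
    Nonneg (al C p ϖ β δ' N P f) := by
  intro e he v
  rw [al_coeff] at he
  by_cases h : e ∈ bx C δ' N
  · exact (mem_bx.1 h).2.1 v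
  · rw [if_neg h] at he
    exact absurd rfl he

theorem al_deg (H : AlOK C p ϖ β δ δ' N P) (f : Lau ι R) (e : ι → ℤ)
    (h : (al C p ϖ β δ' N P f).coeff e ≠ 0) : C.deg e = δ' := by
  rw [al_coeff] at h
  by_cases h1 : e ∈ bx C δ' N
  · exact (mem_bx.1 h1).1
  · rw [if_neg h1] at h
    exact absurd rfl h

theorem al_thr (H : AlOK C p ϖ β δ δ' N P) {f : Lau ι R} {e' : ι → ℤ}
    (h : (al C p ϖ β δ' N P f).coeff e' ≠ 0) :
    ∃ e, f.coeff e ≠ 0 ∧ (∀ v, 0 ≤ e v) ∧ (∀ v, e v ≤ p * e' v + β v) ∧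
      ∀ v, v ∉ C.Ys → 1 ≤ e v → 1 ≤ e' v := by
  have hb : e' ∈ bx C δ' N := by
    by_contra h1
    rw [al_coeff, if_neg h1] at h
    exact h rfl
  rw [al_coeff, if_pos hb] at h
  obtain ⟨_, m₁, m₂, h2, _, h4⟩ := al_split h
  have he' := (mem_bx.1 hb).2.1
  have hle : ∀ v, zz m₂ v ≤ p * e' v + β v := by
    intro v
    have h5 := congrArg (fun x : ι →₀ ℕ => x v) h2
    simp only [Finsupp.add_apply, Finsupp.smul_apply, fs_apply, smul_eq_mul] at h5
    have h6 : (nn e' v : ℤ) = e' v := by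
      have := congrFun (zz_nn he') v
      exact this
    have h7 : (m₁ v : ℤ) + m₂ v = p * (nn e' v : ℤ) + β v := by exact_mod_cast h5
    rw [h6] at h7
    have h8 : (0 : ℤ) ≤ m₁ v := Int.natCast_nonneg _
    show (m₂ v : ℤ) ≤ _
    linarith
  refine ⟨zz m₂, h4, fun v => Int.natCast_nonneg _, hle, ?_⟩
  intro v hv h1
  have h5 := hle v
  rw [H.hβ0 v hv] at h5
  by_contra hc
  have h6 : e' v = 0 := by
    have := he' v
    omega
  rw [h6] at h5
  simp at h5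
  omega

theorem al_dvd {p : ℕ} {u : R} (f : Lau ι R) (e : ι → ℤ) :
    (p : R) ^ (C.wt e).toNat ∣ (al C p ((p : R) * u) β δ' N P f).coeff e := by
  rw [al_coeff]
  by_cases h1 : e ∈ bx C δ' N
  · rw [if_pos h1, coeff_psi]
    have h2 := al_wN_nn C (mem_bx.1 h1).2.1
    have h3 : (C.wt e).toNat = wN C (nn e) := by
      rw [← h2]
      exact Int.toNat_natCast _
    rw [h3, mul_pow, mul_assoc]
    exact dvd_mul_right _ _
  · rw [if_neg h1]
    exact dvd_zero _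

/-- `α` kills monomials of large weight -/
theorem al_large (H : AlOK C p ϖ β δ δ' N P) {e : ι → ℤ} (he : ∀ v, 0 ≤ e v)
    (h : (p : ℤ) * N + ∑ v, (β v : ℤ) ≤ C.wt e) : al C p ϖ β δ' N P (mon R e) = 0 := by
  refine lau_ext fun e' => ?_
  by_contra hne
  have hne' : (al C p ϖ β δ' N P (mon R e)).coeff e' ≠ 0 := by
    intro h0
    exact hne (by rw [h0]; rfl)
  have hb : e' ∈ bx C δ' N := by
    by_contra h1
    rw [al_coeff, if_neg h1] at hne'
    exact hne' rfl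
  obtain ⟨e₁, h1, _, h3, _⟩ := al_thr H hne'
  have h4 : e₁ = e := by
    by_contra hc
    apply h1
    rw [mon, AddMonoidAlgebra.coeff_single, Finsupp.single_eq_of_ne]
    exact fun h => hc (by first | exact h | exact h.symm)
  subst h4
  have h5 := (mem_bx.1 hb).2.2
  have h6 : C.wt e₁ ≤ p * C.wt e' + ∑ v, (β v : ℤ) := by
    unfold CType.wt
    have h7 : ∑ v ∈ C.Xsᶜ, (β v : ℤ) ≤ ∑ v, (β v : ℤ) :=
      Finset.sum_le_sum_of_subset_of_nonneg (Finset.subset_univ _)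
        (fun v _ _ => Int.natCast_nonneg _)
    calc ∑ v ∈ C.Xsᶜ, e₁ v ≤ ∑ v ∈ C.Xsᶜ, (p * e' v + β v) :=
          Finset.sum_le_sum fun v _ => h3 v
      _ = p * ∑ v ∈ C.Xsᶜ, e' v + ∑ v ∈ C.Xsᶜ, (β v : ℤ) := by
          rw [Finset.sum_add_distrib, Finset.mul_sum]
      _ ≤ _ := by linarith
  have h8 : (1 : ℤ) ≤ p := by
    have := H.hp
    omega
  have h9 : (p : ℤ) * C.wt e' ≤ p * (N - 1) :=
    mul_le_mul_of_nonneg_left (by omega) (by omega)
  nlinarith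

end

section
variable {ι : Type*} [Fintype ι] [DecidableEq ι] {F R : Type*} [Field F] [CommRing R]
variable {p k : ℕ} [Fact p.Prime] [Algebra ℤ_[p] R]

omit [Fact p.Prime] [Algebra ℤ_[p] R] in
private theorem al_tw_deg {C : CType ι} {ga : ι → R} {h : ι → MvPolynomial ι R} {v : ι}
    (hm : ∀ m : ι →₀ ℕ, (h v).coeff m ≠ 0 → C.deg (fun u => (m u : ℤ)) = 0)
    {δ : ℤ} {x : Lau ι R} (hd : ∀ e, x.coeff e ≠ 0 → C.deg e = δ) (e : ι → ℤ)
    (he : (tw ga h v x).coeff e ≠ 0) : C.deg e = δ := by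
  classical
  letI : Ranked ι := ⟨fun v => (Fintype.equivFin ι v).val, fun a b hab =>
    (Fintype.equivFin ι).injective (Fin.ext hab)⟩
  rw [tw_coeff] at he
  by_cases h1 : x.coeff e = 0
  · rw [h1, mul_zero, zero_add] at he
    obtain ⟨m, _, hne⟩ := Finset.exists_ne_zero_of_sum_ne_zero he
    have h2 := hm m (left_ne_zero_of_mul hne)
    have h3 := hd _ (right_ne_zero_of_mul hne)
    unfold CType.deg at h2 h3 ⊢
    simp only [mul_sub, Finset.sum_sub_distrib] at h3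
    linarith
  · exact hd e h1

theorem al_tw (W : WD p k F R) (Pi : PiData p k R) (hk : 1 ≤ k) {C : CType ι}
    {f f' : MvPolynomial ι F} (hF : C.Hom f) (hf : ∀ m, f'.coeff m = f.coeff m ^ p)
    {β : ι → ℕ} {δ δ' : ℤ} {N : ℕ} (H : AlOK C p ((p : R) * Pi.u) β δ δ' N (Fh W f))
    {ga ga' : ι → R} (hga : ∀ v, (p : R) * ga' v = ga v + β v) (v : ι)
    {x : Lau ι R} (hn : Nonneg x) (hd : ∀ e, x.coeff e ≠ 0 → C.deg e = δ) :
    al C p ((p : R) * Pi.u) β δ' N (Fh W f) (tw ga (hG W Pi f) v x)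
      = (p : R) • tw ga' (hG W Pi f') v (al C p ((p : R) * Pi.u) β δ' N (Fh W f) x) := by
  have hdeg : ∀ e, (tw ga (hG W Pi f) v x).coeff e ≠ 0 → C.deg e = δ :=
    al_tw_deg (fun m hm => (hG_mon (Fact.out : p.Prime) W Pi hF v m hm).1) hd
  refine sP_inj (al_nonneg H _) ?_ ?_
  · intro e he u
    have h1 : (tw ga' (hG W Pi f') v (al C p ((p : R) * Pi.u) β δ' N (Fh W f) x)).coeff e ≠ 0 := by
      intro h0
      apply he
      rw [AddMonoidAlgebra.coeff_smul, Finsupp.smul_apply, h0, smul_zero]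
    exact nonneg_tw ga' (hG W Pi f') v (al_nonneg H x) e h1 u
  · rw [sP_al H (nonneg_tw _ _ _ hn) hdeg, sP_tw _ _ _ hn,
      psi_tw W Pi hk hF hf H.hβ hga v (sP x), map_smul, sP_tw _ _ _ (al_nonneg H x),
      sP_al H hn hd]

end

end HN
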