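import Mathlib

/-! # HN/CBin : divisibility of the coefficients of `det(1 - T A_{a-1} ⋯ A_0)` (module HN-14)

PLAN.  Cauchy-Binet (`Pool/Agent/Helper51/U2/CB.lean` on main has a version for `Fin r × Fin n`) or a
direct argument: by induction on `a` every `κ × κ` minor (arbitrary injective/any index maps
`f g : Fin κ → 𝔅`) of `prodM A a` is divisible by `x ^ ∑_{j<a} h j`, and is `0` if `(S j).card < κ`
for some `j < a`: `det ((A_j N).submatrix f g) = ∑_K det (A_j.submatrix f K) det (N.submatrix K g)`,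
and row `b` of `A_j` is `x^(w j b)` times something.  Coefficient of `charpolyRev` = signed sum of
principal minors (`Matrix.charpoly_coeff_eq_sum_minors`, `Matrix.reverse_charpoly`).
-/

open Matrix

namespace HN

variable {R : Type*} [CommRing R] {𝔅 : Type*} [Fintype 𝔅] [DecidableEq 𝔅]

/-- `A_{a-1} ⋯ A_1 A_0` -/
def prodM (A : ℕ → Matrix 𝔅 𝔅 R) : ℕ → Matrix 𝔅 𝔅 R
  | 0 => 1
  | (j + 1) => A j * prodM A j

theorem CBin_det_mul {ι : Type*} [Fintype ι] [DecidableEq ι] (A N : Matrix 𝔅 𝔅 R) (f g : ι → 𝔅) :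
    ((A * N).submatrix f g).det =
      ∑ k : ι → 𝔅, (∏ i, A (f i) (k i)) * (N.submatrix k g).det := by
  have h1 : ((A * N).submatrix f g) = fun i => ∑ b, A (f i) b • (fun j => N b (g j)) := by
    ext i j
    simp [Matrix.mul_apply, Finset.sum_apply]
  have h2 : ((A * N).submatrix f g).det = (Matrix.detRowAlternating (R := R) (n := ι))
      (fun i => ∑ b, A (f i) b • (fun j => N b (g j))) := by
    rw [h1]; rfl
  rw [h2]
  have h3 := (Matrix.detRowAlternating (R := R) (n := ι)).toMultilinearMap.map_sum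
    (fun (i : ι) (b : 𝔅) => A (f i) b • (fun j => N b (g j)))
  have h4 : (Matrix.detRowAlternating (R := R) (n := ι))
      (fun i => ∑ b, A (f i) b • (fun j => N b (g j))) =
      ∑ k : ι → 𝔅, (Matrix.detRowAlternating (R := R) (n := ι)).toMultilinearMap
        (fun i => A (f i) (k i) • (fun j => N (k i) (g j))) := h3
  rw [h4]
  refine Finset.sum_congr rfl fun k _ => ?_
  rw [MultilinearMap.map_smul_univ, smul_eq_mul]
  rfl

theorem CBin_minor_dvd {ι : Type*} [Fintype ι] [DecidableEq ι] (x : R) (a : ℕ)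
    (A : ℕ → Matrix 𝔅 𝔅 R) (S : ℕ → Finset 𝔅)
    (w : ℕ → 𝔅 → ℕ) (hrow : ∀ j, j < a → ∀ b b', b ∉ S j → A j b b' = 0)
    (hdiv : ∀ j, j < a → ∀ b b', x ^ w j b ∣ A j b b') (h : ℕ → ℕ)
    (hmin : ∀ j, j < a → ∀ I : Finset 𝔅, I ⊆ S j → I.card = Fintype.card ι →
      h j ≤ ∑ b ∈ I, w j b) (f g : ι → 𝔅) :
    x ^ (∑ j ∈ Finset.range a, h j) ∣ ((prodM A a).submatrix f g).det := by
  induction a generalizing f g with
  | zero => simp
  | succ a ih =>
    have ih' := ih (fun j hj => hrow j (by omega)) (fun j hj => hdiv j (by omega))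
      (fun j hj => hmin j (by omega))
    by_cases hf : Function.Injective f
    · show x ^ (∑ j ∈ Finset.range (a + 1), h j) ∣ ((A a * prodM A a).submatrix f g).det
      rw [CBin_det_mul, Finset.sum_range_succ, add_comm, pow_add]
      refine Finset.dvd_sum fun k _ => mul_dvd_mul ?_ (ih' k g)
      by_cases hS : ∀ i, f i ∈ S a
      · have h1 : h a ≤ ∑ i, w a (f i) := by
          have h2 := hmin a (by omega) (Finset.univ.image f) (by
            intro b hb
            obtain ⟨i, -, rfl⟩ := Finset.mem_image.1 hb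
            exact hS i) (by
            rw [Finset.card_image_of_injective _ hf, Finset.card_univ])
          rwa [Finset.sum_image (fun i _ j _ hij => hf hij)] at h2
        refine (pow_dvd_pow x h1).trans ?_
        rw [← Finset.prod_pow_eq_pow_sum]
        exact Finset.prod_dvd_prod_of_dvd _ _ fun i _ => hdiv a (by omega) _ _
      · push Not at hS
        obtain ⟨i, hi⟩ := hS
        rw [Finset.prod_eq_zero (Finset.mem_univ i) (hrow a (by omega) _ _ hi)]
        exact dvd_zero _
    · have h0 : ((prodM A (a + 1)).submatrix f g).det = 0 := by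
        unfold Function.Injective at hf
        push Not at hf
        obtain ⟨i, j, hij, hne⟩ := hf
        refine Matrix.det_zero_of_row_eq hne ?_
        funext l
        simp only [Matrix.submatrix_apply, hij]
      rw [h0]
      exact dvd_zero _

theorem CBin_minor_zero {ι : Type*} [Fintype ι] [DecidableEq ι] (a : ℕ)
    (A : ℕ → Matrix 𝔅 𝔅 R) (S : ℕ → Finset 𝔅)
    (hrow : ∀ j, j < a → ∀ b b', b ∉ S j → A j b b' = 0) {j : ℕ} (hj : j < a)
    (hS : (S j).card < Fintype.card ι) (f g : ι → 𝔅) :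
    ((prodM A a).submatrix f g).det = 0 := by
  induction a generalizing f g with
  | zero => omega
  | succ a ih =>
    show ((A a * prodM A a).submatrix f g).det = 0
    rcases Nat.lt_succ_iff_lt_or_eq.1 hj with hja | rfl
    · rw [CBin_det_mul]
      refine Finset.sum_eq_zero fun k _ => ?_
      rw [ih (fun j hj => hrow j (by omega)) hja k g, mul_zero]
    · by_cases hf : Function.Injective f
      · rw [CBin_det_mul]
        refine Finset.sum_eq_zero fun k _ => ?_
        have h1 : ∃ i, f i ∉ S j := by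
          by_contra hcon
          push Not at hcon
          have h2 : (Finset.univ.image f) ⊆ S j := by
            intro b hb
            obtain ⟨i, -, rfl⟩ := Finset.mem_image.1 hb
            exact hcon i
          have h3 := Finset.card_le_card h2
          rw [Finset.card_image_of_injective _ hf, Finset.card_univ] at h3
          omega
        obtain ⟨i, hi⟩ := h1
        rw [Finset.prod_eq_zero (Finset.mem_univ i) (hrow j (by omega) _ _ hi), zero_mul]
      · unfold Function.Injective at hf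
        push Not at hf
        obtain ⟨i, l, hij, hne⟩ := hf
        refine Matrix.det_zero_of_row_eq hne ?_
        funext m
        simp only [Matrix.submatrix_apply, hij]

theorem CBin_coeff (M : Matrix 𝔅 𝔅 R) (κ : ℕ) : M.charpolyRev.coeff κ =
    (-1) ^ κ * ∑ s ∈ (Finset.univ : Finset 𝔅).powersetCard κ,
      (M.submatrix (Subtype.val : s → 𝔅) (Subtype.val : s → 𝔅)).det := by
  have hc : M.charpolyRev = det (1 + (Polynomial.X : Polynomial R) • (-M).map Polynomial.C) := by
    simp only [charpolyRev, sub_eq_add_neg]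
    congr 2
    rw [Matrix.map_neg Polynomial.C (map_neg Polynomial.C) M, smul_neg]
  rw [hc, coeff_det_one_add_X_smul_eq_sum_minors]
  simp only [submatrix_neg, Pi.neg_apply, det_neg, Fintype.card_coe, Finset.mul_sum]
  exact Finset.sum_congr rfl fun s hs => by rw [(Finset.mem_powersetCard.mp hs).2]

theorem coeff_prodM_dvd (x : R) (a : ℕ) (A : ℕ → Matrix 𝔅 𝔅 R) (S : ℕ → Finset 𝔅)
    (w : ℕ → 𝔅 → ℕ) (hrow : ∀ j, j < a → ∀ b b', b ∉ S j → A j b b' = 0)
    (hdiv : ∀ j, j < a → ∀ b b', x ^ w j b ∣ A j b b') (κ : ℕ) (h : ℕ → ℕ)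
    (hmin : ∀ j, j < a → ∀ I : Finset 𝔅, I ⊆ S j → I.card = κ → h j ≤ ∑ b ∈ I, w j b) :
    x ^ (∑ j ∈ Finset.range a, h j) ∣ (prodM A a).charpolyRev.coeff κ := by
  rw [CBin_coeff]
  refine Dvd.dvd.mul_left (Finset.dvd_sum fun s hs => ?_) _
  have hc := (Finset.mem_powersetCard.mp hs).2
  refine CBin_minor_dvd x a A S w hrow hdiv h (fun j hj I hI hIc => hmin j hj I hI ?_) _ _
  rw [hIc, Fintype.card_coe, hc]

theorem coeff_prodM_zero (a : ℕ) (A : ℕ → Matrix 𝔅 𝔅 R) (S : ℕ → Finset 𝔅)
    (hrow : ∀ j, j < a → ∀ b b', b ∉ S j → A j b b' = 0) (κ : ℕ) {j : ℕ} (hj : j < a)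
    (hS : (S j).card < κ) : (prodM A a).charpolyRev.coeff κ = 0 := by
  rw [CBin_coeff, Finset.sum_eq_zero, mul_zero]
  intro s hs
  have hc := (Finset.mem_powersetCard.mp hs).2
  exact CBin_minor_zero a A S hrow hj (by rw [Fintype.card_coe, hc]; exact hS) _ _

end HN
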