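import Pool.Agent.HN.ExtLem

/-! # HN/LauLem : Laurent polynomials and the operators `Tm`, `Dk` (module HN-02) -/

open MvPolynomial

namespace HN

section
variable {ι : Type*} [DecidableEq ι] {R : Type*} [CommRing R]

/-- the coefficient of `X^e` -/
private noncomputable def cf (e : ι → ℤ) : Lau ι R →ₗ[R] R where
  toFun f := f.coeff e
  map_add' f g := by simp
  map_smul' c f := by simp

private theorem coeff_sum' {κ : Type*} (s : Finset κ) (f : κ → Lau ι R) (e : ι → ℤ) :
    (∑ i ∈ s, f i).coeff e = ∑ i ∈ s, (f i).coeff e :=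
  map_sum (cf e) f s

private theorem coeff_zsmul' (n : ℤ) (f : Lau ι R) (e : ι → ℤ) :
    (n • f).coeff e = n • f.coeff e :=
  map_zsmul (cf e) n f

private theorem coeff_smul' (c : R) (f : Lau ι R) (e : ι → ℤ) :
    (c • f).coeff e = c • f.coeff e :=
  map_smul (cf e) c f

theorem restr_coeff (S : Set (ι → ℤ)) [DecidablePred (· ∈ S)] (f : Lau ι R) (e : ι → ℤ) :
    (restr R S f).coeff e = if e ∈ S then f.coeff e else 0 := by
  by_cases h : e ∈ S <;> simp [restr, h]

theorem diag_coeff (c : (ι → ℤ) → R) (f : Lau ι R) (e : ι → ℤ) :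
    (diag R c f).coeff e = c e * f.coeff e := by
  simp [diag]

theorem lau_ext {f g : Lau ι R} (h : ∀ e, f.coeff e = g.coeff e) : f = g :=
  AddMonoidAlgebra.coeff_injective (Finsupp.ext h)

theorem mem_Sp {P : Finset ι → (ι → ℤ) → Prop} {ξ : Finset ι → Lau ι R} :
    ξ ∈ Sp R P ↔ ∀ A e, (ξ A).coeff e ≠ 0 → P A e := Iff.rfl

private theorem prod_single' (s : Finset ι) (k : ι → ℕ) :
    ∏ v ∈ s, (AddMonoidAlgebra.single (Pi.single v (1 : ℤ)) (1 : R) : Lau ι R) ^ k v =
      AddMonoidAlgebra.single (∑ v ∈ s, k v • Pi.single v (1 : ℤ)) (1 : R) := by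
  induction s using Finset.induction_on with
  | empty => rfl
  | insert a s ha ih =>
    rw [Finset.prod_insert ha, Finset.sum_insert ha, ih, AddMonoidAlgebra.single_pow,
      AddMonoidAlgebra.single_mul_single]
    simp

theorem toL_monomial (m : ι →₀ ℕ) (c : R) :
    toL (monomial m c) = AddMonoidAlgebra.single (fun v => (m v : ℤ)) c := by
  unfold toL
  rw [MvPolynomial.aeval_monomial, Finsupp.prod, prod_single', ← Algebra.smul_def,
    AddMonoidAlgebra.smul_single, smul_eq_mul, mul_one]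
  congr 1
  funext u
  rw [Finset.sum_apply]
  by_cases hu : u ∈ m.support
  · rw [Finset.sum_eq_single u]
    · simp
    · intro b _ hb
      simp [Pi.single_apply, Ne.symm hb]
    · intro h
      exact absurd hu h
  · rw [Finset.sum_eq_zero]
    · simp [Finsupp.notMem_support_iff.1 hu]
    · intro b hb
      have : u ≠ b := by
        rintro rfl
        exact hu hb
      simp [Pi.single_apply, this]

theorem single_mul_coeff (a : ι → ℤ) (c : R) (f : Lau ι R) (e : ι → ℤ) :
    (AddMonoidAlgebra.single a c * f : Lau ι R).coeff e = c * f.coeff (fun v => e v - a v) := by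
  refine AddMonoidAlgebra.coeff_single_mul_eq_mul_coeff _ fun m' _ => ?_
  constructor
  · intro h
    funext v
    have := congrFun h v
    simp only [Pi.add_apply] at this
    linarith
  · rintro rfl
    funext v
    simp

/-- coefficients of a product with a polynomial -/
theorem toL_mul_coeff (g : MvPolynomial ι R) (f : Lau ι R) (e : ι → ℤ) :
    (toL g * f).coeff e
      = ∑ m ∈ g.support, g.coeff m * f.coeff (fun v => e v - (m v : ℤ)) := by
  conv_lhs => rw [← g.support_sum_monomial_coeff]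
  rw [map_sum, Finset.sum_mul, coeff_sum']
  refine Finset.sum_congr rfl fun m _ => ?_
  rw [toL_monomial, single_mul_coeff]

private theorem toL_coeff (g : MvPolynomial ι R) (m : ι →₀ ℕ) :
    (toL g : Lau ι R).coeff (fun v => (m v : ℤ)) = g.coeff m := by
  classical
  conv_lhs => rw [← g.support_sum_monomial_coeff]
  rw [map_sum, coeff_sum']
  by_cases hm : m ∈ g.support
  · rw [Finset.sum_eq_single m]
    · rw [toL_monomial]
      simp
    · intro b _ hb
      rw [toL_monomial, AddMonoidAlgebra.coeff_single, Finsupp.single_apply, if_neg]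
      intro h
      apply hb
      ext v
      have := congrFun h v
      exact_mod_cast this
    · intro h
      exact absurd hm h
  · rw [MvPolynomial.notMem_support_iff.1 hm]
    refine Finset.sum_eq_zero fun b hb => ?_
    rw [toL_monomial, AddMonoidAlgebra.coeff_single, Finsupp.single_apply, if_neg]
    intro h
    apply hm
    have : b = m := by
      ext v
      have := congrFun h v
      exact_mod_cast this
    rwa [← this]

theorem toL_injective : Function.Injective (toL : MvPolynomial ι R → Lau ι R) := by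
  intro g h hgh
  ext m
  rw [← toL_coeff g m, ← toL_coeff h m, hgh]

/-- support of a product -/
theorem exists_of_toL_mul_coeff_ne {g : MvPolynomial ι R} {f : Lau ι R} {e : ι → ℤ}
    (h : (toL g * f).coeff e ≠ 0) :
    ∃ m : ι →₀ ℕ, g.coeff m ≠ 0 ∧ f.coeff (fun v => e v - (m v : ℤ)) ≠ 0 := by
  rw [toL_mul_coeff] at h
  obtain ⟨m, _, hm⟩ := Finset.exists_ne_zero_of_sum_ne_zero h
  exact ⟨m, left_ne_zero_of_mul hm, right_ne_zero_of_mul hm⟩

/-- the coefficients of `v ∂_v F` -/
private theorem coeff_X_mul_pderiv (F : MvPolynomial ι R) (v : ι) (m : ι →₀ ℕ) :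
    (X v * pderiv v F).coeff m = (m v : R) * F.coeff m := by
  induction F using MvPolynomial.induction_on' with
  | monomial u a =>
    rw [MvPolynomial.X_mul_pderiv_monomial, MvPolynomial.coeff_smul, MvPolynomial.coeff_monomial]
    split_ifs with h
    · rw [h, nsmul_eq_mul]
    · simp
  | add p q hp hq => rw [map_add, mul_add, MvPolynomial.coeff_add, hp, hq, MvPolynomial.coeff_add,
      mul_add]

/-- a nonzero coefficient of `v ∂_v F` comes from a monomial of `F` containing `v` -/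
theorem exists_of_Tm_coeff_ne {F : MvPolynomial ι R} {v : ι} {f : Lau ι R} {e : ι → ℤ}
    (h : (Tm F v f).coeff e ≠ 0) :
    ∃ m : ι →₀ ℕ, F.coeff m ≠ 0 ∧ 1 ≤ m v ∧ f.coeff (fun u => e u - (m u : ℤ)) ≠ 0 := by
  obtain ⟨m, h1, h2⟩ := exists_of_toL_mul_coeff_ne (g := X v * pderiv v F) (f := f) h
  rw [coeff_X_mul_pderiv] at h1
  refine ⟨m, right_ne_zero_of_mul h1, ?_, h2⟩
  by_contra h3
  have h4 : m v = 0 := by omega
  rw [h4] at h1
  simp at h1

/-- `restr` commutes with multiplication by a homogeneous polynomial: `φ` additive, all monomials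
of `g` have `φ m = d` -/
theorem restr_toL_mul {g : MvPolynomial ι R} {φ : (ι → ℤ) → ℤ}
    (hφ : ∀ a b : ι → ℤ, φ (fun v => a v - b v) = φ a - φ b) {d : ℤ}
    (hg : ∀ m : ι →₀ ℕ, g.coeff m ≠ 0 → φ (fun v => (m v : ℤ)) = d) (c : ℤ) (f : Lau ι R) :
    restr R {e | φ e = c + d} (toL g * f) = toL g * restr R {e | φ e = c} f := by
  classical
  refine lau_ext fun e => ?_
  rw [restr_coeff, toL_mul_coeff, toL_mul_coeff]
  by_cases h : φ e = c + d
  · rw [if_pos (show e ∈ {e | φ e = c + d} from h)]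
    refine Finset.sum_congr rfl fun m hm => ?_
    rw [restr_coeff, if_pos]
    change φ (fun v => e v - (m v : ℤ)) = c
    rw [hφ e (fun v => (m v : ℤ)), hg m (MvPolynomial.mem_support_iff.1 hm), h]
    ring
  · rw [if_neg (show e ∉ {e | φ e = c + d} from h)]
    symm
    refine Finset.sum_eq_zero fun m hm => ?_
    rw [restr_coeff, if_neg, mul_zero]
    intro h'
    apply h
    change φ (fun v => e v - (m v : ℤ)) = c at h'
    rw [hφ e (fun v => (m v : ℤ)), hg m (MvPolynomial.mem_support_iff.1 hm)] at h'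
    linarith

end

section
variable {ι : Type*} [Fintype ι] [DecidableEq ι] [Ranked ι] {R : Type*} [CommRing R]

theorem thr_nonneg (C : CType ι) (v : ι) (A : Finset ι) : 0 ≤ C.thr v A := by
  unfold CType.thr
  split_ifs <;> norm_num

private theorem thr_le_one (C : CType ι) (v : ι) (A : Finset ι) : C.thr v A ≤ 1 := by
  unfold CType.thr
  split_ifs <;> norm_num

theorem thr_mono (C : CType ι) (v : ι) {A B : Finset ι} (h : A ⊆ B) : C.thr v A ≤ C.thr v B := by
  by_cases h1 : v ∈ A ∧ v ∉ C.Ys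
  · have h2 : v ∈ B ∧ v ∉ C.Ys := ⟨h h1.1, h1.2⟩
    simp [CType.thr, h1, h2]
  · have h3 : C.thr v A = 0 := if_neg h1
    rw [h3]
    exact thr_nonneg C v B

theorem Tm_comm (F : MvPolynomial ι R) (u v : ι) (f : Lau ι R) :
    Tm F u (Tm F v f) = Tm F v (Tm F u f) :=
  mul_left_comm _ _ _

theorem Dk_Dk (F : MvPolynomial ι R) (ξ : Finset ι → Lau ι R) : Dk F (Dk F ξ) = 0 :=
  kos_kos (fun u v x => Tm_comm F u v x) ξ

private theorem exists_of_Dk_coeff_ne {F : MvPolynomial ι R} {ξ : Finset ι → Lau ι R}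
    {A : Finset ι} {e : ι → ℤ} (h : (Dk F ξ A).coeff e ≠ 0) :
    ∃ v ∈ A, ∃ m : ι →₀ ℕ, F.coeff m ≠ 0 ∧ 1 ≤ m v ∧
      (ξ (A.erase v)).coeff (fun u => e u - (m u : ℤ)) ≠ 0 := by
  have h1 : Dk F ξ A = ∑ v ∈ A, sg v A • Tm F v (ξ (A.erase v)) := kos_apply _ _ _
  rw [h1, coeff_sum'] at h
  obtain ⟨v, hv, h2⟩ := Finset.exists_ne_zero_of_sum_ne_zero h
  rw [coeff_zsmul'] at h2
  have h3 : (Tm F v (ξ (A.erase v))).coeff e ≠ 0 := by
    intro h4
    rw [h4, smul_zero] at h2
    exact h2 rfl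
  exact ⟨v, hv, exists_of_Tm_coeff_ne h3⟩

private theorem deg_sub (C : CType ι) (a b : ι → ℤ) :
    C.deg (fun v => a v - b v) = C.deg a - C.deg b := by
  simp only [CType.deg, mul_sub, Finset.sum_sub_distrib]

private theorem wt_sub (C : CType ι) (a b : ι → ℤ) :
    C.wt (fun v => a v - b v) = C.wt a - C.wt b := by
  simp only [CType.wt, Finset.sum_sub_distrib]

private theorem Dk_cond {C : CType ι} {T : Finset ι} {A : Finset ι} {v : ι}
    {e : ι → ℤ} {m : ι →₀ ℕ} (hm : 1 ≤ m v)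
    (h : ∀ u, u ∉ T → C.thr u (A.erase v) ≤ e u - (m u : ℤ)) :
    ∀ u, u ∉ T → C.thr u A ≤ e u := by
  intro u hu
  have h1 := h u hu
  have h2 : (0 : ℤ) ≤ (m u : ℤ) := by positivity
  by_cases huv : u = v
  · subst huv
    have h3 := thr_nonneg C u (A.erase u)
    have h4 := thr_le_one C u A
    have h5 : (1 : ℤ) ≤ (m u : ℤ) := by exact_mod_cast hm
    linarith
  · have h3 : C.thr u A = C.thr u (A.erase v) := by
      unfold CType.thr
      have : u ∈ A.erase v ↔ u ∈ A := by simp [Finset.mem_erase, huv]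
      simp only [this]
    rw [h3]
    linarith

/-- `Dk` raises the form degree and the weight by one -/
theorem Dk_mem_KW {C : CType ι} {F : MvPolynomial ι R} (hF : C.Hom F) {T : Finset ι}
    {δ j w : ℤ} {ξ : Finset ι → Lau ι R} (h : ξ ∈ KW R C T δ j w) :
    Dk F ξ ∈ KW R C T δ (j + 1) (w + 1) := by
  intro A e he
  obtain ⟨v, hv, m, h1, h2, h3⟩ := exists_of_Dk_coeff_ne he
  obtain ⟨c1, c2, c3, c4⟩ := h _ _ h3
  obtain ⟨d1, d2⟩ := hF m h1
  refine ⟨?_, ?_, Dk_cond h2 c3, ?_⟩
  · have := Finset.card_erase_add_one hv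
    rw [← c1, ← this]
    push_cast
    rfl
  · have := deg_sub C e (fun v => (m v : ℤ))
    rw [c2, d1] at this
    linarith
  · have := wt_sub C e (fun v => (m v : ℤ))
    rw [c4, d2] at this
    linarith

theorem Dk_mem_KT {C : CType ι} {F : MvPolynomial ι R} (hF : C.Hom F) {T : Finset ι}
    {δ j : ℤ} {ξ : Finset ι → Lau ι R} (h : ξ ∈ KT R C T δ j) :
    Dk F ξ ∈ KT R C T δ (j + 1) := by
  intro A e he
  obtain ⟨v, hv, m, h1, h2, h3⟩ := exists_of_Dk_coeff_ne he
  obtain ⟨c1, c2, c3⟩ := h _ _ h3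
  obtain ⟨d1, d2⟩ := hF m h1
  refine ⟨?_, ?_, Dk_cond h2 c3⟩
  · have := Finset.card_erase_add_one hv
    rw [← c1, ← this]
    push_cast
    rfl
  · have := deg_sub C e (fun v => (m v : ℤ))
    rw [c2, d1] at this
    linarith

theorem KW_le_KT (C : CType ι) (T : Finset ι) (δ j w : ℤ) : KW R C T δ j w ≤ KT R C T δ j := by
  intro ξ h A e he
  obtain ⟨c1, c2, c3, _⟩ := h A e he
  exact ⟨c1, c2, c3⟩

/-- weight component of an element of `KT` -/
theorem mp_restr_wt_mem {C : CType ι} {T : Finset ι} {δ j : ℤ} (w : ℤ)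
    {ξ : Finset ι → Lau ι R} (h : ξ ∈ KT R C T δ j) :
    mp R (restr R {e | C.wt e = w}) ξ ∈ KW R C T δ j w := by
  classical
  intro A e he
  change (restr R {e | C.wt e = w} (ξ A)).coeff e ≠ 0 at he
  rw [restr_coeff] at he
  have h1 : C.wt e = w := by
    by_contra h2
    exact he (if_neg h2)
  rw [if_pos (show e ∈ {e | C.wt e = w} from h1)] at he
  obtain ⟨c1, c2, c3⟩ := h A e he
  exact ⟨c1, c2, c3, h1⟩

/-- the monomials of `v ∂_v F` -/
private theorem hom_Tm {C : CType ι} {F : MvPolynomial ι R} (hF : C.Hom F) (v : ι)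
    (m : ι →₀ ℕ) (hm : (X v * pderiv v F).coeff m ≠ 0) :
    C.deg (fun v => (m v : ℤ)) = 0 ∧ C.wt (fun v => (m v : ℤ)) = 1 := by
  rw [coeff_X_mul_pderiv] at hm
  exact hF m (right_ne_zero_of_mul hm)

/-- `Dk` commutes with taking weight components -/
theorem restr_wt_Dk {C : CType ι} {F : MvPolynomial ι R} (hF : C.Hom F) (w : ℤ)
    (ξ : Finset ι → Lau ι R) :
    mp R (restr R {e | C.wt e = w + 1}) (Dk F ξ) = Dk F (mp R (restr R {e | C.wt e = w}) ξ) := by
  funext A
  have h1 : Dk F ξ A = ∑ v ∈ A, sg v A • Tm F v (ξ (A.erase v)) := kos_apply _ _ _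
  have h2 : Dk F (mp R (restr R {e | C.wt e = w}) ξ) A =
      ∑ v ∈ A, sg v A • Tm F v (mp R (restr R {e | C.wt e = w}) ξ (A.erase v)) := kos_apply _ _ _
  change restr R {e | C.wt e = w + 1} (Dk F ξ A) = _
  rw [h1, h2, map_sum]
  refine Finset.sum_congr rfl fun v _ => ?_
  rw [map_zsmul]
  congr 1
  exact restr_toL_mul (φ := C.wt) (fun a b => wt_sub C a b) (fun m hm => (hom_Tm hF v m hm).2) w
    (ξ (A.erase v))

/-- `Dk` commutes with taking degree components -/
theorem restr_deg_Dk {C : CType ι} {F : MvPolynomial ι R} (hF : C.Hom F) (δ : ℤ)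
    (ξ : Finset ι → Lau ι R) :
    mp R (restr R {e | C.deg e = δ}) (Dk F ξ) = Dk F (mp R (restr R {e | C.deg e = δ}) ξ) := by
  funext A
  have h1 : Dk F ξ A = ∑ v ∈ A, sg v A • Tm F v (ξ (A.erase v)) := kos_apply _ _ _
  have h2 : Dk F (mp R (restr R {e | C.deg e = δ}) ξ) A =
      ∑ v ∈ A, sg v A • Tm F v (mp R (restr R {e | C.deg e = δ}) ξ (A.erase v)) := kos_apply _ _ _
  change restr R {e | C.deg e = δ} (Dk F ξ A) = _
  rw [h1, h2, map_sum]
  refine Finset.sum_congr rfl fun v _ => ?_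
  rw [map_zsmul]
  congr 1
  have h3 := restr_toL_mul (φ := C.deg) (fun a b => deg_sub C a b)
    (fun m hm => (hom_Tm hF v m hm).1) δ (ξ (A.erase v))
  rw [add_zero] at h3
  exact h3

/-- Euler relation: `∑ wd_v v∂_v F = 0` -/
theorem sum_wd_Tm {C : CType ι} {F : MvPolynomial ι R} (hF : C.Hom F) :
    ∑ v, (C.wd v : R) • Tm F v = 0 := by
  have h0 : ∑ v, (C.wd v : R) • (X v * pderiv v F) = 0 := by
    ext m
    rw [MvPolynomial.coeff_sum, MvPolynomial.coeff_zero]
    have h1 : ∀ v, ((C.wd v : R) • (X v * pderiv v F)).coeff m =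
        ((C.wd v * (m v : ℤ) : ℤ) : R) * F.coeff m := by
      intro v
      rw [MvPolynomial.coeff_smul, coeff_X_mul_pderiv]
      push_cast
      rw [smul_eq_mul]
      ring
    simp only [h1]
    rw [← Finset.sum_mul, ← Int.cast_sum]
    by_cases hm : F.coeff m = 0
    · rw [hm, mul_zero]
    · have h2 : ∑ v, C.wd v * (m v : ℤ) = 0 := (hF m hm).1
      rw [h2, Int.cast_zero, zero_mul]
  refine LinearMap.ext fun f => ?_
  rw [LinearMap.sum_apply]
  have h3 : ∀ v, ((C.wd v : R) • Tm F v) f = toL ((C.wd v : R) • (X v * pderiv v F)) * f := by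
    intro v
    rw [map_smul, LinearMap.smul_apply]
    exact (smul_mul_assoc _ _ _).symm
  simp only [h3]
  rw [← Finset.sum_mul, ← map_sum, h0, map_zero, zero_mul, LinearMap.zero_apply]

theorem eul_Dk {C : CType ι} {F : MvPolynomial ι R} (hF : C.Hom F) (ξ : Finset ι → Lau ι R) :
    eul R C (Dk F ξ) = - Dk F (eul R C ξ) := by
  have h := eul_kos C (Tm F) ξ
  rw [sum_wd_Tm hF] at h
  have h0 : mp R (0 : Lau ι R →ₗ[R] Lau ι R) ξ = 0 := by
    funext A
    rfl
  rw [h0] at h
  exact eq_neg_of_add_eq_zero_left h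

private theorem exists_of_eul_coeff_ne {C : CType ι} {ξ : Finset ι → Lau ι R}
    {A : Finset ι} {e : ι → ℤ} (h : (eul R C ξ A).coeff e ≠ 0) :
    ∃ v, v ∉ A ∧ (ξ (insert v A)).coeff e ≠ 0 := by
  rw [eul_apply, coeff_sum'] at h
  obtain ⟨v, hv, h2⟩ := Finset.exists_ne_zero_of_sum_ne_zero h
  refine ⟨v, Finset.mem_compl.1 hv, fun h3 => h2 ?_⟩
  rw [coeff_smul', coeff_zsmul', h3, smul_zero, smul_zero]

theorem eul_mem_KT {C : CType ι} {T : Finset ι} {δ j : ℤ} {ξ : Finset ι → Lau ι R}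
    (h : ξ ∈ KT R C T δ j) : eul R C ξ ∈ KT R C T δ (j - 1) := by
  intro A e he
  obtain ⟨v, hv, h1⟩ := exists_of_eul_coeff_ne he
  obtain ⟨c1, c2, c3⟩ := h _ _ h1
  refine ⟨?_, c2, fun u hu => (thr_mono C u (Finset.subset_insert v A)).trans (c3 u hu)⟩
  rw [Finset.card_insert_of_notMem hv] at c1
  push_cast at c1
  linarith

theorem eul_mem_KW {C : CType ι} {T : Finset ι} {δ j w : ℤ} {ξ : Finset ι → Lau ι R}
    (h : ξ ∈ KW R C T δ j w) : eul R C ξ ∈ KW R C T δ (j - 1) w := by
  intro A e he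
  obtain ⟨v, hv, h1⟩ := exists_of_eul_coeff_ne he
  obtain ⟨c1, c2, c3, c4⟩ := h _ _ h1
  refine ⟨?_, c2, fun u hu => (thr_mono C u (Finset.subset_insert v A)).trans (c3 u hu), c4⟩
  rw [Finset.card_insert_of_notMem hv] at c1
  push_cast at c1
  linarith

/-- inverting more variables -/
theorem KT_mono (C : CType ι) {T T' : Finset ι} (h : T ⊆ T') (δ j : ℤ) :
    KT R C T δ j ≤ KT R C T' δ j := by
  intro ξ h1 A e he
  obtain ⟨c1, c2, c3⟩ := h1 A e he
  exact ⟨c1, c2, fun v hv => c3 v fun hv' => hv (h hv')⟩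

end

end HN
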