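import Pool.Agent.HN.Cay
import Pool.Agent.HN.LauLem

/-! # HN/CLam : Čech cohomology of `(Λ^a Q)~(l)` and the space `NNc` (definitions of part C) -/

open MvPolynomial

namespace HN

section
variable {k : Type*} [Field k] {n r s : ℕ} {d : Fin r → ℕ} {c : Fin s → ℕ}

/-- Čech cochains of `Λ^a Q(l)` (representatives) -/
noncomputable def LamCoch (k : Type*) [Field k] (n r : ℕ) (a l p : ℤ) :
    Submodule k (Finset (Fin (n + 1)) → WForm k n r) where
  carrier := {ω | ∀ T, ω T ∈ Sec k n r T a l ∧ ((T.card : ℤ) ≠ p ∨ T = ∅ → ω T = 0)}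
  zero_mem' := fun T => ⟨Submodule.zero_mem _, fun _ => rfl⟩
  add_mem' hx hy := fun T => ⟨Submodule.add_mem _ (hx T).1 (hy T).1, fun h => by
    simp [(hx T).2 h, (hy T).2 h]⟩
  smul_mem' c x hx := fun T => ⟨Submodule.smul_mem _ c (hx T).1, fun h => by simp [(hx T).2 h]⟩

/-- Čech cochains of `Ω^a_X(log D)(l)` (representatives), indexed by the nonempty `T` with `p`
elements (Čech degree `p - 1`) -/
noncomputable def OmCoch (D : Datum k n r s d c) (a l p : ℤ) :
    Submodule k (Finset (Fin (n + 1)) → WForm k n r) where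
  carrier := {ω | ∀ T, ω T ∈ OmSec D T a l ∧ ((T.card : ℤ) ≠ p ∨ T = ∅ → ω T = 0)}
  zero_mem' := fun T => ⟨Submodule.zero_mem _, fun _ => rfl⟩
  add_mem' hx hy := fun T => ⟨Submodule.add_mem _ (hx T).1 (hy T).1, fun h => by
    simp [(hx T).2 h, (hy T).2 h]⟩
  smul_mem' c x hx := fun T => ⟨Submodule.smul_mem _ c (hx T).1, fun h => by simp [(hx T).2 h]⟩

/-- cochains with values in the relations -/
noncomputable def RelCoch (D : Datum k n r s d c) (a l p : ℤ) :
    Submodule k (Finset (Fin (n + 1)) → WForm k n r) where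
  carrier := {ω | ∀ T, ω T ∈ Rel D T a l ∧ ((T.card : ℤ) ≠ p ∨ T = ∅ → ω T = 0)}
  zero_mem' := fun T => ⟨Submodule.zero_mem _, fun _ => rfl⟩
  add_mem' hx hy := fun T => ⟨Submodule.add_mem _ (hx T).1 (hy T).1, fun h => by
    simp [(hx T).2 h, (hy T).2 h]⟩
  smul_mem' c x hx := fun T => ⟨Submodule.smul_mem _ c (hx T).1, fun h => by simp [(hx T).2 h]⟩

/-- Čech cocycles (modulo relations) -/
noncomputable def OmZ (D : Datum k n r s d c) (a l p : ℤ) :
    Submodule k (Finset (Fin (n + 1)) → WForm k n r) :=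
  OmCoch D a l p ⊓ (RelCoch D a l (p + 1)).comap (ce k Finset.univ)

/-- Čech coboundaries plus relations -/
noncomputable def OmB (D : Datum k n r s d c) (a l p : ℤ) :
    Submodule k (Finset (Fin (n + 1)) → WForm k n r) :=
  (OmCoch D a l (p - 1)).map (ce k Finset.univ) ⊔ RelCoch D a l p

/-- cocycles modulo relations -/
noncomputable def LamZ (D : Datum k n r s d c) (a l p : ℤ) :
    Submodule k (Finset (Fin (n + 1)) → WForm k n r) :=
  LamCoch k n r a l p ⊓ (RelCoch D a l (p + 1)).comap (ce k Finset.univ)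

/-- coboundaries plus relations -/
noncomputable def LamB (D : Datum k n r s d c) (a l p : ℤ) :
    Submodule k (Finset (Fin (n + 1)) → WForm k n r) :=
  (LamCoch k n r a l (p - 1)).map (ce k Finset.univ) ⊔ RelCoch D a l p

/-- `dim` of the Čech cohomology of `Λ^a Q(l)` -/
noncomputable def lamcoh (D : Datum k n r s d c) (a l p : ℤ) : ℕ :=
  Module.finrank k (↥(LamZ D a l p) ⧸ (LamB D a l p).submoduleOf (LamZ D a l p))

end

section
variable {ι : Type*} [Fintype ι] [DecidableEq ι] [Ranked ι] {k : Type*} [Field k]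

/-- functions of negative exponents annihilated by the (projected) Koszul differential -/
def NNc (C : CType ι) (F : MvPolynomial ι k) (δ' w : ℤ) : Submodule k (Lau ι k) where
  carrier := {f | (∀ e, f.coeff e ≠ 0 → C.deg e = δ' ∧ C.wt e = w ∧ ∀ v, e v ≤ -1) ∧
    ∀ (v : ι) (e : ι → ℤ), (∀ u, u ≠ v → e u ≤ -1) → (v ∈ C.Ys → e v ≤ -1) → e v ≤ 0 →
      (Tm F v f).coeff e = 0}
  zero_mem' := by
    refine ⟨fun e h => absurd rfl h, fun v e _ _ _ => by simp⟩
  add_mem' {x y} hx hy := by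
    refine ⟨fun e h => ?_, fun v e h1 h2 h3 => ?_⟩
    · by_cases h1 : x.coeff e = 0
      · exact hy.1 e (by intro h2; exact h (by simp [h1, h2]))
      · exact hx.1 e h1
    · simp [hx.2 v e h1 h2 h3, hy.2 v e h1 h2 h3]
  smul_mem' c x hx := by
    refine ⟨fun e h => hx.1 e (by intro h1; exact h (by simp [h1])), fun v e h1 h2 h3 => ?_⟩
    simp [hx.2 v e h1 h2 h3]

end

end HN
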