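import Pool.Agent.HN.TotD
import Pool.Agent.HN.LauLem

/-! # HN/CeExact : Čech exactness (module HN-04)

PLAN. For every `(A, e)` choose (classically) `v* ∈ S` with `C.thr v* A ≤ e v*` if there is one.
`hh ξ T A e := (co v* ξ) T A e` (coefficientwise: `η T A := ∑_{v ∈ S} restr {e | v*(A,e) = v} (co v ξ T A)`),
and `0` if there is none.  Since `∑_{v ∈ S} (we v co v* + co v* we v) = id` (`co_we_self`, `co_we`),
`ce S (hh ξ) + hh (ce S ξ) = ξ` on all coefficients `(A, e)` having a `v*`; for the others
`ξ T A e = 0` by `hv`.  All operators act coefficientwise in `(A, e)`: work with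
`fun T => (ξ T A).coeff e` and `mp_ce`.
-/

namespace HN

section
variable {ι : Type*} [Fintype ι] [DecidableEq ι] [Ranked ι] {R : Type*} [CommRing R]

/-- systems of submodules for the Čech complexes: thresholds only for the variables of `S₀`,
a condition `Qa` on `(A, e)` and a condition `W` on `T \ S` -/
def MM (R : Type*) [CommRing R] (C : CType ι) (S S₀ : Finset ι) (W : Finset ι → Prop)
    (Qa : Finset ι → (ι → ℤ) → Prop) (T : Finset ι) (j : ℤ) : Submodule R (Finset ι → Lau ι R) :=
  Sp R (fun A e => W (T \ S) ∧ (A.card : ℤ) = j ∧ Qa A e ∧ ∀ v ∈ S₀, v ∉ T → C.thr v A ≤ e v)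

/-- coefficient of `X^e` in the component `A` -/
private def kap (R : Type*) [CommRing R] (A : Finset ι) (e : ι → ℤ) :
    (Finset ι → Lau ι R) →ₗ[R] R where
  toFun x := (x A).coeff e
  map_add' x y := by simp
  map_smul' c x := by simp

/-- homotopy for the Čech differential -/
private theorem ce_co {N : Type*} [AddCommGroup N] [Module R N] (S : Finset ι) {w : ι}
    (hw : w ∈ S) (x : Finset ι → N) (hx : ce R S x = 0) : ce R S (co R w x) = x := by
  unfold ce at hx ⊢
  rw [LinearMap.sum_apply] at hx ⊢
  have h1 : ∀ v ∈ S, we R v (co R w x) = (if v = w then x else 0) - co R w (we R v x) := by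
    intro v _
    by_cases hv : v = w
    · rw [if_pos hv, hv, eq_sub_iff_add_eq, add_comm]
      exact co_we_self w x
    · rw [if_neg hv, zero_sub, co_we (Ne.symm hv), neg_neg]
  rw [Finset.sum_congr rfl h1, Finset.sum_sub_distrib, Finset.sum_ite_eq' S w (fun _ => x),
    if_pos hw, ← map_sum, hx, map_zero, sub_zero]

/-- Čech exactness: if for every admissible `(A, e)` some `v ∈ S` has exponent `≥` its threshold,
then the Čech complex in the directions `S` is exact.  Proof: `v*(A, e) :=` such a `v` (choice
depending only on `(A, e)`), homotopy `h ξ T A e := (co v* ξ) T A e`. -/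
theorem ce_exact (C : CType ι) (S S₀ : Finset ι) (hS : S ⊆ S₀) (W : Finset ι → Prop)
    (Qa : Finset ι → (ι → ℤ) → Prop) (p j : ℤ)
    (hv : ∀ (A : Finset ι) (e : ι → ℤ) (T : Finset ι), (T.card : ℤ) = p → (A.card : ℤ) = j →
      Qa A e → W (T \ S) → (∀ v ∈ S₀, v ∉ T → C.thr v A ≤ e v) → ∃ v ∈ S, C.thr v A ≤ e v)
    (ξ : Finset ι → Finset ι → Lau ι R) (hξ : ξ ∈ Tb (MM R C S S₀ W Qa) p j)
    (h0 : ce R S ξ = 0) :
    ∃ η ∈ Tb (MM R C S S₀ W Qa) (p - 1) j, ce R S η = ξ := by
  classical
  let vs : Finset ι → (ι → ℤ) → Option ι := fun A e =>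
    if h : ∃ v ∈ S, C.thr v A ≤ e v then some h.choose else none
  have hvs : ∀ A e w, vs A e = some w → w ∈ S ∧ C.thr w A ≤ e w := by
    intro A e w h
    simp only [vs] at h
    split_ifs at h with h1
    have h2 : h1.choose = w := Option.some.inj h
    rw [← h2]
    exact h1.choose_spec
  have hvn : ∀ A e, vs A e = none → ¬ ∃ v ∈ S, C.thr v A ≤ e v := by
    intro A e h
    simp only [vs] at h
    split_ifs at h with h1
    exact h1
  let η : Finset ι → Finset ι → Lau ι R := fun T A =>
    ∑ v ∈ S, restr R {e | vs A e = some v} (co R v ξ T A)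
  let lc : (ι → ℤ) → Lau ι R →ₗ[R] R := fun e =>
    { toFun := fun f => f.coeff e
      map_add' := fun x y => by simp
      map_smul' := fun c x => by simp }
  have hη : ∀ T A e, (η T A).coeff e =
      ∑ v ∈ S, if vs A e = some v then (co R v ξ T A).coeff e else 0 := by
    intro T A e
    have h1 : (η T A).coeff e = lc e (∑ v ∈ S, restr R {e | vs A e = some v} (co R v ξ T A)) := rfl
    rw [h1, map_sum]
    refine Finset.sum_congr rfl fun v _ => ?_
    have h2 : lc e (restr R {e | vs A e = some v} (co R v ξ T A)) =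
      (restr R {e | vs A e = some v} (co R v ξ T A)).coeff e := rfl
    rw [h2, restr_coeff]
    rfl
  have hηs : ∀ T A e w, vs A e = some w → (η T A).coeff e = (co R w ξ T A).coeff e := by
    intro T A e w h
    rw [hη]
    have hw := (hvs A e w h).1
    rw [Finset.sum_eq_single w]
    · rw [if_pos h]
    · intro v _ hne
      rw [if_neg]
      rw [h]
      exact fun h' => hne (Option.some.inj h').symm
    · intro h'
      exact absurd hw h'
  have hηn : ∀ T A e, vs A e = none → (η T A).coeff e = 0 := by
    intro T A e h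
    rw [hη]
    refine Finset.sum_eq_zero fun v _ => ?_
    rw [if_neg]
    rw [h]
    exact fun h' => by cases h'
  -- when the coefficient does not vanish
  have hkey : ∀ T A e, (η T A).coeff e ≠ 0 → ∃ w, w ∈ S ∧ C.thr w A ≤ e w ∧ w ∉ T ∧
      (ξ (insert w T) A).coeff e ≠ 0 := by
    intro T A e h
    rcases hc : vs A e with _ | w
    · exact absurd (hηn T A e hc) h
    · rw [hηs T A e w hc] at h
      obtain ⟨h1, h2⟩ := hvs A e w hc
      have h3 : w ∉ T := by
        intro hT
        apply h
        have h4 : co R w ξ T = 0 := by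
          show (if w ∈ T then 0 else sg w T • ξ (insert w T)) = 0
          rw [if_pos hT]
        rw [h4]
        simp
      refine ⟨w, h1, h2, h3, fun h5 => h ?_⟩
      have h4 : co R w ξ T = sg w T • ξ (insert w T) := by
        show (if w ∈ T then 0 else sg w T • ξ (insert w T)) = _
        rw [if_neg h3]
      rw [h4]
      have h6 : lc e (sg w T • (ξ (insert w T) A)) = sg w T • lc e (ξ (insert w T) A) :=
        map_zsmul (lc e) _ _
      have h7 : lc e (ξ (insert w T) A) = 0 := h5
      rw [h7, smul_zero] at h6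
      exact h6
  refine ⟨η, fun T => ⟨?_, fun hT => ?_⟩, ?_⟩
  · intro A e h
    obtain ⟨w, hwS, hwe, hwT, hξw⟩ := hkey T A e h
    obtain ⟨a1, a2, a3, a4⟩ := (hξ (insert w T)).1 A e hξw
    refine ⟨?_, a2, a3, fun v hv hvT => ?_⟩
    · have h6 : insert w T \ S = T \ S := Finset.insert_sdiff_of_mem T hwS
      rw [← h6]
      exact a1
    · by_cases hvw : v = w
      · rw [hvw]; exact hwe
      · exact a4 v hv (by
          rw [Finset.mem_insert, not_or]
          exact ⟨hvw, hvT⟩)
  · funext A
    apply lau_ext
    intro e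
    by_contra h
    have h' : (η T A).coeff e ≠ 0 := by
      intro h0'
      apply h
      rw [h0']
      simp
    obtain ⟨w, hwS, hwe, hwT, hξw⟩ := hkey T A e h'
    apply hξw
    have h7 : ξ (insert w T) = 0 := (hξ (insert w T)).2 (by
      rw [Finset.card_insert_of_notMem hwT]
      push_cast
      intro h8
      exact hT (by omega))
    rw [h7]
    simp
  · funext T A
    apply lau_ext
    intro e
    have h1 : (ce R S η T A).coeff e = ce R S (mp R (kap R A e) η) T := by
      rw [← mp_ce]
      rfl
    have h2 : (ξ T A).coeff e = mp R (kap R A e) ξ T := rfl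
    have h3 : ce R S (mp R (kap R A e) ξ) = 0 := by
      rw [← mp_ce, h0, map_zero]
    rw [h1, h2]
    rcases hc : vs A e with _ | w
    · have h4 : mp R (kap R A e) η = 0 := by
        funext T'
        exact hηn T' A e hc
      have h5 : mp R (kap R A e) ξ T = 0 := by
        by_contra h6
        have h7 : (ξ T A).coeff e ≠ 0 := h6
        obtain ⟨a1, a2, a3, a4⟩ := (hξ T).1 A e h7
        have h8 : (T.card : ℤ) = p := by
          by_contra h9
          apply h7
          rw [(hξ T).2 h9]
          simp
        exact hvn A e hc (hv A e T h8 a2 a3 a1 a4)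
      rw [h4, map_zero, h5]
      rfl
    · have h4 : mp R (kap R A e) η = co R w (mp R (kap R A e) ξ) := by
        rw [← mp_co]
        funext T'
        exact hηs T' A e w hc
      rw [h4, ce_co S (hvs A e w hc).1 _ h3]

end

end HN
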