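import Pool.Agent.HN.LauLem

/-! # HN/Unit : acyclicity after inverting an `x`-variable and another variable (module HN-05) -/

open MvPolynomial

namespace HN

section
variable {ι : Type*} [Fintype ι] [DecidableEq ι] [Ranked ι] {R : Type*} [CommRing R]

private noncomputable def xx (a b : ι) (M : ℕ) : ι → ℤ := fun v =>
  -(((M • (Finsupp.single a 1 + Finsupp.single b 1) : ι →₀ ℕ) v : ℕ) : ℤ)

omit [Fintype ι] [Ranked ι] in
private theorem xx_ne {a b u : ι} (M : ℕ) (ha : u ≠ a) (hb : u ≠ b) : xx a b M u = 0 := by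
  unfold xx
  rw [Finsupp.smul_apply, Finsupp.add_apply, Finsupp.single_eq_of_ne ha,
    Finsupp.single_eq_of_ne hb]
  simp

private theorem mon_mul (e f : ι → ℤ) : (mon R e * mon R f : Lau ι R) = mon R (e + f) := by
  unfold mon
  rw [AddMonoidAlgebra.single_mul_single, mul_one]

private theorem mon_zero : (mon R 0 : Lau ι R) = 1 := rfl

private theorem xx_mul (a b : ι) (M : ℕ) :
    (mon R (xx a b M) * toL ((X a * X b : MvPolynomial ι R) ^ M) : Lau ι R) = 1 := by
  have e : (X a * X b : MvPolynomial ι R) ^ M =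
      monomial (M • (Finsupp.single a 1 + Finsupp.single b 1)) 1 := by
    unfold X
    rw [monomial_mul, monomial_pow, mul_one, one_pow]
  rw [e, toL_monomial]
  change mon R (xx a b M) * mon R _ = _
  rw [mon_mul, ← mon_zero]
  congr 1
  funext v
  simp [xx]

private def ss (C : CType ι) (v : ι) : ι → ℤ := fun u => if v ∉ C.Ys ∧ u = v then -1 else 0

private theorem ss_mul (C : CType ι) (F : MvPolynomial ι R) (v : ι) :
    (mon R (ss C v) * toL (X v * pderiv v F) : Lau ι R) = toL (C.g F v) := by
  unfold CType.g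
  by_cases hv : v ∈ C.Ys
  · have e : ss C v = 0 := by
      funext u
      unfold ss
      rw [if_neg (fun h => h.1 hv)]
      rfl
    rw [e, mon_zero, one_mul, if_pos hv]
  · rw [if_neg hv, map_mul, ← mul_assoc]
    have e : (toL (X v : MvPolynomial ι R) : Lau ι R) = mon R (Pi.single v (1 : ℤ)) := by
      unfold toL mon
      rw [aeval_X]
    rw [e, mon_mul]
    have e2 : ss C v + Pi.single v (1 : ℤ) = 0 := by
      funext u
      unfold ss
      rw [Pi.add_apply, Pi.single_apply]
      by_cases h : u = v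
      · rw [if_pos ⟨hv, h⟩, if_pos h]
        rfl
      · rw [if_neg (fun h' => h h'.2), if_neg h]
        rfl
    rw [e2, mon_zero, one_mul]

/-- Proof: `(X_a X_b)^M = ∑_v c_v g_v`.  The operator
`h ξ = (X_a X_b)^{-M} ∑_v c_v * (X_v^{-1} if v ∉ Ys else 1) * co_v ξ` satisfies
`Dk h + h Dk = id` (by `ctr_kos`: `X_v^{-1} * (v ∂_v F) = g_v` for `v ∉ Ys`,
`1 * (v ∂_v F) = g_v` for `v ∈ Ys`) and respects the thresholds of `KT _ C T` without the
degree condition; take the component of degree `δ` of `h ξ`. -/
theorem unit_exact {C : CType ι} {F : MvPolynomial ι R} (hF : C.Hom F) {T : Finset ι} {a b : ι}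
    (haT : a ∈ T) (hbT : b ∈ T)
    (hU : ∃ M : ℕ, (X a * X b : MvPolynomial ι R) ^ M ∈ Ideal.span (Set.range (C.g F)))
    {δ j : ℤ} {ξ : Finset ι → Lau ι R} (hξ : ξ ∈ KT R C T δ j) (h0 : Dk F ξ = 0) :
    ∃ η ∈ KT R C T δ (j - 1), Dk F η = ξ := by
  classical
  obtain ⟨M, hM⟩ := hU
  rw [Ideal.mem_span_range_iff_exists_fun] at hM
  obtain ⟨c, hc⟩ := hM
  let L : ι → Lau ι R := fun v => mon R (xx a b M) * (toL (c v) * mon R (ss C v))
  let cc : ι → Lau ι R →ₗ[R] Lau ι R := fun v => LinearMap.mulLeft R (L v)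
  have hcomm : ∀ u v x, cc u (Tm F v x) = Tm F v (cc u x) := by
    intro u v x
    change L u * (toL (X v * pderiv v F) * x) = toL (X v * pderiv v F) * (L u * x)
    ring
  have hsum : (∑ v, cc v ∘ₗ Tm F v : Lau ι R →ₗ[R] Lau ι R) = LinearMap.id := by
    refine LinearMap.ext fun x => ?_
    rw [LinearMap.sum_apply]
    change ∑ v, L v * (toL (X v * pderiv v F) * x) = x
    have e : ∀ v, L v * (toL (X v * pderiv v F) * x) =
        mon R (xx a b M) * toL (c v * C.g F v) * x := by
      intro v
      change mon R (xx a b M) * (toL (c v) * mon R (ss C v)) * (toL (X v * pderiv v F) * x) = _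
      rw [map_mul (toL : MvPolynomial ι R →ₐ[R] Lau ι R) (c v) (C.g F v), ← ss_mul C F v]
      ring
    rw [Finset.sum_congr rfl fun v _ => e v, ← Finset.sum_mul, ← Finset.mul_sum, ← map_sum, hc,
      xx_mul, one_mul]
  have h1 := ctr_kos hcomm ξ
  rw [hsum] at h1
  change ctr R cc (Dk F ξ) + Dk F (ctr R cc ξ) = _ at h1
  rw [h0, map_zero, zero_add] at h1
  have h2 : Dk F (ctr R cc ξ) = ξ := by
    rw [h1]
    rfl
  refine ⟨mp R (restr R {e | C.deg e = δ}) (ctr R cc ξ), ?_, ?_⟩
  swap
  · rw [← restr_deg_Dk hF δ, h2]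
    funext A
    refine lau_ext fun e => ?_
    change (restr R {e | C.deg e = δ} (ξ A)).coeff e = _
    rw [restr_coeff]
    by_cases hd : e ∈ {e | C.deg e = δ}
    · rw [if_pos hd]
    · rw [if_neg hd]
      by_contra hne
      exact hd (hξ A e (Ne.symm hne)).2.1
  · intro A e he
    change (restr R {e | C.deg e = δ} (ctr R cc ξ A)).coeff e ≠ 0 at he
    rw [restr_coeff] at he
    have hd : e ∈ {e | C.deg e = δ} := by
      by_contra h
      rw [if_neg h] at he
      exact he rfl
    rw [if_pos hd, ctr_apply] at he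
    have h3 : ∃ v ∈ Aᶜ, (sg v A • cc v (ξ (insert v A))).coeff e ≠ 0 := by
      by_contra hcon
      push Not at hcon
      apply he
      rw [AddMonoidAlgebra.coeff_sum, Finsupp.finset_sum_apply]
      exact Finset.sum_eq_zero hcon
    obtain ⟨v, hv, h4⟩ := h3
    have hvA : v ∉ A := Finset.mem_compl.1 hv
    have h5 : (L v * ξ (insert v A)).coeff e ≠ 0 := by
      intro h
      apply h4
      change (sg v A • (L v * ξ (insert v A))).coeff e = 0
      rw [AddMonoidAlgebra.coeff_smul, Finsupp.smul_apply, h, smul_zero]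
    have e6 : L v * ξ (insert v A) =
        AddMonoidAlgebra.single (xx a b M) 1 *
          (toL (c v) * (AddMonoidAlgebra.single (ss C v) 1 * ξ (insert v A))) := by
      change mon R (xx a b M) * (toL (c v) * mon R (ss C v)) * ξ (insert v A) = _
      unfold mon
      ring
    rw [e6, single_mul_coeff, one_mul] at h5
    obtain ⟨m, -, h7⟩ := exists_of_toL_mul_coeff_ne h5
    rw [single_mul_coeff, one_mul] at h7
    obtain ⟨h8, h9, h10⟩ := hξ _ _ h7
    refine ⟨?_, hd, fun u hu => ?_⟩
    · rw [Finset.card_insert_of_notMem hvA] at h8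
      push_cast at h8
      omega
    · have hua : u ≠ a := fun h => hu (h ▸ haT)
      have hub : u ≠ b := fun h => hu (h ▸ hbT)
      have h11 : C.thr u (insert v A) ≤ e u - xx a b M u - (m u : ℤ) - ss C v u := h10 u hu
      rw [xx_ne M hua hub] at h11
      by_cases huv : u = v
      · subst huv
        have h12 : C.thr u A = 0 := by
          unfold CType.thr
          rw [if_neg (fun h => hvA h.1)]
        rw [h12]
        unfold ss CType.thr at h11
        by_cases hY : u ∈ C.Ys
        · rw [if_neg (fun h => h.2 hY), if_neg (fun h => h.1 hY)] at h11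
          omega
        · rw [if_pos ⟨Finset.mem_insert_self _ _, hY⟩, if_pos ⟨hY, rfl⟩] at h11
          omega
      · have h12 := thr_mono C u (Finset.subset_insert v A)
        have h13 : ss C v u = 0 := by
          unfold ss
          rw [if_neg (fun h => huv h.2)]
        rw [h13] at h11
        omega

end

end HN
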