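import Pool.Agent.HN.CLam
import Pool.Agent.HN.CeExact
import Pool.Agent.HN.Unit

/-! # HN/CN : forms with negative exponents outside `X` (definitions and first properties, HN-C10)

PLAN: everything is coefficientwise.  `nproj P` keeps the coefficients `(A, e)` with `P A e`.
`CN k C T δ' j w` : forms of degree `j`, `deg e = δ'`, `wt e = w`, exponents of the `x`-variables
outside `T` `≥ thr`, exponents of ALL other variables `< thr`.  Differential
`Dn C F = nproj (Negy C) ∘ Dk F`.
`Dn_Dn`: a form all of whose coefficients have some `v ∉ Xs` with `thr v A ≤ e v` is mapped by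
`Dk` to such a form (monomials of `F` have exponents `≥ 0`, `thr v` is monotone, and the variable `v`
that enters `A` has its exponent raised by at least `1` while `thr v ≤ 1`... precisely: `e' = e + m`,
`A' = insert u A`: for `u ≠ v` `thr v A' = thr v A ≤ e v ≤ e' v`; for `u = v`: `m v ≥ 1`,
`thr v A = 0` or `Ys`-case, `e' v ≥ 1 ≥ thr v A'`), so
`Dn (Dk ξ - Dn ξ) = 0`.  The same for `Negx`.
-/

open MvPolynomial

namespace HN

section
variable {ι : Type*} [Fintype ι] [DecidableEq ι] [Ranked ι] {k : Type*} [Field k]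

open Classical in
/-- keep the coefficients `(A, e)` with `P A e` -/
noncomputable def nproj (k : Type*) [Field k] (P : Finset ι → (ι → ℤ) → Prop) :
    (Finset ι → Lau ι k) →ₗ[k] (Finset ι → Lau ι k) where
  toFun ξ A := restr k {e | P A e} (ξ A)
  map_add' x y := by funext A; simp
  map_smul' c x := by funext A; simp

/-- all exponents outside `X` are below their thresholds -/
def Negy (C : CType ι) (A : Finset ι) (e : ι → ℤ) : Prop := ∀ v, v ∉ C.Xs → e v < C.thr v A

/-- all exponents of `X` are below their thresholds -/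
def Negx (C : CType ι) (A : Finset ι) (e : ι → ℤ) : Prop := ∀ v ∈ C.Xs, e v < C.thr v A

/-- forms with negative exponents outside `X` -/
def CN (k : Type*) [Field k] (C : CType ι) (T : Finset ι) (δ j w : ℤ) :
    Submodule k (Finset ι → Lau ι k) :=
  Sp k (fun A e => (A.card : ℤ) = j ∧ C.deg e = δ ∧ C.wt e = w ∧
    (∀ v ∈ C.Xs, v ∉ T → C.thr v A ≤ e v) ∧ Negy C A e)

/-- the differential of `CN` -/
noncomputable def Dn (C : CType ι) (F : MvPolynomial ι k) :
    (Finset ι → Lau ι k) →ₗ[k] (Finset ι → Lau ι k) :=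
  nproj k (Negy C) ∘ₗ Dk F

theorem nproj_coeff (P : Finset ι → (ι → ℤ) → Prop) (ξ : Finset ι → Lau ι k) (A : Finset ι)
    (e : ι → ℤ) [Decidable (P A e)] :
    (nproj k P ξ A).coeff e = if P A e then (ξ A).coeff e else 0 := by
  classical
  change (restr k {e | P A e} (ξ A)).coeff e = _
  rw [restr_coeff]
  by_cases h : P A e
  · rw [if_pos h, if_pos (show e ∈ {e | P A e} from h)]
  · rw [if_neg h, if_neg (show e ∉ {e | P A e} from h)]

private theorem cn_thr_le_one (C : CType ι) (v : ι) (A : Finset ι) : C.thr v A ≤ 1 := by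
  unfold CType.thr
  split_ifs <;> norm_num

/-- one step of `Dk` keeps the threshold conditions -/
private theorem cn_thr_step {C : CType ι} {A : Finset ι} {v : ι}
    {e : ι → ℤ} {m : ι →₀ ℕ} (hm : 1 ≤ m v) {u : ι}
    (h1 : C.thr u (A.erase v) ≤ e u - (m u : ℤ)) : C.thr u A ≤ e u := by
  have h2 : (0 : ℤ) ≤ (m u : ℤ) := by positivity
  by_cases huv : u = v
  · subst huv
    have h3 := thr_nonneg C u (A.erase u)
    have h4 := cn_thr_le_one C u A
    have h5 : (1 : ℤ) ≤ (m u : ℤ) := by exact_mod_cast hm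
    linarith
  · have h3 : C.thr u A = C.thr u (A.erase v) := by
      unfold CType.thr
      have : u ∈ A.erase v ↔ u ∈ A := by simp [Finset.mem_erase, huv]
      simp only [this]
    rw [h3]
    linarith

private noncomputable def cnf (e : ι → ℤ) : Lau ι k →ₗ[k] k where
  toFun f := f.coeff e
  map_add' f g := by simp
  map_smul' c f := by simp

private theorem cn_coeff_sum {κ : Type*} (s : Finset κ) (f : κ → Lau ι k) (e : ι → ℤ) :
    (∑ i ∈ s, f i).coeff e = ∑ i ∈ s, (f i).coeff e :=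
  map_sum (cnf e) f s

private theorem cn_coeff_zsmul (n : ℤ) (f : Lau ι k) (e : ι → ℤ) :
    (n • f).coeff e = n • f.coeff e :=
  map_zsmul (cnf e) n f

private theorem cn_Dk_apply (F : MvPolynomial ι k) (ξ : Finset ι → Lau ι k) (A : Finset ι) :
    Dk F ξ A = ∑ v ∈ A, sg v A • Tm F v (ξ (A.erase v)) := kos_apply _ _ _

private theorem cn_exists_of_Dk {F : MvPolynomial ι k} {ξ : Finset ι → Lau ι k}
    {A : Finset ι} {e : ι → ℤ} (h : (Dk F ξ A).coeff e ≠ 0) :
    ∃ v ∈ A, ∃ m : ι →₀ ℕ, F.coeff m ≠ 0 ∧ 1 ≤ m v ∧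
      (ξ (A.erase v)).coeff (fun u => e u - (m u : ℤ)) ≠ 0 := by
  rw [cn_Dk_apply, cn_coeff_sum] at h
  obtain ⟨v, hv, h2⟩ := Finset.exists_ne_zero_of_sum_ne_zero h
  rw [cn_coeff_zsmul] at h2
  have h3 : (Tm F v (ξ (A.erase v))).coeff e ≠ 0 := by
    intro h4
    rw [h4, smul_zero] at h2
    exact h2 rfl
  exact ⟨v, hv, exists_of_Tm_coeff_ne h3⟩

private theorem cn_Dn_coeff (C : CType ι) (F : MvPolynomial ι k) (ξ : Finset ι → Lau ι k)
    (A : Finset ι) (e : ι → ℤ) [Decidable (Negy C A e)] :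
    (Dn C F ξ A).coeff e = if Negy C A e then (Dk F ξ A).coeff e else 0 :=
  nproj_coeff (Negy C) (Dk F ξ) A e

private theorem cn_Dn_ne {C : CType ι} {F : MvPolynomial ι k} {ξ : Finset ι → Lau ι k}
    {A : Finset ι} {e : ι → ℤ} (h : (Dn C F ξ A).coeff e ≠ 0) :
    Negy C A e ∧ (Dk F ξ A).coeff e ≠ 0 := by
  classical
  rw [cn_Dn_coeff] at h
  by_cases h1 : Negy C A e
  · rw [if_pos h1] at h
    exact ⟨h1, h⟩
  · rw [if_neg h1] at h
    exact absurd rfl h

private theorem cn_form_ext {x y : Finset ι → Lau ι k} (h : ∀ A e, (x A).coeff e = (y A).coeff e) :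
    x = y := funext fun A => lau_ext fun e => h A e

theorem Dn_mem {C : CType ι} {F : MvPolynomial ι k} (hF : C.Hom F) {T : Finset ι} {δ j w : ℤ}
    {ξ : Finset ι → Lau ι k} (h : ξ ∈ CN k C T δ j w) : Dn C F ξ ∈ CN k C T δ (j + 1) (w + 1) := by
  intro A e he
  obtain ⟨hN, he'⟩ := cn_Dn_ne he
  obtain ⟨v, hv, m, h1, h2, h3⟩ := cn_exists_of_Dk he'
  obtain ⟨c1, c2, c3, c4, _⟩ := h _ _ h3
  obtain ⟨d1, d2⟩ := hF m h1
  refine ⟨?_, ?_, ?_, ?_, hN⟩
  · have := Finset.card_erase_add_one hv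
    rw [← c1, ← this]
    push_cast
    rfl
  · have : C.deg (fun v => e v - (m v : ℤ)) = C.deg e - C.deg (fun v => (m v : ℤ)) := by
      simp only [CType.deg, mul_sub, Finset.sum_sub_distrib]
    rw [c2, d1] at this
    linarith
  · have : C.wt (fun v => e v - (m v : ℤ)) = C.wt e - C.wt (fun v => (m v : ℤ)) := by
      simp only [CType.wt, Finset.sum_sub_distrib]
    rw [c3, d2] at this
    linarith
  · intro u hu huT
    exact cn_thr_step h2 (c4 u hu huT)

/-- `Dn` kills forms without `Negy`-coefficients -/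
theorem Dn_of_pos (C : CType ι) (F : MvPolynomial ι k) {ξ : Finset ι → Lau ι k}
    (h : nproj k (Negy C) ξ = 0) : Dn C F ξ = 0 := by
  classical
  refine cn_form_ext fun A e => ?_
  by_contra hne
  have hne' : (Dn C F ξ A).coeff e ≠ 0 := hne
  obtain ⟨hN, he'⟩ := cn_Dn_ne hne'
  obtain ⟨v, hv, m, h1, h2, h3⟩ := cn_exists_of_Dk he'
  have h4 : ¬ Negy C (A.erase v) (fun u => e u - (m u : ℤ)) := by
    intro h5
    apply h3
    have h6 := nproj_coeff (Negy C) ξ (A.erase v) (fun u => e u - (m u : ℤ))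
    rw [if_pos h5, h] at h6
    rw [← h6]
    rfl
  unfold Negy at h4
  push Not at h4
  obtain ⟨u, hu, h5⟩ := h4
  have h6 := hN u hu
  have h7 := cn_thr_step (C := C) h2 h5
  omega

theorem Dn_Dn (C : CType ι) (F : MvPolynomial ι k) (ξ : Finset ι → Lau ι k) :
    Dn C F (Dn C F ξ) = 0 := by
  classical
  have h1 : nproj k (Negy C) (Dk F ξ - Dn C F ξ) = 0 := by
    rw [map_sub]
    refine cn_form_ext fun A e => ?_
    have e1 : ((nproj k (Negy C) (Dk F ξ) - nproj k (Negy C) (Dn C F ξ)) A).coeff e =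
        (nproj k (Negy C) (Dk F ξ) A).coeff e - (nproj k (Negy C) (Dn C F ξ) A).coeff e :=
      map_sub (cnf e) _ _
    rw [e1, nproj_coeff, nproj_coeff, cn_Dn_coeff]
    by_cases h2 : Negy C A e
    · simp [h2]
    · simp [h2]
  have h2 := Dn_of_pos C F h1
  rw [map_sub] at h2
  have h3 : Dn C F (Dk F ξ) = 0 := by
    change nproj k (Negy C) (Dk F (Dk F ξ)) = 0
    rw [Dk_Dk, map_zero]
  rw [h3, zero_sub, neg_eq_zero] at h2
  exact h2

/-- `nproj (Negx)` of `Dn ξ` only depends on `nproj (Negx) ξ` -/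
theorem Negx_Dn (C : CType ι) (F : MvPolynomial ι k) {ξ : Finset ι → Lau ι k}
    (h : nproj k (Negx C) ξ = 0) : nproj k (Negx C) (Dn C F ξ) = 0 := by
  classical
  refine cn_form_ext fun A e => ?_
  rw [nproj_coeff]
  by_cases hX : Negx C A e
  swap
  · rw [if_neg hX]
    rfl
  rw [if_pos hX]
  by_contra hne
  have hne' : (Dn C F ξ A).coeff e ≠ 0 := hne
  obtain ⟨hN, he'⟩ := cn_Dn_ne hne'
  obtain ⟨v, hv, m, h1, h2, h3⟩ := cn_exists_of_Dk he'
  have h4 : ¬ Negx C (A.erase v) (fun u => e u - (m u : ℤ)) := by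
    intro h5
    apply h3
    have h6 := nproj_coeff (Negx C) ξ (A.erase v) (fun u => e u - (m u : ℤ))
    rw [if_pos h5, h] at h6
    rw [← h6]
    rfl
  unfold Negx at h4
  push Not at h4
  obtain ⟨u, hu, h5⟩ := h4
  have h6 := hX u hu
  have h7 := cn_thr_step (C := C) h2 h5
  omega

theorem CN_mono (C : CType ι) {T T' : Finset ι} (h : T ⊆ T') (δ j w : ℤ) :
    CN k C T δ j w ≤ CN k C T' δ j w := by
  intro ξ hξ A e he
  obtain ⟨c1, c2, c3, c4, c5⟩ := hξ A e he
  exact ⟨c1, c2, c3, fun v hv hvT => c4 v hv (fun h' => hvT (h h')), c5⟩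

private theorem cn_bot {P : Finset ι → (ι → ℤ) → Prop} (h : ∀ A e, ¬ P A e) : Sp k P = ⊥ := by
  rw [eq_bot_iff]
  intro ξ hξ
  rw [Submodule.mem_bot]
  refine cn_form_ext fun A e => ?_
  by_contra hne
  exact h A e (hξ A e hne)

private theorem cn_negy_le {C : CType ι} {A : Finset ι} {e : ι → ℤ} (h : Negy C A e) {v : ι}
    (hv : v ∉ C.Xs) : e v ≤ if v ∈ C.Ys then -1 else 0 := by
  have h1 := h v hv
  by_cases h2 : v ∈ C.Ys
  · rw [if_pos h2]
    have h3 : C.thr v A = 0 := by
      unfold CType.thr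
      rw [if_neg (fun h => h.2 h2)]
    omega
  · rw [if_neg h2]
    have := cn_thr_le_one C v A
    omega

private theorem cn_Ys_sub (C : CType ι) : C.Ys ⊆ C.Xsᶜ := by
  intro v hv
  exact Finset.mem_compl.2 (C.hXY v hv)

/-- weights are `≤ - |Ys|` -/
theorem CN_wt (C : CType ι) {T : Finset ι} {δ j w : ℤ} (hw : -(C.Ys.card : ℤ) < w) :
    CN k C T δ j w = ⊥ := by
  refine cn_bot fun A e h => ?_
  obtain ⟨_, _, c3, _, c5⟩ := h
  have h1 : C.wt e ≤ ∑ v ∈ C.Xsᶜ, (if v ∈ C.Ys then (-1 : ℤ) else 0) := by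
    unfold CType.wt
    exact Finset.sum_le_sum fun v hv => cn_negy_le c5 (Finset.mem_compl.1 hv)
  have h2 : ∑ v ∈ C.Xsᶜ, (if v ∈ C.Ys then (-1 : ℤ) else 0) = -(C.Ys.card : ℤ) := by
    rw [← Finset.sum_filter]
    have h3 : C.Xsᶜ.filter (fun v => v ∈ C.Ys) = C.Ys := by
      ext v
      rw [Finset.mem_filter]
      exact ⟨fun h => h.2, fun h => ⟨cn_Ys_sub C h, h⟩⟩
    rw [h3]
    simp
  omega

theorem CN_neg (C : CType ι) {T : Finset ι} {δ j w : ℤ} (hj : j < 0) :
    CN k C T δ j w = ⊥ := by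
  refine cn_bot fun A e h => ?_
  obtain ⟨c1, _⟩ := h
  omega

/-- nothing for `T ∩ Xs = ∅` in degrees `< dlog` -/
theorem CN_empty (C : CType ι) {T : Finset ι} (hT : Disjoint T C.Xs) {δ j w : ℤ}
    (hδ : δ < C.dlog) : CN k C T δ j w = ⊥ := by
  refine cn_bot fun A e h => ?_
  obtain ⟨_, c2, _, c4, c5⟩ := h
  have h0 : C.deg e = ∑ v ∈ C.Xs, C.wd v * e v + ∑ v ∈ C.Xsᶜ, C.wd v * e v := by
    unfold CType.deg
    rw [← Finset.sum_add_sum_compl C.Xs]
  have h1 : 0 ≤ ∑ v ∈ C.Xs, C.wd v * e v := by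
    refine Finset.sum_nonneg fun v hv => ?_
    rw [C.hX v hv, one_mul]
    exact (thr_nonneg C v A).trans (c4 v hv (fun h' => Finset.disjoint_left.1 hT h' hv))
  have h2 : ∑ v ∈ C.Xsᶜ, (if v ∈ C.Ys then - C.wd v else 0) ≤ ∑ v ∈ C.Xsᶜ, C.wd v * e v := by
    refine Finset.sum_le_sum fun v hv => ?_
    have h3 := cn_negy_le c5 (Finset.mem_compl.1 hv)
    have h4 := C.hneg v (Finset.mem_compl.1 hv)
    by_cases h5 : v ∈ C.Ys
    · rw [if_pos h5] at h3 ⊢
      nlinarith
    · rw [if_neg h5] at h3 ⊢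
      nlinarith
  have h3 : ∑ v ∈ C.Xsᶜ, (if v ∈ C.Ys then - C.wd v else 0) = C.dlog := by
    rw [← Finset.sum_filter]
    have h3 : C.Xsᶜ.filter (fun v => v ∈ C.Ys) = C.Ys := by
      ext v
      rw [Finset.mem_filter]
      exact ⟨fun h => h.2, fun h => ⟨cn_Ys_sub C h, h⟩⟩
    rw [h3]
    rfl
  omega

private theorem cn_thr_empty (C : CType ι) (v : ι) : C.thr v ∅ = 0 := by
  unfold CType.thr
  rw [if_neg]
  intro h
  exact absurd h.1 (Finset.notMem_empty v)

private theorem cn_single_ne {f : Lau ι k} {A : Finset ι} {e : ι → ℤ}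
    (h : ((Pi.single ∅ f : Finset ι → Lau ι k) A).coeff e ≠ 0) : A = ∅ ∧ f.coeff e ≠ 0 := by
  by_cases hA : A = ∅
  · subst hA
    rw [Pi.single_eq_same] at h
    exact ⟨rfl, h⟩
  · rw [Pi.single_eq_of_ne hA] at h
    exact absurd rfl h

private theorem cn_Dk_single (F : MvPolynomial ι k) (f : Lau ι k) (v : ι) :
    Dk F (Pi.single ∅ f) {v} = Tm F v f := by
  rw [cn_Dk_apply, Finset.sum_singleton]
  have h1 : ({v} : Finset ι).erase v = ∅ := by simp
  rw [h1, Pi.single_eq_same]
  have h2 : sg v ({v} : Finset ι) = 1 := by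
    unfold sg
    have : ({v} : Finset ι).filter (fun a => rk a < rk v) = ∅ := by
      rw [Finset.filter_singleton, if_neg (lt_irrefl _)]
    rw [this]
    simp
  rw [h2, one_smul]

private theorem cn_Dk_single_ne {F : MvPolynomial ι k} {f : Lau ι k} {A : Finset ι}
    (h : Dk F (Pi.single ∅ f) A ≠ 0) : ∃ v, A = {v} := by
  rw [cn_Dk_apply] at h
  obtain ⟨v, hv, h1⟩ := Finset.exists_ne_zero_of_sum_ne_zero h
  refine ⟨v, ?_⟩
  by_contra hA
  apply h1
  have h2 : A.erase v ≠ ∅ := by
    intro h3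
    apply hA
    rw [← Finset.insert_erase hv, h3]
    rfl
  rw [Pi.single_eq_of_ne h2, map_zero, smul_zero]

/-- relation with `NNc` : for `A = ∅` -/
theorem mem_NNc_iff (C : CType ι) {F : MvPolynomial ι k} (hF : C.Hom F) {δ w : ℤ}
    (f : Lau ι k) :
    f ∈ NNc C F δ w ↔ (Pi.single ∅ f ∈ CN k C C.Xs δ 0 w ∧
      nproj k (Negx C) (Pi.single ∅ f) = Pi.single ∅ f ∧
      nproj k (Negx C) (Dn C F (Pi.single ∅ f)) = 0) := by
  classical
  constructor
  · rintro ⟨h1, h2⟩
    refine ⟨?_, ?_, ?_⟩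
    · intro A e he
      obtain ⟨rfl, he'⟩ := cn_single_ne he
      obtain ⟨c1, c2, c3⟩ := h1 e he'
      refine ⟨by simp, c1, c2, fun v hv hv' => absurd hv hv', fun v _ => ?_⟩
      rw [cn_thr_empty]
      have := c3 v
      omega
    · refine cn_form_ext fun A e => ?_
      rw [nproj_coeff]
      by_cases hX : Negx C A e
      · rw [if_pos hX]
      · rw [if_neg hX]
        by_contra hne
        obtain ⟨rfl, he'⟩ := cn_single_ne (Ne.symm hne)
        obtain ⟨_, _, c3⟩ := h1 e he'
        apply hX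
        intro v _
        rw [cn_thr_empty]
        have := c3 v
        omega
    · refine cn_form_ext fun A e => ?_
      rw [nproj_coeff]
      by_cases hX : Negx C A e
      swap
      · rw [if_neg hX]
        rfl
      rw [if_pos hX]
      by_contra hne
      have hne' : (Dn C F (Pi.single ∅ f) A).coeff e ≠ 0 := hne
      obtain ⟨hN, he'⟩ := cn_Dn_ne hne'
      have h3 : Dk F (Pi.single ∅ f) A ≠ 0 := by
        intro h4
        rw [h4] at he'
        exact he' rfl
      obtain ⟨v, rfl⟩ := cn_Dk_single_ne h3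
      rw [cn_Dk_single] at he'
      have h5 : ∀ u, e u < C.thr u {v} := by
        intro u
        by_cases hu : u ∈ C.Xs
        · exact hX u hu
        · exact hN u hu
      apply he'
      refine h2 v e ?_ ?_ ?_
      · intro u hu
        have h6 := h5 u
        have h7 : C.thr u {v} = 0 := by
          unfold CType.thr
          rw [if_neg]
          intro h
          exact hu (Finset.mem_singleton.1 h.1)
        omega
      · intro hv
        have h6 := h5 v
        have h7 : C.thr v {v} = 0 := by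
          unfold CType.thr
          rw [if_neg]
          intro h
          exact h.2 hv
        omega
      · have h6 := h5 v
        have := cn_thr_le_one C v {v}
        omega
  · rintro ⟨h1, h2, h3⟩
    refine ⟨?_, ?_⟩
    · intro e he
      have he' : ((Pi.single ∅ f : Finset ι → Lau ι k) ∅).coeff e ≠ 0 := by
        rw [Pi.single_eq_same]
        exact he
      obtain ⟨_, c2, c3, _, c5⟩ := h1 ∅ e he'
      refine ⟨c2, c3, fun v => ?_⟩
      by_cases hv : v ∈ C.Xs
      · have hX : Negx C ∅ e := by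
          by_contra hX
          apply he'
          rw [← h2, nproj_coeff, if_neg hX]
        have := hX v hv
        rw [cn_thr_empty] at this
        omega
      · have := c5 v hv
        rw [cn_thr_empty] at this
        omega
    · intro v e g1 g2 g3
      have hlt : ∀ u, e u < C.thr u {v} := by
        intro u
        by_cases huv : u = v
        · subst huv
          by_cases hu : u ∈ C.Ys
          · have := g2 hu
            have := thr_nonneg C u {u}
            omega
          · have : C.thr u {u} = 1 := by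
              unfold CType.thr
              rw [if_pos ⟨Finset.mem_singleton_self u, hu⟩]
            omega
        · have := g1 u huv
          have := thr_nonneg C u {v}
          omega
      have h4 : (nproj k (Negx C) (Dn C F (Pi.single ∅ f)) {v}).coeff e = 0 := by
        rw [h3]
        rfl
      have hX : Negx C {v} e := fun u _ => hlt u
      have hY : Negy C {v} e := fun u _ => hlt u
      rw [nproj_coeff, if_pos hX, cn_Dn_coeff, if_pos hY, cn_Dk_single] at h4
      exact h4

end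

end HN
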