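import Pool.Agent.HN.KosRegT

/-! # HN/LowExact : `Dk` is exact in weights `< s` (module HN-C3)

PLAN.  For a form `ξ` let `ξ_i` be the part with `#(A ∩ Z) = i`.  `dxyop` preserves `i`, `dzop`
raises it by one.  Descending induction on the largest `i` with `ξ_i ≠ 0`: the `(i+1)`-part of
`Dk ξ = 0` is `dzop ξ_i = 0`, so `ξ_i = dzop η` (`dz_exact`), where `η` may be taken with
`#(A ∩ Z) = i - 1`; replace `ξ` by `ξ - Dk η`.
-/

open MvPolynomial

namespace HN

section
variable {k : Type*} [Field k] {n r s : ℕ} {d : Fin r → ℕ} {c : Fin s → ℕ}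

/-- number of the `z`-variables in `A` -/
private def lz (A : Finset (Vr n r s)) : ℕ :=
  ((Finset.univ : Finset (Fin s)).filter
    (fun j => (Sum.inr (Sum.inr j) : Vr n r s) ∈ A)).card

private theorem lz_erase_z (A : Finset (Vr n r s)) (j : Fin s)
    (h : (Sum.inr (Sum.inr j) : Vr n r s) ∈ A) :
    lz (A.erase (Sum.inr (Sum.inr j))) + 1 = lz A := by
  unfold lz
  have h1 : (Finset.univ : Finset (Fin s)).filter
      (fun j' => (Sum.inr (Sum.inr j') : Vr n r s) ∈ A.erase (Sum.inr (Sum.inr j))) =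
      ((Finset.univ : Finset (Fin s)).filter
        (fun j' => (Sum.inr (Sum.inr j') : Vr n r s) ∈ A)).erase j := by
    ext j'
    simp [Finset.mem_erase]
  rw [h1, Finset.card_erase_add_one (by simp [h])]

private theorem lz_erase (A : Finset (Vr n r s)) (v : Vr n r s)
    (hv : ∀ j : Fin s, v ≠ Sum.inr (Sum.inr j)) : lz (A.erase v) = lz A := by
  unfold lz
  congr 1
  ext j'
  simp [Finset.mem_erase, Ne.symm (hv j')]

/-- the part with `#(A ∩ Z) = i` -/
private noncomputable def lP (i : ℤ) : (Finset (Vr n r s) → Lau (Vr n r s) k) →ₗ[k]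
    (Finset (Vr n r s) → Lau (Vr n r s) k) where
  toFun ξ A := if (lz A : ℤ) = i then ξ A else 0
  map_add' x y := by
    funext A; by_cases h : (lz A : ℤ) = i <;> simp [h]
  map_smul' c x := by
    funext A; by_cases h : (lz A : ℤ) = i <;> simp [h]

private theorem lP_apply (i : ℤ) (ξ : Finset (Vr n r s) → Lau (Vr n r s) k)
    (A : Finset (Vr n r s)) : lP i ξ A = if (lz A : ℤ) = i then ξ A else 0 := rfl

private theorem we_app (v : Vr n r s) (ξ : Finset (Vr n r s) → Lau (Vr n r s) k)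
    (A : Finset (Vr n r s)) : we k v ξ A = if v ∈ A then sg v A • ξ (A.erase v) else 0 := rfl

private theorem lP_mp (i : ℤ) (φ : Lau (Vr n r s) k →ₗ[k] Lau (Vr n r s) k)
    (ξ : Finset (Vr n r s) → Lau (Vr n r s) k) : lP i (mp k φ ξ) = mp k φ (lP i ξ) := by
  funext A
  change (if (lz A : ℤ) = i then φ (ξ A) else 0) = φ (if (lz A : ℤ) = i then ξ A else 0)
  split_ifs
  · rfl
  · rw [map_zero]

private theorem lP_we_z (i : ℤ) (j : Fin s) (ξ : Finset (Vr n r s) → Lau (Vr n r s) k) :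
    lP (i + 1) (we k (Sum.inr (Sum.inr j)) ξ) = we k (Sum.inr (Sum.inr j)) (lP i ξ) := by
  funext A
  rw [lP_apply, we_app, we_app, lP_apply]
  by_cases h : (Sum.inr (Sum.inr j) : Vr n r s) ∈ A
  · have h1 := lz_erase_z A j h
    rw [if_pos h, if_pos h]
    by_cases h2 : (lz A : ℤ) = i + 1
    · rw [if_pos h2, if_pos (by omega)]
    · rw [if_neg h2, if_neg (by omega), smul_zero]
  · rw [if_neg h, if_neg h, ite_self]

private theorem lP_we (i : ℤ) (v : Vr n r s) (hv : ∀ j : Fin s, v ≠ Sum.inr (Sum.inr j))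
    (ξ : Finset (Vr n r s) → Lau (Vr n r s) k) :
    lP i (we k v ξ) = we k v (lP i ξ) := by
  funext A
  rw [lP_apply, we_app, we_app, lP_apply, lz_erase A v hv]
  by_cases h : v ∈ A
  · rw [if_pos h, if_pos h]
    by_cases h2 : (lz A : ℤ) = i
    · rw [if_pos h2, if_pos h2]
    · rw [if_neg h2, if_neg h2, smul_zero]
  · rw [if_neg h, if_neg h, ite_self]

private theorem lP_dz (D : Datum k n r s d c) (i : ℤ)
    (ξ : Finset (Vr n r s) → Lau (Vr n r s) k) :
    lP (i + 1) (dzop D ξ) = dzop D (lP i ξ) := by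
  simp only [dzop, LinearMap.sum_apply, LinearMap.comp_apply, map_sum]
  refine Finset.sum_congr rfl fun j _ => ?_
  rw [lP_we_z, lP_mp]

private theorem lP_dxy (D : Datum k n r s d c) (i : ℤ)
    (ξ : Finset (Vr n r s) → Lau (Vr n r s) k) :
    lP i (dxyop D ξ) = dxyop D (lP i ξ) := by
  simp only [dxyop, LinearMap.add_apply, LinearMap.sum_apply, LinearMap.comp_apply, map_add,
    map_sum]
  congr 1
  · refine Finset.sum_congr rfl fun j _ => ?_
    rw [lP_we _ _ (by simp), lP_mp]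
  · refine Finset.sum_congr rfl fun j _ => ?_
    rw [lP_we _ _ (by simp), lP_mp]

private theorem lP_mem {C : CType (Vr n r s)} {T : Finset (Vr n r s)} {δ j w : ℤ} (i : ℤ)
    {ξ : Finset (Vr n r s) → Lau (Vr n r s) k} (h : ξ ∈ KW k C T δ j w) :
    lP i ξ ∈ KW k C T δ j w := by
  intro A e he
  rw [lP_apply] at he
  by_cases h2 : (lz A : ℤ) = i
  · rw [if_pos h2] at he
    exact h A e he
  · rw [if_neg h2] at he
    exact absurd rfl he

private theorem low_aux (hd : ∀ i, 1 ≤ d i) (hc : ∀ j, 1 ≤ c j) (D : Datum k n r s d c)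
    {T : Finset (Vr n r s)} (hT : T ⊆ (cayT n d c hd hc).Xs) {δ j w : ℤ} (hw : w < s)
    (m : ℕ) : ∀ ξ : Finset (Vr n r s) → Lau (Vr n r s) k,
      ξ ∈ KW k (cayT n d c hd hc) T δ j w → Dk (cayF D) ξ = 0 →
      (∀ A, m ≤ lz A → ξ A = 0) →
      ∃ η ∈ KW k (cayT n d c hd hc) T δ (j - 1) (w - 1), Dk (cayF D) η = ξ := by
  induction m with
  | zero =>
    intro ξ _ _ h
    refine ⟨0, Submodule.zero_mem _, ?_⟩
    rw [map_zero]
    funext A
    exact (h A (Nat.zero_le _)).symm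
  | succ m ih =>
    intro ξ hξ h0 hv
    have hk : ∀ ζ : Finset (Vr n r s) → Lau (Vr n r s) k,
        Dk (cayF D) ζ = dxyop D ζ + dzop D ζ := fun ζ => by rw [Dk_cay]; rfl
    have hz0 : lP ((m : ℤ) + 1) ξ = 0 := by
      funext A
      rw [lP_apply]
      split_ifs with h
      · exact hv A (by omega)
      · rfl
    have h1 : dzop D (lP (m : ℤ) ξ) = 0 := by
      have h2 := hk ξ
      rw [h0] at h2
      have h3 := congrArg (lP ((m : ℤ) + 1)) h2
      rw [map_zero, map_add, lP_dxy, lP_dz, hz0, map_zero, zero_add] at h3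
      exact h3.symm
    obtain ⟨η, hη, hη1⟩ := dz_exact hd hc D hT hw (lP_mem (m : ℤ) hξ) h1
    have h4 : dzop D (lP ((m : ℤ) - 1) η) = lP (m : ℤ) ξ := by
      rw [← lP_dz, hη1, sub_add_cancel]
      funext A
      rw [lP_apply, lP_apply]
      split_ifs <;> rfl
    have h5 : lP ((m : ℤ) - 1) η ∈ KW k (cayT n d c hd hc) T δ (j - 1) (w - 1) := lP_mem _ hη
    have h6 := Dk_mem_KW (cay_hom D hd hc) h5
    rw [sub_add_cancel, sub_add_cancel] at h6
    obtain ⟨η2, hη2, hη3⟩ := ih (ξ - Dk (cayF D) (lP ((m : ℤ) - 1) η)) (Submodule.sub_mem _ hξ h6)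
      (by rw [map_sub, h0, Dk_Dk, sub_zero]) (by
        intro A hA
        rw [hk, h4, ← lP_dxy, Pi.sub_apply, Pi.add_apply, lP_apply, lP_apply,
          if_neg (by omega), zero_add]
        split_ifs with h7
        · rw [sub_self]
        · rw [sub_zero]
          exact hv A (by omega))
    refine ⟨η2 + lP ((m : ℤ) - 1) η, Submodule.add_mem _ hη2 h5, ?_⟩
    rw [map_add, hη3, sub_add_cancel]

theorem low_exact (hd : ∀ i, 1 ≤ d i) (hc : ∀ j, 1 ≤ c j) (D : Datum k n r s d c)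
    {T : Finset (Vr n r s)} (hT : T ⊆ (cayT n d c hd hc).Xs) {δ j w : ℤ} (hw : w < s)
    {ξ : Finset (Vr n r s) → Lau (Vr n r s) k} (hξ : ξ ∈ KW k (cayT n d c hd hc) T δ j w)
    (h0 : Dk (cayF D) ξ = 0) :
    ∃ η ∈ KW k (cayT n d c hd hc) T δ (j - 1) (w - 1), Dk (cayF D) η = ξ := by
  refine low_aux hd hc D hT hw (s + 1) ξ hξ h0 fun A hA => ?_
  exfalso
  have h1 : lz A ≤ s := by
    unfold lz
    exact (Finset.card_le_univ _).trans (by simp)
  omega

end

end HN
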