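import Pool.Agent.HN.CN
import Pool.Agent.HN.LowExact

/-! # HN/CNExact : `CN` is exact below the top weight (module HN-C11)

PLAN (`cn_exact`).  `S := C.Xsᶜ`, `m' := |S|`, `c0 := w - j`.  Index sets `U`.
Full system: `M U j' := KW k C (T ∪ U) δ j' (j' + c0)` if `U ⊆ S`, `⊥` otherwise (differential
`tot S (Dk F)`).  Pos system: the same, but only coefficients `(A, e)` with
`∃ v ∉ Xs, thr v A ≤ e v` (automatic if `U ≠ S`).
(1) Pos is exact in every total degree: `tot_of_ce` + `ce_exact` (`S₀ = univ \ T` or treat the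
    `x`-thresholds in `Qa`; `Qa A e := deg e = δ ∧ wt e = j' + c0 ∧ (∀ v ∈ Xs, v ∉ T → thr ≤ e v) ∧
    ∃ v ∉ Xs, thr v A ≤ e v`, `W V := V = ∅`); `Dk` preserves Pos (see `CN.lean`).
(2) Full is exact in total degree `m = j + m'`: `tot_of_D`; column `U ≠ ∅`: `unit_exact`
    (`a ∈ T ∩ Xs`, `b ∈ U`) and the weight component; column `U = ∅`: `hlow` (`low_exact`), form
    degree `j + m'`, weight `w + m' < s`.
Chase: `α ∈ CN`, `Dn α = 0`.  `α̂` := `α` placed at `U = S` (total degree `j + m'`).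
`tot α̂` is in Pos and is a cocycle, so `= tot ζ`, `ζ` in Pos of total degree `j + m'`;
`α̂ - ζ = tot η`.  At `U = S` apply `nproj (Negy)`: `α = ± nproj (Dk (η S)) = ± Dn (nproj (η S))`
(the Čech part of `tot η` at `S` and `ζ S` are in Pos).
-/

open MvPolynomial

namespace HN

section
variable {ι : Type*} [Fintype ι] [DecidableEq ι] [Ranked ι] {k : Type*} [Field k]

private theorem cx_coeff_Dk {F : MvPolynomial ι k} {ξ : Finset ι → Lau ι k}
    {A : Finset ι} {e : ι → ℤ} (h : (Dk F ξ A).coeff e ≠ 0) :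
    ∃ v ∈ A, ∃ m : ι →₀ ℕ, F.coeff m ≠ 0 ∧ 1 ≤ m v ∧
      (ξ (A.erase v)).coeff (fun u => e u - (m u : ℤ)) ≠ 0 := by
  have h1 : Dk F ξ A = ∑ v ∈ A, sg v A • Tm F v (ξ (A.erase v)) := kos_apply _ _ _
  rw [h1, AddMonoidAlgebra.coeff_sum, Finsupp.finsetSum_apply] at h
  obtain ⟨v, hv, h2⟩ := Finset.exists_ne_zero_of_sum_ne_zero h
  have h3 : (Tm F v (ξ (A.erase v))).coeff e ≠ 0 := by
    intro h4
    apply h2
    rw [AddMonoidAlgebra.coeff_smul, Finsupp.smul_apply, h4, smul_zero]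
  exact ⟨v, hv, exists_of_Tm_coeff_ne h3⟩

private theorem cx_thr (C : CType ι) {A : Finset ι} {v u : ι} {e : ι → ℤ} {m : ι →₀ ℕ}
    (hm : 1 ≤ m v) (h : C.thr u (A.erase v) ≤ e u - (m u : ℤ)) : C.thr u A ≤ e u := by
  have h2 : (0 : ℤ) ≤ (m u : ℤ) := by positivity
  by_cases huv : u = v
  · subst huv
    have h3 := thr_nonneg C u (A.erase u)
    have h4 : C.thr u A ≤ 1 := by
      unfold CType.thr
      split_ifs <;> norm_num
    have h5 : (1 : ℤ) ≤ (m u : ℤ) := by exact_mod_cast hm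
    linarith
  · have h3 : C.thr u A = C.thr u (A.erase v) := by
      unfold CType.thr
      have : u ∈ A.erase v ↔ u ∈ A := by simp [Finset.mem_erase, huv]
      simp only [this]
    rw [h3]
    linarith

/-- the system of submodules, with an additional condition `Q` -/
private def cxM (k : Type*) [Field k] (C : CType ι) (T : Finset ι) (δ c0 : ℤ)
    (Q : Finset ι → (ι → ℤ) → Prop) (U : Finset ι) (j : ℤ) : Submodule k (Finset ι → Lau ι k) :=
  MM k C C.Xsᶜ C.Xsᶜ (fun V => V = ∅) (fun A e => (C.deg e = δ ∧ C.wt e = (A.card : ℤ) + c0 ∧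
    ∀ v ∈ C.Xs, v ∉ T → C.thr v A ≤ e v) ∧ Q A e) U j

omit [Ranked ι] in
private theorem cx_mem {C : CType ι} {T : Finset ι} {δ c0 : ℤ}
    {Q : Finset ι → (ι → ℤ) → Prop} {U : Finset ι} {j : ℤ} {x : Finset ι → Lau ι k} :
    x ∈ cxM k C T δ c0 Q U j ↔ ∀ A e, (x A).coeff e ≠ 0 → (U \ C.Xsᶜ = ∅ ∧ (A.card : ℤ) = j ∧
      ((C.deg e = δ ∧ C.wt e = (A.card : ℤ) + c0 ∧ ∀ v ∈ C.Xs, v ∉ T → C.thr v A ≤ e v) ∧
      Q A e) ∧ ∀ v ∈ C.Xsᶜ, v ∉ U → C.thr v A ≤ e v) := Iff.rfl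

private theorem cx_hD {C : CType ι} {F : MvPolynomial ι k} (hF : C.Hom F) {T : Finset ι}
    {δ c0 : ℤ} {Q : Finset ι → (ι → ℤ) → Prop}
    (hQ : ∀ (A : Finset ι) (e : ι → ℤ) (v : ι) (m : ι →₀ ℕ), v ∈ A → 1 ≤ m v →
      Q (A.erase v) (fun u => e u - (m u : ℤ)) → Q A e) (U : Finset ι) (j : ℤ)
    (x : Finset ι → Lau ι k) (hx : x ∈ cxM k C T δ c0 Q U j) :
    Dk F x ∈ cxM k C T δ c0 Q U (j + 1) := by
  intro A e he
  obtain ⟨v, hv, m, h1, h2, h3⟩ := cx_coeff_Dk he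
  obtain ⟨c1, c2, ⟨⟨c3, c4, c5⟩, c6⟩, c7⟩ := cx_mem.1 hx _ _ h3
  obtain ⟨d1, d2⟩ := hF m h1
  have hcard := Finset.card_erase_add_one hv
  have hcard' : ((A.erase v).card : ℤ) + 1 = A.card := by exact_mod_cast hcard
  refine ⟨c1, ?_, ⟨⟨?_, ?_, fun u hu huT => cx_thr C h2 (c5 u hu huT)⟩, hQ A e v m hv h2 c6⟩,
    fun u hu huU => cx_thr C h2 (c7 u hu huU)⟩
  · rw [← hcard', c2]
  · have h4 : C.deg (fun u => e u - (m u : ℤ)) = C.deg e - C.deg (fun u => (m u : ℤ)) := by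
      simp only [CType.deg, mul_sub, Finset.sum_sub_distrib]
    rw [c3, d1] at h4
    linarith
  · have h4 : C.wt (fun u => e u - (m u : ℤ)) = C.wt e - C.wt (fun u => (m u : ℤ)) := by
      simp only [CType.wt, Finset.sum_sub_distrib]
    rw [c4, d2] at h4
    linarith

omit [Ranked ι] in
private theorem cx_incl {C : CType ι} {T : Finset ι}
    {δ c0 : ℤ} {Q : Finset ι → (ι → ℤ) → Prop} (U : Finset ι) (j : ℤ) (v : ι) (hv : v ∈ C.Xsᶜ)
    (_ : v ∉ U) : cxM k C T δ c0 Q U j ≤ cxM k C T δ c0 Q (insert v U) j := by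
  intro x hx A e he
  obtain ⟨c1, c2, c3, c4⟩ := cx_mem.1 hx _ _ he
  refine ⟨?_, c2, c3, fun u hu huU => c4 u hu fun h => huU (Finset.mem_insert_of_mem h)⟩
  change insert v U \ C.Xsᶜ = ∅
  rw [Finset.insert_sdiff_of_mem U hv]
  exact c1

omit [Ranked ι] in
private theorem cx_le {C : CType ι} {T : Finset ι}
    {δ c0 : ℤ} {Q : Finset ι → (ι → ℤ) → Prop} (U : Finset ι) (j : ℤ) :
    cxM k C T δ c0 Q U j ≤ cxM k C T δ c0 (fun _ _ => True) U j := by
  intro x hx A e he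
  obtain ⟨c1, c2, c3, c4⟩ := cx_mem.1 hx _ _ he
  exact ⟨c1, c2, ⟨c3.1, trivial⟩, c4⟩

omit [Ranked ι] in
private theorem cx_KW {C : CType ι} {T : Finset ι} {δ c0 : ℤ} {U : Finset ι} (hU : U \ C.Xsᶜ = ∅)
    (j : ℤ) (hT : T ⊆ C.Xs) :
    cxM k C T δ c0 (fun _ _ => True) U j = KW k C (T ∪ U) δ j (j + c0) := by
  ext x
  constructor
  · intro hx A e he
    obtain ⟨-, c2, ⟨⟨c3, c4, c5⟩, -⟩, c7⟩ := cx_mem.1 hx _ _ he
    refine ⟨c2, c3, fun v hv => ?_, by rw [c4, c2]⟩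
    rw [Finset.mem_union, not_or] at hv
    by_cases hX : v ∈ C.Xs
    · exact c5 v hX hv.1
    · exact c7 v (Finset.mem_compl.2 hX) hv.2
  · intro hx A e he
    obtain ⟨c1, c2, c3, c4⟩ := hx A e he
    refine ⟨hU, c1, ⟨⟨c2, by rw [c4, c1], fun v hv hvT => c3 v ?_⟩, trivial⟩, fun v hv hvU =>
      c3 v ?_⟩
    · rw [Finset.mem_union, not_or]
      refine ⟨hvT, fun hvU => ?_⟩
      have : v ∈ U \ C.Xsᶜ := Finset.mem_sdiff.2 ⟨hvU, fun h => (Finset.mem_compl.1 h) hv⟩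
      rw [hU] at this
      exact absurd this (Finset.notMem_empty v)
    · rw [Finset.mem_union, not_or]
      exact ⟨fun h => (Finset.mem_compl.1 hv) (hT h), hvU⟩

omit [Ranked ι] in
private theorem cx_bot {C : CType ι} {T : Finset ι} {δ c0 : ℤ} {Q : Finset ι → (ι → ℤ) → Prop}
    {U : Finset ι} (hU : U \ C.Xsᶜ ≠ ∅) {j : ℤ} {x : Finset ι → Lau ι k}
    (hx : x ∈ cxM k C T δ c0 Q U j) : x = 0 := by
  funext A
  refine lau_ext fun e => ?_
  by_contra hne
  exact hU (cx_mem.1 hx A e hne).1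

private theorem cx_nproj_eq (P : Finset ι → (ι → ℤ) → Prop) {x : Finset ι → Lau ι k}
    (h : ∀ A e, (x A).coeff e ≠ 0 → P A e) : nproj k P x = x := by
  classical
  funext A
  refine lau_ext fun e => ?_
  rw [nproj_coeff]
  by_cases hP : P A e
  · rw [if_pos hP]
  · rw [if_neg hP]
    by_contra hne
    exact hP (h A e (Ne.symm hne))

private theorem cx_nproj_zero (P : Finset ι → (ι → ℤ) → Prop) {x : Finset ι → Lau ι k}
    (h : ∀ A e, (x A).coeff e ≠ 0 → ¬ P A e) : nproj k P x = 0 := by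
  classical
  funext A
  refine lau_ext fun e => ?_
  rw [nproj_coeff]
  by_cases hP : P A e
  · rw [if_pos hP]
    by_contra hne
    exact h A e hne hP
  · rw [if_neg hP]
    rfl

private theorem cx_nproj_mem {P : Finset ι → (ι → ℤ) → Prop} {x : Finset ι → Lau ι k}
    {A : Finset ι} {e : ι → ℤ} (h : (nproj k P x A).coeff e ≠ 0) : P A e ∧ (x A).coeff e ≠ 0 := by
  classical
  rw [nproj_coeff] at h
  by_cases hP : P A e
  · rw [if_pos hP] at h
    exact ⟨hP, h⟩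
  · rw [if_neg hP] at h
    exact absurd rfl h

private theorem cx_Dn_nproj (C : CType ι) (F : MvPolynomial ι k) (x : Finset ι → Lau ι k) :
    Dn C F (nproj k (Negy C) x) = Dn C F x := by
  have h1 : nproj k (Negy C) (x - nproj k (Negy C) x) = 0 := by
    rw [map_sub, cx_nproj_eq (Negy C) (x := nproj k (Negy C) x) fun A e h => (cx_nproj_mem h).1,
      sub_self]
  have h2 := Dn_of_pos C F h1
  rw [map_sub, sub_eq_zero] at h2
  exact h2.symm

theorem cn_exact {C : CType ι} {F : MvPolynomial ι k} (hF : C.Hom F) (hU : C.UnitCond F)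
    {T : Finset ι} (hT : T ⊆ C.Xs) (hT0 : T.Nonempty) (hS : C.Xsᶜ.Nonempty) {δ j w : ℤ}
    (hlow : ∀ (j' : ℤ) (ξ : Finset ι → Lau ι k),
      ξ ∈ KW k C T δ j' (w + C.Xsᶜ.card) → Dk F ξ = 0 →
      ∃ η ∈ KW k C T δ (j' - 1) (w + C.Xsᶜ.card - 1), Dk F η = ξ)
    {α : Finset ι → Lau ι k} (hα : α ∈ CN k C T δ j w) (h0 : Dn C F α = 0) :
    ∃ β ∈ CN k C T δ (j - 1) (w - 1), Dn C F β = α := by
  classical
  set S : Finset ι := C.Xsᶜ with hSdef
  set c0 : ℤ := w - j with hc0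
  let Qp : Finset ι → (ι → ℤ) → Prop := fun A e => ∃ v, v ∉ C.Xs ∧ C.thr v A ≤ e v
  let Qt : Finset ι → (ι → ℤ) → Prop := fun _ _ => True
  have hQp : ∀ (A : Finset ι) (e : ι → ℤ) (v : ι) (m : ι →₀ ℕ), v ∈ A → 1 ≤ m v →
      Qp (A.erase v) (fun u => e u - (m u : ℤ)) → Qp A e := by
    rintro A e v m _ hm ⟨u, hu, hu2⟩
    exact ⟨u, hu, cx_thr C hm hu2⟩
  have hQt : ∀ (A : Finset ι) (e : ι → ℤ) (v : ι) (m : ι →₀ ℕ), v ∈ A → 1 ≤ m v →
      Qt (A.erase v) (fun u => e u - (m u : ℤ)) → Qt A e := fun _ _ _ _ _ _ _ => trivial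
  -- Pos is exact
  have hPos : ∀ (m : ℤ) (ξ : Finset ι → Finset ι → Lau ι k), ξ ∈ Tt (cxM k C T δ c0 Qp) m →
      tot S (Dk F) ξ = 0 → ∃ η ∈ Tt (cxM k C T δ c0 Qp) (m - 1), tot S (Dk F) η = ξ := by
    intro m ξ hξ h1
    refine tot_of_ce (cxM k C T δ c0 Qp) S (Dk F) (fun _ _ x _ => Dk_Dk F x) (cx_hD hF hQp)
      (fun U j v hv hvU => cx_incl U j v hv hvU) m (fun p j' _ ζ hζ hζ0 => ?_) ξ hξ h1
    refine ce_exact C C.Xsᶜ C.Xsᶜ (Finset.Subset.refl _) (fun V => V = ∅) _ p j' ?_ ζ hζ hζ0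
    rintro A e U _ _ ⟨_, v, hv, hv2⟩ _ _
    exact ⟨v, Finset.mem_compl.2 hv, hv2⟩
  -- Full is exact in total degree `j + |S|`
  have hFull : ∀ ξ : Finset ι → Finset ι → Lau ι k, ξ ∈ Tt (cxM k C T δ c0 Qt) (j + S.card) →
      tot S (Dk F) ξ = 0 →
      ∃ η ∈ Tt (cxM k C T δ c0 Qt) (j + S.card - 1), tot S (Dk F) η = ξ := by
    intro ξ hξ h1
    refine tot_of_D (cxM k C T δ c0 Qt) S (Dk F) (fun _ _ x _ => Dk_Dk F x) (cx_hD hF hQt)
      (fun U j v hv hvU => cx_incl U j v hv hvU) (j + S.card) (fun U x hx hx0 => ?_) ξ hξ h1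
    by_cases hUS : U \ C.Xsᶜ = ∅
    · rw [cx_KW hUS _ hT] at hx ⊢
      rcases U.eq_empty_or_nonempty with rfl | ⟨b, hb⟩
      · rw [Finset.union_empty, Finset.card_empty, Nat.cast_zero, sub_zero] at hx ⊢
        have e1 : j + (S.card : ℤ) + c0 = w + S.card := by rw [hc0]; ring
        have e2 : j + (S.card : ℤ) - 1 + c0 = w + S.card - 1 := by rw [hc0]; ring
        rw [e1] at hx
        rw [e2]
        exact hlow _ x hx hx0
      · obtain ⟨a, ha⟩ := hT0
        have hbX : b ∉ C.Xs := by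
          intro hbX
          have : b ∈ U \ C.Xsᶜ := Finset.mem_sdiff.2 ⟨hb, fun h => (Finset.mem_compl.1 h) hbX⟩
          rw [hUS] at this
          exact absurd this (Finset.notMem_empty b)
        obtain ⟨η, hη, hη2⟩ := unit_exact hF (T := T ∪ U) (a := a) (b := b)
          (Finset.mem_union_left _ ha) (Finset.mem_union_right _ hb) (hU a (hT ha) b hbX)
          (KW_le_KT C _ _ _ _ hx) hx0
        refine ⟨mp k (restr k {e | C.wt e = j + (S.card : ℤ) - U.card - 1 + c0}) η,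
          mp_restr_wt_mem _ hη, ?_⟩
        rw [← restr_wt_Dk hF, hη2]
        funext A
        refine lau_ext fun e => ?_
        change (restr k _ (x A)).coeff e = _
        rw [restr_coeff]
        split_ifs with hw
        · rfl
        · by_contra hne
          apply hw
          have := (hx A e (Ne.symm hne)).2.2.2
          change C.wt e = _
          rw [this]
          ring
    · have : x = 0 := cx_bot hUS hx
      exact ⟨0, Submodule.zero_mem _, by rw [this, map_zero]⟩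
  -- the chase
  set αh : Finset ι → Finset ι → Lau ι k := Pi.single S α with hαh
  have hSS : S \ C.Xsᶜ = ∅ := by rw [hSdef]; exact Finset.sdiff_self _
  have hαM : α ∈ cxM k C T δ c0 Qt S j := by
    intro A e he
    obtain ⟨c1, c2, c3, c4, _⟩ := hα A e he
    refine ⟨hSS, c1, ⟨⟨c2, by rw [c3, c1, hc0]; ring, c4⟩, trivial⟩, fun v hv hvS =>
      absurd hv hvS⟩
  have hαhM : αh ∈ Tt (cxM k C T δ c0 Qt) (j + S.card) := by
    intro U
    by_cases hUS : U = S
    · subst hUS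
      rw [hαh, Pi.single_eq_same, add_sub_cancel_right]
      exact hαM
    · rw [hαh, Pi.single_eq_of_ne hUS]
      exact Submodule.zero_mem _
  have htot : tot S (Dk F) αh = Pi.single S ((-1 : k) ^ S.card • Dk F α) := by
    funext U
    rw [tot_apply, Finset.sum_eq_zero, zero_add]
    · by_cases hUS : U = S
      · subst hUS
        rw [hαh, Pi.single_eq_same, Pi.single_eq_same]
      · rw [hαh, Pi.single_eq_of_ne hUS, Pi.single_eq_of_ne hUS, map_zero, smul_zero]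
    · intro v hv
      rw [Finset.mem_inter] at hv
      have hne : U.erase v ≠ S := by
        intro h
        have h1 := hv.2
        rw [← h] at h1
        exact Finset.notMem_erase v U h1
      rw [hαh, Pi.single_eq_of_ne hne, smul_zero]
  have hDα : Dk F α ∈ cxM k C T δ c0 Qp S (j + 1) := by
    have h1 := cx_hD hF hQt S j α hαM
    intro A e he
    obtain ⟨c1, c2, c3, c4⟩ := cx_mem.1 h1 A e he
    refine ⟨c1, c2, ⟨c3.1, ?_⟩, c4⟩
    by_contra hcon
    have hNeg : Negy C A e := by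
      intro v hv
      by_contra h2
      exact hcon ⟨v, hv, not_lt.1 h2⟩
    have h2 : (Dn C F α A).coeff e = (Dk F α A).coeff e := by
      change (nproj k (Negy C) (Dk F α) A).coeff e = _
      rw [nproj_coeff, if_pos hNeg]
    rw [h0] at h2
    exact he h2.symm
  have htotM : tot S (Dk F) αh ∈ Tt (cxM k C T δ c0 Qp) (j + S.card + 1) := by
    rw [htot]
    intro U
    by_cases hUS : U = S
    · subst hUS
      rw [Pi.single_eq_same]
      have e1 : j + (S.card : ℤ) + 1 - S.card = j + 1 := by ring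
      rw [e1]
      exact Submodule.smul_mem _ _ hDα
    · rw [Pi.single_eq_of_ne hUS]
      exact Submodule.zero_mem _
  obtain ⟨ζ, hζ, hζ2⟩ := hPos _ _ htotM (tot_tot S (Dk F) αh fun U => Dk_Dk F _)
  rw [add_sub_cancel_right] at hζ
  have hsub : αh - ζ ∈ Tt (cxM k C T δ c0 Qt) (j + S.card) :=
    Submodule.sub_mem _ hαhM fun U => cx_le U _ (hζ U)
  obtain ⟨η, hη, hη2⟩ := hFull _ hsub (by rw [map_sub, hζ2, sub_self])
  have hηS : η S ∈ cxM k C T δ c0 Qt S (j - 1) := by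
    have := hη S
    have e1 : j + (S.card : ℤ) - 1 - S.card = j - 1 := by ring
    rwa [e1] at this
  have hkey := congrArg (fun x => nproj k (Negy C) (x S)) hη2
  rw [tot_apply, map_add, map_sum, Finset.sum_eq_zero, zero_add, map_smul, Pi.sub_apply,
    map_sub] at hkey
  · have h1 : nproj k (Negy C) (αh S) = α := by
      rw [hαh, Pi.single_eq_same]
      exact cx_nproj_eq _ fun A e he => (hα A e he).2.2.2.2
    have h2 : nproj k (Negy C) (ζ S) = 0 := by
      refine cx_nproj_zero _ fun A e he hNeg => ?_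
      obtain ⟨-, -, ⟨-, v, hv, hv2⟩, -⟩ := cx_mem.1 (hζ S) A e he
      exact absurd hv2 (not_le.2 (hNeg v hv))
    rw [h1, h2, sub_zero] at hkey
    refine ⟨(-1 : k) ^ S.card • nproj k (Negy C) (η S), Submodule.smul_mem _ _ ?_, ?_⟩
    · intro A e he
      obtain ⟨c1, c2⟩ := cx_nproj_mem he
      obtain ⟨-, d1, ⟨⟨d2, d3, d4⟩, -⟩, -⟩ := cx_mem.1 hηS A e c2
      exact ⟨d1, d2, by rw [d3, d1, hc0]; ring, d4, c1⟩
    · rw [map_smul, cx_Dn_nproj]
      exact hkey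
  · intro v hv
    have hvS : v ∈ S := (Finset.mem_inter.1 hv).1
    rw [map_zsmul, cx_nproj_zero, smul_zero]
    intro A e he hNeg
    obtain ⟨-, -, -, c4⟩ := cx_mem.1 (hη (S.erase v)) A e he
    have h1 := c4 v hvS (Finset.notMem_erase v S)
    exact absurd h1 (not_le.2 (hNeg v (Finset.mem_compl.1 hvS)))

/-- the case of the Cayley type -/
theorem cn_exact_cay {n r s : ℕ} {d : Fin r → ℕ} {c : Fin s → ℕ} (hd : ∀ i, 1 ≤ d i)
    (hc : ∀ j, 1 ≤ c j) (hr : 1 ≤ r) (D : Datum k n r s d c)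
    (hU : (cayT n d c hd hc).UnitCond (cayF D)) {T : Finset (Vr n r s)}
    (hT : T ⊆ (cayT n d c hd hc).Xs) (hT0 : T.Nonempty) {δ j w : ℤ} (hw : w < -(r : ℤ))
    {α : Finset (Vr n r s) → Lau (Vr n r s) k} (hα : α ∈ CN k (cayT n d c hd hc) T δ j w)
    (h0 : Dn (cayT n d c hd hc) (cayF D) α = 0) :
    ∃ β ∈ CN k (cayT n d c hd hc) T δ (j - 1) (w - 1),
      Dn (cayT n d c hd hc) (cayF D) β = α := by
  classical
  have hcompl : (cayT n d c hd hc).Xsᶜ =
      Finset.univ.image (Sum.inr : Fin r ⊕ Fin s → Vr n r s) := by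
    ext v
    rcases v with v | v
    · simp [cayT]
    · simp [cayT]
  have hcard : (cayT n d c hd hc).Xsᶜ.card = r + s := by
    rw [hcompl, Finset.card_image_of_injective _ Sum.inr_injective]
    simp
  refine cn_exact (cay_hom D hd hc) hU hT hT0 ?_ (fun j' ξ hξ hξ0 => ?_) hα h0
  · rw [← Finset.card_pos, hcard]
    omega
  · refine low_exact hd hc D hT ?_ hξ hξ0
    rw [hcard]
    push_cast
    linarith

end

end HN
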