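import Pool.Agent.HN.CN

/-! # HN/CTot : the total complex over the sets `T ⊆ Xs` (module HN-C13)

System `CNs T j = CN k C T δ j (j + c0)` for `T ⊆ Xs`, `⊥` otherwise; differential
`tot Xs (Dn C F)`.  Pos subsystem: only coefficients `(A, e)` with `∃ v ∈ Xs, thr v A ≤ e v`
(automatic for `T ≠ Xs`), i.e. `nproj (Negx) = 0`.

PLAN.  (a) `Dn` preserves Pos (`Negx_Dn`), `ce Xs` too, and Pos is exact in every total degree
(`tot_of_ce`, `ce_exact` with `S = S₀ = Xs`, `W V := V = ∅`,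
`Qa A e := deg e = δ ∧ wt e = |A| + c0 ∧ Negy C A e ∧ ∃ v ∈ Xs, thr v A ≤ e v`).
`ct_rows`: for `m < |Xs|` every `ξ ∈ Tt CNs m` is in Pos (`T = Xs` would need form degree
`m - |Xs| < 0`).  `ct_cols`: `tot_of_D` for the subsystem of the `T` with `m - J < |T|`.
`ct_lift`: `f̂` := `Pi.single ∅ f` placed at `T = Xs`; `tot f̂` is in Pos (`mem_NNc_iff`) and a
cocycle, `= tot ζ` with `ζ` in Pos, `ξ = f̂ - ζ`.  `ct_ker`: `ξ` is in Pos.
`ct_negx`: the Čech part of `(tot η) Xs` is in Pos and `η Xs` has form degree `-1`, so is `0`.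
`ct_nnc`: form degree `0` at `T = Xs`, so `ξ Xs = Pi.single ∅ (..)`; look at `(tot ξ) Xs = 0` in form
degree 1 and apply `nproj (Negx)`.
-/

open MvPolynomial

namespace HN

section
variable {ι : Type*} [Fintype ι] [DecidableEq ι] [Ranked ι] {k : Type*} [Field k]

open Classical in
/-- the system of submodules -/
noncomputable def CNs (k : Type*) [Field k] (C : CType ι) (δ c0 : ℤ) (T : Finset ι) (j : ℤ) :
    Submodule k (Finset ι → Lau ι k) :=
  if T ⊆ C.Xs then CN k C T δ j (j + c0) else ⊥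

variable {C : CType ι} {F : MvPolynomial ι k} {δ c0 : ℤ}

/-- coefficients of `nproj` -/
private theorem ct_nproj_zero (P : Finset ι → (ι → ℤ) → Prop) {x : Finset ι → Lau ι k} :
    nproj k P x = 0 ↔ ∀ A e, (x A).coeff e ≠ 0 → ¬ P A e := by
  classical
  constructor
  · intro h A e he hP
    have h1 := nproj_coeff P x A e
    rw [h, if_pos hP] at h1
    exact he h1.symm
  · intro h
    funext A
    refine lau_ext fun e => ?_
    rw [nproj_coeff]
    by_cases hP : P A e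
    · rw [if_pos hP]
      by_contra he
      exact h A e he hP
    · rw [if_neg hP]
      rfl

private theorem ct_nproj_idem (P : Finset ι → (ι → ℤ) → Prop) (x : Finset ι → Lau ι k) :
    nproj k P (nproj k P x) = nproj k P x := by
  classical
  funext A
  refine lau_ext fun e => ?_
  rw [nproj_coeff, nproj_coeff]
  by_cases hP : P A e <;> simp [hP]

private theorem ct_nproj_mem {T : Finset ι} {j w : ℤ} (P : Finset ι → (ι → ℤ) → Prop)
    {x : Finset ι → Lau ι k} (hx : x ∈ CN k C T δ j w) : nproj k P x ∈ CN k C T δ j w := by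
  classical
  intro A e he
  rw [nproj_coeff] at he
  refine hx A e ?_
  intro h
  rw [h, ite_self] at he
  exact he rfl

private theorem ct_D (hF : C.Hom F) (T : Finset ι) (j : ℤ) (x : Finset ι → Lau ι k)
    (hx : x ∈ CNs k C δ c0 T j) : Dn C F x ∈ CNs k C δ c0 T (j + 1) := by
  unfold CNs at hx ⊢
  split_ifs with hT
  · rw [if_pos hT] at hx
    have h1 := Dn_mem hF hx
    have h2 : j + c0 + 1 = j + 1 + c0 := by ring
    rwa [h2] at h1
  · rw [if_neg hT, Submodule.mem_bot] at hx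
    rw [hx, map_zero]
    exact Submodule.zero_mem _

private theorem ct_incl (T : Finset ι) (j : ℤ) (v : ι) (hv : v ∈ C.Xs) :
    CNs k C δ c0 T j ≤ CNs k C δ c0 (insert v T) j := by
  unfold CNs
  by_cases hT : T ⊆ C.Xs
  · rw [if_pos hT, if_pos (Finset.insert_subset hv hT)]
    exact CN_mono C (Finset.subset_insert v T) _ _ _
  · rw [if_neg hT]
    exact bot_le

theorem tot_mem_CNs (hF : C.Hom F) {m : ℤ} {ξ : Finset ι → Finset ι → Lau ι k}
    (h : ξ ∈ Tt (CNs k C δ c0) m) : tot C.Xs (Dn C F) ξ ∈ Tt (CNs k C δ c0) (m + 1) :=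
  tot_mem (CNs k C δ c0) C.Xs (Dn C F) (fun T j x hx => ct_D hF T j x hx)
    (fun T j v hv _ => ct_incl T j v hv) h

theorem tot_tot_CNs (ξ : Finset ι → Finset ι → Lau ι k) :
    tot C.Xs (Dn C F) (tot C.Xs (Dn C F) ξ) = 0 :=
  tot_tot C.Xs (Dn C F) ξ (fun T => Dn_Dn C F (ξ T))

/-- the condition on the coefficients of the Pos subsystem -/
private def ctQ (C : CType ι) (δ c0 : ℤ) (A : Finset ι) (e : ι → ℤ) : Prop :=
  C.deg e = δ ∧ C.wt e = A.card + c0 ∧ Negy C A e ∧ ∃ v ∈ C.Xs, C.thr v A ≤ e v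

/-- the Pos subsystem -/
private def ctP (k : Type*) [Field k] (C : CType ι) (δ c0 : ℤ) (T : Finset ι) (j : ℤ) :
    Submodule k (Finset ι → Lau ι k) :=
  MM k C C.Xs C.Xs (fun V => V = ∅) (ctQ C δ c0) T j

private theorem mem_ctP {T : Finset ι} {j : ℤ} {x : Finset ι → Lau ι k} :
    x ∈ ctP k C δ c0 T j ↔ x ∈ CNs k C δ c0 T j ∧ nproj k (Negx C) x = 0 := by
  rw [ct_nproj_zero]
  constructor
  · intro h
    have h' : ∀ A e, (x A).coeff e ≠ 0 → T \ C.Xs = ∅ ∧ (A.card : ℤ) = j ∧ ctQ C δ c0 A e ∧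
        ∀ v ∈ C.Xs, v ∉ T → C.thr v A ≤ e v := h
    refine ⟨?_, ?_⟩
    · unfold CNs
      by_cases hT : T ⊆ C.Xs
      · rw [if_pos hT]
        intro A e he
        obtain ⟨-, h2, ⟨h3, h4, h5, -⟩, h6⟩ := h' A e he
        refine ⟨h2, h3, ?_, h6, h5⟩
        rw [h4, h2]
      · rw [if_neg hT, Submodule.mem_bot]
        funext A
        refine lau_ext fun e => ?_
        by_contra he
        exact hT (Finset.sdiff_eq_empty_iff_subset.1 (h' A e he).1)
    · intro A e he hn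
      obtain ⟨-, -, ⟨-, -, -, v, hv, h3⟩, -⟩ := h' A e he
      exact absurd (hn v hv) (not_lt.2 h3)
  · rintro ⟨h, hn⟩
    change ∀ A e, (x A).coeff e ≠ 0 → T \ C.Xs = ∅ ∧ (A.card : ℤ) = j ∧ ctQ C δ c0 A e ∧
        ∀ v ∈ C.Xs, v ∉ T → C.thr v A ≤ e v
    intro A e he
    unfold CNs at h
    by_cases hT : T ⊆ C.Xs
    · rw [if_pos hT] at h
      obtain ⟨h2, h3, h4, h5, h6⟩ := h A e he
      refine ⟨Finset.sdiff_eq_empty_iff_subset.2 hT, h2, ⟨h3, by rw [h4, h2], h6, ?_⟩, h5⟩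
      have h7 := hn A e he
      unfold Negx at h7
      push_neg at h7
      exact h7
    · rw [if_neg hT, Submodule.mem_bot] at h
      rw [h] at he
      exact absurd rfl he

private theorem ctP_exact (hF : C.Hom F) {m : ℤ} {ξ : Finset ι → Finset ι → Lau ι k}
    (h : ξ ∈ Tt (ctP k C δ c0) m) (h0 : tot C.Xs (Dn C F) ξ = 0) :
    ∃ η ∈ Tt (ctP k C δ c0) (m - 1), tot C.Xs (Dn C F) η = ξ := by
  refine tot_of_ce (ctP k C δ c0) C.Xs (Dn C F) (fun T j x _ => Dn_Dn C F x) ?_ ?_ m ?_ ξ h h0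
  · intro T j x hx
    rw [mem_ctP] at hx ⊢
    exact ⟨ct_D hF T j x hx.1, Negx_Dn C F hx.2⟩
  · intro T j v hv _ x hx
    rw [mem_ctP] at hx ⊢
    exact ⟨ct_incl T j v hv hx.1, hx.2⟩
  · intro p j _ ζ hζ hζ0
    refine ce_exact C C.Xs C.Xs (Finset.Subset.refl _) (fun V => V = ∅) (ctQ C δ c0) p j ?_ ζ hζ
      hζ0
    intro A e T _ _ hQ _ _
    exact hQ.2.2.2

private theorem ctP_le {m : ℤ} {ξ : Finset ι → Finset ι → Lau ι k}
    (h : ξ ∈ Tt (ctP k C δ c0) m) : ξ ∈ Tt (CNs k C δ c0) m := fun T => (mem_ctP.1 (h T)).1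

private theorem ct_pos_of_ne {T : Finset ι} {j : ℤ} {x : Finset ι → Lau ι k}
    (hx : x ∈ CNs k C δ c0 T j) (hT : T ≠ C.Xs) : nproj k (Negx C) x = 0 := by
  unfold CNs at hx
  by_cases hTX : T ⊆ C.Xs
  · rw [if_pos hTX] at hx
    rw [ct_nproj_zero]
    intro A e he hn
    obtain ⟨v, hv, hvT⟩ : ∃ v ∈ C.Xs, v ∉ T := by
      by_contra hcon
      push_neg at hcon
      exact hT (Finset.Subset.antisymm hTX hcon)
    exact absurd (hn v hv) (not_lt.2 ((hx A e he).2.2.2.1 v hv hvT))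
  · rw [if_neg hTX, Submodule.mem_bot] at hx
    rw [hx, map_zero]

theorem ct_rows (hF : C.Hom F) {m : ℤ} (hm : m < C.Xs.card)
    {ξ : Finset ι → Finset ι → Lau ι k} (h : ξ ∈ Tt (CNs k C δ c0) m)
    (h0 : tot C.Xs (Dn C F) ξ = 0) :
    ∃ η ∈ Tt (CNs k C δ c0) (m - 1), tot C.Xs (Dn C F) η = ξ := by
  have h1 : ξ ∈ Tt (ctP k C δ c0) m := by
    intro T
    rw [mem_ctP]
    refine ⟨h T, ?_⟩
    by_cases hT : T = C.Xs
    · have h2 := h T
      unfold CNs at h2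
      rw [hT, if_pos (Finset.Subset.refl _), CN_neg C (by linarith), Submodule.mem_bot] at h2
      rw [hT, h2, map_zero]
    · exact ct_pos_of_ne (h T) hT
  obtain ⟨η, hη, hη0⟩ := ctP_exact hF h1 h0
  exact ⟨η, ctP_le hη, hη0⟩

open Classical in
/-- the subsystem of the large `T` -/
private noncomputable def ctN (k : Type*) [Field k] (C : CType ι) (δ c0 b : ℤ) (T : Finset ι)
    (j : ℤ) : Submodule k (Finset ι → Lau ι k) :=
  if b < (T.card : ℤ) then CNs k C δ c0 T j else ⊥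

/-- columns: `hcol` = exactness of `CN` in form degrees `< J` for `T ≠ ∅` -/
theorem ct_cols (hF : C.Hom F) (hδ : δ < C.dlog) {J : ℤ}
    (hcol : ∀ T ⊆ C.Xs, T.Nonempty → ∀ j, j < J → ∀ α ∈ CN k C T δ j (j + c0), Dn C F α = 0 →
      ∃ β ∈ CN k C T δ (j - 1) (j - 1 + c0), Dn C F β = α)
    {m : ℤ} {ξ : Finset ι → Finset ι → Lau ι k} (h : ξ ∈ Tt (CNs k C δ c0) m)
    (h0 : tot C.Xs (Dn C F) ξ = 0) (hsupp : ∀ T, (T.card : ℤ) ≤ m - J → ξ T = 0) :
    ∃ η ∈ Tt (CNs k C δ c0) (m - 1), tot C.Xs (Dn C F) η = ξ ∧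
      ∀ T, (T.card : ℤ) ≤ m - J → η T = 0 := by
  have hmem : ∀ {T : Finset ι} {j : ℤ} {x : Finset ι → Lau ι k},
      x ∈ ctN k C δ c0 (m - J) T j ↔ (x ∈ CNs k C δ c0 T j ∧ ((T.card : ℤ) ≤ m - J → x = 0)) := by
    intro T j x
    unfold ctN
    by_cases hT : m - J < (T.card : ℤ)
    · rw [if_pos hT]
      exact ⟨fun hx => ⟨hx, fun hle => absurd hle (not_le.2 hT)⟩, fun hx => hx.1⟩
    · rw [if_neg hT, Submodule.mem_bot]
      exact ⟨fun hx => ⟨by rw [hx]; exact Submodule.zero_mem _, fun _ => hx⟩,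
        fun hx => hx.2 (not_lt.1 hT)⟩
  obtain ⟨η, hη, hη0⟩ := tot_of_D (ctN k C δ c0 (m - J)) C.Xs (Dn C F)
    (fun T j x _ => Dn_Dn C F x) (by
      intro T j x hx
      rw [hmem] at hx ⊢
      exact ⟨ct_D hF T j x hx.1, fun hle => by rw [hx.2 hle, map_zero]⟩) (by
      intro T j v hv hvT x hx
      rw [hmem] at hx ⊢
      refine ⟨ct_incl T j v hv hx.1, fun hle => hx.2 (le_trans ?_ hle)⟩
      have := Finset.card_le_card (Finset.subset_insert v T)
      exact_mod_cast this) m (by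
      intro T x hx hx0
      rw [hmem] at hx
      by_cases hT : (T.card : ℤ) ≤ m - J
      · exact ⟨0, Submodule.zero_mem _, by rw [map_zero, hx.2 hT]⟩
      · have hj : m - (T.card : ℤ) < J := by linarith [not_le.1 hT]
        have hx1 := hx.1
        unfold CNs at hx1
        by_cases hTX : T ⊆ C.Xs
        · rw [if_pos hTX] at hx1
          rcases T.eq_empty_or_nonempty with hTe | hTn
          · rw [CN_empty C (by rw [hTe]; exact Finset.disjoint_empty_left _) hδ,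
              Submodule.mem_bot] at hx1
            exact ⟨0, Submodule.zero_mem _, by rw [map_zero, hx1]⟩
          · obtain ⟨β, hβ, hβ0⟩ := hcol T hTX hTn _ hj x hx1 hx0
            refine ⟨β, ?_, hβ0⟩
            rw [hmem]
            refine ⟨?_, fun hle => absurd hle hT⟩
            unfold CNs
            rw [if_pos hTX]
            exact hβ
        · rw [if_neg hTX, Submodule.mem_bot] at hx1
          exact ⟨0, Submodule.zero_mem _, by rw [map_zero, hx1]⟩) ξ (by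
      intro T
      rw [hmem]
      exact ⟨h T, hsupp T⟩) h0
  exact ⟨η, fun T => (hmem.1 (hη T)).1, hη0, fun T hT => (hmem.1 (hη T)).2 hT⟩

theorem ct_lift (hF : C.Hom F) {f : Lau ι k} (hf : f ∈ NNc C F δ c0) :
    ∃ ξ ∈ Tt (CNs k C δ c0) C.Xs.card, tot C.Xs (Dn C F) ξ = 0 ∧
      nproj k (Negx C) (ξ C.Xs) = Pi.single ∅ f := by
  obtain ⟨f1, f2, f3⟩ := (mem_NNc_iff C hF f).1 hf
  set g : Finset ι → Finset ι → Lau ι k := Pi.single C.Xs (Pi.single ∅ f) with hg
  have hgX : g C.Xs = Pi.single ∅ f := by rw [hg, Pi.single_eq_same]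
  have hgne : ∀ T, T ≠ C.Xs → g T = 0 := fun T hT => by rw [hg, Pi.single_eq_of_ne hT]
  have hgT : g ∈ Tt (CNs k C δ c0) C.Xs.card := by
    intro T
    by_cases hT : T = C.Xs
    · rw [hT, hgX]
      unfold CNs
      rw [if_pos (Finset.Subset.refl _), sub_self, zero_add]
      exact f1
    · rw [hgne T hT]
      exact Submodule.zero_mem _
  have htot : ∀ T, tot C.Xs (Dn C F) g T = (-1 : k) ^ T.card • Dn C F (g T) := by
    intro T
    rw [tot_apply, Finset.sum_eq_zero, zero_add]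
    intro v hv
    rw [Finset.mem_inter] at hv
    rw [hgne (T.erase v), smul_zero]
    intro h
    have := hv.2
    rw [← h] at this
    exact Finset.notMem_erase v T this
  have h1 : tot C.Xs (Dn C F) g ∈ Tt (ctP k C δ c0) ((C.Xs.card : ℤ) + 1) := by
    intro T
    rw [mem_ctP]
    refine ⟨tot_mem_CNs hF hgT T, ?_⟩
    rw [htot, map_smul]
    by_cases hT : T = C.Xs
    · rw [hT, hgX, f3, smul_zero]
    · rw [hgne T hT, map_zero, map_zero, smul_zero]
  obtain ⟨ζ, hζ, hζ0⟩ := ctP_exact hF h1 (tot_tot_CNs g)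
  rw [add_sub_cancel_right] at hζ
  refine ⟨g - ζ, Submodule.sub_mem _ hgT (ctP_le hζ), ?_, ?_⟩
  · rw [map_sub, hζ0, sub_self]
  · rw [Pi.sub_apply, map_sub, (mem_ctP.1 (hζ C.Xs)).2, sub_zero, hgX, f2]

theorem ct_ker (hF : C.Hom F) {ξ : Finset ι → Finset ι → Lau ι k}
    (h : ξ ∈ Tt (CNs k C δ c0) C.Xs.card) (h0 : tot C.Xs (Dn C F) ξ = 0)
    (hn : nproj k (Negx C) (ξ C.Xs) = 0) :
    ∃ η ∈ Tt (CNs k C δ c0) ((C.Xs.card : ℤ) - 1), tot C.Xs (Dn C F) η = ξ := by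
  have h1 : ξ ∈ Tt (ctP k C δ c0) C.Xs.card := by
    intro T
    rw [mem_ctP]
    refine ⟨h T, ?_⟩
    by_cases hT : T = C.Xs
    · rw [hT, hn]
    · exact ct_pos_of_ne (h T) hT
  obtain ⟨η, hη, hη0⟩ := ctP_exact hF h1 h0
  exact ⟨η, ctP_le hη, hη0⟩

/-- the Čech part at `T = Xs` -/
private theorem ct_cech {m : ℤ} {η : Finset ι → Finset ι → Lau ι k}
    (h : η ∈ Tt (CNs k C δ c0) m) :
    nproj k (Negx C) (∑ v ∈ C.Xs ∩ C.Xs, sg v C.Xs • η (C.Xs.erase v)) = 0 := by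
  rw [map_sum]
  refine Finset.sum_eq_zero fun v hv => ?_
  rw [Finset.inter_self] at hv
  rw [map_zsmul, ct_pos_of_ne (h _), smul_zero]
  intro h1
  have := hv
  rw [← h1] at this
  exact Finset.notMem_erase v C.Xs this

theorem ct_negx {η : Finset ι → Finset ι → Lau ι k}
    (h : η ∈ Tt (CNs k C δ c0) ((C.Xs.card : ℤ) - 1)) :
    nproj k (Negx C) ((tot C.Xs (Dn C F) η) C.Xs) = 0 := by
  have h2 := h C.Xs
  unfold CNs at h2
  rw [if_pos (Finset.Subset.refl _), CN_neg C (by linarith), Submodule.mem_bot] at h2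
  rw [tot_apply, h2, map_zero, smul_zero, add_zero]
  exact ct_cech h

theorem ct_nnc (hF : C.Hom F) {ξ : Finset ι → Finset ι → Lau ι k}
    (h : ξ ∈ Tt (CNs k C δ c0) C.Xs.card) (h0 : tot C.Xs (Dn C F) ξ = 0) :
    ∃ f ∈ NNc C F δ c0, nproj k (Negx C) (ξ C.Xs) = Pi.single ∅ f := by
  have h2 := h C.Xs
  unfold CNs at h2
  rw [if_pos (Finset.Subset.refl _), sub_self, zero_add] at h2
  have h3 : nproj k (Negx C) (ξ C.Xs) = Pi.single ∅ (nproj k (Negx C) (ξ C.Xs) ∅) := by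
    funext A
    by_cases hA : A = ∅
    · rw [hA, Pi.single_eq_same]
    · rw [Pi.single_eq_of_ne hA]
      refine lau_ext fun e => ?_
      by_contra he
      have h4 := (ct_nproj_mem (Negx C) h2) A e he
      exact hA (Finset.card_eq_zero.1 (by exact_mod_cast h4.1))
  refine ⟨nproj k (Negx C) (ξ C.Xs) ∅, ?_, h3⟩
  rw [mem_NNc_iff C hF, ← h3]
  refine ⟨ct_nproj_mem (Negx C) h2, ct_nproj_idem _ _, ?_⟩
  have h5 : nproj k (Negx C) (ξ C.Xs - nproj k (Negx C) (ξ C.Xs)) = 0 := by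
    rw [map_sub, ct_nproj_idem, sub_self]
  have h6 := Negx_Dn C F h5
  rw [map_sub, map_sub, sub_eq_zero] at h6
  rw [← h6]
  have h7 := congrFun h0 C.Xs
  rw [tot_apply, Pi.zero_apply] at h7
  have h8 := congrArg (nproj k (Negx C)) h7
  rw [map_add, ct_cech h, zero_add, map_smul, map_zero] at h8
  have h9 : ((-1 : k) ^ C.Xs.card) • ((-1 : k) ^ C.Xs.card) •
      nproj k (Negx C) (Dn C F (ξ C.Xs)) = nproj k (Negx C) (Dn C F (ξ C.Xs)) := by
    rw [smul_smul, ← mul_pow]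
    simp
  rw [← h9, h8, smul_zero]

end

end HN
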