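import Pool.Agent.HN.Kap
import Pool.Agent.HN.CTot
import Pool.Agent.HN.CNExact

/-! # HN/CTop : Čech cohomology of `Λ^a Q(-δ)` (module HN-C14)

Fix `a`, `δ' = dlog - δ = -δ + ∑ d_i`, `c0 = -r - (a + s)`, `J = a + s`; `C = cayT n d c`, `F = cayF D`,
`|Xs| = n + 1`.  `CN T (J) = ` top weight `-r`; for `j < J` the weight `j + c0 < -r`, so `cn_exact_cay`
gives the hypothesis `hcol` of `ct_cols`.

PLAN.  A cochain `ω ∈ LamCoch a l p` corresponds to `ξ` with `ξ (TI T) = kapI (ω T)`, `|T| = p`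
(subsets of `Xs` are the `TI T`; `sg (inl v) (TI T) = sg v T`, so `ce` is compatible).
`ext_cocycle`: `ω ∈ LamZ a l p`, `p ≥ 1`: there is `ξ ∈ Tt CNs (p + J)`, `tot ξ = 0`, `ξ T' = 0` for
`|T'| < p`, `ξ (TI T) = kapI (ω T)` for `|T| = p`:  `ce ω ∈ Rel` means `ce ξ_p = Dn β` (up to sign),
`|T| = p + 1`, form degree `J - 1` (`exists_of_rel`); then `ξ_p ∓ β` has `tot` supported on
`|T| ≥ p + 2`; `tot` of it is a cocycle of total degree `p + J + 1` supported on
`|T| > p + 1 = (p + J + 1) - J`, so `ct_cols` gives `η'` supported on `|T| > p + 1` with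
`tot η' = tot (ξ_p ∓ β)`; `ξ := ξ_p ∓ β - η'`.
`bd_iff`: for such `ξ` (any `ξ ∈ Tt CNs (p+J)`, `tot ξ = 0`; automatically `ξ T' = 0` for `|T'| < p`
since form degree `> J` has weight `> -r`): `ω := kapL (ξ (TI T))` (`|T| = p`) is in `LamZ`, and
`ω ∈ LamB` iff `ξ = tot η` for some `η ∈ Tt CNs (p+J-1)`.  (`⇒`: `ω = ce λ + ρ`, subtract
`tot` of the cochains corresponding to `λ` (on `|T| = p-1`, form degree `J`; for `p = 1` `λ = 0`) and to
`ρ` (`exists_of_rel`, on `|T| = p`, form degree `J - 1`), the rest is supported on `|T| > p`,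
`ct_cols`.  `⇐`: read `ξ = tot η` at `|T| = p`: `kapL`.)
`lam_vanish`: `p + J < n + 1`: `ct_rows`.  `lam_top`: `Z_tot := {ξ ∈ Tt CNs (n+1) | tot ξ = 0}` maps
onto `LamZ / LamB` (`ext_cocycle`) and onto `NNc` (`ct_lift`, `ct_nnc`), both with kernel the
coboundaries (`bd_iff`; `ct_ker`, `ct_negx`).
`nnc_zero`: `f ∈ NNc`, `ct_lift` gives `ξ` of total degree `n + 1`; if `a + s > n` then all `T ≠ ∅` have
form degree `n + 1 - |T| ≤ n < J`, and `CN ∅ = ⊥`: `ct_cols` gives `ξ = tot η`, `ct_negx`: `f = 0`.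
-/

open MvPolynomial

namespace HN

section
variable {k : Type*} [Field k] {n r s : ℕ} {d : Fin r → ℕ} {c : Fin s → ℕ}


/-! ### the index sets -/

private theorem ctp_TI_card (T : Finset (Fin (n + 1))) : (TI r s T).card = T.card :=
  Finset.card_image_of_injective _ Sum.inl_injective

private theorem ctp_mem_TI {T : Finset (Fin (n + 1))} {u : Fin (n + 1)} :
    (Sum.inl u : Vr n r s) ∈ TI r s T ↔ u ∈ T := by
  simp [TI]

private theorem ctp_mem_Xs (hd : ∀ i, 1 ≤ d i) (hc : ∀ j, 1 ≤ c j) (v : Vr n r s) :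
    v ∈ (cayT n d c hd hc).Xs ↔ v.isLeft = true := by
  simp [cayT]

private theorem ctp_TI_sub (hd : ∀ i, 1 ≤ d i) (hc : ∀ j, 1 ≤ c j) (T : Finset (Fin (n + 1))) :
    TI r s T ⊆ (cayT n d c hd hc).Xs := by
  intro v hv
  obtain ⟨u, _, rfl⟩ := Finset.mem_image.1 hv
  exact (ctp_mem_Xs hd hc _).2 rfl

private theorem ctp_TI_surj (hd : ∀ i, 1 ≤ d i) (hc : ∀ j, 1 ≤ c j) {T' : Finset (Vr n r s)}
    (h : T' ⊆ (cayT n d c hd hc).Xs) : ∃ T, TI r s T = T' := by
  refine ⟨Finset.univ.filter (fun u => (Sum.inl u : Vr n r s) ∈ T'), ?_⟩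
  ext v
  rw [TI, Finset.mem_image]
  constructor
  · rintro ⟨u, hu, rfl⟩
    exact (Finset.mem_filter.1 hu).2
  · intro hv
    have h1 := (ctp_mem_Xs hd hc v).1 (h hv)
    rcases v with u | v
    · exact ⟨u, Finset.mem_filter.2 ⟨Finset.mem_univ _, hv⟩, rfl⟩
    · simp at h1

private theorem ctp_Xs (hd : ∀ i, 1 ≤ d i) (hc : ∀ j, 1 ≤ c j) :
    (cayT n d c hd hc).Xs = TI r s (Finset.univ : Finset (Fin (n + 1))) := by
  ext v
  rw [ctp_mem_Xs]
  rcases v with u | v
  · simp [TI]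
  · simp [TI]

private theorem ctp_Xs_card (hd : ∀ i, 1 ≤ d i) (hc : ∀ j, 1 ≤ c j) :
    ((cayT n d c hd hc).Xs.card : ℤ) = n + 1 := by
  rw [ctp_Xs, ctp_TI_card, Finset.card_univ, Fintype.card_fin]
  push_cast
  rfl

private theorem ctp_Ys_card (hd : ∀ i, 1 ≤ d i) (hc : ∀ j, 1 ≤ c j) :
    (cayT n d c hd hc).Ys.card = r := by
  have h : (cayT n d c hd hc).Ys = Finset.univ.image
    (fun i : Fin r => (Sum.inr (Sum.inl i) : Vr n r s)) := rfl
  rw [h, Finset.card_image_of_injective, Finset.card_univ, Fintype.card_fin]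
  intro x y hxy
  exact Sum.inl_injective (Sum.inr_injective hxy)

private theorem ctp_dlog (hd : ∀ i, 1 ≤ d i) (hc : ∀ j, 1 ≤ c j) :
    (cayT n d c hd hc).dlog = ∑ i, (d i : ℤ) := by
  have h : (cayT n d c hd hc).Ys = Finset.univ.image
    (fun i : Fin r => (Sum.inr (Sum.inl i) : Vr n r s)) := rfl
  rw [CType.dlog, h, Finset.sum_image]
  · refine Finset.sum_congr rfl fun i _ => ?_
    show - (-(d i : ℤ)) = d i
    rw [neg_neg]
  · intro x _ y _ hxy
    exact Sum.inl_injective (Sum.inr_injective hxy)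

private theorem ctp_sg (T : Finset (Fin (n + 1))) (u : Fin (n + 1)) :
    sg (Sum.inl u : Vr n r s) (TI r s T) = sg u T := by
  unfold sg
  congr 1
  rw [TI, Finset.filter_image, Finset.card_image_of_injective _ Sum.inl_injective]
  rfl

private theorem ctp_TI_erase (T : Finset (Fin (n + 1))) (u : Fin (n + 1)) :
    (TI r s T).erase (Sum.inl u) = TI r s (T.erase u) :=
  (Finset.image_erase Sum.inl_injective T u).symm

private theorem ctp_ce (hd : ∀ i, 1 ≤ d i) (hc : ∀ j, 1 ≤ c j) {V : Type*} [AddCommGroup V]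
    [Module k V] (ξ : Finset (Vr n r s) → V) (T : Finset (Fin (n + 1))) :
    ce k (cayT n d c hd hc).Xs ξ (TI r s T) = ce k Finset.univ (fun T => ξ (TI r s T)) T := by
  rw [ce_apply, ce_apply, Finset.inter_univ, Finset.inter_eq_left.2 (ctp_TI_sub hd hc T)]
  rw [TI, Finset.sum_image (fun x _ y _ h => Sum.inl_injective h)]
  refine Finset.sum_congr rfl fun u _ => ?_
  have h1 := ctp_sg (r := r) (s := s) T u
  have h2 := ctp_TI_erase (r := r) (s := s) T u
  rw [TI] at h1 h2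
  rw [h1, h2]

private theorem ctp_ce_congr {V : Type*} [AddCommGroup V] [Module k V]
    {g g' : Finset (Fin (n + 1)) → V} {T : Finset (Fin (n + 1))}
    (h : ∀ T', T'.card + 1 = T.card → g T' = g' T') :
    ce k Finset.univ g T = ce k Finset.univ g' T := by
  rw [ce_apply, ce_apply]
  refine Finset.sum_congr rfl fun u hu => ?_
  rw [h (T.erase u) (Finset.card_erase_add_one (Finset.mem_inter.1 hu).1)]

private theorem ctp_ce_zero {V : Type*} [AddCommGroup V] [Module k V]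
    {g : Finset (Fin (n + 1)) → V} {T : Finset (Fin (n + 1))}
    (h : ∀ T', T'.card + 1 = T.card → g T' = 0) : ce k Finset.univ g T = 0 := by
  rw [ctp_ce_congr (g' := 0) h, map_zero]
  rfl

private theorem ctp_ce_map {V V' : Type*} [AddCommGroup V] [Module k V] [AddCommGroup V']
    [Module k V'] (φ : V →ₗ[k] V') (g : Finset (Fin (n + 1)) → V) (T : Finset (Fin (n + 1))) :
    ce k Finset.univ (fun T => φ (g T)) T = φ (ce k Finset.univ g T) := by
  have h := mp_ce (R := k) φ (Finset.univ : Finset (Fin (n + 1))) g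
  exact (congrFun h T).symm

/-! ### lifts -/

open Classical in
/-- the family on subsets of `Xs` defined by a family on sets of indices of `x`-variables -/
private noncomputable def lf (s : ℕ) {V : Type*} [AddCommGroup V]
    (g : Finset (Fin (n + 1)) → V) (T' : Finset (Vr n r s)) : V :=
  if h : ∃ T, TI r s T = T' then g h.choose else 0

private theorem lf_TI {V : Type*} [AddCommGroup V]
    (g : Finset (Fin (n + 1)) → V) (T : Finset (Fin (n + 1))) : lf (r := r) s g (TI r s T) = g T := by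
  have h : ∃ T₁, TI r s T₁ = TI r s T := ⟨T, rfl⟩
  rw [lf, dif_pos h]
  congr 1
  exact Finset.image_injective Sum.inl_injective h.choose_spec

private theorem lf_out {V : Type*} [AddCommGroup V]
    (g : Finset (Fin (n + 1)) → V) {T' : Finset (Vr n r s)} (h : ¬ ∃ T, TI r s T = T') :
    lf (r := r) s g T' = 0 := by
  rw [lf, dif_neg h]

section TC
variable (k)

/-- the system of `HN/CTot` -/
private noncomputable abbrev TC (hd : ∀ i, 1 ≤ d i) (hc : ∀ j, 1 ≤ c j) (l J : ℤ) :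
    Finset (Vr n r s) → ℤ → Submodule k (Finset (Vr n r s) → Lau (Vr n r s) k) :=
  CNs k (cayT n d c hd hc) (l + ∑ i, (d i : ℤ)) (-(r : ℤ) - J)

end TC

/-- the total differential -/
private noncomputable abbrev dT (hd : ∀ i, 1 ≤ d i) (hc : ∀ j, 1 ≤ c j) (D : Datum k n r s d c) :
    (Finset (Vr n r s) → Finset (Vr n r s) → Lau (Vr n r s) k) →ₗ[k]
      (Finset (Vr n r s) → Finset (Vr n r s) → Lau (Vr n r s) k) :=
  tot (R := k) (cayT n d c hd hc).Xs (Dn (cayT n d c hd hc) (cayF D))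

private theorem dT_TI (hd : ∀ i, 1 ≤ d i) (hc : ∀ j, 1 ≤ c j) (D : Datum k n r s d c)
    (ξ : Finset (Vr n r s) → Finset (Vr n r s) → Lau (Vr n r s) k) (T : Finset (Fin (n + 1))) :
    dT hd hc D ξ (TI r s T) = ce k Finset.univ (fun T => ξ (TI r s T)) T +
      (-1 : k) ^ T.card • Dn (cayT n d c hd hc) (cayF D) (ξ (TI r s T)) := by
  have h : dT hd hc D ξ (TI r s T) = ce k (cayT n d c hd hc).Xs ξ (TI r s T) +
      (-1 : k) ^ (TI r s T).card • Dn (cayT n d c hd hc) (cayF D) (ξ (TI r s T)) := rfl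
  rw [h, ctp_ce, ctp_TI_card]

private theorem TC_TI (hd : ∀ i, 1 ≤ d i) (hc : ∀ j, 1 ≤ c j) (l J : ℤ)
    (T : Finset (Fin (n + 1))) (j : ℤ) : TC k hd hc l J (TI r s T) j =
      CN k (cayT n d c hd hc) (TI r s T) (l + ∑ i, (d i : ℤ)) j (j + (-(r : ℤ) - J)) := by
  rw [TC, CNs, if_pos (ctp_TI_sub hd hc T)]

private theorem mem_TC (hd : ∀ i, 1 ≤ d i) (hc : ∀ j, 1 ≤ c j) {l J m : ℤ}
    {ξ : Finset (Vr n r s) → Finset (Vr n r s) → Lau (Vr n r s) k} :
    ξ ∈ Tt (TC k hd hc l J) m ↔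
      (∀ T : Finset (Fin (n + 1)), ξ (TI r s T) ∈
        CN k (cayT n d c hd hc) (TI r s T) (l + ∑ i, (d i : ℤ)) (m - T.card)
          (m - T.card + (-(r : ℤ) - J))) ∧
      ∀ T', (¬ ∃ T, TI r s T = T') → ξ T' = 0 := by
  constructor
  · intro h
    refine ⟨fun T => ?_, fun T' hT' => ?_⟩
    · have h1 := h (TI r s T)
      rw [TC_TI, ctp_TI_card] at h1
      exact h1
    · have h1 := h T'
      have h2 : ¬ T' ⊆ (cayT n d c hd hc).Xs := fun hs => hT' (ctp_TI_surj hd hc hs)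
      rw [TC, CNs, if_neg h2] at h1
      exact (Submodule.mem_bot k).1 h1
  · rintro ⟨h1, h2⟩ T'
    by_cases hT' : ∃ T, TI r s T = T'
    · obtain ⟨T, rfl⟩ := hT'
      rw [TC_TI, ctp_TI_card]
      exact h1 T
    · rw [h2 T' hT']
      exact Submodule.zero_mem _

private theorem TC_ext (hd : ∀ i, 1 ≤ d i) (hc : ∀ j, 1 ≤ c j) {l J m : ℤ}
    {ξ ξ' : Finset (Vr n r s) → Finset (Vr n r s) → Lau (Vr n r s) k}
    (h : ξ ∈ Tt (TC k hd hc l J) m) (h' : ξ' ∈ Tt (TC k hd hc l J) m)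
    (he : ∀ T, ξ (TI r s T) = ξ' (TI r s T)) : ξ = ξ' := by
  funext T'
  by_cases hT' : ∃ T, TI r s T = T'
  · obtain ⟨T, rfl⟩ := hT'
    exact he T
  · rw [((mem_TC hd hc).1 h).2 T' hT', ((mem_TC hd hc).1 h').2 T' hT']

/-- families in small form degree vanish -/
private theorem TC_zero (hd : ∀ i, 1 ≤ d i) (hc : ∀ j, 1 ≤ c j) {l J m : ℤ}
    {ξ : Finset (Vr n r s) → Finset (Vr n r s) → Lau (Vr n r s) k}
    (h : ξ ∈ Tt (TC k hd hc l J) m) {T : Finset (Fin (n + 1))} (hT : J < m - T.card) :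
    ξ (TI r s T) = 0 := by
  have h1 := ((mem_TC hd hc).1 h).1 T
  rw [CN_wt] at h1
  · exact (Submodule.mem_bot k).1 h1
  · rw [ctp_Ys_card]
    linarith

private theorem TC_empty (hd : ∀ i, 1 ≤ d i) (hc : ∀ j, 1 ≤ c j) {l J m : ℤ} (hl : l < 0)
    {ξ : Finset (Vr n r s) → Finset (Vr n r s) → Lau (Vr n r s) k}
    (h : ξ ∈ Tt (TC k hd hc l J) m) : ξ (TI r s ∅) = 0 := by
  have h1 := ((mem_TC hd hc).1 h).1 ∅
  rw [CN_empty] at h1
  · exact (Submodule.mem_bot k).1 h1
  · simp [TI]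
  · rw [ctp_dlog]
    linarith

private theorem lf_mem (hd : ∀ i, 1 ≤ d i) (hc : ∀ j, 1 ≤ c j) {l J m : ℤ}
    {g : Finset (Fin (n + 1)) → Finset (Vr n r s) → Lau (Vr n r s) k}
    (h : ∀ T : Finset (Fin (n + 1)), g T ∈
        CN k (cayT n d c hd hc) (TI r s T) (l + ∑ i, (d i : ℤ)) (m - T.card)
          (m - T.card + (-(r : ℤ) - J))) : lf s g ∈ Tt (TC k hd hc l J) m := by
  rw [mem_TC]
  refine ⟨fun T => ?_, fun T' hT' => lf_out g hT'⟩
  rw [lf_TI]
  exact h T

private theorem ctp_hom (hd : ∀ i, 1 ≤ d i) (hc : ∀ j, 1 ≤ c j) (D : Datum k n r s d c) :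
    (cayT n d c hd hc).Hom (cayF D) := cay_hom D hd hc

private theorem ctp_cols (hd : ∀ i, 1 ≤ d i) (hc : ∀ j, 1 ≤ c j) (hr : 1 ≤ r)
    (D : Datum k n r s d c) (hU : (cayT n d c hd hc).UnitCond (cayF D)) {l J m : ℤ} (hl : l < 0)
    {ξ : Finset (Vr n r s) → Finset (Vr n r s) → Lau (Vr n r s) k}
    (h : ξ ∈ Tt (TC k hd hc l J) m) (h0 : dT hd hc D ξ = 0)
    (hsupp : ∀ T : Finset (Fin (n + 1)), (T.card : ℤ) ≤ m - J → ξ (TI r s T) = 0) :
    ∃ η ∈ Tt (TC k hd hc l J) (m - 1), dT hd hc D η = ξ ∧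
      ∀ T : Finset (Fin (n + 1)), (T.card : ℤ) ≤ m - J → η (TI r s T) = 0 := by
  obtain ⟨η, h1, h2, h3⟩ := ct_cols (ctp_hom hd hc D)
    (δ := l + ∑ i, (d i : ℤ)) (c0 := -(r : ℤ) - J) (by rw [ctp_dlog]; linarith) (J := J)
    (fun T hT hT0 j hj α hα hα0 => by
      have := cn_exact_cay hd hc hr D hU hT hT0 (j := j) (w := j + (-(r : ℤ) - J)) (by linarith)
        hα hα0
      have e : j + (-(r : ℤ) - J) - 1 = j - 1 + (-(r : ℤ) - J) := by ring
      rw [e] at this
      exact this) h h0 (fun T' hT' => by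
        by_cases hex : ∃ T, TI r s T = T'
        · obtain ⟨T, rfl⟩ := hex
          rw [ctp_TI_card] at hT'
          exact hsupp T hT'
        · exact ((mem_TC hd hc).1 h).2 T' hex)
  refine ⟨η, h1, h2, fun T hT => h3 _ ?_⟩
  rw [ctp_TI_card]
  exact hT


private theorem TC_at (hd : ∀ i, 1 ≤ d i) (hc : ∀ j, 1 ≤ c j) {l J m j w : ℤ}
    {ξ : Finset (Vr n r s) → Finset (Vr n r s) → Lau (Vr n r s) k}
    (h : ξ ∈ Tt (TC k hd hc l J) m) {T : Finset (Fin (n + 1))} (hj : m - T.card = j)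
    (hw : j + (-(r : ℤ) - J) = w) :
    ξ (TI r s T) ∈ CN k (cayT n d c hd hc) (TI r s T) (l + ∑ i, (d i : ℤ)) j w := by
  have h1 := ((mem_TC hd hc).1 h).1 T
  rw [hj, hw] at h1
  exact h1

private theorem ctp_pp (T : Finset (Fin (n + 1))) : (-1 : k) ^ T.card * (-1 : k) ^ T.card = 1 := by
  rw [← mul_pow]
  simp

/-- extension of cocycles -/
private theorem ctp_ext (hd : ∀ i, 1 ≤ d i) (hc : ∀ j, 1 ≤ c j) (hr : 1 ≤ r)
    (D : Datum k n r s d c) (hU : (cayT n d c hd hc).UnitCond (cayF D)) {l : ℤ} (hl : l < 0)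
    {a p : ℤ} {ω : Finset (Fin (n + 1)) → WForm k n r}
    (hω : ω ∈ LamZ D a l p) :
    ∃ ξ ∈ Tt (TC k hd hc l (a + s)) (p + (a + s)), dT hd hc D ξ = 0 ∧
      ∀ T : Finset (Fin (n + 1)), (T.card : ℤ) = p → ξ (TI r s T) = kapI k n r s (ω T) := by
  obtain ⟨h1, h2⟩ := hω
  have h2' : ∀ T, (ce k Finset.univ ω) T ∈ Rel D T a l := fun T => (h2 T).1
  have hk : ∀ T, kapI k n r s (ω T) ∈ CN k (cayT n d c hd hc) (TI r s T)
      (l + ∑ i, (d i : ℤ)) (a + s) (-(r : ℤ)) := fun T => kapI_mem hd hc (h1 T).1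
  have hξ₀ : lf s (fun T => kapI k n r s (ω T)) ∈ Tt (TC k hd hc l (a + s)) (p + (a + s)) := by
    refine lf_mem hd hc fun T => ?_
    by_cases hT : (T.card : ℤ) = p
    · have e1 : p + (a + s) - T.card = a + s := by rw [hT]; ring
      have e2 : a + (s : ℤ) + (-(r : ℤ) - (a + s)) = -(r : ℤ) := by ring
      rw [e1, e2]
      exact hk T
    · have h0 : ω T = 0 := (h1 T).2 (Or.inl hT)
      rw [h0, map_zero]
      exact Submodule.zero_mem _
  set ξ₀ := lf s (fun T => kapI k n r s (ω T)) with hξ₀d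
  have hb0 := fun T => exists_of_rel hd hc D (h2' T)
  choose b hb hb2 using hb0
  have hβ : lf s (fun T : Finset (Fin (n + 1)) =>
      if (T.card : ℤ) = p + 1 then (-1 : k) ^ T.card • b T else 0) ∈
        Tt (TC k hd hc l (a + s)) (p + (a + s)) := by
    refine lf_mem hd hc fun T => ?_
    by_cases hT : (T.card : ℤ) = p + 1
    · rw [if_pos hT]
      have e1 : p + (a + s) - T.card = a + s - 1 := by rw [hT]; ring
      have e2 : a + (s : ℤ) - 1 + (-(r : ℤ) - (a + s)) = -(r : ℤ) - 1 := by ring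
      rw [e1, e2]
      exact Submodule.smul_mem _ _ (hb T)
    · rw [if_neg hT]
      exact Submodule.zero_mem _
  set β := lf s (fun T : Finset (Fin (n + 1)) =>
      if (T.card : ℤ) = p + 1 then (-1 : k) ^ T.card • b T else 0) with hβd
  have hdiff : ξ₀ - β ∈ Tt (TC k hd hc l (a + s)) (p + (a + s)) := Submodule.sub_mem _ hξ₀ hβ
  have htot : dT hd hc D (ξ₀ - β) ∈ Tt (TC k hd hc l (a + s)) (p + (a + s) + 1) :=
    tot_mem_CNs (ctp_hom hd hc D) hdiff
  have hz : ∀ T : Finset (Fin (n + 1)), (T.card : ℤ) ≤ p + (a + s) + 1 - (a + s) →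
      dT hd hc D (ξ₀ - β) (TI r s T) = 0 := by
    intro T hT
    rcases lt_or_eq_of_le (show (T.card : ℤ) ≤ p + 1 by linarith) with hlt | heq
    · refine TC_zero hd hc htot ?_
      linarith
    · rw [dT_TI]
      have e1 : (ξ₀ - β) (TI r s T) = -((-1 : k) ^ T.card • b T) := by
        have e2 : ξ₀ (TI r s T) = 0 := by
          rw [hξ₀d, lf_TI, (h1 T).2 (Or.inl (by rw [heq]; linarith)), map_zero]
        have e3 : β (TI r s T) = (-1 : k) ^ T.card • b T := by
          rw [hβd, lf_TI, if_pos heq]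
        rw [Pi.sub_apply, e2, e3, zero_sub]
      have e4 : ce k Finset.univ (fun T => (ξ₀ - β) (TI r s T)) T =
          kapI k n r s (ce k Finset.univ ω T) := by
        rw [← ctp_ce_map]
        refine ctp_ce_congr fun T' hT' => ?_
        have e5 : (T'.card : ℤ) = p := by
          have : (T'.card : ℤ) + 1 = T.card := by exact_mod_cast hT'
          linarith
        rw [Pi.sub_apply, hξ₀d, hβd, lf_TI, lf_TI, if_neg (by rw [e5]; linarith), sub_zero]
      rw [e1, e4, map_neg, map_smul, smul_neg, smul_smul, ctp_pp, one_smul, hb2, add_neg_cancel]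
  obtain ⟨η, hη, hη1, hη2⟩ := ctp_cols hd hc hr D hU hl htot (tot_tot_CNs _) hz
  have hη' : η ∈ Tt (TC k hd hc l (a + s)) (p + (a + s)) := by
    have e : p + (a + s) + 1 - 1 = p + (a + s) := by ring
    rw [e] at hη
    exact hη
  refine ⟨ξ₀ - β - η, Submodule.sub_mem _ hdiff hη', ?_, ?_⟩
  · rw [map_sub, hη1, sub_self]
  · intro T hT
    rw [Pi.sub_apply, Pi.sub_apply, hη2 T (by linarith), sub_zero, hξ₀d, hβd, lf_TI, lf_TI,
      if_neg (by rw [hT]; linarith), sub_zero]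

/-- the forms of a total cochain in Čech degree `p` -/
private noncomputable def omL (k : Type*) [Field k] (n r s : ℕ) (p : ℤ) :
    (Finset (Vr n r s) → Finset (Vr n r s) → Lau (Vr n r s) k) →ₗ[k]
      (Finset (Fin (n + 1)) → WForm k n r) where
  toFun ξ T := if (T.card : ℤ) = p then kapL k n r s (ξ (TI r s T)) else 0
  map_add' x y := by
    funext T
    by_cases h : (T.card : ℤ) = p <;> simp [h]
  map_smul' c x := by
    funext T
    by_cases h : (T.card : ℤ) = p <;> simp [h]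

private theorem omL_pos {p : ℤ} {T : Finset (Fin (n + 1))} (h : (T.card : ℤ) = p)
    (ξ : Finset (Vr n r s) → Finset (Vr n r s) → Lau (Vr n r s) k) :
    omL k n r s p ξ T = kapL k n r s (ξ (TI r s T)) := by
  show (if (T.card : ℤ) = p then kapL k n r s (ξ (TI r s T)) else 0) = _
  rw [if_pos h]

private theorem omL_neg {p : ℤ} {T : Finset (Fin (n + 1))} (h : (T.card : ℤ) ≠ p)
    (ξ : Finset (Vr n r s) → Finset (Vr n r s) → Lau (Vr n r s) k) :
    omL k n r s p ξ T = 0 := by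
  show (if (T.card : ℤ) = p then kapL k n r s (ξ (TI r s T)) else 0) = _
  rw [if_neg h]

private theorem omL_coch (hd : ∀ i, 1 ≤ d i) (hc : ∀ j, 1 ≤ c j) {l a p : ℤ} (hp : 1 ≤ p)
    {ξ : Finset (Vr n r s) → Finset (Vr n r s) → Lau (Vr n r s) k}
    (h : ξ ∈ Tt (TC k hd hc l (a + s)) (p + (a + s))) :
    omL k n r s p ξ ∈ LamCoch k n r a l p := by
  intro T
  by_cases hT : (T.card : ℤ) = p
  · refine ⟨?_, ?_⟩
    · rw [omL_pos hT]
      exact (kapL_mem hd hc (TC_at hd hc h (by rw [hT]; ring) (by ring))).1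
    · rintro (h1 | h1)
      · exact absurd hT h1
      · rw [h1, Finset.card_empty] at hT
        push_cast at hT
        omega
  · rw [omL_neg hT]
    exact ⟨Submodule.zero_mem _, fun _ => rfl⟩

private theorem omL_Z (hd : ∀ i, 1 ≤ d i) (hc : ∀ j, 1 ≤ c j) (D : Datum k n r s d c)
    {l a p : ℤ} (hp : 1 ≤ p)
    {ξ : Finset (Vr n r s) → Finset (Vr n r s) → Lau (Vr n r s) k}
    (h : ξ ∈ Tt (TC k hd hc l (a + s)) (p + (a + s))) (h0 : dT hd hc D ξ = 0) :
    omL k n r s p ξ ∈ LamZ D a l p := by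
  refine ⟨omL_coch hd hc hp h, ?_⟩
  intro T
  by_cases hT : (T.card : ℤ) = p + 1
  · refine ⟨?_, ?_⟩
    · have h1 := congrFun h0 (TI r s T)
      rw [dT_TI] at h1
      have e1 : ce k Finset.univ (fun T => ξ (TI r s T)) T =
          -((-1 : k) ^ T.card • Dn (cayT n d c hd hc) (cayF D) (ξ (TI r s T))) :=
        eq_neg_of_add_eq_zero_left h1
      have e2 : ce k Finset.univ (omL k n r s p ξ) T =
          kapL k n r s (ce k Finset.univ (fun T => ξ (TI r s T)) T) := by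
        rw [← ctp_ce_map]
        refine ctp_ce_congr fun T' hT' => ?_
        have e5 : (T'.card : ℤ) = p := by
          have : (T'.card : ℤ) + 1 = T.card := by exact_mod_cast hT'
          linarith
        exact omL_pos e5 ξ
      rw [e2, e1, map_neg, map_smul]
      refine Submodule.neg_mem _ (Submodule.smul_mem _ _ ?_)
      exact kapL_Dn hd hc D (TC_at hd hc h (by rw [hT]; ring) (by ring))
    · rintro (h1 | h1)
      · exact absurd hT h1
      · rw [h1, Finset.card_empty] at hT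
        push_cast at hT
        omega
  · have e : ce k Finset.univ (omL k n r s p ξ) T = 0 := by
      refine ctp_ce_zero fun T' hT' => ?_
      refine omL_neg (fun hp' => hT ?_) ξ
      have : (T'.card : ℤ) + 1 = T.card := by exact_mod_cast hT'
      linarith
    rw [e]
    exact ⟨Submodule.zero_mem _, fun _ => rfl⟩

private theorem omL_bd (hd : ∀ i, 1 ≤ d i) (hc : ∀ j, 1 ≤ c j) (D : Datum k n r s d c)
    {l a p : ℤ} (hl : l < 0) (hp : 1 ≤ p)
    {η : Finset (Vr n r s) → Finset (Vr n r s) → Lau (Vr n r s) k}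
    (h : η ∈ Tt (TC k hd hc l (a + s)) (p + (a + s) - 1)) :
    omL k n r s p (dT hd hc D η) ∈ LamB D a l p := by
  have hη0 := TC_empty hd hc hl h
  refine Submodule.mem_sup.2 ⟨ce k Finset.univ (omL k n r s (p - 1) η), ?_,
    omL k n r s p (dT hd hc D η) - ce k Finset.univ (omL k n r s (p - 1) η), ?_, by abel⟩
  · refine ⟨omL k n r s (p - 1) η, ?_, rfl⟩
    intro T
    by_cases hT : (T.card : ℤ) = p - 1
    · refine ⟨?_, ?_⟩
      · rw [omL_pos hT]
        exact (kapL_mem hd hc (TC_at hd hc h (by rw [hT]; ring) (by ring))).1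
      · rintro (h1 | h1)
        · exact absurd hT h1
        · rw [omL_pos hT, h1, hη0, map_zero]
    · rw [omL_neg hT]
      exact ⟨Submodule.zero_mem _, fun _ => rfl⟩
  · intro T
    rw [Pi.sub_apply]
    by_cases hT : (T.card : ℤ) = p
    · have e2 : ce k Finset.univ (omL k n r s (p - 1) η) T =
          kapL k n r s (ce k Finset.univ (fun T => η (TI r s T)) T) := by
        rw [← ctp_ce_map]
        refine ctp_ce_congr fun T' hT' => ?_
        have e5 : (T'.card : ℤ) = p - 1 := by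
          have : (T'.card : ℤ) + 1 = T.card := by exact_mod_cast hT'
          linarith
        exact omL_pos e5 η
      rw [omL_pos hT, dT_TI, map_add, e2, add_sub_cancel_left, map_smul]
      refine ⟨Submodule.smul_mem _ _
        (kapL_Dn hd hc D (TC_at hd hc h (by rw [hT]; ring) (by ring))), ?_⟩
      rintro (h1 | h1)
      · exact absurd hT h1
      · rw [h1, Finset.card_empty] at hT
        push_cast at hT
        omega
    · have e : ce k Finset.univ (omL k n r s (p - 1) η) T = 0 := by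
        refine ctp_ce_zero fun T' hT' => ?_
        refine omL_neg (fun hp' => hT ?_) η
        have : (T'.card : ℤ) + 1 = T.card := by exact_mod_cast hT'
        linarith
      rw [omL_neg hT, e, sub_zero]
      exact ⟨Submodule.zero_mem _, fun _ => rfl⟩

private theorem omL_bd' (hd : ∀ i, 1 ≤ d i) (hc : ∀ j, 1 ≤ c j) (hr : 1 ≤ r)
    (D : Datum k n r s d c) (hU : (cayT n d c hd hc).UnitCond (cayF D)) {l a p : ℤ} (hl : l < 0)
    {ξ : Finset (Vr n r s) → Finset (Vr n r s) → Lau (Vr n r s) k}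
    (h : ξ ∈ Tt (TC k hd hc l (a + s)) (p + (a + s))) (h0 : dT hd hc D ξ = 0)
    (hB : omL k n r s p ξ ∈ LamB D a l p) :
    ∃ η ∈ Tt (TC k hd hc l (a + s)) (p + (a + s) - 1), dT hd hc D η = ξ := by
  obtain ⟨cl, ⟨lam, hlam, hlam2⟩, ρ, hρ, hsum⟩ := Submodule.mem_sup.1 hB
  have hk : ∀ T, kapI k n r s (lam T) ∈ CN k (cayT n d c hd hc) (TI r s T)
      (l + ∑ i, (d i : ℤ)) (a + s) (-(r : ℤ)) := fun T => kapI_mem hd hc (hlam T).1
  have hL : lf s (fun T => kapI k n r s (lam T)) ∈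
      Tt (TC k hd hc l (a + s)) (p + (a + s) - 1) := by
    refine lf_mem hd hc fun T => ?_
    by_cases hT : (T.card : ℤ) = p - 1
    · have e1 : p + (a + s) - 1 - T.card = a + s := by rw [hT]; ring
      have e2 : a + (s : ℤ) + (-(r : ℤ) - (a + s)) = -(r : ℤ) := by ring
      rw [e1, e2]
      exact hk T
    · have h0 : lam T = 0 := (hlam T).2 (Or.inl hT)
      rw [h0, map_zero]
      exact Submodule.zero_mem _
  set L := lf s (fun T => kapI k n r s (lam T)) with hLd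
  have hb0 := fun T => exists_of_rel hd hc D (hρ T).1
  choose b hb hb2 using hb0
  have hβ : lf s (fun T : Finset (Fin (n + 1)) =>
      if (T.card : ℤ) = p then (-1 : k) ^ T.card • b T else 0) ∈
        Tt (TC k hd hc l (a + s)) (p + (a + s) - 1) := by
    refine lf_mem hd hc fun T => ?_
    by_cases hT : (T.card : ℤ) = p
    · rw [if_pos hT]
      have e1 : p + (a + s) - 1 - T.card = a + s - 1 := by rw [hT]; ring
      have e2 : a + (s : ℤ) - 1 + (-(r : ℤ) - (a + s)) = -(r : ℤ) - 1 := by ring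
      rw [e1, e2]
      exact Submodule.smul_mem _ _ (hb T)
    · rw [if_neg hT]
      exact Submodule.zero_mem _
  set β := lf s (fun T : Finset (Fin (n + 1)) =>
      if (T.card : ℤ) = p then (-1 : k) ^ T.card • b T else 0) with hβd
  have hs : L + β ∈ Tt (TC k hd hc l (a + s)) (p + (a + s) - 1) := Submodule.add_mem _ hL hβ
  have htot : dT hd hc D (L + β) ∈ Tt (TC k hd hc l (a + s)) (p + (a + s)) := by
    have := tot_mem_CNs (ctp_hom hd hc D) hs
    have e : p + (a + s) - 1 + 1 = p + (a + s) := by ring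
    rw [e] at this
    exact this
  have hdiff : ξ - dT hd hc D (L + β) ∈ Tt (TC k hd hc l (a + s)) (p + (a + s)) :=
    Submodule.sub_mem _ h htot
  have hz : ∀ T : Finset (Fin (n + 1)), (T.card : ℤ) ≤ p + (a + s) - (a + s) →
      (ξ - dT hd hc D (L + β)) (TI r s T) = 0 := by
    intro T hT
    rcases lt_or_eq_of_le (show (T.card : ℤ) ≤ p by linarith) with hlt | heq
    · refine TC_zero hd hc hdiff ?_
      linarith
    · rw [Pi.sub_apply, dT_TI]
      have e1 : (L + β) (TI r s T) = (-1 : k) ^ T.card • b T := by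
        have e2 : L (TI r s T) = 0 := by
          rw [hLd, lf_TI, (hlam T).2 (Or.inl (by rw [heq]; linarith)), map_zero]
        have e3 : β (TI r s T) = (-1 : k) ^ T.card • b T := by
          rw [hβd, lf_TI, if_pos heq]
        rw [Pi.add_apply, e2, e3, zero_add]
      have e4 : ce k Finset.univ (fun T => (L + β) (TI r s T)) T =
          kapI k n r s (cl T) := by
        rw [← hlam2, ← ctp_ce_map]
        refine ctp_ce_congr fun T' hT' => ?_
        have e5 : (T'.card : ℤ) = p - 1 := by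
          have : (T'.card : ℤ) + 1 = T.card := by exact_mod_cast hT'
          linarith
        rw [Pi.add_apply, hLd, hβd, lf_TI, lf_TI, if_neg (by rw [e5]; linarith), add_zero]
      have e6 : ξ (TI r s T) = kapI k n r s (cl T + ρ T) := by
        have e7 := congrFun hsum T
        rw [Pi.add_apply, omL_pos heq] at e7
        rw [e7]
        exact (kapL_mem (a := a) hd hc (TC_at (j := a + s) (w := -(r : ℤ)) hd hc h
          (by rw [heq]; ring) (by ring))).2.symm
      rw [e1, e4, map_smul, smul_smul, ctp_pp, one_smul, hb2, e6, map_add, sub_self]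
  obtain ⟨η, hη, hη1, _⟩ := ctp_cols hd hc hr D hU hl hdiff
    (by rw [map_sub, h0, zero_sub, neg_eq_zero]; exact tot_tot_CNs _) hz
  refine ⟨L + β + η, Submodule.add_mem _ hs hη, ?_⟩
  rw [map_add, hη1]
  abel

theorem lam_vanish (hd : ∀ i, 1 ≤ d i) (hc : ∀ j, 1 ≤ c j) (hr : 1 ≤ r) (D : Datum k n r s d c)
    (hU : (cayT n d c hd hc).UnitCond (cayF D)) {δ : ℤ} (h0 : 0 < δ) {a p : ℤ} (hp : 1 ≤ p)
    (hap : p + a + s < n + 1) : LamZ D a (-δ) p ≤ LamB D a (-δ) p := by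
  intro ω hω
  obtain ⟨ξ, h1, h2, h3⟩ := ctp_ext hd hc hr D hU (l := -δ) (by linarith) hω
  obtain ⟨η, h4, h5⟩ := ct_rows (ctp_hom hd hc D) (m := p + (a + s))
    (by rw [ctp_Xs_card]; linarith) h1 h2
  have e : omL k n r s p (dT hd hc D η) = ω := by
    funext T
    have h5' : dT hd hc D η = ξ := h5
    rw [h5']
    by_cases hT : (T.card : ℤ) = p
    · rw [omL_pos hT, h3 T hT, kapL_kapI]
    · rw [omL_neg hT, (hω.1 T).2 (Or.inl hT)]
  rw [← e]
  exact omL_bd hd hc D (by linarith) hp h4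

/-- the total cocycles -/
private noncomputable def Zt (hd : ∀ i, 1 ≤ d i) (hc : ∀ j, 1 ≤ c j) (D : Datum k n r s d c)
    (l J m : ℤ) : Submodule k (Finset (Vr n r s) → Finset (Vr n r s) → Lau (Vr n r s) k) :=
  Tt (TC k hd hc l J) m ⊓ LinearMap.ker (dT hd hc D)

theorem lam_top (hd : ∀ i, 1 ≤ d i) (hc : ∀ j, 1 ≤ c j) (hr : 1 ≤ r) (D : Datum k n r s d c)
    (hU : (cayT n d c hd hc).UnitCond (cayF D)) {δ : ℤ} (h0 : 0 < δ) {a p : ℤ} (hp : 1 ≤ p)
    (hap : p + a + s = n + 1) : lamcoh D a (-δ) p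
      = Module.finrank k (NNc (cayT n d c hd hc) (cayF D) (-δ + ∑ i, (d i : ℤ))
          (-(r : ℤ) - (a + s))) := by
  classical
  set C := cayT n d c hd hc with hC
  have hm : p + (a + s) = (C.Xs.card : ℤ) := by rw [hC, ctp_Xs_card]; linarith
  -- first map
  let g1 : ↥(Zt hd hc D (-δ) (a + s) (p + (a + s))) →ₗ[k] ↥(LamZ D a (-δ) p) :=
    (omL k n r s p).restrict (fun ξ hξ => omL_Z hd hc D hp hξ.1 (LinearMap.mem_ker.1 hξ.2))
  let q1 := ((LamB D a (-δ) p).submoduleOf (LamZ D a (-δ) p)).mkQ ∘ₗ g1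
  -- second map
  have hNN : ∀ ξ ∈ Zt hd hc D (-δ) (a + s) (p + (a + s)),
      (nproj k (Negx C) (ξ C.Xs)) ∅ ∈ NNc C (cayF D) (-δ + ∑ i, (d i : ℤ))
        (-(r : ℤ) - (a + s)) ∧
      nproj k (Negx C) (ξ C.Xs) = Pi.single ∅ ((nproj k (Negx C) (ξ C.Xs)) ∅) := by
    intro ξ hξ
    have h1 := hξ.1
    rw [hm] at h1
    obtain ⟨f, hf, hf2⟩ := ct_nnc (ctp_hom hd hc D) h1 (LinearMap.mem_ker.1 hξ.2)
    rw [hf2, Pi.single_eq_same]
    exact ⟨hf, rfl⟩
  let ev : (Finset (Vr n r s) → Finset (Vr n r s) → Lau (Vr n r s) k) →ₗ[k] Lau (Vr n r s) k :=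
    (LinearMap.proj ∅) ∘ₗ nproj k (Negx C) ∘ₗ (LinearMap.proj C.Xs)
  let q2 : ↥(Zt hd hc D (-δ) (a + s) (p + (a + s))) →ₗ[k]
      ↥(NNc C (cayF D) (-δ + ∑ i, (d i : ℤ)) (-(r : ℤ) - (a + s))) :=
    ev.restrict (fun ξ hξ => (hNN ξ hξ).1)
  have hs1 : Function.Surjective q1 := by
    intro x
    obtain ⟨⟨ω, hω⟩, rfl⟩ := Submodule.mkQ_surjective _ x
    obtain ⟨ξ, h1, h2, h3⟩ := ctp_ext hd hc hr D hU (l := -δ) (by linarith) hω
    refine ⟨⟨ξ, h1, LinearMap.mem_ker.2 h2⟩, ?_⟩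
    show Submodule.mkQ _ (g1 ⟨ξ, h1, LinearMap.mem_ker.2 h2⟩) = _
    congr 1
    apply Subtype.ext
    funext T
    show omL k n r s p ξ T = ω T
    by_cases hT : (T.card : ℤ) = p
    · rw [omL_pos hT, h3 T hT, kapL_kapI]
    · rw [omL_neg hT, (hω.1 T).2 (Or.inl hT)]
  have hs2 : Function.Surjective q2 := by
    rintro ⟨f, hf⟩
    obtain ⟨ξ, h1, h2, h3⟩ := ct_lift (ctp_hom hd hc D) hf
    rw [← hm] at h1
    refine ⟨⟨ξ, h1, LinearMap.mem_ker.2 h2⟩, ?_⟩
    apply Subtype.ext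
    show (nproj k (Negx C) (ξ C.Xs)) ∅ = f
    rw [h3, Pi.single_eq_same]
  have hker : LinearMap.ker q1 = LinearMap.ker q2 := by
    ext ⟨ξ, hξ⟩
    rw [LinearMap.mem_ker, LinearMap.mem_ker]
    have e1 : q1 ⟨ξ, hξ⟩ = 0 ↔ omL k n r s p ξ ∈ LamB D a (-δ) p := by
      show Submodule.mkQ _ (g1 ⟨ξ, hξ⟩) = 0 ↔ _
      rw [Submodule.mkQ_apply, Submodule.Quotient.mk_eq_zero]
      rfl
    have e2 : q2 ⟨ξ, hξ⟩ = 0 ↔ nproj k (Negx C) (ξ C.Xs) = 0 := by
      constructor
      · intro h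
        have h' : (nproj k (Negx C) (ξ C.Xs)) ∅ = 0 := congrArg Subtype.val h
        rw [(hNN ξ hξ).2, h', Pi.single_zero]
      · intro h
        apply Subtype.ext
        show (nproj k (Negx C) (ξ C.Xs)) ∅ = 0
        rw [h]
        rfl
    rw [e1, e2]
    constructor
    · intro h
      obtain ⟨η, h1, h2⟩ := omL_bd' hd hc hr D hU (by linarith) hξ.1 (LinearMap.mem_ker.1 hξ.2) h
      rw [hm] at h1
      have := ct_negx (F := cayF D) h1
      have h2' : tot C.Xs (Dn C (cayF D)) η = ξ := h2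
      rw [h2'] at this
      exact this
    · intro h
      have h1 := hξ.1
      rw [hm] at h1
      obtain ⟨η, h2, h3⟩ := ct_ker (ctp_hom hd hc D) h1 (LinearMap.mem_ker.1 hξ.2) h
      rw [← hm] at h2
      have h3' : dT hd hc D η = ξ := h3
      rw [← h3']
      exact omL_bd hd hc D (by linarith) hp h2
  have e1 := (q1.quotKerEquivOfSurjective hs1).finrank_eq
  have e2 := (q2.quotKerEquivOfSurjective hs2).finrank_eq
  have e3 := (Submodule.quotEquivOfEq _ _ hker).finrank_eq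
  rw [lamcoh, ← e1, e3, e2]

theorem nnc_zero (hd : ∀ i, 1 ≤ d i) (hc : ∀ j, 1 ≤ c j) (hr : 1 ≤ r) (D : Datum k n r s d c)
    (hU : (cayT n d c hd hc).UnitCond (cayF D)) {δ : ℤ} (h0 : 0 < δ) {w : ℤ} (hw : (n : ℤ) < w) :
    NNc (cayT n d c hd hc) (cayF D) (-δ + ∑ i, (d i : ℤ)) (-(r : ℤ) - w) = ⊥ := by
  rw [eq_bot_iff]
  intro f hf
  obtain ⟨ξ, h1, h2, h3⟩ := ct_lift (ctp_hom hd hc D) hf
  obtain ⟨η, h4, h5, _⟩ := ctp_cols hd hc hr D hU (l := -δ) (J := w) (by linarith) h1 h2 (by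
    intro T hT
    rw [ctp_Xs_card] at hT
    have hT0 : T.card = 0 := by
      have : (0 : ℤ) ≤ T.card := by positivity
      omega
    rw [Finset.card_eq_zero] at hT0
    subst hT0
    exact TC_empty hd hc (l := -δ) (by linarith) h1)
  have h6 := ct_negx (F := cayF D) h4
  have h5' : tot (cayT n d c hd hc).Xs (Dn (cayT n d c hd hc) (cayF D)) η = ξ := h5
  rw [h5', h3] at h6
  have h7 := congrFun h6 ∅
  rw [Pi.single_eq_same] at h7
  exact h7

end

end HN
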