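import Pool.Agent.HN.Ext

/-!
# HN/Stmt : the definitions used in the final statement (MP_04e011_nt)

* `Datum`      : homogeneous polynomials `f_1..f_r`, `h_1..h_s` in `x_0..x_n`;
* `CondN`      : condition (N) (Jacobian criterion at all geometric points);
* `hodge`      : `h^i(e) = dim H^{N-i}(X, O(-d_e) ⊗ Ω^i_X(log D))` through Čech cohomology on the
  standard affine cover `D_+(x_k)`;
* `charSum`    : the sums `S_m`.
-/

open MvPolynomial

namespace HN

/-- Laurent polynomials in `x_0..x_n` -/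
abbrev LauX (n : ℕ) (k : Type*) [Field k] := AddMonoidAlgebra k (Fin (n + 1) → ℤ)

/-- a polynomial as a Laurent polynomial -/
noncomputable def toLX {n : ℕ} {k : Type*} [Field k] :
    MvPolynomial (Fin (n + 1)) k →ₐ[k] LauX n k :=
  MvPolynomial.aeval (fun v => AddMonoidAlgebra.single (Pi.single v (1 : ℤ)) (1 : k))

/-- Equations of a complete intersection `X = {h_1 = ... = h_s = 0} ⊂ ℙ^n` and of hypersurfaces
`D_i = {f_i = 0}`. The last field says that the `h_j` form a regular sequence (`X` is a complete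
intersection). -/
structure Datum (k : Type*) [Field k] (n r s : ℕ) (d : Fin r → ℕ) (c : Fin s → ℕ) where
  f : Fin r → MvPolynomial (Fin (n + 1)) k
  h : Fin s → MvPolynomial (Fin (n + 1)) k
  hf : ∀ i, (f i).IsHomogeneous (d i)
  hh : ∀ j, (h j).IsHomogeneous (c j)
  hreg : RingTheory.Sequence.IsWeaklyRegular (MvPolynomial (Fin (n + 1)) k) (List.ofFn h)

/-- Condition (N) at the points with coordinates in the algebraically closed field `K`: at every
point `x` of `X` the gradients of the `h_j` and of those `f_i` which vanish at `x` are linearly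
independent, i.e. for each `I` the intersection of `X` with the `D_i`, `i ∈ I`, is smooth of
codimension `|I|` in `X` (and `X` is smooth of codimension `s`). -/
def CondN {k : Type*} [Field k] (K : Type*) [Field K] [Algebra k K]
    {n r s : ℕ} {d : Fin r → ℕ} {c : Fin s → ℕ} (D : Datum k n r s d c) : Prop :=
  ∀ x : Fin (n + 1) → K, x ≠ 0 → (∀ j, aeval x (D.h j) = 0) →
    LinearIndependent K (Sum.elim
      (fun (j : Fin s) (v : Fin (n + 1)) => aeval x (pderiv v (D.h j)))
      (fun (i : {i : Fin r // aeval x (D.f i) = 0}) (v : Fin (n + 1)) =>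
        aeval x (pderiv v (D.f i.1))))

/-- Čech cochains with values in a family `V` of subspaces of `M`: `ω T ∈ V T`, and `ω T = 0` unless
`T` is nonempty with `p` elements (Čech degree `p - 1`) -/
def coch {κ k M : Type*} [Field k] [AddCommGroup M] [Module k M] (V : Finset κ → Submodule k M)
    (p : ℤ) : Submodule k (Finset κ → M) where
  carrier := {ω | ∀ T, ω T ∈ V T ∧ ((T.card : ℤ) ≠ p ∨ T = ∅ → ω T = 0)}
  zero_mem' := fun T => ⟨Submodule.zero_mem _, fun _ => rfl⟩
  add_mem' hx hy := fun T => ⟨Submodule.add_mem _ (hx T).1 (hy T).1, fun h => by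
    simp [(hx T).2 h, (hy T).2 h]⟩
  smul_mem' c x hx := fun T => ⟨Submodule.smul_mem _ c (hx T).1, fun h => by simp [(hx T).2 h]⟩

/-- the dimension of the subquotient `Z / (Z ∩ B)`, for subspaces `Z`, `B` of a vector space -/
noncomputable def sqdim {k M : Type*} [Field k] [AddCommGroup M] [Module k M]
    (Z B : Submodule k M) : ℕ :=
  Module.finrank k (↥Z ⧸ B.submoduleOf Z)

/-- The dimension of the cohomology in Čech degree `p - 1` of the cochains with values in the
quotients `V T / W T`: cocycles modulo `W`, divided by coboundaries plus cochains with values in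
`W`. (`ce k univ` is the Čech differential.) -/
noncomputable def cechdim {n : ℕ} {k M : Type*} [Field k] [AddCommGroup M] [Module k M]
    (V W : Finset (Fin (n + 1)) → Submodule k M) (p : ℤ) : ℕ :=
  sqdim (coch V p ⊓ (coch W (p + 1)).comap (ce k Finset.univ))
    ((coch V (p - 1)).map (ce k Finset.univ) ⊔ coch W p)

section forms
variable {k : Type*} [Field k] {n r s : ℕ} {d : Fin r → ℕ} {c : Fin s → ℕ}

/-- Forms `∑ ω_A e_A` in the symbols `dx_v` (`v = 0..n`) and `η_i` (`i = 1..r`), with Laurent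
polynomial coefficients. `η_i` stands for `- dlog f_i = - df_i / f_i`. -/
abbrev WForm (k : Type*) [Field k] (n r : ℕ) := Finset (Fin (n + 1) ⊕ Fin r) → LauX n k

/-- multiplication of all coefficients by a Laurent polynomial -/
noncomputable def smulX (g : LauX n k) : WForm k n r →ₗ[k] WForm k n r :=
  mp k (LinearMap.mulLeft k g)

/-- `ω ↦ dg ∧ ω` -/
noncomputable def dwe (g : MvPolynomial (Fin (n + 1)) k) : WForm k n r →ₗ[k] WForm k n r :=
  ∑ v, smulX (toLX (pderiv v g)) ∘ₗ we k (Sum.inl v)

/-- `ω ↦ (df + f η_i) ∧ ω`: the relation `η_i = - df_i/f_i` -/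
noncomputable def rhowe (i : Fin r) (g : MvPolynomial (Fin (n + 1)) k) :
    WForm k n r →ₗ[k] WForm k n r :=
  dwe g + smulX (toLX g) ∘ₗ we k (Sum.inr i)

/-- contraction with the Euler field: `dx_v ↦ x_v`, `η_i ↦ -d_i` -/
noncomputable def euX (d : Fin r → ℕ) : WForm k n r →ₗ[k] WForm k n r :=
  ∑ v, smulX (toLX (X v)) ∘ₗ co k (Sum.inl v) - ∑ i, (d i : k) • co k (Sum.inr i)

/-- forms of degree `a`, homogeneous of degree `l` (with `deg x_v = deg dx_v = 1`, `deg η_i = 0`),
with coefficients regular on `∏_{v ∈ T} x_v ≠ 0` -/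
def Sec (k : Type*) [Field k] (n r : ℕ) (T : Finset (Fin (n + 1))) (a l : ℤ) :
    Submodule k (WForm k n r) where
  carrier := {ω | ∀ A e, (ω A).coeff e ≠ 0 → (A.card : ℤ) = a ∧
    ∑ v, e v + ((A.filter (fun x => x.isLeft)).card : ℤ) = l ∧ ∀ v, v ∉ T → 0 ≤ e v}
  zero_mem' := by intro A e h; exact absurd rfl h
  add_mem' {x y} hx hy := by
    intro A e h
    by_cases h1 : (x A).coeff e = 0
    · exact hy A e (by intro h2; exact h (by simp [h1, h2]))
    · exact hx A e h1
  smul_mem' c x hx := by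
    intro A e h
    exact hx A e (by intro h1; exact h (by simp [h1]))

/-- the submodule of relations in `Sec T a l`: generated by the `h_j`, `dh_j` and
`df_i + f_i η_i`. The quotient `Sec T a l / Rel T a l` is the module of sections over
`D_+(∏_{T} x_v)` of `(Λ^a Q)~(l)`, `Q` the module generated by the `dx_v` and `dlog f_i` over
the coordinate ring of `X` with relations `dh_j = 0`, `df_i = f_i dlog f_i`. -/
noncomputable def Rel (D : Datum k n r s d c) (T : Finset (Fin (n + 1))) (a l : ℤ) :
    Submodule k (WForm k n r) :=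
  (⨆ j, (Sec k n r T a (l - c j)).map (smulX (toLX (D.h j)))) ⊔
  (⨆ j, (Sec k n r T (a - 1) (l - c j)).map (dwe (D.h j))) ⊔
  (⨆ i, (Sec k n r T (a - 1) (l - d i)).map (rhowe i (D.f i)))

/-- representatives of the sections of `Ω^a_X(log D)(l)` over `D_+(∏_T x_v)`: the kernel of the
contraction with the Euler field on `Λ^a Q` -/
noncomputable def OmSec (D : Datum k n r s d c) (T : Finset (Fin (n + 1))) (a l : ℤ) :
    Submodule k (WForm k n r) :=
  Sec k n r T a l ⊓ (Rel D T (a - 1) l).comap (euX d)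

/-- `dim H^b(X, Ω^a_X(log D)(l))` -/
noncomputable def hcoh (D : Datum k n r s d c) (b a l : ℤ) : ℕ :=
  cechdim (fun T => OmSec D T a l) (fun T => Rel D T a l) (b + 1)

/-- `h^i(e) = dim H^{N-i}(X, O(-d_e) ⊗ Ω^i_X(log D))`, where `N = n - s` and `d_e = δ` -/
noncomputable def hodge (D : Datum k n r s d c) (δ : ℤ) (i : ℕ) : ℕ :=
  hcoh D ((n : ℤ) - s - i) i (-δ)

end forms

section sums
variable (p : ℕ) [Fact p.Prime] {F : Type} [Field F] {n r s : ℕ} {d : Fin r → ℕ} {c : Fin s → ℕ}

open Classical in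
/-- The sum `∑_{x ∈ X(E)} ∏_i χ_i(N_{E/F} f_i(x))`, `χ_i = ω^{b_i}`, `ω` the Teichmüller character
of `F` (with values in the Witt vectors of `F`), over the points of `X ⊂ ℙ^n` with coordinates in
the extension field `E` of `F`. -/
noncomputable def charSum (D : Datum F n r s d c) (b : Fin r → ℕ) (E : Type) [Field E]
    [Algebra F E] : WittVector p F :=
  ∑ᶠ P : Projectivization E (Fin (n + 1) → E),
    if ∀ j, aeval P.rep (D.h j) = 0 then
      ∏ i, (WittVector.teichmuller p (Algebra.norm F (aeval P.rep (D.f i)))) ^ (b i)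
    else 0

/-- `ord_q` on the Witt vectors of `F`, `q = p^a`, normalised by `ord_q q = 1` -/
noncomputable def ordq (a : ℕ) (x : WittVector p F) : ℝ :=
  (multiplicity (p : WittVector p F) x : ℝ) / a

end sums

/-- the Newton polygon of `∏_{i=0}^N (1 - q^i t)^{h i}` at the real number `x`: slope `i` on the
`i`-th interval of length `h i` -/
noncomputable def hpoly (N : ℕ) (h : ℕ → ℕ) (x : ℝ) : ℝ :=
  ∑ i ∈ Finset.range (N + 1),
    (i : ℝ) * min (h i : ℝ) (max 0 (x - ∑ l ∈ Finset.range i, (h l : ℝ)))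

/-- the `j`-th Frobenius conjugate of the exponent `b` (`e = b/(q-1)`, `e^{(j)} = b^{(j)}/(q-1)`) -/
def conj (p q j b : ℕ) : ℕ := (p ^ j * b) % (q - 1)

/-- `d_e = ∑ e_i d_i`, `e = b/(q-1)` -/
def degE {r : ℕ} (q : ℕ) (d b : Fin r → ℕ) : ℕ := (∑ i, b i * d i) / (q - 1)

/-- the averaged Hodge polygon `g = (1/a) ∑_j g_{e^{(j)}}` -/
noncomputable def avgPoly (p a : ℕ) {n r s : ℕ} {d : Fin r → ℕ} {c : Fin s → ℕ}
    (D : Datum ℂ n r s d c) (b : Fin r → ℕ) (x : ℝ) : ℝ :=
  (∑ j ∈ Finset.range a,
    hpoly (n - s) (fun i => hodge D (degE (p ^ a) d (fun i => conj p (p ^ a) j (b i)) : ℤ) i) x) / a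

end HN
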