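import Pool.Agent.HN.Defs
import Pool.Agent.HN.Stmt

/-! # HN/Cay : the Cayley polynomial of a datum; condition (N) implies `UnitCond` (module HN-19)

Variables `Vr n r s = Fin (n+1) ⊕ (Fin r ⊕ Fin s)`: `x_0..x_n`, `y_1..y_r`, `z_1..z_s`.
`cayF D = ∑ y_i f_i + ∑ z_j h_j`.

PLAN (`unitCond_cay`).  By the Nullstellensatz
(`MvPolynomial.vanishingIdeal_zeroLocus_eq_radical` over `k ⊂ K`, `K` algebraically closed):
it suffices that every common zero `ζ : Vr n r s → K` of all `C.g F v` has `ζ_a ζ_b = 0`,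
`a ∈ Xs`, `b ∉ Xs`.  `g_{z_j} = h_j(x) = 0`, `g_{y_i} = y_i f_i(x) = 0`,
`g_{x_v} = ∑ y_i ∂_v f_i(x) + ∑ z_j ∂_v h_j(x) = 0`.  If `x ≠ 0`: `y_i = 0` whenever
`f_i(x) ≠ 0`, so `∑_{f_i(x) = 0} y_i ∇f_i(x) + ∑ z_j ∇h_j(x) = 0` and `CondN` gives
`y = 0`, `z = 0`.
-/

open MvPolynomial

namespace HN

/-- the variables -/
abbrev Vr (n r s : ℕ) := Fin (n + 1) ⊕ (Fin r ⊕ Fin s)

/-- the Cayley type: `deg x_v = 1`, `deg y_i = -d_i`, `deg z_j = -c_j` -/
def cayT (n : ℕ) {r s : ℕ} (d : Fin r → ℕ) (c : Fin s → ℕ) (hd : ∀ i, 1 ≤ d i)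
    (hc : ∀ j, 1 ≤ c j) : CType (Vr n r s) where
  Xs := Finset.univ.filter (fun v => v.isLeft)
  Ys := Finset.univ.image (fun i => Sum.inr (Sum.inl i))
  wd := Sum.elim (fun _ => 1) (Sum.elim (fun i => -(d i : ℤ)) (fun j => -(c j : ℤ)))
  hX := by
    intro v hv
    rcases v with v | v | v <;> simp at hv ⊢
  hXY := by
    intro v hv
    simp only [Finset.mem_image] at hv
    obtain ⟨i, _, rfl⟩ := hv
    simp
  hneg := by
    intro v hv
    rcases v with v | v | v
    · simp at hv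
    · have := hd v; simp; omega
    · have := hc v; simp; omega

section
variable {k : Type*} [Field k] {n r s : ℕ} {d : Fin r → ℕ} {c : Fin s → ℕ}

/-- `F = ∑ y_i f_i + ∑ z_j h_j` -/
noncomputable def cayF (D : Datum k n r s d c) : MvPolynomial (Vr n r s) k :=
  ∑ i, X (Sum.inr (Sum.inl i)) * rename Sum.inl (D.f i)
    + ∑ j, X (Sum.inr (Sum.inr j)) * rename Sum.inl (D.h j)

private theorem cay_mono {g : MvPolynomial (Fin (n + 1)) k} {δ : ℕ} (hg : g.IsHomogeneous δ)
    (w : Fin r ⊕ Fin s) (m : Vr n r s →₀ ℕ)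
    (hm : (X (Sum.inr w) * rename Sum.inl g : MvPolynomial (Vr n r s) k).coeff m ≠ 0) :
    ∃ u : Fin (n + 1) →₀ ℕ, (∑ v, u v) = δ ∧
      m = Finsupp.single (Sum.inr w) 1 + u.mapDomain Sum.inl := by
  classical
  rw [coeff_X_mul'] at hm
  split_ifs at hm with h
  · obtain ⟨u, hu, hu'⟩ := coeff_rename_ne_zero _ _ _ hm
    refine ⟨u, ?_, ?_⟩
    · have h1 := hg hu'
      rw [← h1]
      simp [Finsupp.weight_apply, Finsupp.sum_fintype]
    · rw [hu]
      ext v
      simp only [Finsupp.add_apply, Finsupp.tsub_apply]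
      by_cases hv : v = Sum.inr w
      · subst hv
        have : m (Sum.inr w) ≠ 0 := by simpa using h
        simp only [Finsupp.single_eq_same]
        omega
      · rw [Finsupp.single_eq_of_ne hv]
        omega
  · exact absurd rfl hm

private theorem mapDomain_inl (u : Fin (n + 1) →₀ ℕ) (v : Fin (n + 1)) :
    (u.mapDomain (Sum.inl : Fin (n + 1) → Vr n r s)) (Sum.inl v) = u v :=
  Finsupp.mapDomain_apply Sum.inl_injective u v

private theorem mapDomain_inr (u : Fin (n + 1) →₀ ℕ) (w : Fin r ⊕ Fin s) :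
    (u.mapDomain (Sum.inl : Fin (n + 1) → Vr n r s)) (Sum.inr w) = 0 :=
  Finsupp.mapDomain_of_notMem_range u _ (by simp)

private theorem cay_compl (hd : ∀ i, 1 ≤ d i) (hc : ∀ j, 1 ≤ c j) (e : Vr n r s → ℤ) :
    (cayT n d c hd hc).wt e = ∑ w : Fin r ⊕ Fin s, e (Sum.inr w) := by
  classical
  have h : (cayT n d c hd hc).Xsᶜ = Finset.univ.image (Sum.inr : Fin r ⊕ Fin s → Vr n r s) := by
    ext v
    rcases v with v | v
    · simp [cayT]
    · simp [cayT]
  unfold CType.wt
  rw [h, Finset.sum_image (by intro a _ b _ h; exact Sum.inr_injective h)]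

theorem cay_hom (D : Datum k n r s d c) (hd : ∀ i, 1 ≤ d i) (hc : ∀ j, 1 ≤ c j) :
    (cayT n d c hd hc).Hom (cayF D) := by
  classical
  intro m hm
  have key : ∃ (w : Fin r ⊕ Fin s) (u : Fin (n + 1) →₀ ℕ),
      (∑ v, (u v : ℤ)) = Sum.elim (fun i => (d i : ℤ)) (fun j => (c j : ℤ)) w ∧
      m = Finsupp.single (Sum.inr w) 1 + u.mapDomain Sum.inl := by
    rw [cayF, coeff_add, coeff_sum, coeff_sum] at hm
    by_cases h1 : ∑ i, coeff m (X (Sum.inr (Sum.inl i)) * rename Sum.inl (D.f i) :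
        MvPolynomial (Vr n r s) k) = 0
    · rw [h1, zero_add] at hm
      obtain ⟨j, _, hj⟩ := Finset.exists_ne_zero_of_sum_ne_zero hm
      obtain ⟨u, hu, hm'⟩ := cay_mono (D.hh j) _ m hj
      exact ⟨Sum.inr j, u, by simp [← hu], hm'⟩
    · obtain ⟨i, _, hi⟩ := Finset.exists_ne_zero_of_sum_ne_zero h1
      obtain ⟨u, hu, hm'⟩ := cay_mono (D.hf i) _ m hi
      exact ⟨Sum.inl i, u, by simp [← hu], hm'⟩
  obtain ⟨w, u, hu, rfl⟩ := key
  constructor
  · unfold CType.deg
    rw [Fintype.sum_sum_type]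
    have e1 : ∀ v : Fin (n + 1), (cayT n d c hd hc).wd (Sum.inl v) *
        (((Finsupp.single (Sum.inr w) 1 + u.mapDomain Sum.inl : Vr n r s →₀ ℕ) (Sum.inl v) : ℕ) : ℤ)
        = (u v : ℤ) := by
      intro v
      rw [Finsupp.add_apply, mapDomain_inl, Finsupp.single_eq_of_ne (by simp)]
      simp [cayT]
    have e2 : ∀ v : Fin r ⊕ Fin s, (cayT n d c hd hc).wd (Sum.inr v) *
        (((Finsupp.single (Sum.inr w) 1 + u.mapDomain Sum.inl : Vr n r s →₀ ℕ) (Sum.inr v) : ℕ) : ℤ)
        = if v = w then (cayT n d c hd hc).wd (Sum.inr w) else 0 := by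
      intro v
      rw [Finsupp.add_apply, mapDomain_inr]
      by_cases hv : v = w
      · subst hv; simp
      · rw [Finsupp.single_eq_of_ne (by simpa using hv)]
        simp [hv]
    simp_rw [e1, e2]
    rw [Finset.sum_ite_eq' Finset.univ w, hu]
    rcases w with w | w <;> simp [cayT]
  · rw [cay_compl]
    have e2 : ∀ v : Fin r ⊕ Fin s,
        (((Finsupp.single (Sum.inr w) 1 + u.mapDomain Sum.inl : Vr n r s →₀ ℕ) (Sum.inr v) : ℕ) : ℤ)
        = if v = w then 1 else 0 := by
      intro v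
      rw [Finsupp.add_apply, mapDomain_inr]
      by_cases hv : v = w
      · subst hv; simp
      · rw [Finsupp.single_eq_of_ne (by simpa using hv)]
        simp [hv]
    simp_rw [e2]
    simp

private theorem pderiv_inr (w : Fin r ⊕ Fin s) (g : MvPolynomial (Fin (n + 1)) k) :
    pderiv (Sum.inr w : Vr n r s) (rename Sum.inl g) = 0 := by
  apply pderiv_eq_zero_of_notMem_vars
  intro h
  obtain ⟨i, _, hi⟩ := mem_vars_rename _ _ h
  exact absurd hi (by simp)

private theorem pderiv_z (D : Datum k n r s d c) (j : Fin s) :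
    pderiv (Sum.inr (Sum.inr j)) (cayF D) = rename Sum.inl (D.h j) := by
  classical
  simp only [cayF, map_add, map_sum, pderiv_mul, pderiv_inr, mul_zero, add_zero, pderiv_X]
  rw [Finset.sum_eq_zero (fun i _ => by simp), zero_add]
  rw [Finset.sum_eq_single j]
  · simp
  · intro i _ hi
    rw [Pi.single_eq_of_ne (by simpa using hi), zero_mul]
  · intro h; exact absurd (Finset.mem_univ j) h

private theorem pderiv_y (D : Datum k n r s d c) (j : Fin r) :
    pderiv (Sum.inr (Sum.inl j)) (cayF D) = rename Sum.inl (D.f j) := by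
  classical
  simp only [cayF, map_add, map_sum, pderiv_mul, pderiv_inr, mul_zero, add_zero, pderiv_X]
  have h2 : ∀ x : Fin s, (Pi.single (Sum.inr (Sum.inl j)) (1 : MvPolynomial (Vr n r s) k) :
      Vr n r s → MvPolynomial (Vr n r s) k) (Sum.inr (Sum.inr x)) = 0 := by
    intro x
    exact Pi.single_eq_of_ne (by simp) _
  simp only [h2, zero_mul, Finset.sum_const_zero, add_zero]
  rw [Finset.sum_eq_single j]
  · simp
  · intro i _ hi
    rw [Pi.single_eq_of_ne (by simpa using hi), zero_mul]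
  · intro h; exact absurd (Finset.mem_univ j) h

private theorem pderiv_x (D : Datum k n r s d c) (v : Fin (n + 1)) :
    pderiv (Sum.inl v) (cayF D) = ∑ i, X (Sum.inr (Sum.inl i)) * rename Sum.inl (pderiv v (D.f i))
      + ∑ j, X (Sum.inr (Sum.inr j)) * rename Sum.inl (pderiv v (D.h j)) := by
  classical
  simp only [cayF, map_add, map_sum, pderiv_mul]
  congr 1
  · refine Finset.sum_congr rfl fun i _ => ?_
    rw [pderiv_X_of_ne (by simp), zero_mul, zero_add, pderiv_rename Sum.inl_injective]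
  · refine Finset.sum_congr rfl fun i _ => ?_
    rw [pderiv_X_of_ne (by simp), zero_mul, zero_add, pderiv_rename Sum.inl_injective]

theorem cay_unitCond (D : Datum k n r s d c) (hd : ∀ i, 1 ≤ d i) (hc : ∀ j, 1 ≤ c j)
    (K : Type*) [Field K] [Algebra k K] [IsAlgClosed K] (hN : CondN K D) :
    (cayT n d c hd hc).UnitCond (cayF D) := by
  classical
  intro a ha b hb
  rw [← Ideal.mem_radical_iff, ← vanishingIdeal_zeroLocus_eq_radical (K := K),
    mem_vanishingIdeal_iff]
  intro ζ hζ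
  rw [zeroLocus_span] at hζ
  have hg : ∀ v, aeval ζ ((cayT n d c hd hc).g (cayF D) v) = 0 := fun v => hζ _ ⟨v, rfl⟩
  obtain ⟨a, rfl⟩ : ∃ a', a = Sum.inl a' := by
    rcases a with a | a
    · exact ⟨a, rfl⟩
    · simp [cayT] at ha
  obtain ⟨b, rfl⟩ : ∃ b', b = Sum.inr b' := by
    rcases b with b | b
    · simp [cayT] at hb
    · exact ⟨b, rfl⟩
  set x : Fin (n + 1) → K := fun v => ζ (Sum.inl v) with hx
  have hren : ∀ g : MvPolynomial (Fin (n + 1)) k,
      aeval ζ (rename Sum.inl g : MvPolynomial (Vr n r s) k) = aeval x g := by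
    intro g
    rw [aeval_rename]
    rfl
  have hz : ∀ j, aeval x (D.h j) = 0 := by
    intro j
    have h := hg (Sum.inr (Sum.inr j))
    rw [CType.g, if_neg (by simp [cayT]), pderiv_z, hren] at h
    exact h
  have hy : ∀ i, ζ (Sum.inr (Sum.inl i)) * aeval x (D.f i) = 0 := by
    intro i
    have h := hg (Sum.inr (Sum.inl i))
    rw [CType.g, if_pos (by simp [cayT]), pderiv_y, map_mul, aeval_X, hren] at h
    exact h
  have hxx : ∀ v, ∑ i, ζ (Sum.inr (Sum.inl i)) * aeval x (pderiv v (D.f i))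
      + ∑ j, ζ (Sum.inr (Sum.inr j)) * aeval x (pderiv v (D.h j)) = 0 := by
    intro v
    have h := hg (Sum.inl v)
    rw [CType.g, if_neg (by simp [cayT]), pderiv_x] at h
    simpa only [map_add, map_sum, map_mul, aeval_X, hren] using h
  rw [map_mul, aeval_X, aeval_X]
  by_cases hx0 : x = 0
  · have : ζ (Sum.inl a) = 0 := congrFun hx0 a
    rw [this, zero_mul]
  · have hli := hN x hx0 hz
    rw [Fintype.linearIndependent_iff] at hli
    have hyz : ∀ i, aeval x (D.f i) ≠ 0 → ζ (Sum.inr (Sum.inl i)) = 0 := by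
      intro i hi
      exact (mul_eq_zero.mp (hy i)).resolve_right hi
    have hall := hli (Sum.elim (fun j => ζ (Sum.inr (Sum.inr j)))
      (fun i => ζ (Sum.inr (Sum.inl i.1)))) (by
        funext v
        rw [Fintype.sum_sum_type]
        simp only [Sum.elim_inl, Sum.elim_inr, Pi.add_apply, Finset.sum_apply, Pi.smul_apply,
          smul_eq_mul, Pi.zero_apply]
        refine Eq.trans ?_ (hxx v)
        rw [add_comm]
        congr 1
        rw [← Fintype.sum_subtype_add_sum_subtype (fun i => aeval x (D.f i) = 0)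
          (fun i => ζ (Sum.inr (Sum.inl i)) * aeval x (pderiv v (D.f i)))]
        rw [show ∑ i : {i // ¬ aeval x (D.f i) = 0},
            ζ (Sum.inr (Sum.inl i.1)) * aeval x (pderiv v (D.f i.1)) = 0 from
          Finset.sum_eq_zero fun i _ => by rw [hyz i.1 i.2, zero_mul], add_zero])
    suffices hb0 : ζ (Sum.inr b) = 0 by rw [hb0, mul_zero]
    rcases b with b | b
    · by_cases hfb : aeval x (D.f b) = 0
      · exact hall (Sum.inr ⟨b, hfb⟩)
      · exact hyz b hfb
    · exact hall (Sum.inl b)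

theorem cay_dlog (n : ℕ) (d : Fin r → ℕ) (c : Fin s → ℕ) (hd : ∀ i, 1 ≤ d i)
    (hc : ∀ j, 1 ≤ c j) : (cayT n d c hd hc).dlog = ∑ i, (d i : ℤ) := by
  classical
  unfold CType.dlog
  simp only [cayT]
  rw [Finset.sum_image (by intro a _ b _ h; exact Sum.inl_injective (Sum.inr_injective h))]
  simp

theorem cay_card (n r s : ℕ) : Fintype.card (Vr n r s) = n + 1 + (r + s) := by
  simp [Vr]

end

end HN
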