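import Pool.Agent.HN.EulX

/-! # HN/CechLES : from `Λ^a Q` to `Ω^a` (module HN-C9)

PLAN.  `mp`-wise application of `euX` to cochains commutes with `ce` (`mp_ce`).  Lifting: for
`μ ∈ OmCoch D (a-1) l p` there is `ν ∈ LamCoch k n r a l p` with `mp euX ν - μ ∈ RelCoch D (a-1) l p`
(`euX_lift` for every `T` with `|T| = p`, `T ≠ ∅`).
`om_vanish`, by induction on `a` (natural number `a.toNat`, `a < 0`: everything is `0`):
`ω ∈ OmZ a p ≤ LamZ a p`, `ω = ce λ + rel`, `λ ∈ LamCoch a (p-1)`.  `euX λ` lies in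
`OmZ (a-1) (p-1)` (`euX ω ∈ Rel`, `euX rel ∈ Rel`, `euX euX = 0`); if `p - 1 ≥ 1`, by induction
`euX λ = ce μ + rel`, `μ ∈ OmCoch (a-1) (p-2)`; if `p - 1 = 0`, `λ = 0`, `μ = 0`.  Lift
`μ = euX ν + rel`; `λ' = λ - ce ν` satisfies `euX λ' ∈ Rel`, so `λ' ∈ OmCoch a (p-1)`,
`ce λ' = ce λ`, `ω ∈ OmB`.
`om_top`: the inclusion `OmZ a p → LamZ a p` induces an isomorphism of the quotients.  Injective: the
same argument.  Surjective: `λ ∈ LamZ a p`: `euX λ ∈ OmZ (a-1) p`, by `om_vanish`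
`euX λ = ce μ + rel`, `μ ∈ OmCoch (a-1) (p-1)`, lift `μ = euX ν + rel`, `λ - ce ν ∈ OmZ a p`.
-/

open MvPolynomial

namespace HN

section
variable {k : Type*} [Field k] {n r s : ℕ} {d : Fin r → ℕ} {c : Fin s → ℕ}

/-- the Euler contraction on cochains -/
private noncomputable def EE (k : Type*) [Field k] (n r : ℕ) (d : Fin r → ℕ) :
    (Finset (Fin (n + 1)) → WForm k n r) →ₗ[k] (Finset (Fin (n + 1)) → WForm k n r) :=
  mp k (euX d)

private theorem EE_apply (ω : Finset (Fin (n + 1)) → WForm k n r) (T : Finset (Fin (n + 1))) :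
    EE k n r d ω T = euX d (ω T) := rfl

private theorem EE_ce (ω : Finset (Fin (n + 1)) → WForm k n r) :
    EE k n r d (ce k Finset.univ ω) = ce k Finset.univ (EE k n r d ω) := mp_ce _ _ _

private theorem EE_EE (ω : Finset (Fin (n + 1)) → WForm k n r) :
    EE k n r d (EE k n r d ω) = 0 := by
  funext T
  rw [EE_apply, EE_apply, euX_euX]
  rfl

private theorem mem_Lam {a l p : ℤ} {ω : Finset (Fin (n + 1)) → WForm k n r} :
    ω ∈ LamCoch k n r a l p ↔
      ∀ T, ω T ∈ Sec k n r T a l ∧ ((T.card : ℤ) ≠ p ∨ T = ∅ → ω T = 0) := Iff.rfl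

private theorem mem_Relc {D : Datum k n r s d c} {a l p : ℤ}
    {ω : Finset (Fin (n + 1)) → WForm k n r} : ω ∈ RelCoch D a l p ↔
      ∀ T, ω T ∈ Rel D T a l ∧ ((T.card : ℤ) ≠ p ∨ T = ∅ → ω T = 0) := Iff.rfl

private theorem mem_Om {D : Datum k n r s d c} {a l p : ℤ}
    {ω : Finset (Fin (n + 1)) → WForm k n r} : ω ∈ OmCoch D a l p ↔
      ω ∈ LamCoch k n r a l p ∧ EE k n r d ω ∈ RelCoch D (a - 1) l p := by
  constructor
  · intro h
    refine ⟨fun T => ⟨(h T).1.1, (h T).2⟩, fun T => ⟨(h T).1.2, fun h1 => ?_⟩⟩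
    rw [EE_apply, (h T).2 h1, map_zero]
  · rintro ⟨h1, h2⟩ T
    exact ⟨⟨(h1 T).1, (h2 T).1⟩, (h1 T).2⟩

private theorem EE_Lam {a l p : ℤ} {ω : Finset (Fin (n + 1)) → WForm k n r}
    (h : ω ∈ LamCoch k n r a l p) : EE k n r d ω ∈ LamCoch k n r (a - 1) l p := by
  intro T
  refine ⟨euX_sec (h T).1, fun h1 => ?_⟩
  rw [EE_apply, (h T).2 h1, map_zero]

private theorem EE_Rel (D : Datum k n r s d c) {a l p : ℤ}
    {ω : Finset (Fin (n + 1)) → WForm k n r}
    (h : ω ∈ RelCoch D a l p) : EE k n r d ω ∈ RelCoch D (a - 1) l p := by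
  intro T
  refine ⟨euX_rel D (h T).1, fun h1 => ?_⟩
  rw [EE_apply, (h T).2 h1, map_zero]

private theorem EE_Om (D : Datum k n r s d c) {a l p : ℤ}
    {ω : Finset (Fin (n + 1)) → WForm k n r}
    (h : ω ∈ LamCoch k n r a l p) : EE k n r d ω ∈ OmCoch D (a - 1) l p := by
  rw [mem_Om]
  refine ⟨EE_Lam h, ?_⟩
  rw [EE_EE]
  exact Submodule.zero_mem _

private theorem ce_vanish {p : ℤ} {ω : Finset (Fin (n + 1)) → WForm k n r}
    (h : ∀ T : Finset (Fin (n + 1)), (T.card : ℤ) ≠ p ∨ T = ∅ → ω T = 0)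
    (T : Finset (Fin (n + 1))) (hT : (T.card : ℤ) ≠ p + 1 ∨ T = ∅) :
    ce k Finset.univ ω T = 0 := by
  rw [ce_apply]
  apply Finset.sum_eq_zero
  intro v hv
  have hv' : v ∈ T := (Finset.mem_inter.1 hv).1
  rcases hT with h1 | h1
  · rw [h _ (Or.inl ?_), smul_zero]
    intro h2
    apply h1
    have h3 := Finset.card_erase_add_one hv'
    rw [← h3]
    push_cast
    rw [h2]
  · subst h1
    simp at hv'

private theorem ce_Lam {a l p : ℤ} {ω : Finset (Fin (n + 1)) → WForm k n r}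
    (h : ω ∈ LamCoch k n r a l p) : ce k Finset.univ ω ∈ LamCoch k n r a l (p + 1) := by
  intro T
  refine ⟨?_, ce_vanish (fun T => (h T).2) T⟩
  rw [ce_apply]
  refine Submodule.sum_mem _ fun v _ => ?_
  exact zsmul_mem (sec_mono (Finset.erase_subset v T) a l (h _).1) _

private theorem ce_Rel (D : Datum k n r s d c) {a l p : ℤ}
    {ω : Finset (Fin (n + 1)) → WForm k n r}
    (h : ω ∈ RelCoch D a l p) : ce k Finset.univ ω ∈ RelCoch D a l (p + 1) := by
  intro T
  refine ⟨?_, ce_vanish (fun T => (h T).2) T⟩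
  rw [ce_apply]
  refine Submodule.sum_mem _ fun v _ => ?_
  exact zsmul_mem (rel_mono D (Finset.erase_subset v T) a l (h _).1) _

private theorem lift_coch (D : Datum k n r s d c) {a l p : ℤ}
    {μ : Finset (Fin (n + 1)) → WForm k n r} (h : μ ∈ OmCoch D (a - 1) l p) :
    ∃ ν ∈ LamCoch k n r a l p, EE k n r d ν - μ ∈ RelCoch D (a - 1) l p := by
  classical
  have h1 : ∀ T : Finset (Fin (n + 1)), ∃ ζ ∈ Sec k n r T a l,
      ((T.card : ℤ) ≠ p ∨ T = ∅ → ζ = 0) ∧ euX d ζ - μ T ∈ Rel D T (a - 1) l := by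
    intro T
    by_cases hT : (T.card : ℤ) ≠ p ∨ T = ∅
    · refine ⟨0, Submodule.zero_mem _, fun _ => rfl, ?_⟩
      rw [map_zero, (h T).2 hT, sub_zero]
      exact Submodule.zero_mem _
    · have hne : T.Nonempty := by
        rw [Finset.nonempty_iff_ne_empty]
        exact fun h0 => hT (Or.inr h0)
      obtain ⟨ζ, hζ1, hζ2⟩ := euX_lift D hne (h T).1
      rw [sub_add_cancel] at hζ1
      refine ⟨ζ, hζ1, fun h0 => absurd h0 hT, ?_⟩
      have h3 := Submodule.neg_mem _ hζ2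
      rwa [neg_sub] at h3
  choose ν hν1 hν2 hν3 using h1
  refine ⟨ν, fun T => ⟨hν1 T, hν2 T⟩, fun T => ⟨hν3 T, fun hT => ?_⟩⟩
  rw [Pi.sub_apply, EE_apply, hν2 T hT, (h T).2 hT, map_zero, sub_zero]

/-- the common step: given `λ` with `E λ ∈ OmB`, change `λ` by a coboundary -/
private theorem fix_step (D : Datum k n r s d c) {a l p : ℤ}
    {x : Finset (Fin (n + 1)) → WForm k n r} (hx : x ∈ LamCoch k n r a l p)
    (hE : EE k n r d x ∈ OmB D (a - 1) l p) :
    ∃ ν ∈ LamCoch k n r a l (p - 1), x - ce k Finset.univ ν ∈ OmCoch D a l p := by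
  unfold OmB at hE
  obtain ⟨y, hy, ρ, hρ, hsum⟩ := Submodule.mem_sup.1 hE
  obtain ⟨μ, hμ, rfl⟩ := Submodule.mem_map.1 hy
  obtain ⟨ν, hν1, hν2⟩ := lift_coch D hμ
  refine ⟨ν, hν1, ?_⟩
  have hce := ce_Lam hν1
  rw [sub_add_cancel] at hce
  rw [mem_Om]
  refine ⟨Submodule.sub_mem _ hx hce, ?_⟩
  have h1 : EE k n r d (x - ce k Finset.univ ν) =
      ρ - ce k Finset.univ (EE k n r d ν - μ) := by
    rw [map_sub, map_sub, EE_ce, ← hsum]
    abel
  rw [h1]
  have h2 := ce_Rel D hν2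
  rw [sub_add_cancel] at h2
  exact Submodule.sub_mem _ hρ h2

/-- `ω ∈ OmCoch` which is a coboundary in `Λ` is a coboundary in `Ω` -/
private theorem om_core (D : Datum k n r s d c) {a l p : ℤ}
    (hOm : 1 ≤ p - 1 → OmZ D (a - 1) l (p - 1) ≤ OmB D (a - 1) l (p - 1))
    {ω : Finset (Fin (n + 1)) → WForm k n r} (hω : ω ∈ OmCoch D a l p)
    (hB : ω ∈ LamB D a l p) : ω ∈ OmB D a l p := by
  unfold LamB at hB
  obtain ⟨y, hy, ρ, hρ, hsum⟩ := Submodule.mem_sup.1 hB
  obtain ⟨x, hx, rfl⟩ := Submodule.mem_map.1 hy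
  rcases lt_or_ge (p - 1) 1 with hp | hp
  · have hx0 : x = 0 := by
      funext T
      apply (hx T).2
      by_cases h : (T.card : ℤ) = p - 1
      · right
        rw [← Finset.card_eq_zero]
        omega
      · exact Or.inl h
    subst hx0
    rw [map_zero, zero_add] at hsum
    subst hsum
    exact Submodule.mem_sup_right hρ
  · have hEx : EE k n r d x ∈ OmB D (a - 1) l (p - 1) := by
      apply hOm hp
      refine ⟨EE_Om D hx, ?_⟩
      show ce k Finset.univ (EE k n r d x) ∈ RelCoch D (a - 1) l (p - 1 + 1)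
      rw [sub_add_cancel, ← EE_ce]
      have h1 : ce k Finset.univ x = ω - ρ := by
        rw [← hsum]
        abel
      rw [h1, map_sub]
      exact Submodule.sub_mem _ (mem_Om.1 hω).2 (EE_Rel D hρ)
    obtain ⟨ν, hν1, hν2⟩ := fix_step D hx hEx
    have h2 : ce k Finset.univ (x - ce k Finset.univ ν) = ce k Finset.univ x := by
      rw [map_sub, ce_ce, sub_zero]
    rw [← hsum, ← h2]
    exact Submodule.add_mem_sup (Submodule.mem_map_of_mem hν2) hρ

private theorem omZ_le (D : Datum k n r s d c) (a l p : ℤ) : OmZ D a l p ≤ LamZ D a l p := by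
  intro ω hω
  exact ⟨(mem_Om.1 hω.1).1, hω.2⟩

private theorem omB_le (D : Datum k n r s d c) (a l p : ℤ) : OmB D a l p ≤ LamB D a l p := by
  apply sup_le_sup_right
  apply Submodule.map_mono
  intro ω hω
  exact (mem_Om.1 hω).1

theorem om_vanish (D : Datum k n r s d c) (l : ℤ) (m : ℤ)
    (hV : ∀ a p : ℤ, 1 ≤ p → p + a < m → LamZ D a l p ≤ LamB D a l p)
    {a p : ℤ} (hp : 1 ≤ p) (hap : p + a < m) : OmZ D a l p ≤ OmB D a l p := by
  have key : ∀ (N : ℕ) (a : ℤ), a < N → ∀ p : ℤ, 1 ≤ p → p + a < m →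
      OmZ D a l p ≤ OmB D a l p := by
    intro N
    induction N with
    | zero =>
      intro a ha p _ _ ω hω
      have h0 : ω = 0 := by
        funext T
        have h1 := (mem_Om.1 hω.1).1 T |>.1
        rw [sec_neg (by simpa using ha)] at h1
        exact (Submodule.mem_bot k).1 h1
      rw [h0]
      exact Submodule.zero_mem _
    | succ N ih =>
      intro a ha p hp hap ω hω
      push_cast at ha
      exact om_core D (fun h => ih (a - 1) (by linarith) (p - 1) h (by linarith)) hω.1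
        (hV a p hp hap (omZ_le D a l p hω))
  obtain ⟨N, hN⟩ : ∃ N : ℕ, a < N := by
    refine ⟨(a + 1).toNat, ?_⟩
    have := Int.self_le_toNat (a + 1)
    linarith
  exact key N a hN p hp hap

theorem om_top (D : Datum k n r s d c) (l : ℤ) (m : ℤ)
    (hV : ∀ a p : ℤ, 1 ≤ p → p + a < m → LamZ D a l p ≤ LamB D a l p)
    {a p : ℤ} (hp : 1 ≤ p) (hap : p + a = m) : hcoh D (p - 1) a l = lamcoh D a l p := by
  have h00 : hcoh D (p - 1) a l =
      Module.finrank k (↥(OmZ D a l p) ⧸ (OmB D a l p).submoduleOf (OmZ D a l p)) := by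
    unfold hcoh
    rw [sub_add_cancel]
    rfl
  rw [h00]
  unfold lamcoh
  have hle := omZ_le D a l p
  let f : ↥(OmZ D a l p) →ₗ[k] (↥(LamZ D a l p) ⧸ (LamB D a l p).submoduleOf (LamZ D a l p)) :=
    (Submodule.mkQ _) ∘ₗ Submodule.inclusion hle
  have hker : LinearMap.ker f = (OmB D a l p).submoduleOf (OmZ D a l p) := by
    ext ω
    rw [LinearMap.mem_ker]
    show Submodule.Quotient.mk _ = (0 : _ ⧸ _) ↔ (ω : Finset (Fin (n + 1)) → WForm k n r) ∈ OmB D a l p
    rw [Submodule.Quotient.mk_eq_zero]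
    show (ω : Finset (Fin (n + 1)) → WForm k n r) ∈ LamB D a l p ↔ _
    constructor
    · intro h
      exact om_core D (fun h1 => om_vanish D l m hV h1 (by linarith)) ω.2.1 h
    · intro h
      exact omB_le D a l p h
  have hsurj : Function.Surjective f := by
    intro y
    obtain ⟨x, rfl⟩ := Submodule.mkQ_surjective _ y
    have hx := x.2
    have hEx : EE k n r d x.1 ∈ OmB D (a - 1) l p := by
      apply om_vanish D l m hV hp (by linarith)
      refine ⟨EE_Om D hx.1, ?_⟩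
      show ce k Finset.univ (EE k n r d x.1) ∈ RelCoch D (a - 1) l (p + 1)
      rw [← EE_ce]
      exact EE_Rel D hx.2
    obtain ⟨ν, hν1, hν2⟩ := fix_step D hx.1 hEx
    have h2 : ce k Finset.univ (x.1 - ce k Finset.univ ν) = ce k Finset.univ x.1 := by
      rw [map_sub, ce_ce, sub_zero]
    refine ⟨⟨x.1 - ce k Finset.univ ν, hν2, ?_⟩, ?_⟩
    · show ce k Finset.univ (x.1 - ce k Finset.univ ν) ∈ RelCoch D a l (p + 1)
      rw [h2]
      exact hx.2
    · show Submodule.Quotient.mk _ = Submodule.Quotient.mk _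
      rw [Submodule.Quotient.eq]
      show (x.1 - ce k Finset.univ ν) - x.1 ∈ LamB D a l p
      have h3 : (x.1 - ce k Finset.univ ν) - x.1 = ce k Finset.univ (-ν) := by
        rw [map_neg]
        abel
      rw [h3]
      exact Submodule.mem_sup_left (Submodule.mem_map_of_mem (Submodule.neg_mem _ hν1))
  have e1 := (Submodule.quotEquivOfEq _ _ hker.symm).trans (f.quotKerEquivOfSurjective hsurj)
  exact e1.finrank_eq

end

end HN
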