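import Pool.Agent.HN.PPsi

/-! # HN/Cmp : composition of the operators `ψ ∘ F̂_l` (module HND-26)

PLAN.  `coeff_sc`: `MvPowerSeries.coeff_rescale` (product of the scaling factors over `v`).
`sc_ems`, `expand_ems`, `map_ems`: coefficientwise (`coeff_expand_smul`, `coeff_expand_of_not_dvd`; for
`μ ≠ 0` the sum over `n ≤ tN m` in `ems` runs over all `n` with `n • μ = m`).
`psi_expand`: coefficient at `m`: `∑_{a + b = q m + β} (expand Q)_a K_b`, only `a = q • a'` counts, and
`q a' ≤ q m + β ↔ a' ≤ m` (`β v < q`).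
`psi_one_sc`: `wN (p • m + fs β) = p wN m + wN (fs β) = wN m + (p-1) wN m + wN (fs β)`.
`comp_psi`: induction on `L`: `psi C (p^(L+1)) 1 (be p τ (L+1)) = psi C p 1 (τ L) ∘ psi C (p^L) 1 (be p τ L)`
(`psi_psi`), `hd (L+1) = hd L * expand (p^L) (sc (P L))`, `psi_expand` (with `be p τ L v < p^L`),
`psi_one_sc`.
`comp_coeff`: first in the polynomial ring `Polynomial R` with `t = X` (series `map C (P l)`): take
`G = monomial m 1` in `comp_psi` and the coefficient at `m`: the left side is
`X^(wN m) * coeff (p^L m + be - m) hd`, cancel `X^(wN m)` (`X` is not a zero divisor); then apply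
`MvPowerSeries.map (Polynomial.evalRingHom t)`, `AlP_map`, `hd_map`.
-/

open MvPolynomial

namespace HN

section
variable {ι : Type*} [Fintype ι] [DecidableEq ι] {R : Type*} [CommRing R]

/-- composite on power series -/
noncomputable def AlP (C : CType ι) (p : ℕ) (ϖ : R) (P : ℕ → MvPowerSeries ι R)
    (τ : ℕ → ι → ℕ) : ℕ → MvPowerSeries ι R → MvPowerSeries ι R
  | 0, G => G
  | L + 1, G => psi C p ϖ (τ L) (P L * AlP C p ϖ P τ L G)

/-- `β^{(L)} = ∑_{l<L} p^l τ_l` -/
def be (p : ℕ) (τ : ℕ → ι → ℕ) (L : ℕ) (v : ι) : ℕ := ∑ l ∈ Finset.range L, p ^ l * τ l v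

/-- scaling by `t^wt` -/
noncomputable def sc (C : CType ι) (t : R) : MvPowerSeries ι R →+* MvPowerSeries ι R :=
  MvPowerSeries.rescale (fun v => if v ∈ C.Xs then 1 else t)

/-- `∏_{l<L} (sc F_l)(X^{p^l})` -/
noncomputable def hd (C : CType ι) {p : ℕ} (hp : p ≠ 0) (t : R) (P : ℕ → MvPowerSeries ι R)
    (L : ℕ) : MvPowerSeries ι R :=
  ∏ l ∈ Finset.range L, MvPowerSeries.expand (p ^ l) (pow_ne_zero l hp) (sc C t (P l))

theorem coeff_sc (C : CType ι) (t : R) (P : MvPowerSeries ι R) (m : ι →₀ ℕ) :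
    MvPowerSeries.coeff m (sc C t P) = t ^ wN C m * MvPowerSeries.coeff m P := by
  rw [sc, MvPowerSeries.coeff_rescale]
  congr 1
  rw [Finsupp.prod_fintype _ _ (fun v => pow_zero _), wN, ← Finset.prod_pow_eq_pow_sum,
    ← Finset.prod_mul_prod_compl C.Xs]
  rw [Finset.prod_eq_one, one_mul]
  · apply Finset.prod_congr rfl
    intro v hv
    rw [if_neg (Finset.mem_compl.1 hv)]
  · intro v hv
    rw [if_pos hv, one_pow]

theorem sc_ems (C : CType ι) (t : R) {S : Type*} [CommRing S] [Algebra S R] (E : PowerSeries S)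
    (a : R) {μ : ι →₀ ℕ} (hμ : μ ≠ 0) : sc C t (ems E a μ) = ems E (t ^ wN C μ * a) μ := by
  ext m
  rw [coeff_sc, coeff_ems, coeff_ems, Finset.mul_sum]
  apply Finset.sum_congr rfl
  intro n _
  split_ifs with h
  · rw [← h, wN_smul, mul_pow, ← pow_mul, mul_comm n]
    ring
  · rw [mul_zero]

private theorem tN_smul (k : ℕ) (m : ι →₀ ℕ) : tN (k • m) = k * tN m := by
  simp [tN, Finset.mul_sum]

private theorem tN_pos {m : ι →₀ ℕ} (hm : m ≠ 0) : 1 ≤ tN m := by
  by_contra h
  apply hm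
  ext v
  have h1 : tN m = 0 := by omega
  rw [tN, Finset.sum_eq_zero_iff] at h1
  exact h1 v (Finset.mem_univ v)

/-- divisibility of an exponent -/
private theorem dvd_dec {n : ℕ} (m : ι →₀ ℕ) (h : ∀ v, n ∣ m v) : ∃ m', m = n • m' := by
  choose c hc using h
  exact ⟨fs c, by ext v; simp [hc v]⟩

theorem expand_ems {n : ℕ} (hn : n ≠ 0) {S : Type*} [CommRing S] [Algebra S R]
    (E : PowerSeries S) (a : R) {μ : ι →₀ ℕ} (hμ : μ ≠ 0) :
    MvPowerSeries.expand n hn (ems E a μ) = ems E a (n • μ) := by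
  ext m
  by_cases h : ∀ v, n ∣ m v
  · obtain ⟨m', rfl⟩ := dvd_dec m h
    rw [MvPowerSeries.coeff_expand_smul, coeff_ems, coeff_ems, tN_smul]
    have hle : tN m' + 1 ≤ n * tN m' + 1 := by
      have : 1 * tN m' ≤ n * tN m' := Nat.mul_le_mul_right _ (Nat.one_le_iff_ne_zero.2 hn)
      omega
    have hiff : ∀ k : ℕ, k • n • μ = n • m' ↔ k • μ = m' := by
      intro k
      rw [smul_comm k n μ, nsmul_right_inj hn]
    simp_rw [hiff]
    apply Finset.sum_subset
    · intro k hk
      rw [Finset.mem_range] at hk ⊢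
      omega
    · intro k _ hk2
      rw [if_neg]
      intro h1
      apply hk2
      rw [Finset.mem_range, ← h1, tN_smul]
      have := Nat.mul_le_mul_left k (tN_pos hμ)
      omega
  · have h' := h
    push Not at h'
    obtain ⟨v, hv⟩ := h'
    rw [MvPowerSeries.coeff_expand_of_not_dvd n hn _ hv, coeff_ems]
    symm
    apply Finset.sum_eq_zero
    intro k _
    rw [if_neg]
    intro h1
    apply h
    intro w
    rw [← h1, smul_comm]
    exact ⟨(k • μ) w, by simp⟩

theorem map_ems {S R' : Type*} [CommRing S] [CommRing R'] [Algebra S R] [Algebra S R']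
    (φ : R →ₐ[S] R') (E : PowerSeries S) (a : R) (μ : ι →₀ ℕ) :
    MvPowerSeries.map (φ : R →+* R') (ems E a μ) = ems E (φ a) μ := by
  ext m
  rw [MvPowerSeries.coeff_map, coeff_ems, coeff_ems, map_sum]
  apply Finset.sum_congr rfl
  intro n _
  split_ifs with h
  · simp
  · simp

theorem psi_expand (C : CType ι) {q : ℕ} (hq : q ≠ 0) {β : ι → ℕ} (hβ : ∀ v, β v < q)
    (Q K : MvPowerSeries ι R) :
    psi C q 1 β (MvPowerSeries.expand q hq Q * K) = Q * psi C q 1 β K := by
  ext m
  rw [coeff_psi, one_pow, one_mul, MvPowerSeries.coeff_mul, MvPowerSeries.coeff_mul]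
  symm
  apply Finset.sum_of_injOn (fun x : (ι →₀ ℕ) × (ι →₀ ℕ) => (q • x.1, q • x.2 + fs β))
  · rintro ⟨a, b⟩ _ ⟨a', b'⟩ _ h
    simp only [Prod.mk.injEq] at h
    obtain ⟨h1, h2⟩ := h
    rw [nsmul_right_inj hq] at h1
    rw [add_left_inj, nsmul_right_inj hq] at h2
    rw [h1, h2]
  · rintro ⟨a, b⟩ h
    simp only [Finset.mem_coe, Finset.HasAntidiagonal.mem_antidiagonal] at h ⊢
    rw [← h, smul_add, add_assoc]
  · rintro ⟨a, b⟩ h hn
    rw [Finset.HasAntidiagonal.mem_antidiagonal] at h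
    simp only at h ⊢
    by_cases hd : ∀ v, q ∣ a v
    · exfalso
      obtain ⟨a', rfl⟩ := dvd_dec a hd
      apply hn
      have hle : a' ≤ m := by
        intro v
        have h1 : q * a' v + b v = q * m v + β v := by
          have := DFunLike.congr_fun h v
          simpa using this
        have h2 := hβ v
        by_contra hlt
        push Not at hlt
        have h3 : q * (m v + 1) ≤ q * a' v := Nat.mul_le_mul_left _ hlt
        rw [mul_add, mul_one] at h3
        omega
      refine ⟨(a', m - a'), ?_, ?_⟩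
      · simp only [Finset.mem_coe, Finset.HasAntidiagonal.mem_antidiagonal]
        exact add_tsub_cancel_of_le hle
      · simp only [Prod.mk.injEq, true_and]
        have h4 : q • m = q • a' + q • (m - a') := by
          rw [← smul_add, add_tsub_cancel_of_le hle]
        rw [h4, add_assoc] at h
        exact (add_left_cancel h).symm
    · push Not at hd
      obtain ⟨v, hv⟩ := hd
      rw [MvPowerSeries.coeff_expand_of_not_dvd q hq _ hv, zero_mul]
  · rintro ⟨a, b⟩ _
    simp only
    rw [MvPowerSeries.coeff_expand_smul, coeff_psi, one_pow, one_mul]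

theorem psi_one_sc (C : CType ι) {p : ℕ} (hp : 1 ≤ p) (t : R) (β : ι → ℕ)
    (G : MvPowerSeries ι R) :
    psi C p 1 β (sc C t G) = t ^ wN C (fs β) • sc C t (psi C p (t ^ (p - 1)) β G) := by
  ext m
  obtain ⟨k, rfl⟩ : ∃ k, p = k + 1 := ⟨p - 1, by omega⟩
  rw [coeff_psi, one_pow, one_mul, coeff_sc, wN_add, wN_smul, map_smul, coeff_sc, coeff_psi,
    smul_eq_mul, Nat.add_sub_cancel, ← pow_mul]
  ring

theorem be_lt {p : ℕ} {τ : ℕ → ι → ℕ} (hτ : ∀ l v, τ l v < p) (L : ℕ) (v : ι) :
    be p τ L v < p ^ L := by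
  induction L with
  | zero => simp [be]
  | succ L ih =>
    have h1 : be p τ (L + 1) v = be p τ L v + p ^ L * τ L v := by
      simp [be, Finset.sum_range_succ]
    have h2 := hτ L v
    have h3 : p ^ L * (τ L v + 1) ≤ p ^ L * p := Nat.mul_le_mul_left _ h2
    rw [h1, pow_succ]
    rw [mul_add, mul_one] at h3
    omega

private theorem psi_psi (C : CType ι) (p q : ℕ) (β τ : ι → ℕ) (G : MvPowerSeries ι R) :
    psi C p 1 τ (psi C q 1 β G) = psi C (q * p) 1 (fun v => β v + q * τ v) G := by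
  ext m
  rw [coeff_psi, coeff_psi, coeff_psi]
  simp only [one_pow, one_mul]
  congr 1
  have : q • (p • m + fs τ) + fs β = (q * p) • m + fs (fun v => β v + q * τ v) := by
    ext v
    simp
    ring
  rw [this]

theorem comp_psi (C : CType ι) {p : ℕ} (hp : p ≠ 0) (t : R) (P : ℕ → MvPowerSeries ι R)
    {τ : ℕ → ι → ℕ} (hτ : ∀ l v, τ l v < p) (L : ℕ) (G : MvPowerSeries ι R) :
    psi C (p ^ L) 1 (be p τ L) (hd C hp t P L * sc C t G)
      = t ^ (∑ l ∈ Finset.range L, wN C (fs (τ l))) • sc C t (AlP C p (t ^ (p - 1)) P τ L G) := by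
  induction L with
  | zero =>
    ext m
    have : (1 : ℕ) • m + fs (be p τ 0) = m := by
      ext v
      simp [be]
    simp only [hd, Finset.range_zero, Finset.prod_empty, one_mul, Finset.sum_empty, pow_zero,
      one_smul, AlP]
    rw [coeff_psi, one_pow, one_mul, this]
  | succ L ih =>
    have h1 : hd C hp t P (L + 1) * sc C t G =
        MvPowerSeries.expand (p ^ L) (pow_ne_zero L hp) (sc C t (P L)) *
          (hd C hp t P L * sc C t G) := by
      rw [hd, Finset.prod_range_succ, hd]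
      ring
    have h2 : be p τ (L + 1) = fun v => be p τ L v + p ^ L * τ L v := by
      funext v
      simp [be, Finset.sum_range_succ]
    rw [h2, pow_succ, ← psi_psi, h1, psi_expand C (pow_ne_zero L hp) (be_lt hτ L), ih,
      Algebra.mul_smul_comm, ← map_mul, map_smul,
      psi_one_sc C (Nat.one_le_iff_ne_zero.2 hp), smul_smul, ← pow_add, Finset.sum_range_succ, AlP]

private theorem map_psi {R' : Type*} [CommRing R'] (φ : R →+* R') (C : CType ι) (p : ℕ) (ϖ : R)
    (β : ι → ℕ) (G : MvPowerSeries ι R) :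
    MvPowerSeries.map φ (psi C p ϖ β G) = psi C p (φ ϖ) β (MvPowerSeries.map φ G) := by
  ext m
  rw [MvPowerSeries.coeff_map, coeff_psi, coeff_psi, MvPowerSeries.coeff_map, map_mul, map_pow]

private theorem map_sc {R' : Type*} [CommRing R'] (φ : R →+* R') (C : CType ι) (t : R)
    (G : MvPowerSeries ι R) :
    MvPowerSeries.map φ (sc C t G) = sc C (φ t) (MvPowerSeries.map φ G) := by
  ext m
  rw [MvPowerSeries.coeff_map, coeff_sc, coeff_sc, MvPowerSeries.coeff_map, map_mul, map_pow]

theorem AlP_map {R' : Type*} [CommRing R'] (φ : R →+* R') (C : CType ι) (p : ℕ) (ϖ : R)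
    (P : ℕ → MvPowerSeries ι R) (τ : ℕ → ι → ℕ) (L : ℕ) (G : MvPowerSeries ι R) :
    MvPowerSeries.map φ (AlP C p ϖ P τ L G)
      = AlP C p (φ ϖ) (fun l => MvPowerSeries.map φ (P l)) τ L (MvPowerSeries.map φ G) := by
  induction L with
  | zero => rfl
  | succ L ih =>
    rw [AlP, AlP, map_psi, map_mul, ih]

theorem hd_map {R' : Type*} [CommRing R'] (φ : R →+* R') (C : CType ι) {p : ℕ} (hp : p ≠ 0)
    (t : R) (P : ℕ → MvPowerSeries ι R) (L : ℕ) :
    MvPowerSeries.map φ (hd C hp t P L)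
      = hd C hp (φ t) (fun l => MvPowerSeries.map φ (P l)) L := by
  rw [hd, hd, map_prod]
  apply Finset.prod_congr rfl
  intro l _
  rw [MvPowerSeries.map_expand, map_sc]

private theorem comp_coeff_aux (C : CType ι) {p : ℕ} (hp : p ≠ 0) (t : R) (ht : IsRegular t)
    (P : ℕ → MvPowerSeries ι R)
    {τ : ℕ → ι → ℕ} (hτ : ∀ l v, τ l v < p) (L : ℕ) (m : ι →₀ ℕ) :
    MvPowerSeries.coeff ((p ^ L - 1) • m + fs (be p τ L)) (hd C hp t P L)
      = t ^ (∑ l ∈ Finset.range L, wN C (fs (τ l))) *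
        MvPowerSeries.coeff m (AlP C p (t ^ (p - 1)) P τ L (MvPowerSeries.monomial m 1)) := by
  have h := congrArg (MvPowerSeries.coeff m) (comp_psi C hp t P hτ L (MvPowerSeries.monomial m 1))
  have h1 : sc C t (MvPowerSeries.monomial m 1) = MvPowerSeries.monomial m (t ^ wN C m) := by
    ext n
    rw [coeff_sc, MvPowerSeries.coeff_monomial, MvPowerSeries.coeff_monomial]
    split_ifs with hn
    · rw [hn, mul_one]
    · rw [mul_zero]
  have h2 : p ^ L • m + fs (be p τ L) = ((p ^ L - 1) • m + fs (be p τ L)) + m := by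
    have h3 : p ^ L = (p ^ L - 1) + 1 := by
      have := Nat.one_le_iff_ne_zero.2 (pow_ne_zero L hp)
      omega
    conv_lhs => rw [h3]
    rw [add_smul, one_smul]
    abel
  rw [coeff_psi, one_pow, one_mul, h1, h2, MvPowerSeries.coeff_add_mul_monomial, map_smul,
    coeff_sc, smul_eq_mul] at h
  have hr : IsRegular (t ^ wN C m) := ht.pow _
  apply hr.right
  simp only
  rw [h]
  ring

theorem comp_coeff (C : CType ι) {p : ℕ} (hp : p ≠ 0) (t : R) (P : ℕ → MvPowerSeries ι R)
    {τ : ℕ → ι → ℕ} (hτ : ∀ l v, τ l v < p) (L : ℕ) (m : ι →₀ ℕ) :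
    MvPowerSeries.coeff ((p ^ L - 1) • m + fs (be p τ L)) (hd C hp t P L)
      = t ^ (∑ l ∈ Finset.range L, wN C (fs (τ l))) *
        MvPowerSeries.coeff m (AlP C p (t ^ (p - 1)) P τ L (MvPowerSeries.monomial m 1)) := by
  have h := comp_coeff_aux C hp (Polynomial.X : Polynomial R) Polynomial.isRegular_X
    (fun l => MvPowerSeries.map Polynomial.C (P l)) hτ L m
  have hid : (Polynomial.evalRingHom t).comp Polynomial.C = RingHom.id R := by
    ext x
    simp
  have hP : ∀ l, MvPowerSeries.map (Polynomial.evalRingHom t)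
      (MvPowerSeries.map Polynomial.C (P l)) = P l := by
    intro l
    ext n
    simp
  have h2 := congrArg (Polynomial.evalRingHom t) h
  rw [← MvPowerSeries.coeff_map, hd_map, map_mul, map_pow, ← MvPowerSeries.coeff_map,
    AlP_map, map_pow, Polynomial.coe_evalRingHom, Polynomial.eval_X] at h2
  simp_rw [hP] at h2
  rw [MvPowerSeries.map_monomial, map_one] at h2
  exact h2

end

end HN
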