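import Pool.Agent.HN.Stmt

/-! # HN/Conv : the Hodge polygon as a minimum, convexity (module HN-17) -/

namespace HN

/-- values of `hpoly` at natural numbers -/
def hpolyN (N : ℕ) (h : ℕ → ℕ) (κ : ℕ) : ℕ :=
  ∑ i ∈ Finset.range (N + 1), i * min (h i) (κ - ∑ l ∈ Finset.range i, h l)

private theorem cast_sub_max (a b : ℕ) : ((a - b : ℕ) : ℝ) = max 0 ((a : ℝ) - b) := by
  rcases le_total b a with h | h
  · rw [Nat.cast_sub h, max_eq_right]
    have : (b : ℝ) ≤ a := by exact_mod_cast h
    linarith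
  · rw [Nat.sub_eq_zero_of_le h, max_eq_left]
    · simp
    · have : (a : ℝ) ≤ b := by exact_mod_cast h
      linarith

theorem hpoly_nat (N : ℕ) (h : ℕ → ℕ) (κ : ℕ) : hpoly N h κ = hpolyN N h κ := by
  unfold hpoly hpolyN
  push_cast
  refine Finset.sum_congr rfl fun i _ => ?_
  rw [cast_sub_max]
  push_cast
  rfl

private theorem abel_conv {R : Type*} [CommSemiring R] (a : ℕ → R) (N : ℕ) :
    ∑ i ∈ Finset.range (N + 1), (i : R) * a i +
      ∑ j ∈ Finset.range (N + 1), ∑ i ∈ Finset.range j, a i =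
      N * ∑ i ∈ Finset.range (N + 1), a i := by
  induction N with
  | zero => simp
  | succ N ih =>
    rw [Finset.sum_range_succ (fun i : ℕ => (i : R) * a i) (N + 1),
      Finset.sum_range_succ (fun j => ∑ i ∈ Finset.range j, a i) (N + 1),
      Finset.sum_range_succ a (N + 1)]
    calc ∑ i ∈ Finset.range (N + 1), (i : R) * a i + ((N + 1 : ℕ) : R) * a (N + 1) +
          (∑ j ∈ Finset.range (N + 1), ∑ i ∈ Finset.range j, a i + ∑ i ∈ Finset.range (N + 1), a i)
        = (∑ i ∈ Finset.range (N + 1), (i : R) * a i +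
          ∑ j ∈ Finset.range (N + 1), ∑ i ∈ Finset.range j, a i) + ((N + 1 : ℕ) : R) * a (N + 1) +
          ∑ i ∈ Finset.range (N + 1), a i := by ring
      _ = ((N + 1 : ℕ) : R) * (∑ i ∈ Finset.range (N + 1), a i + a (N + 1)) := by
          rw [ih]
          push_cast
          ring

private theorem greedy_nat (h : ℕ → ℕ) (κ j : ℕ) :
    ∑ i ∈ Finset.range j, min (h i) (κ - ∑ l ∈ Finset.range i, h l) =
      min κ (∑ i ∈ Finset.range j, h i) := by
  induction j with
  | zero => simp
  | succ j ih =>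
    rw [Finset.sum_range_succ, ih, Finset.sum_range_succ]
    omega

private theorem greedy_real (h : ℕ → ℕ) {x : ℝ} (hx : 0 ≤ x) (j : ℕ) :
    ∑ i ∈ Finset.range j, min (h i : ℝ) (max 0 (x - ∑ l ∈ Finset.range i, (h l : ℝ))) =
      min x (∑ i ∈ Finset.range j, (h i : ℝ)) := by
  induction j with
  | zero => simp [hx]
  | succ j ih =>
    rw [Finset.sum_range_succ, ih, Finset.sum_range_succ]
    have h0 : (0 : ℝ) ≤ h j := Nat.cast_nonneg _
    generalize (∑ i ∈ Finset.range j, (h i : ℝ)) = H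
    generalize (h j : ℝ) = a at *
    rcases le_total x H with h1 | h1
    · rw [min_eq_left h1, max_eq_left (by linarith), min_eq_right h0, min_eq_left (by linarith),
        add_zero]
    · rw [min_eq_right h1, max_eq_right (by linarith)]
      rcases le_total a (x - H) with h2 | h2
      · rw [min_eq_left h2, min_eq_right (by linarith)]
      · rw [min_eq_right h2, min_eq_left (by linarith)]
        ring

/-- if at most `h i` elements have weight `i` and all weights are `≤ N`, then any `κ` elements have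
total weight at least `hpolyN N h κ` -/
theorem hpolyN_le {α : Type*} [DecidableEq α] (N : ℕ) (h : ℕ → ℕ) (S : Finset α) (w : α → ℕ)
    (hw : ∀ b ∈ S, w b ≤ N) (hc : ∀ i, (S.filter (fun b => w b = i)).card ≤ h i)
    (I : Finset α) (hI : I ⊆ S) : hpolyN N h I.card ≤ ∑ b ∈ I, w b := by
  set m : ℕ → ℕ := fun i => (I.filter (fun b => w b = i)).card with hm
  have hmh : ∀ i, m i ≤ h i := fun i =>
    (Finset.card_le_card (Finset.filter_subset_filter _ hI)).trans (hc i)
  have hmaps : ∀ b ∈ I, w b ∈ Finset.range (N + 1) := fun b hb =>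
    Finset.mem_range.2 (Nat.lt_succ_of_le (hw b (hI hb)))
  have hcard : ∑ i ∈ Finset.range (N + 1), m i = I.card :=
    (Finset.card_eq_sum_card_fiberwise hmaps).symm
  have hsum : ∑ b ∈ I, w b = ∑ i ∈ Finset.range (N + 1), i * m i := by
    rw [← Finset.sum_fiberwise_of_maps_to hmaps]
    refine Finset.sum_congr rfl fun i _ => ?_
    rw [Finset.sum_congr rfl (g := fun _ => i) (fun b hb => (Finset.mem_filter.1 hb).2),
      Finset.sum_const, smul_eq_mul, mul_comm]
  have e1 := abel_conv m N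
  have e2 := abel_conv (fun i => min (h i) (I.card - ∑ l ∈ Finset.range i, h l)) N
  simp only [Nat.cast_id] at e1 e2
  rw [greedy_nat] at e2
  rw [hcard] at e1
  have hle : I.card ≤ ∑ i ∈ Finset.range (N + 1), h i := by
    rw [← hcard]
    exact Finset.sum_le_sum fun i _ => hmh i
  rw [min_eq_left hle] at e2
  have hM : ∑ j ∈ Finset.range (N + 1), ∑ i ∈ Finset.range j, m i ≤
      ∑ j ∈ Finset.range (N + 1), ∑ i ∈ Finset.range j,
        min (h i) (I.card - ∑ l ∈ Finset.range i, h l) := by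
    refine Finset.sum_le_sum fun j hj => ?_
    rw [greedy_nat]
    refine le_min ?_ (Finset.sum_le_sum fun i _ => hmh i)
    rw [← hcard]
    exact Finset.sum_le_sum_of_subset (Finset.range_subset_range.2 (Finset.mem_range.1 hj).le)
  have hdef : hpolyN N h I.card = ∑ i ∈ Finset.range (N + 1),
      i * min (h i) (I.card - ∑ l ∈ Finset.range i, h l) := rfl
  rw [hsum, hdef]
  omega

/-- convexity on `[0, ∑ h i]` -/
theorem hpoly_convex (N : ℕ) (h : ℕ → ℕ) (x y t : ℝ) (hx0 : 0 ≤ x) (hy0 : 0 ≤ y)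
    (hx : x ≤ ∑ i ∈ Finset.range (N + 1), (h i : ℝ))
    (hy : y ≤ ∑ i ∈ Finset.range (N + 1), (h i : ℝ)) (ht0 : 0 ≤ t) (ht1 : t ≤ 1) :
    hpoly N h ((1 - t) * x + t * y) ≤ (1 - t) * hpoly N h x + t * hpoly N h y := by
  have key : ∀ z : ℝ, 0 ≤ z → z ≤ ∑ i ∈ Finset.range (N + 1), (h i : ℝ) →
      hpoly N h z = N * z - ∑ j ∈ Finset.range (N + 1), min z (∑ i ∈ Finset.range j, (h i : ℝ)) := by
    intro z hz0 hz
    have e := abel_conv (fun i => min (h i : ℝ) (max 0 (z - ∑ l ∈ Finset.range i, (h l : ℝ)))) N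
    rw [greedy_real h hz0, min_eq_left hz] at e
    have e2 : ∑ j ∈ Finset.range (N + 1), ∑ i ∈ Finset.range j,
        min (h i : ℝ) (max 0 (z - ∑ l ∈ Finset.range i, (h l : ℝ))) =
        ∑ j ∈ Finset.range (N + 1), min z (∑ i ∈ Finset.range j, (h i : ℝ)) :=
      Finset.sum_congr rfl fun j _ => greedy_real h hz0 j
    rw [e2] at e
    have e3 : hpoly N h z = ∑ i ∈ Finset.range (N + 1),
      (i : ℝ) * min (h i : ℝ) (max 0 (z - ∑ l ∈ Finset.range i, (h l : ℝ))) := rfl
    rw [e3]
    linarith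
  have ht : 0 ≤ 1 - t := by linarith
  have hz0 : 0 ≤ (1 - t) * x + t * y := by positivity
  have hz : (1 - t) * x + t * y ≤ ∑ i ∈ Finset.range (N + 1), (h i : ℝ) := by
    have h1 := mul_le_mul_of_nonneg_left hx ht
    have h2 := mul_le_mul_of_nonneg_left hy ht0
    linarith
  rw [key _ hz0 hz, key x hx0 hx, key y hy0 hy]
  have hmin : (1 - t) * ∑ j ∈ Finset.range (N + 1), min x (∑ i ∈ Finset.range j, (h i : ℝ)) +
      t * ∑ j ∈ Finset.range (N + 1), min y (∑ i ∈ Finset.range j, (h i : ℝ)) ≤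
      ∑ j ∈ Finset.range (N + 1), min ((1 - t) * x + t * y) (∑ i ∈ Finset.range j, (h i : ℝ)) := by
    rw [Finset.mul_sum, Finset.mul_sum, ← Finset.sum_add_distrib]
    refine Finset.sum_le_sum fun j _ => ?_
    generalize (∑ i ∈ Finset.range j, (h i : ℝ)) = H
    refine le_min ?_ ?_
    · have h1 := mul_le_mul_of_nonneg_left (min_le_left x H) ht
      have h2 := mul_le_mul_of_nonneg_left (min_le_left y H) ht0
      linarith
    · have h1 := mul_le_mul_of_nonneg_left (min_le_right x H) ht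
      have h2 := mul_le_mul_of_nonneg_left (min_le_right y H) ht0
      linarith
  nlinarith [hmin]

end HN
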