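import Pool.Agent.HN.GaussMul

/-! # HN/EvalA : the sum `csum` of the Cayley polynomial as a sum over `x` (module HN-24)

PLAN.  `p ∏_{μ ∈ S} Ψ(t_μ) = p Ψ(∑_{μ∈S} t_μ)` (induction with `Psi_add`), applied to
`t_μ = a_μ ζ^μ` (`∑_μ = aeval ζ F = ∑ y_i f_i(x) + ∑ z_j h_j(x)`) and again to this sum.  Then
`∑_ζ = ∑_x ∏_i ∑_{y_i ≠ 0} ∏_j ∑_{z_j}` (`Fintype.sum_sum_type`, `Finset.prod_univ_sum`, `Fintype.piFinset`), and
`gsum_twist` for the inner sums over `y_i` (`f = f_i(x)`, `c' = b_i M`), `psi_sum_mul` for the inner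
sums over `z_j` (after multiplication by `p^2`).
-/

open MvPolynomial

namespace HN

section
variable {p k h : ℕ} [Fact p.Prime] {F K A B : Type*} [Field F] [Field K] [Fintype K]
  [Algebra F K] [CommRing A] [CommRing B] [Algebra ℤ_[p] B] [Algebra A B] (DK : WD p k K A)
  (Pi : PiData p k A) (γ : B) {n r s : ℕ} {d : Fin r → ℕ} {c : Fin s → ℕ}

theorem psi_prod (hk : 1 ≤ k) (hγ : γ ^ (p - 1) = algebraMap A B (p * Pi.u))
    (hh : Fintype.card K = p ^ h) {α : Type*} (S : Finset α) (t : α → K) :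
    (p : B) * ∏ μ ∈ S, Psi p h DK γ (t μ) = (p : B) * Psi p h DK γ (∑ μ ∈ S, t μ) := by
  classical
  induction S using Finset.induction_on with
  | empty => rw [Finset.prod_empty, Finset.sum_empty, Psi_zero DK Pi γ hγ hk]
  | insert a S ha ih =>
    rw [Finset.prod_insert ha, Finset.sum_insert ha, mul_left_comm, ih]
    have h1 := Psi_add (h := h) DK Pi γ hγ hk hh (t a) (∑ μ ∈ S, t μ)
    rw [mul_sub, sub_eq_zero] at h1
    rw [← h1]
    ring

/-- products of congruent factors -/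
private theorem mul_prod_congr {R : Type*} [CommRing R] (a : R) {α : Type*} (S : Finset α)
    (f g : α → R) (hfg : ∀ j ∈ S, a * f j = a * g j) : a * ∏ j ∈ S, f j = a * ∏ j ∈ S, g j := by
  classical
  induction S using Finset.induction_on with
  | empty => rfl
  | insert b S hb ih =>
    rw [Finset.prod_insert hb, Finset.prod_insert hb]
    have h1 := hfg b (Finset.mem_insert_self _ _)
    have h2 := ih fun j hj => hfg j (Finset.mem_insert_of_mem hj)
    calc a * (f b * ∏ j ∈ S, f j) = f b * (a * ∏ j ∈ S, f j) := by ring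
      _ = f b * (a * ∏ j ∈ S, g j) := by rw [h2]
      _ = (a * f b) * ∏ j ∈ S, g j := by ring
      _ = (a * g b) * ∏ j ∈ S, g j := by rw [h1]
      _ = a * (g b * ∏ j ∈ S, g j) := by ring

omit [Fintype K] in
private theorem aeval_cayF (D : Datum F n r s d c) (ζ : Vr n r s → K) :
    aeval ζ (cayF D) = ∑ w : Fin r ⊕ Fin s, Sum.elim
      (fun i => ζ (Sum.inr (Sum.inl i)) * aeval (fun v => ζ (Sum.inl v)) (D.f i))
      (fun j => ζ (Sum.inr (Sum.inr j)) * aeval (fun v => ζ (Sum.inl v)) (D.h j)) w := by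
  have hren : ∀ g : MvPolynomial (Fin (n + 1)) F,
      aeval ζ (rename Sum.inl g : MvPolynomial (Vr n r s) F) =
        aeval (fun v => ζ (Sum.inl v)) g := by
    intro g
    rw [aeval_rename]
    rfl
  rw [Fintype.sum_sum_type, cayF]
  simp only [map_add, map_sum, map_mul, aeval_X, hren, Sum.elim_inl, Sum.elim_inr]

omit [Fintype K] in
private theorem aeval_sum (G : MvPolynomial (Vr n r s) F) (ζ : Vr n r s → K) :
    ∑ μ ∈ G.support, algebraMap F K (G.coeff μ) * ∏ v, ζ v ^ μ v = aeval ζ G := by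
  rw [aeval_def, eval₂_eq']

open Classical in
/-- `e i + e' i = Q - 1` -/
theorem csum_eval (hk : 1 ≤ k) (hγ : γ ^ (p - 1) = algebraMap A B (p * Pi.u))
    (hh : Fintype.card K = p ^ h) (hd : ∀ i, 1 ≤ d i) (hc : ∀ j, 1 ≤ c j)
    (D : Datum F n r s d c) (cc : Vr n r s → ℕ) (e e' : Fin r → ℕ) (he : ∀ i, 1 ≤ e i)
    (he' : ∀ i, 1 ≤ e' i) (hee : ∀ i, e i + e' i = Fintype.card K - 1)
    (hcc : ∀ i, cc (Sum.inr (Sum.inl i)) = e i) :
    (p : B) ^ 2 * csum p h (cayT n d c hd hc) (cayF D) DK γ cc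
      = (p : B) ^ 2 * ((p : B) ^ (h * s) * (∏ i, gsum p h DK γ (e i)) *
        algebraMap A B (∑ x : Fin (n + 1) → K, if ∀ j, aeval x (D.h j) = 0 then
          ∏ i, DK.τ (aeval x (D.f i)) ^ e' i else 0)) := by
  -- the integrand
  let U : (Fin (n + 1) → K) → Fin r → K → B := fun x i y =>
    if y ≠ 0 then Psi p h DK γ (y * aeval x (D.f i)) * algebraMap A B (DK.τ y) ^ e i else 0
  let V : (Fin (n + 1) → K) → Fin s → K → B := fun x j z => Psi p h DK γ (z * aeval x (D.h j))
  have step1 : (p : B) * csum p h (cayT n d c hd hc) (cayF D) DK γ cc =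
      (p : B) * ∑ ζ : Vr n r s → K, (∏ i, U (fun v => ζ (Sum.inl v)) i (ζ (Sum.inr (Sum.inl i)))) *
        ∏ j, V (fun v => ζ (Sum.inl v)) j (ζ (Sum.inr (Sum.inr j))) := by
    unfold csum
    rw [Finset.mul_sum, Finset.mul_sum, Finset.sum_filter]
    refine Finset.sum_congr rfl fun ζ _ => ?_
    have hYs : (∀ v ∈ (cayT n d c hd hc).Ys, ζ v ≠ 0) ↔ ∀ i : Fin r, ζ (Sum.inr (Sum.inl i)) ≠ 0 := by
      simp [cayT]
    have hprod : ∏ v ∈ (cayT n d c hd hc).Ys, algebraMap A B (DK.τ (ζ v)) ^ cc v =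
        ∏ i : Fin r, algebraMap A B (DK.τ (ζ (Sum.inr (Sum.inl i)))) ^ e i := by
      simp only [cayT]
      rw [Finset.prod_image (by
        intro a _ b _ hab
        exact Sum.inl_injective (Sum.inr_injective hab))]
      exact Finset.prod_congr rfl fun i _ => by rw [hcc]
    by_cases hζ : ∀ i : Fin r, ζ (Sum.inr (Sum.inl i)) ≠ 0
    · rw [if_pos (hYs.2 hζ), hprod, ← mul_assoc,
        psi_prod DK Pi γ hk hγ hh (cayF D).support
          (fun μ => algebraMap F K ((cayF D).coeff μ) * ∏ v, ζ v ^ μ v), aeval_sum, aeval_cayF,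
        ← psi_prod DK Pi γ hk hγ hh Finset.univ, mul_assoc]
      congr 1
      rw [Fintype.prod_sum_type]
      simp only [Sum.elim_inl, Sum.elim_inr]
      have hU : ∏ i, U (fun v => ζ (Sum.inl v)) i (ζ (Sum.inr (Sum.inl i))) =
          (∏ i : Fin r, Psi p h DK γ
            (ζ (Sum.inr (Sum.inl i)) * aeval (fun v => ζ (Sum.inl v)) (D.f i))) *
          ∏ i : Fin r, algebraMap A B (DK.τ (ζ (Sum.inr (Sum.inl i)))) ^ e i := by
        rw [← Finset.prod_mul_distrib]
        exact Finset.prod_congr rfl fun i _ => by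
          simp only [U]
          rw [if_pos (hζ i)]
      rw [hU]
      ring
    · rw [if_neg (fun h1 => hζ (hYs.1 h1))]
      push Not at hζ
      obtain ⟨i, hi⟩ := hζ
      have hU : ∏ i, U (fun v => ζ (Sum.inl v)) i (ζ (Sum.inr (Sum.inl i))) = 0 := by
        refine Finset.prod_eq_zero (Finset.mem_univ i) ?_
        simp only [U]
        rw [if_neg (by simpa using hi)]
      rw [hU, zero_mul, mul_zero]
  have step2 : ∑ ζ : Vr n r s → K, (∏ i, U (fun v => ζ (Sum.inl v)) i (ζ (Sum.inr (Sum.inl i)))) *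
        ∏ j, V (fun v => ζ (Sum.inl v)) j (ζ (Sum.inr (Sum.inr j))) =
      ∑ x : Fin (n + 1) → K, (∏ i, ∑ y : K, U x i y) * ∏ j, ∑ z : K, V x j z := by
    rw [← (Equiv.sumArrowEquivProdArrow (Fin (n + 1)) (Fin r ⊕ Fin s) K).symm.sum_comp,
      Fintype.sum_prod_type]
    refine Finset.sum_congr rfl fun x _ => ?_
    rw [← (Equiv.sumArrowEquivProdArrow (Fin r) (Fin s) K).symm.sum_comp, Fintype.sum_prod_type,
      Finset.prod_univ_sum, Finset.prod_univ_sum, Fintype.piFinset_univ, Fintype.piFinset_univ,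
      Finset.sum_mul_sum]
    rfl
  have hUs : ∀ x i, ∑ y : K, U x i y =
      algebraMap A B (DK.τ (aeval x (D.f i))) ^ e' i * gsum p h DK γ (e i) := by
    intro x i
    rw [← gsum_twist (h := h) DK Pi γ hk hγ (he i) (he' i) (hee i) (aeval x (D.f i)),
      Finset.sum_filter]
  have hVs : ∀ x, (p : B) ^ 2 * ∏ j, ∑ z : K, V x j z =
      (p : B) ^ 2 * if ∀ j, aeval x (D.h j) = 0 then (p : B) ^ (h * s) else 0 := by
    intro x
    rw [mul_prod_congr ((p : B) ^ 2) Finset.univ _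
      (fun j => if aeval x (D.h j) = 0 then (p : B) ^ h else 0)
      (fun j _ => psi_sum_mul DK Pi γ hk hγ hh (aeval x (D.h j)))]
    congr 1
    by_cases hx : ∀ j, aeval x (D.h j) = 0
    · rw [if_pos hx, Finset.prod_congr rfl fun j _ => if_pos (hx j), Finset.prod_const,
        Finset.card_univ, Fintype.card_fin, ← pow_mul]
    · rw [if_neg hx]
      push Not at hx
      obtain ⟨j, hj⟩ := hx
      exact Finset.prod_eq_zero (Finset.mem_univ j) (if_neg hj)
  calc (p : B) ^ 2 * csum p h (cayT n d c hd hc) (cayF D) DK γ cc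
      = (p : B) * ((p : B) * csum p h (cayT n d c hd hc) (cayF D) DK γ cc) := by ring
    _ = (p : B) ^ 2 * ∑ x : Fin (n + 1) → K, (∏ i, ∑ y : K, U x i y) * ∏ j, ∑ z : K, V x j z := by
      rw [step1, step2]
      ring
    _ = ∑ x : Fin (n + 1) → K, (∏ i, ∑ y : K, U x i y) *
          ((p : B) ^ 2 * ∏ j, ∑ z : K, V x j z) := by
      rw [Finset.mul_sum]
      exact Finset.sum_congr rfl fun x _ => by ring
    _ = ∑ x : Fin (n + 1) → K, (p : B) ^ 2 * ((p : B) ^ (h * s) * (∏ i, gsum p h DK γ (e i)) *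
          if ∀ j, aeval x (D.h j) = 0 then
            ∏ i, algebraMap A B (DK.τ (aeval x (D.f i))) ^ e' i else 0) := by
      refine Finset.sum_congr rfl fun x _ => ?_
      rw [hVs x, Finset.prod_congr rfl fun i _ => hUs x i, Finset.prod_mul_distrib]
      by_cases hx : ∀ j, aeval x (D.h j) = 0
      · rw [if_pos hx, if_pos hx]
        ring
      · rw [if_neg hx, if_neg hx]
        ring
    _ = _ := by
      rw [← Finset.mul_sum, ← Finset.mul_sum, map_sum]
      refine congrArg (fun t => (p : B) ^ 2 * ((p : B) ^ (h * s) *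
        (∏ i, gsum p h DK γ (e i)) * t)) (Finset.sum_congr rfl fun x _ => ?_)
      by_cases hx : ∀ j, aeval x (D.h j) = 0
      · rw [if_pos hx, if_pos hx, map_prod]
        exact Finset.prod_congr rfl fun i _ => (map_pow _ _ _).symm
      · rw [if_neg hx, if_neg hx, map_zero]

end

end HN
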