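import Pool.Agent.HN.WittQ
import Pool.Agent.HN.Cay

/-! # HN/EvalB : from sums over the affine cone to `charSum` (module HN-25)

PLAN.  The summand vanishes at `x = 0` (`f_i(0) = 0`, `e' i ≥ 1`, `r ≥ 1`) and is invariant under
`x ↦ λ x` (`[λ]^(∑ d_i e'_i) = 1`), every point of the projective space has `Q - 1`
representatives.  `charSum`: `algebraMap F K (Algebra.norm F y) = y^((Q-1)/(q-1))`
(`FiniteField.algebraMap_norm_eq_pow` or similar), `WittVector.map_teichmuller`.
-/

open MvPolynomial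

namespace HN

section
variable {p : ℕ} [Fact p.Prime] {F K : Type} [Field F] [Field K] [Fintype F] [Fintype K]
  [Algebra F K] {n r s : ℕ} {d : Fin r → ℕ} {c : Fin s → ℕ}

omit [Fintype F] [Fintype K] in
private theorem aeval_smul_hom {m : ℕ} {φ : MvPolynomial (Fin (n + 1)) F}
    (hφ : φ.IsHomogeneous m) (u : K) (x : Fin (n + 1) → K) :
    aeval (u • x) φ = u ^ m * aeval x φ := by
  rw [aeval_def, aeval_def, eval₂_eq, eval₂_eq, Finset.mul_sum]
  refine Finset.sum_congr rfl fun e he => ?_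
  have h1 : ∏ i ∈ e.support, (u • x) i ^ e i = u ^ m * ∏ i ∈ e.support, x i ^ e i := by
    have h2 : ∑ i ∈ e.support, e i = m := by
      have h3 := hφ (mem_support_iff.1 he)
      have h4 : Finsupp.degree e = m := (DFunLike.congr_fun
        (Finsupp.degree_eq_weight_one (σ := Fin (n + 1)) (R := ℕ)) e).trans h3
      rwa [Finsupp.degree_apply] at h4
    rw [← h2, ← Finset.prod_pow_eq_pow_sum, ← Finset.prod_mul_distrib]
    refine Finset.prod_congr rfl fun i _ => ?_
    rw [Pi.smul_apply, smul_eq_mul, mul_pow]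
  rw [h1]
  ring

open Classical in
/-- sums of functions on `K^(n+1)` which vanish at `0` and are invariant under scaling -/
private theorem sum_proj {A : Type*} [CommRing A] (G : (Fin (n + 1) → K) → A) (h0 : G 0 = 0)
    (hG : ∀ (u : K) (x : Fin (n + 1) → K), u ≠ 0 → G (u • x) = G x) :
    ∑ x : Fin (n + 1) → K, G x =
      ((Fintype.card K : A) - 1) * ∑ᶠ P : Projectivization K (Fin (n + 1) → K), G P.rep := by
  have : Fintype (Projectivization K (Fin (n + 1) → K)) := Fintype.ofFinite _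
  rw [finsum_eq_sum_of_fintype, Finset.mul_sum]
  have h1 : ∑ x : Fin (n + 1) → K, G x = ∑ x : {x : Fin (n + 1) → K // x ≠ 0}, G x.1 := by
    rw [← Fintype.sum_subtype_add_sum_subtype (fun x : Fin (n + 1) → K => x ≠ 0) G]
    have h2 : ∑ x : {x : Fin (n + 1) → K // ¬ x ≠ 0}, G x.1 = 0 :=
      Finset.sum_eq_zero fun x _ => by rw [not_not.1 x.2, h0]
    rw [h2, add_zero]
  rw [h1, ← Finset.sum_fiberwise (s := Finset.univ)
    (g := fun x : {x : Fin (n + 1) → K // x ≠ 0} => Projectivization.mk K x.1 x.2)]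
  refine Finset.sum_congr rfl fun P _ => ?_
  have h2 : ∀ x ∈ Finset.univ.filter
      (fun x : {x : Fin (n + 1) → K // x ≠ 0} => Projectivization.mk K x.1 x.2 = P),
      G x.1 = G P.rep := by
    intro x hx
    obtain ⟨a, ha⟩ := Projectivization.exists_smul_eq_mk_rep K x.1 x.2
    rw [(Finset.mem_filter.1 hx).2] at ha
    rw [← ha]
    exact (hG a x.1 a.ne_zero).symm
  rw [Finset.sum_congr rfl h2, Finset.sum_const, nsmul_eq_mul]
  congr 1
  have h3 : (Finset.univ : Finset Kˣ).card = (Finset.univ.filter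
      (fun x : {x : Fin (n + 1) → K // x ≠ 0} => Projectivization.mk K x.1 x.2 = P)).card := by
    refine Finset.card_bij (fun u _ => ⟨u • P.rep, ?_⟩) ?_ ?_ ?_
    · exact (smul_ne_zero_iff_ne u).2 P.rep_nonzero
    · intro u _
      rw [Finset.mem_filter]
      refine ⟨Finset.mem_univ _, ?_⟩
      conv_rhs => rw [← P.mk_rep]
      rw [Projectivization.mk_eq_mk_iff]
      exact ⟨u, rfl⟩
    · intro u _ u' _ huu
      rw [Subtype.mk.injEq] at huu
      have h4 : (u : K) • P.rep = (u' : K) • P.rep := huu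
      exact Units.ext (smul_left_injective K P.rep_nonzero h4)
    · intro x hx
      have h5 := (Finset.mem_filter.1 hx).2
      rw [← P.mk_rep, Projectivization.mk_eq_mk_iff] at h5
      obtain ⟨u, hu⟩ := h5
      exact ⟨u, Finset.mem_univ _, Subtype.ext hu⟩
  rw [← h3, Finset.card_univ, Fintype.card_units]
  have h6 : 1 ≤ Fintype.card K := Fintype.card_pos
  push_cast [h6]
  ring

open Classical in
theorem cone_sum {k : ℕ} {A : Type*} [CommRing A] (DK : WD p k K A) (hr : 1 ≤ r)
    (hd : ∀ i, 1 ≤ d i) (D : Datum F n r s d c) (e' : Fin r → ℕ) (he' : ∀ i, 1 ≤ e' i)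
    (hdiv : (Fintype.card K - 1) ∣ ∑ i, d i * e' i) :
    (∑ x : Fin (n + 1) → K, if ∀ j, aeval x (D.h j) = 0 then
        ∏ i, DK.τ (aeval x (D.f i)) ^ e' i else 0)
      = ((Fintype.card K : A) - 1) * ∑ᶠ P : Projectivization K (Fin (n + 1) → K),
        if ∀ j, aeval P.rep (D.h j) = 0 then
          ∏ i, DK.τ (aeval P.rep (D.f i)) ^ e' i else 0 := by
  refine sum_proj (fun x : Fin (n + 1) → K => if ∀ j, aeval x (D.h j) = 0 then
        ∏ i, DK.τ (aeval x (D.f i)) ^ e' i else 0) ?_ ?_
  · have h1 : ∏ i, DK.τ (aeval (0 : Fin (n + 1) → K) (D.f i)) ^ e' i = 0 := by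
      refine Finset.prod_eq_zero (Finset.mem_univ (⟨0, hr⟩ : Fin r)) ?_
      have h2 := aeval_smul_hom (D.hf ⟨0, hr⟩) (0 : K) (0 : Fin (n + 1) → K)
      rw [zero_smul, zero_pow (by have := hd ⟨0, hr⟩; omega), zero_mul] at h2
      rw [h2, map_zero, zero_pow (by have := he' ⟨0, hr⟩; omega)]
    simp only [h1, ite_self]
  · intro u x hu
    have hh : (∀ j, aeval (u • x) (D.h j) = 0) ↔ ∀ j, aeval x (D.h j) = 0 := by
      refine forall_congr' fun j => ?_
      rw [aeval_smul_hom (D.hh j), mul_eq_zero, or_iff_right (pow_ne_zero _ hu)]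
    have hp : ∏ i, DK.τ (aeval (u • x) (D.f i)) ^ e' i = ∏ i, DK.τ (aeval x (D.f i)) ^ e' i := by
      have h3 : ∀ i, DK.τ (aeval (u • x) (D.f i)) ^ e' i =
          DK.τ u ^ (d i * e' i) * DK.τ (aeval x (D.f i)) ^ e' i := by
        intro i
        rw [aeval_smul_hom (D.hf i), map_mul, map_pow, mul_pow, pow_mul]
      simp only [h3]
      rw [Finset.prod_mul_distrib, Finset.prod_pow_eq_pow_sum]
      obtain ⟨t, ht⟩ := hdiv
      rw [ht, pow_mul, ← map_pow, FiniteField.pow_card_sub_one_eq_one u hu, map_one, one_pow,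
        one_mul]
    simp only [hh, hp]

variable [CharP F p] [CharP K p]

open Classical in
theorem charSum_map {k a m : ℕ} (hF : Fintype.card F = p ^ a) (hm : 1 ≤ m)
    (hK : Module.finrank F K = m) (D : Datum F n r s d c) (b : Fin r → ℕ)
    {A : Type*} [CommRing A] (DK : WD p k K A) (ψ : WittVector p F →+* A)
    (hψ : ∀ x : F, ψ (WittVector.teichmuller p x) = DK.τ (algebraMap F K x)) :
    ψ (charSum p D b K) = ∑ᶠ P : Projectivization K (Fin (n + 1) → K),
        if ∀ j, aeval P.rep (D.h j) = 0 then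
          ∏ i, DK.τ (aeval P.rep (D.f i)) ^ (b i * ((p ^ (a * m) - 1) / (p ^ a - 1)))
        else 0 := by
  have : Fintype (Projectivization K (Fin (n + 1) → K)) := Fintype.ofFinite _
  unfold charSum
  rw [finsum_eq_sum_of_fintype, finsum_eq_sum_of_fintype, map_sum]
  refine Finset.sum_congr rfl fun P _ => ?_
  have hcard : Fintype.card K = p ^ (a * m) := by
    rw [Module.card_eq_pow_finrank (K := F) (V := K), hF, hK, pow_mul]
  split_ifs with h
  · rw [map_prod]
    refine Finset.prod_congr rfl fun i _ => ?_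
    rw [map_pow, hψ, FiniteField.algebraMap_norm_eq_pow, ← Fintype.card_eq_nat_card,
      ← Fintype.card_eq_nat_card, hF, hcard, map_pow, ← pow_mul, mul_comm]
  · exact map_zero ψ

end

end HN
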