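import Pool.Agent.HN.Data

/-! # HN/Ups : existence of the constants (module HN-10)

PLAN.  (1) `i ≤ gi p i`, `gi p (i+1) = p * gi p i + 1 = gi p i + p^i`, `p^l * gi p i + p^l * (p^(i+?)..)`:
`p^(l+1) * gi p i + p^l = p^l * gi p (i+1)`.
(2) `∃ υ : ℤ, p ∣ υ + 1 ∧ p^k ∣ 1 + υ + ∑ i ∈ Ico 2 (k+2), p^(gi p i - i) * υ^(gi p i)`:
iterate `Φ υ = -1 - ∑ i ∈ Ico 2 (k+2), p^(gi p i - i) υ^(gi p i)`; for `i ≥ 2`, `gi p i - i ≥ 1`, so
`p^m ∣ x - y → p^(m+1) ∣ Φ x - Φ y`, and `Φ υ ≡ -1 mod p`.  After `k` steps `p^k ∣ Φ υ - υ`.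
(3) `w l := - ∑ i ∈ Ico 1 (k+2), p^(p^l * gi p i - i) * υ^(p^l * gi p i)` (in `R`).
`w 0 = 1` is `eq` (the term `i = 1` is `υ`).  `ws`: both sides are `-p ∑ i ∈ Ico 1 (k+2 or k+3)`,
the extra term contains `p^(p^l * gi p (k+2) - (k+2) + 1)` and `gi p (k+2) ≥ 2^(k+2) - 1`, so it
is `0` as `p^k = 0`.  `wd`: `p^l * gi p i - i ≥ p^l - 1` for `i ≥ 1`.
-/

namespace HN

private theorem gi_succ (p i : ℕ) : gi p (i + 1) = gi p i + p ^ i := by
  rw [gi, gi, Finset.sum_range_succ]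

private theorem gi_succ' (p i : ℕ) : gi p (i + 1) = p * gi p i + 1 := by
  rw [gi, gi, Finset.sum_range_succ', pow_zero, Finset.mul_sum]
  congr 1
  exact Finset.sum_congr rfl fun j _ => by rw [pow_succ, mul_comm]

private theorem gi_one (p : ℕ) : gi p 1 = 1 := by
  simp [gi]

theorem le_gi {p : ℕ} (hp : 2 ≤ p) (i : ℕ) : i ≤ gi p i := by
  induction i with
  | zero => exact Nat.zero_le _
  | succ i ih =>
    rw [gi_succ]
    have : 1 ≤ p ^ i := Nat.one_le_pow _ _ (by omega)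
    omega

theorem gi_mul {p : ℕ} (hp : 2 ≤ p) (i : ℕ) : gi p i * (p - 1) = p ^ i - 1 := by
  induction i with
  | zero => simp [gi]
  | succ i ih =>
    rw [gi_succ, add_mul, ih, pow_succ, Nat.mul_sub, mul_one]
    have h1 : 1 ≤ p ^ i := Nat.one_le_pow _ _ (by omega)
    have h2 : p ^ i ≤ p ^ i * p := Nat.le_mul_of_pos_right _ (by omega)
    omega

private theorem lt_gi {p : ℕ} (hp : 2 ≤ p) {i : ℕ} (hi : 2 ≤ i) : i + 1 ≤ gi p i := by
  obtain ⟨j, rfl⟩ : ∃ j, i = j + 1 := ⟨i - 1, by omega⟩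
  rw [gi_succ']
  have h1 := le_gi hp j
  have h2 : 2 * j ≤ p * gi p j := Nat.mul_le_mul hp h1
  omega

private theorem two_pow_le_gi {p : ℕ} (hp : 2 ≤ p) (i : ℕ) : 2 * i ≤ gi p i + 1 := by
  rcases i with _ | _ | i
  · simp
  · rw [gi_one]
  · have h1 := lt_gi hp (i := i + 2) (by omega)
    rw [gi_succ'] at *
    have h2 := le_gi hp (i + 1)
    have h3 : 2 * (i + 1) ≤ p * gi p (i + 1) := Nat.mul_le_mul hp h2
    omega

private noncomputable def Phi (p k : ℕ) {R : Type*} [CommRing R] (x : R) : R :=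
  -1 - ∑ i ∈ Finset.Ico 2 (k + 2), (p : R) ^ (gi p i - i) * x ^ gi p i

private theorem Phi_dvd {p k : ℕ} (hp : 2 ≤ p) {R : Type*} [CommRing R] (m : ℕ) {x y : R}
    (h : (p : R) ^ m ∣ x - y) : (p : R) ^ (m + 1) ∣ Phi p k x - Phi p k y := by
  have h1 : Phi p k x - Phi p k y =
      - ∑ i ∈ Finset.Ico 2 (k + 2), (p : R) ^ (gi p i - i) * (x ^ gi p i - y ^ gi p i) := by
    rw [Phi, Phi]
    simp only [mul_sub, Finset.sum_sub_distrib]
    ring
  rw [h1, dvd_neg]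
  refine Finset.dvd_sum fun i hi => ?_
  rw [Finset.mem_Ico] at hi
  rw [pow_succ']
  refine mul_dvd_mul ?_ (h.trans (sub_dvd_pow_sub_pow x y _))
  have h2 := lt_gi hp hi.1
  exact dvd_pow_self _ (by omega)

private theorem Phi_one {p k : ℕ} (hp : 2 ≤ p) {R : Type*} [CommRing R] (x : R) :
    (p : R) ∣ Phi p k x + 1 := by
  have h1 : Phi p k x + 1 =
      - ∑ i ∈ Finset.Ico 2 (k + 2), (p : R) ^ (gi p i - i) * x ^ gi p i := by
    rw [Phi]
    ring
  rw [h1, dvd_neg]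
  refine Finset.dvd_sum fun i hi => ?_
  rw [Finset.mem_Ico] at hi
  have h2 := lt_gi hp hi.1
  exact (dvd_pow_self _ (by omega)).mul_right _

private theorem exists_u {p k : ℕ} (hp : 2 ≤ p) {R : Type*} [CommRing R] (hk : (p : R) ^ k = 0) :
    ∃ u : R, (p : R) ∣ u + 1 ∧
      1 + u + ∑ i ∈ Finset.Ico 2 (k + 2), (p : R) ^ (gi p i - i) * u ^ gi p i = 0 := by
  let x : ℕ → R := fun n => (Phi p k)^[n] (-1)
  have hx : ∀ n, x (n + 1) = Phi p k (x n) := fun n => Function.iterate_succ_apply' _ _ _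
  have hd : ∀ n, (p : R) ^ (n + 1) ∣ x (n + 1) - x n := by
    intro n
    induction n with
    | zero =>
      have h1 : x 0 = -1 := rfl
      rw [hx, h1, sub_neg_eq_add, zero_add, pow_one]
      exact Phi_one hp _
    | succ n ih =>
      rw [hx (n + 1)]
      nth_rewrite 2 [hx n]
      exact Phi_dvd hp (n + 1) ih
  have h2 : Phi p k (x k) = x k := by
    have h3 := hd k
    rw [pow_succ, hk, zero_mul, zero_dvd_iff, sub_eq_zero, hx] at h3
    exact h3
  refine ⟨x k, ?_, ?_⟩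
  · rw [← h2]
    exact Phi_one hp _
  · have h4 : 1 + x k + ∑ i ∈ Finset.Ico 2 (k + 2), (p : R) ^ (gi p i - i) * x k ^ gi p i =
        x k - Phi p k (x k) := by
      rw [Phi]
      ring
    rw [h4, h2, sub_self]

theorem exists_piData {p k : ℕ} (hp : p.Prime) {R : Type*} [CommRing R] (hk : (p : R) ^ k = 0) :
    Nonempty (PiData p k R) := by
  obtain ⟨u, hu1, hu2⟩ := exists_u hp.two_le hk
  have hp2 := hp.two_le
  let T : ℕ → ℕ → R := fun l i => (p : R) ^ (p ^ l * gi p i - i) * u ^ (p ^ l * gi p i)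
  let w : ℕ → R := fun l => - ∑ i ∈ Finset.Ico 1 (k + 2), T l i
  have hpl : ∀ l, 1 ≤ p ^ l := fun l => Nat.one_le_pow _ _ (by omega)
  refine ⟨⟨u, w, hu1, hu2, ?_, fun l => ?_, fun l => ?_⟩⟩
  · change - ∑ i ∈ Finset.Ico 1 (k + 2), T 0 i = 1
    rw [Finset.sum_eq_sum_Ico_succ_bot (by omega)]
    have h1 : T 0 1 = u := by
      change (p : R) ^ (p ^ 0 * gi p 1 - 1) * u ^ (p ^ 0 * gi p 1) = u
      rw [gi_one]
      simp
    have h2 : ∑ i ∈ Finset.Ico (1 + 1) (k + 2), T 0 i =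
        ∑ i ∈ Finset.Ico 2 (k + 2), (p : R) ^ (gi p i - i) * u ^ gi p i := by
      refine Finset.sum_congr rfl fun i _ => ?_
      change (p : R) ^ (p ^ 0 * gi p i - i) * u ^ (p ^ 0 * gi p i) = _
      rw [pow_zero, one_mul]
    rw [h1, h2]
    linear_combination - hu2
  · change ((p : R) * u) ^ p ^ l * (- ∑ i ∈ Finset.Ico 1 (k + 2), T (l + 1) i - 1) =
      p * - ∑ i ∈ Finset.Ico 1 (k + 2), T l i
    have hex : ∀ i, p ^ l + p ^ (l + 1) * gi p i = p ^ l * gi p (i + 1) := by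
      intro i
      rw [gi_succ', pow_succ]
      ring
    have h1 : ∀ i, ((p : R) * u) ^ p ^ l * T (l + 1) i = p * T l (i + 1) := by
      intro i
      change ((p : R) * u) ^ p ^ l *
        ((p : R) ^ (p ^ (l + 1) * gi p i - i) * u ^ (p ^ (l + 1) * gi p i)) =
        p * ((p : R) ^ (p ^ l * gi p (i + 1) - (i + 1)) * u ^ (p ^ l * gi p (i + 1)))
      have h2 : i ≤ p ^ (l + 1) * gi p i :=
        (le_gi hp2 i).trans (Nat.le_mul_of_pos_left _ (hpl (l + 1)))
      have h3 : p ^ l * gi p (i + 1) - (i + 1) + 1 = p ^ l + (p ^ (l + 1) * gi p i - i) := by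
        rw [← hex]
        have := hpl l
        omega
      have h4 : (p : R) * ((p : R) ^ (p ^ l * gi p (i + 1) - (i + 1)) *
          u ^ (p ^ l * gi p (i + 1))) =
          (p : R) ^ (p ^ l * gi p (i + 1) - (i + 1) + 1) * u ^ (p ^ l * gi p (i + 1)) := by
        rw [pow_succ]
        ring
      rw [h4, h3, ← hex, mul_pow, pow_add, pow_add]
      ring
    have h0 : ((p : R) * u) ^ p ^ l = p * T l 1 := by
      change _ = (p : R) * ((p : R) ^ (p ^ l * gi p 1 - 1) * u ^ (p ^ l * gi p 1))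
      rw [gi_one, mul_one, mul_pow, ← mul_assoc, ← pow_succ']
      congr 2
      have := hpl l
      omega
    have hlast : (p : R) * T l (k + 2) = 0 := by
      change (p : R) * ((p : R) ^ (p ^ l * gi p (k + 2) - (k + 2)) * _) = 0
      have h5 : (p : R) ^ (p ^ l * gi p (k + 2) - (k + 2)) = 0 := by
        have h6 : k ≤ p ^ l * gi p (k + 2) - (k + 2) := by
          have h7 := two_pow_le_gi hp2 (k + 2)
          have h8 : gi p (k + 2) ≤ p ^ l * gi p (k + 2) := Nat.le_mul_of_pos_left _ (hpl l)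
          omega
        obtain ⟨c, hc⟩ := Nat.exists_eq_add_of_le h6
        rw [hc, pow_add, hk, zero_mul]
      rw [h5, zero_mul, mul_zero]
    have h2 : ∑ i ∈ Finset.Ico 1 (k + 2), ((p : R) * u) ^ p ^ l * T (l + 1) i =
        ∑ i ∈ Finset.Ico 2 (k + 2), p * T l i := by
      rw [Finset.sum_congr rfl fun i _ => h1 i]
      rw [Finset.sum_Ico_succ_top (by omega : 1 ≤ k + 1)]
      rw [hlast, add_zero]
      rw [Finset.sum_Ico_eq_sum_range, Finset.sum_Ico_eq_sum_range]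
      refine Finset.sum_congr (by congr 1) fun i _ => ?_
      rw [show 1 + i + 1 = 2 + i by omega]
    rw [mul_sub, mul_neg, Finset.mul_sum, h2, mul_one, h0, mul_neg,
      Finset.sum_eq_sum_Ico_succ_bot (by omega : 1 < k + 2), mul_add, Finset.mul_sum]
    ring
  · change (p : R) ^ (p ^ l - 1) ∣ - ∑ i ∈ Finset.Ico 1 (k + 2), T l i
    rw [dvd_neg]
    refine Finset.dvd_sum fun i hi => ?_
    rw [Finset.mem_Ico] at hi
    refine (pow_dvd_pow _ ?_).mul_right _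
    have h1 := le_gi hp2 i
    obtain ⟨c, hc⟩ := Nat.exists_eq_add_of_le h1
    have h2 : p ^ l - 1 + i ≤ p ^ l * gi p i := by
      obtain ⟨j, rfl⟩ : ∃ j, i = j + 1 := ⟨i - 1, by omega⟩
      have h3 : p ^ l * (j + 1) ≤ p ^ l * gi p (j + 1) := Nat.mul_le_mul_left _ h1
      have h4 : j ≤ p ^ l * j := Nat.le_mul_of_pos_left _ (hpl l)
      have h5 : p ^ l * (j + 1) = p ^ l * j + p ^ l := by ring
      have := hpl l
      omega
    omega

end HN
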