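import Pool.Agent.HN.Gauss
import Pool.Agent.HN.EvalA
import Pool.Agent.HN.EvalB
import Pool.Agent.HN.Ups

/-! # HN/DAsm : assembly of the p-adic part (module HN-27)

PLAN.  `C = cayT n d c`, `Fp = cayF D` (`cay_hom`, `cay_unitCond`), `trace_main` gives `BB`, `Bs`; `hlow` gives
`s ≤ wt e` on `Bs j` (a filtered set with `jnum = 0` elements is empty).
For `k ≤ a + 2` (in particular `k = 0`): `A k = 0`, `U k = 1`; `htr` holds because
`p^(cst*m+2) = 0` in `W/p^k`: `cst := T + s*a + a`, `T := ∑_{j<a} ∑_v O.τ j v`.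
For `k > a + 2`: `R = WQ p k F`, `D` from `exists_WD`, `Algebra ℤ_[p] R` from `exists_padicHom`, `Pi`
from `exists_piData`.  `trace_main` gives `A`, with rows divisible by `p^wt`; choose `A'` with
`A j = p^s • A' j`, rows outside `Bs (j+1)` zero, rows divisible by `p^(wt - s)`; then
`prodM A a = p^(s a) • prodM A' a`, `trace (M^m) = p^(s a m) trace (M'^m)`.
`U := ∏_i u_i`, `u_i` from `gauss_unit` for `b i`.
For `m ≥ 1`: `K = E m` (finite, `Fintype.ofFinite`, `card = p^(a m)`), `A' = WQ p k K`, `φ` from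
`exists_WQmap` (injective, Teichmüller), `B` from `exists_gamma` (`v = p φ(u)`), `Algebra ℤ_[p] B` by
composition.  `csum_eval` (`e i = (q-1-b_i) M`, `e' i = b_i M`, `M = (Q-1)/(q-1)`), `cone_sum`,
`charSum_map` and `trace_main`, `gauss_unit` give, with `∑_v ∑_j τ_j v = ∑_i dsum (b i)`,
`p^2 γ^(mT) (Q-1) [(-1)^(n+r+s) φ(tr M^m) - (-1)^r Q^s φ(U)^m φ(mk S_m)] = 0` in `B`.
`Q - 1` is a unit, multiply by `γ^(mT(p-2))`: `p^(mT+2) [...] = 0` in `B`, hence in `A'`, hence in `R`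
(`φ`, `algebraMap A' B` injective).
-/

open MvPolynomial

namespace HN

private theorem da_prodM_smul {R : Type*} [CommRing R] {𝔅 : Type*} [Fintype 𝔅] [DecidableEq 𝔅]
    (x : R) (A : ℕ → Matrix 𝔅 𝔅 R) (a : ℕ) :
    prodM (fun j => x • A j) a = x ^ a • prodM A a := by
  induction a with
  | zero => simp [prodM]
  | succ a ih =>
    have h1 : prodM (fun j => x • A j) (a + 1) = (x • A a) * prodM (fun j => x • A j) a := rfl
    have h2 : prodM A (a + 1) = A a * prodM A a := rfl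
    rw [h1, h2, ih, Matrix.smul_mul, Matrix.mul_smul, smul_smul, ← pow_succ']

private theorem da_trace_smul {R : Type*} [CommRing R] {𝔅 : Type*} [Fintype 𝔅] [DecidableEq 𝔅]
    (x : R) (A A' : ℕ → Matrix 𝔅 𝔅 R) (hA : ∀ j, A j = x • A' j) (a m : ℕ) :
    ((prodM A a) ^ m).trace = x ^ (a * m) * ((prodM A' a) ^ m).trace := by
  have h1 : A = fun j => x • A' j := funext hA
  rw [h1, da_prodM_smul, smul_pow, Matrix.trace_smul, smul_eq_mul, ← pow_mul]

private theorem da_end {B : Type*} [CommRing B] {p : ℕ} (hp : 2 ≤ p) {γ v P t t' cs G X S u : B}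
    {T m n r s a : ℕ} (hs : s ≤ n) (hγ : γ ^ (p - 1) = (p : B) * v) (hv : IsUnit v)
    (hP : IsUnit (P - 1))
    (h1 : γ ^ (m * T) * (P - 1) * (-1) ^ (n + r + s) * t = cs)
    (h2 : (p : B) ^ 2 * cs = (p : B) ^ 2 * ((p : B) ^ (a * m * s) * G * X))
    (h3 : G = (-1) ^ r * γ ^ (m * T) * u ^ m) (h4 : X = (P - 1) * S)
    (h5 : t = ((p : B) ^ s) ^ (a * m) * t') :
    (p : B) ^ ((T + s * a) * m + 2) * (t' - (-1) ^ (n - s) * u ^ m * S) = 0 := by
  obtain ⟨w, hw⟩ := hv.exists_left_inv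
  obtain ⟨z, hz⟩ := hP.exists_left_inv
  obtain ⟨e, he⟩ : ∃ e, n = s + e := ⟨n - s, by omega⟩
  have hne : n - s = e := by omega
  have hsg : ((-1 : B) ^ e) * (-1) ^ e = 1 := by
    rw [← mul_pow]; simp
  have hsr : ((-1 : B) ^ r) * (-1) ^ r = 1 := by
    rw [← mul_pow]; simp
  have hss : ((-1 : B) ^ s) * (-1) ^ s = 1 := by
    rw [← mul_pow]; simp
  have hsn : (-1 : B) ^ (n + r + s) = (-1) ^ e * (-1) ^ r := by
    rw [he]
    have : s + e + r + s = s + s + (e + r) := by ring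
    rw [this, pow_add, pow_add, hss, one_mul, pow_add]
  rw [hne]
  rw [← h1, h5, h3, h4, hsn] at h2
  have hg : γ ^ (m * T) * γ ^ (m * T * (p - 2)) = ((p : B) * v) ^ (m * T) := by
    rw [← hγ, ← pow_mul, ← pow_add]
    congr 1
    obtain ⟨c, rfl⟩ : ∃ c, p = c + 2 := ⟨p - 2, by omega⟩
    have e1 : c + 2 - 2 = c := by omega
    have e2 : c + 2 - 1 = c + 1 := by omega
    rw [e1, e2]
    ring
  have hwv : w ^ (m * T) * v ^ (m * T) = 1 := by
    rw [← mul_pow, hw, one_pow]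
  have hexp : (p : B) ^ ((T + s * a) * m + 2) = (p : B) ^ 2 * (p : B) ^ (a * m * s) *
      (p : B) ^ (m * T) := by
    rw [← pow_add, ← pow_add]
    congr 1
    ring
  have hexp2 : ((p : B) ^ s) ^ (a * m) = (p : B) ^ (a * m * s) := by
    rw [← pow_mul]
    congr 1
    ring
  rw [hexp2] at h2
  rw [hexp]
  set Pq := (p : B) ^ (a * m * s) with hPq
  set g1 := γ ^ (m * T) with hg1
  set g2 := γ ^ (m * T * (p - 2)) with hg2
  rw [mul_pow] at hg
  set pm := (p : B) ^ (m * T) with hpm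
  set vm := v ^ (m * T) with hvm
  set wm := w ^ (m * T) with hwm
  set E := (-1 : B) ^ e with hE
  set Rr := (-1 : B) ^ r with hR
  set um := u ^ m with hum
  -- h2 : p^2 * (g1 * (P - 1) * (E * Rr) * (Pq * t')) = p^2 * (Pq * (Rr * g1 * um) * ((P-1) * S))
  have hk : (p : B) ^ 2 * Pq * g1 * (P - 1) * Rr * (E * t' - um * S) = 0 := by
    linear_combination h2
  have hk2 : (p : B) ^ 2 * Pq * pm * (E * t' - um * S) = 0 := by
    have h6 : (p : B) ^ 2 * Pq * pm * (E * t' - um * S) =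
        (wm * z * g2 * Rr) * ((p : B) ^ 2 * Pq * g1 * (P - 1) * Rr * (E * t' - um * S)) := by
      have h7 : (wm * z * g2 * Rr) * ((p : B) ^ 2 * Pq * g1 * (P - 1) * Rr * (E * t' - um * S)) =
        (p : B) ^ 2 * Pq * (E * t' - um * S) * (Rr * Rr) * (z * (P - 1)) * (wm * (g1 * g2)) := by
        ring
      rw [h7, hsr, hz, hg]
      have h8 : wm * (pm * vm) = pm * (wm * vm) := by ring
      rw [h8, hwv]
      ring
    rw [h6, hk, MulZeroClass.mul_zero]
  have h9 : (p : B) ^ 2 * Pq * pm * (t' - E * um * S) =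
      E * ((p : B) ^ 2 * Pq * pm * (E * t' - um * S)) := by
    have : E * ((p : B) ^ 2 * Pq * pm * (E * t' - um * S)) =
      (p : B) ^ 2 * Pq * pm * ((E * E) * t' - E * um * S) := by ring
    rw [this, hsg, one_mul]
  rw [h9, hk2, MulZeroClass.mul_zero]

section
variable {n r s : ℕ} {d : Fin r → ℕ} {c : Fin s → ℕ}

private theorem da_T {p a : ℕ} (hp : p.Prime) (hd : ∀ i, 1 ≤ d i) (hc : ∀ j, 1 ≤ c j)
    (O : Orbit p a (cayT n d c hd hc)) {b : Fin r → ℕ}
    (hO : ∀ i, O.b 0 (Sum.inr (Sum.inl i)) = b i) :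
    ∑ j ∈ Finset.range a, ∑ v, O.τ j v = ∑ i, dsum p a (b i) := by
  rw [Finset.sum_comm, Fintype.sum_sum_type, Fintype.sum_sum_type]
  have h1 : ∑ x : Fin (n + 1), ∑ j ∈ Finset.range a, O.τ j (Sum.inl x) = 0 := by
    refine Finset.sum_eq_zero fun x _ => Finset.sum_eq_zero fun j _ => (O.out j _ ?_).2
    simp [cayT]
  have h2 : ∑ x : Fin s, ∑ j ∈ Finset.range a, O.τ j (Sum.inr (Sum.inr x)) = 0 := by
    refine Finset.sum_eq_zero fun x _ => Finset.sum_eq_zero fun j _ => (O.out j _ ?_).2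
    simp [cayT]
  rw [h1, h2, zero_add, add_zero]
  refine Finset.sum_congr rfl fun i _ => ?_
  rw [orbit_dsum hp O (by simp [cayT] : (Sum.inr (Sum.inl i)) ∈ (cayT n d c hd hc).Ys), hO]

end
private theorem da_step (p : ℕ) [Fact p.Prime] (F : Type) [Field F] [Fintype F] [CharP F p] (a : ℕ)
    (ha : 1 ≤ a)
    (hq : Fintype.card F = p ^ a) (n r s : ℕ) (hs : s ≤ n) (hr : 1 ≤ r)
    (d : Fin r → ℕ) (c : Fin s → ℕ) (hd : ∀ i, 1 ≤ d i) (hc : ∀ j, 1 ≤ c j)
    (D : Datum F n r s d c)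
    (b : Fin r → ℕ) (hb : ∀ i, 1 ≤ b i ∧ b i ≤ p ^ a - 2) (hsum : (p ^ a - 1) ∣ ∑ i, b i * d i)
    (O : Orbit p a (cayT n d c hd hc)) (hO : ∀ i, O.b 0 (Sum.inr (Sum.inl i)) = b i)
    (BB : Finset (Vr n r s → ℤ)) (k : ℕ)
    (R : Type) [CommRing R] [Algebra ℤ_[p] R] (DR : WD p k F R) (hk : 1 ≤ k)
    (hmk : WittVector p F →+* R) (hmkτ : ∀ x, hmk (WittVector.teichmuller p x) = DR.τ x)
    (Pi : PiData p k R) (A A' : ℕ → Matrix BB BB R) (hA : ∀ j, A j = (p : R) ^ s • A' j)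
    (u : Fin r → R)
    (K : Type) [Field K] [Fintype K] [Algebra F K] [CharP K p] (m : ℕ) (hm : 1 ≤ m)
    (hKm : Module.finrank F K = m)
    (A₁ : Type) [CommRing A₁] (DK : WD p k K A₁) (φ : R →+* A₁) (hφi : Function.Injective φ)
    (hφ : ∀ x, φ (DR.τ x) = DK.τ (algebraMap F K x))
    (B : Type) [CommRing B] [Algebra ℤ_[p] B] [Algebra A₁ B] (γ : B)
    (hinj : Function.Injective (algebraMap A₁ B))
    (hγ : γ ^ (p - 1) = algebraMap A₁ B (p * φ Pi.u))
    (htr : γ ^ (m * ∑ j ∈ Finset.range a, ∑ v, O.τ j v) * ((p : B) ^ (a * m) - 1) *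
                  (-1) ^ (Fintype.card (Vr n r s) - 1) *
                  algebraMap A₁ B (φ ((prodM A a ^ m).trace))
                = csum p (a * m) (cayT n d c hd hc) (cayF D) DK γ
                    (fun v => (p ^ a - 1 - O.b 0 v) * ((p ^ (a * m) - 1) / (p ^ a - 1))))
    (hu : ∀ i, gsum p (a * m) DK γ ((p ^ a - 1 - b i) * ((p ^ (a * m) - 1) / (p ^ a - 1)))
          = - γ ^ (m * dsum p a (b i)) * algebraMap A₁ B (φ (u i)) ^ m) :
    (p : R) ^ (((∑ j ∈ Finset.range a, ∑ v, O.τ j v) + s * a) * m + 2) *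
      (((prodM A' a) ^ m).trace - (-1) ^ (n - s) * (∏ i, u i) ^ m * hmk (charSum p D b K)) = 0 := by
  classical
  have hp : p.Prime := Fact.out
  have hcard : Fintype.card K = p ^ (a * m) := by
    rw [Module.card_eq_pow_finrank (K := F) (V := K), hq, hKm, ← pow_mul]
  set M := (p ^ (a * m) - 1) / (p ^ a - 1) with hM
  have hdvd : (p ^ a - 1) ∣ (p ^ (a * m) - 1) := by
    rw [pow_mul]
    simpa using Nat.sub_dvd_pow_sub_pow (p ^ a) 1 m
  have hMq : M * (p ^ a - 1) = p ^ (a * m) - 1 := Nat.div_mul_cancel hdvd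
  have hQ2 : 2 ≤ p ^ (a * m) := by
    calc 2 ≤ p := hp.two_le
      _ = p ^ 1 := (pow_one p).symm
      _ ≤ p ^ (a * m) := Nat.pow_le_pow_right hp.pos (Nat.mul_pos (by omega) (by omega))
  have hM1 : 1 ≤ M := by
    rcases Nat.eq_zero_or_pos M with h0 | h0
    · rw [h0, zero_mul] at hMq
      omega
    · exact h0
  have hγ' : γ ^ (p - 1) = algebraMap A₁ B (p * (Pi.map φ).u) := hγ
  have hce := csum_eval DK (Pi.map φ) γ hk hγ' hcard hd hc D
    (fun v => (p ^ a - 1 - O.b 0 v) * M) (fun i => (p ^ a - 1 - b i) * M) (fun i => b i * M)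
    (fun i => Nat.mul_pos (by have := hb i; omega) hM1)
    (fun i => Nat.mul_pos (by have := hb i; omega) hM1)
    (fun i => by
      have h1 := hb i
      have h2 : p ^ a - 1 - b i + b i = p ^ a - 1 := by omega
      rw [← add_mul, h2, hcard, mul_comm, hMq])
    (fun i => by simp only [hO])
  have hcs := cone_sum DK hr hd D (fun i => b i * M)
    (fun i => Nat.mul_pos (by have := hb i; omega) hM1) (by
      have h1 : ∑ i, d i * (b i * M) = M * ∑ i, b i * d i := by
        rw [Finset.mul_sum]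
        exact Finset.sum_congr rfl fun i _ => by ring
      rw [h1, hcard, ← hMq]
      exact mul_dvd_mul_left M hsum)
  have hcm := charSum_map (p := p) hq hm hKm D b DK (φ.comp hmk) (fun x => by
    rw [RingHom.comp_apply, hmkτ, hφ])
  rw [← hM] at hcm
  rw [← hcm] at hcs
  have hG : ∏ i, gsum p (a * m) DK γ ((p ^ a - 1 - b i) * M) =
      (-1) ^ r * γ ^ (m * ∑ j ∈ Finset.range a, ∑ v, O.τ j v) *
        (algebraMap A₁ B (φ (∏ i, u i))) ^ m := by
    rw [Finset.prod_congr rfl fun i _ => hu i]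
    rw [Finset.prod_mul_distrib, da_T hp hd hc O hO, Finset.mul_sum, ← Finset.prod_pow_eq_pow_sum]
    simp only [map_prod]
    rw [← Finset.prod_pow]
    congr 1
    rw [Finset.prod_neg]
    simp
  have htt := da_trace_smul ((p : R) ^ s) A A' hA a m
  have hvk : (p : A₁) ^ k = 0 := ppow_zero DK
  have hnil : IsNilpotent (p : B) := ⟨k, by
    have h1 := congrArg (algebraMap A₁ B) hvk
    rw [map_pow, map_natCast, map_zero] at h1
    exact h1⟩
  have hPu : IsUnit ((p : B) ^ (a * m) - 1) := by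
    have h1 : IsNilpotent ((p : B) ^ (a * m)) := hnil.pow_of_pos (by positivity)
    have h2 := h1.isUnit_one_sub
    rw [← neg_sub] at h2
    exact (IsUnit.neg_iff _).1 h2
  have hvu : IsUnit (algebraMap A₁ B ((Pi.map φ).u)) := (u_unit DK (Pi.map φ) hk).map _
  have hcardV : Fintype.card (Vr n r s) - 1 = n + r + s := by
    rw [cay_card]
    omega
  rw [hcardV] at htr
  have hγ2 : γ ^ (p - 1) = (p : B) * algebraMap A₁ B ((Pi.map φ).u) := by
    rw [hγ', map_mul, map_natCast]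
  have hfin := da_end (B := B) hp.two_le hs hγ2 hvu hPu
    (t' := algebraMap A₁ B (φ (((prodM A' a) ^ m).trace)))
    (S := algebraMap A₁ B (φ (hmk (charSum p D b K))))
    (X := algebraMap A₁ B (∑ x : Fin (n + 1) → K, if ∀ j, aeval x (D.h j) = 0 then
          ∏ i, DK.τ (aeval x (D.f i)) ^ (b i * M) else 0))
    htr hce hG (by
      rw [hcs, map_mul, hcard]
      simp only [map_sub, map_one, map_natCast, Nat.cast_pow, map_pow]
      rfl) (by
      rw [htt]
      simp only [map_mul, map_pow, map_natCast])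
  have hfin2 : algebraMap A₁ B (φ ((p : R) ^ (((∑ j ∈ Finset.range a, ∑ v, O.τ j v) + s * a) * m + 2) *
      (((prodM A' a) ^ m).trace - (-1) ^ (n - s) * (∏ i, u i) ^ m * hmk (charSum p D b K)))) = 0 := by
    simp only [map_mul, map_pow, map_natCast, map_sub, map_neg, map_one]
    exact hfin
  have h3 := (map_eq_zero_iff _ hinj).1 hfin2
  exact (map_eq_zero_iff _ hφi).1 h3
theorem d_assembly (p : ℕ) [Fact p.Prime] (F : Type) [Field F] [Fintype F] [CharP F p] (a : ℕ)
    (hq : Fintype.card F = p ^ a) (n r s : ℕ) (hs : s ≤ n) (hr : 1 ≤ r)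
    (d : Fin r → ℕ) (c : Fin s → ℕ) (hd : ∀ i, 1 ≤ d i) (hc : ∀ j, 1 ≤ c j)
    (D : Datum F n r s d c) (hN : CondN (AlgebraicClosure F) D)
    (b : Fin r → ℕ) (hb : ∀ i, 1 ≤ b i ∧ b i ≤ p ^ a - 2) (hsum : (p ^ a - 1) ∣ ∑ i, b i * d i)
    (E : ℕ → Type) [∀ m, Field (E m)] [∀ m, Algebra F (E m)] [∀ m, Finite (E m)]
    (hE : ∀ m, 1 ≤ m → Module.finrank F (E m) = m)
    (O : Orbit p a (cayT n d c hd hc)) (hO : ∀ i, O.b 0 (Sum.inr (Sum.inl i)) = b i)
    (hlow : ∀ (j : ℕ) (w : ℤ), w < s → jnum (cayT n d c hd hc) (O.δ j) w = 0) :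
    ∃ (BB : Finset (Vr n r s → ℤ)) (Bs : ℕ → Finset (Vr n r s → ℤ)),
      (∀ j, Bs j ⊆ BB) ∧ (∀ j, ∀ e ∈ Bs j, (s : ℤ) ≤ (cayT n d c hd hc).wt e) ∧
      (∀ (j : ℕ) (w : ℤ),
        (((Bs j).filter (fun e => (cayT n d c hd hc).wt e = w)).card : ℤ)
          = jnum (cayT n d c hd hc) (O.δ j) w) ∧
      ∃ (cst : ℕ) (A : ∀ k : ℕ, ℕ → Matrix BB BB
          (WittVector p F ⧸ Ideal.span {(p : WittVector p F) ^ k}))
        (U : ∀ k : ℕ, WittVector p F ⧸ Ideal.span {(p : WittVector p F) ^ k}),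
        (∀ k, IsUnit (U k)) ∧
        (∀ k j, j < a → ∀ b b', b.1 ∉ Bs (j + 1) → A k j b b' = 0) ∧
        (∀ k j, j < a → ∀ b b',
          (p : WittVector p F ⧸ Ideal.span {(p : WittVector p F) ^ k}) ^
            ((cayT n d c hd hc).wt b.1 - s).toNat ∣ A k j b b') ∧
        (∀ k m, 1 ≤ m →
          (p : WittVector p F ⧸ Ideal.span {(p : WittVector p F) ^ k}) ^ (cst * m + 2) *
            (((prodM (A k) a) ^ m).trace
              - (((-1) ^ (n - s) : ℤ) :
                  WittVector p F ⧸ Ideal.span {(p : WittVector p F) ^ k}) * U k ^ m *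
                Ideal.Quotient.mk _ (charSum p D b (E m))) = 0) := by
  classical
  have ha : 1 ≤ a := h_pos hq
  have hp : p.Prime := Fact.out
  have hY : (cayT n d c hd hc).Ys.Nonempty :=
    ⟨Sum.inr (Sum.inl ⟨0, hr⟩), by simp [cayT]⟩
  obtain ⟨BB, Bs, hB1, -, hB3, hB4⟩ := trace_main p a ha F hq (cayT n d c hd hc) hY (cayF D)
    (cay_hom D hd hc) (cay_unitCond D hd hc (AlgebraicClosure F) hN) O
  have hB2 : ∀ j, ∀ e ∈ Bs j, (s : ℤ) ≤ (cayT n d c hd hc).wt e := by
    intro j e he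
    by_contra hlt
    have h1 := hB3 j ((cayT n d c hd hc).wt e)
    rw [hlow j _ (by omega)] at h1
    have h2 : ((Bs j).filter (fun e' => (cayT n d c hd hc).wt e' = (cayT n d c hd hc).wt e)).card
        = 0 := by exact_mod_cast h1
    rw [Finset.card_eq_zero] at h2
    have h3 : e ∈ ((Bs j).filter (fun e' => (cayT n d c hd hc).wt e' = (cayT n d c hd hc).wt e)) :=
      Finset.mem_filter.2 ⟨he, rfl⟩
    rw [h2] at h3
    exact absurd h3 (Finset.notMem_empty _)
  refine ⟨BB, Bs, hB1, hB2, hB3, (∑ j ∈ Finset.range a, ∑ v, O.τ j v) + s * a + a, ?_⟩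
  set T := ∑ j ∈ Finset.range a, ∑ v, O.τ j v with hT
  have : ExpChar F p := ExpChar.prime hp
  have : PerfectRing F p := inferInstance
  have key : ∀ k : ℕ, ∃ (A : ℕ → Matrix BB BB
      (WittVector p F ⧸ Ideal.span {(p : WittVector p F) ^ k}))
      (U : WittVector p F ⧸ Ideal.span {(p : WittVector p F) ^ k}),
      IsUnit U ∧ (∀ j, j < a → ∀ b b', b.1 ∉ Bs (j + 1) → A j b b' = 0) ∧
      (∀ j, j < a → ∀ b b', (p : WittVector p F ⧸ Ideal.span {(p : WittVector p F) ^ k}) ^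
            ((cayT n d c hd hc).wt b.1 - s).toNat ∣ A j b b') ∧
      (∀ m, 1 ≤ m → (p : WittVector p F ⧸ Ideal.span {(p : WittVector p F) ^ k}) ^
            ((T + s * a + a) * m + 2) *
            (((prodM A a) ^ m).trace
              - (((-1) ^ (n - s) : ℤ) :
                  WittVector p F ⧸ Ideal.span {(p : WittVector p F) ^ k}) * U ^ m *
                Ideal.Quotient.mk _ (charSum p D b (E m))) = 0) := by
    intro k
    by_cases hk : k ≤ a + 2
    · refine ⟨fun _ => 0, 1, isUnit_one, fun _ _ _ _ _ => rfl, fun _ _ _ _ => dvd_zero _,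
        fun m hm => ?_⟩
      have h1 : (p : WittVector p F ⧸ Ideal.span {(p : WittVector p F) ^ k}) ^
          ((T + s * a + a) * m + 2) = 0 := by
        have h2 : k ≤ (T + s * a + a) * m + 2 := by
          have h3 : a * 1 ≤ (T + s * a + a) * m := Nat.mul_le_mul (by omega) hm
          omega
        exact pow_eq_zero_of_le h2 (WQ_pk p k F)
      rw [h1, zero_mul]
    · push Not at hk
      have hk1 : 1 ≤ k := by omega
      obtain ⟨DR, hDR, -⟩ := exists_WD p (F := F) hk1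
      obtain ⟨hom⟩ := exists_padicHom p (WQ_pk p k F)
      let _ : Algebra ℤ_[p] (WQ p k F) := hom.toAlgebra
      obtain ⟨Pi⟩ := exists_piData hp (WQ_pk p k F)
      obtain ⟨A, hA1, hA2, hA3⟩ := hB4 k hk1 (WQ p k F) DR Pi
      have hdiv : ∀ j (b b' : BB), ∃ x : WQ p k F, A j b b' = (p : WQ p k F) ^ s * x ∧
          (b.1 ∉ Bs (j + 1) → x = 0) ∧
          (p : WQ p k F) ^ ((cayT n d c hd hc).wt b.1 - s).toNat ∣ x := by
        intro j b b'
        by_cases hb : b.1 ∈ Bs (j + 1)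
        · obtain ⟨y, hy⟩ := hA2 j b b'
          have h1 := hB2 (j + 1) b.1 hb
          have h2 : ((cayT n d c hd hc).wt b.1).toNat =
              s + ((cayT n d c hd hc).wt b.1 - s).toNat := by omega
          refine ⟨(p : WQ p k F) ^ ((cayT n d c hd hc).wt b.1 - s).toNat * y, ?_,
            fun h => absurd hb h, Dvd.intro _ rfl⟩
          rw [hy, h2, pow_add, mul_assoc]
        · exact ⟨0, by rw [hA1 j b b' hb, mul_zero], fun _ => rfl, dvd_zero _⟩
      choose A' hA'1 hA'2 hA'3 using hdiv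
      have hu := fun i => gauss_unit p a ha F hq (hb i) k hk (WQ p k F) DR Pi
      choose u hu1 hu2 using hu
      refine ⟨fun j => Matrix.of (A' j), ∏ i, u i, ?_, fun j _ b b' h => hA'2 j b b' h,
        fun j _ b b' => hA'3 j b b', fun m hm => ?_⟩
      · exact IsUnit.prod_univ_iff.2 hu1
      · let _ : Fintype (E m) := Fintype.ofFinite _
        have : CharP (E m) p := charP_of_injective_algebraMap (algebraMap F (E m)).injective p
        have : ExpChar (E m) p := ExpChar.prime hp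
        have : PerfectRing (E m) p := inferInstance
        obtain ⟨φ, hφ1, hφ2⟩ := exists_WQmap p (F := F) (K := E m) k
        obtain ⟨DK, hDK, -⟩ := exists_WD p (F := E m) hk1
        obtain ⟨B, iB, iA, γ, hγ, hinj⟩ := exists_gamma p (A := WQ p k (E m)) ((p : WQ p k (E m)) * φ Pi.u)
        let _ : Algebra ℤ_[p] B := ((algebraMap (WQ p k (E m)) B).comp
          (φ.comp (algebraMap ℤ_[p] (WQ p k F)))).toAlgebra
        have hφτ : ∀ x, φ (DR.τ x) = DK.τ (algebraMap F (E m) x) := by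
          intro x
          rw [hDR, hφ1, hDK, WittVector.map_teichmuller]
        have h1 := da_step p F a ha hq n r s hs hr d c hd hc D b hb hsum O hO BB k (WQ p k F) DR
          hk1 (Ideal.Quotient.mk _) (fun x => (hDR x).symm) Pi A (fun j => Matrix.of (A' j))
          (fun j => by
            ext b b'
            rw [Matrix.smul_apply, smul_eq_mul]
            exact hA'1 j b b') u (E m) m hm (hE m hm) (WQ p k (E m)) DK φ hφ2 hφτ B γ hinj hγ
          (hA3 m hm (E m) (hE m hm) (WQ p k (E m)) DK φ hφτ B γ (fun x => rfl) hγ)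
          (fun i => hu2 i m hm (E m) (hE m hm) (WQ p k (E m)) DK φ hφτ B γ (fun x => rfl) hγ)
        have h2 : (T + s * a + a) * m + 2 = a * m + ((T + s * a) * m + 2) := by ring
        rw [h2, pow_add, mul_assoc]
        have h3 : (((-1) ^ (n - s) : ℤ) : WQ p k F) = (-1) ^ (n - s) := by push_cast; rfl
        rw [h3, h1, mul_zero]
  choose A U h1 h2 h3 h4 using key
  exact ⟨A, U, h1, h2, h3, h4⟩

end HN
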