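import Pool.Agent.HN.Defs

/-!
# HN/Data : the p-adic data (interface between the parts)

`R` is `W(F)/p^k` for a finite field `F`.
-/

open MvPolynomial

namespace HN

/-- truncated Witt ring data: `π` reduction mod `p`, `τ` Teichmüller representatives -/
structure WD (p k : ℕ) (F R : Type*) [Field F] [CommRing R] where
  π : R →+* F
  τ : F →*₀ R
  πτ : ∀ x, π (τ x) = x
  ker : ∀ x, π x = 0 ↔ (p : R) ∣ x
  ann : ∀ i, i ≤ k → ∀ x, (p : R) ^ i * x = 0 ↔ (p : R) ^ (k - i) ∣ x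

/-- `g_i = 1 + p + ... + p^(i-1) = (p^i - 1)/(p - 1)` -/
def gi (p i : ℕ) : ℕ := ∑ j ∈ Finset.range i, p ^ j

/-- the constants `u = υ` (so that `γ^(p-1) = p u` for the Artin-Hasse uniformiser `γ`) and
`w l = π̃_l` -/
structure PiData (p k : ℕ) (R : Type*) [CommRing R] where
  u : R
  w : ℕ → R
  u1 : (p : R) ∣ u + 1
  eq : 1 + u + ∑ i ∈ Finset.Ico 2 (k + 2), (p : R) ^ (gi p i - i) * u ^ gi p i = 0
  w0 : w 0 = 1
  ws : ∀ l, ((p : R) * u) ^ p ^ l * (w (l + 1) - 1) = p * w l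
  wd : ∀ l, (p : R) ^ (p ^ l - 1) ∣ w l

/-- transport of the constants along a ring homomorphism -/
def PiData.map {p k : ℕ} {R S : Type*} [CommRing R] [CommRing S] (Pi : PiData p k R)
    (φ : R →+* S) : PiData p k S where
  u := φ Pi.u
  w l := φ (Pi.w l)
  u1 := by
    obtain ⟨y, hy⟩ := Pi.u1
    exact ⟨φ y, by rw [← map_one φ, ← map_add, hy, map_mul, map_natCast]⟩
  eq := by
    have h := congrArg φ Pi.eq
    simpa [map_add, map_sum, map_mul, map_pow] using h
  w0 := by rw [Pi.w0, map_one]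
  ws l := by
    have h := congrArg φ (Pi.ws l)
    simpa [map_mul, map_pow, map_sub] using h
  wd l := by
    obtain ⟨y, hy⟩ := Pi.wd l
    exact ⟨φ y, by rw [hy, map_mul, map_pow, map_natCast]⟩

end HN
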