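import Pool.Agent.HN.Ext

/-!
# HN/Defs : Laurent polynomials, Cayley types, the Koszul complex of `F`

* `Lau ι R`    : Laurent polynomials in the variables `ι` (finite support in `ι → ℤ`);
* `CType ι`    : which variables are `x`-variables, which are logarithmic (`Y`), and the degrees;
* `thr`        : the exponent of `v` in the component `A` is `≥ thr v A` (unless `v` is inverted);
* `KT C T δ j` : forms of degree `j`, all exponents of degree `δ`, the variables in `T` inverted.
-/

open MvPolynomial

namespace HN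

section Lau
variable (ι : Type*) (R : Type*) [CommRing R]

/-- Laurent polynomials -/
abbrev Lau := AddMonoidAlgebra R (ι → ℤ)
end Lau

section ops
variable {ι : Type*} [DecidableEq ι] {R : Type*} [CommRing R]

variable (R) in
/-- the monomial `X^e` -/
noncomputable def mon (e : ι → ℤ) : Lau ι R := AddMonoidAlgebra.single e 1

/-- polynomials as Laurent polynomials -/
noncomputable def toL : MvPolynomial ι R →ₐ[R] Lau ι R :=
  MvPolynomial.aeval (fun v => AddMonoidAlgebra.single (Pi.single v (1 : ℤ)) (1 : R))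

open Classical in
variable (R) in
/-- keep only the exponents in `S` -/
noncomputable def restr (S : Set (ι → ℤ)) : Lau ι R →ₗ[R] Lau ι R where
  toFun f := AddMonoidAlgebra.ofCoeff (f.coeff.filter (· ∈ S))
  map_add' f g := by
    ext e
    by_cases h : e ∈ S <;> simp [Finsupp.filter_apply, h]
  map_smul' c f := by
    ext e
    by_cases h : e ∈ S <;> simp [Finsupp.filter_apply, h]

variable (R) in
/-- diagonal operator: multiply the coefficient of `X^e` by `c e` -/
noncomputable def diag (c : (ι → ℤ) → R) : Lau ι R →ₗ[R] Lau ι R where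
  toFun f := AddMonoidAlgebra.ofCoeff
    (Finsupp.onFinset f.coeff.support (fun e => c e * f.coeff e) (by
      intro e h; simp only [Finsupp.mem_support_iff]; intro h'; exact h (by simp [h'])))
  map_add' f g := by
    ext e; simp [mul_add]
  map_smul' c' f := by
    ext e; simp [mul_left_comm]

/-- forms whose support satisfies `P` -/
def Sp (R : Type*) [CommRing R] (P : Finset ι → (ι → ℤ) → Prop) :
    Submodule R (Finset ι → Lau ι R) where
  carrier := {ξ | ∀ A e, (ξ A).coeff e ≠ 0 → P A e}
  zero_mem' := by intro A e h; exact absurd rfl h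
  add_mem' {x y} hx hy := by
    intro A e h
    by_cases h1 : (x A).coeff e = 0
    · exact hy A e (by intro h2; exact h (by simp [h1, h2]))
    · exact hx A e h1
  smul_mem' c x hx := by
    intro A e h
    exact hx A e (by intro h1; exact h (by simp [h1]))

end ops

/-- Cayley type: `Xs` the `x`-variables (degree 1), `Ys` the logarithmic variables, `wd` the degrees
(negative outside `Xs`). -/
structure CType (ι : Type*) [DecidableEq ι] where
  Xs : Finset ι
  Ys : Finset ι
  wd : ι → ℤ
  hX : ∀ v ∈ Xs, wd v = 1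
  hXY : ∀ v ∈ Ys, v ∉ Xs
  hneg : ∀ v, v ∉ Xs → wd v < 0

namespace CType
variable {ι : Type*} [Fintype ι] [DecidableEq ι] (C : CType ι)

/-- threshold of the exponent of `v` in the component `A` -/
def thr (v : ι) (A : Finset ι) : ℤ := if v ∈ A ∧ v ∉ C.Ys then 1 else 0

/-- degree of an exponent vector -/
def deg (e : ι → ℤ) : ℤ := ∑ v, C.wd v * e v

/-- weight of an exponent vector: total exponent of the variables outside `X` -/
def wt (e : ι → ℤ) : ℤ := ∑ v ∈ C.Xsᶜ, e v

/-- `∑_{v ∈ Y} |wd v|` (`= ∑ d_i`) -/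
def dlog : ℤ := ∑ v ∈ C.Ys, - C.wd v

/-- every monomial of `F` has degree `0` and weight `1` -/
def Hom {R : Type*} [CommRing R] (F : MvPolynomial ι R) : Prop :=
  ∀ m : ι →₀ ℕ, F.coeff m ≠ 0 → C.deg (fun v => (m v : ℤ)) = 0 ∧ C.wt (fun v => (m v : ℤ)) = 1

/-- the Koszul elements: `∂F/∂v`, multiplied by `v` for logarithmic `v` -/
noncomputable def g {R : Type*} [CommRing R] (F : MvPolynomial ι R) (v : ι) : MvPolynomial ι R :=
  if v ∈ C.Ys then X v * pderiv v F else pderiv v F

/-- after inverting one `x`-variable and one other variable the Koszul elements generate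
the unit ideal -/
def UnitCond {R : Type*} [CommRing R] (F : MvPolynomial ι R) : Prop :=
  ∀ a ∈ C.Xs, ∀ b, b ∉ C.Xs →
    ∃ M : ℕ, (X a * X b : MvPolynomial ι R) ^ M ∈ Ideal.span (Set.range (C.g F))

end CType

section koszul
variable {ι : Type*} [Fintype ι] [DecidableEq ι] [Ranked ι] {R : Type*} [CommRing R]

/-- multiplication by `v ∂F/∂v` -/
noncomputable def Tm (F : MvPolynomial ι R) (v : ι) : Lau ι R →ₗ[R] Lau ι R :=
  LinearMap.mulLeft R (toL (X v * pderiv v F))

/-- the graded Koszul differential `∑_v e_v ∧ v∂_vF` -/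
noncomputable def Dk (F : MvPolynomial ι R) : (Finset ι → Lau ι R) →ₗ[R] (Finset ι → Lau ι R) :=
  kos R (Tm F)

variable (R) in
/-- Euler contraction `e_v ↦ wd v` -/
noncomputable def eul (C : CType ι) {N : Type*} [AddCommGroup N] [Module R N] :
    (Finset ι → N) →ₗ[R] (Finset ι → N) :=
  ∑ v, (C.wd v : R) • co R v

variable (R) in
/-- forms of degree `j`, exponents of degree `δ`, variables in `T` inverted -/
def KT (C : CType ι) (T : Finset ι) (δ j : ℤ) : Submodule R (Finset ι → Lau ι R) :=
  Sp R (fun A e => (A.card : ℤ) = j ∧ C.deg e = δ ∧ ∀ v, v ∉ T → C.thr v A ≤ e v)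

variable (R) in
/-- same with fixed weight `w` -/
def KW (C : CType ι) (T : Finset ι) (δ j w : ℤ) : Submodule R (Finset ι → Lau ι R) :=
  Sp R (fun A e => (A.card : ℤ) = j ∧ C.deg e = δ ∧ (∀ v, v ∉ T → C.thr v A ≤ e v) ∧ C.wt e = w)

/-! ### total complexes over the subsets `T` of inverted variables -/

/-- sign `(-1)^{|T|}` -/
def sgT {V : Type*} [AddCommGroup V] [Module R V] : (Finset ι → V) →ₗ[R] (Finset ι → V) where
  toFun ξ T := (-1 : R) ^ T.card • ξ T
  map_add' x y := by funext T; simp
  map_smul' c x := by funext T; simp [smul_comm c]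

/-- total differential: Čech in the directions `S` plus `(-1)^{|T|}` times `Dn` -/
noncomputable def tot {V : Type*} [AddCommGroup V] [Module R V] (S : Finset ι) (Dn : V →ₗ[R] V) :
    (Finset ι → V) →ₗ[R] (Finset ι → V) :=
  ce R S + sgT ∘ₗ mp R Dn

/-- total degree `m` part of a system of graded submodules `M T j` -/
def Tt {V : Type*} [AddCommGroup V] [Module R V] (M : Finset ι → ℤ → Submodule R V) (m : ℤ) :
    Submodule R (Finset ι → V) where
  carrier := {ξ | ∀ T, ξ T ∈ M T (m - T.card)}
  zero_mem' := fun T => (M T _).zero_mem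
  add_mem' hx hy := fun T => (M T _).add_mem (hx T) (hy T)
  smul_mem' c x hx := fun T => (M T _).smul_mem c (hx T)

/-- bidegree `(p, j)` part -/
def Tb {V : Type*} [AddCommGroup V] [Module R V] (M : Finset ι → ℤ → Submodule R V) (p j : ℤ) :
    Submodule R (Finset ι → V) where
  carrier := {ξ | ∀ T, ξ T ∈ M T j ∧ ((T.card : ℤ) ≠ p → ξ T = 0)}
  zero_mem' := fun T => ⟨(M T _).zero_mem, fun _ => rfl⟩
  add_mem' hx hy := fun T => ⟨(M T _).add_mem (hx T).1 (hy T).1, fun h => by
    simp [(hx T).2 h, (hy T).2 h]⟩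
  smul_mem' c x hx := fun T => ⟨(M T _).smul_mem c (hx T).1, fun h => by simp [(hx T).2 h]⟩

end koszul

end HN
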