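import Mathlib

/-! # HN/Devis : dévissage modulo powers of `p` (module HND-05)

`K j` (`j ∈ ℤ`) graded pieces of a module with `p^i x = 0 → x ∈ p^(k-i) K j` (`i ≤ k`), `D` raises the
degree.

PLAN.  `devis_lt`: for `m ≤ k` and `z ∈ K j` with `D z ∈ p^m K (j+1)` there are `y ∈ K (j-1)`,
`z' ∈ K j` with `z = D y + p^m z'`; induction on `m`: `z = D y + p^m z'`, `D z = p^(m+1) c`,
so `p^m (D z' - p c) = 0`, `D z' - p c ∈ p^(k-m) K ⊆ p K` (`m < k`), so `D z' ∈ p K`; by `h1` (the case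
`m = 1`) `z' = D y' + p z''`, `z = D (y + p^m y') + p^(m+1) z''`.  At `m = k` use `p^k = 0`
(`hk`).
`devis_b`: the same in degree `M - 1` with the additional term `E t` (`D (E t) = 0` for `t ∈ K M`
because `D (E t) = - E (D t)`, `D t ∈ K (M+1) = 0`; this is hypothesis `hDE`).
`devis_u` (uniqueness): by induction on `m ≤ k`: `p^m ∣ c e` for all `e ∈ Bs` (`c e = p^m c' e`).
Step `m → m+1`, `m < k`: `S := ∑ c e b e = D η = p^m S'`, `S' = ∑ c' e • b e`; by `devis_b'` (the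
statement `devis_b` for `m` instead of `k`) `η = D y + E t + p^m η'`, so `p^m (S' - D η') = 0`,
`S' - D η' ∈ p K`, and by `hu` (the case modulo `p`) `p ∣ c' e`.
-/

namespace HN

section
variable {V R : Type*} [CommRing R] [AddCommGroup V] [Module R V]

/-- the hypotheses of the dévissage -/
structure DV (p : R) (k : ℕ) (K : ℤ → Submodule R V) (D : V →ₗ[R] V) : Prop where
  hk : p ^ k = 0
  ann : ∀ i, i ≤ k → ∀ j, ∀ x ∈ K j, p ^ i • x = 0 → ∃ y ∈ K j, x = p ^ (k - i) • y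
  hD : ∀ j, ∀ x ∈ K j, D x ∈ K (j + 1)
  DD : ∀ j, ∀ x ∈ K j, D (D x) = 0

private theorem dv_div {p : R} {k : ℕ} {K : ℤ → Submodule R V} {D : V →ₗ[R] V} (H : DV p k K D)
    {m : ℕ} (hm : m + 1 ≤ k) {j : ℤ} {x : V} (hx : x ∈ K j) (h : p ^ m • x = 0) :
    ∃ y ∈ K j, x = p • y := by
  obtain ⟨y, hy, e⟩ := H.ann m (by omega) j x hx h
  refine ⟨p ^ (k - m - 1) • y, (K j).smul_mem _ hy, ?_⟩
  rw [smul_smul, ← pow_succ', e]
  congr 2
  omega

theorem devis_lt {p : R} {k : ℕ} {K : ℤ → Submodule R V} {D : V →ₗ[R] V} (H : DV p k K D) {j : ℤ}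
    (h1 : ∀ z ∈ K j, (∃ c ∈ K (j + 1), D z = p • c) →
      ∃ y ∈ K (j - 1), ∃ z' ∈ K j, z = D y + p • z') :
    ∀ z ∈ K j, D z = 0 → ∃ y ∈ K (j - 1), D y = z := by
  have key : ∀ m, m ≤ k → ∀ z ∈ K j, (∃ c ∈ K (j + 1), D z = p ^ m • c) →
      ∃ y ∈ K (j - 1), ∃ z' ∈ K j, z = D y + p ^ m • z' := by
    intro m
    induction m with
    | zero =>
      intro _ z hz _
      exact ⟨0, (K (j - 1)).zero_mem, z, hz, by rw [map_zero, zero_add, pow_zero, one_smul]⟩
    | succ m ih =>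
      intro hm z hz ⟨c, hc, hDz⟩
      obtain ⟨y, hy, z', hz', e⟩ := ih (by omega) z hz
        ⟨p • c, (K (j + 1)).smul_mem _ hc, by rw [hDz, smul_smul, ← pow_succ]⟩
      have h2 : p ^ m • (D z' - p • c) = 0 := by
        have h3 : D z = p ^ m • D z' := by
          rw [e, map_add, H.DD _ y hy, zero_add, map_smul]
        rw [smul_sub, ← h3, hDz, smul_smul, ← pow_succ, sub_self]
      obtain ⟨x, hx, hx2⟩ := dv_div H hm
        ((K (j + 1)).sub_mem (H.hD j z' hz') ((K (j + 1)).smul_mem p hc)) h2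
      obtain ⟨y', hy', z'', hz'', e'⟩ := h1 z' hz' ⟨c + x, (K (j + 1)).add_mem hc hx, by
        rw [smul_add, ← hx2]; abel⟩
      refine ⟨y + p ^ m • y', (K (j - 1)).add_mem hy ((K (j - 1)).smul_mem _ hy'), z'', hz'', ?_⟩
      rw [e, e', map_add, map_smul, smul_add, smul_smul, ← pow_succ, add_assoc]
  intro z hz hDz
  obtain ⟨y, hy, z', _, e⟩ := key k le_rfl z hz ⟨0, (K (j + 1)).zero_mem, by rw [hDz, smul_zero]⟩
  refine ⟨y, hy, ?_⟩
  rw [e, H.hk, zero_smul, add_zero]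

theorem devis_b {p : R} {k : ℕ} {K : ℤ → Submodule R V} {D E : V →ₗ[R] V} (H : DV p k K D) {M : ℤ}
    (hDE : ∀ t ∈ K M, D (E t) = 0) (hE : ∀ t ∈ K M, E t ∈ K (M - 1))
    (h1 : ∀ z ∈ K (M - 1), (∃ c ∈ K M, D z = p • c) →
      ∃ y ∈ K (M - 2), ∃ t ∈ K M, ∃ z' ∈ K (M - 1), z = D y + E t + p • z') :
    ∀ m, m ≤ k → ∀ z ∈ K (M - 1), (∃ c ∈ K M, D z = p ^ m • c) →
      ∃ y ∈ K (M - 2), ∃ t ∈ K M, ∃ z' ∈ K (M - 1), z = D y + E t + p ^ m • z' := by
  intro m
  induction m with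
  | zero =>
    intro _ z hz _
    exact ⟨0, (K (M - 2)).zero_mem, 0, (K M).zero_mem, z, hz, by
      rw [map_zero, map_zero, zero_add, pow_zero, one_smul, zero_add]⟩
  | succ m ih =>
    intro hm z hz ⟨c, hc, hDz⟩
    obtain ⟨y, hy, t, ht, z', hz', e⟩ := ih (by omega) z hz
      ⟨p • c, (K M).smul_mem _ hc, by rw [hDz, smul_smul, ← pow_succ]⟩
    have h2 : p ^ m • (D z' - p • c) = 0 := by
      have h3 : D z = p ^ m • D z' := by
        rw [e, map_add, map_add, H.DD _ y hy, hDE t ht, zero_add, zero_add, map_smul]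
      rw [smul_sub, ← h3, hDz, smul_smul, ← pow_succ, sub_self]
    have hDz' : D z' ∈ K M := by
      have := H.hD _ z' hz'
      rwa [sub_add_cancel] at this
    obtain ⟨x, hx, hx2⟩ := dv_div H hm ((K M).sub_mem hDz' ((K M).smul_mem p hc)) h2
    obtain ⟨y', hy', t', ht', z'', hz'', e'⟩ := h1 z' hz' ⟨c + x, (K M).add_mem hc hx, by
      rw [smul_add, ← hx2]; abel⟩
    refine ⟨y + p ^ m • y', (K (M - 2)).add_mem hy ((K (M - 2)).smul_mem _ hy'),
      t + p ^ m • t', (K M).add_mem ht ((K M).smul_mem _ ht'), z'', hz'', ?_⟩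
    rw [e, e', map_add, map_add, map_smul, map_smul, smul_add, smul_add, smul_smul, ← pow_succ]
    abel

theorem devis_u {p : R} {k : ℕ} {K : ℤ → Submodule R V} {D E : V →ₗ[R] V} (H : DV p k K D) {M : ℤ}
    (hDE : ∀ t ∈ K M, D (E t) = 0) (hE : ∀ t ∈ K M, E t ∈ K (M - 1))
    (h1 : ∀ z ∈ K (M - 1), (∃ c ∈ K M, D z = p • c) →
      ∃ y ∈ K (M - 2), ∃ t ∈ K M, ∃ z' ∈ K (M - 1), z = D y + E t + p • z')
    {α : Type*} (Bs : Finset α) (b : α → V) (hb : ∀ e ∈ Bs, b e ∈ K M)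
    (hu : ∀ c : α → R, ∀ η ∈ K (M - 1), ∀ x ∈ K M,
      ∑ e ∈ Bs, c e • b e = D η + p • x → ∀ e ∈ Bs, p ∣ c e)
    (c : α → R) (η : V) (hη : η ∈ K (M - 1)) (h : ∑ e ∈ Bs, c e • b e = D η) :
    ∀ e ∈ Bs, c e = 0 := by
  have key : ∀ m, m ≤ k → ∃ c' : α → R, ∀ e ∈ Bs, c e = p ^ m * c' e := by
    intro m
    induction m with
    | zero =>
      intro _
      exact ⟨c, fun e _ => by rw [pow_zero, one_mul]⟩
    | succ m ih =>
      intro hm
      obtain ⟨c', hc'⟩ := ih (by omega)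
      have hS : ∑ e ∈ Bs, c' e • b e ∈ K M :=
        (K M).sum_mem fun e he => (K M).smul_mem _ (hb e he)
      have h2 : D η = p ^ m • ∑ e ∈ Bs, c' e • b e := by
        rw [← h, Finset.smul_sum]
        refine Finset.sum_congr rfl fun e he => ?_
        rw [hc' e he, smul_smul]
      obtain ⟨y, hy, t, ht, η', hη', e⟩ := devis_b H hDE hE h1 m (by omega) η hη ⟨_, hS, h2⟩
      have h3 : D η = p ^ m • D η' := by
        rw [e, map_add, map_add, H.DD _ y hy, hDE t ht, zero_add, zero_add, map_smul]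
      have h4 : p ^ m • (∑ e ∈ Bs, c' e • b e - D η') = 0 := by
        rw [smul_sub, ← h3, ← h2, sub_self]
      have hDη' : D η' ∈ K M := by
        have := H.hD _ η' hη'
        rwa [sub_add_cancel] at this
      obtain ⟨x, hx, hx2⟩ := dv_div H hm ((K M).sub_mem hS hDη') h4
      have h5 := hu c' η' hη' x hx (by rw [← hx2]; abel)
      classical
      refine ⟨fun e => if he : e ∈ Bs then (h5 e he).choose else 0, fun e he => ?_⟩
      have h6 : (if he : e ∈ Bs then (h5 e he).choose else 0) = (h5 e he).choose := dif_pos he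
      have h7 : c' e = p * (h5 e he).choose := (h5 e he).choose_spec
      show c e = p ^ (m + 1) * (if he : e ∈ Bs then (h5 e he).choose else 0)
      rw [h6, pow_succ, mul_assoc, ← h7]
      exact hc' e he
  obtain ⟨c', hc'⟩ := key k le_rfl
  intro e he
  rw [hc' e he, H.hk, zero_mul]

end

end HN
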