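import Pool.Agent.HN.TrF

/-! # HN/Dig : digits and levels (module HND-31)

PLAN.  `hom_mapD`, `unitCond_mapD`: `map φ` of the relation, `map φ (C.g f v) = C.g (map φ f) v`
(`pderiv_map`), `Ideal.mem_span_range_iff_exists_fun`.
`Dig.tau_zero`: `0 = (q-1) τ`, `q ≥ 2`.  `Dig.delta`: multiply by `q - 1 ≠ 0`.
`Dig.delta_pos`, `Dig.delta_lt`: `(q-1) δ = ∑_{v ∈ Ys} (-wd v) b v` with `-wd v ≥ 1` (`C.hneg`, `C.hXY`),
`1 ≤ b v ≤ q - 2`.
`Dig.be`: `(q-1) ∑_{l<L} p^l τ_l = ∑_l p^l (p b_{l+1} - b_l) = p^L b_L - b_0` (telescoping).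
`Dig.td`: `p` is nilpotent in `R` (`W.ann k`), so `q - 1` is a unit of `R`; `ga l v := (q-1)⁻¹ b l v`;
`(q-1)(p ga_{l+1} - ga_l - τ_l) = 0`, `(q-1)(δ + ∑ wd ga) = 0`.
`frob_per`: `x^(p^a) = x` in `F` (`FiniteField.pow_card`).
`Ac_mul`: induction on `m`; `Ac M (L + a m) = Ac (fun l => M (l + a m)) L * Ac M (a m)`.
-/

open MvPolynomial

namespace HN

section
variable {ι : Type*} [Fintype ι] [DecidableEq ι]

theorem hom_mapD {F F' : Type*} [CommRing F] [CommRing F'] (φ : F →+* F') {C : CType ι}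
    {f : MvPolynomial ι F} (hF : C.Hom f) : C.Hom (map φ f) := by
  intro m hm
  refine hF m fun h => hm ?_
  rw [coeff_map, h, map_zero]

theorem unitCond_mapD {F F' : Type*} [CommRing F] [CommRing F'] (φ : F →+* F') {C : CType ι}
    {f : MvPolynomial ι F} (hU : C.UnitCond f) : C.UnitCond (map φ f) := by
  intro a ha b hb
  obtain ⟨M, hM⟩ := hU a ha b hb
  refine ⟨M, ?_⟩
  have h1 := Ideal.mem_map_of_mem (map φ : MvPolynomial ι F →+* MvPolynomial ι F') hM
  rw [map_pow, map_mul, map_X, map_X, Ideal.map_span] at h1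
  refine Ideal.span_mono ?_ h1
  rintro _ ⟨_, ⟨v, rfl⟩, rfl⟩
  refine ⟨v, ?_⟩
  unfold CType.g
  split_ifs
  · rw [map_mul, map_X, pderiv_map]
  · rw [pderiv_map]

private theorem Ac_add {R U : Type*} [CommRing R] [Fintype U] [DecidableEq U]
    (M : ℕ → Matrix U U R) (L K : ℕ) : Ac M (L + K) = Ac (fun l => M (l + K)) L * Ac M K := by
  induction L with
  | zero =>
    rw [zero_add]
    show Ac M K = 1 * Ac M K
    rw [one_mul]
  | succ L ih =>
    rw [show L + 1 + K = L + K + 1 by ring]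
    show M (L + K) * Ac M (L + K) = M (L + K) * Ac (fun l => M (l + K)) L * Ac M K
    rw [ih, mul_assoc]

theorem Ac_mul {R U : Type*} [CommRing R] [Fintype U] [DecidableEq U] {M : ℕ → Matrix U U R}
    {a : ℕ} (h : ∀ l, M (l + a) = M l) (m : ℕ) : Ac M (a * m) = Ac M a ^ m := by
  have hper : ∀ m l, M (l + a * m) = M l := by
    intro m
    induction m with
    | zero => intro l; rw [mul_zero, add_zero]
    | succ m ih => intro l; rw [mul_add, mul_one, ← add_assoc, h, ih]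
  induction m with
  | zero => rw [mul_zero, pow_zero]; rfl
  | succ m ih =>
    have e : a * (m + 1) = a + a * m := by ring
    have e2 : (fun l => M (l + a * m)) = M := funext fun l => hper m l
    rw [e, Ac_add, e2, ih, pow_succ']

/-- the digits `τ` and the numerators `b` (`γ = b/(q-1)`), `q = p^a` -/
structure Dig (C : CType ι) (p a : ℕ) (b τ : ℕ → ι → ℕ) (δ : ℕ → ℤ) : Prop where
  ha : 1 ≤ a
  rel : ∀ l v, p * b (l + 1) v = b l v + (p ^ a - 1) * τ l v
  hτ : ∀ l v, τ l v < p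
  h0 : ∀ l v, v ∉ C.Ys → b l v = 0
  h1 : ∀ l, ∀ v ∈ C.Ys, 1 ≤ b l v ∧ b l v < p ^ a - 1
  per : ∀ l v, b (l + a) v = b l v
  hδ : ∀ l, ((p : ℤ) ^ a - 1) * δ l + ∑ v, C.wd v * b l v = 0
  hY : C.Ys.Nonempty

variable {C : CType ι} {p a : ℕ} {b τ : ℕ → ι → ℕ} {δ : ℕ → ℤ}

private theorem Dig.q_pos (H : Dig C p a b τ δ) (hp : p.Prime) : 0 < p ^ a - 1 := by
  have h1 : 1 < p ^ a := Nat.one_lt_pow (by have := H.ha; omega) hp.one_lt
  omega

private theorem Dig.q_posZ (H : Dig C p a b τ δ) (hp : p.Prime) : (0 : ℤ) < (p : ℤ) ^ a - 1 := by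
  have h1 : 1 < p ^ a := Nat.one_lt_pow (by have := H.ha; omega) hp.one_lt
  have h2 : (1 : ℤ) < (p : ℤ) ^ a := by exact_mod_cast h1
  linarith

private theorem Dig.q_cast (H : Dig C p a b τ δ) (hp : p.Prime) {S : Type*} [CommRing S] :
    ((p ^ a - 1 : ℕ) : S) = (p : S) ^ a - 1 := by
  have h1 : 1 ≤ p ^ a := by have := H.q_pos hp; omega
  push_cast [h1]
  ring

theorem Dig.tau_zero (H : Dig C p a b τ δ) (hp : p.Prime) (l : ℕ) {v : ι} (hv : v ∉ C.Ys) :
    τ l v = 0 := by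
  have h1 := H.rel l v
  rw [H.h0 _ v hv, H.h0 _ v hv, mul_zero, zero_add] at h1
  have h2 := H.q_pos hp
  rcases Nat.mul_eq_zero.1 h1.symm with h3 | h3
  · omega
  · exact h3

theorem Dig.tau_per (H : Dig C p a b τ δ) (hp : p.Prime) (l : ℕ) : τ (l + a) = τ l := by
  funext v
  have h1 := H.rel (l + a) v
  rw [show l + a + 1 = (l + 1) + a by ring, H.per, H.per, H.rel l v] at h1
  exact (Nat.eq_of_mul_eq_mul_left (H.q_pos hp) (Nat.add_left_cancel h1)).symm

theorem Dig.delta_per (H : Dig C p a b τ δ) (hp : p.Prime) (l : ℕ) : δ (l + a) = δ l := by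
  have h1 := H.hδ (l + a)
  have h2 := H.hδ l
  simp only [H.per] at h1
  have h3 : ((p : ℤ) ^ a - 1) * δ (l + a) = ((p : ℤ) ^ a - 1) * δ l := by linarith
  exact mul_left_cancel₀ (H.q_posZ hp).ne' h3

theorem Dig.delta (H : Dig C p a b τ δ) (hp : p.Prime) (l : ℕ) :
    (p : ℤ) * δ (l + 1) + ∑ v, C.wd v * τ l v = δ l := by
  have h1 := H.hδ (l + 1)
  have h2 := H.hδ l
  have h3 : (p : ℤ) * ∑ v, C.wd v * b (l + 1) v =
      ∑ v, C.wd v * b l v + ((p : ℤ) ^ a - 1) * ∑ v, C.wd v * τ l v := by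
    rw [Finset.mul_sum, Finset.mul_sum, ← Finset.sum_add_distrib]
    refine Finset.sum_congr rfl fun v _ => ?_
    have h4 : (p : ℤ) * b (l + 1) v = b l v + ((p : ℤ) ^ a - 1) * τ l v := by
      rw [← H.q_cast hp]
      exact_mod_cast H.rel l v
    linear_combination C.wd v * h4
  have h5 : ((p : ℤ) ^ a - 1) * ((p : ℤ) * δ (l + 1) + ∑ v, C.wd v * τ l v) =
      ((p : ℤ) ^ a - 1) * δ l := by
    linear_combination (p : ℤ) * h1 - h3 - h2
  exact mul_left_cancel₀ (H.q_posZ hp).ne' h5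

private theorem Dig.delta_sum (H : Dig C p a b τ δ) (l : ℕ) :
    ((p : ℤ) ^ a - 1) * δ l = ∑ v ∈ C.Ys, -C.wd v * b l v := by
  have h1 : ∑ v ∈ C.Ys, -C.wd v * (b l v : ℤ) = ∑ v, -C.wd v * (b l v : ℤ) := by
    refine Finset.sum_subset (Finset.subset_univ _) fun v _ hv => ?_
    rw [H.h0 l v hv, Nat.cast_zero, mul_zero]
  rw [h1]
  have h2 : ∑ v, -C.wd v * (b l v : ℤ) = -∑ v, C.wd v * (b l v : ℤ) := by
    rw [← Finset.sum_neg_distrib]
    exact Finset.sum_congr rfl fun v _ => by ring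
  rw [h2]
  linarith [H.hδ l]

theorem Dig.delta_pos (H : Dig C p a b τ δ) (hp : p.Prime) (l : ℕ) : 0 < δ l := by
  have h1 : 0 < ∑ v ∈ C.Ys, -C.wd v * (b l v : ℤ) := by
    refine Finset.sum_pos (fun v hv => ?_) H.hY
    have h2 := C.hneg v (C.hXY v hv)
    have h3 := (H.h1 l v hv).1
    have h4 : (0 : ℤ) < b l v := by exact_mod_cast h3
    exact mul_pos (by linarith) h4
  rw [← H.delta_sum l] at h1
  exact (mul_pos_iff_of_pos_left (H.q_posZ hp)).1 h1

theorem Dig.delta_lt (H : Dig C p a b τ δ) (hp : p.Prime) (l : ℕ) : δ l < C.dlog := by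
  have h1 : ∑ v ∈ C.Ys, -C.wd v * (b l v : ℤ) < ∑ v ∈ C.Ys, ((p : ℤ) ^ a - 1) * -C.wd v := by
    refine Finset.sum_lt_sum_of_nonempty H.hY fun v hv => ?_
    have h2 := C.hneg v (C.hXY v hv)
    have h3 := (H.h1 l v hv).2
    have h4 : (b l v : ℤ) < (p : ℤ) ^ a - 1 := by
      rw [← H.q_cast hp]
      exact_mod_cast h3
    rw [mul_comm]
    exact mul_lt_mul_of_pos_right h4 (by linarith)
  rw [← H.delta_sum l, ← Finset.mul_sum] at h1
  exact lt_of_mul_lt_mul_left h1 (H.q_posZ hp).le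

private theorem Dig.be_tel (H : Dig C p a b τ δ) (L : ℕ) (v : ι) :
    (p ^ a - 1) * be p τ L v + b 0 v = p ^ L * b L v := by
  induction L with
  | zero => simp [be]
  | succ L ih =>
    have e : be p τ (L + 1) v = be p τ L v + p ^ L * τ L v := by
      unfold be
      rw [Finset.sum_range_succ]
    have h1 := H.rel L v
    calc (p ^ a - 1) * be p τ (L + 1) v + b 0 v
        = ((p ^ a - 1) * be p τ L v + b 0 v) + p ^ L * ((p ^ a - 1) * τ L v) := by
          rw [e]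
          ring
      _ = p ^ L * (b L v + (p ^ a - 1) * τ L v) := by
          rw [ih]
          ring
      _ = p ^ (L + 1) * b (L + 1) v := by
          rw [← h1]
          ring

theorem Dig.be_eq (H : Dig C p a b τ δ) (hp : p.Prime) (m : ℕ) (v : ι) :
    (p ^ a - 1) * be p τ (a * m) v = (p ^ (a * m) - 1) * b 0 v := by
  have hper : ∀ m l, b (l + a * m) v = b l v := by
    intro m
    induction m with
    | zero => intro l; rw [mul_zero, add_zero]
    | succ m ih => intro l; rw [mul_add, mul_one, ← add_assoc, H.per, ih]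
  have h1 := H.be_tel (a * m) v
  have h2 := hper m 0
  rw [zero_add] at h2
  rw [h2] at h1
  rw [Nat.sub_mul (p ^ (a * m)), one_mul, ← h1, Nat.add_sub_cancel]

theorem Dig.be_lt (H : Dig C p a b τ δ) (hp : p.Prime) {m : ℕ} (hm : 1 ≤ m) {v : ι}
    (hv : v ∈ C.Ys) : be p τ (a * m) v < p ^ (a * m) - 1 := by
  have h1 := H.be_eq hp m v
  have h2 := (H.h1 0 v hv).2
  have h3 : 0 < p ^ (a * m) - 1 := by
    have h4 : 1 < p ^ (a * m) := Nat.one_lt_pow
      (Nat.mul_ne_zero (by have := H.ha; omega) (by omega)) hp.one_lt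
    omega
  have h5 : (p ^ a - 1) * be p τ (a * m) v < (p ^ a - 1) * (p ^ (a * m) - 1) := by
    rw [h1, mul_comm (p ^ a - 1)]
    exact (Nat.mul_lt_mul_left h3).2 h2
  exact lt_of_mul_lt_mul_left h5 (Nat.zero_le _)

end

section
variable {ι : Type*} [Fintype ι] [DecidableEq ι] [Ranked ι] {F R : Type*} [Field F] [CommRing R]
variable {p k : ℕ} [hp : Fact p.Prime] [Algebra ℤ_[p] R] [CharP F p]

/-- Frobenius twist of level `l` -/
noncomputable def frt (p : ℕ) [Fact p.Prime] [CharP F p] (f : MvPolynomial ι F) (l : ℕ) :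
    MvPolynomial ι F :=
  map (iterateFrobenius F p l) f

theorem coeff_frt (f : MvPolynomial ι F) (l : ℕ) (m : ι →₀ ℕ) :
    (frt p f l).coeff m = f.coeff m ^ p ^ l := by
  unfold frt
  rw [coeff_map, iterateFrobenius_def]

theorem frt_zero (f : MvPolynomial ι F) : frt p f 0 = f := by
  ext m
  rw [coeff_frt, pow_zero, pow_one]

theorem frt_per [Fintype F] {a : ℕ} (hq : Fintype.card F = p ^ a) (f : MvPolynomial ι F) (l : ℕ) :
    frt p f (l + a) = frt p f l := by
  ext m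
  rw [coeff_frt, coeff_frt, add_comm l a, pow_add, pow_mul, ← hq, FiniteField.pow_card]

theorem Dig.td {C : CType ι} {a : ℕ} {b τ : ℕ → ι → ℕ} {δ : ℕ → ℤ} (H : Dig C p a b τ δ)
    (hk : 1 ≤ k) (W : WD p k F R) {f : MvPolynomial ι F} (hF : C.Hom f) (hU : C.UnitCond f) :
    ∃ ga : ℕ → ι → R, TD C W (frt p f) τ ga δ ∧ ∀ l, ga (l + a) = ga l := by
  have hp' : p.Prime := hp.out
  have hpk : (p : R) ^ k = 0 := by
    have h := (W.ann k le_rfl 1).2 (by rw [Nat.sub_self, pow_zero])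
    rwa [mul_one] at h
  have hnil : IsNilpotent ((p : R) ^ a) := by
    refine ⟨k, ?_⟩
    rw [← pow_mul, mul_comm, pow_mul, hpk, zero_pow (by have := H.ha; omega)]
  have hunit : IsUnit ((p : R) ^ a - 1) := by
    have h1 := hnil.isUnit_sub_one
    exact h1
  obtain ⟨c, hc⟩ := hunit.exists_left_inv
  refine ⟨fun l v => c * (b l v : R), ⟨hk, fun l => hom_mapD _ hF, fun l => unitCond_mapD _ hU, ?_,
    H.hτ, fun l v hv => H.tau_zero hp' l hv, ?_, ?_, H.delta_pos hp', H.delta_lt hp',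
    H.delta hp'⟩, ?_⟩
  · intro l m
    rw [coeff_frt, coeff_frt, pow_succ, pow_mul]
  · intro l v
    have h1 : (p : R) * b (l + 1) v = b l v + ((p : R) ^ a - 1) * τ l v := by
      rw [← H.q_cast hp']
      exact_mod_cast congrArg (Nat.cast : ℕ → R) (H.rel l v)
    linear_combination c * h1 + (τ l v : R) * hc
  · intro l
    refine ⟨fun v hv => ?_, ?_⟩
    · rw [H.h0 l v hv, Nat.cast_zero, mul_zero]
    · have h1 : ((p : R) ^ a - 1) * (δ l : R) + ∑ v, (C.wd v : R) * (b l v : R) = 0 := by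
        have h2 := congrArg (Int.cast : ℤ → R) (H.hδ l)
        push_cast at h2
        exact h2
      have h3 : ∑ v, (C.wd v : R) * (c * (b l v : R)) = c * ∑ v, (C.wd v : R) * (b l v : R) := by
        rw [Finset.mul_sum]
        exact Finset.sum_congr rfl fun v _ => by ring
      rw [h3]
      linear_combination c * h1 - (δ l : R) * hc
  · intro l
    funext v
    show c * (b (l + a) v : R) = c * (b l v : R)
    rw [H.per]

end

end HN
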