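import Pool.Agent.HN.EulExact

/-! # HN/Dim : dimension of the top cohomology (module HN-08)

PLAN (`finrank_coker`).  `N' = card ι`, `K^j_w = KW k C ∅ δ j w`, `B^j_w = ker eul` in it.
`eul : K^{j}_w → B^{j-1}_w` is surjective with kernel `B^j_w` (`eul_exact`, weight version through
`wz_mem_KW`), so `dim B^j_w = ∑_m (-1)^m dim K^{j-m}_w` (`K^j = 0` for `j < 0`).
`K^{N'}_w ≅ B^{N'-1}_w` by `eul` (`K^{N'+1} = 0`), and it maps `Dk K^{N'-1}_{w-1}` onto
`Dk B^{N'-2}_{w-1}` (`eul_Dk`, surjectivity of `eul : K^{N'-1} → B^{N'-2}`).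
`Dk : B^{j}_{w-1} → B^{j+1}_w` has kernel `Dk B^{j-1}_{w-2}` for `j < N'-1` (`bkos_exact`), so
`dim Dk B^j_{w-1} = ∑_l (-1)^l dim B^{j-l}_{w-1-l}` for `j ≤ N'-2`.
-/

open MvPolynomial

namespace HN

section
variable {ι : Type*} [Fintype ι] [DecidableEq ι] [Ranked ι]

/-- index set of the monomial basis of `KW _ C ∅ δ j w` -/
def kset (C : CType ι) (δ j w : ℤ) : Set (Finset ι × (ι → ℤ)) :=
  {x | (x.1.card : ℤ) = j ∧ C.deg x.2 = δ ∧ (∀ v, C.thr v x.1 ≤ x.2 v) ∧ C.wt x.2 = w}

theorem kset_finite (C : CType ι) (δ j w : ℤ) : (kset C δ j w).Finite := by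
  set M : ℤ := |δ| + ∑ v ∈ C.Xsᶜ, |C.wd v| * |w| + |w| with hM
  have hfin : ((Set.univ : Set (Finset ι)) ×ˢ
      (Set.pi Set.univ fun _ : ι => Set.Icc (0 : ℤ) M)).Finite :=
    Set.finite_univ.prod (Set.Finite.pi fun _ => Set.finite_Icc _ _)
  refine hfin.subset ?_
  rintro ⟨A, e⟩ ⟨_, hδ, ht, hw⟩
  simp only at hδ ht hw
  have h0 : ∀ v, 0 ≤ e v := fun v => le_trans (thr_nonneg C v A) (ht v)
  refine ⟨Set.mem_univ _, ?_⟩
  intro v _
  refine ⟨h0 v, ?_⟩
  have hy : ∀ u, u ∉ C.Xs → e u ≤ w := by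
    intro u hu
    rw [← hw]
    exact Finset.single_le_sum (f := e) (fun i _ => h0 i) (Finset.mem_compl.mpr hu)
  have hS0 : 0 ≤ ∑ v ∈ C.Xsᶜ, |C.wd v| * |w| :=
    Finset.sum_nonneg fun i _ => mul_nonneg (abs_nonneg _) (abs_nonneg _)
  have hwa : w ≤ |w| := le_abs_self w
  have hw0 : 0 ≤ |w| := abs_nonneg w
  have hδ0 : 0 ≤ |δ| := abs_nonneg δ
  by_cases hv : v ∈ C.Xs
  · have h1 : e v ≤ ∑ u ∈ C.Xs, e u := Finset.single_le_sum (f := e) (fun i _ => h0 i) hv
    have h2 : ∑ u ∈ C.Xs, e u = ∑ u ∈ C.Xs, C.wd u * e u :=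
      Finset.sum_congr rfl fun u hu => by rw [C.hX u hu, one_mul]
    have h3 : ∑ u ∈ C.Xs, C.wd u * e u + ∑ u ∈ C.Xsᶜ, C.wd u * e u = δ := by
      rw [Finset.sum_add_sum_compl]
      exact hδ
    have h4 : - ∑ u ∈ C.Xsᶜ, C.wd u * e u ≤ ∑ v ∈ C.Xsᶜ, |C.wd v| * |w| := by
      rw [← Finset.sum_neg_distrib]
      refine Finset.sum_le_sum fun u hu => ?_
      have h5 : -(C.wd u * e u) ≤ |C.wd u| * e u := by
        rw [← neg_mul]
        exact mul_le_mul_of_nonneg_right (neg_le_abs _) (h0 u)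
      exact h5.trans (mul_le_mul_of_nonneg_left ((hy u (Finset.mem_compl.mp hu)).trans hwa)
        (abs_nonneg _))
    have h6 : δ ≤ |δ| := le_abs_self δ
    linarith
  · have := hy v hv
    linarith

noncomputable def kcount (C : CType ι) (δ j w : ℤ) : ℕ := (kset C δ j w).ncard

/-- the Euler characteristic computing the dimension of the top cohomology in weight `w`;
it depends only on the combinatorial type `C` -/
noncomputable def jnum (C : CType ι) (δ w : ℤ) : ℤ :=
  ∑ l ∈ Finset.range (Fintype.card ι), ∑ m ∈ Finset.range (Fintype.card ι),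
    (-1) ^ (l + m) * (kcount C δ (Fintype.card ι - 1 - l - m) (w - l) : ℤ)

variable {k : Type*} [Field k]

open Classical in
/-- extension by zero of a coefficient function on `kset` -/
private noncomputable def cext {C : CType ι} {δ j w : ℤ} (c : kset C δ j w → k) (A : Finset ι) (e : ι → ℤ) : k :=
  if h : (A, e) ∈ kset C δ j w then c ⟨(A, e), h⟩ else 0

private theorem mem_kset_iff {C : CType ι} {δ j w : ℤ} {A : Finset ι} {e : ι → ℤ} :
    (A, e) ∈ kset C δ j w ↔ ((A.card : ℤ) = j ∧ C.deg e = δ ∧ (∀ v, v ∉ (∅ : Finset ι) → C.thr v A ≤ e v) ∧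
      C.wt e = w) := by
  simp [kset]

open Classical in
private noncomputable def cform {C : CType ι} {δ j w : ℤ} (c : kset C δ j w → k) : Finset ι → Lau ι k :=
  fun A => AddMonoidAlgebra.ofCoeff
    (Finsupp.onFinset ((kset_finite C δ j w).toFinset.image Prod.snd) (fun e => cext c A e) (by
      intro e he
      have h : (A, e) ∈ kset C δ j w := by
        by_contra h
        exact he (by simp [cext, h])
      exact Finset.mem_image.mpr ⟨(A, e), (Set.Finite.mem_toFinset _).mpr h, rfl⟩))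

private theorem cform_coeff {C : CType ι} {δ j w : ℤ} (c : kset C δ j w → k) (A : Finset ι) (e : ι → ℤ) :
    (cform c A).coeff e = cext c A e := by
  simp [cform]

private theorem cform_mem {C : CType ι} {δ j w : ℤ} (c : kset C δ j w → k) :
    cform c ∈ KW k C ∅ δ j w := by
  intro A e h
  rw [cform_coeff] at h
  have h1 : (A, e) ∈ kset C δ j w := by
    by_contra h1
    exact h (by simp [cext, h1])
  exact mem_kset_iff.mp h1

private noncomputable def cmap (C : CType ι) (δ j w : ℤ) : KW k C ∅ δ j w →ₗ[k] (kset C δ j w → k) where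
  toFun ξ x := (ξ.1 x.1.1).coeff x.1.2
  map_add' ξ η := by
    funext x
    simp
  map_smul' c ξ := by
    funext x
    simp

private theorem cmap_bij (C : CType ι) (δ j w : ℤ) :
    Function.Bijective (cmap (k := k) C δ j w) := by
  constructor
  · rw [injective_iff_map_eq_zero]
    intro ξ h
    ext1
    funext A
    refine lau_ext fun e => ?_
    by_contra hne
    have h1 : (A, e) ∈ kset C δ j w := mem_kset_iff.mpr (ξ.2 A e (by simpa using hne))
    have h2 := congrFun h ⟨(A, e), h1⟩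
    exact hne (by simpa [cmap] using h2)
  · intro c
    refine ⟨⟨cform c, cform_mem c⟩, ?_⟩
    funext x
    show (cform c x.1.1).coeff x.1.2 = c x
    rw [cform_coeff, cext, dif_pos x.2]

theorem finrank_KW (C : CType ι) (δ j w : ℤ) :
    FiniteDimensional k (KW k C ∅ δ j w) ∧ Module.finrank k (KW k C ∅ δ j w) = kcount C δ j w := by
  haveI : Finite (kset C δ j w) := (kset_finite C δ j w).to_subtype
  haveI : Fintype (kset C δ j w) := Fintype.ofFinite _
  have E := LinearEquiv.ofBijective (cmap (k := k) C δ j w) (cmap_bij C δ j w)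
  refine ⟨E.symm.finiteDimensional, ?_⟩
  rw [E.finrank_eq, Module.finrank_fintype_fun_eq_card, kcount, ← Nat.card_coe_set_eq, Nat.card_eq_fintype_card]

/-- the image of `Dk` in the top degree -/
noncomputable def topIm (F : MvPolynomial ι k) (C : CType ι) (δ w : ℤ) :
    Submodule k (Finset ι → Lau ι k) :=
  (KW k C ∅ δ ((Fintype.card ι : ℤ) - 1) (w - 1)).map (Dk F)

private theorem rank_null {V V' : Type*} [AddCommGroup V] [Module k V] [AddCommGroup V'] [Module k V']
    (φ : V →ₗ[k] V') (P : Submodule k V) [FiniteDimensional k P] :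
    Module.finrank k P =
      Module.finrank k (P.map φ) + Module.finrank k (P ⊓ LinearMap.ker φ : Submodule k V) := by
  have h := LinearMap.finrank_range_add_finrank_ker (φ.domRestrict P)
  rw [← h]
  congr 1
  · rw [LinearMap.range_domRestrict]
  · have e1 : LinearMap.ker (φ.domRestrict P) = Submodule.comap P.subtype (P ⊓ LinearMap.ker φ) := by
      ext x
      simp
    rw [e1]
    exact LinearEquiv.finrank_eq (Submodule.comapSubtypeEquivOfLe inf_le_left)

/-- the kernel of the Euler contraction -/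
private noncomputable def BW (k : Type*) [Field k] (C : CType ι) (δ j w : ℤ) :
    Submodule k (Finset ι → Lau ι k) := KW k C ∅ δ j w ⊓ LinearMap.ker (eul k C)

private theorem fdK (C : CType ι) (δ j w : ℤ) : FiniteDimensional k (KW k C ∅ δ j w) := (finrank_KW C δ j w).1

private theorem fdB (C : CType ι) (δ j w : ℤ) : FiniteDimensional k (BW k C δ j w) := by
  haveI := fdK (k := k) C δ j w
  exact Submodule.finiteDimensional_of_le (S₂ := KW k C ∅ δ j w) inf_le_left

private theorem KW_neg (C : CType ι) {δ j w : ℤ} (hj : j < 0) : KW k C ∅ δ j w = ⊥ := by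
  rw [eq_bot_iff]
  intro ξ hξ
  rw [Submodule.mem_bot]
  funext A
  refine lau_ext fun e => ?_
  by_contra hne
  have h1 := (hξ A e (by simpa using hne)).1
  have h2 : (0 : ℤ) ≤ A.card := by positivity
  omega

private theorem KW_big (C : CType ι) {δ j w : ℤ} (hj : (Fintype.card ι : ℤ) < j) : KW k C ∅ δ j w = ⊥ := by
  rw [eq_bot_iff]
  intro ξ hξ
  rw [Submodule.mem_bot]
  funext A
  refine lau_ext fun e => ?_
  by_contra hne
  have h1 := (hξ A e (by simpa using hne)).1
  have h2 : A.card ≤ Fintype.card ι := Finset.card_le_univ A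
  omega

private theorem map_eul (C : CType ι) {δ : ℤ} (hδ0 : 0 < δ) (j w : ℤ) :
    (KW k C ∅ δ j w).map (eul k C) = BW k C δ (j - 1) w := by
  ext ξ
  constructor
  · rintro ⟨η, hη, rfl⟩
    exact ⟨eul_mem_KW hη, LinearMap.mem_ker.mpr (eul_eul C η)⟩
  · rintro ⟨hξ, he⟩
    have he' : eul k C ξ = 0 := LinearMap.mem_ker.mp he
    have h1 := eul_wz (R := k) (C := C) hδ0 (KW_le_KT C ∅ δ (j - 1) w hξ)
    rw [he', map_zero, add_zero] at h1
    refine ⟨wz k C ξ, ?_, h1⟩
    have h2 := wz_mem_KW (R := k) hξ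
    rwa [sub_add_cancel] at h2

private theorem lemA (C : CType ι) {δ : ℤ} (hδ0 : 0 < δ) (j w : ℤ) :
    (kcount C δ j w : ℤ) = Module.finrank k (BW k C δ (j - 1) w) + Module.finrank k (BW k C δ j w) := by
  haveI := fdK (k := k) C δ j w
  have h := rank_null (eul k C) (KW k C ∅ δ j w)
  rw [map_eul C hδ0, (finrank_KW (k := k) C δ j w).2] at h
  have h2 : Module.finrank k (KW k C ∅ δ j w ⊓ LinearMap.ker (eul k C) : Submodule k _) =
      Module.finrank k (BW k C δ j w) := rfl
  rw [h2] at h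
  exact_mod_cast h

private theorem BW_neg (C : CType ι) {δ j w : ℤ} (hj : j < 0) : BW k C δ j w = ⊥ := by
  rw [BW, KW_neg C hj, bot_inf_eq]

private theorem lemB (C : CType ι) {δ : ℤ} (hδ0 : 0 < δ) (M : ℕ) : ∀ j w : ℤ, j < M →
    (Module.finrank k (BW k C δ j w) : ℤ) =
      ∑ m ∈ Finset.range M, (-1) ^ m * (kcount C δ (j - m) w : ℤ) := by
  induction M with
  | zero =>
    intro j w hj
    rw [BW_neg C (by simpa using hj)]
    simp
  | succ M ih =>
    intro j w hj
    have h1 := lemA (k := k) C hδ0 j w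
    have h2 := ih (j - 1) w (by push_cast at hj; linarith)
    rw [Finset.sum_range_succ']
    have h3 : ∑ m ∈ Finset.range M, (-1 : ℤ) ^ (m + 1) * (kcount C δ (j - ((m + 1 : ℕ) : ℤ)) w : ℤ) =
        - ∑ m ∈ Finset.range M, (-1) ^ m * (kcount C δ (j - 1 - m) w : ℤ) := by
      rw [← Finset.sum_neg_distrib]
      refine Finset.sum_congr rfl fun m _ => ?_
      have e1 : j - ((m + 1 : ℕ) : ℤ) = j - 1 - m := by push_cast; ring
      rw [e1, pow_succ]
      ring
    rw [h3, ← h2]
    simp only [Nat.cast_zero, sub_zero, pow_zero, one_mul]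
    linarith

private theorem ker_Dk {C : CType ι} {F : MvPolynomial ι k} (hF : C.Hom F) (hU : C.UnitCond F)
    {δ : ℤ} (hδ0 : 0 < δ) (hδ1 : δ < C.dlog) {j : ℤ} (w : ℤ) (hj : j < (Fintype.card ι : ℤ) - 1) :
    BW k C δ j w ⊓ LinearMap.ker (Dk F) = (BW k C δ (j - 1) (w - 1)).map (Dk F) := by
  ext ξ
  constructor
  · rintro ⟨⟨hξ, he⟩, h0⟩
    obtain ⟨η, hη, h1, h2⟩ := bkos_exact hF hU hδ0 hδ1 hj hξ (LinearMap.mem_ker.mp he) (LinearMap.mem_ker.mp h0)
    exact ⟨η, ⟨hη, LinearMap.mem_ker.mpr h1⟩, h2⟩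
  · rintro ⟨η, ⟨hη, he⟩, rfl⟩
    have h1 := Dk_mem_KW hF hη
    rw [sub_add_cancel, sub_add_cancel] at h1
    refine ⟨⟨h1, LinearMap.mem_ker.mpr ?_⟩, LinearMap.mem_ker.mpr (Dk_Dk F η)⟩
    rw [eul_Dk hF, LinearMap.mem_ker.mp he, map_zero, neg_zero]

private theorem lemC {C : CType ι} {F : MvPolynomial ι k} (hF : C.Hom F) (hU : C.UnitCond F)
    {δ : ℤ} (hδ0 : 0 < δ) (hδ1 : δ < C.dlog) (M : ℕ) : ∀ j w : ℤ, j < M → j < (Fintype.card ι : ℤ) - 1 →
    (Module.finrank k ((BW k C δ j w).map (Dk F)) : ℤ) =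
      ∑ l ∈ Finset.range M, (-1) ^ l * (Module.finrank k (BW k C δ (j - l) (w - l)) : ℤ) := by
  induction M with
  | zero =>
    intro j w hj _
    rw [BW_neg C (by simpa using hj), Submodule.map_bot]
    simp
  | succ M ih =>
    intro j w hj hj'
    haveI := fdB (k := k) C δ j w
    have h1 := rank_null (Dk F) (BW k C δ j w)
    rw [ker_Dk hF hU hδ0 hδ1 w hj'] at h1
    have h2 := ih (j - 1) (w - 1) (by push_cast at hj; linarith) (by linarith)
    rw [Finset.sum_range_succ']
    have h3 : ∑ l ∈ Finset.range M, (-1 : ℤ) ^ (l + 1) *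
        (Module.finrank k (BW k C δ (j - ((l + 1 : ℕ) : ℤ)) (w - ((l + 1 : ℕ) : ℤ))) : ℤ) =
        - ∑ l ∈ Finset.range M, (-1) ^ l *
          (Module.finrank k (BW k C δ (j - 1 - l) (w - 1 - l)) : ℤ) := by
      rw [← Finset.sum_neg_distrib]
      refine Finset.sum_congr rfl fun m _ => ?_
      have e1 : j - ((m + 1 : ℕ) : ℤ) = j - 1 - m := by push_cast; ring
      have e2 : w - ((m + 1 : ℕ) : ℤ) = w - 1 - m := by push_cast; ring
      rw [e1, e2, pow_succ]
      ring
    have e4 : j - ((0 : ℕ) : ℤ) = j := by simp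
    have e5 : w - ((0 : ℕ) : ℤ) = w := by simp
    rw [h3, ← h2, e4, e5, pow_zero, one_mul]
    have h4 : (Module.finrank k (BW k C δ j w) : ℤ) = Module.finrank k ((BW k C δ j w).map (Dk F)) +
        Module.finrank k ((BW k C δ (j - 1) (w - 1)).map (Dk F)) := by exact_mod_cast h1
    linarith

/-- `dim coker (Dk : K^{N'-1}_{w-1} → K^{N'}_w) = jnum`.  Proof: rank-nullity along
`0 → B^0 → ... → B^{N'-2}_{w-1} → B^{N'-1}_w → coker → 0`, `B = ker eul`, exact by `bkos_exact`,
and `dim B^j_w = ∑ (-1)^m dim K^{j-m}_w` by `eul_exact`. -/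
theorem finrank_coker {C : CType ι} {F : MvPolynomial ι k} (hF : C.Hom F) (hU : C.UnitCond F)
    {δ w : ℤ} (hδ0 : 0 < δ) (hδ1 : δ < C.dlog) :
    (Module.finrank k (↥(KW k C ∅ δ (Fintype.card ι) w) ⧸
      (topIm F C δ w).submoduleOf (KW k C ∅ δ (Fintype.card ι) w)) : ℤ) = jnum C δ w := by
  haveI := fdK (k := k) C δ (Fintype.card ι) w
  set N' : ℤ := (Fintype.card ι : ℤ) with hN'
  -- the top degree kernel vanishes
  have hBtop : BW k C δ N' w = ⊥ := by
    have h1 := map_eul (k := k) C hδ0 (N' + 1) w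
    rw [KW_big C (by rw [hN']; linarith), Submodule.map_bot, add_sub_cancel_right] at h1
    exact h1.symm
  have htop : topIm F C δ w ≤ KW k C ∅ δ N' w := by
    rintro ξ ⟨η, hη, rfl⟩
    have h1 := Dk_mem_KW hF hη
    rwa [sub_add_cancel, sub_add_cancel] at h1
  haveI : FiniteDimensional k (topIm F C δ w) := Submodule.finiteDimensional_of_le htop
  -- dimension of the quotient
  have hq : Module.finrank k (↥(KW k C ∅ δ N' w) ⧸
      (topIm F C δ w).submoduleOf (KW k C ∅ δ N' w)) + Module.finrank k (topIm F C δ w) =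
      Module.finrank k (KW k C ∅ δ N' w) := by
    rw [← Submodule.finrank_quotient_add_finrank ((topIm F C δ w).submoduleOf (KW k C ∅ δ N' w))]
    congr 1
    exact (LinearEquiv.finrank_eq (Submodule.comapSubtypeEquivOfLe htop)).symm
  -- the whole top degree
  have hA : (Module.finrank k (KW k C ∅ δ N' w) : ℤ) = Module.finrank k (BW k C δ (N' - 1) w) := by
    have h1 := lemA (k := k) C hδ0 N' w
    rw [hBtop, finrank_bot] at h1
    rw [(finrank_KW (k := k) C δ N' w).2, h1]
    simp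
  -- the image
  have hI : Module.finrank k (topIm F C δ w) =
      Module.finrank k ((BW k C δ (N' - 2) (w - 1)).map (Dk F)) := by
    have h1 := rank_null (eul k C) (topIm F C δ w)
    have h2 : topIm F C δ w ⊓ LinearMap.ker (eul k C) = ⊥ := by
      rw [eq_bot_iff, ← hBtop]
      exact inf_le_inf_right _ htop
    rw [h2, finrank_bot, add_zero] at h1
    have h3 : (topIm F C δ w).map (eul k C) = (BW k C δ (N' - 2) (w - 1)).map (Dk F) := by
      have h4 := map_eul (k := k) C hδ0 (N' - 1) (w - 1)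
      have h5 : N' - 1 - 1 = N' - 2 := by ring
      rw [h5] at h4
      rw [← h4]
      ext ξ
      constructor
      · rintro ⟨_, ⟨η, hη, rfl⟩, rfl⟩
        refine ⟨-(eul k C η), ?_, ?_⟩
        · exact Submodule.neg_mem _ ⟨η, hη, rfl⟩
        · rw [map_neg, eul_Dk hF]
      · rintro ⟨_, ⟨η, hη, rfl⟩, rfl⟩
        refine ⟨Dk F (-η), ⟨-η, Submodule.neg_mem _ hη, rfl⟩, ?_⟩
        rw [eul_Dk hF, map_neg, map_neg, neg_neg]
    rw [h1, h3]
  have hC := lemC hF hU hδ0 hδ1 (Fintype.card ι - 1) (N' - 2) (w - 1) (by omega) (by rw [← hN']; linarith)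
  have hfin : (Module.finrank k (↥(KW k C ∅ δ N' w) ⧸
      (topIm F C δ w).submoduleOf (KW k C ∅ δ N' w)) : ℤ) =
      ∑ l ∈ Finset.range (Fintype.card ι), (-1) ^ l * (Module.finrank k (BW k C δ (N' - 1 - l) (w - l)) : ℤ) := by
    have e1 : (Module.finrank k (↥(KW k C ∅ δ N' w) ⧸
        (topIm F C δ w).submoduleOf (KW k C ∅ δ N' w)) : ℤ) + Module.finrank k (topIm F C δ w) =
        Module.finrank k (KW k C ∅ δ N' w) := by exact_mod_cast hq
    rw [hI, hA, hC] at e1
    rcases Nat.eq_zero_or_pos (Fintype.card ι) with h0 | h0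
    · have h5 : N' = 0 := by rw [hN', h0]; simp
      rw [h0] at e1 ⊢
      rw [BW_neg C (j := N' - 1) (by rw [h5]; norm_num)] at e1
      simpa using e1
    · obtain ⟨M, hM⟩ : ∃ M, Fintype.card ι = M + 1 := ⟨Fintype.card ι - 1, by omega⟩
      rw [hM, Finset.sum_range_succ']
      rw [hM, Nat.add_sub_cancel] at e1
      have h3 : ∑ l ∈ Finset.range M, (-1 : ℤ) ^ (l + 1) *
          (Module.finrank k (BW k C δ (N' - 1 - ((l + 1 : ℕ) : ℤ)) (w - ((l + 1 : ℕ) : ℤ))) : ℤ) =
          - ∑ l ∈ Finset.range M, (-1) ^ l *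
            (Module.finrank k (BW k C δ (N' - 2 - l) (w - 1 - l)) : ℤ) := by
        rw [← Finset.sum_neg_distrib]
        refine Finset.sum_congr rfl fun m _ => ?_
        have e2 : N' - 1 - ((m + 1 : ℕ) : ℤ) = N' - 2 - m := by push_cast; ring
        have e3 : w - ((m + 1 : ℕ) : ℤ) = w - 1 - m := by push_cast; ring
        rw [e2, e3, pow_succ]
        ring
      have e4 : N' - 1 - ((0 : ℕ) : ℤ) = N' - 1 := by simp
      have e5 : w - ((0 : ℕ) : ℤ) = w := by simp
      rw [h3, e4, e5, pow_zero, one_mul]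
      linarith
  rw [hfin, jnum]
  refine Finset.sum_congr rfl fun l hl => ?_
  rw [lemB (k := k) C hδ0 (Fintype.card ι) (N' - 1 - l) (w - l) (by rw [← hN']; omega), Finset.mul_sum]
  refine Finset.sum_congr rfl fun m _ => ?_
  rw [pow_add]
  ring

end

end HN
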