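import Mathlib

/-! # HN/E2 : formal lemma on a Koszul complex with an Euler contraction (module HND-04)

`K j` (`j ∈ ℤ`) graded pieces, `D` raises, `E` lowers the degree, `D² = E² = 0`, `ED + DE = 0`, `E` exact
everywhere, `D` exact in degrees `< M - 1`.

PLAN.  `E2a` by strong induction on `j` (for `j < 0` everything is `0`): `x = D τ₀`; `E τ₀ ∈ K (j-2)` is
killed by `D` (`D E τ₀ = - E D τ₀ = - E x = 0`) and by `E`; by induction `E τ₀ = D σ`, `E σ = 0`,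
`σ = E σ'` with `σ' ∈ K (j-2)`; `y = τ₀ + D σ'`: `E y = E τ₀ + E D σ' = E τ₀ - D E σ' = 0`, `D y = x`.
`E2b`: `E z ∈ K (M-2)` is killed by `D` and `E`, `E2a`: `E z = D σ`, `E σ = 0`, `σ = E σ'`,
`E (z + D σ') = E z - D σ = 0`, so `z + D σ' = E t`; `y = -σ'`.
`E2c`: `E y ∈ K (M-3)` is killed by `D` (`D E y = - E D y = - E E t = 0`) and `E`; `E2a`: `E y = D σ`,
`E σ = 0`, `σ = E σ'`, `y' = y + D σ'`, `E y' = 0`, `y' = E s`, `s ∈ K (M-1)`; `E (t + D s) = D y - D E s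
= D y - D y' = 0`, `t + D s ∈ K M`, so `t + D s = E r`, `r ∈ K (M+1)`, `r = 0`; `t = D (-s)`.
-/

namespace HN

section
variable {V : Type*} [AddCommGroup V]

/-- the hypotheses of the formal lemma -/
structure KE (K : ℤ → AddSubgroup V) (D E : V →+ V) (M : ℤ) : Prop where
  hD : ∀ j, ∀ x ∈ K j, D x ∈ K (j + 1)
  hE : ∀ j, ∀ x ∈ K j, E x ∈ K (j - 1)
  DD : ∀ j, ∀ x ∈ K j, D (D x) = 0
  EE : ∀ j, ∀ x ∈ K j, E (E x) = 0
  ED : ∀ j, ∀ x ∈ K j, E (D x) = - D (E x)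
  exE : ∀ j, ∀ x ∈ K j, E x = 0 → ∃ y ∈ K (j + 1), E y = x
  exD : ∀ j, j < M - 1 → ∀ x ∈ K j, D x = 0 → ∃ y ∈ K (j - 1), D y = x
  neg : ∀ j, j < 0 → ∀ x ∈ K j, x = 0
  top : ∀ j, M < j → ∀ x ∈ K j, x = 0

theorem E2a {K : ℤ → AddSubgroup V} {D E : V →+ V} {M : ℤ} (H : KE K D E M) {j : ℤ}
    (hj : j < M - 1) {x : V} (hx : x ∈ K j) (hE : E x = 0) (hD : D x = 0) :
    ∃ y ∈ K (j - 1), E y = 0 ∧ D y = x := by
  have key : ∀ n : ℕ, ∀ j : ℤ, j < n → j < M - 1 → ∀ x ∈ K j, E x = 0 → D x = 0 →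
      ∃ y ∈ K (j - 1), E y = 0 ∧ D y = x := by
    intro n
    induction n using Nat.strong_induction_on with
    | _ n ih =>
      intro j hjn hj x hx hE hD
      by_cases hj0 : j < 0
      · have := H.neg j hj0 x hx
        exact ⟨0, (K (j - 1)).zero_mem, by simp, by rw [map_zero, this]⟩
      · obtain ⟨τ, hτ, hτx⟩ := H.exD j hj x hx hD
        have h1 : E τ ∈ K (j - 1 - 1) := H.hE _ τ hτ
        have h2 : D (E τ) = 0 := by
          have := H.ED _ τ hτ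
          rw [hτx, hE] at this
          exact neg_eq_zero.1 this.symm
        have hn : 0 < n := by omega
        obtain ⟨σ, hσ, hσE, hσD⟩ := ih (n - 1) (by omega) (j - 1 - 1) (by omega) (by omega) (E τ) h1
          (H.EE _ τ hτ) h2
        obtain ⟨σ', hσ', hσE'⟩ := H.exE _ σ hσ hσE
        have h3 : D σ' ∈ K (j - 1) := by
          have := H.hD _ σ' hσ'
          have e : j - 1 - 1 - 1 + 1 + 1 = j - 1 := by ring
          rwa [e] at this
        refine ⟨τ + D σ', (K (j - 1)).add_mem hτ h3, ?_, ?_⟩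
        · rw [map_add, H.ED _ σ' hσ', hσE', hσD, add_neg_cancel]
        · rw [map_add, H.DD _ σ' hσ', add_zero, hτx]
  exact key (j.toNat + 1) j (by omega) hj x hx hE hD

theorem E2b {K : ℤ → AddSubgroup V} {D E : V →+ V} {M : ℤ} (H : KE K D E M) {z : V}
    (hz : z ∈ K (M - 1)) (hD : D z = 0) :
    ∃ y ∈ K (M - 2), ∃ t ∈ K M, z = D y + E t := by
  have h1 : E z ∈ K (M - 2) := by
    have := H.hE _ z hz
    have e : M - 1 - 1 = M - 2 := by ring
    rwa [e] at this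
  have h2 : D (E z) = 0 := by
    have := H.ED _ z hz
    rw [hD, map_zero] at this
    exact neg_eq_zero.1 this.symm
  obtain ⟨σ, hσ, hσE, hσD⟩ := E2a H (by omega) h1 (H.EE _ z hz) h2
  obtain ⟨σ', hσ', hσE'⟩ := H.exE _ σ hσ hσE
  rw [sub_add_cancel] at hσ'
  have h3 : D σ' ∈ K (M - 1) := by
    have := H.hD _ σ' hσ'
    have e : M - 2 + 1 = M - 1 := by ring
    rwa [e] at this
  have h4 : E (z + D σ') = 0 := by
    rw [map_add, H.ED _ σ' hσ', hσE', hσD, add_neg_cancel]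
  obtain ⟨t, ht, hEt⟩ := H.exE _ (z + D σ') ((K (M - 1)).add_mem hz h3) h4
  rw [sub_add_cancel] at ht
  refine ⟨-σ', (K (M - 2)).neg_mem hσ', t, ht, ?_⟩
  rw [hEt, map_neg]
  abel

theorem E2c {K : ℤ → AddSubgroup V} {D E : V →+ V} {M : ℤ} (H : KE K D E M) {t y : V}
    (ht : t ∈ K M) (hy : y ∈ K (M - 2)) (h : E t = D y) :
    ∃ s ∈ K (M - 1), D s = t := by
  have h1 : E y ∈ K (M - 3) := by
    have := H.hE _ y hy
    have e : M - 2 - 1 = M - 3 := by ring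
    rwa [e] at this
  have h2 : D (E y) = 0 := by
    have := H.ED _ y hy
    rw [← h, H.EE _ t ht] at this
    exact neg_eq_zero.1 this.symm
  obtain ⟨σ, hσ, hσE, hσD⟩ := E2a H (by omega) h1 (H.EE _ y hy) h2
  obtain ⟨σ', hσ', hσE'⟩ := H.exE _ σ hσ hσE
  rw [sub_add_cancel] at hσ'
  have h3 : D σ' ∈ K (M - 2) := by
    have := H.hD _ σ' hσ'
    have e : M - 3 + 1 = M - 2 := by ring
    rwa [e] at this
  have h4 : E (y + D σ') = 0 := by
    rw [map_add, H.ED _ σ' hσ', hσE', hσD, add_neg_cancel]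
  obtain ⟨s, hs, hEs⟩ := H.exE _ (y + D σ') ((K (M - 2)).add_mem hy h3) h4
  have e : M - 2 + 1 = M - 1 := by ring
  rw [e] at hs
  have h5 : D s ∈ K M := by
    have := H.hD _ s hs
    rwa [sub_add_cancel] at this
  have h6 : E (t + D s) = 0 := by
    rw [map_add, H.ED _ s hs, hEs, map_add, H.DD _ σ' hσ', add_zero, h, add_neg_cancel]
  obtain ⟨r, hr, hEr⟩ := H.exE _ (t + D s) ((K M).add_mem ht h5) h6
  have h7 := H.top (M + 1) (by omega) r hr
  rw [h7, map_zero] at hEr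
  refine ⟨-s, (K (M - 1)).neg_mem hs, ?_⟩
  rw [map_neg]
  exact (eq_neg_of_add_eq_zero_left hEr.symm).symm

end

end HN
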