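import Pool.Agent.HN.KosExact

/-! # HN/EulExact : exactness of the Euler contraction and the `eul = 0` version of `kos_exact`
(module HN-07) -/

open MvPolynomial

namespace HN

section
variable {ι : Type*} [Fintype ι] [DecidableEq ι] [Ranked ι] {R : Type*} [CommRing R]

/-- projection onto `ker eul`: for the exponent `e` with some `x`-exponent `≥ 1`, let `k₀(e)` be
the `x`-variable of smallest rank with `1 ≤ e k₀`; on the `X^e`-component it is
`ξ ↦ eul (e_{k₀} ∧ ξ)` -/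
noncomputable def kz (C : CType ι) (e : ι → ℤ) : Option ι :=
  ((C.Xs.filter (fun v => 1 ≤ e v)).toList.argmin rk)

/-- the operator `w ξ = ∑_v restr {e | kz e = v} (e_v ∧ ξ)` : homotopy for `eul` -/
noncomputable def wz (R : Type*) [CommRing R] (C : CType ι) :
    (Finset ι → Lau ι R) →ₗ[R] (Finset ι → Lau ι R) :=
  ∑ v, mp R (restr R {e | kz C e = some v}) ∘ₗ we R v

/-- the projection `P = eul ∘ wz` onto `ker eul` -/
noncomputable def Pz (R : Type*) [CommRing R] (C : CType ι) :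
    (Finset ι → Lau ι R) →ₗ[R] (Finset ι → Lau ι R) :=
  eul R C ∘ₗ wz R C

omit [Fintype ι] in
theorem kz_some {C : CType ι} {e : ι → ℤ} {v : ι} (h : kz C e = some v) : v ∈ C.Xs ∧ 1 ≤ e v := by
  have h1 := List.argmin_mem (f := rk) (show v ∈ List.argmin rk _ from h)
  rw [Finset.mem_toList, Finset.mem_filter] at h1
  exact h1

theorem wz_apply (C : CType ι) (ξ : Finset ι → Lau ι R) :
    wz R C ξ = ∑ v, mp R (restr R {e | kz C e = some v}) (we R v ξ) := by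
  simp [wz, LinearMap.sum_apply]

omit [Fintype ι] in
theorem eex_we_coeff_ne {v : ι} {ξ : Finset ι → Lau ι R} {A : Finset ι} {e : ι → ℤ}
    (h : (we R v ξ A).coeff e ≠ 0) : v ∈ A ∧ (ξ (A.erase v)).coeff e ≠ 0 := by
  have h1 : we R v ξ A = if v ∈ A then sg v A • ξ (A.erase v) else 0 := rfl
  rw [h1] at h
  by_cases hv : v ∈ A
  · refine ⟨hv, fun h2 => h ?_⟩
    rw [if_pos hv, AddMonoidAlgebra.coeff_smul, Finsupp.smul_apply, h2, smul_zero]
  · rw [if_neg hv] at h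
    exact absurd rfl h

theorem wz_coeff_ne {C : CType ι} {ξ : Finset ι → Lau ι R} {A : Finset ι} {e : ι → ℤ}
    (h : (wz R C ξ A).coeff e ≠ 0) :
    ∃ v ∈ A, kz C e = some v ∧ (ξ (A.erase v)).coeff e ≠ 0 := by
  classical
  rw [wz_apply, Finset.sum_apply, AddMonoidAlgebra.coeff_sum, Finsupp.finsetSum_apply] at h
  obtain ⟨v, -, hv⟩ := Finset.exists_ne_zero_of_sum_ne_zero h
  have h1 : mp R (restr R {e | kz C e = some v}) (we R v ξ) A =
    restr R {e | kz C e = some v} (we R v ξ A) := rfl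
  rw [h1, restr_coeff] at hv
  by_cases hk : kz C e = some v
  · rw [if_pos (by exact hk)] at hv
    obtain ⟨h2, h3⟩ := eex_we_coeff_ne hv
    exact ⟨v, h2, hk, h3⟩
  · rw [if_neg (by exact hk)] at hv
    exact absurd rfl hv

theorem eex_thr_le_of_kz {C : CType ι} {A : Finset ι} {e : ι → ℤ} {v : ι} (hk : kz C e = some v)
    (h : ∀ u, u ∉ (∅ : Finset ι) → C.thr u (A.erase v) ≤ e u) :
    ∀ u, u ∉ (∅ : Finset ι) → C.thr u A ≤ e u := by
  intro u hu
  by_cases huv : u = v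
  · subst huv
    have h1 := (kz_some hk).2
    have h2 : C.thr u A ≤ 1 := by
      unfold CType.thr
      split_ifs <;> norm_num
    linarith
  · have h1 : C.thr u A = C.thr u (A.erase v) := by
      unfold CType.thr
      simp [huv]
    rw [h1]
    exact h u hu

theorem kz_ne_none {C : CType ι} {δ : ℤ} (hδ0 : 0 < δ) {A : Finset ι} {e : ι → ℤ}
    (hd : C.deg e = δ) (ht : ∀ v, C.thr v A ≤ e v) : ∃ v ∈ C.Xs, 1 ≤ e v ∧ kz C e = some v := by
  have hex : ∃ v ∈ C.Xs, 1 ≤ e v := by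
    by_contra hcon
    push Not at hcon
    have h1 : C.deg e ≤ 0 := by
      unfold CType.deg
      refine Finset.sum_nonpos fun v _ => ?_
      by_cases hv : v ∈ C.Xs
      · have h2 := hcon v hv
        rw [C.hX v hv, one_mul]
        omega
      · have h2 := C.hneg v hv
        have h3 : 0 ≤ e v := le_trans (thr_nonneg C v A) (ht v)
        nlinarith
    omega
  obtain ⟨v, hv, hev⟩ := hex
  have hne : kz C e ≠ none := by
    intro h
    unfold kz at h
    rw [List.argmin_eq_none] at h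
    have : v ∈ (C.Xs.filter (fun v => 1 ≤ e v)).toList := by
      rw [Finset.mem_toList, Finset.mem_filter]
      exact ⟨hv, hev⟩
    rw [h] at this
    exact absurd this (by simp)
  obtain ⟨u, hu⟩ := Option.ne_none_iff_exists'.1 hne
  exact ⟨u, (kz_some hu).1, (kz_some hu).2, hu⟩

/-- `eul wz + wz eul = id` on `KT _ C ∅ δ j`, `δ > 0` -/
theorem eul_wz {C : CType ι} {δ j : ℤ} (hδ0 : 0 < δ) {ξ : Finset ι → Lau ι R}
    (hξ : ξ ∈ KT R C ∅ δ j) : eul R C (wz R C ξ) + wz R C (eul R C ξ) = ξ := by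
  classical
  have h1 : eul R C (wz R C ξ) + wz R C (eul R C ξ) =
      ∑ v, (C.wd v : R) • mp R (restr R {e | kz C e = some v}) ξ := by
    rw [wz_apply, wz_apply, map_sum, ← Finset.sum_add_distrib]
    refine Finset.sum_congr rfl fun v _ => ?_
    rw [← mp_eul, ← map_add, we_eul, map_smul]
  rw [h1]
  funext A
  refine lau_ext fun e => ?_
  rw [Finset.sum_apply, AddMonoidAlgebra.coeff_sum, Finsupp.finsetSum_apply]
  have h2 : ∀ v, (((C.wd v : R) • mp R (restr R {e | kz C e = some v}) ξ) A).coeff e =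
      (C.wd v : R) * (if kz C e = some v then (ξ A).coeff e else 0) := by
    intro v
    rw [Pi.smul_apply, AddMonoidAlgebra.coeff_smul, Finsupp.smul_apply, smul_eq_mul]
    congr 1
    exact restr_coeff _ _ _
  rw [Finset.sum_congr rfl fun v _ => h2 v]
  by_cases h0 : (ξ A).coeff e = 0
  · rw [h0]
    simp
  · obtain ⟨-, hd, ht⟩ := hξ A e h0
    obtain ⟨v, hv, -, hk⟩ := kz_ne_none hδ0 hd (fun v => ht v (by simp))
    rw [Finset.sum_eq_single v]
    · rw [if_pos hk, C.hX v hv]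
      simp
    · intro u _ huv
      rw [if_neg, mul_zero]
      rw [hk]
      intro h
      exact huv (Option.some.inj h).symm
    · intro h
      exact absurd (Finset.mem_univ v) h

theorem wz_mem_KT {C : CType ι} {δ j : ℤ} {ξ : Finset ι → Lau ι R}
    (hξ : ξ ∈ KT R C ∅ δ j) : wz R C ξ ∈ KT R C ∅ δ (j + 1) := by
  intro A e h
  obtain ⟨v, hvA, hk, hne⟩ := wz_coeff_ne h
  obtain ⟨h1, h2, h3⟩ := hξ _ e hne
  refine ⟨?_, h2, eex_thr_le_of_kz hk h3⟩
  rw [← h1, Finset.card_erase_of_mem hvA]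
  have := Finset.card_pos.2 ⟨v, hvA⟩
  omega

theorem wz_mem_KW {C : CType ι} {δ j w : ℤ} {ξ : Finset ι → Lau ι R}
    (hξ : ξ ∈ KW R C ∅ δ j w) : wz R C ξ ∈ KW R C ∅ δ (j + 1) w := by
  intro A e h
  obtain ⟨v, hvA, hk, hne⟩ := wz_coeff_ne h
  obtain ⟨h1, h2, h3, h4⟩ := hξ _ e hne
  refine ⟨?_, h2, eex_thr_le_of_kz hk h3, h4⟩
  rw [← h1, Finset.card_erase_of_mem hvA]
  have := Finset.card_pos.2 ⟨v, hvA⟩
  omega

theorem Pz_of_eul {C : CType ι} {δ j : ℤ} (hδ0 : 0 < δ) {ξ : Finset ι → Lau ι R}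
    (hξ : ξ ∈ KT R C ∅ δ j) (h0 : eul R C ξ = 0) : Pz R C ξ = ξ := by
  have h := eul_wz hδ0 hξ
  rw [h0, map_zero, add_zero] at h
  exact h

theorem eul_Pz (C : CType ι) (ξ : Finset ι → Lau ι R) : eul R C (Pz R C ξ) = 0 := by
  exact eul_eul C _

theorem Pz_mem_KT {C : CType ι} {δ j : ℤ} {ξ : Finset ι → Lau ι R}
    (hξ : ξ ∈ KT R C ∅ δ j) : Pz R C ξ ∈ KT R C ∅ δ j := by
  have h := eul_mem_KT (wz_mem_KT hξ)
  rwa [add_sub_cancel_right] at h

/-- `ker eul = im eul` on `KT _ C ∅ δ`, `δ > 0` -/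
theorem eul_exact {C : CType ι} {δ j : ℤ} (hδ0 : 0 < δ) {ξ : Finset ι → Lau ι R}
    (hξ : ξ ∈ KT R C ∅ δ j) (h0 : eul R C ξ = 0) :
    ∃ η ∈ KT R C ∅ δ (j + 1), eul R C η = ξ := by
  exact ⟨wz R C ξ, wz_mem_KT hξ, Pz_of_eul hδ0 hξ h0⟩

theorem bkos_exact_aux {C : CType ι} {F : MvPolynomial ι R} (hF : C.Hom F) (hU : C.UnitCond F)
    {δ : ℤ} (hδ0 : 0 < δ) (hδ1 : δ < C.dlog) (n : ℕ) :
    ∀ (j w : ℤ), j < n → j < (Fintype.card ι : ℤ) - 1 →
    ∀ ξ : Finset ι → Lau ι R, ξ ∈ KW R C ∅ δ j w → eul R C ξ = 0 → Dk F ξ = 0 →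
    ∃ η ∈ KW R C ∅ δ (j - 1) (w - 1), eul R C η = 0 ∧ Dk F η = ξ := by
  induction n with
  | zero =>
    intro j w hjn _ ξ hξ _ _
    have hz : ξ = 0 := by
      funext A
      refine lau_ext fun e => ?_
      by_contra hne
      have h1 := (hξ A e hne).1
      push_cast at hjn
      omega
    refine ⟨0, Submodule.zero_mem _, map_zero _, ?_⟩
    rw [map_zero, hz]
  | succ n ih =>
    intro j w hjn hj ξ hξ he h0
    obtain ⟨η, hη, hDη⟩ := kos_exact_wt hF hU hδ0 hδ1 hj hξ h0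
    have h1 : Dk F (eul R C η) = 0 := by
      have h2 := eul_Dk hF η
      rw [hDη, he] at h2
      exact neg_eq_zero.1 h2.symm
    push_cast at hjn
    obtain ⟨ζ, hζ, heζ, hDζ⟩ := ih (j - 1 - 1) (w - 1) (by omega) (by omega) (eul R C η)
      (eul_mem_KW hη) (eul_eul C η) h1
    have h3 : eul R C (wz R C ζ) = ζ := Pz_of_eul hδ0 (KW_le_KT C ∅ δ _ _ hζ) heζ
    have h4 := Dk_mem_KW hF (wz_mem_KW hζ)
    rw [sub_add_cancel, sub_add_cancel, sub_add_cancel] at h4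
    refine ⟨η + Dk F (wz R C ζ), Submodule.add_mem _ hη h4, ?_, ?_⟩
    · rw [map_add, eul_Dk hF, h3, hDζ, add_neg_cancel]
    · rw [map_add, Dk_Dk, add_zero, hDη]

/-- the version of `kos_exact` inside `ker eul`.  Proof by induction on `j`
(`B^j` exact for all smaller `j`): `ξ = Dk η`, `Dk (eul η) = 0`, so `eul η = Dk ζ`,
`eul ζ = 0`, `ζ = eul ζ'`, and `η + Dk ζ'` works. -/
theorem bkos_exact {C : CType ι} {F : MvPolynomial ι R} (hF : C.Hom F) (hU : C.UnitCond F)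
    {δ j w : ℤ} (hδ0 : 0 < δ) (hδ1 : δ < C.dlog) (hj : j < (Fintype.card ι : ℤ) - 1)
    {ξ : Finset ι → Lau ι R} (hξ : ξ ∈ KW R C ∅ δ j w) (he : eul R C ξ = 0)
    (h0 : Dk F ξ = 0) :
    ∃ η ∈ KW R C ∅ δ (j - 1) (w - 1), eul R C η = 0 ∧ Dk F η = ξ := by
  exact bkos_exact_aux hF hU hδ0 hδ1 (j.toNat + 1) j w (by push_cast; omega) hj ξ hξ he h0

end

end HN
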