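import Pool.Agent.HN.CLam

/-! # HN/EulX : the Euler contraction on `Λ^a Q` (module HN-C8)

PLAN.  `euX` is an antiderivation: `euX (dx_v ∧ ω) = x_v ω - dx_v ∧ euX ω`,
`euX (η_i ∧ ω) = - d_i ω - η_i ∧ euX ω`, `euX (smulX g ω) = smulX g (euX ω)` (`co_we_self`, `co_we`,
`mp_co`), so with Euler's formula `∑ x_v ∂_v g = (deg g) g` (`MvPolynomial.IsHomogeneous` version):
`euX (dwe h_j ω) = c_j h_j ω - dwe h_j (euX ω)`,
`euX (rhowe i f_i ω) = d_i f_i ω - d_i f_i ω - rhowe i f_i (euX ω) = - rhowe i f_i (euX ω)`.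
`euX_lift`: `v ∈ T`: `ζ = x_v^{-1} dx_v ∧ ω`: `euX ζ = ω - x_v^{-1} dx_v ∧ euX ω`, and
`x_v^{-1} dx_v ∧` preserves `Rel T` (degree `l`, form degree `+1`).
-/

open MvPolynomial

namespace HN

section
variable {k : Type*} [Field k] {n r s : ℕ} {d : Fin r → ℕ} {c : Fin s → ℕ}

/-! ### preliminaries -/

private theorem ex_kos {J : Type*} [Fintype J] [DecidableEq J] [Ranked J] {N : Type*}
    [AddCommGroup N] [Module k N] (T : J → N →ₗ[k] N) (ξ : Finset J → N) :
    kos k T ξ = ∑ v, we k v (mp k (T v) ξ) := by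
  simp [kos, LinearMap.sum_apply]

private theorem ex_ctr {J : Type*} [Fintype J] [DecidableEq J] [Ranked J] {N : Type*}
    [AddCommGroup N] [Module k N] (T : J → N →ₗ[k] N) (ξ : Finset J → N) :
    ctr k T ξ = ∑ v, co k v (mp k (T v) ξ) := by
  simp [ctr, LinearMap.sum_apply]

private theorem ex_we_apply {J : Type*} [DecidableEq J] [Ranked J] {N : Type*}
    [AddCommGroup N] [Module k N] (v : J) (ξ : Finset J → N) (A : Finset J) :
    we k v ξ A = if v ∈ A then sg v A • ξ (A.erase v) else 0 := rfl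

private theorem ex_mp_apply {J : Type*} {N : Type*} [AddCommGroup N] [Module k N] {N' : Type*}
    [AddCommGroup N'] [Module k N'] (φ : N →ₗ[k] N')
    (ξ : Finset J → N) (A : Finset J) : mp k φ ξ A = φ (ξ A) := rfl

private theorem ex_sum_anti {J : Type*} {M : Type*} [AddCommGroup M] (S : Finset J)
    (F : J → J → M) (h0 : ∀ v, F v v = 0) (h1 : ∀ v u, v ≠ u → F v u = - F u v) :
    ∑ v ∈ S, ∑ u ∈ S, F v u = 0 := by
  classical
  rw [← Finset.sum_product']
  refine Finset.sum_involution (fun p _ => (p.2, p.1)) ?_ ?_ ?_ ?_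
  · rintro ⟨v, u⟩ _
    by_cases h : v = u
    · subst h; simp [h0]
    · simp only [h1 v u h, neg_add_cancel]
  · rintro ⟨v, u⟩ _ hne heq
    have : u = v := congrArg Prod.fst heq
    subst this
    exact hne (h0 u)
  · rintro ⟨v, u⟩ h
    rw [Finset.mem_product] at h ⊢
    exact ⟨h.2, h.1⟩
  · rintro ⟨v, u⟩ _
    rfl

private theorem ex_ctr_ctr {J : Type*} [Fintype J] [DecidableEq J] [Ranked J] {N : Type*}
    [AddCommGroup N] [Module k N] (T : J → N →ₗ[k] N) (hT : ∀ u v x, T u (T v x) = T v (T u x))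
    (ξ : Finset J → N) : ctr k T (ctr k T ξ) = 0 := by
  rw [ex_ctr, ex_ctr]
  simp only [map_sum, mp_co]
  refine ex_sum_anti Finset.univ (fun v u => co k v (co k u (mp k (T v) (mp k (T u) ξ)))) ?_ ?_
  · intro v
    exact co_self v _
  · intro v u h
    rw [co_co h]
    have : mp k (T v) (mp k (T u) ξ) = mp k (T u) (mp k (T v) ξ) := by
      funext A
      exact hT v u _
    rw [this]

private theorem ex_we_kos {J : Type*} [Fintype J] [DecidableEq J] [Ranked J] {N : Type*}
    [AddCommGroup N] [Module k N] (T : J → N →ₗ[k] N) (v : J) (ξ : Finset J → N) :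
    we k v (kos k T ξ) = - kos k T (we k v ξ) := by
  rw [ex_kos, ex_kos, map_sum, ← Finset.sum_neg_distrib]
  refine Finset.sum_congr rfl fun u _ => ?_
  rw [mp_we]
  by_cases h : v = u
  · subst h
    rw [we_self, neg_zero]
  · exact we_we h _

private theorem ex_mp_kos {J : Type*} [Fintype J] [DecidableEq J] [Ranked J] {N : Type*}
    [AddCommGroup N] [Module k N] (T : J → N →ₗ[k] N) (φ : N →ₗ[k] N)
    (h : ∀ u x, φ (T u x) = T u (φ x)) (ξ : Finset J → N) :
    mp k φ (kos k T ξ) = kos k T (mp k φ ξ) := by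
  rw [ex_kos, ex_kos, map_sum]
  refine Finset.sum_congr rfl fun u _ => ?_
  rw [mp_we]
  congr 1
  funext A
  exact h u _

private theorem ex_mp_ctr {J : Type*} [Fintype J] [DecidableEq J] [Ranked J] {N : Type*}
    [AddCommGroup N] [Module k N] (T : J → N →ₗ[k] N) (φ : N →ₗ[k] N)
    (h : ∀ u x, φ (T u x) = T u (φ x)) (ξ : Finset J → N) :
    mp k φ (ctr k T ξ) = ctr k T (mp k φ ξ) := by
  rw [ex_ctr, ex_ctr, map_sum]
  refine Finset.sum_congr rfl fun u _ => ?_
  rw [mp_co]
  congr 1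
  funext A
  exact h u _

private theorem ex_ctr_we {J : Type*} [Fintype J] [DecidableEq J] [Ranked J] {N : Type*}
    [AddCommGroup N] [Module k N] (T : J → N →ₗ[k] N) (v : J) (ξ : Finset J → N) :
    ctr k T (we k v ξ) + we k v (ctr k T ξ) = mp k (T v) ξ := by
  rw [ex_ctr, ex_ctr, map_sum, ← Finset.sum_add_distrib, Finset.sum_eq_single v]
  · rw [mp_we, co_we_self]
  · intro u _ hu
    rw [mp_we, co_we hu, neg_add_cancel]
  · intro h
    exact absurd (Finset.mem_univ v) h

/-! ### the operators as `kos` and `ctr` -/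

/-- coefficients of the Euler contraction -/
private noncomputable def cE (k : Type*) [Field k] (n : ℕ) {r : ℕ} (d : Fin r → ℕ) :
    Fin (n + 1) ⊕ Fin r → LauX n k →ₗ[k] LauX n k :=
  Sum.elim (fun v => LinearMap.mulLeft k (toLX (X v))) (fun i => (-(d i : k)) • LinearMap.id)

/-- coefficients of `dg` plus `∑ t_i η_i` -/
private noncomputable def cK {r : ℕ} (g : MvPolynomial (Fin (n + 1)) k) (t : Fin r → LauX n k) :
    Fin (n + 1) ⊕ Fin r → LauX n k →ₗ[k] LauX n k :=
  Sum.elim (fun v => LinearMap.mulLeft k (toLX (pderiv v g))) (fun i => LinearMap.mulLeft k (t i))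

private theorem euX_ctr (ω : WForm k n r) : euX d ω = ctr k (cE k n d) ω := by
  rw [ex_ctr, Fintype.sum_sum_type]
  simp only [euX, LinearMap.sub_apply, LinearMap.sum_apply, LinearMap.comp_apply, cE, Sum.elim_inl,
    Sum.elim_inr, LinearMap.smul_apply]
  rw [sub_eq_add_neg, ← Finset.sum_neg_distrib]
  congr 1
  · refine Finset.sum_congr rfl fun v _ => ?_
    exact mp_co _ _ _
  · refine Finset.sum_congr rfl fun i _ => ?_
    rw [← mp_co, ← neg_smul]
    rfl

private theorem dwe_kos (g : MvPolynomial (Fin (n + 1)) k) (ω : WForm k n r) :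
    dwe g ω = kos k (cK g 0) ω := by
  rw [ex_kos, Fintype.sum_sum_type]
  simp only [dwe, LinearMap.sum_apply, LinearMap.comp_apply, cK, Sum.elim_inl, Sum.elim_inr]
  have h2 : ∑ i : Fin r, we k (Sum.inr i) (mp k (LinearMap.mulLeft k ((0 : Fin r → LauX n k) i)) ω) =
      0 := by
    refine Finset.sum_eq_zero fun i _ => ?_
    have : mp k (LinearMap.mulLeft k ((0 : Fin r → LauX n k) i)) ω = 0 := by
      funext A
      show (0 : LauX n k) * ω A = 0
      rw [zero_mul]
    rw [this, map_zero]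
  rw [h2, add_zero]
  refine Finset.sum_congr rfl fun v _ => ?_
  exact mp_we _ _ _

private theorem rhowe_kos (i : Fin r) (g : MvPolynomial (Fin (n + 1)) k) (ω : WForm k n r) :
    rhowe i g ω = kos k (cK g (Pi.single i (toLX g))) ω := by
  rw [ex_kos, Fintype.sum_sum_type]
  simp only [rhowe, dwe, LinearMap.sum_apply, LinearMap.comp_apply, LinearMap.add_apply, cK,
    Sum.elim_inl, Sum.elim_inr]
  congr 1
  · refine Finset.sum_congr rfl fun v _ => ?_
    exact mp_we _ _ _
  · rw [Finset.sum_eq_single i]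
    · rw [Pi.single_eq_same]
      exact mp_we _ _ _
    · intro u _ hu
      rw [Pi.single_eq_of_ne hu]
      have : mp k (LinearMap.mulLeft k (0 : LauX n k)) ω = 0 := by
        funext A
        show (0 : LauX n k) * ω A = 0
        rw [zero_mul]
      rw [this, map_zero]
    · intro h
      exact absurd (Finset.mem_univ i) h

private theorem cE_cE (u v : Fin (n + 1) ⊕ Fin r) (x : LauX n k) :
    cE k n d u (cE k n d v x) = cE k n d v (cE k n d u x) := by
  rcases u with u | u <;> rcases v with v | v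
  · show toLX (X u) * (toLX (X v) * x) = toLX (X v) * (toLX (X u) * x)
    exact mul_left_comm _ _ _
  · show toLX (X u) * ((-(d v : k)) • x) = (-(d v : k)) • (toLX (X u) * x)
    exact mul_smul_comm _ _ _
  · show (-(d u : k)) • (toLX (X v) * x) = toLX (X v) * ((-(d u : k)) • x)
    exact (mul_smul_comm _ _ _).symm
  · show (-(d u : k)) • ((-(d v : k)) • x) = (-(d v : k)) • ((-(d u : k)) • x)
    exact smul_comm _ _ _

private theorem cE_mul (u : Fin (n + 1) ⊕ Fin r) (y x : LauX n k) :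
    y * (cE k n d u x) = cE k n d u (y * x) := by
  rcases u with u | u
  · show y * (toLX (X u) * x) = toLX (X u) * (y * x)
    exact mul_left_comm _ _ _
  · show y * ((-(d u : k)) • x) = (-(d u : k)) • (y * x)
    exact mul_smul_comm _ _ _

private theorem cK_mul (g : MvPolynomial (Fin (n + 1)) k) (t : Fin r → LauX n k)
    (u : Fin (n + 1) ⊕ Fin r) (y x : LauX n k) :
    y * (cK g t u x) = cK g t u (y * x) := by
  rcases u with u | u
  · show y * (toLX (pderiv u g) * x) = toLX (pderiv u g) * (y * x)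
    exact mul_left_comm _ _ _
  · show y * (t u * x) = t u * (y * x)
    exact mul_left_comm _ _ _

private theorem cE_cK (g : MvPolynomial (Fin (n + 1)) k) (t : Fin r → LauX n k)
    (u v : Fin (n + 1) ⊕ Fin r) (x : LauX n k) :
    cE k n d u (cK g t v x) = cK g t v (cE k n d u x) := by
  rcases v with v | v
  · exact (cE_mul u _ x).symm
  · exact (cE_mul u _ x).symm

/-- `euX` is an antiderivation with respect to `dg + ∑ t_i η_i` -/
private theorem euX_cK {m : ℕ} {g : MvPolynomial (Fin (n + 1)) k} (hg : g.IsHomogeneous m)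
    (t : Fin r → LauX n k) (ω : WForm k n r) :
    euX d (kos k (cK g t) ω) + kos k (cK g t) (euX d ω) =
      mp k (LinearMap.mulLeft k ((m : k) • toLX g - ∑ i, (d i : k) • t i)) ω := by
  rw [euX_ctr, euX_ctr, ctr_kos (fun u v x => cE_cK g t u v x)]
  have h1 : ∑ v : Fin (n + 1), toLX (X v) * toLX (pderiv v g) = (m : k) • toLX g := by
    have h2 := hg.sum_X_mul_pderiv
    have h3 : ∑ v : Fin (n + 1), toLX (X v) * toLX (pderiv v g) =
        toLX (∑ v : Fin (n + 1), X v * pderiv v g) := by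
      rw [map_sum]
      exact Finset.sum_congr rfl fun v _ => (map_mul _ _ _).symm
    rw [h3, h2, map_nsmul, Nat.cast_smul_eq_nsmul]
  have key : (∑ v, cE k n d v ∘ₗ cK g t v) =
      LinearMap.mulLeft k ((m : k) • toLX g - ∑ i, (d i : k) • t i) := ?_
  · rw [key]
  refine LinearMap.ext fun x => ?_
  rw [LinearMap.sum_apply, Fintype.sum_sum_type]
  simp only [LinearMap.comp_apply, cE, cK, Sum.elim_inl, Sum.elim_inr, LinearMap.mulLeft_apply,
    LinearMap.smul_apply, LinearMap.id_apply]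
  rw [← h1, sub_mul, Finset.sum_mul, Finset.sum_mul, sub_eq_add_neg, ← Finset.sum_neg_distrib]
  congr 1
  · exact Finset.sum_congr rfl fun v _ => (mul_assoc _ _ _).symm
  · refine Finset.sum_congr rfl fun i _ => ?_
    rw [smul_mul_assoc, neg_smul]

private theorem smulX_apply (g : LauX n k) (ω : WForm k n r) (A : Finset (Fin (n + 1) ⊕ Fin r)) :
    smulX g ω A = g * ω A := rfl

private theorem euX_smulX (g : LauX n k) (ω : WForm k n r) :
    euX d (smulX g ω) = smulX g (euX d ω) := by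
  rw [euX_ctr, euX_ctr]
  exact (ex_mp_ctr _ _ (fun u x => cE_mul u g x) ω).symm

/-! ### supports -/

private theorem ne_zsmul {z : ℤ} {f : LauX n k} {e : Fin (n + 1) → ℤ}
    (h : (z • f).coeff e ≠ 0) : f.coeff e ≠ 0 := by
  intro h2
  apply h
  rw [AddMonoidAlgebra.coeff_smul, Finsupp.smul_apply, h2, smul_zero]

private theorem ne_sum {J : Type*} {S : Finset J} {f : J → LauX n k} {e : Fin (n + 1) → ℤ}
    (h : (∑ i ∈ S, f i).coeff e ≠ 0) : ∃ i ∈ S, (f i).coeff e ≠ 0 := by
  rw [AddMonoidAlgebra.coeff_sum, Finsupp.finsetSum_apply] at h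
  obtain ⟨v, hv1, hv⟩ := Finset.exists_ne_zero_of_sum_ne_zero h
  exact ⟨v, hv1, hv⟩

private theorem ne_kos {T : Fin (n + 1) ⊕ Fin r → LauX n k →ₗ[k] LauX n k} {ω : WForm k n r}
    {A : Finset (Fin (n + 1) ⊕ Fin r)} {e : Fin (n + 1) → ℤ} (h : (kos k T ω A).coeff e ≠ 0) :
    ∃ u ∈ A, (T u (ω (A.erase u))).coeff e ≠ 0 := by
  rw [kos_apply] at h
  obtain ⟨u, hu, h1⟩ := ne_sum h
  exact ⟨u, hu, ne_zsmul h1⟩

private theorem ne_ctr {T : Fin (n + 1) ⊕ Fin r → LauX n k →ₗ[k] LauX n k} {ω : WForm k n r}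
    {A : Finset (Fin (n + 1) ⊕ Fin r)} {e : Fin (n + 1) → ℤ} (h : (ctr k T ω A).coeff e ≠ 0) :
    ∃ u, u ∉ A ∧ (T u (ω (insert u A))).coeff e ≠ 0 := by
  rw [ctr_apply] at h
  obtain ⟨u, hu, h1⟩ := ne_sum h
  exact ⟨u, Finset.mem_compl.1 hu, ne_zsmul h1⟩

private theorem hom_sum {m : ℕ} {g : MvPolynomial (Fin (n + 1)) k} (hg : g.IsHomogeneous m)
    {u : Fin (n + 1) →₀ ℕ} (h : g.coeff u ≠ 0) : ∑ v, (u v : ℤ) = m := by
  have h1 := hg h
  have h2 : ∑ v, u v = m := by
    simpa [Finsupp.weight_apply, Finsupp.sum_fintype] using h1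
  exact_mod_cast h2

private theorem ne_mul {g : MvPolynomial (Fin (n + 1)) k} {f : LauX n k} {e : Fin (n + 1) → ℤ}
    (h : (toLX g * f).coeff e ≠ 0) :
    ∃ u : Fin (n + 1) →₀ ℕ, g.coeff u ≠ 0 ∧ f.coeff (fun v => e v - (u v : ℤ)) ≠ 0 :=
  exists_of_toL_mul_coeff_ne h

private theorem toLX_X (v : Fin (n + 1)) :
    (toLX (X v) : LauX n k) = AddMonoidAlgebra.single (Pi.single v (1 : ℤ)) (1 : k) := by
  unfold toLX
  rw [aeval_X]

private theorem ne_pderiv {g : MvPolynomial (Fin (n + 1)) k} {f : LauX n k} {v : Fin (n + 1)}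
    {e : Fin (n + 1) → ℤ} (h : (toLX (pderiv v g) * f).coeff e ≠ 0) :
    ∃ u : Fin (n + 1) →₀ ℕ, g.coeff u ≠ 0 ∧ 1 ≤ u v ∧
      f.coeff (fun w => (e + (Pi.single v (1 : ℤ) : Fin (n + 1) → ℤ)) w - (u w : ℤ)) ≠ 0 := by
  have h1 : (Tm g v f).coeff (e + Pi.single v (1 : ℤ)) = (toLX (pderiv v g) * f).coeff e := by
    have h2 : Tm g v f = AddMonoidAlgebra.single (Pi.single v (1 : ℤ)) (1 : k) *
        (toLX (pderiv v g) * f) := by
      have h3 : Tm g v f = toLX (X v * pderiv v g) * f := rfl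
      rw [h3, map_mul, toLX_X, mul_assoc]
    rw [h2]
    refine (single_mul_coeff _ _ _ _).trans ?_
    rw [one_mul]
    congr 1
    funext w
    simp
  rw [← h1] at h
  exact exists_of_Tm_coeff_ne h

private theorem filt_insert_inl {v : Fin (n + 1)} {A : Finset (Fin (n + 1) ⊕ Fin r)}
    (h : Sum.inl v ∉ A) : (((insert (Sum.inl v) A).filter (fun x => x.isLeft)).card : ℤ) =
      ((A.filter (fun x => x.isLeft)).card : ℤ) + 1 := by
  rw [Finset.filter_insert, if_pos (by simp), Finset.card_insert_of_notMem]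
  · push_cast; ring
  · intro h2
    exact h (Finset.mem_filter.1 h2).1

private theorem filt_insert_inr {i : Fin r} {A : Finset (Fin (n + 1) ⊕ Fin r)} :
    (((insert (Sum.inr i) A).filter (fun x => x.isLeft)).card : ℤ) =
      ((A.filter (fun x => x.isLeft)).card : ℤ) := by
  rw [Finset.filter_insert, if_neg (by simp)]

private theorem filt_erase_inl {v : Fin (n + 1)} {A : Finset (Fin (n + 1) ⊕ Fin r)}
    (h : Sum.inl v ∈ A) : (((A.erase (Sum.inl v)).filter (fun x => x.isLeft)).card : ℤ) =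
      ((A.filter (fun x => x.isLeft)).card : ℤ) - 1 := by
  have h1 := filt_insert_inl (A := A.erase (Sum.inl v)) (v := v) (Finset.notMem_erase _ _)
  rw [Finset.insert_erase h] at h1
  omega

private theorem filt_erase_inr {i : Fin r} {A : Finset (Fin (n + 1) ⊕ Fin r)}
    (h : Sum.inr i ∈ A) : (((A.erase (Sum.inr i)).filter (fun x => x.isLeft)).card : ℤ) =
      ((A.filter (fun x => x.isLeft)).card : ℤ) := by
  have h1 := filt_insert_inr (A := A.erase (Sum.inr i)) (i := i)
  rw [Finset.insert_erase h] at h1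
  omega

private theorem card_erase_z {u : Fin (n + 1) ⊕ Fin r} {A : Finset (Fin (n + 1) ⊕ Fin r)}
    (h : u ∈ A) : ((A.erase u).card : ℤ) = (A.card : ℤ) - 1 := by
  have h1 := Finset.card_erase_add_one h
  omega

private theorem card_insert_z {u : Fin (n + 1) ⊕ Fin r} {A : Finset (Fin (n + 1) ⊕ Fin r)}
    (h : u ∉ A) : ((insert u A).card : ℤ) = (A.card : ℤ) + 1 := by
  rw [Finset.card_insert_of_notMem h]
  push_cast
  ring

private theorem sum_single_z (v : Fin (n + 1)) (z : ℤ) :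
    ∑ w, (Pi.single v z : Fin (n + 1) → ℤ) w = z := by
  rw [Finset.sum_pi_single']
  simp

private theorem smulX_sec {T : Finset (Fin (n + 1))} {a l : ℤ} {m : ℕ}
    {g : MvPolynomial (Fin (n + 1)) k} (hg : g.IsHomogeneous m) {ω : WForm k n r}
    (h : ω ∈ Sec k n r T a (l - m)) : smulX (toLX g) ω ∈ Sec k n r T a l := by
  intro A e he
  obtain ⟨u, hu, h1⟩ := ne_mul he
  obtain ⟨c1, c2, c3⟩ := h A _ h1
  have h2 := hom_sum hg hu
  rw [Finset.sum_sub_distrib, h2] at c2
  refine ⟨c1, by linarith, fun v hv => ?_⟩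
  have := c3 v hv
  have h3 : (0 : ℤ) ≤ (u v : ℤ) := Int.natCast_nonneg _
  linarith

private theorem kos_sec {T : Finset (Fin (n + 1))} {a l : ℤ} {m : ℕ}
    {g : MvPolynomial (Fin (n + 1)) k} (hg : g.IsHomogeneous m) {t : Fin r → LauX n k}
    (ht : ∀ i, t i = 0 ∨ t i = toLX g) {ω : WForm k n r}
    (h : ω ∈ Sec k n r T (a - 1) (l - m)) : kos k (cK g t) ω ∈ Sec k n r T a l := by
  intro A e he
  obtain ⟨u, hu, h1⟩ := ne_kos he
  rcases u with v | i
  · have h1' : (toLX (pderiv v g) * ω (A.erase (Sum.inl v))).coeff e ≠ 0 := h1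
    obtain ⟨u, hu1, hu2, hu3⟩ := ne_pderiv h1'
    obtain ⟨c1, c2, c3⟩ := h _ _ hu3
    rw [card_erase_z hu] at c1
    rw [filt_erase_inl hu, Finset.sum_sub_distrib, hom_sum hg hu1] at c2
    have h4 : ∑ w, (e + (Pi.single v (1 : ℤ) : Fin (n + 1) → ℤ)) w = ∑ w, e w + 1 := by
      simp only [Pi.add_apply]
      rw [Finset.sum_add_distrib, sum_single_z]
    rw [h4] at c2
    refine ⟨by linarith, by linarith, fun w hw => ?_⟩
    have h5 := c3 w hw
    rw [Pi.add_apply] at h5
    by_cases hwv : w = v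
    · subst hwv
      rw [Pi.single_eq_same] at h5
      have : (1 : ℤ) ≤ (u w : ℤ) := by exact_mod_cast hu2
      linarith
    · rw [Pi.single_eq_of_ne hwv] at h5
      have : (0 : ℤ) ≤ (u w : ℤ) := Int.natCast_nonneg _
      linarith
  · have h1' : (t i * ω (A.erase (Sum.inr i))).coeff e ≠ 0 := h1
    rcases ht i with h0 | h0
    · rw [h0, zero_mul] at h1'
      exact absurd rfl h1'
    · rw [h0] at h1'
      obtain ⟨u, hu1, hu2⟩ := ne_mul h1'
      obtain ⟨c1, c2, c3⟩ := h _ _ hu2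
      rw [card_erase_z hu] at c1
      rw [filt_erase_inr hu, Finset.sum_sub_distrib, hom_sum hg hu1] at c2
      refine ⟨by linarith, by linarith, fun w hw => ?_⟩
      have h5 := c3 w hw
      have : (0 : ℤ) ≤ (u w : ℤ) := Int.natCast_nonneg _
      linarith

private theorem dwe_sec {T : Finset (Fin (n + 1))} {a l : ℤ} {m : ℕ}
    {g : MvPolynomial (Fin (n + 1)) k} (hg : g.IsHomogeneous m) {ω : WForm k n r}
    (h : ω ∈ Sec k n r T (a - 1) (l - m)) : dwe g ω ∈ Sec k n r T a l := by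
  rw [dwe_kos]
  exact kos_sec hg (fun i => Or.inl rfl) h

private theorem rhowe_sec {T : Finset (Fin (n + 1))} {a l : ℤ} {m : ℕ} (i : Fin r)
    {g : MvPolynomial (Fin (n + 1)) k} (hg : g.IsHomogeneous m) {ω : WForm k n r}
    (h : ω ∈ Sec k n r T (a - 1) (l - m)) : rhowe i g ω ∈ Sec k n r T a l := by
  rw [rhowe_kos]
  refine kos_sec hg (fun i' => ?_) h
  by_cases h1 : i' = i
  · subst h1
    exact Or.inr (Pi.single_eq_same _ _)
  · exact Or.inl (Pi.single_eq_of_ne h1 _)

private theorem rel_induction (D : Datum k n r s d c) {T : Finset (Fin (n + 1))} {a l : ℤ}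
    {P : Submodule k (WForm k n r)}
    (h1 : ∀ j, ∀ ζ ∈ Sec k n r T a (l - c j), smulX (toLX (D.h j)) ζ ∈ P)
    (h2 : ∀ j, ∀ ζ ∈ Sec k n r T (a - 1) (l - c j), dwe (D.h j) ζ ∈ P)
    (h3 : ∀ i, ∀ ζ ∈ Sec k n r T (a - 1) (l - d i), rhowe i (D.f i) ζ ∈ P) :
    Rel D T a l ≤ P := by
  unfold Rel
  refine sup_le (sup_le (iSup_le fun j => ?_) (iSup_le fun j => ?_)) (iSup_le fun i => ?_)
  · rw [Submodule.map_le_iff_le_comap]
    exact fun ζ hζ => h1 j ζ hζ
  · rw [Submodule.map_le_iff_le_comap]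
    exact fun ζ hζ => h2 j ζ hζ
  · rw [Submodule.map_le_iff_le_comap]
    exact fun ζ hζ => h3 i ζ hζ

private theorem rel_h (D : Datum k n r s d c) {T : Finset (Fin (n + 1))} {a l : ℤ} (j : Fin s)
    {ζ : WForm k n r} (hζ : ζ ∈ Sec k n r T a (l - c j)) :
    smulX (toLX (D.h j)) ζ ∈ Rel D T a l := by
  refine Submodule.mem_sup_left (Submodule.mem_sup_left ?_)
  exact (le_iSup (fun j => (Sec k n r T a (l - c j)).map (smulX (toLX (D.h j)))) j)
    (Submodule.mem_map_of_mem hζ)

private theorem rel_dh (D : Datum k n r s d c) {T : Finset (Fin (n + 1))} {a l : ℤ} (j : Fin s)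
    {ζ : WForm k n r} (hζ : ζ ∈ Sec k n r T (a - 1) (l - c j)) :
    dwe (D.h j) ζ ∈ Rel D T a l := by
  refine Submodule.mem_sup_left (Submodule.mem_sup_right ?_)
  exact (le_iSup (fun j => (Sec k n r T (a - 1) (l - c j)).map (dwe (D.h j))) j)
    (Submodule.mem_map_of_mem hζ)

private theorem rel_rho (D : Datum k n r s d c) {T : Finset (Fin (n + 1))} {a l : ℤ} (i : Fin r)
    {ζ : WForm k n r} (hζ : ζ ∈ Sec k n r T (a - 1) (l - d i)) :
    rhowe i (D.f i) ζ ∈ Rel D T a l := by
  refine Submodule.mem_sup_right ?_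
  exact (le_iSup (fun i => (Sec k n r T (a - 1) (l - d i)).map (rhowe i (D.f i))) i)
    (Submodule.mem_map_of_mem hζ)

theorem euX_sec {T : Finset (Fin (n + 1))} {a l : ℤ} {ω : WForm k n r}
    (h : ω ∈ Sec k n r T a l) : euX d ω ∈ Sec k n r T (a - 1) l := by
  intro A e he
  rw [euX_ctr] at he
  obtain ⟨u, hu, h1⟩ := ne_ctr he
  rcases u with v | i
  · have h1' : (toLX (X v) * ω (insert (Sum.inl v) A)).coeff e ≠ 0 := h1
    rw [toLX_X] at h1'
    have h2 : (AddMonoidAlgebra.single (Pi.single v (1 : ℤ)) (1 : k) *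
        ω (insert (Sum.inl v) A)).coeff e =
        1 * (ω (insert (Sum.inl v) A)).coeff (fun w => e w - (Pi.single v (1 : ℤ) : _ → ℤ) w) :=
      single_mul_coeff _ _ _ _
    rw [h2, one_mul] at h1'
    obtain ⟨c1, c2, c3⟩ := h _ _ h1'
    rw [card_insert_z hu] at c1
    rw [filt_insert_inl hu, Finset.sum_sub_distrib, sum_single_z] at c2
    refine ⟨by linarith, by linarith, fun w hw => ?_⟩
    have h5 := c3 w hw
    by_cases hwv : w = v
    · subst hwv
      rw [Pi.single_eq_same] at h5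
      linarith
    · rw [Pi.single_eq_of_ne hwv] at h5
      linarith
  · have h1' : ((-(d i : k)) • ω (insert (Sum.inr i) A)).coeff e ≠ 0 := h1
    have h2 : (ω (insert (Sum.inr i) A)).coeff e ≠ 0 := by
      intro h2
      apply h1'
      rw [AddMonoidAlgebra.coeff_smul, Finsupp.smul_apply, h2, smul_zero]
    obtain ⟨c1, c2, c3⟩ := h _ _ h2
    rw [card_insert_z hu] at c1
    rw [filt_insert_inr] at c2
    exact ⟨by linarith, c2, c3⟩

theorem euX_euX (ω : WForm k n r) : euX d (euX d ω) = 0 := by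
  rw [euX_ctr, euX_ctr]
  exact ex_ctr_ctr _ (fun u v x => cE_cE u v x) ω

theorem euX_rel (D : Datum k n r s d c) {T : Finset (Fin (n + 1))} {a l : ℤ} {ω : WForm k n r}
    (h : ω ∈ Rel D T a l) : euX d ω ∈ Rel D T (a - 1) l := by
  have key : Rel D T a l ≤ (Rel D T (a - 1) l).comap (euX d) := by
    refine rel_induction D (fun j ζ hζ => ?_) (fun j ζ hζ => ?_) (fun i ζ hζ => ?_)
    · rw [Submodule.mem_comap, euX_smulX]
      exact rel_h D j (euX_sec hζ)
    · rw [Submodule.mem_comap, dwe_kos]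
      have h1 := euX_cK (d := d) (D.hh j) (0 : Fin r → LauX n k) ζ
      rw [← dwe_kos (D.h j) (euX d ζ)] at h1
      have h2 : mp k (LinearMap.mulLeft k (((c j : ℕ) : k) • toLX (D.h j) -
          ∑ i, (d i : k) • (0 : Fin r → LauX n k) i)) ζ =
          ((c j : ℕ) : k) • smulX (toLX (D.h j)) ζ := by
        funext A
        show (((c j : ℕ) : k) • toLX (D.h j) - ∑ i, (d i : k) • (0 : Fin r → LauX n k) i) * ζ A =
          ((c j : ℕ) : k) • (toLX (D.h j) * ζ A)
        simp only [Pi.zero_apply, smul_zero, Finset.sum_const_zero, sub_zero]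
        rw [smul_mul_assoc]
      rw [h2] at h1
      rw [eq_sub_of_add_eq h1]
      exact Submodule.sub_mem _ (Submodule.smul_mem _ _ (rel_h D j hζ)) (rel_dh D j (euX_sec hζ))
    · rw [Submodule.mem_comap, rhowe_kos]
      have h1 := euX_cK (d := d) (D.hf i) (Pi.single i (toLX (D.f i)) : Fin r → LauX n k) ζ
      rw [← rhowe_kos i (D.f i) (euX d ζ)] at h1
      have h2 : mp k (LinearMap.mulLeft k (((d i : ℕ) : k) • toLX (D.f i) -
          ∑ i', (d i' : k) • (Pi.single i (toLX (D.f i)) : Fin r → LauX n k) i')) ζ = 0 := by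
        have h3 : ∑ i', (d i' : k) • (Pi.single i (toLX (D.f i)) : Fin r → LauX n k) i' =
            (d i : k) • toLX (D.f i) := by
          rw [Finset.sum_eq_single i]
          · rw [Pi.single_eq_same]
          · intro u _ hu
            rw [Pi.single_eq_of_ne hu, smul_zero]
          · intro h
            exact absurd (Finset.mem_univ i) h
        rw [h3, sub_self]
        funext A
        show (0 : LauX n k) * ζ A = 0
        exact zero_mul _
      rw [h2] at h1
      rw [eq_neg_of_add_eq_zero_left h1]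
      exact Submodule.neg_mem _ (rel_rho D i (euX_sec hζ))
  exact key h

theorem rel_le_sec (D : Datum k n r s d c) (T : Finset (Fin (n + 1))) (a l : ℤ) :
    Rel D T a l ≤ Sec k n r T a l :=
  rel_induction D (fun j _ hζ => smulX_sec (D.hh j) hζ) (fun j _ hζ => dwe_sec (D.hh j) hζ)
    (fun i _ hζ => rhowe_sec i (D.hf i) hζ)

private theorem sec_mono' {T T' : Finset (Fin (n + 1))} (h : T ⊆ T') (a l : ℤ) :
    Sec k n r T a l ≤ Sec k n r T' a l := by
  intro ω hω A e he
  obtain ⟨c1, c2, c3⟩ := hω A e he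
  exact ⟨c1, c2, fun v hv => c3 v (fun h2 => hv (h h2))⟩

theorem rel_mono (D : Datum k n r s d c) {T T' : Finset (Fin (n + 1))} (h : T ⊆ T') (a l : ℤ) :
    Rel D T a l ≤ Rel D T' a l :=
  rel_induction D (fun j _ hζ => rel_h D j (sec_mono' h _ _ hζ))
    (fun j _ hζ => rel_dh D j (sec_mono' h _ _ hζ))
    (fun i _ hζ => rel_rho D i (sec_mono' h _ _ hζ))

theorem sec_mono {T T' : Finset (Fin (n + 1))} (h : T ⊆ T') (a l : ℤ) :
    Sec k n r T a l ≤ Sec k n r T' a l := sec_mono' h a l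

/-- there are no forms of negative degree -/
theorem sec_neg {T : Finset (Fin (n + 1))} {a l : ℤ} (ha : a < 0) :
    Sec k n r T a l = ⊥ := by
  rw [eq_bot_iff]
  intro ω hω
  rw [Submodule.mem_bot]
  funext A
  refine AddMonoidAlgebra.coeff_injective (Finsupp.ext fun e => ?_)
  by_contra hne
  have h1 := (hω A e hne).1
  have h2 : (0 : ℤ) ≤ (A.card : ℤ) := Int.natCast_nonneg _
  linarith

/-- exactness of the Euler contraction over `D_+(x_T)`, `T ≠ ∅` -/
theorem euX_lift (D : Datum k n r s d c) {T : Finset (Fin (n + 1))} (hT : T.Nonempty) {a l : ℤ}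
    {ω : WForm k n r} (h : ω ∈ OmSec D T a l) :
    ∃ ζ ∈ Sec k n r T (a + 1) l, ω - euX d ζ ∈ Rel D T a l := by
  obtain ⟨v, hv⟩ := hT
  obtain ⟨hω, hω2⟩ := h
  set μ : LauX n k := AddMonoidAlgebra.single (Pi.single v (-1 : ℤ)) (1 : k) with hμ
  have hμX : μ * toLX (X v) = 1 := by
    rw [toLX_X, hμ, AddMonoidAlgebra.single_mul_single, one_mul, ← Pi.single_add]
    simp [AddMonoidAlgebra.one_def]
  -- the operator `x_v⁻¹ dx_v ∧`
  have hW : ∀ (b m : ℤ) (ζ : WForm k n r), ζ ∈ Sec k n r T b m →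
      smulX μ (we k (Sum.inl v) ζ) ∈ Sec k n r T (b + 1) m := by
    intro b m ζ hζ A e he
    have h1 : (μ * we k (Sum.inl v) ζ A).coeff e =
        1 * (we k (Sum.inl v) ζ A).coeff (fun w => e w - (Pi.single v (-1 : ℤ) : _ → ℤ) w) :=
      single_mul_coeff _ _ _ _
    have h1' : (μ * we k (Sum.inl v) ζ A).coeff e ≠ 0 := he
    rw [h1, one_mul, ex_we_apply] at h1'
    by_cases hvA : Sum.inl v ∈ A
    · rw [if_pos hvA] at h1'
      obtain ⟨c1, c2, c3⟩ := hζ _ _ (ne_zsmul h1')
      rw [card_erase_z hvA] at c1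
      rw [filt_erase_inl hvA, Finset.sum_sub_distrib, sum_single_z] at c2
      refine ⟨by linarith, by linarith, fun w hw => ?_⟩
      have h5 := c3 w hw
      have hwv : w ≠ v := fun h => hw (h ▸ hv)
      rw [Pi.single_eq_of_ne hwv] at h5
      linarith
    · rw [if_neg hvA] at h1'
      exact absurd rfl h1'
  have hWkos : ∀ (g : MvPolynomial (Fin (n + 1)) k) (t : Fin r → LauX n k) (ζ : WForm k n r),
      smulX μ (we k (Sum.inl v) (kos k (cK g t) ζ)) =
        - kos k (cK g t) (smulX μ (we k (Sum.inl v) ζ)) := by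
    intro g t ζ
    rw [ex_we_kos, map_neg]
    congr 1
    exact ex_mp_kos _ _ (fun u x => cK_mul g t u μ x) _
  have hWrel : Rel D T (a - 1) l ≤
      (Rel D T a l).comap (smulX μ ∘ₗ we k (Sum.inl v)) := by
    refine rel_induction D (fun j ζ hζ => ?_) (fun j ζ hζ => ?_) (fun i ζ hζ => ?_)
    · rw [Submodule.mem_comap, LinearMap.comp_apply]
      have h1 : smulX μ (we k (Sum.inl v) (smulX (toLX (D.h j)) ζ)) =
          smulX (toLX (D.h j)) (smulX μ (we k (Sum.inl v) ζ)) := by
        have h2 : we k (Sum.inl v) (smulX (toLX (D.h j)) ζ) =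
          smulX (toLX (D.h j)) (we k (Sum.inl v) ζ) := (mp_we _ _ _).symm
        rw [h2]
        funext A
        exact mul_left_comm _ _ _
      rw [h1]
      refine rel_h D j ?_
      have := hW _ _ ζ hζ
      rwa [sub_add_cancel] at this
    · rw [Submodule.mem_comap, LinearMap.comp_apply, dwe_kos, hWkos, ← dwe_kos]
      refine Submodule.neg_mem _ (rel_dh D j ?_)
      have := hW _ _ ζ hζ
      rwa [sub_add_cancel] at this
    · rw [Submodule.mem_comap, LinearMap.comp_apply, rhowe_kos, hWkos, ← rhowe_kos]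
      refine Submodule.neg_mem _ (rel_rho D i ?_)
      have := hW _ _ ζ hζ
      rwa [sub_add_cancel] at this
  refine ⟨smulX μ (we k (Sum.inl v) ω), hW a l ω hω, ?_⟩
  have h1 : euX d (smulX μ (we k (Sum.inl v) ω)) =
      ω - smulX μ (we k (Sum.inl v) (euX d ω)) := by
    rw [euX_smulX]
    have h2 : euX d (we k (Sum.inl v) ω) + we k (Sum.inl v) (euX d ω) =
        smulX (toLX (X v)) ω := by
      rw [euX_ctr, euX_ctr]
      exact ex_ctr_we _ _ _
    rw [eq_sub_of_add_eq h2, map_sub]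
    congr 1
    funext A
    show μ * (toLX (X v) * ω A) = ω A
    rw [← mul_assoc, hμX, one_mul]
  rw [h1, sub_sub_cancel]
  exact hWrel hω2

end

end HN
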