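import Mathlib

/-!
# HN/Ext : forms indexed by finite sets, exterior multiplication and contraction

`Finset ι → N` is the module of forms with coefficients in `N`: the value at `A` is the
coefficient of `e_A = e_{a_1} ∧ ... ∧ e_{a_m}`, `a_1 < ... < a_m` the elements of `A` in the order
given by the injective rank function of `ι`.
-/

namespace HN

/-- An index type with an injective rank (used to order the basis). -/
class Ranked (ι : Type*) where
  rk : ι → ℕ
  rk_inj : Function.Injective rk

export Ranked (rk rk_inj)

instance instRankedFin {a : ℕ} : Ranked (Fin a) := ⟨Fin.val, Fin.val_injective⟩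

instance instRankedSum {a : ℕ} {β : Type*} [Ranked β] : Ranked (Fin a ⊕ β) :=
  ⟨Sum.elim (fun k => k.1) (fun v => a + rk v), by
    intro x y h
    rcases x with x | x <;> rcases y with y | y <;> simp only [Sum.elim_inl, Sum.elim_inr] at h
    · exact congrArg _ (Fin.ext h)
    · exact absurd h (by have := x.2; omega)
    · exact absurd h (by have := y.2; omega)
    · exact congrArg _ (rk_inj (by omega))⟩

variable {ι : Type*} [DecidableEq ι] [Ranked ι]

/-- the sign `(-1)^{#{a ∈ A : a < v}}` -/
def sg (v : ι) (A : Finset ι) : ℤ := (-1) ^ (A.filter (fun a => rk a < rk v)).card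

section
variable (R : Type*) [CommRing R] {N : Type*} [AddCommGroup N] [Module R N]

/-- exterior multiplication by `e_v` on the left -/
def we (v : ι) : (Finset ι → N) →ₗ[R] (Finset ι → N) where
  toFun ξ A := if v ∈ A then sg v A • ξ (A.erase v) else 0
  map_add' x y := by
    funext A; by_cases h : v ∈ A <;> simp [h]
  map_smul' c x := by
    funext A
    by_cases h : v ∈ A
    · simp only [h, if_true, Pi.smul_apply, RingHom.id_apply]
      exact smul_comm _ _ _
    · simp [h]

/-- contraction with the dual of `e_v` -/
def co (v : ι) : (Finset ι → N) →ₗ[R] (Finset ι → N) where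
  toFun ξ A := if v ∈ A then 0 else sg v A • ξ (insert v A)
  map_add' x y := by
    funext A; by_cases h : v ∈ A <;> simp [h]
  map_smul' c x := by
    funext A
    by_cases h : v ∈ A
    · simp [h]
    · simp only [h, if_false, Pi.smul_apply, RingHom.id_apply]
      exact smul_comm _ _ _

/-- apply an operator to all coefficients -/
def mp {N' : Type*} [AddCommGroup N'] [Module R N'] (φ : N →ₗ[R] N') :
    (Finset ι → N) →ₗ[R] (Finset ι → N') where
  toFun ξ A := φ (ξ A)
  map_add' x y := by funext A; simp
  map_smul' c x := by funext A; simp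

/-- Koszul differential `∑_v e_v ∧ T_v` -/
def kos [Fintype ι] (T : ι → N →ₗ[R] N) : (Finset ι → N) →ₗ[R] (Finset ι → N) :=
  ∑ v, (we R v) ∘ₗ mp R (T v)

/-- contraction `∑_v c_v ι_v` -/
def ctr [Fintype ι] (c : ι → N →ₗ[R] N) : (Finset ι → N) →ₗ[R] (Finset ι → N) :=
  ∑ v, (co R v) ∘ₗ mp R (c v)

/-- Čech differential: exterior multiplication by `∑_{v ∈ S} e_v` -/
def ce [Fintype ι] (S : Finset ι) : (Finset ι → N) →ₗ[R] (Finset ι → N) :=
  ∑ v ∈ S, we R v

end

end HN
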