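import Pool.Agent.HN.Defs

/-! # HN/ExtLem : identities for forms (module HN-01) -/

set_option linter.unusedSectionVars false

open MvPolynomial

namespace HN

section
variable {ι : Type*} [DecidableEq ι] [Ranked ι]
variable {R : Type*} [CommRing R] {N : Type*} [AddCommGroup N] [Module R N]

/-- the sign of a pair -/
private def el_eps (u v : ι) : ℤ := if rk u < rk v then -1 else 1

private theorem el_eps_swap {u v : ι} (h : u ≠ v) : el_eps v u = - el_eps u v := by
  have h1 : rk u ≠ rk v := fun h2 => h (rk_inj h2)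
  unfold el_eps
  rcases lt_or_gt_of_ne h1 with h2 | h2
  · rw [if_pos h2, if_neg (not_lt.2 h2.le)]; norm_num
  · rw [if_pos h2, if_neg (not_lt.2 h2.le)]

private theorem el_sg_mul_self (v : ι) (A : Finset ι) : sg v A * sg v A = 1 := by
  unfold sg
  rw [← mul_pow]
  norm_num

private theorem el_sg_insert_self (v : ι) (A : Finset ι) : sg v (insert v A) = sg v A := by
  unfold sg
  rw [Finset.filter_insert, if_neg (lt_irrefl _)]

private theorem el_sg_erase_self (v : ι) (A : Finset ι) : sg v (A.erase v) = sg v A := by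
  unfold sg
  rw [Finset.filter_erase, Finset.erase_eq_of_notMem]
  simp

private theorem el_sg_insert {v u : ι} {A : Finset ι} (h : u ∉ A) :
    sg v (insert u A) = el_eps u v * sg v A := by
  unfold sg el_eps
  rw [Finset.filter_insert]
  split_ifs with h1
  · rw [Finset.card_insert_of_notMem (by simp [h]), pow_succ, mul_comm]
  · rw [one_mul]

private theorem el_sg_erase {v u : ι} {A : Finset ι} (h : u ∈ A) :
    sg v (A.erase u) = el_eps u v * sg v A := by
  have h1 := el_sg_insert (v := v) (Finset.notMem_erase u A)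
  rw [Finset.insert_erase h] at h1
  rw [h1, ← mul_assoc]
  have h2 : el_eps u v * el_eps u v = 1 := by unfold el_eps; split_ifs <;> norm_num
  rw [h2, one_mul]

private theorem el_we_apply (v : ι) (ξ : Finset ι → N) (A : Finset ι) :
    we R v ξ A = if v ∈ A then sg v A • ξ (A.erase v) else 0 := rfl

private theorem el_co_apply (v : ι) (ξ : Finset ι → N) (A : Finset ι) :
    co R v ξ A = if v ∈ A then 0 else sg v A • ξ (insert v A) := rfl

private theorem el_mp_apply {N' : Type*} [AddCommGroup N'] [Module R N'] (φ : N →ₗ[R] N')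
    (ξ : Finset ι → N) (A : Finset ι) : mp R φ ξ A = φ (ξ A) := rfl

theorem we_self (v : ι) (ξ : Finset ι → N) : we R v (we R v ξ) = 0 := by
  funext A
  rw [el_we_apply, el_we_apply]
  simp

theorem we_we {v u : ι} (h : v ≠ u) (ξ : Finset ι → N) :
    we R v (we R u ξ) = - we R u (we R v ξ) := by
  funext A
  rw [Pi.neg_apply, el_we_apply, el_we_apply, el_we_apply, el_we_apply]
  by_cases hv : v ∈ A
  · by_cases hu : u ∈ A
    · rw [if_pos hv, if_pos hu, if_pos (Finset.mem_erase.2 ⟨h.symm, hu⟩),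
        if_pos (Finset.mem_erase.2 ⟨h, hv⟩), el_sg_erase hv, el_sg_erase hu,
        Finset.erase_right_comm, smul_smul, smul_smul, ← neg_smul, el_eps_swap h]
      congr 1
      ring
    · rw [if_pos hv, if_neg hu, if_neg (fun h1 => hu (Finset.mem_of_mem_erase h1))]
      simp
  · rw [if_neg hv]
    by_cases hu : u ∈ A
    · rw [if_pos hu, if_neg (fun h1 => hv (Finset.mem_of_mem_erase h1))]
      simp
    · rw [if_neg hu]
      simp

theorem co_self (v : ι) (ξ : Finset ι → N) : co R v (co R v ξ) = 0 := by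
  funext A
  rw [el_co_apply, el_co_apply]
  simp

theorem co_co {v u : ι} (h : v ≠ u) (ξ : Finset ι → N) :
    co R v (co R u ξ) = - co R u (co R v ξ) := by
  funext A
  rw [Pi.neg_apply, el_co_apply, el_co_apply, el_co_apply, el_co_apply]
  by_cases hv : v ∈ A
  · rw [if_pos hv]
    by_cases hu : u ∈ A
    · rw [if_pos hu]; simp
    · rw [if_neg hu, if_pos (Finset.mem_insert_of_mem hv)]; simp
  · rw [if_neg hv]
    by_cases hu : u ∈ A
    · rw [if_pos hu, if_pos (Finset.mem_insert_of_mem hu)]; simp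
    · rw [if_neg hu, if_neg (by simp [h.symm, hu]), if_neg (by simp [h, hv]),
        el_sg_insert hv, el_sg_insert hu, Finset.insert_comm, smul_smul, smul_smul,
        ← neg_smul, el_eps_swap h]
      congr 1
      ring

theorem co_we_self (v : ι) (ξ : Finset ι → N) : co R v (we R v ξ) + we R v (co R v ξ) = ξ := by
  funext A
  rw [Pi.add_apply, el_co_apply, el_we_apply, el_we_apply, el_co_apply]
  by_cases hv : v ∈ A
  · rw [if_pos hv, if_pos hv, if_neg (Finset.notMem_erase v A), zero_add, el_sg_erase_self,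
      Finset.insert_erase hv, smul_smul, el_sg_mul_self, one_smul]
  · rw [if_neg hv, if_neg hv, if_pos (Finset.mem_insert_self v A), add_zero, el_sg_insert_self,
      Finset.erase_insert hv, smul_smul, el_sg_mul_self, one_smul]

theorem co_we {v u : ι} (h : v ≠ u) (ξ : Finset ι → N) :
    co R v (we R u ξ) = - we R u (co R v ξ) := by
  funext A
  rw [Pi.neg_apply, el_co_apply, el_we_apply, el_we_apply, el_co_apply]
  by_cases hv : v ∈ A
  · rw [if_pos hv]
    by_cases hu : u ∈ A
    · rw [if_pos hu, if_pos (Finset.mem_erase.2 ⟨h, hv⟩)]; simp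
    · rw [if_neg hu]; simp
  · rw [if_neg hv]
    by_cases hu : u ∈ A
    · rw [if_pos hu, if_pos (Finset.mem_insert_of_mem hu),
        if_neg (fun h1 => hv (Finset.mem_of_mem_erase h1)), el_sg_insert hv, el_sg_erase hu,
        Finset.erase_insert_of_ne h, smul_smul, smul_smul, ← neg_smul, el_eps_swap h]
      congr 1
      ring
    · rw [if_neg hu, if_neg (by simp [h.symm, hu])]; simp

theorem mp_we {N' : Type*} [AddCommGroup N'] [Module R N'] (φ : N →ₗ[R] N') (v : ι)
    (ξ : Finset ι → N) : mp R φ (we R v ξ) = we R v (mp R φ ξ) := by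
  funext A
  rw [el_mp_apply, el_we_apply, el_we_apply, el_mp_apply]
  split_ifs
  · rw [map_zsmul]
  · rw [map_zero]

theorem mp_co {N' : Type*} [AddCommGroup N'] [Module R N'] (φ : N →ₗ[R] N') (v : ι)
    (ξ : Finset ι → N) : mp R φ (co R v ξ) = co R v (mp R φ ξ) := by
  funext A
  rw [el_mp_apply, el_co_apply, el_co_apply, el_mp_apply]
  split_ifs
  · rw [map_zero]
  · rw [map_zsmul]

private theorem el_mp_smul_id (a : R) (ξ : Finset ι → N) :
    mp R (a • LinearMap.id) ξ = a • ξ := rfl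

private theorem el_sum_anti {M : Type*} [AddCommGroup M] (S : Finset ι) (F : ι → ι → M)
    (h0 : ∀ v, F v v = 0) (h1 : ∀ v u, v ≠ u → F v u = - F u v) :
    ∑ v ∈ S, ∑ u ∈ S, F v u = 0 := by
  rw [← Finset.sum_product']
  refine Finset.sum_involution (fun p _ => (p.2, p.1)) ?_ ?_ ?_ ?_
  · rintro ⟨v, u⟩ _
    by_cases h : v = u
    · subst h; simp [h0]
    · simp only [h1 v u h, neg_add_cancel]
  · rintro ⟨v, u⟩ _ hne heq
    have : u = v := congrArg Prod.fst heq
    subst this
    exact hne (h0 u)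
  · rintro ⟨v, u⟩ h
    rw [Finset.mem_product] at h ⊢
    exact ⟨h.2, h.1⟩
  · rintro ⟨v, u⟩ _
    rfl

variable [Fintype ι]

private theorem el_kos (T : ι → N →ₗ[R] N) (ξ : Finset ι → N) :
    kos R T ξ = ∑ v, we R v (mp R (T v) ξ) := by
  simp [kos, LinearMap.sum_apply]

private theorem el_ctr (T : ι → N →ₗ[R] N) (ξ : Finset ι → N) :
    ctr R T ξ = ∑ v, co R v (mp R (T v) ξ) := by
  simp [ctr, LinearMap.sum_apply]

private theorem el_ce (S : Finset ι) (ξ : Finset ι → N) :
    ce R S ξ = ∑ v ∈ S, we R v ξ := by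
  simp [ce, LinearMap.sum_apply]

private theorem el_eul (C : CType ι) (ξ : Finset ι → N) :
    eul R C ξ = ∑ v, (C.wd v : R) • co R v ξ := by
  simp [eul, LinearMap.sum_apply]

private theorem el_eul_ctr (C : CType ι) (ξ : Finset ι → N) :
    eul R C ξ = ctr R (fun v => (C.wd v : R) • (LinearMap.id : N →ₗ[R] N)) ξ := by
  rw [el_eul, el_ctr]
  refine Finset.sum_congr rfl fun v _ => ?_
  rw [el_mp_smul_id, map_smul]

theorem kos_apply (T : ι → N →ₗ[R] N) (ξ : Finset ι → N) (A : Finset ι) :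
    kos R T ξ A = ∑ v ∈ A, sg v A • T v (ξ (A.erase v)) := by
  rw [el_kos, Finset.sum_apply]
  simp only [el_we_apply, el_mp_apply]
  rw [Finset.sum_ite_mem, Finset.univ_inter]

theorem ctr_apply (c : ι → N →ₗ[R] N) (ξ : Finset ι → N) (A : Finset ι) :
    ctr R c ξ A = ∑ v ∈ Aᶜ, sg v A • c v (ξ (insert v A)) := by
  rw [el_ctr, Finset.sum_apply]
  simp only [el_co_apply, el_mp_apply]
  rw [← Finset.sum_subset (Finset.subset_univ Aᶜ)]
  · refine Finset.sum_congr rfl fun v hv => ?_
    rw [if_neg (Finset.mem_compl.1 hv)]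
  · intro v _ hv
    rw [if_pos (by simpa using hv)]

theorem ce_apply (S : Finset ι) (ξ : Finset ι → N) (T : Finset ι) :
    ce R S ξ T = ∑ v ∈ T ∩ S, sg v T • ξ (T.erase v) := by
  rw [el_ce, Finset.sum_apply]
  simp only [el_we_apply]
  rw [Finset.sum_ite_mem, Finset.inter_comm]

theorem eul_apply (C : CType ι) (ξ : Finset ι → N) (A : Finset ι) :
    eul R C ξ A = ∑ v ∈ Aᶜ, (C.wd v : R) • sg v A • ξ (insert v A) := by
  rw [el_eul_ctr, ctr_apply]
  refine Finset.sum_congr rfl fun v _ => ?_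
  rw [LinearMap.smul_apply, LinearMap.id_apply, smul_comm]

theorem kos_kos {T : ι → N →ₗ[R] N} (hT : ∀ u v x, T u (T v x) = T v (T u x))
    (ξ : Finset ι → N) : kos R T (kos R T ξ) = 0 := by
  rw [el_kos, el_kos]
  simp only [map_sum, mp_we]
  refine el_sum_anti Finset.univ (fun v u => we R v (we R u (mp R (T v) (mp R (T u) ξ))))
    (fun v => we_self v _) (fun v u h => ?_)
  rw [we_we h]
  have : mp R (T v) (mp R (T u) ξ) = mp R (T u) (mp R (T v) ξ) := by
    funext A
    exact hT v u (ξ A)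
  rw [this]

theorem ctr_kos {T c : ι → N →ₗ[R] N} (hc : ∀ u v x, c u (T v x) = T v (c u x))
    (ξ : Finset ι → N) :
    ctr R c (kos R T ξ) + kos R T (ctr R c ξ) = mp R (∑ v, c v ∘ₗ T v) ξ := by
  have e1 : ctr R c (kos R T ξ) = ∑ v, ∑ u, co R v (we R u (mp R (c v) (mp R (T u) ξ))) := by
    rw [el_ctr, el_kos]
    simp only [map_sum, mp_we]
  have e2 : kos R T (ctr R c ξ) = ∑ v, ∑ u, we R u (co R v (mp R (c v) (mp R (T u) ξ))) := by
    rw [el_ctr, el_kos]
    simp only [map_sum, mp_co]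
    rw [Finset.sum_comm]
    refine Finset.sum_congr rfl fun v _ => Finset.sum_congr rfl fun u _ => ?_
    have : mp R (T u) (mp R (c v) ξ) = mp R (c v) (mp R (T u) ξ) := by
      funext A
      exact (hc v u (ξ A)).symm
    rw [this]
  rw [e1, e2, ← Finset.sum_add_distrib]
  have e3 : mp R (∑ v, c v ∘ₗ T v) ξ = ∑ v, mp R (c v) (mp R (T v) ξ) := by
    funext A
    simp [el_mp_apply, Finset.sum_apply, LinearMap.sum_apply]
  rw [e3]
  refine Finset.sum_congr rfl fun v _ => ?_
  rw [← Finset.sum_add_distrib, Finset.sum_eq_single v]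
  · exact co_we_self v _
  · intro u _ hu
    rw [co_we hu.symm, neg_add_cancel]
  · intro h
    exact absurd (Finset.mem_univ v) h

theorem eul_kos (C : CType ι) (T : ι → N →ₗ[R] N) (ξ : Finset ι → N) :
    eul R C (kos R T ξ) + kos R T (eul R C ξ) = mp R (∑ v, (C.wd v : R) • T v) ξ := by
  rw [el_eul_ctr, el_eul_ctr, ctr_kos]
  · rfl
  · intro u v x
    simp

theorem eul_eul (C : CType ι) (ξ : Finset ι → N) : eul R C (eul R C ξ) = 0 := by
  rw [el_eul, el_eul]
  simp only [map_sum, map_smul, Finset.smul_sum]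
  refine el_sum_anti Finset.univ
    (fun v u => (C.wd v : R) • (C.wd u : R) • co R v (co R u ξ)) (fun v => ?_) (fun v u h => ?_)
  · rw [co_self, smul_zero, smul_zero]
  · rw [co_co h, smul_neg, smul_neg, smul_comm]

theorem we_eul (C : CType ι) (v : ι) (ξ : Finset ι → N) :
    eul R C (we R v ξ) + we R v (eul R C ξ) = (C.wd v : R) • ξ := by
  rw [el_eul, el_eul, map_sum, ← Finset.sum_add_distrib, Finset.sum_eq_single v]
  · rw [map_smul, ← smul_add, co_we_self]
  · intro u _ hu
    rw [map_smul, ← smul_add, co_we hu, neg_add_cancel, smul_zero]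
  · intro h
    exact absurd (Finset.mem_univ v) h

theorem ce_ce (S : Finset ι) (ξ : Finset ι → N) : ce R S (ce R S ξ) = 0 := by
  rw [el_ce, el_ce]
  simp only [map_sum]
  exact el_sum_anti S (fun v u => we R v (we R u ξ)) (fun v => we_self v _)
    (fun v u h => we_we h ξ)

theorem ce_ce_disj {S S' : Finset ι} (h : Disjoint S S') (ξ : Finset ι → N) :
    ce R S (ce R S' ξ) = - ce R S' (ce R S ξ) := by
  rw [el_ce, el_ce, el_ce, el_ce]
  simp only [map_sum]
  rw [Finset.sum_comm, ← Finset.sum_neg_distrib]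
  refine Finset.sum_congr rfl fun u hu => ?_
  rw [← Finset.sum_neg_distrib]
  refine Finset.sum_congr rfl fun v hv => ?_
  have hne : v ≠ u := by
    rintro rfl
    exact Finset.disjoint_left.1 h hv hu
  exact we_we hne ξ

theorem mp_ce {N' : Type*} [AddCommGroup N'] [Module R N'] (φ : N →ₗ[R] N') (S : Finset ι)
    (ξ : Finset ι → N) : mp R φ (ce R S ξ) = ce R S (mp R φ ξ) := by
  rw [el_ce, el_ce, map_sum]
  exact Finset.sum_congr rfl fun v _ => mp_we φ v ξ

theorem mp_eul {N' : Type*} [AddCommGroup N'] [Module R N'] (φ : N →ₗ[R] N') (C : CType ι)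
    (ξ : Finset ι → N) : mp R φ (eul R C ξ) = eul R C (mp R φ ξ) := by
  rw [el_eul, el_eul, map_sum]
  refine Finset.sum_congr rfl fun v _ => ?_
  rw [map_smul, mp_co]

theorem tot_apply {V : Type*} [AddCommGroup V] [Module R V] (S : Finset ι) (Dn : V →ₗ[R] V)
    (ξ : Finset ι → V) (T : Finset ι) :
    tot S Dn ξ T = ∑ v ∈ T ∩ S, sg v T • ξ (T.erase v) + (-1 : R) ^ T.card • Dn (ξ T) := by
  rw [← ce_apply (R := R)]
  rfl

private theorem el_ce_sgT {V : Type*} [AddCommGroup V] [Module R V] (S : Finset ι)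
    (η : Finset ι → V) : ce R S (sgT (R := R) η) = - sgT (R := R) (ce R S η) := by
  funext T
  rw [ce_apply, Pi.neg_apply]
  change _ = - ((-1 : R) ^ T.card • ce R S η T)
  rw [ce_apply, Finset.smul_sum, ← Finset.sum_neg_distrib]
  refine Finset.sum_congr rfl fun v hv => ?_
  have hv1 : v ∈ T := (Finset.mem_inter.1 hv).1
  change sg v T • ((-1 : R) ^ (T.erase v).card • η (T.erase v)) = _
  rw [← Finset.card_erase_add_one hv1, pow_succ, smul_comm]
  simp

/-- `tot ∘ tot = 0` as soon as `Dn (Dn x) = 0` for the components of `ξ` -/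
theorem tot_tot {V : Type*} [AddCommGroup V] [Module R V] (S : Finset ι) (Dn : V →ₗ[R] V)
    (ξ : Finset ι → V) (h : ∀ T, Dn (Dn (ξ T)) = 0) :
    tot S Dn (tot S Dn ξ) = 0 := by
  have e0 : ∀ η : Finset ι → V, tot S Dn η = ce R S η + sgT (R := R) (mp R Dn η) := fun η => rfl
  rw [e0, e0, map_add, map_add, map_add, ce_ce, mp_ce, el_ce_sgT, zero_add]
  have e1 : sgT (R := R) (mp R Dn (sgT (R := R) (mp R Dn ξ))) = 0 := by
    funext T
    change (-1 : R) ^ T.card • Dn ((-1 : R) ^ T.card • Dn (ξ T)) = 0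
    rw [map_smul, h, smul_zero, smul_zero]
  rw [e1, add_zero, neg_add_cancel]

end

end HN
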