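import Pool.Agent.HN.CLam
import Pool.Agent.HN.Dim

/-! # HN/NNc : duality (module HN-C7)

PLAN.  Pairing `⟨f, X^{e'}⟩ = f.coeff (- e' - 1_Y)` between `{f : deg = dlog - δ, wt = -|Y| - w0, all
exponents ≤ -1}` and the top forms `KW k C ∅ δ N' w0` (exponents `e'_v ≥ 1` for `v ∉ Ys`, `≥ 0` for
`v ∈ Ys`): both have monomial bases in bijection by `e' ↦ - e' - 1_Y`, so `f ↦ ⟨f, ·⟩` is an
isomorphism with the dual space (finite dimension: `finrank_KW`, `kset_finite`).  For the component
`A = univ \ {v}` and `e''` admissible for it, `Dk (bas A e'') = ± (v ∂_v F) X^{e''} e_univ`, and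
`⟨f, (v ∂_v F) X^{e''}⟩ = (Tm F v f).coeff (- e'' - 1_Y)`.  So `f ∈ NNc` iff `⟨f, ·⟩` kills
`topIm F C δ w0`; its dimension is that of the quotient, `finrank_coker`.
-/

open MvPolynomial

namespace HN

section
variable {ι : Type*} [Fintype ι] [DecidableEq ι] [Ranked ι] {k : Type*} [Field k]

private def ngv (C : CType ι) (e : ι → ℤ) : ι → ℤ := fun v => - e v - (if v ∈ C.Ys then 1 else 0)

omit [Ranked ι] [Fintype ι] in
private theorem ngv_ngv (C : CType ι) (e : ι → ℤ) : ngv C (ngv C e) = e := by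
  funext v
  unfold ngv
  ring

omit [Ranked ι] [Fintype ι] in
private theorem ngv_sub (C : CType ι) (e m : ι → ℤ) :
    ngv C (fun v => e v + m v) = fun v => ngv C e v - m v := by
  funext v
  unfold ngv
  ring

omit [Ranked ι] in
private theorem deg_ngv (C : CType ι) (e : ι → ℤ) : C.deg (ngv C e) = C.dlog - C.deg e := by
  unfold CType.deg CType.dlog ngv
  have h1 : ∑ v ∈ C.Ys, - C.wd v = ∑ v, - (C.wd v * (if v ∈ C.Ys then 1 else 0)) := by
    rw [← Finset.sum_filter_add_sum_filter_not Finset.univ (fun v => v ∈ C.Ys)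
      (fun v => - (C.wd v * (if v ∈ C.Ys then 1 else 0)))]
    rw [Finset.sum_eq_zero (s := Finset.univ.filter fun v => ¬ v ∈ C.Ys), add_zero]
    · have h2 : Finset.univ.filter (fun v => v ∈ C.Ys) = C.Ys := by
        ext v
        simp
      rw [h2]
      exact Finset.sum_congr rfl fun v hv => by rw [if_pos hv, mul_one]
    · intro v hv
      rw [if_neg (Finset.mem_filter.1 hv).2, mul_zero, neg_zero]
  rw [h1, ← Finset.sum_sub_distrib]
  exact Finset.sum_congr rfl fun v _ => by ring

omit [Ranked ι] in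
private theorem wt_ngv (C : CType ι) (e : ι → ℤ) :
    C.wt (ngv C e) = -(C.Ys.card : ℤ) - C.wt e := by
  unfold CType.wt ngv
  have h1 : ∑ v ∈ C.Xsᶜ, (if v ∈ C.Ys then (1 : ℤ) else 0) = (C.Ys.card : ℤ) := by
    rw [Finset.sum_ite_mem, Finset.sum_const, nsmul_eq_mul, mul_one]
    congr 2
    ext v
    rw [Finset.mem_inter, Finset.mem_compl]
    exact ⟨fun h => h.2, fun h => ⟨C.hXY v h, h⟩⟩
  rw [Finset.sum_sub_distrib, h1, Finset.sum_neg_distrib]
  ring

omit [Ranked ι] in
private theorem deg_sub' (C : CType ι) (e m : ι → ℤ) :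
    C.deg (fun v => e v - m v) = C.deg e - C.deg m := by
  unfold CType.deg
  rw [← Finset.sum_sub_distrib]
  exact Finset.sum_congr rfl fun v _ => by ring

omit [Ranked ι] in
private theorem wt_sub' (C : CType ι) (e m : ι → ℤ) :
    C.wt (fun v => e v - m v) = C.wt e - C.wt m := by
  unfold CType.wt
  rw [← Finset.sum_sub_distrib]

omit [Ranked ι] in
private theorem thr_ngv (C : CType ι) (e : ι → ℤ) :
    (∀ v, ngv C e v ≤ -1) ↔ ∀ v, C.thr v Finset.univ ≤ e v := by
  refine forall_congr' fun v => ?_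
  unfold ngv CType.thr
  by_cases hv : v ∈ C.Ys
  · rw [if_pos hv, if_neg (fun h => h.2 hv)]
    omega
  · rw [if_neg hv, if_pos ⟨Finset.mem_univ v, hv⟩]
    omega

open Classical in
private noncomputable def Pf (C : CType ι) (δ w0 : ℤ) : Finset (ι → ℤ) :=
  (kset_finite C δ (Fintype.card ι) w0).toFinset.image Prod.snd

private theorem mem_Pf {C : CType ι} {δ w0 : ℤ} {e : ι → ℤ} :
    e ∈ Pf C δ w0 ↔ C.deg e = δ ∧ C.wt e = w0 ∧ ∀ v, C.thr v Finset.univ ≤ e v := by
  classical
  unfold Pf
  rw [Finset.mem_image]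
  constructor
  · rintro ⟨⟨A, e'⟩, h, rfl⟩
    rw [Set.Finite.mem_toFinset] at h
    obtain ⟨h1, h2, h3, h4⟩ := h
    have hA : A = Finset.univ := by
      rw [← Finset.card_eq_iff_eq_univ]
      exact_mod_cast h1
    subst hA
    exact ⟨h2, h4, h3⟩
  · rintro ⟨h1, h2, h3⟩
    refine ⟨(Finset.univ, e), ?_, rfl⟩
    rw [Set.Finite.mem_toFinset]
    exact ⟨by simp, h1, h3, h2⟩

/-- the functions of negative exponents -/
private def Wn (k : Type*) [Field k] (C : CType ι) (δ w0 : ℤ) : Submodule k (Lau ι k) where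
  carrier := {f | ∀ e, f.coeff e ≠ 0 → C.deg e = C.dlog - δ ∧ C.wt e = -(C.Ys.card : ℤ) - w0 ∧
    ∀ v, e v ≤ -1}
  zero_mem' := fun e h => absurd rfl h
  add_mem' {x y} hx hy := fun e h => by
    by_cases h1 : x.coeff e = 0
    · exact hy e (by intro h2; exact h (by simp [h1, h2]))
    · exact hx e h1
  smul_mem' c x hx := fun e h => hx e (by intro h1; exact h (by simp [h1]))

private theorem Wn_Pf {C : CType ι} {δ w0 : ℤ} {f : Lau ι k} (hf : f ∈ Wn k C δ w0) {e : ι → ℤ}
    (he : f.coeff e ≠ 0) : ngv C e ∈ Pf C δ w0 := by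
  obtain ⟨h1, h2, h3⟩ := hf e he
  rw [mem_Pf, deg_ngv, wt_ngv, h1, h2, ← thr_ngv, ngv_ngv]
  exact ⟨by ring, by ring, h3⟩

/-- the pairing -/
private noncomputable def Ph (k : Type*) [Field k] (C : CType ι) (δ w0 : ℤ) :
    Lau ι k →ₗ[k] (Finset ι → Lau ι k) →ₗ[k] k :=
  LinearMap.mk₂ k (fun f ξ => ∑ e ∈ Pf C δ w0, f.coeff (ngv C e) * (ξ Finset.univ).coeff e)
    (fun f f' ξ => by
      rw [← Finset.sum_add_distrib]
      exact Finset.sum_congr rfl fun e _ => by simp [add_mul])
    (fun c f ξ => by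
      rw [Finset.smul_sum]
      exact Finset.sum_congr rfl fun e _ => by simp [mul_assoc])
    (fun f ξ ξ' => by
      rw [← Finset.sum_add_distrib]
      exact Finset.sum_congr rfl fun e _ => by simp [mul_add])
    (fun c f ξ => by
      rw [Finset.smul_sum]
      exact Finset.sum_congr rfl fun e _ => by simp [mul_left_comm])

private theorem Ph_apply (C : CType ι) (δ w0 : ℤ) (f : Lau ι k) (ξ : Finset ι → Lau ι k) :
    Ph k C δ w0 f ξ = ∑ e ∈ Pf C δ w0, f.coeff (ngv C e) * (ξ Finset.univ).coeff e := rfl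

private theorem swap_sum {C : CType ι} {δ w0 : ℤ} {f : Lau ι k} (hf : f ∈ Wn k C δ w0)
    (g : MvPolynomial ι k) (h : Lau ι k) :
    ∑ e ∈ Pf C δ w0, f.coeff (ngv C e) * (toL g * h).coeff e =
      ∑ e ∈ h.coeff.support, h.coeff e * (toL g * f).coeff (ngv C e) := by
  simp only [toL_mul_coeff, Finset.mul_sum]
  rw [Finset.sum_comm]
  conv_rhs => rw [Finset.sum_comm]
  refine Finset.sum_congr rfl fun m _ => ?_
  refine Finset.sum_bij_ne_zero (fun e _ _ => fun v => e v - (m v : ℤ)) ?_ ?_ ?_ ?_
  · intro e _ h1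
    rw [Finsupp.mem_support_iff]
    exact right_ne_zero_of_mul (right_ne_zero_of_mul h1)
  · intro e1 _ _ e2 _ _ h1
    funext v
    have h9 : e1 v - (m v : ℤ) = e2 v - (m v : ℤ) := congrFun h1 v
    linarith
  · intro e he h1
    have h2 : f.coeff (fun v => ngv C e v - (m v : ℤ)) ≠ 0 :=
      right_ne_zero_of_mul (right_ne_zero_of_mul h1)
    rw [← ngv_sub] at h2
    have h3 := Wn_Pf hf h2
    rw [ngv_ngv] at h3
    refine ⟨fun v => e v + (m v : ℤ), h3, ?_, ?_⟩
    · have h4 : (fun v => e v + (m v : ℤ) - (m v : ℤ)) = e := by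
        funext v
        ring
      simp only [h4]
      refine mul_ne_zero h2 (mul_ne_zero (left_ne_zero_of_mul (right_ne_zero_of_mul h1)) ?_)
      exact Finsupp.mem_support_iff.1 he
    · funext v
      ring
  · intro e _ _
    have h4 : (fun v => ngv C (fun u => e u - (m u : ℤ)) v - (m v : ℤ)) = ngv C e := by
      funext v
      unfold ngv
      ring
    simp only [h4]
    ring

private theorem Ph_Dk {C : CType ι} (F : MvPolynomial ι k) {δ w0 : ℤ} {f : Lau ι k}
    (hf : f ∈ Wn k C δ w0) (η : Finset ι → Lau ι k) :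
    Ph k C δ w0 f (Dk F η) = ∑ v, sg v Finset.univ • ∑ e ∈ (η (Finset.univ.erase v)).coeff.support,
      (η (Finset.univ.erase v)).coeff e * (Tm F v f).coeff (ngv C e) := by
  have h1 : Dk F η Finset.univ = ∑ v, sg v Finset.univ • Tm F v (η (Finset.univ.erase v)) :=
    kos_apply _ _ _
  rw [Ph_apply, h1]
  have h2 : ∀ v, ∑ e ∈ (η (Finset.univ.erase v)).coeff.support,
      (η (Finset.univ.erase v)).coeff e * (Tm F v f).coeff (ngv C e) =
      ∑ e ∈ Pf C δ w0, f.coeff (ngv C e) * (Tm F v (η (Finset.univ.erase v))).coeff e := fun v =>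
    (swap_sum hf (X v * pderiv v F) _).symm
  simp only [h2]
  have h3 : ∀ e, (∑ v, sg v Finset.univ • Tm F v (η (Finset.univ.erase v))).coeff e =
      ∑ v, sg v Finset.univ • (Tm F v (η (Finset.univ.erase v))).coeff e := by
    intro e
    rw [AddMonoidAlgebra.coeff_sum, Finsupp.finset_sum_apply]
    exact Finset.sum_congr rfl fun v _ => by
      rw [AddMonoidAlgebra.coeff_smul, Finsupp.smul_apply]
  simp only [h3, Finset.mul_sum]
  rw [Finset.sum_comm]
  refine Finset.sum_congr rfl fun v _ => ?_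
  rw [Finset.smul_sum]
  exact Finset.sum_congr rfl fun e _ => by
    rw [mul_smul_comm]

private theorem NNc_iff {C : CType ι} {F : MvPolynomial ι k} (hF : C.Hom F) {δ w0 : ℤ}
    {f : Lau ι k} : f ∈ NNc C F (C.dlog - δ) (-(C.Ys.card : ℤ) - w0) ↔
      f ∈ Wn k C δ w0 ∧ ∀ ξ ∈ topIm F C δ w0, Ph k C δ w0 f ξ = 0 := by
  constructor
  · rintro ⟨h1, h2⟩
    refine ⟨h1, ?_⟩
    rintro _ ⟨η, hη, rfl⟩
    rw [Ph_Dk F (show f ∈ Wn k C δ w0 from h1)]
    refine Finset.sum_eq_zero fun v _ => ?_
    rw [Finset.sum_eq_zero, smul_zero]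
    intro e he
    rw [Finsupp.mem_support_iff] at he
    obtain ⟨-, -, h3, -⟩ := hη _ _ he
    rw [h2 v (ngv C e) ?_ ?_ ?_, mul_zero]
    · intro u hu
      have h4 := h3 u (Finset.notMem_empty u)
      unfold CType.thr at h4
      unfold ngv
      by_cases hY : u ∈ C.Ys
      · rw [if_pos hY]
        rw [if_neg (fun h => h.2 hY)] at h4
        omega
      · rw [if_neg hY]
        rw [if_pos ⟨Finset.mem_erase.2 ⟨hu, Finset.mem_univ u⟩, hY⟩] at h4
        omega
    · intro hY
      have h4 := h3 v (Finset.notMem_empty v)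
      unfold CType.thr at h4
      unfold ngv
      rw [if_pos hY]
      rw [if_neg (fun h => h.2 hY)] at h4
      omega
    · have h4 := (thr_nonneg C v (Finset.univ.erase v)).trans (h3 v (Finset.notMem_empty v))
      unfold ngv
      split_ifs <;> omega
  · rintro ⟨h1, h2⟩
    refine ⟨h1, fun v e h3 h4 h5 => ?_⟩
    by_contra hne
    obtain ⟨m, hm, -, hfm⟩ := exists_of_Tm_coeff_ne hne
    obtain ⟨d1, d2⟩ := hF m hm
    obtain ⟨d3, d4, -⟩ := h1 _ hfm
    rw [deg_sub', d1, sub_zero] at d3
    rw [wt_sub', d2] at d4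
    let η : Finset ι → Lau ι k := fun A =>
      if A = Finset.univ.erase v then AddMonoidAlgebra.single (ngv C e) 1 else 0
    have hη1 : η (Finset.univ.erase v) = AddMonoidAlgebra.single (ngv C e) 1 := if_pos rfl
    have hη2 : ∀ u, u ≠ v → η (Finset.univ.erase u) = 0 := by
      intro u hu
      refine if_neg fun h => ?_
      have h6 : u ∈ Finset.univ.erase v := Finset.mem_erase.2 ⟨hu, Finset.mem_univ u⟩
      rw [← h] at h6
      exact Finset.notMem_erase u _ h6
    have hη : η ∈ KW k C ∅ δ ((Fintype.card ι : ℤ) - 1) (w0 - 1) := by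
      intro A e' he'
      by_cases hA : A = Finset.univ.erase v
      · subst hA
        rw [hη1, AddMonoidAlgebra.coeff_single, Finsupp.single_apply] at he'
        have he'' : ngv C e = e' := by
          by_contra h
          exact he' (if_neg h)
        subst he''
        refine ⟨?_, ?_, fun u _ => ?_, ?_⟩
        · have h6 := Finset.card_erase_add_one (Finset.mem_univ v)
          rw [Finset.card_univ] at h6
          have h7 : (((Finset.univ.erase v).card : ℕ) : ℤ) + 1 = Fintype.card ι := by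
            exact_mod_cast h6
          linarith
        · rw [deg_ngv, d3]
          ring
        · unfold CType.thr ngv
          by_cases hu : u = v
          · subst hu
            rw [if_neg (fun h => Finset.notMem_erase u _ h.1)]
            by_cases hY : u ∈ C.Ys
            · rw [if_pos hY]
              have := h4 hY
              omega
            · rw [if_neg hY]
              omega
          · have h6 := h3 u hu
            by_cases hY : u ∈ C.Ys
            · rw [if_neg (fun h => h.2 hY), if_pos hY]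
              omega
            · rw [if_pos ⟨Finset.mem_erase.2 ⟨hu, Finset.mem_univ u⟩, hY⟩, if_neg hY]
              omega
        · rw [wt_ngv]
          linarith
      · exfalso
        apply he'
        have h6 : η A = 0 := if_neg hA
        rw [h6]
        rfl
    have h6 := h2 _ ⟨η, hη, rfl⟩
    rw [Ph_Dk F h1, Finset.sum_eq_single v] at h6
    · rw [hη1, AddMonoidAlgebra.coeff_single, Finsupp.support_single _ one_ne_zero,
        Finset.sum_singleton, Finsupp.single_eq_same, one_mul, ngv_ngv] at h6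
      have h7 : sg v Finset.univ • sg v Finset.univ • (Tm F v f).coeff e = (Tm F v f).coeff e := by
        rw [smul_smul]
        unfold sg
        rw [← mul_pow]
        simp
      rw [h6, smul_zero] at h7
      exact hne h7.symm
    · intro u _ hu
      rw [hη2 u hu]
      simp
    · intro h
      exact absurd (Finset.mem_univ v) h

open Classical in
/-- the basis forms -/
private noncomputable def bb (k : Type*) [Field k] (e : ι → ℤ) : Finset ι → Lau ι k := fun A =>
  if A = Finset.univ then AddMonoidAlgebra.single e 1 else 0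

private theorem bb_mem {C : CType ι} {δ w0 : ℤ} {e : ι → ℤ} (he : e ∈ Pf C δ w0) :
    bb k e ∈ KW k C ∅ δ (Fintype.card ι) w0 := by
  intro A e' he'
  unfold bb at he'
  by_cases hA : A = Finset.univ
  · subst hA
    rw [if_pos rfl, AddMonoidAlgebra.coeff_single, Finsupp.single_apply] at he'
    have he'' : e = e' := by
      by_contra h
      exact he' (if_neg h)
    subst he''
    obtain ⟨h1, h2, h3⟩ := mem_Pf.1 he
    exact ⟨by simp, h1, fun v _ => h3 v, h2⟩
  · exfalso
    apply he'
    rw [if_neg hA]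
    rfl

private theorem expand {C : CType ι} {δ w0 : ℤ} {ξ : Finset ι → Lau ι k}
    (hξ : ξ ∈ KW k C ∅ δ (Fintype.card ι) w0) :
    ξ = ∑ e ∈ Pf C δ w0, (ξ Finset.univ).coeff e • bb k e := by
  funext A
  refine lau_ext fun e' => ?_
  rw [Finset.sum_apply, AddMonoidAlgebra.coeff_sum, Finsupp.finset_sum_apply]
  have h1 : ∀ e, ((((ξ Finset.univ).coeff e • bb k e) A).coeff e' : k) =
      if A = Finset.univ ∧ e = e' then (ξ Finset.univ).coeff e else 0 := by
    intro e
    rw [Pi.smul_apply, AddMonoidAlgebra.coeff_smul, Finsupp.smul_apply]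
    unfold bb
    by_cases hA : A = Finset.univ
    · rw [if_pos hA, AddMonoidAlgebra.coeff_single, Finsupp.single_apply]
      by_cases he : e = e'
      · rw [if_pos he, if_pos ⟨hA, he⟩, smul_eq_mul, mul_one]
      · rw [if_neg he, if_neg (fun h => he h.2), smul_zero]
    · rw [if_neg hA, if_neg (fun h => hA h.1)]
      simp
  simp only [h1]
  by_cases hne : (ξ A).coeff e' = 0
  · rw [hne]
    symm
    refine Finset.sum_eq_zero fun e _ => ?_
    split_ifs with h
    · obtain ⟨h2, h3⟩ := h
      subst h2 h3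
      exact hne
    · rfl
  · obtain ⟨h2, h3, h4, h5⟩ := hξ A e' hne
    have hA : A = Finset.univ := by
      rw [← Finset.card_eq_iff_eq_univ]
      exact_mod_cast h2
    subst hA
    have he : e' ∈ Pf C δ w0 := mem_Pf.2 ⟨h3, h5, fun v => h4 v (Finset.notMem_empty v)⟩
    rw [Finset.sum_eq_single e']
    · rw [if_pos ⟨rfl, rfl⟩]
    · intro e _ h6
      exact if_neg (fun h => h6 h.2)
    · intro h
      exact absurd he h

private theorem Ph_bb {C : CType ι} {δ w0 : ℤ} (f : Lau ι k) {e : ι → ℤ} (he : e ∈ Pf C δ w0) :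
    Ph k C δ w0 f (bb k e) = f.coeff (ngv C e) := by
  rw [Ph_apply, Finset.sum_eq_single e]
  · unfold bb
    rw [if_pos rfl, AddMonoidAlgebra.coeff_single, Finsupp.single_eq_same, mul_one]
  · intro e' _ h
    unfold bb
    rw [if_pos rfl, AddMonoidAlgebra.coeff_single, Finsupp.single_eq_of_ne h, mul_zero]
  · intro h
    exact absurd he h

theorem finrank_NNc {C : CType ι} {F : MvPolynomial ι k} (hF : C.Hom F) (hU : C.UnitCond F)
    {δ : ℤ} (hδ0 : 0 < δ) (hδ1 : δ < C.dlog) (w0 : ℤ) :
    (Module.finrank k (NNc C F (C.dlog - δ) (-(C.Ys.card : ℤ) - w0)) : ℤ) = jnum C δ w0 := by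
  classical
  rw [← finrank_coker (w := w0) hF hU hδ0 hδ1]
  congr 1
  set V := KW k C ∅ δ (Fintype.card ι) w0 with hV
  haveI hfd : FiniteDimensional k V := (finrank_KW C δ (Fintype.card ι) w0).1
  set I := (topIm F C δ w0).submoduleOf V with hI
  have hdual := Subspace.finrank_add_finrank_dualAnnihilator_eq I
  have hquot := Submodule.finrank_quotient_add_finrank I
  let L : NNc C F (C.dlog - δ) (-(C.Ys.card : ℤ) - w0) →ₗ[k] I.dualAnnihilator :=
    { toFun := fun f => ⟨(Ph k C δ w0 f.1).domRestrict V, by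
        rw [Submodule.mem_dualAnnihilator]
        intro ξ hξ
        exact ((NNc_iff hF).1 f.2).2 _ hξ⟩
      map_add' := fun f g => by
        ext ξ
        simp
      map_smul' := fun c f => by
        ext ξ
        simp }
  have hL : ∀ (f : NNc C F (C.dlog - δ) (-(C.Ys.card : ℤ) - w0)) (ξ : V),
      (L f).1 ξ = Ph k C δ w0 f.1 ξ.1 := fun _ _ => rfl
  have hinj : Function.Injective L := by
    rw [injective_iff_map_eq_zero]
    intro f hf
    ext1
    refine lau_ext fun e => ?_
    by_contra hne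
    have hfW := ((NNc_iff hF).1 f.2).1
    have h1 := Wn_Pf hfW (by simpa using hne)
    have h2 := hL f ⟨bb k (ngv C e), bb_mem h1⟩
    rw [hf, Ph_bb _ h1, ngv_ngv] at h2
    exact hne (by simpa using h2.symm)
  have hsurj : Function.Surjective L := by
    rintro ⟨l, hl⟩
    rw [Submodule.mem_dualAnnihilator] at hl
    let c : (ι → ℤ) → k := fun e => if h : bb k e ∈ V then l ⟨bb k e, h⟩ else 0
    let f : Lau ι k := AddMonoidAlgebra.ofCoeff
      (Finsupp.onFinset ((Pf C δ w0).image (ngv C))
        (fun e => if ngv C e ∈ Pf C δ w0 then c (ngv C e) else 0) (by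
          intro e he
          have h : ngv C e ∈ Pf C δ w0 := by
            by_contra h
            exact he (if_neg h)
          exact Finset.mem_image.2 ⟨ngv C e, h, ngv_ngv C e⟩))
    have hfc : ∀ e, f.coeff e = if ngv C e ∈ Pf C δ w0 then c (ngv C e) else 0 := fun e => by
      simp [f]
    have hfW : f ∈ Wn k C δ w0 := by
      intro e he
      rw [hfc] at he
      have h : ngv C e ∈ Pf C δ w0 := by
        by_contra h
        exact he (if_neg h)
      obtain ⟨h1, h2, h3⟩ := mem_Pf.1 h
      rw [deg_ngv] at h1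
      rw [wt_ngv] at h2
      rw [← thr_ngv, ngv_ngv] at h3
      exact ⟨by linarith, by linarith, h3⟩
    have key : ∀ ξ : V, Ph k C δ w0 f ξ.1 = l ξ := by
      intro ξ
      have h1 : ξ = ∑ e ∈ (Pf C δ w0).attach, (ξ.1 Finset.univ).coeff e.1 •
          (⟨bb k e.1, bb_mem e.2⟩ : V) := by
        apply Subtype.ext
        rw [AddSubmonoidClass.coe_finset_sum]
        simp only [SetLike.val_smul]
        rw [Finset.sum_attach (Pf C δ w0) (fun e => (ξ.1 Finset.univ).coeff e • bb k e)]
        exact expand ξ.2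
      conv_rhs => rw [h1]
      rw [map_sum, Ph_apply, ← Finset.sum_attach]
      refine Finset.sum_congr rfl fun e _ => ?_
      rw [map_smul, smul_eq_mul, hfc, ngv_ngv, if_pos e.2, mul_comm]
      congr 1
      show (if h : bb k e.1 ∈ V then l ⟨bb k e.1, h⟩ else 0) = _
      rw [dif_pos (bb_mem e.2)]
    refine ⟨⟨f, (NNc_iff hF).2 ⟨hfW, fun ξ hξ => ?_⟩⟩, ?_⟩
    · have hξV : ξ ∈ V := by
        obtain ⟨η, hη, rfl⟩ := hξ
        have h1 := Dk_mem_KW hF hη
        rwa [sub_add_cancel, sub_add_cancel] at h1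
      rw [key ⟨ξ, hξV⟩]
      exact hl _ hξ
    · apply Subtype.ext
      apply LinearMap.ext
      intro ξ
      exact key ξ
  have hE := (LinearEquiv.ofBijective L ⟨hinj, hsurj⟩).finrank_eq
  rw [hE]
  omega

theorem finite_NNc {C : CType ι} {F : MvPolynomial ι k} {δ' w : ℤ} :
    FiniteDimensional k (NNc C F δ' w) := by
  classical
  have h1 : C.dlog - (C.dlog - δ') = δ' := by ring
  have h2 : -(C.Ys.card : ℤ) - (-(C.Ys.card : ℤ) - w) = w := by ring
  set δ := C.dlog - δ' with hδ
  set w0 := -(C.Ys.card : ℤ) - w with hw0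
  let L : NNc C F δ' w →ₗ[k] ({e : ι → ℤ // e ∈ Pf C δ w0} → k) :=
    { toFun := fun f e => f.1.coeff (ngv C e.1)
      map_add' := fun f g => by
        funext e
        simp
      map_smul' := fun c f => by
        funext e
        simp }
  refine Module.Finite.of_injective L ?_
  rw [injective_iff_map_eq_zero]
  intro f hf
  ext1
  refine lau_ext fun e => ?_
  by_contra hne
  have hfW : f.1 ∈ Wn k C δ w0 := by
    intro e he
    rw [h1, h2]
    exact f.2.1 e he
  have h3 := Wn_Pf hfW (by simpa using hne)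
  have h4 : f.1.coeff (ngv C (ngv C e)) = 0 := congrFun hf ⟨ngv C e, h3⟩
  rw [ngv_ngv] at h4
  exact hne (by simpa using h4)

end

end HN
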