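import Pool.Agent.HN.CTop
import Pool.Agent.HN.CechLES
import Pool.Agent.HN.NNc

/-! # HN/HodgeC : Hodge numbers = dimensions of Jacobian ring pieces (module HN-C15)

PLAN.  `hodge D δ i = hcoh D (n - s - i) i (-δ)`; `om_top` with `m = n + 1 - s`, `p = n + 1 - s - i`
(`hV` = `lam_vanish`), `lam_top`, `finrank_NNc` (`cay_dlog`, `|Ys| = r`, `cay_hom`).
`jnum_gt`: `nnc_zero` and `finrank_NNc`.  `jnum_lt`: `jnum = finrank` of a quotient of
`KW k C ∅ δ N' w` (`finrank_coker`), which is `0` for `w < s` (`e_z ≥ 1`, `e_y ≥ 0`).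
-/

open MvPolynomial

namespace HN

section
variable {k : Type*} [Field k] [CharZero k] {n r s : ℕ} {d : Fin r → ℕ} {c : Fin s → ℕ}

omit [CharZero k] in
private theorem hc_card (hd : ∀ i, 1 ≤ d i) (hc : ∀ j, 1 ≤ c j) :
    (cayT n d c hd hc).Ys.card = r := by
  have h2 : (cayT n d c hd hc).Ys =
      Finset.univ.image (fun i : Fin r => (Sum.inr (Sum.inl i) : Vr n r s)) := rfl
  rw [h2, Finset.card_image_of_injective, Finset.card_univ, Fintype.card_fin]
  intro x y h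
  simpa using h

omit [CharZero k] in
private theorem hc_fin (D : Datum k n r s d c) (hd : ∀ i, 1 ≤ d i)
    (hc : ∀ j, 1 ≤ c j) (hU : (cayT n d c hd hc).UnitCond (cayF D)) {δ : ℤ} (h0 : 0 < δ)
    (h1 : δ < ∑ i, (d i : ℤ)) (w : ℤ) :
    (Module.finrank k (NNc (cayT n d c hd hc) (cayF D) (-δ + ∑ i, (d i : ℤ)) (-(r : ℤ) - w)) : ℤ) =
      jnum (cayT n d c hd hc) δ w := by
  have hdl := cay_dlog n d c hd hc
  have h2 := finrank_NNc (cay_hom D hd hc) hU h0 (by rw [hdl]; exact h1) w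
  rw [hdl, hc_card] at h2
  rw [← h2, show -δ + ∑ i, (d i : ℤ) = ∑ i, (d i : ℤ) - δ by ring]

theorem hodge_eq (D : Datum k n r s d c) (hs : s ≤ n) (hr : 1 ≤ r) (hd : ∀ i, 1 ≤ d i)
    (hc : ∀ j, 1 ≤ c j) (hU : (cayT n d c hd hc).UnitCond (cayF D)) {δ : ℤ} (h0 : 0 < δ)
    (h1 : δ < ∑ i, (d i : ℤ)) (i : ℕ) (hi : i ≤ n - s) :
    (hodge D δ i : ℤ) = jnum (cayT n d c hd hc) δ ((i : ℤ) + s) := by
  have hV : ∀ a p : ℤ, 1 ≤ p → p + a < (n : ℤ) + 1 - s → LamZ D a (-δ) p ≤ LamB D a (-δ) p :=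
    fun a p hp hap => lam_vanish hd hc hr D hU h0 hp (by linarith)
  have hp : (1 : ℤ) ≤ (n : ℤ) + 1 - s - i := by omega
  have h2 := om_top D (-δ) ((n : ℤ) + 1 - s) hV (a := (i : ℤ)) (p := (n : ℤ) + 1 - s - i) hp
    (by ring)
  have h3 := lam_top hd hc hr D hU h0 (a := (i : ℤ)) (p := (n : ℤ) + 1 - s - i) hp (by ring)
  have h4 : hodge D δ i = lamcoh D i (-δ) ((n : ℤ) + 1 - s - i) := by
    rw [← h2]
    unfold hodge
    congr 1
    ring
  rw [h4, h3]
  exact hc_fin D hd hc hU h0 h1 _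

theorem jnum_gt (D : Datum k n r s d c) (hs : s ≤ n) (hr : 1 ≤ r) (hd : ∀ i, 1 ≤ d i)
    (hc : ∀ j, 1 ≤ c j) (hU : (cayT n d c hd hc).UnitCond (cayF D)) {δ : ℤ} (h0 : 0 < δ)
    (h1 : δ < ∑ i, (d i : ℤ)) (w : ℤ) (hw : (n : ℤ) < w) :
    jnum (cayT n d c hd hc) δ w = 0 := by
  rw [← hc_fin D hd hc hU h0 h1 w, nnc_zero hd hc hr D hU h0 hw]
  simp

theorem jnum_lt (D : Datum k n r s d c) (hs : s ≤ n) (hr : 1 ≤ r) (hd : ∀ i, 1 ≤ d i)
    (hc : ∀ j, 1 ≤ c j) (hU : (cayT n d c hd hc).UnitCond (cayF D)) {δ : ℤ} (h0 : 0 < δ)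
    (h1 : δ < ∑ i, (d i : ℤ)) (w : ℤ) (hw : w < s) :
    jnum (cayT n d c hd hc) δ w = 0 := by
  have hdl := cay_dlog n d c hd hc
  have h2 := finrank_coker (w := w) (cay_hom D hd hc) hU h0 (by rw [hdl]; exact h1)
  rw [← h2]
  have h3 : KW k (cayT n d c hd hc) ∅ δ (Fintype.card (Vr n r s)) w = ⊥ := by
    rw [eq_bot_iff]
    intro ξ hξ
    rw [Submodule.mem_bot]
    funext A
    refine lau_ext fun e => ?_
    by_contra hne
    obtain ⟨c1, -, c3, c4⟩ := hξ A e hne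
    have hA : A = Finset.univ := by
      rw [← Finset.card_eq_iff_eq_univ]
      exact_mod_cast c1
    subst hA
    have h5 : ∀ v, 0 ≤ e v := fun v =>
      (thr_nonneg _ v _).trans (c3 v (Finset.notMem_empty v))
    have h6 : ∀ j : Fin s, 1 ≤ e (Sum.inr (Sum.inr j)) := by
      intro j
      have h7 := c3 (Sum.inr (Sum.inr j)) (Finset.notMem_empty _)
      have h8 : (cayT n d c hd hc).thr (Sum.inr (Sum.inr j)) Finset.univ = 1 := by
        unfold CType.thr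
        rw [if_pos]
        refine ⟨Finset.mem_univ _, ?_⟩
        simp [cayT]
      rwa [h8] at h7
    have h9 : ∑ j : Fin s, e (Sum.inr (Sum.inr j)) ≤ (cayT n d c hd hc).wt e := by
      have h10 : ∑ v ∈ Finset.univ.image (fun j : Fin s => (Sum.inr (Sum.inr j) : Vr n r s)), e v =
          ∑ j : Fin s, e (Sum.inr (Sum.inr j)) :=
        Finset.sum_image (by
          intro x _ y _ h
          simpa using h)
      rw [← h10]
      unfold CType.wt
      refine Finset.sum_le_sum_of_subset_of_nonneg ?_ fun v _ _ => h5 v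
      intro v hv
      obtain ⟨j, -, rfl⟩ := Finset.mem_image.1 hv
      rw [Finset.mem_compl]
      simp [cayT]
    have h11 : (s : ℤ) ≤ ∑ j : Fin s, e (Sum.inr (Sum.inr j)) := by
      calc (s : ℤ) = ∑ _j : Fin s, (1 : ℤ) := by simp
        _ ≤ _ := Finset.sum_le_sum fun j _ => h6 j
    linarith
  have h4 : Subsingleton (KW k (cayT n d c hd hc) ∅ δ (Fintype.card (Vr n r s)) w) := by
    rw [h3]
    infer_instance
  have h5 : Subsingleton (↥(KW k (cayT n d c hd hc) ∅ δ (Fintype.card (Vr n r s)) w) ⧸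
      (topIm (cayF D) (cayT n d c hd hc) δ w).submoduleOf
        (KW k (cayT n d c hd hc) ∅ δ (Fintype.card (Vr n r s)) w)) :=
    (Submodule.mkQ_surjective _).subsingleton
  have h6 := Module.finrank_zero_of_subsingleton (R := k)
    (M := ↥(KW k (cayT n d c hd hc) ∅ δ (Fintype.card (Vr n r s)) w) ⧸
      (topIm (cayF D) (cayT n d c hd hc) δ w).submoduleOf
        (KW k (cayT n d c hd hc) ∅ δ (Fintype.card (Vr n r s)) w))
  rw [h6]
  rfl

end

end HN
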