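import Mathlib

/-! # HN/NewtonM : Newton's identities for matrices over a commutative ring (module HN-15)

`c(T) = det(1 - T M)`; `adj(1 - T M) = ∑ B_i T^i`, `B_i = ∑_{l ≤ i} c_l M^(i-l)` from
`(1 - T M) adj(1 - T M) = c(T)`; `c'(T) = - tr (M adj(1 - T M))` (Jacobi's formula for the
derivative of a determinant).  Compare coefficients.
-/

open Matrix

namespace HN

/-- Jacobi's formula, column form. -/
theorem derivative_det_col {R : Type*} [CommRing R] {𝔅 : Type*} [Fintype 𝔅] [DecidableEq 𝔅]
    (N : Matrix 𝔅 𝔅 (Polynomial R)) :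
    Polynomial.derivative N.det
      = ∑ i, (N.updateCol i (fun k => Polynomial.derivative (N k i))).det := by
  classical
  simp only [Matrix.det_apply]
  rw [Polynomial.derivative_sum, Finset.sum_comm]
  refine Finset.sum_congr rfl fun σ _ => ?_
  rw [Units.smul_def, Polynomial.derivative_smul, Polynomial.derivative_prod_finset]
  rw [Finset.smul_sum]
  refine Finset.sum_congr rfl fun i _ => ?_
  rw [Units.smul_def]
  congr 1
  rw [← Finset.prod_erase_mul _ _ (Finset.mem_univ i)]
  congr 1
  · refine Finset.prod_congr rfl fun j hj => ?_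
    rw [Matrix.updateCol_ne (Finset.ne_of_mem_erase hj)]
  · rw [Matrix.updateCol_self]

theorem derivative_det_trace {R : Type*} [CommRing R] {𝔅 : Type*} [Fintype 𝔅] [DecidableEq 𝔅]
    (N : Matrix 𝔅 𝔅 (Polynomial R)) :
    Polynomial.derivative N.det
      = (N.adjugate * N.map Polynomial.derivative).trace := by
  rw [derivative_det_col, Matrix.trace]
  refine Finset.sum_congr rfl fun i _ => ?_
  rw [← Matrix.cramer_apply, Matrix.cramer_eq_adjugate_mulVec]
  rfl

theorem newton_matrix {R : Type*} [CommRing R] {𝔅 : Type*} [Fintype 𝔅] [DecidableEq 𝔅]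
    (M : Matrix 𝔅 𝔅 R) (κ : ℕ) :
    ((κ : R) + 1) * M.charpolyRev.coeff (κ + 1)
      = - ∑ m ∈ Finset.range (κ + 1), (M ^ (m + 1)).trace * M.charpolyRev.coeff (κ - m) := by
  classical
  set N : Matrix 𝔅 𝔅 (Polynomial R) := 1 - (Polynomial.X : Polynomial R) • M.map Polynomial.C
    with hN
  have hc : M.charpolyRev = N.det := rfl
  let B : ℕ → Matrix 𝔅 𝔅 R := fun k => N.adjugate.map (fun p => p.coeff k)
  -- recursion for `B`
  have hadj : N * N.adjugate = M.charpolyRev • (1 : Matrix 𝔅 𝔅 (Polynomial R)) := by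
    rw [hc, Matrix.mul_adjugate]
  have hent : ∀ i j, N.adjugate i j - Polynomial.X * (M.map Polynomial.C * N.adjugate) i j
      = M.charpolyRev * (1 : Matrix 𝔅 𝔅 (Polynomial R)) i j := by
    intro i j
    have h := congrFun (congrFun hadj i) j
    rw [hN, Matrix.sub_mul, Matrix.one_mul, Matrix.smul_mul, ← hN] at h
    simpa [Matrix.sub_apply, Matrix.smul_apply, smul_eq_mul] using h
  have hone : ∀ i j k, (M.charpolyRev * (1 : Matrix 𝔅 𝔅 (Polynomial R)) i j).coeff k
      = M.charpolyRev.coeff k * (1 : Matrix 𝔅 𝔅 R) i j := by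
    intro i j k
    by_cases hij : i = j
    · subst hij
      simp
    · simp [Matrix.one_apply_ne hij]
  have hcoef : ∀ i j k, (Polynomial.X * (M.map Polynomial.C * N.adjugate) i j).coeff (k + 1)
      = (M * B k) i j := by
    intro i j k
    rw [Polynomial.coeff_X_mul, Matrix.mul_apply, Matrix.mul_apply, Polynomial.finsetSum_coeff]
    refine Finset.sum_congr rfl fun l _ => ?_
    simp [B]
  have hB0 : B 0 = M.charpolyRev.coeff 0 • (1 : Matrix 𝔅 𝔅 R) := by
    ext i j
    have h := congrArg (fun p => Polynomial.coeff p 0) (hent i j)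
    simp only [Polynomial.coeff_sub, hone] at h
    rw [Polynomial.coeff_X_mul_zero, sub_zero] at h
    rw [Matrix.smul_apply, smul_eq_mul, ← h]
    rfl
  have hBs : ∀ k, B (k + 1) = M * B k + M.charpolyRev.coeff (k + 1) • (1 : Matrix 𝔅 𝔅 R) := by
    intro k
    ext i j
    have h := congrArg (fun p => Polynomial.coeff p (k + 1)) (hent i j)
    simp only [Polynomial.coeff_sub, hone, hcoef] at h
    rw [Matrix.add_apply, Matrix.smul_apply, smul_eq_mul, ← h]
    simp [B]
  have hB : ∀ k, B k = ∑ m ∈ Finset.range (k + 1), M.charpolyRev.coeff (k - m) • M ^ m := by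
    intro k
    induction k with
    | zero => simp [hB0]
    | succ k ih =>
      rw [hBs, ih, Finset.sum_range_succ' _ (k + 1), Finset.mul_sum, Nat.sub_zero, pow_zero]
      refine congrArg (fun t => t + _) (Finset.sum_congr rfl fun m _ => ?_)
      rw [Matrix.mul_smul, ← pow_succ', Nat.succ_sub_succ]
  -- Jacobi
  have hJ := derivative_det_trace N
  have hmap : N.map Polynomial.derivative = - M.map Polynomial.C := by
    ext1 i j
    by_cases hij : i = j
    · subst hij
      simp [hN]
    · simp [hN, Matrix.one_apply_ne hij]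
  rw [hmap, Matrix.mul_neg, Matrix.trace_neg, ← hc] at hJ
  have hJc := congrArg (fun p => Polynomial.coeff p κ) hJ
  simp only [Polynomial.coeff_derivative, Polynomial.coeff_neg] at hJc
  have htr : (N.adjugate * M.map Polynomial.C).trace.coeff κ = (B κ * M).trace := by
    rw [Matrix.trace, Matrix.trace, Polynomial.finsetSum_coeff]
    refine Finset.sum_congr rfl fun i _ => ?_
    rw [Matrix.diag_apply, Matrix.diag_apply, Matrix.mul_apply, Matrix.mul_apply,
      Polynomial.finsetSum_coeff]
    refine Finset.sum_congr rfl fun l _ => ?_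
    simp [B]
  rw [htr, hB, Matrix.sum_mul, Matrix.trace_sum] at hJc
  rw [mul_comm, hJc]
  congr 1
  refine Finset.sum_congr rfl fun m _ => ?_
  rw [Matrix.smul_mul, Matrix.trace_smul, ← pow_succ, smul_eq_mul, mul_comm]

end HN
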