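import Pool.Agent.HN.CBin
import Pool.Agent.HN.NewtonM

/-! # HN/NPAbs : from trace identities modulo `p^k` to the coefficients of `P` (module HN-16)

PLAN.  `c^k_κ := (prodM (A k) a).charpolyRev.coeff κ`.  Construct `P κ` by recursion with
`∃ C, ∀ k, p^C (c^k_κ - (U k)^κ P κ) = 0` in `W/p^k`: `newton_matrix`, the trace identities and the
induction hypothesis give `p^C ((κ+1) c^k_{κ+1} - (U k)^(κ+1) Y) = 0` with
`Y := - σ ∑_m S (m+1) P (κ-m)`; write `κ + 1 = p^v * unit`; for `k ≥ C + v` this gives `p^v ∣ Y`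
(`U k` a unit), so `Y = (κ+1) P (κ+1)`, and `p^(C+v) (c^k_{κ+1} - (U k)^(κ+1) P (κ+1)) = 0`.
Divisibility and vanishing: `coeff_prodM_dvd`, `coeff_prodM_zero`, `k → ∞`.
-/

open Matrix

namespace HN

/-- the right hand side of the recursion -/
private noncomputable def npPaux {W : Type*} [CommRing W] (s : ℕ → W) (σ : W) : ℕ → W
  | 0 => 1
  | (κ + 1) => open Classical in
    if h : ∃ y : W, ((κ : W) + 1) * y
      = - σ * ∑ m ∈ Finset.range (κ + 1), s (m + 1) * npPaux s σ (κ - m) then h.choose else 0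
  decreasing_by all_goals omega

private theorem npPaux_zero {W : Type*} [CommRing W] (s : ℕ → W) (σ : W) :
    npPaux s σ 0 = 1 := by
  unfold npPaux
  rfl

private theorem npPaux_succ {W : Type*} [CommRing W] (s : ℕ → W) (σ : W) (κ : ℕ)
    (h : ∃ y : W, ((κ : W) + 1) * y
      = - σ * ∑ m ∈ Finset.range (κ + 1), s (m + 1) * npPaux s σ (κ - m)) :
    ((κ : W) + 1) * npPaux s σ (κ + 1)
      = - σ * ∑ m ∈ Finset.range (κ + 1), s (m + 1) * npPaux s σ (κ - m) := by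
  have h1 : npPaux s σ (κ + 1) = h.choose := by
    rw [npPaux]
    exact dif_pos h
  rw [h1]
  exact h.choose_spec

private theorem np_cancel {W : Type*} [CommRing W] [IsDomain W] {p : ℕ} (hp0 : (p : W) ≠ 0)
    (y : W) (C e : ℕ) (z : W ⧸ Ideal.span {(p : W) ^ (C + e)})
    (h : (p : W ⧸ Ideal.span {(p : W) ^ (C + e)}) ^ C * Ideal.Quotient.mk _ y =
      (p : W ⧸ Ideal.span {(p : W) ^ (C + e)}) ^ C *
        ((p : W ⧸ Ideal.span {(p : W) ^ (C + e)}) ^ e * z)) : (p : W) ^ e ∣ y := by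
  obtain ⟨z', rfl⟩ := Ideal.Quotient.mk_surjective z
  have h1 : Ideal.Quotient.mk (Ideal.span {(p : W) ^ (C + e)})
      ((p : W) ^ C * y - (p : W) ^ (C + e) * z') = 0 := by
    rw [map_sub, map_mul, map_mul, map_pow, map_pow, map_natCast, h, ← mul_assoc, ← pow_add,
      sub_self]
  rw [Ideal.Quotient.eq_zero_iff_mem, Ideal.mem_span_singleton] at h1
  have h2 : (p : W) ^ (C + e) ∣ (p : W) ^ C * y := by
    have h3 := dvd_add h1 (Dvd.intro z' rfl : (p : W) ^ (C + e) ∣ (p : W) ^ (C + e) * z')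
    rwa [sub_add_cancel] at h3
  rw [pow_add] at h2
  exact (mul_dvd_mul_iff_left (pow_ne_zero C hp0)).1 h2

theorem np_abs {W : Type*} [CommRing W] [IsDomain W] {p : ℕ} (hp : p.Prime) (hp0 : (p : W) ≠ 0)
    (hsep : ∀ x : W, (∀ k : ℕ, (p : W) ^ k ∣ x) → x = 0)
    (hunit : ∀ m : ℕ, ¬ p ∣ m → IsUnit (m : W))
    {𝔅 : Type*} [Fintype 𝔅] [DecidableEq 𝔅] (a : ℕ) (S : ℕ → Finset 𝔅) (w : ℕ → 𝔅 → ℕ)
    (σ : ℤ) (hσ : σ ^ 2 = 1) (c : ℕ) (s : ℕ → W)
    (A : ∀ k : ℕ, ℕ → Matrix 𝔅 𝔅 (W ⧸ Ideal.span {(p : W) ^ k}))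
    (U : ∀ k : ℕ, W ⧸ Ideal.span {(p : W) ^ k}) (hU : ∀ k, IsUnit (U k))
    (hrow : ∀ k j, j < a → ∀ b b', b ∉ S j → A k j b b' = 0)
    (hdiv : ∀ k j, j < a → ∀ b b',
      (p : W ⧸ Ideal.span {(p : W) ^ k}) ^ w j b ∣ A k j b b')
    (htr : ∀ k m, 1 ≤ m → (p : W ⧸ Ideal.span {(p : W) ^ k}) ^ (c * m + 2) *
      (((prodM (A k) a) ^ m).trace
        - (σ : W ⧸ Ideal.span {(p : W) ^ k}) * U k ^ m * Ideal.Quotient.mk _ (s m)) = 0) :
    ∃ P : ℕ → W, P 0 = 1 ∧
      (∀ κ : ℕ, ((κ : W) + 1) * P (κ + 1)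
        = - (σ : W) * ∑ m ∈ Finset.range (κ + 1), s (m + 1) * P (κ - m)) ∧
      (∀ (κ : ℕ) (j : ℕ), j < a → (S j).card < κ → P κ = 0) ∧
      (∀ (κ : ℕ) (h : ℕ → ℕ),
        (∀ j, j < a → ∀ I : Finset 𝔅, I ⊆ S j → I.card = κ → h j ≤ ∑ b ∈ I, w j b) →
        (p : W) ^ (∑ j ∈ Finset.range a, h j) ∣ P κ) := by
  classical
  set P : ℕ → W := npPaux s (σ : W) with hP
  set cf : ∀ k : ℕ, ℕ → W ⧸ Ideal.span {(p : W) ^ k} :=
    fun k κ => (prodM (A k) a).charpolyRev.coeff κ with hcf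
  set Y : ℕ → W := fun κ => - (σ : W) * ∑ m ∈ Finset.range (κ + 1), s (m + 1) * P (κ - m) with hY
  let H : ℕ → Prop := fun κ => ∃ C : ℕ, ∀ k : ℕ, (p : W ⧸ Ideal.span {(p : W) ^ k}) ^ C *
    (cf k κ - U k ^ κ * Ideal.Quotient.mk _ (P κ)) = 0
  -- the recursion step
  have hstep : ∀ κ, (∀ i ≤ κ, H i) → ∃ C : ℕ, ∀ k : ℕ, (p : W ⧸ Ideal.span {(p : W) ^ k}) ^ C *
      (((κ : W ⧸ Ideal.span {(p : W) ^ k}) + 1) * cf k (κ + 1)
        - U k ^ (κ + 1) * Ideal.Quotient.mk _ (Y κ)) = 0 := by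
    intro κ ih
    choose Cf hCf using ih
    -- exponent
    let E : ℕ → ℕ := fun m => (c * (m + 1) + 2) + Cf (κ - m) (Nat.sub_le κ m)
    refine ⟨∑ m ∈ Finset.range (κ + 1), E m, fun k => ?_⟩
    have hnm := newton_matrix (prodM (A k) a) κ
    have e1 : ((κ : W ⧸ Ideal.span {(p : W) ^ k}) + 1) * cf k (κ + 1)
        - U k ^ (κ + 1) * Ideal.Quotient.mk _ (Y κ) =
        - ∑ m ∈ Finset.range (κ + 1), (((prodM (A k) a) ^ (m + 1)).trace * cf k (κ - m) -
          (σ : W ⧸ Ideal.span {(p : W) ^ k}) * U k ^ (m + 1) * Ideal.Quotient.mk _ (s (m + 1)) *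
            (U k ^ (κ - m) * Ideal.Quotient.mk _ (P (κ - m)))) := by
      rw [Finset.sum_sub_distrib, neg_sub]
      simp only [hcf, hY]
      rw [hnm, map_mul, map_neg, map_intCast, map_sum]
      have e2 : ∑ m ∈ Finset.range (κ + 1),
          (σ : W ⧸ Ideal.span {(p : W) ^ k}) * U k ^ (m + 1) * Ideal.Quotient.mk _ (s (m + 1)) *
            (U k ^ (κ - m) * Ideal.Quotient.mk _ (P (κ - m))) =
          U k ^ (κ + 1) * ((σ : W ⧸ Ideal.span {(p : W) ^ k}) * ∑ m ∈ Finset.range (κ + 1),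
            Ideal.Quotient.mk _ (s (m + 1) * P (κ - m))) := by
        rw [Finset.mul_sum, Finset.mul_sum]
        refine Finset.sum_congr rfl fun m hm => ?_
        have hm' : m ≤ κ := Nat.lt_succ_iff.1 (Finset.mem_range.1 hm)
        have e3 : U k ^ (κ + 1) = U k ^ (m + 1) * U k ^ (κ - m) := by
          rw [← pow_add]
          congr 1
          omega
        rw [e3, map_mul]
        ring
      rw [e2]
      ring
    rw [e1, mul_neg, neg_eq_zero, Finset.mul_sum]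
    refine Finset.sum_eq_zero fun m hm => ?_
    -- the term `m`
    have hE : E m ≤ ∑ m ∈ Finset.range (κ + 1), E m :=
      Finset.single_le_sum (fun _ _ => Nat.zero_le _) hm
    obtain ⟨r, hr⟩ := Nat.exists_eq_add_of_le hE
    rw [hr, pow_add]
    simp only [E]
    rw [pow_add]
    have h1 := htr k (m + 1) (Nat.succ_pos m)
    have h2 := hCf (κ - m) (Nat.sub_le κ m) k
    have e4 : ∀ x1 x2 x3 t t' u v : W ⧸ Ideal.span {(p : W) ^ k}, x1 * (t - t') = 0 →
        x2 * (u - v) = 0 → x1 * x2 * x3 * (t * u - t' * v) = 0 := by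
      intro x1 x2 x3 t t' u v h1 h2
      have : x1 * x2 * x3 * (t * u - t' * v) =
          (x1 * (t - t')) * (x2 * x3 * u) + (x2 * (u - v)) * (x1 * x3 * t') := by ring
      rw [this, h1, h2, zero_mul, zero_mul, add_zero]
    exact e4 _ _ _ _ _ _ _ h1 h2
  -- factor
  have hfac : ∀ κ : ℕ, ∃ (v : ℕ) (u w' : W), ((κ : W) + 1) = (p : W) ^ v * u ∧ u * w' = 1 := by
    intro κ
    obtain ⟨v, u, hu, he⟩ := Nat.exists_eq_pow_mul_and_not_dvd (n := κ + 1) (Nat.succ_ne_zero κ) p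
      hp.ne_one
    obtain ⟨w', hw'⟩ := (hunit u hu).exists_right_inv
    refine ⟨v, u, w', ?_, hw'⟩
    have := congrArg (Nat.cast (R := W)) he
    push_cast at this
    exact this
  have hex : ∀ κ, (∀ i ≤ κ, H i) → ∃ y : W, ((κ : W) + 1) * y = Y κ := by
    intro κ ih
    obtain ⟨C, hC⟩ := hstep κ ih
    obtain ⟨v, u, w', hu, huw⟩ := hfac κ
    have h1 := hC (C + v)
    obtain ⟨Ui, hUi⟩ := (hU (C + v)).exists_right_inv
    have h2 : (p : W) ^ v ∣ Y κ := by
      refine np_cancel hp0 (Y κ) C v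
        (Ui ^ (κ + 1) * Ideal.Quotient.mk _ u * cf (C + v) (κ + 1)) ?_
      have h3 : ((κ : W ⧸ Ideal.span {(p : W) ^ (C + v)}) + 1) =
          (p : W ⧸ Ideal.span {(p : W) ^ (C + v)}) ^ v * Ideal.Quotient.mk _ u := by
        have := congrArg (Ideal.Quotient.mk (Ideal.span {(p : W) ^ (C + v)})) hu
        rwa [map_add, map_natCast, map_one, map_mul, map_pow, map_natCast] at this
      have h4 : U (C + v) ^ (κ + 1) * Ui ^ (κ + 1) = 1 := by
        rw [← mul_pow, hUi, one_pow]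
      rw [h3] at h1
      have h5 : (p : W ⧸ Ideal.span {(p : W) ^ (C + v)}) ^ C * Ideal.Quotient.mk _ (Y κ) =
          (p : W ⧸ Ideal.span {(p : W) ^ (C + v)}) ^ C * Ideal.Quotient.mk _ (Y κ) *
            (U (C + v) ^ (κ + 1) * Ui ^ (κ + 1)) := by rw [h4, mul_one]
      rw [h5]
      linear_combination (- Ui ^ (κ + 1)) * h1
    obtain ⟨y', hy'⟩ := h2
    refine ⟨w' * y', ?_⟩
    rw [hu, hy']
    linear_combination (p : W) ^ v * y' * huw
  have hall : ∀ κ, H κ := by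
    intro κ
    induction κ using Nat.strong_induction_on with
    | _ κ ih =>
      rcases κ with _ | κ
      · refine ⟨0, fun k => ?_⟩
        have h1 : cf k 0 = 1 := by
          simp only [hcf]
          rw [Polynomial.coeff_zero_eq_eval_zero, eval_charpolyRev]
        rw [h1, hP, npPaux_zero, map_one]
        simp
      · have ih' : ∀ i ≤ κ, H i := fun i hi => ih i (Nat.lt_succ_of_le hi)
        obtain ⟨C, hC⟩ := hstep κ ih'
        have h1 := npPaux_succ s (σ : W) κ (hex κ ih')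
        obtain ⟨v, u, w', hu, huw⟩ := hfac κ
        refine ⟨C + v, fun k => ?_⟩
        have h2 := hC k
        have h3 : Y κ = ((κ : W) + 1) * P (κ + 1) := h1.symm
        rw [h3, map_mul, map_add, map_natCast, map_one] at h2
        have h4 : ((κ : W ⧸ Ideal.span {(p : W) ^ k}) + 1) =
            (p : W ⧸ Ideal.span {(p : W) ^ k}) ^ v * Ideal.Quotient.mk _ u := by
          have := congrArg (Ideal.Quotient.mk (Ideal.span {(p : W) ^ k})) hu
          rwa [map_add, map_natCast, map_one, map_mul, map_pow, map_natCast] at this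
        have h5 : (Ideal.Quotient.mk (Ideal.span {(p : W) ^ k}) u) *
            (Ideal.Quotient.mk _ w') = 1 := by
          rw [← map_mul, huw, map_one]
        rw [h4] at h2
        rw [pow_add]
        linear_combination (Ideal.Quotient.mk _ w') * h2 -
          (p : W ⧸ Ideal.span {(p : W) ^ k}) ^ C * (p : W ⧸ Ideal.span {(p : W) ^ k}) ^ v *
          (cf k (κ + 1) - U k ^ (κ + 1) * Ideal.Quotient.mk _ (P (κ + 1))) * h5
  refine ⟨P, npPaux_zero s _, fun κ => npPaux_succ s (σ : W) κ (hex κ fun i _ => hall i), ?_, ?_⟩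
  · intro κ j hj hS
    obtain ⟨C, hC⟩ := hall κ
    have h1 : (p : W) ^ C * P κ = 0 := by
      refine hsep _ fun k => ?_
      rw [← Ideal.mem_span_singleton, ← Ideal.Quotient.eq_zero_iff_mem]
      have h2 := hC k
      have h3 : cf k κ = 0 := coeff_prodM_zero a (A k) S (hrow k) κ hj hS
      obtain ⟨Ui, hUi⟩ := (hU k).exists_right_inv
      have h4 : U k ^ κ * Ui ^ κ = 1 := by rw [← mul_pow, hUi, one_pow]
      rw [h3] at h2
      rw [map_mul, map_pow, map_natCast]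
      linear_combination (- Ui ^ κ) * h2 - (p : W ⧸ Ideal.span {(p : W) ^ k}) ^ C *
        Ideal.Quotient.mk _ (P κ) * h4
    exact (mul_eq_zero.1 h1).resolve_left (pow_ne_zero C hp0)
  · intro κ h hmin
    obtain ⟨C, hC⟩ := hall κ
    set e : ℕ := ∑ j ∈ Finset.range a, h j with he
    have h2 := hC (C + e)
    obtain ⟨z, hz⟩ := coeff_prodM_dvd (p : W ⧸ Ideal.span {(p : W) ^ (C + e)}) a (A (C + e)) S w
      (hrow (C + e)) (hdiv (C + e)) κ h hmin
    obtain ⟨Ui, hUi⟩ := (hU (C + e)).exists_right_inv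
    have h4 : U (C + e) ^ κ * Ui ^ κ = 1 := by rw [← mul_pow, hUi, one_pow]
    refine np_cancel hp0 (P κ) C e (Ui ^ κ * z) ?_
    have h5 : cf (C + e) κ = (p : W ⧸ Ideal.span {(p : W) ^ (C + e)}) ^ e * z := hz
    rw [h5] at h2
    linear_combination (- Ui ^ κ) * h2 - (p : W ⧸ Ideal.span {(p : W) ^ (C + e)}) ^ C *
        Ideal.Quotient.mk _ (P κ) * h4

end HN
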