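import Pool.Agent.HN.Stmt
import Pool.Agent.HN.Defs

/-! # HN/Orbit : Frobenius orbits of the exponents and their digits (module HN-20)

PLAN (`exists_orbit`).  `q = p^a`.  `b j v := (p^((a-1)*j) * b₀ v) % (q-1)` on `Ys`, `0` elsewhere;
`p * b (j+1) ≡ b j mod (q-1)` since `p * p^((a-1)(j+1)) = p^a * p^((a-1) j)`; `1 ≤ b j v ≤ q - 2`
because `q - 1 ∤ b₀ v` and `p` is prime to `q - 1`; `τ j v := (p b_{j+1} - b_j)/(q-1) ∈ {0..p-1}`;
`δ j := -(∑ wd_v b j v)/(q-1)`: divisibility for `j = 0` is a hypothesis, in general multiply by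
`p^((a-1)j)`.
-/

namespace HN

/-- a periodic orbit of exponents `b j / (q - 1)`, `q = p ^ a`, with its digits `τ j`:
`p (b (j+1)) = b j + (q-1) τ j` -/
structure Orbit (p a : ℕ) {ι : Type*} [Fintype ι] [DecidableEq ι] (C : CType ι) where
  b : ℕ → ι → ℕ
  τ : ℕ → ι → ℕ
  δ : ℕ → ℤ
  step : ∀ j v, p * b (j + 1) v = b j v + (p ^ a - 1) * τ j v
  dig : ∀ j v, τ j v ≤ p - 1
  out : ∀ j v, v ∉ C.Ys → b j v = 0 ∧ τ j v = 0
  pos : ∀ j v, v ∈ C.Ys → 1 ≤ b j v ∧ b j v ≤ p ^ a - 2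
  per : ∀ j, b (j + a) = b j
  perτ : ∀ j, τ (j + a) = τ j
  deg : ∀ j, ((p : ℤ) ^ a - 1) * δ j = - ∑ v, C.wd v * (b j v : ℤ)

namespace Orbit
variable {p a : ℕ} {ι : Type*} [Fintype ι] [DecidableEq ι] {C : CType ι}

private theorem orbit_q_pos (O : Orbit p a C) (hY : C.Ys.Nonempty) : (0 : ℤ) < (p : ℤ) ^ a - 1 := by
  obtain ⟨v, hv⟩ := hY
  have h := O.pos 0 v hv
  have h1 : 3 ≤ p ^ a := by omega
  have h2 : (3 : ℤ) ≤ (p : ℤ) ^ a := by exact_mod_cast h1
  omega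

private theorem orbit_q_cast (O : Orbit p a C) (hY : C.Ys.Nonempty) :
    ((p ^ a - 1 : ℕ) : ℤ) = (p : ℤ) ^ a - 1 := by
  obtain ⟨v, hv⟩ := hY
  have h := O.pos 0 v hv
  have h1 : 1 ≤ p ^ a := by omega
  rw [Nat.cast_sub h1]
  push_cast
  rfl

private theorem orbit_sum (O : Orbit p a C) (j : ℕ) :
    - ∑ v, C.wd v * (O.b j v : ℤ) = ∑ v ∈ C.Ys, - C.wd v * (O.b j v : ℤ) := by
  rw [← Finset.sum_neg_distrib]
  symm
  rw [← Finset.sum_subset (Finset.subset_univ C.Ys)]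
  · exact Finset.sum_congr rfl fun v _ => by ring
  · intro v _ hv
    rw [(O.out j v hv).1]
    simp

theorem delta_pos (O : Orbit p a C) (hY : C.Ys.Nonempty) (j : ℕ) : 0 < O.δ j := by
  have hq := O.orbit_q_pos hY
  have h := O.deg j
  rw [O.orbit_sum j] at h
  have h1 : 0 < ∑ v ∈ C.Ys, - C.wd v * (O.b j v : ℤ) := by
    refine Finset.sum_pos (fun v hv => ?_) hY
    have h2 := C.hneg v (C.hXY v hv)
    have h3 := (O.pos j v hv).1
    have h4 : (1 : ℤ) ≤ (O.b j v : ℤ) := by exact_mod_cast h3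
    exact mul_pos (by omega) (by omega)
  rw [← h] at h1
  exact (mul_pos_iff_of_pos_left hq).1 h1

theorem delta_lt (O : Orbit p a C) (hY : C.Ys.Nonempty) (j : ℕ) : O.δ j < C.dlog := by
  have hq := O.orbit_q_pos hY
  have hc := O.orbit_q_cast hY
  have h := O.deg j
  rw [O.orbit_sum j] at h
  have h1 : ∑ v ∈ C.Ys, - C.wd v * (O.b j v : ℤ) < ∑ v ∈ C.Ys, - C.wd v * ((p : ℤ) ^ a - 1) := by
    refine Finset.sum_lt_sum_of_nonempty hY (fun v hv => ?_)
    have h2 := C.hneg v (C.hXY v hv)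
    have h3 := (O.pos j v hv)
    have h4 : (O.b j v : ℤ) < (p : ℤ) ^ a - 1 := by
      rw [← hc]
      have : O.b j v < p ^ a - 1 := by omega
      exact_mod_cast this
    exact mul_lt_mul_of_pos_left h4 (by omega)
  rw [← h, ← Finset.sum_mul, mul_comm (∑ v ∈ C.Ys, - C.wd v)] at h1
  exact lt_of_mul_lt_mul_left h1 hq.le

theorem delta_per (O : Orbit p a C) (hY : C.Ys.Nonempty) (j : ℕ) : O.δ (j + a) = O.δ j := by
  have hq := O.orbit_q_pos hY
  have h := O.deg j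
  have h' := O.deg (j + a)
  rw [O.per j, ← h] at h'
  exact mul_left_cancel₀ hq.ne' h'

/-- degrees: `p δ_{j+1} = δ_j - deg τ_j` -/
theorem delta_step (O : Orbit p a C) (hY : C.Ys.Nonempty) (j : ℕ) :
    (p : ℤ) * O.δ (j + 1) = O.δ j - C.deg (fun v => (O.τ j v : ℤ)) := by
  have hq := O.orbit_q_pos hY
  have hc := O.orbit_q_cast hY
  have h := O.deg j
  have h' := O.deg (j + 1)
  have hs : ∀ v, (p : ℤ) * (O.b (j + 1) v : ℤ) =
      (O.b j v : ℤ) + ((p : ℤ) ^ a - 1) * (O.τ j v : ℤ) := by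
    intro v
    have := O.step j v
    rw [← hc]
    exact_mod_cast this
  have e : ((p : ℤ) ^ a - 1) * ((p : ℤ) * O.δ (j + 1)) =
      ((p : ℤ) ^ a - 1) * (O.δ j - C.deg (fun v => (O.τ j v : ℤ))) := by
    have e1 : ((p : ℤ) ^ a - 1) * ((p : ℤ) * O.δ (j + 1)) =
        (p : ℤ) * (((p : ℤ) ^ a - 1) * O.δ (j + 1)) := by ring
    rw [e1, h', mul_sub, h, CType.deg, Finset.mul_sum, mul_neg, Finset.mul_sum, ← neg_add',
      ← Finset.sum_add_distrib]
    congr 1
    refine Finset.sum_congr rfl fun v _ => ?_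
    have := hs v
    linear_combination (C.wd v) * this
  exact mul_left_cancel₀ hq.ne' e

/-- total digit sum: `∑_j τ_j(v) (q - 1) = (p - 1) ∑_j b_j(v)` -/
theorem tau_sum (O : Orbit p a C) (v : ι) :
    (p ^ a - 1) * ∑ j ∈ Finset.range a, O.τ j v = (p - 1) * ∑ j ∈ Finset.range a, O.b j v := by
  have h1 : ∑ j ∈ Finset.range a, p * O.b (j + 1) v =
      ∑ j ∈ Finset.range a, (O.b j v + (p ^ a - 1) * O.τ j v) :=
    Finset.sum_congr rfl fun j _ => O.step j v
  rw [← Finset.mul_sum, Finset.sum_add_distrib, ← Finset.mul_sum] at h1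
  have h2 : ∑ j ∈ Finset.range a, O.b (j + 1) v = ∑ j ∈ Finset.range a, O.b j v := by
    have e1 := Finset.sum_range_succ (fun j => O.b j v) a
    have e2 := Finset.sum_range_succ' (fun j => O.b j v) a
    have e3 : O.b a v = O.b 0 v := by
      have := congrFun (O.per 0) v
      simpa using this
    simp only [e3] at e1
    omega
  rw [h2] at h1
  rw [Nat.sub_mul p 1, one_mul, h1]
  omega

end Orbit

private theorem orbit_pow_modEq (p a x k : ℕ) (hp : 1 ≤ p) :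
    p ^ (x + a * k) ≡ p ^ x [MOD (p ^ a - 1)] := by
  have h1 : p ^ a ≡ 1 [MOD (p ^ a - 1)] := by
    have h2 : 1 ≤ p ^ a := Nat.one_le_pow _ _ hp
    exact ((Nat.modEq_iff_dvd' h2).2 dvd_rfl).symm
  have h3 : p ^ (a * k) ≡ 1 [MOD (p ^ a - 1)] := by
    rw [pow_mul]
    simpa using h1.pow k
  rw [pow_add]
  simpa using h3.mul_left (p ^ x)

/-- existence; `b₀ v` arbitrary outside `Ys` -/
theorem exists_orbit {p a : ℕ} (hp : p.Prime) (ha : 1 ≤ a) {ι : Type*} [Fintype ι]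
    [DecidableEq ι] (C : CType ι) (b₀ : ι → ℕ)
    (hb : ∀ v ∈ C.Ys, 1 ≤ b₀ v ∧ b₀ v ≤ p ^ a - 2)
    (hd : ((p : ℤ) ^ a - 1) ∣ ∑ v ∈ C.Ys, C.wd v * (b₀ v : ℤ)) :
    ∃ O : Orbit p a C, (∀ v ∈ C.Ys, O.b 0 v = b₀ v) ∧
      ∀ j, j ≤ a → ∀ v ∈ C.Ys, O.b j v = conj p (p ^ a) (a - j) (b₀ v) := by
  classical
  have hp1 : 1 ≤ p := hp.one_lt.le
  have hq1 : 1 ≤ p ^ a := Nat.one_le_pow _ _ hp1
  have hqc : ((p ^ a - 1 : ℕ) : ℤ) = (p : ℤ) ^ a - 1 := by
    rw [Nat.cast_sub hq1]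
    push_cast
    rfl
  have hcop : Nat.Coprime p (p ^ a - 1) := by
    have h1 : Nat.Coprime (p ^ a) (p ^ a - 1) := by
      rw [Nat.coprime_self_sub_right hq1]
      exact Nat.coprime_one_right _
    exact Nat.Coprime.coprime_dvd_left (dvd_pow_self p (by omega)) h1
  -- the exponents
  obtain ⟨b, hbdef⟩ : ∃ b : ℕ → ι → ℕ, ∀ j v, b j v =
      if v ∈ C.Ys then (p ^ ((a - 1) * j) * b₀ v) % (p ^ a - 1) else 0 := ⟨_, fun _ _ => rfl⟩
  have hbY : ∀ j v, v ∈ C.Ys → b j v = (p ^ ((a - 1) * j) * b₀ v) % (p ^ a - 1) := by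
    intro j v hv
    rw [hbdef, if_pos hv]
  have hbN : ∀ j v, v ∉ C.Ys → b j v = 0 := by
    intro j v hv
    rw [hbdef, if_neg hv]
  have hmod : ∀ j v, v ∈ C.Ys → b j v ≡ p ^ ((a - 1) * j) * b₀ v [MOD (p ^ a - 1)] := by
    intro j v hv
    rw [hbY j v hv]
    exact Nat.mod_modEq _ _
  have hlt : ∀ j v, v ∈ C.Ys → b j v < p ^ a - 1 := by
    intro j v hv
    rw [hbY j v hv]
    refine Nat.mod_lt _ ?_
    have := hb v hv
    omega
  have hstepm : ∀ j v, v ∈ C.Ys → p * b (j + 1) v ≡ b j v [MOD (p ^ a - 1)] := by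
    intro j v hv
    have h1 := (hmod (j + 1) v hv).mul_left p
    have h2 : p * (p ^ ((a - 1) * (j + 1)) * b₀ v) = p ^ ((a - 1) * j + a * 1) * b₀ v := by
      have h3 : (a - 1) * j + a * 1 = (a - 1) * (j + 1) + 1 := by
        have : a = (a - 1) + 1 := by omega
        rw [mul_add, mul_one, mul_one]
        omega
      rw [h3, pow_succ]
      ring
    rw [h2] at h1
    exact (h1.trans ((orbit_pow_modEq p a ((a - 1) * j) 1 hp1).mul_right _)).trans
      (hmod j v hv).symm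
  have hpos : ∀ j v, v ∈ C.Ys → 1 ≤ b j v := by
    intro j v hv
    by_contra hc
    have h0 : b j v = 0 := by omega
    have h1 := hmod j v hv
    rw [h0] at h1
    have h2 : (p ^ a - 1) ∣ p ^ ((a - 1) * j) * b₀ v := (Nat.modEq_zero_iff_dvd).1 h1.symm
    have h3 : Nat.Coprime (p ^ a - 1) (p ^ ((a - 1) * j)) := (hcop.symm).pow_right _
    have h4 := h3.dvd_of_dvd_mul_left h2
    have h5 := hb v hv
    have h6 := Nat.le_of_dvd (by omega) h4
    omega
  have hstep : ∀ j v, p * b (j + 1) v = b j v + (p ^ a - 1) * (p * b (j + 1) v / (p ^ a - 1)) := by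
    intro j v
    by_cases hv : v ∈ C.Ys
    · have h1 : p * b (j + 1) v % (p ^ a - 1) = b j v := by
        have := hstepm j v hv
        rw [Nat.ModEq, Nat.mod_eq_of_lt (hlt j v hv)] at this
        exact this
      have h2 := Nat.mod_add_div (p * b (j + 1) v) (p ^ a - 1)
      rw [h1] at h2
      exact h2.symm
    · rw [hbN _ _ hv, hbN _ _ hv]
      simp
  have hper : ∀ j, b (j + a) = b j := by
    intro j
    funext v
    by_cases hv : v ∈ C.Ys
    · rw [hbY _ _ hv, hbY _ _ hv]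
      have h1 : (a - 1) * (j + a) = (a - 1) * j + a * (a - 1) := by ring
      rw [h1]
      exact (orbit_pow_modEq p a ((a - 1) * j) (a - 1) hp1).mul_right _
    · rw [hbN _ _ hv, hbN _ _ hv]
  have hdvd : ∀ j, ((p : ℤ) ^ a - 1) ∣ - ∑ v, C.wd v * (b j v : ℤ) := by
    intro j
    rw [dvd_neg]
    have h1 : ∑ v, C.wd v * (b j v : ℤ) = ∑ v ∈ C.Ys, C.wd v * (b j v : ℤ) := by
      symm
      refine Finset.sum_subset (Finset.subset_univ C.Ys) fun v _ hv => ?_
      rw [hbN _ _ hv]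
      simp
    rw [h1]
    have h2 : ((p : ℤ) ^ a - 1) ∣ (p : ℤ) ^ ((a - 1) * j) * ∑ v ∈ C.Ys, C.wd v * (b₀ v : ℤ) :=
      hd.mul_left _
    have h3 : ((p : ℤ) ^ a - 1) ∣ ∑ v ∈ C.Ys, C.wd v * (b j v : ℤ) -
        (p : ℤ) ^ ((a - 1) * j) * ∑ v ∈ C.Ys, C.wd v * (b₀ v : ℤ) := by
      rw [Finset.mul_sum, ← Finset.sum_sub_distrib]
      refine Finset.dvd_sum fun v hv => ?_
      have h4 := (Nat.modEq_iff_dvd.1 (hmod j v hv).symm)
      rw [hqc] at h4
      push_cast at h4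
      have h5 : C.wd v * (b j v : ℤ) - (p : ℤ) ^ ((a - 1) * j) * (C.wd v * (b₀ v : ℤ)) =
          C.wd v * ((b j v : ℤ) - (p : ℤ) ^ ((a - 1) * j) * (b₀ v : ℤ)) := by ring
      rw [h5]
      exact h4.mul_left _
    exact (dvd_sub_left h2).1 h3
  choose δ hδ using hdvd
  refine ⟨{ b := b
            τ := fun j v => p * b (j + 1) v / (p ^ a - 1)
            δ := δ
            step := hstep
            dig := ?_
            out := ?_
            pos := ?_
            per := hper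
            perτ := ?_
            deg := fun j => (hδ j).symm }, ?_, ?_⟩
  · intro j v
    by_cases hv : v ∈ C.Ys
    · have h1 := hlt (j + 1) v hv
      have h2 : p * b (j + 1) v / (p ^ a - 1) < p := by
        refine Nat.div_lt_of_lt_mul ?_
        rw [mul_comm]
        exact Nat.mul_lt_mul_of_pos_right h1 hp.pos
      show p * b (j + 1) v / (p ^ a - 1) ≤ p - 1
      omega
    · show p * b (j + 1) v / (p ^ a - 1) ≤ p - 1
      rw [hbN _ _ hv]
      simp
  · intro j v hv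
    refine ⟨hbN j v hv, ?_⟩
    show p * b (j + 1) v / (p ^ a - 1) = 0
    rw [hbN _ _ hv]
    simp
  · intro j v hv
    have h1 := hlt j v hv
    exact ⟨hpos j v hv, by omega⟩
  · intro j
    funext v
    show p * b (j + a + 1) v / (p ^ a - 1) = p * b (j + 1) v / (p ^ a - 1)
    have h1 : j + a + 1 = (j + 1) + a := by ring
    rw [h1, hper]
  · intro v hv
    show b 0 v = b₀ v
    rw [hbY 0 v hv]
    have h1 := hb v hv
    simp only [Nat.mul_zero, pow_zero, one_mul]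
    exact Nat.mod_eq_of_lt (by omega)
  · intro j hj v hv
    show b j v = (p ^ (a - j) * b₀ v) % (p ^ a - 1)
    rw [hbY j v hv]
    rcases Nat.eq_zero_or_pos j with h0 | h0
    · subst h0
      have h1 := (orbit_pow_modEq p a 0 1 hp1).mul_right (b₀ v)
      simp only [Nat.mul_zero, Nat.sub_zero]
      have h2 : p ^ (0 + a * 1) = p ^ a := by simp
      rw [h2] at h1
      exact h1.symm
    · have h1 := (orbit_pow_modEq p a (a - j) (j - 1) hp1).mul_right (b₀ v)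
      have h2 : a - j + a * (j - 1) = (a - 1) * j := by
        obtain ⟨i, rfl⟩ : ∃ i, j = i + 1 := ⟨j - 1, by omega⟩
        obtain ⟨c, rfl⟩ : ∃ c, a = i + 1 + c := ⟨a - (i + 1), by omega⟩
        have e1 : i + 1 + c - (i + 1) = c := by omega
        have e2 : i + 1 - 1 = i := by omega
        have e3 : i + 1 + c - 1 = i + c := by omega
        rw [e1, e2, e3]
        ring
      rw [h2] at h1
      exact h1

end HN
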