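import Pool.Agent.HN.Stmt
import Pool.Agent.HN.DAsm
import Pool.Agent.HN.NPAbs
import Pool.Agent.HN.HodgeC
import Pool.Agent.HN.Conv
import Pool.Agent.HN.Orbit

open MvPolynomial

namespace HN

private theorem fin_delta {p a n r s : ℕ} (hq1 : 1 ≤ p ^ a - 1) (d : Fin r → ℕ) (c : Fin s → ℕ)
    (hd : ∀ i, 1 ≤ d i) (hc : ∀ j, 1 ≤ c j) (O : Orbit p a (cayT n d c hd hc)) (j : ℕ)
    (b' : Fin r → ℕ) (hb' : ∀ i, O.b j (Sum.inr (Sum.inl i)) = b' i) :
    O.δ j = (degE (p ^ a) d b' : ℤ) := by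
  have h1 := O.deg j
  have h2 : ∑ v, (cayT n d c hd hc).wd v * (O.b j v : ℤ) = - ∑ i, (d i : ℤ) * (b' i : ℤ) := by
    rw [Fintype.sum_sum_type, Fintype.sum_sum_type]
    have e1 : ∑ v : Fin (n + 1), (cayT n d c hd hc).wd (Sum.inl v) * (O.b j (Sum.inl v) : ℤ) = 0 := by
      refine Finset.sum_eq_zero fun v _ => ?_
      rw [(O.out j (Sum.inl v) (by simp [cayT])).1]
      simp
    have e2 : ∑ v : Fin s, (cayT n d c hd hc).wd (Sum.inr (Sum.inr v)) *
        (O.b j (Sum.inr (Sum.inr v)) : ℤ) = 0 := by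
      refine Finset.sum_eq_zero fun v _ => ?_
      rw [(O.out j (Sum.inr (Sum.inr v)) (by simp [cayT])).1]
      simp
    rw [e1, e2, zero_add, add_zero, ← Finset.sum_neg_distrib]
    refine Finset.sum_congr rfl fun i _ => ?_
    rw [hb']
    show (-(d i : ℤ)) * (b' i : ℤ) = _
    ring
  rw [h2, neg_neg] at h1
  have h3 : (((∑ i, b' i * d i : ℕ) : ℤ)) = ((p ^ a - 1 : ℕ) : ℤ) * O.δ j := by
    have h4 : ((p ^ a - 1 : ℕ) : ℤ) = (p : ℤ) ^ a - 1 := by
      rw [Nat.cast_sub (by omega)]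
      push_cast
      ring
    rw [h4, h1]
    push_cast
    exact Finset.sum_congr rfl fun i _ => mul_comm _ _
  unfold degE
  rw [Int.natCast_div, h3, Int.mul_ediv_cancel_left]
  have : (1 : ℤ) ≤ ((p ^ a - 1 : ℕ) : ℤ) := by exact_mod_cast hq1
  omega

/-- Hodge-type lower bound for the Newton polygon of the `L`-function of a multiplicative character
sum on a smooth complete intersection (MP_04e011_nt, Q1 with the sign of the exponents corrected:
`χ_i = ω^{(q-1)e_i}`). -/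
theorem final (p : ℕ) [Fact p.Prime] (F : Type) [Field F] [Fintype F] [CharP F p] (a : ℕ)
    (hq : Fintype.card F = p ^ a) (n r s : ℕ) (hs : s ≤ n) (hr : 1 ≤ r)
    (d : Fin r → ℕ) (c : Fin s → ℕ) (hd : ∀ i, 1 ≤ d i) (hc : ∀ j, 1 ≤ c j)
    (D : Datum F n r s d c) (hN : CondN (AlgebraicClosure F) D)
    (D₀ : Datum ℂ n r s d c) (hN₀ : CondN ℂ D₀)
    (b : Fin r → ℕ) (hb : ∀ i, 1 ≤ b i ∧ b i ≤ p ^ a - 2) (hsum : (p ^ a - 1) ∣ ∑ i, b i * d i)
    (E : ℕ → Type) [∀ m, Field (E m)] [∀ m, Algebra F (E m)] [∀ m, Finite (E m)]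
    (hE : ∀ m, 1 ≤ m → Module.finrank F (E m) = m) :
    ∃ P : ℕ → WittVector p F,
      P 0 = 1 ∧
      (∀ κ : ℕ, ((κ : WittVector p F) + 1) * P (κ + 1) =
        (-1) ^ (n - s + 1) * ∑ m ∈ Finset.range (κ + 1), charSum p D b (E (m + 1)) * P (κ - m)) ∧
      (∀ κ : ℕ, ∑ i ∈ Finset.range (n - s + 1),
        hodge D₀ (degE (p ^ a) d b : ℤ) i < κ → P κ = 0) ∧
      (∀ v ∈ convexHull ℝ {v : ℝ × ℝ | ∃ κ : ℕ, P κ ≠ 0 ∧ v = ((κ : ℝ), ordq p a (P κ))},
        avgPoly p a D₀ b v.1 ≤ v.2) := by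
  have hpr : p.Prime := Fact.out
  have : ExpChar F p := ExpChar.prime hpr
  have : PerfectRing F p := PerfectRing.ofFiniteOfIsReduced p F
  have i0 : Fin r := ⟨0, hr⟩
  have hq3 : 3 ≤ p ^ a := by
    have := hb i0
    omega
  have ha : 1 ≤ a := by
    rcases Nat.eq_zero_or_pos a with h | h
    · subst h
      simp at hq3
    · exact h
  set C := cayT n d c hd hc with hC
  have hYs : ∀ v, v ∈ C.Ys ↔ ∃ i, Sum.inr (Sum.inl i) = v := by
    intro v
    simp [hC, cayT]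
  have hYne : C.Ys.Nonempty := ⟨_, (hYs _).2 ⟨i0, rfl⟩⟩
  set b₀ : Vr n r s → ℕ := Sum.elim (fun _ => 0) (Sum.elim b (fun _ => 0)) with hb₀
  obtain ⟨O, hO0, hOj⟩ := exists_orbit hpr ha C b₀ (by
    intro v hv
    obtain ⟨i, rfl⟩ := (hYs v).1 hv
    exact hb i) (by
    have h1 : ∑ v ∈ C.Ys, C.wd v * (b₀ v : ℤ) = ∑ i : Fin r, (-(d i : ℤ)) * (b i : ℤ) := by
      have h2 : C.Ys = Finset.univ.image (fun i : Fin r => (Sum.inr (Sum.inl i) : Vr n r s)) := rfl
      rw [h2, Finset.sum_image (by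
        intro x _ y _ h
        simpa using h)]
      rfl
    rw [h1]
    have h3 : ((p ^ a - 1 : ℕ) : ℤ) ∣ ((∑ i, b i * d i : ℕ) : ℤ) := Int.natCast_dvd_natCast.2 hsum
    have h4 : ((p ^ a - 1 : ℕ) : ℤ) = (p : ℤ) ^ a - 1 := by
      rw [Nat.cast_sub (by omega)]
      push_cast
      ring
    rw [h4] at h3
    have h5 : ∑ i : Fin r, (-(d i : ℤ)) * (b i : ℤ) = -((∑ i, b i * d i : ℕ) : ℤ) := by
      push_cast
      rw [← Finset.sum_neg_distrib]
      exact Finset.sum_congr rfl fun i _ => by ring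
    rw [h5]
    exact (dvd_neg).2 h3)
  have hUC : C.UnitCond (cayF D₀) := cay_unitCond D₀ hd hc ℂ hN₀
  have hdl : ∀ j, O.δ j < ∑ i, (d i : ℤ) := by
    intro j
    have h1 : C.dlog = ∑ i, (d i : ℤ) := cay_dlog n d c hd hc
    rw [← h1]
    exact O.delta_lt hYne j
  have hdp : ∀ j, 0 < O.δ j := fun j => O.delta_pos hYne j
  have hδ : ∀ j, j ≤ a → O.δ j = (degE (p ^ a) d (fun i => conj p (p ^ a) (a - j) (b i)) : ℤ) := by
    intro j hj
    refine fin_delta (by omega) d c hd hc O j _ fun i => ?_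
    have := hOj j hj (Sum.inr (Sum.inl i)) ((hYs _).2 ⟨i, rfl⟩)
    rw [this]
    rfl
  have hlow : ∀ (j : ℕ) (w : ℤ), w < s → jnum C (O.δ j) w = 0 := fun j w hw =>
    jnum_lt D₀ hs hr hd hc hUC (hdp j) (hdl j) w hw
  have hhigh : ∀ (j : ℕ) (w : ℤ), (n : ℤ) < w → jnum C (O.δ j) w = 0 := fun j w hw =>
    jnum_gt D₀ hs hr hd hc hUC (hdp j) (hdl j) w hw
  have hOb : ∀ i, O.b 0 (Sum.inr (Sum.inl i)) = b i := fun i =>
    hO0 _ ((hYs _).2 ⟨i, rfl⟩)
  obtain ⟨BB, Bs, hsub, hwts, hcard, cst, A, U, hU, hrow, hdiv, htr⟩ :=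
    d_assembly p F a hq n r s hs hr d c hd hc D hN b hb hsum E hE O hOb hlow
  -- the index sets
  set S : ℕ → Finset BB := fun j => Finset.univ.filter (fun x : BB => x.1 ∈ Bs (j + 1)) with hS
  set w : ℕ → BB → ℕ := fun _ x => (C.wt x.1 - s).toNat with hw
  obtain ⟨P, hP0, hPrec, hPzero, hPdvd⟩ := np_abs hpr (witt_p_ne p)
    (fun x h => witt_sep p x h) (fun m h => witt_unit p m h) a S w ((-1) ^ (n - s))
    (by rw [← pow_mul, mul_comm, pow_mul]; simp) cst (fun m => charSum p D b (E m)) A U hU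
    (fun k j hj x y hx => hrow k j hj x y (by
      intro h
      exact hx (by rw [hS]; exact Finset.mem_filter.2 ⟨Finset.mem_univ _, h⟩)))
    (fun k j hj x y => hdiv k j hj x y)
    (fun k m hm => htr k m hm)
  -- Hodge numbers
  set H : ℕ → ℕ → ℕ := fun j' i =>
    hodge D₀ (degE (p ^ a) d (fun i => conj p (p ^ a) j' (b i)) : ℤ) i with hH
  have hHj : ∀ j, j < a → ∀ i, i ≤ n - s →
      (H (a - (j + 1)) i : ℤ) = jnum C (O.δ (j + 1)) ((i : ℤ) + s) := by
    intro j hj i hi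
    rw [hδ (j + 1) hj]
    refine hodge_eq D₀ hs hr hd hc hUC ?_ ?_ i hi
    · rw [← hδ (j + 1) hj]; exact hdp _
    · rw [← hδ (j + 1) hj]; exact hdl _
  have hwle : ∀ j, ∀ x ∈ S j, (s : ℤ) ≤ C.wt x.1 ∧ C.wt x.1 ≤ n := by
    intro j x hx
    have hx' : x.1 ∈ Bs (j + 1) := (Finset.mem_filter.1 hx).2
    refine ⟨hwts _ _ hx', ?_⟩
    by_contra hcon
    push Not at hcon
    have h1 := hcard (j + 1) (C.wt x.1)
    rw [hhigh _ _ hcon] at h1
    have h2 : ((Bs (j + 1)).filter (fun e => C.wt e = C.wt x.1)).card = 0 := by exact_mod_cast h1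
    rw [Finset.card_eq_zero] at h2
    have h3 : x.1 ∈ (Bs (j + 1)).filter (fun e => C.wt e = C.wt x.1) :=
      Finset.mem_filter.2 ⟨hx', rfl⟩
    rw [h2] at h3
    exact absurd h3 (Finset.notMem_empty _)
  have hwle' : ∀ j, ∀ x ∈ S j, w j x ≤ n - s := by
    intro j x hx
    obtain ⟨h1, h2⟩ := hwle j x hx
    show (C.wt x.1 - s).toNat ≤ n - s
    omega
  have hfib : ∀ j, j < a → ∀ i, ((S j).filter (fun x => w j x = i)).card ≤ H (a - (j + 1)) i := by
    intro j hj i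
    by_cases hi : i ≤ n - s
    · have h1 := hcard (j + 1) ((i : ℤ) + s)
      rw [← hHj j hj i hi] at h1
      have h2 : ((Bs (j + 1)).filter (fun e => C.wt e = (i : ℤ) + s)).card =
        H (a - (j + 1)) i := by exact_mod_cast h1
      rw [← h2]
      refine Finset.card_le_card_of_injOn (fun x : BB => x.1) ?_ (fun x _ y _ h => Subtype.ext h)
      intro x hx
      have hx1 := Finset.mem_filter.1 (Finset.mem_coe.1 hx)
      have hx2 : x.1 ∈ Bs (j + 1) := (Finset.mem_filter.1 hx1.1).2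
      have hx3 := hwle j x hx1.1
      have hx4 : (C.wt x.1 - s).toNat = i := hx1.2
      refine Finset.mem_coe.2 (Finset.mem_filter.2 ⟨hx2, ?_⟩)
      show C.wt x.1 = (i : ℤ) + s
      obtain ⟨hx5, hx6⟩ := hx3
      omega
    · have : (S j).filter (fun x => w j x = i) = ∅ := by
        rw [Finset.filter_eq_empty_iff]
        intro x hx h
        have := hwle' j x hx
        omega
      rw [this]
      simp
  have hcardS : ∀ j, j < a → (S j).card ≤ ∑ i ∈ Finset.range (n - s + 1), H (a - (j + 1)) i := by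
    intro j hj
    rw [Finset.card_eq_sum_card_fiberwise (f := w j) (t := Finset.range (n - s + 1)) (by
      intro x hx
      have := hwle' j x hx
      exact Finset.mem_coe.2 (Finset.mem_range.2 (by omega)))]
    exact Finset.sum_le_sum fun i _ => hfib j hj i
  have hkap : ∀ κ, P κ ≠ 0 → ∀ j', j' < a →
      (κ : ℝ) ≤ ∑ i ∈ Finset.range (n - s + 1), (H j' i : ℝ) := by
    intro κ hκ j' hj'
    have h1 : ¬ (S (a - 1 - j')).card < κ := fun h => hκ (hPzero κ (a - 1 - j') (by omega) h)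
    have h2 := hcardS (a - 1 - j') (by omega)
    rw [show a - (a - 1 - j' + 1) = j' by omega] at h2
    have h3 : κ ≤ ∑ i ∈ Finset.range (n - s + 1), H j' i := by omega
    exact_mod_cast h3
  have hmul : ∀ κ, P κ ≠ 0 → ∑ j' ∈ Finset.range a, hpoly (n - s) (H j') κ ≤
      (multiplicity (p : WittVector p F) (P κ) : ℝ) := by
    intro κ hκ
    have h1 := hPdvd κ (fun j => hpolyN (n - s) (H (a - (j + 1))) κ) (by
      intro j hj I hI hIc
      have := hpolyN_le (n - s) (H (a - (j + 1))) (S j) (w j) (hwle' j) (hfib j hj) I hI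
      rwa [hIc] at this)
    have h2 := witt_mult p hκ h1
    have h3 : (∑ j ∈ Finset.range a, hpolyN (n - s) (H (a - (j + 1))) κ : ℕ) =
        ∑ j' ∈ Finset.range a, hpolyN (n - s) (H j') κ := by
      rw [← Finset.sum_range_reflect (fun j' => hpolyN (n - s) (H j') κ) a]
      refine Finset.sum_congr rfl fun j hj => ?_
      rw [show a - (j + 1) = a - 1 - j by omega]
    rw [h3] at h2
    have h4 : ((∑ j' ∈ Finset.range a, hpolyN (n - s) (H j') κ : ℕ) : ℝ) ≤
      (multiplicity (p : WittVector p F) (P κ) : ℝ) := by exact_mod_cast h2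
    refine le_trans (le_of_eq ?_) h4
    rw [Nat.cast_sum]
    exact Finset.sum_congr rfl fun j _ => hpoly_nat _ _ _
  refine ⟨P, hP0, ?_, ?_, ?_⟩
  · intro κ
    rw [hPrec κ, pow_succ]
    push_cast
    ring
  · intro κ hκ
    refine hPzero κ (a - 1) (by omega) (lt_of_le_of_lt (hcardS (a - 1) (by omega)) ?_)
    rw [show a - (a - 1 + 1) = 0 by omega]
    refine lt_of_le_of_lt (le_of_eq ?_) hκ
    refine Finset.sum_congr rfl fun i _ => ?_
    show hodge D₀ _ i = hodge D₀ _ i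
    have : (fun i => conj p (p ^ a) 0 (b i)) = b := by
      funext i
      have := hb i
      unfold conj
      rw [pow_zero, one_mul, Nat.mod_eq_of_lt (by omega)]
    rw [this]
  · have hapos : (0 : ℝ) < a := by exact_mod_cast ha
    have hsub' : convexHull ℝ {v : ℝ × ℝ | ∃ κ : ℕ, P κ ≠ 0 ∧ v = ((κ : ℝ), ordq p a (P κ))} ⊆
        {v : ℝ × ℝ | 0 ≤ v.1 ∧
          (∀ j', j' < a → v.1 ≤ ∑ i ∈ Finset.range (n - s + 1), (H j' i : ℝ)) ∧
          ∑ j' ∈ Finset.range a, hpoly (n - s) (H j') v.1 ≤ v.2 * a} := by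
      refine convexHull_min ?_ ?_
      · rintro v ⟨κ, hκ, rfl⟩
        refine ⟨Nat.cast_nonneg _, fun j' hj' => hkap κ hκ j' hj', ?_⟩
        show _ ≤ ordq p a (P κ) * a
        unfold ordq
        rw [div_mul_cancel₀ _ hapos.ne']
        exact hmul κ hκ
      · rw [convex_iff_forall_pos]
        rintro ⟨x₁, y₁⟩ ⟨hx1, hx2, hx3⟩ ⟨x₂, y₂⟩ ⟨hy1, hy2, hy3⟩ t₁ t₂ ht₁ ht₂ ht
        simp only at hx1 hx2 hx3 hy1 hy2 hy3
        have ht1e : t₁ = 1 - t₂ := by linarith
        refine ⟨?_, ?_, ?_⟩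
        · show 0 ≤ t₁ * x₁ + t₂ * x₂
          positivity
        · intro j' hj'
          show t₁ * x₁ + t₂ * x₂ ≤ _
          have h1 := hx2 j' hj'
          have h2 := hy2 j' hj'
          have h3 : t₁ * x₁ ≤ t₁ * ∑ i ∈ Finset.range (n - s + 1), (H j' i : ℝ) :=
            mul_le_mul_of_nonneg_left h1 ht₁.le
          have h4 : t₂ * x₂ ≤ t₂ * ∑ i ∈ Finset.range (n - s + 1), (H j' i : ℝ) :=
            mul_le_mul_of_nonneg_left h2 ht₂.le
          have h5 : t₁ * (∑ i ∈ Finset.range (n - s + 1), (H j' i : ℝ))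
              + t₂ * ∑ i ∈ Finset.range (n - s + 1), (H j' i : ℝ)
              = ∑ i ∈ Finset.range (n - s + 1), (H j' i : ℝ) := by
            rw [← add_mul, ht, one_mul]
          linarith
        · show ∑ j' ∈ Finset.range a, hpoly (n - s) (H j') (t₁ * x₁ + t₂ * x₂)
            ≤ (t₁ * y₁ + t₂ * y₂) * a
          have hconv : ∑ j' ∈ Finset.range a, hpoly (n - s) (H j') ((1 - t₂) * x₁ + t₂ * x₂) ≤
              (1 - t₂) * ∑ j' ∈ Finset.range a, hpoly (n - s) (H j') x₁ +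
                t₂ * ∑ j' ∈ Finset.range a, hpoly (n - s) (H j') x₂ := by
            rw [Finset.mul_sum, Finset.mul_sum, ← Finset.sum_add_distrib]
            refine Finset.sum_le_sum fun j' hj' => ?_
            have hj'' := Finset.mem_range.1 hj'
            exact hpoly_convex (n - s) (H j') x₁ x₂ t₂ hx1 hy1 (hx2 j' hj'') (hy2 j' hj'')
              ht₂.le (by linarith)
          rw [← ht1e] at hconv
          have h6 : t₁ * ∑ j' ∈ Finset.range a, hpoly (n - s) (H j') x₁ ≤ t₁ * (y₁ * a) :=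
            mul_le_mul_of_nonneg_left hx3 ht₁.le
          have h7 : t₂ * ∑ j' ∈ Finset.range a, hpoly (n - s) (H j') x₂ ≤ t₂ * (y₂ * a) :=
            mul_le_mul_of_nonneg_left hy3 ht₂.le
          calc _ ≤ _ := hconv
            _ ≤ t₁ * (y₁ * a) + t₂ * (y₂ * a) := add_le_add h6 h7
            _ = (t₁ * y₁ + t₂ * y₂) * a := by ring
    intro v hv
    obtain ⟨-, -, h3⟩ := hsub' hv
    have e1 : avgPoly p a D₀ b v.1 =
        (∑ j' ∈ Finset.range a, hpoly (n - s) (H j') v.1) / a := rfl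
    rw [e1, div_le_iff₀ hapos]
    exact h3

end HN
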