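import Pool.Agent.HN.Tw1

/-! # HN/Fr : the Frobenius on forms (module HND-23)

PLAN.  `Fr α p ξ A = p^(card ι - |A|) • α (ξ A)`.
`Fr_mem`: direct.  `Fr_Dt`: `kos_apply` on both sides: for `v ∈ A`, `|A.erase v| = |A| - 1`, so
`p^(card ι - |A|) • α (tw (ξ (A.erase v))) = p^(card ι - |A|) • p • tw' (α (ξ (A.erase v)))
= tw' (p^(card ι - |A.erase v|) • α (..))` (`|A| ≤ card ι`).
`Fr_eul`: `eul_apply`: for `v ∉ A`, `|insert v A| = |A| + 1 ≤ card ι`.
-/

open MvPolynomial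

namespace HN

section
variable {ι : Type*} [Fintype ι] [DecidableEq ι] [Ranked ι] {R : Type*} [CommRing R]

/-- `Φ ξ (A) = p^(card ι - |A|) α (ξ A)` -/
noncomputable def Fr (α : Lau ι R →ₗ[R] Lau ι R) (p : ℕ) :
    (Finset ι → Lau ι R) →ₗ[R] (Finset ι → Lau ι R) where
  toFun ξ A := (p : R) ^ (Fintype.card ι - A.card) • α (ξ A)
  map_add' x y := by funext A; simp
  map_smul' c x := by
    funext A
    simp only [Pi.smul_apply, map_smul, RingHom.id_apply]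
    exact smul_comm _ _ _

theorem Fr_apply (α : Lau ι R →ₗ[R] Lau ι R) (p : ℕ) (ξ : Finset ι → Lau ι R) (A : Finset ι) :
    Fr α p ξ A = (p : R) ^ (Fintype.card ι - A.card) • α (ξ A) := rfl

theorem Fr_mem {C : CType ι} {α : Lau ι R →ₗ[R] Lau ι R} {p : ℕ} {δ δ' : ℤ}
    (hα : ∀ (A : Finset ι) (x : Lau ι R),
      (∀ e, x.coeff e ≠ 0 → C.deg e = δ ∧ ∀ v, C.thr v A ≤ e v) →
      ∀ e, (α x).coeff e ≠ 0 → C.deg e = δ' ∧ ∀ v, C.thr v A ≤ e v)
    {j : ℤ} {ξ : Finset ι → Lau ι R} (hξ : ξ ∈ KT R C ∅ δ j) : Fr α p ξ ∈ KT R C ∅ δ' j := by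
  intro A e he
  rw [Fr_apply] at he
  have h1 : (α (ξ A)).coeff e ≠ 0 := by
    intro h
    apply he
    show (p : R) ^ (Fintype.card ι - A.card) * (α (ξ A)).coeff e = 0
    rw [h, mul_zero]
  have h2 := hα A (ξ A) (fun e' he' => ⟨(hξ A e' he').2.1,
    fun v => (hξ A e' he').2.2 v (Finset.notMem_empty v)⟩) e h1
  refine ⟨?_, h2.1, fun v _ => h2.2 v⟩
  by_contra hne
  have h3 : ξ A = 0 := by
    apply lau_ext
    intro e'
    by_contra h4
    exact hne (hξ A e' h4).1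
  rw [h3, map_zero] at h1
  exact h1 rfl

theorem Fr_Dt {C : CType ι} {α : Lau ι R →ₗ[R] Lau ι R} {p : ℕ} {δ : ℤ} {ga ga' : ι → R}
    {h h' : ι → MvPolynomial ι R}
    (hα : ∀ (v : ι) (x : Lau ι R), (∀ e, x.coeff e ≠ 0 → C.deg e = δ ∧ ∀ u, 0 ≤ e u) →
      α (tw ga h v x) = (p : R) • tw ga' h' v (α x))
    {j : ℤ} {ξ : Finset ι → Lau ι R} (hξ : ξ ∈ KT R C ∅ δ j) :
    Fr α p (Dt ga h ξ) = Dt ga' h' (Fr α p ξ) := by
  funext A
  rw [Fr_apply]
  unfold Dt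
  rw [kos_apply, kos_apply, map_sum, Finset.smul_sum]
  refine Finset.sum_congr rfl fun v hv => ?_
  rw [map_zsmul, hα v (ξ (A.erase v)) (fun e he => ⟨(hξ _ e he).2.1,
    fun u => (thr_nonneg C u _).trans ((hξ _ e he).2.2 u (Finset.notMem_empty u))⟩),
    Fr_apply, map_smul, smul_comm, smul_smul]
  congr 2
  rw [← pow_succ]
  congr 1
  have h1 := Finset.card_erase_add_one hv
  have h2 := Finset.card_le_univ A
  omega

theorem Fr_eul (C : CType ι) (α : Lau ι R →ₗ[R] Lau ι R) (p : ℕ) (ξ : Finset ι → Lau ι R) :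
    Fr α p (eul R C ξ) = (p : R) • eul R C (Fr α p ξ) := by
  funext A
  rw [Pi.smul_apply, Fr_apply, eul_apply, eul_apply, map_sum, Finset.smul_sum, Finset.smul_sum]
  refine Finset.sum_congr rfl fun v hv => ?_
  rw [map_smul, map_zsmul, Fr_apply, smul_comm _ (C.wd v : R), smul_comm (p : R) (C.wd v : R),
    smul_comm _ (sg v A), smul_comm (p : R) (sg v A), smul_smul (p : R)]
  congr 3
  rw [← pow_succ']
  congr 1
  have h1 := Finset.card_insert_of_notMem (Finset.mem_compl.1 hv)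
  have h2 := Finset.card_le_univ (insert v A)
  omega

theorem Fr_bas (α : Lau ι R →ₗ[R] Lau ι R) (p : ℕ) (A : Finset ι) (e : ι → ℤ) :
    Fr α p (bas R A e) = Pi.single A ((p : R) ^ (Fintype.card ι - A.card) • α (mon R e)) := by
  funext B
  rw [Fr_apply]
  by_cases h : B = A
  · subst h
    rw [bas, Pi.single_eq_same, Pi.single_eq_same]
  · rw [bas, Pi.single_eq_of_ne h, Pi.single_eq_of_ne h, map_zero, smul_zero]

end

end HN
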