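import Pool.Agent.HN.Data

/-! # HN/WittQ : the rings `W(F)/p^k` and `(W(F)/p^k)[γ]` (module HN-18)

PLAN.  `F` perfect of characteristic `p`: `p ∣ x ↔ x.coeff 0 = 0`
(`WittVector.mem_span_p_iff_coeff_zero_eq_zero` or similar), `p^k ∣ x ↔ coeff i = 0 for i < k`
(`WittVector.mem_span_p_pow_iff_le_coeff_eq_zero`), `W(F)` is a domain of characteristic `0`.
`B = AdjoinRoot (X^(p-1) - C (p u))`.
-/

open WittVector

namespace HN

variable (p : ℕ) [hp : Fact p.Prime]

/-- `W(F)/p^k` -/
abbrev WQ (k : ℕ) (F : Type*) [Field F] : Type _ :=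
  WittVector p F ⧸ Ideal.span {(p : WittVector p F) ^ k}

theorem WQ_pk (k : ℕ) (F : Type*) [Field F] : (p : WQ p k F) ^ k = 0 := by
  have h : (p : WQ p k F) ^ k = Ideal.Quotient.mk _ ((p : WittVector p F) ^ k) := by
    rw [map_pow, map_natCast]
  rw [h, Ideal.Quotient.eq_zero_iff_mem]
  exact Ideal.mem_span_singleton_self _

section
variable {F : Type*} [Field F] [CharP F p] [PerfectRing F p]

private theorem wq_dvd (k i : ℕ) (hi : i ≤ k) (y : WittVector p F) :
    (p : WQ p k F) ^ i ∣ Ideal.Quotient.mk _ y ↔ (p : WittVector p F) ^ i ∣ y := by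
  constructor
  · rintro ⟨z, hz⟩
    obtain ⟨z, rfl⟩ := Ideal.Quotient.mk_surjective z
    have h : Ideal.Quotient.mk (Ideal.span {(p : WittVector p F) ^ k}) (y - p ^ i * z) = 0 := by
      rw [map_sub, map_mul, map_pow, map_natCast, hz, sub_self]
    rw [Ideal.Quotient.eq_zero_iff_mem, Ideal.mem_span_singleton] at h
    have h1 : (p : WittVector p F) ^ i ∣ y - p ^ i * z := (pow_dvd_pow _ hi).trans h
    exact (dvd_sub_left (Dvd.intro z rfl)).mp h1
  · rintro ⟨z, rfl⟩
    exact ⟨Ideal.Quotient.mk _ z, by rw [map_mul, map_pow, map_natCast]⟩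

private theorem wq_zero (k : ℕ) (y : WittVector p F) :
    Ideal.Quotient.mk (Ideal.span {(p : WittVector p F) ^ k}) y = 0 ↔
      (p : WittVector p F) ^ k ∣ y := by
  rw [Ideal.Quotient.eq_zero_iff_mem, Ideal.mem_span_singleton]

private theorem p_dvd_iff (y : WittVector p F) : (p : WittVector p F) ∣ y ↔ y.coeff 0 = 0 := by
  rw [← Ideal.mem_span_singleton, mem_span_p_iff_coeff_zero_eq_zero]

private theorem pp_dvd_iff (k : ℕ) (y : WittVector p F) :
    (p : WittVector p F) ^ k ∣ y ↔ ∀ m, m < k → y.coeff m = 0 := by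
  rw [← Ideal.mem_span_singleton, mem_span_p_pow_iff_le_coeff_eq_zero]

theorem exists_WD {k : ℕ} (hk : 1 ≤ k) : ∃ D : WD p k F (WQ p k F),
    (∀ x, D.τ x = Ideal.Quotient.mk _ (teichmuller p x)) ∧
    ∀ y : WittVector p F, D.π (Ideal.Quotient.mk _ y) = y.coeff 0 := by
  have hlift : ∀ a : WittVector p F, a ∈ Ideal.span {(p : WittVector p F) ^ k} →
      constantCoeff a = 0 := by
    intro a ha
    rw [Ideal.mem_span_singleton, pp_dvd_iff] at ha
    exact ha 0 hk
  refine ⟨⟨Ideal.Quotient.lift _ constantCoeff hlift,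
    { toFun := fun x => Ideal.Quotient.mk _ (teichmuller p x)
      map_zero' := by rw [teichmuller_zero, map_zero]
      map_one' := by rw [map_one, map_one]
      map_mul' := fun x y => by rw [map_mul, map_mul] }, ?_, ?_, ?_⟩, ?_, ?_⟩
  · intro x
    change Ideal.Quotient.lift _ constantCoeff hlift (Ideal.Quotient.mk _ (teichmuller p x)) = x
    rw [Ideal.Quotient.lift_mk, constantCoeff_apply, teichmuller_coeff_zero]
  · intro x
    obtain ⟨y, rfl⟩ := Ideal.Quotient.mk_surjective x
    rw [Ideal.Quotient.lift_mk, constantCoeff_apply, ← p_dvd_iff]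
    have := wq_dvd p k 1 hk y
    rw [pow_one, pow_one] at this
    exact this.symm
  · intro i hi x
    obtain ⟨y, rfl⟩ := Ideal.Quotient.mk_surjective x
    rw [wq_dvd p k (k - i) (Nat.sub_le _ _)]
    have h : (p : WQ p k F) ^ i * Ideal.Quotient.mk _ y
        = Ideal.Quotient.mk _ ((p : WittVector p F) ^ i * y) := by
      rw [map_mul, map_pow, map_natCast]
    rw [h, wq_zero]
    have h2 : (p : WittVector p F) ^ k = p ^ i * p ^ (k - i) := by
      rw [← pow_add, Nat.add_sub_cancel' hi]
    rw [h2]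
    exact mul_dvd_mul_iff_left (pow_ne_zero _ (p_nonzero p F))
  · intro x
    rfl
  · intro y
    rfl

/-- functoriality -/
theorem exists_WQmap {K : Type*} [Field K] [CharP K p] [PerfectRing K p] [Algebra F K] (k : ℕ) :
    ∃ φ : WQ p k F →+* WQ p k K,
      (∀ x : WittVector p F, φ (Ideal.Quotient.mk _ x)
        = Ideal.Quotient.mk _ (WittVector.map (algebraMap F K) x)) ∧
      Function.Injective φ := by
  refine ⟨Ideal.quotientMap _ (WittVector.map (algebraMap F K)) ?_, ?_, ?_⟩
  · rw [Ideal.span_singleton_le_iff_mem, Ideal.mem_comap, map_pow, map_natCast]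
    exact Ideal.mem_span_singleton_self _
  · intro x
    rw [Ideal.quotientMap_mk]
  · apply Ideal.quotientMap_injective'
    intro x hx
    rw [Ideal.mem_comap, Ideal.mem_span_singleton, pp_dvd_iff] at hx
    rw [Ideal.mem_span_singleton, pp_dvd_iff]
    intro m hm
    have := hx m hm
    rw [map_coeff] at this
    exact (map_eq_zero_iff _ (algebraMap F K).injective).mp this

theorem witt_sep (x : WittVector p F) (h : ∀ k : ℕ, (p : WittVector p F) ^ k ∣ x) : x = 0 := by
  ext m
  rw [zero_coeff]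
  exact (pp_dvd_iff p (m + 1) x).mp (h (m + 1)) m (Nat.lt_succ_self m)

theorem witt_unit (m : ℕ) (h : ¬ p ∣ m) : IsUnit (m : WittVector p F) := by
  apply isUnit_of_coeff_zero_ne_zero
  rw [← constantCoeff_apply, map_natCast]
  intro h0
  exact h ((CharP.cast_eq_zero_iff F p m).mp h0)

theorem witt_p_ne : (p : WittVector p F) ≠ 0 := p_nonzero p F

/-- multiplicity and `ordq` -/
theorem witt_mult {x : WittVector p F} (hx : x ≠ 0) {m : ℕ} (h : (p : WittVector p F) ^ m ∣ x) :
    m ≤ multiplicity (p : WittVector p F) x := by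
  refine FiniteMultiplicity.le_multiplicity_of_pow_dvd ?_ h
  by_contra hf
  rw [FiniteMultiplicity.not_iff_forall] at hf
  exact hx (witt_sep p x hf)

end

/-- a ring homomorphism from `ℤ_p` to any ring in which `p` is nilpotent -/
theorem exists_padicHom {R : Type*} [CommRing R] {k : ℕ} (hk : (p : R) ^ k = 0) :
    Nonempty (ℤ_[p] →+* R) := by
  have h : ringChar R ∣ p ^ k := by
    rw [← ringChar.spec]
    rw [Nat.cast_pow, hk]
  have : CharP R (ringChar R) := ringChar.charP R
  exact ⟨(ZMod.castHom h R).comp (PadicInt.toZModPow k)⟩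

/-- the ring `A[γ]/(γ^(p-1) - p u)` -/
theorem exists_gamma {A : Type} [CommRing A] (v : A) :
    ∃ (B : Type) (_ : CommRing B) (_ : Algebra A B) (γ : B),
      γ ^ (p - 1) = algebraMap A B v ∧ Function.Injective (algebraMap A B) := by
  classical
  have hp1 : p - 1 ≠ 0 := by have := hp.out.two_le; omega
  set f : Polynomial A := Polynomial.X ^ (p - 1) - Polynomial.C v with hf
  have hmon : f.Monic := Polynomial.monic_X_pow_sub_C v hp1
  refine ⟨AdjoinRoot f, inferInstance, inferInstance, AdjoinRoot.root f, ?_, ?_⟩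
  · have h := AdjoinRoot.eval₂_root f
    rw [hf, Polynomial.eval₂_sub, Polynomial.eval₂_pow, Polynomial.eval₂_X,
      Polynomial.eval₂_C, sub_eq_zero] at h
    rw [AdjoinRoot.algebraMap_eq]
    exact h
  · rw [injective_iff_map_eq_zero]
    intro a ha
    rw [AdjoinRoot.algebraMap_eq, ← AdjoinRoot.mk_C, AdjoinRoot.mk_eq_zero] at ha
    by_contra hne
    rcases subsingleton_or_nontrivial A with hA | hA
    · exact hne (Subsingleton.elim _ _)
    · refine hmon.not_dvd_of_degree_lt (by simpa using hne) ?_ ha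
      rw [Polynomial.degree_X_pow_sub_C (Nat.pos_of_ne_zero hp1), Polynomial.degree_C hne]
      exact_mod_cast Nat.pos_of_ne_zero hp1

end HN
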