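import Pool.Agent.HN.GaussSp
import Pool.Agent.HN.WittQ

/-! # HN/Gauss : `g_m = - γ^(m T) u^m` with a unit `u` (module HN-23)

PLAN.  `gauss_exists`: `trace_main` for `cayT 0 (fun _ => p^a-1)`, `cayF (spD F (p^a-1))`,
`exists_orbit` (`δ_j = b_j`, `0 < b_j < p^a - 1`), `sp_jnum`: every `Bs j` has exactly one element (of
weight `0`; there are none of other weight), so `prodM A a` has at most one nonzero row
(`Bs a`), hence `trace ((prodM A a)^m) = u^m`, `u := trace (prodM A a)`: a matrix whose rows outside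
one index vanish satisfies `tr (M^m) = (tr M)^m`.  `csum = (Q-1) g` (`sp_csum`), `Q - 1` is a unit
in `B`, sign `(-1)^(2-1)`; `∑_v τ_j v = τ_j(y)`; `orbit_dsum`.
`gauss_unit`: use `m = 1`, `K = F`, `A' = R`, `φ = id`, `B ⊇ R` from `exists_gamma` with `R → B`
injective (`Algebra ℤ_[p] B` := composition), and `gsum_mul` for `c = q-1-b`, `c' = b`:
`p^2 (γ^(T+T') u u' - [-1]^c p^a) = 0`, `T + T' = a(p-1)` (`dsum_add`), so
`p^(a+2) (υ^a u u' - [-1]^c) = 0` in `R`, hence `υ^a u u' - [-1]^c ∈ p R` as `k > a + 2`.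
-/

open MvPolynomial

namespace HN

private theorem ga_trace_pow {𝔅 : Type*} [Fintype 𝔅] [DecidableEq 𝔅] {R : Type*} [CommRing R]
    (M : Matrix 𝔅 𝔅 R) (b0 : 𝔅) (h : ∀ b b', b ≠ b0 → M b b' = 0) (m : ℕ) (hm : 1 ≤ m) :
    (M ^ m).trace = M.trace ^ m := by
  have htr : ∀ N : Matrix 𝔅 𝔅 R, (∀ b b', b ≠ b0 → N b b' = 0) → N.trace = N b0 b0 := by
    intro N hN
    rw [Matrix.trace, Finset.sum_eq_single b0]
    · rfl
    · intro b _ hb; exact hN b b hb
    · intro h; exact absurd (Finset.mem_univ _) h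
  have hrow : ∀ m, 1 ≤ m → ∀ b b', b ≠ b0 → (M ^ m) b b' = 0 := by
    intro m hm b b' hb
    obtain ⟨l, rfl⟩ : ∃ l, m = l + 1 := ⟨m - 1, by omega⟩
    rw [pow_succ', Matrix.mul_apply]
    exact Finset.sum_eq_zero fun c _ => by rw [h b c hb, zero_mul]
  rw [htr M h]
  induction m, hm using Nat.le_induction with
  | base => rw [pow_one, pow_one, htr M h]
  | succ m hm ih =>
    rw [htr _ (hrow (m + 1) (by omega)), pow_succ, Matrix.mul_apply, Finset.sum_eq_single b0]
    · rw [← htr _ (hrow m hm), ih, pow_succ]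
    · intro c _ hc; rw [h c b0 hc, mul_zero]
    · intro h; exact absurd (Finset.mem_univ _) h

private theorem ga_div (p a m : ℕ) :
    (p ^ a - 1) * ((p ^ (a * m) - 1) / (p ^ a - 1)) = p ^ (a * m) - 1 := by
  apply Nat.mul_div_cancel'
  have h := Nat.sub_dvd_pow_sub_pow (p ^ a) 1 m
  rwa [one_pow, ← pow_mul] at h

/-- existence of `u` for every `b` -/
theorem gauss_exists (p a : ℕ) [Fact p.Prime] (ha : 1 ≤ a) (F : Type) [Field F] [Fintype F]
    (hF : Fintype.card F = p ^ a) {b : ℕ} (hb : 1 ≤ b ∧ b ≤ p ^ a - 2) (k : ℕ) (hk : 1 ≤ k)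
    (R : Type) [CommRing R] [Algebra ℤ_[p] R] (D : WD p k F R) (Pi : PiData p k R) :
    ∃ u : R, ∀ (m : ℕ), 1 ≤ m → ∀ (K : Type) [Field K] [Fintype K] [Algebra F K],
      Module.finrank F K = m →
      ∀ (A' : Type) [CommRing A'] (DK : WD p k K A') (φ : R →+* A'),
        (∀ x, φ (D.τ x) = DK.τ (algebraMap F K x)) →
      ∀ (B : Type) [CommRing B] [Algebra ℤ_[p] B] [Algebra A' B] (γ : B),
        (∀ x : ℤ_[p], algebraMap ℤ_[p] B x
          = algebraMap A' B (φ (algebraMap ℤ_[p] R x))) →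
        γ ^ (p - 1) = algebraMap A' B (p * φ Pi.u) →
        gsum p (a * m) DK γ ((p ^ a - 1 - b) * ((p ^ (a * m) - 1) / (p ^ a - 1)))
          = - γ ^ (m * dsum p a b) * algebraMap A' B (φ u) ^ m := by
  classical
  have hp : p.Prime := Fact.out
  have hq : 3 ≤ p ^ a := by omega
  have he : 1 ≤ p ^ a - 1 := by omega
  set C : CType (Vr 0 1 0) := cayT 0 (fun _ : Fin 1 => p ^ a - 1) (fun j : Fin 0 => j.elim0)
    (fun _ => he) (fun j => j.elim0) with hC
  have hYs : C.Ys = {Sum.inr (Sum.inl 0)} := by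
    rw [hC]
    simp [cayT]
  have hwd : C.wd (Sum.inr (Sum.inl 0)) = -((p ^ a - 1 : ℕ) : ℤ) := rfl
  have hY : C.Ys.Nonempty := by rw [hYs]; exact Finset.singleton_nonempty _
  have hqc : ((p ^ a - 1 : ℕ) : ℤ) = (p : ℤ) ^ a - 1 := by
    rw [Nat.cast_sub (by omega)]
    push_cast
    rfl
  obtain ⟨O, hO0, -⟩ := exists_orbit hp ha C (fun _ => b) (fun v _ => hb) (by
    rw [hYs, Finset.sum_singleton, hwd, hqc]
    exact Dvd.intro (-(b : ℤ)) (by ring))
  have hO0' : O.b 0 (Sum.inr (Sum.inl 0)) = b := hO0 _ (by rw [hYs]; exact Finset.mem_singleton_self _)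
  have hδ : ∀ j, O.δ j = (O.b j (Sum.inr (Sum.inl 0)) : ℤ) := by
    intro j
    have h1 := O.deg j
    have h2 : ∑ v, C.wd v * (O.b j v : ℤ) = ∑ v ∈ C.Ys, C.wd v * (O.b j v : ℤ) := by
      symm
      refine Finset.sum_subset (Finset.subset_univ C.Ys) fun v _ hv => ?_
      rw [(O.out j v hv).1]
      simp
    rw [h2, hYs, Finset.sum_singleton, hwd, hqc] at h1
    have h3 : ((p : ℤ) ^ a - 1) ≠ 0 := by
      rw [← hqc]
      have : p ^ a - 1 ≠ 0 := by omega
      exact_mod_cast this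
    apply mul_left_cancel₀ h3
    rw [h1]
    ring
  have hδ0 : ∀ j, 0 < O.δ j := O.delta_pos hY
  have hδ1 : ∀ j, O.δ j < ((p ^ a - 1 : ℕ) : ℤ) := by
    intro j
    rw [hδ j]
    have h1 := (O.pos j _ (by rw [hYs]; exact Finset.mem_singleton_self _)).2
    have : O.b j (Sum.inr (Sum.inl 0)) < p ^ a - 1 := by omega
    exact_mod_cast this
  have hjn : ∀ j w, jnum C (O.δ j) w = if w = 0 then 1 else 0 := fun j w =>
    sp_jnum he (hδ0 j) (hδ1 j) w
  obtain ⟨BB, Bs, hB1, hB2, hB3, hmain⟩ := trace_main p a ha F hF C hY (cayF (spD F (p ^ a - 1)))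
    (cay_hom _ _ _) (cay_unitCond _ _ _ (AlgebraicClosure F) (spD_condN F _ _)) O
  have hBs : ∃ b0, Bs a = {b0} := by
    have h1 : ∀ e ∈ Bs a, C.wt e = 0 := by
      intro e he'
      by_contra hne
      have h2 := hB3 a (C.wt e)
      rw [hjn, if_neg hne] at h2
      have h3 : (Bs a).filter (fun e' => C.wt e' = C.wt e) = ∅ := by
        rw [← Finset.card_eq_zero]
        exact_mod_cast h2
      have h4 : e ∈ (Bs a).filter (fun e' => C.wt e' = C.wt e) :=
        Finset.mem_filter.2 ⟨he', rfl⟩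
      rw [h3] at h4
      simp at h4
    have h2 := hB3 a 0
    rw [hjn, if_pos rfl, Finset.filter_true_of_mem h1] at h2
    exact Finset.card_eq_one.1 (by exact_mod_cast h2)
  obtain ⟨b0, hb0⟩ := hBs
  have hb0B : b0 ∈ BB := hB1 a (by rw [hb0]; exact Finset.mem_singleton_self _)
  obtain ⟨A, hA1, -, hA3⟩ := hmain k hk R D Pi
  have hrow : ∀ x x' : BB, x ≠ ⟨b0, hb0B⟩ → prodM A a x x' = 0 := by
    intro x x' hx
    obtain ⟨l, rfl⟩ : ∃ l, a = l + 1 := ⟨a - 1, by omega⟩
    change (A l * prodM A l) x x' = 0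
    rw [Matrix.mul_apply]
    refine Finset.sum_eq_zero fun c _ => ?_
    rw [hA1 l x c, zero_mul]
    rw [hb0, Finset.mem_singleton]
    intro h
    exact hx (Subtype.ext h)
  refine ⟨(prodM A a).trace, ?_⟩
  intro m hm K _ _ _ hKm A' _ DK φ hφ B _ _ _ γ hBalg hγ
  have h := hA3 m hm K hKm A' DK φ hφ B γ hBalg hγ
  have hcardK : Fintype.card K = p ^ (a * m) := by
    have h1 : Fintype.card K = Fintype.card F ^ Module.finrank F K :=
      Module.card_eq_pow_finrank
    rw [h1, hF, hKm, ← pow_mul]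
  have hdiv := ga_div p a m
  set g : ℕ := (p ^ (a * m) - 1) / (p ^ a - 1)
  clear_value g
  have hqm : p ^ a ≤ p ^ (a * m) := by
    apply Nat.pow_le_pow_right hp.pos
    nlinarith
  have hg0 : 1 ≤ g := by
    by_contra hlt
    have : g = 0 := by omega
    rw [this, Nat.mul_zero] at hdiv
    omega
  have hs := sp_csum (a := a) (h := a * m) DK (Pi.map φ) γ hk hγ he ((p ^ a - 1 - b) * g) (F := F) (by
      rw [hcardK, ← hdiv]
      intro hd
      have h1 := Nat.dvd_of_mul_dvd_mul_right (show 0 < g by omega) hd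
      have h2 := Nat.le_of_dvd (by omega) h1
      omega) (by
      rw [hcardK, ← hdiv]
      exact ⟨p ^ a - 1 - b, by ring⟩)
    (fun v => (p ^ a - 1 - O.b 0 v) * g) (by rw [hO0'])
  rw [← hs.symm.trans rfl] at h
  have hT : ∑ j ∈ Finset.range a, ∑ v, O.τ j v = dsum p a b := by
    rw [← hO0', ← orbit_dsum hp O (by rw [hYs]; exact Finset.mem_singleton_self _)]
    refine Finset.sum_congr rfl fun j _ => ?_
    rw [Finset.sum_eq_single (Sum.inr (Sum.inl 0))]
    · intro v _ hv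
      exact (O.out j v (by rw [hYs, Finset.mem_singleton]; exact hv)).2
    · intro h; exact absurd (Finset.mem_univ _) h
  have hcard : Fintype.card (Vr 0 1 0) = 2 := by simp
  have htr : (prodM A a ^ m).trace = (prodM A a).trace ^ m := ga_trace_pow _ _ hrow m hm
  rw [hT, hcard, htr, hcardK] at h
  have hunit : IsUnit ((p : B) ^ (a * m) - 1) := by
    have h1 : IsNilpotent (p : B) := by
      have h2 := p_nilp DK
      have h3 := h2.map (algebraMap A' B)
      rwa [map_natCast] at h3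
    have h2 : IsNilpotent ((p : B) ^ (a * m)) := h1.pow_of_pos (by nlinarith : a * m ≠ 0)
    have h3 := h2.isUnit_sub_one
    exact h3
  apply hunit.mul_left_cancel
  rw [Nat.cast_pow] at h
  rw [← h, map_pow, map_pow]
  norm_num
  ring

/-- any `u` as in `gauss_exists` is a unit if `k` is large -/
theorem gauss_unit (p a : ℕ) [Fact p.Prime] (ha : 1 ≤ a) (F : Type) [Field F] [Fintype F]
    (hF : Fintype.card F = p ^ a) {b : ℕ} (hb : 1 ≤ b ∧ b ≤ p ^ a - 2) (k : ℕ)
    (hk : a + 2 < k)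
    (R : Type) [CommRing R] [Algebra ℤ_[p] R] (D : WD p k F R) (Pi : PiData p k R) :
    ∃ u : R, IsUnit u ∧ ∀ (m : ℕ), 1 ≤ m → ∀ (K : Type) [Field K] [Fintype K] [Algebra F K],
      Module.finrank F K = m →
      ∀ (A' : Type) [CommRing A'] (DK : WD p k K A') (φ : R →+* A'),
        (∀ x, φ (D.τ x) = DK.τ (algebraMap F K x)) →
      ∀ (B : Type) [CommRing B] [Algebra ℤ_[p] B] [Algebra A' B] (γ : B),
        (∀ x : ℤ_[p], algebraMap ℤ_[p] B x
          = algebraMap A' B (φ (algebraMap ℤ_[p] R x))) →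
        γ ^ (p - 1) = algebraMap A' B (p * φ Pi.u) →
        gsum p (a * m) DK γ ((p ^ a - 1 - b) * ((p ^ (a * m) - 1) / (p ^ a - 1)))
          = - γ ^ (m * dsum p a b) * algebraMap A' B (φ u) ^ m := by
  have hp : p.Prime := Fact.out
  have hk1 : 1 ≤ k := by omega
  have hq : 3 ≤ p ^ a := by omega
  obtain ⟨u, hu⟩ := gauss_exists p a ha F hF hb k hk1 R D Pi
  have hb' : 1 ≤ p ^ a - 1 - b ∧ p ^ a - 1 - b ≤ p ^ a - 2 := by omega
  obtain ⟨u', hu'⟩ := gauss_exists p a ha F hF hb' k hk1 R D Pi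
  refine ⟨u, ?_, hu⟩
  obtain ⟨B, iB, iAB, γ, hγ, hinj⟩ := exists_gamma p ((p : R) * Pi.u)
  let _ : Algebra ℤ_[p] B := ((algebraMap R B).comp (algebraMap ℤ_[p] R)).toAlgebra
  have hfin : Module.finrank F F = 1 := Module.finrank_self F
  have e1 := hu 1 le_rfl F hfin R D (RingHom.id R) (fun x => rfl) B γ (fun x => rfl) hγ
  have e2 := hu' 1 le_rfl F hfin R D (RingHom.id R) (fun x => rfl) B γ (fun x => rfl) hγ
  have hd : (p ^ (a * 1) - 1) / (p ^ a - 1) = 1 := by
    rw [Nat.mul_one]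
    exact Nat.div_self (by omega)
  have hc : p ^ a - 1 - (p ^ a - 1 - b) = b := by omega
  rw [hd, Nat.mul_one, Nat.mul_one, Nat.one_mul, pow_one, RingHom.id_apply] at e1
  rw [hd, Nat.mul_one, Nat.mul_one, Nat.one_mul, pow_one, RingHom.id_apply, hc] at e2
  have e3 := gsum_mul D Pi γ hk1 hγ hF (c := p ^ a - 1 - b) (c' := b) hb'.1 hb.1 (by
    rw [hF]; omega)
  rw [e1, e2] at e3
  have hdsum := dsum_add (a := a) hp ha hb
  have hγT : γ ^ dsum p a b * γ ^ dsum p a (p ^ a - 1 - b) =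
      algebraMap R B (((p : R) * Pi.u) ^ a) := by
    rw [← pow_add, hdsum, mul_comm a (p - 1), pow_mul, hγ, map_pow]
  have e4 : algebraMap R B ((p : R) ^ (a + 2) * (Pi.u ^ a * u * u' - D.τ (-1) ^ (p ^ a - 1 - b))) =
      algebraMap R B 0 := by
    rw [map_zero]
    have h1 : (p : B) ^ 2 * (-γ ^ dsum p a b * algebraMap R B u *
        (-γ ^ dsum p a (p ^ a - 1 - b) * algebraMap R B u')) =
        algebraMap R B ((p : R) ^ (a + 2) * (Pi.u ^ a * u * u')) := by
      have h2 : (p : B) ^ 2 * (-γ ^ dsum p a b * algebraMap R B u *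
        (-γ ^ dsum p a (p ^ a - 1 - b) * algebraMap R B u')) =
        (p : B) ^ 2 * ((γ ^ dsum p a b * γ ^ dsum p a (p ^ a - 1 - b)) *
          (algebraMap R B u * algebraMap R B u')) := by ring
      rw [h2, hγT]
      simp only [map_mul, map_pow, map_natCast]
      ring
    have h3 : (p : B) ^ 2 * (algebraMap R B (D.τ (-1)) ^ (p ^ a - 1 - b) * (p : B) ^ a) =
        algebraMap R B ((p : R) ^ (a + 2) * D.τ (-1) ^ (p ^ a - 1 - b)) := by
      simp only [map_mul, map_pow, map_natCast]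
      ring
    rw [mul_sub, map_sub, ← h1, ← h3, e3, sub_self]
  have e5 := hinj e4
  have e6 := (D.ann (a + 2) hk.le _).1 e5
  have e7 : (p : R) ∣ Pi.u ^ a * u * u' - D.τ (-1) ^ (p ^ a - 1 - b) :=
    (dvd_pow_self (p : R) (by omega : k - (a + 2) ≠ 0)).trans e6
  have e8 := (D.ker _).2 e7
  rw [map_sub, map_mul, map_mul, map_pow, map_pow, D.πτ, sub_eq_zero] at e8
  apply wd_isUnit D hk1
  intro h0
  rw [h0, mul_zero, zero_mul] at e8
  exact pow_ne_zero _ (neg_ne_zero.2 one_ne_zero) e8.symm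

end HN
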