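import Pool.Agent.HN.TraceMain
import Pool.Agent.HN.Cay

/-! # HN/GaussDef : Gauss sums, digit sums, the special datum (definitions) -/

open MvPolynomial

namespace HN

open Classical in
/-- Gauss sum `∑_{y ≠ 0} Ψ(y) [y]^c` -/
noncomputable def gsum (p h : ℕ) [Fact p.Prime] {k : ℕ} {K A B : Type*} [Field K] [Fintype K]
    [CommRing A] [CommRing B] [Algebra ℤ_[p] B] [Algebra A B] (DK : WD p k K A) (γ : B)
    (c : ℕ) : B :=
  ∑ y ∈ (Finset.univ : Finset K).filter (fun y => y ≠ 0),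
    Psi p h DK γ y * algebraMap A B (DK.τ y) ^ c

/-- sum of the digits of the orbit of `b` -/
def dsum (p a b : ℕ) : ℕ := (p - 1) * (∑ j ∈ Finset.range a, conj p (p ^ a) j b) / (p ^ a - 1)

private theorem gd_one_modEq (p a : ℕ) (hp : 1 ≤ p) : p ^ a ≡ 1 [MOD (p ^ a - 1)] := by
  have h2 : 1 ≤ p ^ a := Nat.one_le_pow _ _ hp
  exact ((Nat.modEq_iff_dvd' h2).2 dvd_rfl).symm

private theorem gd_conj_modEq (p q j b : ℕ) : conj p q j b ≡ p ^ j * b [MOD (q - 1)] :=
  Nat.mod_modEq _ _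

private theorem gd_conj_a (p a b : ℕ) (hp : 1 ≤ p) :
    conj p (p ^ a) a b = conj p (p ^ a) 0 b := by
  unfold conj
  have h := (gd_one_modEq p a hp).mul_right b
  rw [pow_zero]
  exact h

private theorem gd_shift (p a b : ℕ) (hp : 1 ≤ p) :
    ∑ j ∈ Finset.range a, conj p (p ^ a) (j + 1) b = ∑ j ∈ Finset.range a, conj p (p ^ a) j b := by
  have e1 := Finset.sum_range_succ (fun j => conj p (p ^ a) j b) a
  have e2 := Finset.sum_range_succ' (fun j => conj p (p ^ a) j b) a
  simp only [gd_conj_a p a b hp] at e1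
  omega

private theorem gd_dvd (p a b : ℕ) (hp : 1 ≤ p) :
    (p ^ a - 1) ∣ (p - 1) * ∑ j ∈ Finset.range a, conj p (p ^ a) j b := by
  set S := ∑ j ∈ Finset.range a, conj p (p ^ a) j b with hS
  have h1 : ∑ j ∈ Finset.range a, conj p (p ^ a) (j + 1) b ≡
      ∑ j ∈ Finset.range a, p * conj p (p ^ a) j b [MOD (p ^ a - 1)] := by
    refine Nat.ModEq.sum fun j _ => ?_
    have h2 := gd_conj_modEq p (p ^ a) (j + 1) b
    have h3 := (gd_conj_modEq p (p ^ a) j b).mul_left p
    have h4 : p * (p ^ j * b) = p ^ (j + 1) * b := by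
      rw [pow_succ]
      ring
    rw [h4] at h3
    exact h2.trans h3.symm
  rw [gd_shift p a b hp, ← Finset.mul_sum, ← hS] at h1
  have h2 : S ≤ p * S := Nat.le_mul_of_pos_left S hp
  have h3 := (Nat.modEq_iff_dvd' h2).1 h1
  rw [Nat.sub_mul, one_mul]
  exact h3

/-- the digit sum of an orbit -/
theorem orbit_dsum {p a : ℕ} (hp : p.Prime) {ι : Type*} [Fintype ι] [DecidableEq ι]
    {C : CType ι} (O : Orbit p a C) {v : ι} (hv : v ∈ C.Ys) :
    ∑ j ∈ Finset.range a, O.τ j v = dsum p a (O.b 0 v) := by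
  have hp1 : 1 ≤ p := hp.one_lt.le
  have h0 := O.pos 0 v hv
  have hq : 0 < p ^ a - 1 := by omega
  have h1 := O.tau_sum v
  -- `b j ≡ p^k b (j + k)`
  have h2 : ∀ j k, O.b j v ≡ p ^ k * O.b (j + k) v [MOD (p ^ a - 1)] := by
    intro j k
    induction k with
    | zero => simp [Nat.ModEq]
    | succ k ih =>
      have h3 := O.step (j + k) v
      have h4 : p * O.b (j + k + 1) v ≡ O.b (j + k) v [MOD (p ^ a - 1)] := by
        rw [h3, Nat.ModEq, Nat.add_mul_mod_self_left]
      have h5 := h4.mul_left (p ^ k)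
      have h6 : p ^ k * (p * O.b (j + k + 1) v) = p ^ (k + 1) * O.b (j + (k + 1)) v := by
        rw [pow_succ, add_assoc]
        ring
      rw [h6] at h5
      exact ih.trans h5.symm
  have h3 : ∀ j ∈ Finset.range a, O.b j v = conj p (p ^ a) (a - j) (O.b 0 v) := by
    intro j hj
    have hj' := Finset.mem_range.1 hj
    have h4 := h2 j (a - j)
    have h5 : j + (a - j) = 0 + a := by omega
    rw [h5, O.per 0] at h4
    have h6 := O.pos j v hv
    unfold conj
    rw [← Nat.mod_eq_of_lt (show O.b j v < p ^ a - 1 by omega)]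
    exact h4
  have h4 : ∑ j ∈ Finset.range a, O.b j v =
      ∑ j ∈ Finset.range a, conj p (p ^ a) j (O.b 0 v) := by
    rw [Finset.sum_congr rfl h3, ← gd_shift p a _ hp1,
      ← Finset.sum_range_reflect (fun j => conj p (p ^ a) (j + 1) (O.b 0 v)) a]
    refine Finset.sum_congr rfl fun j hj => ?_
    have hj' := Finset.mem_range.1 hj
    congr 1
    omega
  rw [dsum, ← h4, ← h1, Nat.mul_div_cancel_left _ hq]

theorem dsum_add {p a b : ℕ} (hp : p.Prime) (ha : 1 ≤ a) (hb : 1 ≤ b ∧ b ≤ p ^ a - 2) :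
    dsum p a b + dsum p a (p ^ a - 1 - b) = a * (p - 1) := by
  have hp1 : 1 ≤ p := hp.one_lt.le
  have hq : 0 < p ^ a - 1 := by omega
  have hq1 : 1 ≤ p ^ a := Nat.one_le_pow _ _ hp1
  have hcop : Nat.Coprime p (p ^ a - 1) := by
    have h1 : Nat.Coprime (p ^ a) (p ^ a - 1) := by
      rw [Nat.coprime_self_sub_right hq1]
      exact Nat.coprime_one_right _
    exact Nat.Coprime.coprime_dvd_left (dvd_pow_self p (by omega)) h1
  have h1 : ∀ j ∈ Finset.range a,
      conj p (p ^ a) j b + conj p (p ^ a) j (p ^ a - 1 - b) = p ^ a - 1 := by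
    intro j _
    have e1 := gd_conj_modEq p (p ^ a) j b
    have e2 := gd_conj_modEq p (p ^ a) j (p ^ a - 1 - b)
    have e3 : conj p (p ^ a) j b + conj p (p ^ a) j (p ^ a - 1 - b) ≡ 0 [MOD (p ^ a - 1)] := by
      refine (e1.add e2).trans ?_
      rw [← mul_add, Nat.add_sub_cancel' (by omega)]
      exact (Nat.modEq_zero_iff_dvd).2 (dvd_mul_left _ _)
    have l1 : conj p (p ^ a) j b < p ^ a - 1 := Nat.mod_lt _ hq
    have l2 : conj p (p ^ a) j (p ^ a - 1 - b) < p ^ a - 1 := Nat.mod_lt _ hq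
    have h0 : conj p (p ^ a) j b ≠ 0 := by
      intro h
      rw [h] at e1
      have h2 : (p ^ a - 1) ∣ p ^ j * b := (Nat.modEq_zero_iff_dvd).1 e1.symm
      have h3 : Nat.Coprime (p ^ a - 1) (p ^ j) := (hcop.symm).pow_right _
      have h4 := Nat.le_of_dvd (by omega) (h3.dvd_of_dvd_mul_left h2)
      omega
    obtain ⟨c, hc⟩ := (Nat.modEq_zero_iff_dvd).1 e3
    have hc1 : c = 1 := by
      rcases Nat.lt_or_ge c 2 with h | h
      · interval_cases c
        · omega
        · rfl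
      · exfalso
        have : (p ^ a - 1) * 2 ≤ (p ^ a - 1) * c := Nat.mul_le_mul_left _ h
        omega
    rw [hc, hc1, mul_one]
  rw [dsum, dsum, ← Nat.add_div_of_dvd_right (gd_dvd p a b hp1), ← mul_add,
    ← Finset.sum_add_distrib, Finset.sum_congr rfl h1, Finset.sum_const, Finset.card_range,
    smul_eq_mul, ← mul_assoc, Nat.mul_div_cancel _ hq, mul_comm]

end HN
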