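import Pool.Agent.HN.GaussDef

/-! # HN/GaussMul : elementary properties of Gauss and character sums (module HN-21)

PLAN.  `sum_tau_pow`: `g` a generator of `Kˣ`: `([g]^c - 1) ∑ = 0` and `[g]^c - 1` is a unit
(its image `g^c - 1` in `K` is nonzero; elements with nonzero image are units because `ker π = pA`
is nil).  `gsum_twist`: substitute `y ↦ y f⁻¹` (`[f]^(Q-1) = 1`).
`gsum_mul`: `g(c) g(c') = ∑_{t≠0} [t]^c ∑_{z≠0} Ψ(tz)Ψ(z)`, `p Ψ(tz)Ψ(z) = p Ψ((1+t)z)`;
`t = -1` gives `Q - 1`, the other `t` give `-1` (`Psi_sum`), and `∑_{t≠0} [t]^c = 0`.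
-/

open MvPolynomial

namespace HN

section
variable {p k h : ℕ} [Fact p.Prime] {K A B : Type*} [Field K] [Fintype K] [CommRing A]
  [CommRing B] [Algebra ℤ_[p] B] [Algebra A B] (DK : WD p k K A)

theorem wd_isUnit (hk : 1 ≤ k) {x : A} (hx : DK.π x ≠ 0) : IsUnit x := by
  set y := DK.τ (DK.π x)⁻¹ with hy
  have h1 : DK.π (x * y - 1) = 0 := by
    rw [map_sub, map_mul, hy, DK.πτ, map_one, mul_inv_cancel₀ hx, sub_self]
  obtain ⟨z, hz⟩ := (DK.ker _).1 h1
  have hp0 : (p : A) ^ k = 0 := by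
    have := (DK.ann 0 (Nat.zero_le k) ((p : A) ^ k)).2 (by simp)
    simpa using this
  have hn : IsNilpotent ((p : A) * z) := ⟨k, by rw [mul_pow, hp0, zero_mul]⟩
  have h2 : x * y = 1 + p * z := by rw [← hz]; ring
  have h3 : IsUnit (x * y) := by
    rw [h2]
    exact hn.isUnit_one_add
  exact isUnit_of_mul_isUnit_left h3

open Classical in
private theorem gm_reindex {M : Type*} [AddCommMonoid M] {f : K} (hf : f ≠ 0) (F : K → M) :
    ∑ y ∈ (Finset.univ : Finset K).filter (fun y => y ≠ 0), F (y * f) =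
      ∑ y ∈ (Finset.univ : Finset K).filter (fun y => y ≠ 0), F y := by
  refine Finset.sum_bij' (fun y _ => y * f) (fun y _ => y * f⁻¹) ?_ ?_ ?_ ?_ ?_
  · intro y hy
    simp only [Finset.mem_filter, Finset.mem_univ, true_and] at hy ⊢
    exact mul_ne_zero hy hf
  · intro y hy
    simp only [Finset.mem_filter, Finset.mem_univ, true_and] at hy ⊢
    exact mul_ne_zero hy (inv_ne_zero hf)
  · intro y _
    simp [mul_assoc, hf]
  · intro y _
    simp [mul_assoc, hf]
  · intro y _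
    rfl

open Classical in
theorem sum_tau_pow (hk : 1 ≤ k) {c : ℕ} (hc : ¬ (Fintype.card K - 1) ∣ c) :
    ∑ y ∈ (Finset.univ : Finset K).filter (fun y => y ≠ 0), DK.τ y ^ c = 0 := by
  obtain ⟨g, hg⟩ := IsCyclic.exists_generator (α := Kˣ)
  have ho : orderOf g = Fintype.card K - 1 := by
    rw [orderOf_eq_card_of_forall_mem_zpowers hg, Nat.card_eq_fintype_card, Fintype.card_units]
  have hgc : ((g : K)) ^ c - 1 ≠ 0 := by
    intro h0
    have h1 : (g : K) ^ c = 1 := sub_eq_zero.1 h0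
    have h2 : g ^ c = 1 := by
      ext
      simpa using h1
    exact hc (ho ▸ orderOf_dvd_of_pow_eq_one h2)
  have hu : IsUnit (DK.τ (g : K) ^ c - 1) := by
    refine wd_isUnit DK hk ?_
    rw [map_sub, map_pow, DK.πτ, map_one]
    exact hgc
  have h3 := gm_reindex (g.ne_zero) (fun y : K => DK.τ y ^ c)
  have h4 : (DK.τ (g : K) ^ c - 1) *
      ∑ y ∈ (Finset.univ : Finset K).filter (fun y => y ≠ 0), DK.τ y ^ c = 0 := by
    rw [sub_mul, one_mul, Finset.mul_sum, sub_eq_zero]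
    rw [← h3]
    refine Finset.sum_congr rfl fun y _ => ?_
    simp only [map_mul, mul_pow]
    ring
  exact (hu.mul_right_eq_zero).1 h4

private theorem gm_ndvd {c c' Q : ℕ} (hc : 1 ≤ c) (hc' : 1 ≤ c') (hcc : c + c' = Q - 1) :
    ¬ (Q - 1) ∣ c := by
  intro h
  have := Nat.le_of_dvd (by omega) h
  omega

private theorem gm_tau_pow_card {f : K} (hf : f ≠ 0) : DK.τ f ^ (Fintype.card K - 1) = 1 := by
  rw [← map_pow, FiniteField.pow_card_sub_one_eq_one f hf, map_one]

variable (Pi : PiData p k A) (γ : B)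

open Classical in
/-- `∑_{y≠0} Ψ(y f) [y]^c = [f]^c' g(c)`, `c + c' = Q - 1`, `0 < c, c'` (both sides `0` for
`f = 0`) -/
theorem gsum_twist (hk : 1 ≤ k) (hγ : γ ^ (p - 1) = algebraMap A B (p * Pi.u)) {c c' : ℕ}
    (hc : 1 ≤ c) (hc' : 1 ≤ c') (hcc : c + c' = Fintype.card K - 1) (f : K) :
    ∑ y ∈ (Finset.univ : Finset K).filter (fun y => y ≠ 0),
        Psi p h DK γ (y * f) * algebraMap A B (DK.τ y) ^ c
      = algebraMap A B (DK.τ f) ^ c' * gsum p h DK γ c := by
  have _ := hγ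
  by_cases hf : f = 0
  · subst hf
    rw [map_zero, map_zero, zero_pow (by omega), zero_mul]
    simp only [mul_zero]
    rw [← Finset.mul_sum]
    have h1 := congrArg (algebraMap A B) (sum_tau_pow DK hk (gm_ndvd hc hc' hcc))
    rw [map_sum, map_zero] at h1
    simp only [map_pow] at h1
    rw [h1, mul_zero]
  · have h1 := gm_reindex hf (fun y : K => Psi p h DK γ y * algebraMap A B (DK.τ (y * f⁻¹)) ^ c)
    have h2 : ∀ y : K, Psi p h DK γ (y * f) * algebraMap A B (DK.τ (y * f * f⁻¹)) ^ c =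
        Psi p h DK γ (y * f) * algebraMap A B (DK.τ y) ^ c := by
      intro y
      rw [mul_assoc, mul_inv_cancel₀ hf, mul_one]
    simp only [h2] at h1
    rw [h1, gsum, Finset.mul_sum]
    refine Finset.sum_congr rfl fun y _ => ?_
    have h3 : DK.τ (y * f⁻¹) ^ c = DK.τ y ^ c * DK.τ f ^ c' := by
      have h4 : DK.τ f⁻¹ * DK.τ f = 1 := by
        rw [← map_mul, inv_mul_cancel₀ hf, map_one]
      have h5 : DK.τ f ^ (c + c') = 1 := by
        rw [hcc]
        exact gm_tau_pow_card DK hf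
      calc DK.τ (y * f⁻¹) ^ c = DK.τ y ^ c * DK.τ f⁻¹ ^ c * 1 := by rw [map_mul, mul_pow, mul_one]
        _ = DK.τ y ^ c * DK.τ f⁻¹ ^ c * DK.τ f ^ (c + c') := by rw [h5]
        _ = DK.τ y ^ c * (DK.τ f⁻¹ * DK.τ f) ^ c * DK.τ f ^ c' := by
            rw [mul_pow, pow_add]; ring
        _ = DK.τ y ^ c * DK.τ f ^ c' := by rw [h4, one_pow, mul_one]
    have h6 : algebraMap A B (DK.τ (y * f⁻¹)) ^ c =
        algebraMap A B (DK.τ y) ^ c * algebraMap A B (DK.τ f) ^ c' := by
      rw [← map_pow, h3, map_mul, map_pow, map_pow]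
    rw [h6]
    ring

/-- `∑_z Ψ(z f)` -/
theorem psi_sum_mul (hk : 1 ≤ k) (hγ : γ ^ (p - 1) = algebraMap A B (p * Pi.u))
    (hh : Fintype.card K = p ^ h) (f : K) [Decidable (f = 0)] :
    (p : B) ^ 2 * ∑ z : K, Psi p h DK γ (z * f)
      = (p : B) ^ 2 * (if f = 0 then (p : B) ^ h else 0) := by
  by_cases hf : f = 0
  · subst hf
    simp only [mul_zero, if_true]
    rw [Psi_zero DK Pi γ hγ hk, Finset.sum_const, Finset.card_univ, hh]
    simp
  · rw [if_neg hf, mul_zero]
    have h1 : ∑ z : K, Psi p h DK γ (z * f) = ∑ z : K, Psi p h DK γ z :=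
      Fintype.sum_equiv (Equiv.mulRight₀ f hf) _ _ (fun z => rfl)
    rw [h1]
    exact Psi_sum DK Pi γ hγ hk hh

theorem gsum_mul (hk : 1 ≤ k) (hγ : γ ^ (p - 1) = algebraMap A B (p * Pi.u))
    (hh : Fintype.card K = p ^ h) {c c' : ℕ} (hc : 1 ≤ c) (hc' : 1 ≤ c')
    (hcc : c + c' = Fintype.card K - 1) :
    (p : B) ^ 2 * (gsum p h DK γ c * gsum p h DK γ c')
      = (p : B) ^ 2 * (algebraMap A B (DK.τ (-1)) ^ c * (p : B) ^ h) := by
  classical
  set S : Finset K := (Finset.univ : Finset K).filter (fun y => y ≠ 0) with hS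
  -- the double sum
  have h1 : gsum p h DK γ c * gsum p h DK γ c' = ∑ t ∈ S, algebraMap A B (DK.τ t) ^ c *
      ∑ z ∈ S, Psi p h DK γ (t * z) * Psi p h DK γ z := by
    have e1 : gsum p h DK γ c * gsum p h DK γ c' = ∑ z ∈ S, ∑ y ∈ S,
        (Psi p h DK γ y * algebraMap A B (DK.τ y) ^ c) *
          (Psi p h DK γ z * algebraMap A B (DK.τ z) ^ c') := by
      rw [gsum, gsum, Finset.sum_mul_sum, Finset.sum_comm]
    have e2 : ∀ z ∈ S, ∑ y ∈ S, (Psi p h DK γ y * algebraMap A B (DK.τ y) ^ c) *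
          (Psi p h DK γ z * algebraMap A B (DK.τ z) ^ c') =
        ∑ t ∈ S, algebraMap A B (DK.τ t) ^ c * (Psi p h DK γ (t * z) * Psi p h DK γ z) := by
      intro z hz
      have hz0 : z ≠ 0 := by
        simpa [hS] using hz
      rw [← gm_reindex hz0 (fun y : K => (Psi p h DK γ y * algebraMap A B (DK.τ y) ^ c) *
          (Psi p h DK γ z * algebraMap A B (DK.τ z) ^ c'))]
      refine Finset.sum_congr rfl fun t _ => ?_
      have h5 : algebraMap A B (DK.τ z) ^ (c + c') = 1 := by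
        rw [hcc, ← map_pow, gm_tau_pow_card DK hz0, map_one]
      have h6 : algebraMap A B (DK.τ (t * z)) ^ c =
          algebraMap A B (DK.τ t) ^ c * algebraMap A B (DK.τ z) ^ c := by
        rw [map_mul, map_mul, mul_pow]
      rw [h6]
      calc Psi p h DK γ (t * z) * (algebraMap A B (DK.τ t) ^ c * algebraMap A B (DK.τ z) ^ c) *
            (Psi p h DK γ z * algebraMap A B (DK.τ z) ^ c')
          = algebraMap A B (DK.τ t) ^ c * (Psi p h DK γ (t * z) * Psi p h DK γ z) *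
            algebraMap A B (DK.τ z) ^ (c + c') := by rw [pow_add]; ring
        _ = algebraMap A B (DK.τ t) ^ c * (Psi p h DK γ (t * z) * Psi p h DK γ z) := by
            rw [h5, mul_one]
    rw [e1, Finset.sum_congr rfl e2, Finset.sum_comm]
    refine Finset.sum_congr rfl fun t _ => ?_
    rw [Finset.mul_sum]
  have h2 : ∀ t : K, (p : B) ^ 2 * ∑ z ∈ S, Psi p h DK γ (t * z) * Psi p h DK γ z =
      (p : B) ^ 2 * ((if t = -1 then (p : B) ^ h else 0) - 1) := by
    intro t
    have e1 : (p : B) ^ 2 * ∑ z ∈ S, Psi p h DK γ (t * z) * Psi p h DK γ z =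
        (p : B) ^ 2 * ∑ z ∈ S, Psi p h DK γ (z * (t + 1)) := by
      rw [Finset.mul_sum, Finset.mul_sum]
      refine Finset.sum_congr rfl fun z _ => ?_
      have := Psi_add DK Pi γ hγ hk hh (t * z) z
      have e2 : t * z + z = z * (t + 1) := by ring
      rw [e2] at this
      linear_combination (p : B) * this
    have e3 : ∑ z : K, Psi p h DK γ (z * (t + 1)) =
        ∑ z ∈ S, Psi p h DK γ (z * (t + 1)) + 1 := by
      rw [← Finset.sum_filter_add_sum_filter_not Finset.univ (fun y : K => y ≠ 0)]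
      congr 1
      have : (Finset.univ : Finset K).filter (fun y => ¬ (y ≠ 0)) = {0} := by
        ext y
        simp
      rw [this, Finset.sum_singleton, zero_mul, Psi_zero DK Pi γ hγ hk]
    have e4 := psi_sum_mul DK Pi γ hk hγ hh (t + 1)
    have e5 : (t + 1 = 0) ↔ t = -1 := eq_neg_iff_add_eq_zero.symm
    rw [e3] at e4
    simp only [e5] at e4
    rw [e1, mul_sub, ← e4]
    ring
  have h3 : ∑ t ∈ S, algebraMap A B (DK.τ t) ^ c = 0 := by
    have h1 := congrArg (algebraMap A B) (sum_tau_pow DK hk (gm_ndvd hc hc' hcc))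
    rw [map_sum, map_zero] at h1
    simp only [map_pow] at h1
    exact h1
  have h4 : ∑ t ∈ S, algebraMap A B (DK.τ t) ^ c * (if t = -1 then (p : B) ^ h else 0) =
      algebraMap A B (DK.τ (-1)) ^ c * (p : B) ^ h := by
    rw [Finset.sum_eq_single (-1 : K)]
    · rw [if_pos rfl]
    · intro t _ ht
      rw [if_neg ht, mul_zero]
    · intro hn
      exfalso
      apply hn
      simp [hS]
  rw [h1, Finset.mul_sum]
  have h5 : ∀ t ∈ S, (p : B) ^ 2 * (algebraMap A B (DK.τ t) ^ c *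
      ∑ z ∈ S, Psi p h DK γ (t * z) * Psi p h DK γ z) =
      (p : B) ^ 2 * (algebraMap A B (DK.τ t) ^ c * (if t = -1 then (p : B) ^ h else 0)) -
        (p : B) ^ 2 * algebraMap A B (DK.τ t) ^ c := by
    intro t _
    linear_combination (algebraMap A B (DK.τ t) ^ c) * h2 t
  rw [Finset.sum_congr rfl h5, Finset.sum_sub_distrib, ← Finset.mul_sum, ← Finset.mul_sum, h3, h4,
    mul_zero, sub_zero]

end

end HN
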