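import Pool.Agent.HN.GaussMul

/-! # HN/GaussSp : the special datum `n = 0`, `r = 1`, `s = 0`, `f = x_0^e` (module HN-22)

PLAN.  `kcount` for this type: `N' = 2`, `jnum δ w = k(1,w) - k(0,w) - k(0,w-1)`, `k(0,w) = [w ≥ 0]`,
`k(1,w) = 2 [w ≥ 0]` for `0 < δ < e` (components `{x}`: `e_x = δ + e w ≥ 1`, `{y}`).
`csum`: the support of `cayF` is the single monomial `y x^e`; for `x ≠ 0` substitute
`y ↦ y x^(-e)`, for `x = 0` the sum is `∑ [y]^c = 0`.
-/

open MvPolynomial

namespace HN

/-- the datum `f = x_0^e` on `ℙ^0` -/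
noncomputable def spD (F : Type*) [Field F] (e : ℕ) :
    Datum F 0 1 0 (fun _ => e) (fun j => j.elim0) where
  f := fun _ => X 0 ^ e
  h := fun j => j.elim0
  hf := fun _ => by simpa using (isHomogeneous_X F (0 : Fin 1)).pow e
  hh := fun j => j.elim0
  hreg := by simp

private theorem sp0 (v : Fin (0 + 1)) : v = 0 := Subsingleton.elim (α := Fin 1) v 0

theorem spD_condN (F K : Type*) [Field F] [Field K] [Algebra F K] (e : ℕ) :
    CondN K (spD F e) := by
  intro x hx _
  have hx0 : x 0 ≠ 0 := by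
    intro h
    apply hx
    funext v
    rw [sp0 v, h]
    rfl
  have hE : IsEmpty {i : Fin 1 // aeval x ((spD F e).f i) = 0} := by
    refine ⟨fun i => ?_⟩
    have h := i.2
    have h2 : aeval x ((spD F e).f i.1) = x 0 ^ e := by
      show aeval x (X 0 ^ e : MvPolynomial (Fin (0 + 1)) F) = _
      rw [map_pow, aeval_X]
    rw [h2] at h
    exact pow_ne_zero e hx0 h
  have hE2 : IsEmpty (Fin 0 ⊕ {i : Fin 1 // aeval x ((spD F e).f i) = 0}) := inferInstance
  exact @linearIndependent_empty_type _ _ _ _ _ _ _ hE2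

private theorem sp_Ys {e : ℕ} (he : 1 ≤ e) : (cayT 0 (fun _ : Fin 1 => e)
    (fun j : Fin 0 => j.elim0) (fun _ => he) (fun j => j.elim0)).Ys = {Sum.inr (Sum.inl 0)} := by
  rfl

private theorem sp_mem_kset {e : ℕ} (he : 1 ≤ e) {δ : ℤ} (h0 : 0 < δ) (j w : ℤ)
    (A : Finset (Vr 0 1 0)) (x : Vr 0 1 0 → ℤ) :
    (A, x) ∈ kset (cayT 0 (fun _ : Fin 1 => e) (fun j : Fin 0 => j.elim0) (fun _ => he)
      (fun j => j.elim0)) δ j w ↔
      (0 ≤ w ∧ (A.card : ℤ) = j ∧ x = Sum.elim (fun _ => δ + e * w) (fun _ => w)) := by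
  have hdeg : (cayT 0 (fun _ : Fin 1 => e) (fun j : Fin 0 => j.elim0) (fun _ => he)
      (fun j => j.elim0)).deg x = x (Sum.inl 0) - e * x (Sum.inr (Sum.inl 0)) := by
    unfold CType.deg
    rw [Fintype.sum_sum_type, Fintype.sum_sum_type]
    simp [cayT]
    ring
  have hwt : (cayT 0 (fun _ : Fin 1 => e) (fun j : Fin 0 => j.elim0) (fun _ => he)
      (fun j => j.elim0)).wt x = x (Sum.inr (Sum.inl 0)) := by
    unfold CType.wt
    have h : (cayT 0 (fun _ : Fin 1 => e) (fun j : Fin 0 => j.elim0) (fun _ => he)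
      (fun j => j.elim0)).Xsᶜ = {Sum.inr (Sum.inl 0)} := by
      ext v
      rcases v with v | v | v
      · simp [cayT]
      · simp [cayT, Subsingleton.elim (α := Fin 1) v 0]
      · exact v.elim0
    rw [h, Finset.sum_singleton]
  have hthy : (cayT 0 (fun _ : Fin 1 => e) (fun j : Fin 0 => j.elim0) (fun _ => he)
      (fun j => j.elim0)).thr (Sum.inr (Sum.inl 0)) A = 0 := by
    unfold CType.thr
    rw [sp_Ys]
    simp
  have hthx : (cayT 0 (fun _ : Fin 1 => e) (fun j : Fin 0 => j.elim0) (fun _ => he)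
      (fun j => j.elim0)).thr (Sum.inl 0) A ≤ 1 := by
    unfold CType.thr
    split_ifs <;> norm_num
  have hthx0 : 0 ≤ (cayT 0 (fun _ : Fin 1 => e) (fun j : Fin 0 => j.elim0) (fun _ => he)
      (fun j => j.elim0)).thr (Sum.inl 0) A := by
    unfold CType.thr
    split_ifs <;> norm_num
  unfold kset
  rw [Set.mem_ofPred_eq]
  simp only [hdeg, hwt]
  constructor
  · rintro ⟨h1, h2, h3, h4⟩
    have h5 := h3 (Sum.inr (Sum.inl 0))
    rw [hthy] at h5
    refine ⟨by omega, h1, ?_⟩
    funext v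
    rcases v with v | v | v
    · rw [sp0 v]
      simp only [Sum.elim_inl]
      rw [← h4]
      linarith
    · rw [sp0 v]
      simpa using h4
    · exact v.elim0
  · rintro ⟨h1, h2, rfl⟩
    simp only [Sum.elim_inl, Sum.elim_inr]
    refine ⟨h2, by ring, ?_, by trivial⟩
    have hew : (0 : ℤ) ≤ e * w := by positivity
    intro v
    rcases v with v | v | v
    · rw [sp0 v]
      simp only [Sum.elim_inl]
      linarith
    · rw [sp0 v]
      simp only [Sum.elim_inr]
      rw [hthy]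
      exact h1
    · exact v.elim0

private def spN (j : ℤ) : ℕ :=
  ((Finset.univ : Finset (Finset (Vr 0 1 0))).filter (fun A => (A.card : ℤ) = j)).card

private theorem sp_kcount {e : ℕ} (he : 1 ≤ e) {δ : ℤ} (h0 : 0 < δ) (j w : ℤ) :
    kcount (cayT 0 (fun _ : Fin 1 => e) (fun j : Fin 0 => j.elim0) (fun _ => he)
      (fun j => j.elim0)) δ j w =
      if 0 ≤ w then spN j else 0 := by
  classical
  unfold kcount spN
  split_ifs with hw
  · have h1 : kset (cayT 0 (fun _ : Fin 1 => e) (fun j : Fin 0 => j.elim0) (fun _ => he)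
      (fun j => j.elim0)) δ j w =
        (((Finset.univ : Finset (Finset (Vr 0 1 0))).filter (fun A => (A.card : ℤ) = j)).image
          (fun A => (A, (Sum.elim (fun _ => δ + e * w) (fun _ => w) : Vr 0 1 0 → ℤ))) :
          Finset _) := by
      ext ⟨A, x⟩
      rw [sp_mem_kset he h0]
      simp only [Finset.coe_image, Finset.coe_filter, Finset.mem_univ, true_and, Set.mem_image,
        Set.mem_ofPred_eq, Prod.mk.injEq]
      constructor
      · rintro ⟨_, h2, rfl⟩
        exact ⟨A, h2, rfl, rfl⟩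
      · rintro ⟨A', h2, rfl, rfl⟩
        exact ⟨hw, h2, rfl⟩
    rw [h1, Set.ncard_coe_finset, Finset.card_image_of_injective]
    intro A A' h
    exact (Prod.mk.inj h).1
  · have h1 : kset (cayT 0 (fun _ : Fin 1 => e) (fun j : Fin 0 => j.elim0) (fun _ => he)
      (fun j => j.elim0)) δ j w = ∅ := by
      ext ⟨A, x⟩
      rw [sp_mem_kset he h0]
      simp [hw]
    rw [h1, Set.ncard_empty]

theorem sp_jnum {e : ℕ} (he : 1 ≤ e) {δ : ℤ} (h0 : 0 < δ) (h1 : δ < e) (w : ℤ) :
    jnum (cayT 0 (fun _ : Fin 1 => e) (fun j : Fin 0 => j.elim0) (fun _ => he)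
      (fun j => j.elim0)) δ w = if w = 0 then 1 else 0 := by
  have hcard : Fintype.card (Vr 0 1 0) = 2 := by simp
  unfold jnum
  rw [hcard]
  simp only [Finset.sum_range_succ, Finset.sum_range_zero, sp_kcount he h0]
  have c1 : spN 1 = 2 := by decide
  have c0 : spN 0 = 1 := by decide
  have cm : spN (-1) = 0 := by decide
  norm_num [c1, c0, cm]
  split_ifs <;> first | omega | norm_num

private theorem sp_cayF (F : Type*) [Field F] (e : ℕ) :
    cayF (spD F e) = monomial (Finsupp.single (Sum.inr (Sum.inl 0)) 1 +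
      Finsupp.single (Sum.inl 0) e : Vr 0 1 0 →₀ ℕ) (1 : F) := by
  unfold cayF
  have h1 : ∀ i : Fin 1, (spD F e).f i = X 0 ^ e := fun i => rfl
  simp only [h1, Finset.univ_eq_empty, Finset.sum_empty, add_zero, Finset.univ_unique,
    Finset.sum_singleton, map_pow, rename_X]
  rw [monomial_add_single]
  rfl

private def spE (K : Type*) : (Vr 0 1 0 → K) ≃ K × K where
  toFun ζ := (ζ (Sum.inl 0), ζ (Sum.inr (Sum.inl 0)))
  invFun q := Sum.elim (fun _ => q.1) (Sum.elim (fun _ => q.2) (fun j => j.elim0))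
  left_inv ζ := by
    funext v
    rcases v with v | v | v
    · rw [sp0 v]
      rfl
    · rw [sp0 v]
      rfl
    · exact v.elim0
  right_inv q := rfl

theorem sp_csum {p k h a : ℕ} [Fact p.Prime] {F K A B : Type*} [Field F] [Field K] [Fintype K]
    [Algebra F K] [CommRing A] [CommRing B] [Algebra ℤ_[p] B] [Algebra A B] (DK : WD p k K A)
    (Pi : PiData p k A) (γ : B) (hk : 1 ≤ k) (hγ : γ ^ (p - 1) = algebraMap A B (p * Pi.u))
    {e : ℕ} (he : 1 ≤ e) (c : ℕ) (hc : ¬ (Fintype.card K - 1) ∣ c)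
    (hec : (Fintype.card K - 1) ∣ e * c) (cc : Vr 0 1 0 → ℕ)
    (hcc : cc (Sum.inr (Sum.inl 0)) = c) :
    csum p h (cayT 0 (fun _ : Fin 1 => e) (fun j : Fin 0 => j.elim0) (fun _ => he)
      (fun j => j.elim0)) (cayF (spD F e)) DK γ cc
      = ((Fintype.card K : B) - 1) * gsum p h DK γ c := by
  classical
  have hsupp : (cayF (spD F e)).support = {(Finsupp.single (Sum.inr (Sum.inl 0)) 1 +
      Finsupp.single (Sum.inl 0) e : Vr 0 1 0 →₀ ℕ)} := by
    rw [sp_cayF, support_monomial, if_neg one_ne_zero]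
  have hco : (cayF (spD F e)).coeff (Finsupp.single (Sum.inr (Sum.inl 0)) 1 +
      Finsupp.single (Sum.inl 0) e : Vr 0 1 0 →₀ ℕ) = 1 := by
    rw [sp_cayF, coeff_monomial, if_pos rfl]
  have hprod : ∀ ζ : Vr 0 1 0 → K, ∏ v, ζ v ^ (Finsupp.single (Sum.inr (Sum.inl 0)) 1 +
      Finsupp.single (Sum.inl 0) e : Vr 0 1 0 →₀ ℕ) v =
      ζ (Sum.inr (Sum.inl 0)) * ζ (Sum.inl 0) ^ e := by
    intro ζ
    rw [Fintype.prod_sum_type, Fintype.prod_sum_type]
    simp [mul_comm]
  unfold csum
  rw [hsupp, sp_Ys]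
  simp only [Finset.prod_singleton, hco, map_one, one_mul, hprod, hcc, Finset.mem_singleton,
    forall_eq]
  rw [Finset.sum_filter]
  have hE : (∑ ζ : Vr 0 1 0 → K, if ζ (Sum.inr (Sum.inl 0)) ≠ 0 then
      Psi p h DK γ (ζ (Sum.inr (Sum.inl 0)) * ζ (Sum.inl 0) ^ e) *
        algebraMap A B (DK.τ (ζ (Sum.inr (Sum.inl 0)))) ^ c else 0) =
      ∑ q : K × K, if q.2 ≠ 0 then
        Psi p h DK γ (q.2 * q.1 ^ e) * algebraMap A B (DK.τ q.2) ^ c else 0 :=
    Fintype.sum_equiv (spE K) _ _ (fun ζ => rfl)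
  rw [hE, Fintype.sum_prod_type]
  have hx : ∀ x : K, ∑ y : K, (if y ≠ 0 then
      Psi p h DK γ (y * x ^ e) * algebraMap A B (DK.τ y) ^ c else 0) =
      if x = 0 then 0 else gsum p h DK γ c := by
    intro x
    rw [← Finset.sum_filter]
    split_ifs with hx0
    · have h1 : ∀ y ∈ (Finset.univ : Finset K).filter (fun y => y ≠ 0),
          Psi p h DK γ (y * x ^ e) * algebraMap A B (DK.τ y) ^ c =
            algebraMap A B (DK.τ y ^ c) := by
        intro y _
        rw [hx0, zero_pow (by omega), mul_zero, Psi_zero DK Pi γ hγ hk, one_mul, map_pow]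
      rw [Finset.sum_congr rfl h1, ← map_sum]
      have h2 := sum_tau_pow DK hk hc
      rw [show (∑ y ∈ (Finset.univ : Finset K).filter (fun y => y ≠ 0), DK.τ y ^ c) = 0 by
        convert h2, map_zero]
    · unfold gsum
      have hxe : x ^ e ≠ 0 := pow_ne_zero e hx0
      refine Finset.sum_bij' (fun y _ => y * x ^ e) (fun y _ => y * (x ^ e)⁻¹) ?_ ?_ ?_ ?_ ?_
      · intro y hy
        have hy0 := (Finset.mem_filter.1 hy).2
        exact Finset.mem_filter.2 ⟨Finset.mem_univ _, mul_ne_zero hy0 hxe⟩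
      · intro y hy
        have hy0 := (Finset.mem_filter.1 hy).2
        exact Finset.mem_filter.2 ⟨Finset.mem_univ _, mul_ne_zero hy0 (inv_ne_zero hxe)⟩
      · intro y _
        rw [mul_assoc, mul_inv_cancel₀ hxe, mul_one]
      · intro y _
        rw [mul_assoc, inv_mul_cancel₀ hxe, mul_one]
      · intro y _
        have h3 : (x ^ e) ^ c = 1 := by
          rw [← pow_mul]
          obtain ⟨t, ht⟩ := hec
          rw [ht, pow_mul, FiniteField.pow_card_sub_one_eq_one x hx0, one_pow]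
        have h4 : DK.τ (y * x ^ e) ^ c = DK.τ y ^ c := by
          rw [← map_pow, mul_pow, h3, mul_one, map_pow]
        rw [← map_pow (algebraMap A B), ← map_pow (algebraMap A B), h4]
  simp only [hx]
  rw [Finset.sum_ite, Finset.sum_const_zero, zero_add, Finset.sum_const, nsmul_eq_mul]
  congr 1
  have h5 : ((Finset.univ : Finset K).filter (fun x => ¬ x = 0)).card = Fintype.card K - 1 := by
    rw [Finset.filter_not, Finset.filter_eq' Finset.univ (0 : K), if_pos (Finset.mem_univ _),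
      Finset.card_sdiff_of_subset (Finset.subset_univ _), Finset.card_singleton, Finset.card_univ]
  rw [h5, Nat.cast_sub Fintype.card_pos, Nat.cast_one]

end HN
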