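import Pool.Agent.HN.PSer

/-! # HN/GjL : the polynomials `G_{j,v}` (module HND-18)

PLAN.  `coeff_Gj`: `coeff_sum`, `coeff_monomial`.  `Gj_mon`: a monomial of `Gj W f j v` is `p^j • μ`,
`μ ∈ f.support`, `μ v ≠ 0`; `deg`, `wt` are additive, `C.Hom f`.  `Gj_sym`: both sides are
`∑_{μ ∈ f.support, p^j • μ = m} p^j μ_u μ_v τ(..)^(p^j)`.  `Gj_eul`: `∑_v wd_v μ_v = deg μ = 0`.
`Gj_red`: `τ` is a section of `π`; both sides have the coefficients `μ_v a_μ`.
-/

open MvPolynomial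

namespace HN

section
variable {ι : Type*} [Fintype ι] [DecidableEq ι] {F R : Type*} [Field F] [CommRing R]
variable {C : CType ι} {p k : ℕ}

theorem coeff_Gj (W : WD p k F R) (f : MvPolynomial ι F) (j : ℕ) (v : ι) (m : ι →₀ ℕ) :
    (Gj W f j v).coeff m = ∑ μ ∈ f.support, if p ^ j • μ = m then
      (μ v : R) * W.τ (f.coeff μ) ^ p ^ j else 0 := by
  classical
  unfold Gj
  rw [coeff_sum]
  refine Finset.sum_congr rfl fun μ _ => ?_
  rw [coeff_monomial]

theorem Gj_mon (hp : p.Prime) (W : WD p k F R) {f : MvPolynomial ι F} (hF : C.Hom f) (j : ℕ)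
    (v : ι) (m : ι →₀ ℕ) (hm : (Gj W f j v).coeff m ≠ 0) :
    C.deg (fun u => (m u : ℤ)) = 0 ∧ C.wt (fun u => (m u : ℤ)) = (p : ℤ) ^ j ∧ 1 ≤ m v := by
  classical
  rw [coeff_Gj] at hm
  obtain ⟨μ, hμ, h0⟩ := Finset.exists_ne_zero_of_sum_ne_zero hm
  by_cases h : p ^ j • μ = m
  · rw [if_pos h] at h0
    have h1 : μ v ≠ 0 := by
      intro h2
      apply h0
      rw [h2, Nat.cast_zero, zero_mul]
    obtain ⟨hd, hw⟩ := hF μ (mem_support_iff.1 hμ)
    have hmu : ∀ u, (m u : ℤ) = (p : ℤ) ^ j * (μ u : ℤ) := by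
      intro u
      rw [← h, Finsupp.smul_apply, smul_eq_mul]
      push_cast
      rfl
    refine ⟨?_, ?_, ?_⟩
    · unfold CType.deg at hd ⊢
      have h3 : ∑ u, C.wd u * (m u : ℤ) = (p : ℤ) ^ j * ∑ u, C.wd u * (μ u : ℤ) := by
        rw [Finset.mul_sum]
        refine Finset.sum_congr rfl fun u _ => ?_
        rw [hmu]
        ring
      rw [h3, hd, mul_zero]
    · unfold CType.wt at hw ⊢
      have h3 : ∑ u ∈ C.Xsᶜ, (m u : ℤ) = (p : ℤ) ^ j * ∑ u ∈ C.Xsᶜ, (μ u : ℤ) := by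
        rw [Finset.mul_sum]
        refine Finset.sum_congr rfl fun u _ => ?_
        rw [hmu]
      rw [h3, hw, mul_one]
    · rw [← h, Finsupp.smul_apply, smul_eq_mul]
      exact Nat.one_le_iff_ne_zero.2 (Nat.mul_ne_zero (pow_ne_zero _ hp.ne_zero) h1)
  · rw [if_neg h] at h0
    exact absurd rfl h0

theorem Gj_sym (W : WD p k F R) (f : MvPolynomial ι F) (j : ℕ) (u v : ι) (m : ι →₀ ℕ) :
    (m u : R) * (Gj W f j v).coeff m = (m v : R) * (Gj W f j u).coeff m := by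
  classical
  rw [coeff_Gj, coeff_Gj, Finset.mul_sum, Finset.mul_sum]
  refine Finset.sum_congr rfl fun μ _ => ?_
  by_cases h : p ^ j • μ = m
  · rw [if_pos h, if_pos h, ← h, Finsupp.smul_apply, Finsupp.smul_apply, smul_eq_mul, smul_eq_mul]
    push_cast
    ring
  · rw [if_neg h, if_neg h, mul_zero, mul_zero]

theorem Gj_eul (W : WD p k F R) {f : MvPolynomial ι F} (hF : C.Hom f) (j : ℕ) :
    ∑ v, (C.wd v : R) • Gj W f j v = 0 := by
  classical
  ext m
  rw [coeff_sum, coeff_zero]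
  have h1 : ∀ v, coeff m ((C.wd v : R) • Gj W f j v) = ∑ μ ∈ f.support,
      if p ^ j • μ = m then (C.wd v : R) * ((μ v : R) * W.τ (f.coeff μ) ^ p ^ j) else 0 := by
    intro v
    rw [coeff_smul, coeff_Gj, smul_eq_mul, Finset.mul_sum]
    refine Finset.sum_congr rfl fun μ _ => ?_
    rw [mul_ite, mul_zero]
  simp_rw [h1]
  rw [Finset.sum_comm]
  refine Finset.sum_eq_zero fun μ hμ => ?_
  by_cases h : p ^ j • μ = m
  · simp_rw [if_pos h]
    have hd := (hF μ (mem_support_iff.1 hμ)).1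
    unfold CType.deg at hd
    have h2 : ∑ v, (C.wd v : R) * ((μ v : R) * W.τ (f.coeff μ) ^ p ^ j)
        = ((∑ v, C.wd v * (μ v : ℤ) : ℤ) : R) * W.τ (f.coeff μ) ^ p ^ j := by
      rw [Int.cast_sum, Finset.sum_mul]
      refine Finset.sum_congr rfl fun v _ => ?_
      push_cast
      ring
    rw [h2, hd, Int.cast_zero, zero_mul]
  · simp_rw [if_neg h]
    exact Finset.sum_const_zero

theorem Gj_red (W : WD p k F R) (f : MvPolynomial ι F) (v : ι) :
    map W.π (Gj W f 0 v) = X v * pderiv v f := by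
  classical
  conv_rhs => rw [f.as_sum]
  rw [map_sum, Finset.mul_sum]
  unfold Gj
  rw [map_sum]
  refine Finset.sum_congr rfl fun μ _ => ?_
  rw [map_monomial, X_mul_pderiv_monomial, pow_zero, one_smul, pow_one, map_mul, map_natCast,
    W.πτ, ← map_nsmul, nsmul_eq_mul]

/-- a monomial of `hG` has degree `0` and contains `v` -/
theorem hG_mon (hp : p.Prime) (W : WD p k F R) (Pi : PiData p k R) {f : MvPolynomial ι F}
    (hF : C.Hom f) (v : ι) (m : ι →₀ ℕ) (hm : (hG W Pi f v).coeff m ≠ 0) :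
    C.deg (fun u => (m u : ℤ)) = 0 ∧ 1 ≤ m v := by
  classical
  unfold hG at hm
  rw [coeff_sum] at hm
  obtain ⟨j, hj, h0⟩ := Finset.exists_ne_zero_of_sum_ne_zero hm
  rw [coeff_smul] at h0
  have h1 : (Gj W f j v).coeff m ≠ 0 := by
    intro h
    rw [h, smul_zero] at h0
    exact h0 rfl
  obtain ⟨ha, -, hb⟩ := Gj_mon hp W hF j v m h1
  exact ⟨ha, hb⟩

end

end HN
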