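import Pool.Agent.HN.Cmp
import Pool.Agent.HN.AddChar

/-! # HN/HBp : the product `∏_l ∏_μ E(γ [a_μ]^{p^l} X^{p^l μ})` as a polynomial (module HND-29)

PLAN.  `coe_HB`: `map ρ (Fh W (f l)) = ∏_μ ems E (ρ (τ (coeff μ (f l)))) μ` (`map_ems`, `map_prod`),
`(f l).support = (f 0).support`, `coeff μ (f l) = (coeff μ (f 0))^(p^l)` (induction on `l` from `hf`),
`sc_ems` with `wN μ = 1` (`C.Hom`), `expand_ems`; finally `ems E a ν` (`ν ≠ 0`, `a^N = 0`) is the
polynomial `∑_{n<N} monomial (n • ν) (E_n a^n)`.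
`eval_HB`: `map_prod`, `eval_monomial`; `∏_v T(ζ v)^((n p^l μ) v) = (T (∏ ζ^μ)^(p^l))^n`, and
`nev_eq` with `x^N = 0` (`x = γ * ..`).
`HB_mon`: a monomial of `HB` is `∑ n_{l,μ} p^l μ` with all `n_{l,μ} < N`: degree `0`, and weight
`< NN := L * card * N * p^L + 1` (any bound is fine).
-/

open MvPolynomial
namespace HN

section
variable {ι : Type*} [Fintype ι] [DecidableEq ι] {F R B K : Type*} [Field F] [CommRing R]
  [CommRing B] [Field K]
variable {p k : ℕ} [hp : Fact p.Prime] [Algebra ℤ_[p] R] [Algebra ℤ_[p] B]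

variable (p) in
/-- `∏_{l<L} ∏_μ ∑_{n<N} E_n (γ T(a_μ)^{p^l})^n X^{n p^l μ}` -/
noncomputable def HB (γ : B) (T : F → B) (f : MvPolynomial ι F) (L N : ℕ) : MvPolynomial ι B :=
  ∏ l ∈ Finset.range L, ∏ μ ∈ f.support, ∑ n ∈ Finset.range N,
    monomial (n • p ^ l • μ)
      (algebraMap ℤ_[p] B (PowerSeries.coeff n (AH p)) * (γ * T (f.coeff μ) ^ p ^ l) ^ n)

omit [DecidableEq ι] in
theorem HBp_tN_smul (n : ℕ) (ν : ι →₀ ℕ) : tN (n • ν) = n * tN ν := by
  unfold tN
  rw [Finset.mul_sum]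
  exact Finset.sum_congr rfl fun v _ => by rw [Finsupp.smul_apply, smul_eq_mul]

omit [DecidableEq ι] in
theorem HBp_tN_pos {ν : ι →₀ ℕ} (hν : ν ≠ 0) : 1 ≤ tN ν := by
  obtain ⟨v, hv⟩ : ∃ v, ν v ≠ 0 := by
    by_contra h
    push Not at h
    exact hν (Finsupp.ext h)
  unfold tN
  exact le_trans (Nat.one_le_iff_ne_zero.mpr hv)
    (Finset.single_le_sum (f := fun v => ν v) (fun _ _ => Nat.zero_le _) (Finset.mem_univ v))

theorem HBp_ems {S : Type*} [CommRing S] [Algebra S B] (E : PowerSeries S) (a : B)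
    {ν : ι →₀ ℕ} (hν : ν ≠ 0) {N : ℕ} (ha : a ^ N = 0) :
    ((∑ n ∈ Finset.range N, monomial (n • ν) (algebraMap S B (PowerSeries.coeff n E) * a ^ n) :
      MvPolynomial ι B) : MvPowerSeries ι B) = ems E a ν := by
  ext m
  rw [coeff_ems, MvPolynomial.coeff_coe, MvPolynomial.coeff_sum]
  simp only [MvPolynomial.coeff_monomial]
  have h1 : ∀ M, ∑ n ∈ Finset.range (N + M), (if n • ν = m then
      algebraMap S B (PowerSeries.coeff n E) * a ^ n else 0)
      = ∑ n ∈ Finset.range N, (if n • ν = m then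
      algebraMap S B (PowerSeries.coeff n E) * a ^ n else 0) := by
    intro M
    symm
    refine Finset.sum_subset (Finset.range_mono (Nat.le_add_right _ _)) ?_
    intro n _ hn
    rw [Finset.mem_range, not_lt] at hn
    rw [pow_eq_zero_of_le hn ha, mul_zero, ite_self]
  have h2 : ∀ M, ∑ n ∈ Finset.range (tN m + 1 + M), (if n • ν = m then
      algebraMap S B (PowerSeries.coeff n E) * a ^ n else 0)
      = ∑ n ∈ Finset.range (tN m + 1), (if n • ν = m then
      algebraMap S B (PowerSeries.coeff n E) * a ^ n else 0) := by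
    intro M
    symm
    refine Finset.sum_subset (Finset.range_mono (Nat.le_add_right _ _)) ?_
    intro n _ hn
    rw [Finset.mem_range, not_lt] at hn
    rw [if_neg]
    rintro rfl
    rw [HBp_tN_smul] at hn
    have h3 := HBp_tN_pos hν
    have h4 : n * 1 ≤ n * tN ν := Nat.mul_le_mul_left n h3
    omega
  rw [← h1 (tN m + 1), ← h2 N, Nat.add_comm]

omit [Fintype ι] [DecidableEq ι] hp in
theorem HBp_coeff {f : ℕ → MvPolynomial ι F}
    (hf : ∀ l m, (f (l + 1)).coeff m = (f l).coeff m ^ p) (l : ℕ) (m : ι →₀ ℕ) :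
    (f l).coeff m = (f 0).coeff m ^ p ^ l := by
  induction l with
  | zero => rw [pow_zero, pow_one]
  | succ l ih => rw [hf, ih, ← pow_mul, ← pow_succ]

theorem HBp_support {f : ℕ → MvPolynomial ι F}
    (hf : ∀ l m, (f (l + 1)).coeff m = (f l).coeff m ^ p) (l : ℕ) :
    (f l).support = (f 0).support := by
  ext m
  rw [MvPolynomial.mem_support_iff, MvPolynomial.mem_support_iff, HBp_coeff hf l m]
  exact not_congr (pow_eq_zero_iff (pow_ne_zero _ hp.out.ne_zero))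

theorem HBp_wN {C : CType ι} {f : MvPolynomial ι F} (hF : C.Hom f) {μ : ι →₀ ℕ}
    (hμ : μ ∈ f.support) : wN C μ = 1 := by
  have h1 := (hF μ (MvPolynomial.mem_support_iff.mp hμ)).2
  have h2 := wN_eq C μ
  have h3 : (wN C μ : ℤ) = 1 := h2.trans h1
  exact_mod_cast h3

theorem HBp_ne {C : CType ι} {f : MvPolynomial ι F} (hF : C.Hom f) {μ : ι →₀ ℕ}
    (hμ : μ ∈ f.support) : μ ≠ 0 := by
  rintro rfl
  have h1 := HBp_wN hF hμ
  unfold wN at h1
  simp at h1

theorem coe_HB {C : CType ι} (W : WD p k F R) {f : ℕ → MvPolynomial ι F} (hF : C.Hom (f 0))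
    (hf : ∀ l m, (f (l + 1)).coeff m = (f l).coeff m ^ p) (ρ : R →ₐ[ℤ_[p]] B) {γ : B} {N : ℕ}
    (hγ : γ ^ N = 0) (L : ℕ) :
    ((HB p γ (fun x => ρ (W.τ x)) (f 0) L N : MvPolynomial ι B) : MvPowerSeries ι B)
      = hd C hp.out.ne_zero γ (fun l => MvPowerSeries.map (ρ : R →+* B) (Fh W (f l))) L := by
  unfold HB hd
  have h0 : ∀ P : MvPolynomial ι B, (P : MvPowerSeries ι B)
      = MvPolynomial.coeToMvPowerSeries.ringHom P := fun P => rfl
  rw [h0, map_prod]
  refine Finset.prod_congr rfl fun l _ => ?_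
  rw [map_prod]
  have h1 : MvPowerSeries.map (ρ : R →+* B) (Fh W (f l))
      = ∏ μ ∈ (f 0).support, ems (AH p) (ρ (W.τ ((f 0).coeff μ)) ^ p ^ l) μ := by
    unfold Fh
    rw [map_prod, HBp_support hf l]
    refine Finset.prod_congr rfl fun μ _ => ?_
    rw [map_ems, HBp_coeff hf l μ, map_pow, map_pow]
  beta_reduce
  rw [h1, map_prod, map_prod]
  refine Finset.prod_congr rfl fun μ hμ => ?_
  have hμ0 := HBp_ne hF hμ
  rw [sc_ems C γ _ _ hμ0, expand_ems _ _ _ hμ0, HBp_wN hF hμ, pow_one, ← h0]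
  refine HBp_ems (AH p) _ ?_ ?_
  · intro h2
    apply hμ0
    ext v
    have h3 := DFunLike.congr_fun h2 v
    rw [Finsupp.smul_apply, smul_eq_mul, Finsupp.zero_apply, Nat.mul_eq_zero] at h3
    rcases h3 with h3 | h3
    · exact absurd h3 (pow_ne_zero _ hp.out.ne_zero)
    · exact h3
  · rw [mul_pow, hγ, zero_mul]

theorem eval_HB {T : F → B} {S : K →*₀ B} {φ : F →+* K} (hT : ∀ x, T x = S (φ x)) {γ : B} {N : ℕ}
    (hγ : γ ^ N = 0) (f : MvPolynomial ι F) (L : ℕ) (ζ : ι → K) :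
    eval (fun v => S (ζ v)) (HB p γ T f L N)
      = ∏ μ ∈ f.support, ∏ l ∈ Finset.range L,
          nev (AH p) (γ * S (φ (f.coeff μ) * ∏ v, ζ v ^ μ v) ^ p ^ l) := by
  unfold HB
  rw [map_prod, Finset.prod_comm]
  refine Finset.prod_congr rfl fun l _ => ?_
  rw [map_prod]
  refine Finset.prod_congr rfl fun μ _ => ?_
  rw [map_sum, nev_eq (AH p) (L := N) (by rw [mul_pow, hγ, zero_mul])]
  refine Finset.sum_congr rfl fun n _ => ?_
  rw [eval_monomial, Finsupp.prod_fintype _ _ (fun v => pow_zero _), hT, mul_assoc]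
  congr 1
  have h1 : ∏ v, S (ζ v) ^ (n • p ^ l • μ) v = (S (∏ v, ζ v ^ μ v) ^ p ^ l) ^ n := by
    rw [map_prod, ← Finset.prod_pow, ← Finset.prod_pow]
    refine Finset.prod_congr rfl fun v _ => ?_
    rw [map_pow, ← pow_mul, ← pow_mul, Finsupp.smul_apply, Finsupp.smul_apply, smul_eq_mul,
      smul_eq_mul]
    congr 1
    ring
  rw [h1, ← mul_pow]
  congr 1
  rw [map_mul, mul_pow, mul_assoc]

theorem HBp_deg_add (C : CType ι) (m n : ι →₀ ℕ) :
    C.deg (zz (m + n)) = C.deg (zz m) + C.deg (zz n) := by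
  unfold CType.deg zz
  rw [← Finset.sum_add_distrib]
  refine Finset.sum_congr rfl fun v _ => ?_
  rw [Finsupp.add_apply]
  push_cast
  ring

theorem HBp_deg_smul (C : CType ι) (j : ℕ) (n : ι →₀ ℕ) :
    C.deg (zz (j • n)) = j * C.deg (zz n) := by
  unfold CType.deg zz
  rw [Finset.mul_sum]
  refine Finset.sum_congr rfl fun v _ => ?_
  rw [Finsupp.smul_apply, smul_eq_mul]
  push_cast
  ring

theorem HB_mon {C : CType ι} {f : MvPolynomial ι F} (hF : C.Hom f) (γ : B) (T : F → B) (L N : ℕ) :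
    ∃ NN : ℕ, ∀ m, (HB p γ T f L N).coeff m ≠ 0 → C.deg (zz m) = 0 ∧ wN C m < NN := by
  have hmul : ∀ P Q : MvPolynomial ι B, (∀ m, P.coeff m ≠ 0 → C.deg (zz m) = 0) →
      (∀ m, Q.coeff m ≠ 0 → C.deg (zz m) = 0) →
      (∀ m, (P * Q).coeff m ≠ 0 → C.deg (zz m) = 0) := by
    intro P Q hP hQ m hm
    rw [MvPolynomial.coeff_mul] at hm
    obtain ⟨x, hx, hx0⟩ := Finset.exists_ne_zero_of_sum_ne_zero hm
    have h1 : P.coeff x.1 ≠ 0 := left_ne_zero_of_mul hx0
    have h2 : Q.coeff x.2 ≠ 0 := right_ne_zero_of_mul hx0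
    rw [← Finset.HasAntidiagonal.mem_antidiagonal.mp hx, HBp_deg_add, hP _ h1, hQ _ h2, add_zero]
  have hone : ∀ m, (1 : MvPolynomial ι B).coeff m ≠ 0 → C.deg (zz m) = 0 := by
    intro m hm
    rw [MvPolynomial.coeff_one] at hm
    have h1 : 0 = m := by
      by_contra h
      rw [if_neg h] at hm
      exact hm rfl
    rw [← h1]
    unfold CType.deg zz
    simp
  have hdeg : ∀ m, (HB p γ T f L N).coeff m ≠ 0 → C.deg (zz m) = 0 := by
    unfold HB
    refine Finset.prod_induction _ (fun P : MvPolynomial ι B => ∀ m, P.coeff m ≠ 0 →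
      C.deg (zz m) = 0) hmul hone ?_
    intro l _
    refine Finset.prod_induction _ (fun P : MvPolynomial ι B => ∀ m, P.coeff m ≠ 0 →
      C.deg (zz m) = 0) hmul hone ?_
    intro μ hμ m hm
    rw [MvPolynomial.coeff_sum] at hm
    obtain ⟨n, _, hn0⟩ := Finset.exists_ne_zero_of_sum_ne_zero hm
    rw [MvPolynomial.coeff_monomial] at hn0
    have h1 : n • p ^ l • μ = m := by
      by_contra h
      rw [if_neg h] at hn0
      exact hn0 rfl
    rw [← h1, HBp_deg_smul, HBp_deg_smul]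
    have h2 : C.deg (zz μ) = 0 := (hF μ (MvPolynomial.mem_support_iff.mp hμ)).1
    rw [h2, mul_zero, mul_zero]
  refine ⟨(HB p γ T f L N).support.sup (wN C) + 1, fun m hm => ⟨hdeg m hm, ?_⟩⟩
  exact Nat.lt_succ_of_le (Finset.le_sup (f := wN C) (MvPolynomial.mem_support_iff.mpr hm))

end

end HN
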