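import Pool.Agent.HN.STr

/-! # HN/Hpy : existence of the homotopy (module HND-14)

PLAN.  Linear maps out of `V` are defined on the basis (`b.constr`).
(top) for `dgr i = M` write `b i = ∑ c j • g₁ j + D y` (`H1`): `q₁ (b i) = c`, `h (b i) = y`; for
`x ∈ gr M`: `x = g₁ (q₁ x) + D (h x)`; by `H1u` `q₁ (D y) = 0` for `y ∈ gr (M-1)` and `q₁ (g₁ c) = c`.
(M-1) for `x ∈ gr (M-1)`, `ρ x = x - h (D x)` is closed; for `dgr i = M - 1` write
`ρ (b i) = ∑ c j • g₀ j + D y` (`H2`): `q₀ (b i) = c`, `h (b i) = y`; `H2u`: `q₀ (D y) = 0` for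
`y ∈ gr (M-2)` (`ρ (D y) = D y`), `q₀ (g₀ c) = c` (`ρ` is the identity on closed elements).
(below) downward induction on `j ≤ M - 2`: for `x ∈ gr j`, `ρ x = x - h (D x)` is closed:
`D (ρ x) = D x - D h (D x) = h (D (D x)) + g (q (D x)) = 0`; `H3`: `ρ (b i) = D y`, `h (b i) = y`.
The statement for the induction: for each `j` there is a linear `h` with `h (b i) ∈ gr (dgr i - 1)`
for all `i` and `D (h x) + h (D x) = x - g (q x)` for all `x ∈ gr i`, `i ≥ j`; modifying `h` on the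
basis vectors of degree `j` does not change it on `gr (j+1)`, `gr (j+2)`, ...
Finally every `x` is a sum of its components.
-/

namespace HN

section
variable {R V I : Type*} [CommRing R] [AddCommGroup V] [Module R V]

/-- graded piece -/
def gr (b : Module.Basis I R V) (dgr : I → ℕ) (j : ℤ) : Submodule R V where
  carrier := {x | ∀ i, b.repr x i ≠ 0 → (dgr i : ℤ) = j}
  zero_mem' := by intro i h; simp at h
  add_mem' {x y} hx hy := by
    intro i h
    by_cases h1 : b.repr x i = 0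
    · exact hy i (by intro h2; exact h (by simp [h1, h2]))
    · exact hx i h1
  smul_mem' c x hx := by
    intro i h
    exact hx i (by intro h1; exact h (by simp [h1]))

/-- cohomology only in degrees `M - 1`, `M`, with bases `g₀`, `g₁` -/
structure HC (b : Module.Basis I R V) (dgr : I → ℕ) (M : ℕ) (D : V →ₗ[R] V) {J : Type*}
    [Fintype J] (g₁ g₀ : J → V) : Prop where
  le : ∀ i, dgr i ≤ M
  hD : ∀ j, ∀ x ∈ gr b dgr j, D x ∈ gr b dgr (j + 1)
  DD : ∀ x, D (D x) = 0
  m1 : ∀ j, g₁ j ∈ gr b dgr M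
  m0 : ∀ j, g₀ j ∈ gr b dgr ((M : ℤ) - 1)
  D0 : ∀ j, D (g₀ j) = 0
  H1 : ∀ x ∈ gr b dgr M, ∃ c : J → R, ∃ y ∈ gr b dgr ((M : ℤ) - 1), x = ∑ j, c j • g₁ j + D y
  H1u : ∀ c : J → R, ∀ y ∈ gr b dgr ((M : ℤ) - 1), ∑ j, c j • g₁ j = D y → c = 0
  H2 : ∀ x ∈ gr b dgr ((M : ℤ) - 1), D x = 0 → ∃ c : J → R, ∃ y ∈ gr b dgr ((M : ℤ) - 2),
    x = ∑ j, c j • g₀ j + D y
  H2u : ∀ c : J → R, ∀ y ∈ gr b dgr ((M : ℤ) - 2), ∑ j, c j • g₀ j = D y → c = 0
  H3 : ∀ j, j < (M : ℤ) - 1 → ∀ x ∈ gr b dgr j, D x = 0 → ∃ y ∈ gr b dgr (j - 1), D y = x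

/-- `(c₁, c₀) ↦ ∑ c₁ j g₁ j + ∑ c₀ j g₀ j` -/
def gmap {J : Type*} [Fintype J] (g₁ g₀ : J → V) : (J ⊕ J → R) →ₗ[R] V where
  toFun c := ∑ j, c (Sum.inl j) • g₁ j + ∑ j, c (Sum.inr j) • g₀ j
  map_add' x y := by
    simp only [Pi.add_apply, add_smul, Finset.sum_add_distrib]
    abel
  map_smul' c x := by
    simp only [Pi.smul_apply, smul_eq_mul, mul_smul, Finset.smul_sum, smul_add, RingHom.id_apply]

theorem basis_mem_gr (b : Module.Basis I R V) (dgr : I → ℕ) (i : I) : b i ∈ gr b dgr (dgr i) := by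
  classical
  intro k hk
  rw [b.repr_self, Finsupp.single_apply] at hk
  by_cases h : i = k
  · rw [h]
  · rw [if_neg h] at hk
    exact absurd rfl hk

theorem gr_sub_mem {W : Type*} [AddCommGroup W] [Module R W] {b : Module.Basis I R V}
    {dgr : I → ℕ} {j : ℤ} (T : V →ₗ[R] W) (N : Submodule R W)
    (h : ∀ i, (dgr i : ℤ) = j → T (b i) ∈ N) {x : V} (hx : x ∈ gr b dgr j) : T x ∈ N := by
  have h1 : T x = ∑ l ∈ (b.repr x).support, b.repr x l • T (b l) := by
    conv_lhs => rw [← b.linearCombination_repr x]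
    rw [Finsupp.linearCombination_apply, Finsupp.sum, map_sum]
    exact Finset.sum_congr rfl fun l _ => by rw [map_smul]
  rw [h1]
  refine Submodule.sum_mem _ fun l hl => Submodule.smul_mem _ _ (h l ?_)
  exact hx l (Finsupp.mem_support_iff.1 hl)

theorem gr_ext {W : Type*} [AddCommGroup W] [Module R W] {b : Module.Basis I R V}
    {dgr : I → ℕ} {j : ℤ} (T : V →ₗ[R] W) (h : ∀ i, (dgr i : ℤ) = j → T (b i) = 0) {x : V}
    (hx : x ∈ gr b dgr j) : T x = 0 := by
  have := gr_sub_mem T ⊥ (fun i hi => (Submodule.mem_bot R).2 (h i hi)) hx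
  exact (Submodule.mem_bot R).1 this

/-- downward induction step and start for the homotopy -/
theorem hpy_step {b : Module.Basis I R V} {dgr : I → ℕ} {M : ℕ} {D : V →ₗ[R] V} {J : Type*}
    [Fintype J] {g₁ g₀ : J → V} (H : HC b dgr M D g₁ g₀) (G : V →ₗ[R] V)
    (hG0 : ∀ i, (dgr i : ℤ) < (M : ℤ) - 1 → G (b i) = 0) (hGD : ∀ x, G (D x) = 0)
    {j : ℤ} (hj : j < (M : ℤ) - 1)
    (ih : ∃ h : V →ₗ[R] V, (∀ i, h (b i) ∈ gr b dgr ((dgr i : ℤ) - 1)) ∧
      ∀ k : ℤ, j + 1 ≤ k → ∀ x ∈ gr b dgr k, D (h x) + h (D x) = x - G x) :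
    ∃ h : V →ₗ[R] V, (∀ i, h (b i) ∈ gr b dgr ((dgr i : ℤ) - 1)) ∧
      ∀ k : ℤ, j ≤ k → ∀ x ∈ gr b dgr k, D (h x) + h (D x) = x - G x := by
  classical
  obtain ⟨h, hdeg, hh⟩ := ih
  have key : ∀ i, (dgr i : ℤ) = j → ∃ y ∈ gr b dgr (j - 1), D y = b i - h (D (b i)) := by
    intro i hi
    have hb : b i ∈ gr b dgr j := hi ▸ basis_mem_gr b dgr i
    have hDb : D (b i) ∈ gr b dgr (j + 1) := H.hD j _ hb
    have e1 : D (h (D (b i))) = D (b i) := by
      have := hh (j + 1) le_rfl _ hDb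
      rw [H.DD, map_zero, add_zero, hGD, sub_zero] at this
      exact this
    have hmem : h (D (b i)) ∈ gr b dgr j := by
      have := gr_sub_mem h (gr b dgr (j + 1 - 1)) (fun k hk => hk ▸ hdeg k) hDb
      rwa [add_sub_cancel_right] at this
    refine H.H3 j hj _ (Submodule.sub_mem _ hb hmem) ?_
    rw [map_sub, e1, sub_self]
  choose! y hy hDy using key
  let h' : V →ₗ[R] V := b.constr R fun i => if (dgr i : ℤ) = j then y i else h (b i)
  have hb' : ∀ i, h' (b i) = if (dgr i : ℤ) = j then y i else h (b i) := by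
    intro i
    rw [Module.Basis.constr_basis]
  have hne : ∀ k : ℤ, k ≠ j → ∀ x ∈ gr b dgr k, h' x = h x := by
    intro k hk x hx
    have := gr_ext (h' - h) (fun i hi => ?_) hx
    · rw [LinearMap.sub_apply, sub_eq_zero] at this
      exact this
    · rw [LinearMap.sub_apply, hb', if_neg (by rw [hi]; exact hk), sub_self]
  refine ⟨h', fun i => ?_, fun k hk x hx => ?_⟩
  · rw [hb']
    by_cases hi : (dgr i : ℤ) = j
    · rw [if_pos hi, hi]
      exact hy i hi
    · rw [if_neg hi]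
      exact hdeg i
  · rcases eq_or_lt_of_le hk with hk | hk
    · subst hk
      have := gr_ext (D ∘ₗ h' + h' ∘ₗ D - (LinearMap.id - G)) (fun i hi => ?_) hx
      · rw [LinearMap.sub_apply, sub_eq_zero] at this
        exact this
      · have hb : b i ∈ gr b dgr j := hi ▸ basis_mem_gr b dgr i
        have hDb : D (b i) ∈ gr b dgr (j + 1) := H.hD j _ hb
        rw [LinearMap.sub_apply, LinearMap.add_apply, LinearMap.sub_apply, LinearMap.comp_apply,
          LinearMap.comp_apply, LinearMap.id_apply, hb', if_pos hi, hDy i hi,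
          hne (j + 1) (by omega) _ hDb, hG0 i (by omega)]
        abel
    · rw [hne k (by omega) x hx, hne (k + 1) (by omega) _ (H.hD k x hx)]
      exact hh k (by omega) x hx

theorem exists_homotopy {b : Module.Basis I R V} {dgr : I → ℕ} {M : ℕ} {D : V →ₗ[R] V} {J : Type*}
    [Fintype J] {g₁ g₀ : J → V} (H : HC b dgr M D g₁ g₀) :
    ∃ (h : V →ₗ[R] V) (q : V →ₗ[R] (J ⊕ J → R)),
      (∀ x, D (h x) + h (D x) = x - gmap g₁ g₀ (q x)) ∧
      (∀ i j, q (b i) (Sum.inl j) ≠ 0 → dgr i = M) ∧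
      (∀ i j, q (b i) (Sum.inr j) ≠ 0 → dgr i + 1 = M) ∧
      (∀ x, q (D x) = 0) ∧ (∀ c, q (gmap g₁ g₀ c) = c) := by
  classical
  -- top degree
  have key1 : ∀ i, dgr i = M → ∃ c : J → R, ∃ y ∈ gr b dgr ((M : ℤ) - 1),
      b i = ∑ j, c j • g₁ j + D y := by
    intro i hi
    exact H.H1 _ (hi ▸ basis_mem_gr b dgr i)
  choose! c1 y1 hy1 hb1 using key1
  let G1 : (J → R) →ₗ[R] V := Fintype.linearCombination R g₁
  let G0 : (J → R) →ₗ[R] V := Fintype.linearCombination R g₀
  have hG1 : ∀ c, G1 c = ∑ j, c j • g₁ j := fun c => Fintype.linearCombination_apply R g₁ c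
  have hG0 : ∀ c, G0 c = ∑ j, c j • g₀ j := fun c => Fintype.linearCombination_apply R g₀ c
  let q1 : V →ₗ[R] (J → R) := b.constr R fun i => if dgr i = M then c1 i else 0
  let h1 : V →ₗ[R] V := b.constr R fun i => if dgr i = M then y1 i else 0
  have q1b : ∀ i, q1 (b i) = if dgr i = M then c1 i else 0 := fun i => by
    rw [Module.Basis.constr_basis]
  have h1b : ∀ i, h1 (b i) = if dgr i = M then y1 i else 0 := fun i => by
    rw [Module.Basis.constr_basis]
  have q1ne : ∀ k : ℤ, k ≠ M → ∀ x ∈ gr b dgr k, q1 x = 0 := by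
    intro k hk x hx
    refine gr_ext q1 (fun i hi => ?_) hx
    rw [q1b, if_neg (by intro h; apply hk; rw [← hi, h])]
  have h1ne : ∀ k : ℤ, k ≠ M → ∀ x ∈ gr b dgr k, h1 x = 0 := by
    intro k hk x hx
    refine gr_ext h1 (fun i hi => ?_) hx
    rw [h1b, if_neg (by intro h; apply hk; rw [← hi, h])]
  have top : ∀ x ∈ gr b dgr M, x = G1 (q1 x) + D (h1 x) := by
    intro x hx
    have := gr_ext (LinearMap.id - (G1 ∘ₗ q1 + D ∘ₗ h1)) (fun i hi => ?_) hx
    · rw [LinearMap.sub_apply, sub_eq_zero] at this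
      exact this
    · have hi' : dgr i = M := by exact_mod_cast hi
      rw [LinearMap.sub_apply, LinearMap.add_apply, LinearMap.comp_apply, LinearMap.comp_apply,
        LinearMap.id_apply, q1b, h1b, if_pos hi', if_pos hi', hG1, ← hb1 i hi', sub_self]
  have h1mem : ∀ x ∈ gr b dgr M, h1 x ∈ gr b dgr ((M : ℤ) - 1) := by
    intro x hx
    refine gr_sub_mem h1 _ (fun i hi => ?_) hx
    have hi' : dgr i = M := by exact_mod_cast hi
    rw [h1b, if_pos hi']
    exact hy1 i hi'
  have hDm : ∀ x ∈ gr b dgr ((M : ℤ) - 1), D x ∈ gr b dgr M := by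
    intro x hx
    have := H.hD _ x hx
    rwa [sub_add_cancel] at this
  have q1D : ∀ y ∈ gr b dgr ((M : ℤ) - 1), q1 (D y) = 0 := by
    intro y hy
    have e := top _ (hDm y hy)
    refine H.H1u _ (y - h1 (D y)) (Submodule.sub_mem _ hy (h1mem _ (hDm y hy))) ?_
    rw [← hG1, map_sub]
    exact (eq_sub_iff_add_eq.2 e.symm)
  have G1mem : ∀ c, G1 c ∈ gr b dgr M := by
    intro c
    rw [hG1]
    exact Submodule.sum_mem _ fun j _ => Submodule.smul_mem _ _ (H.m1 j)
  have G0mem : ∀ c, G0 c ∈ gr b dgr ((M : ℤ) - 1) := by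
    intro c
    rw [hG0]
    exact Submodule.sum_mem _ fun j _ => Submodule.smul_mem _ _ (H.m0 j)
  have q1G : ∀ c, q1 (G1 c) = c := by
    intro c
    have e := top _ (G1mem c)
    have := H.H1u (c - q1 (G1 c)) (h1 (G1 c)) (h1mem _ (G1mem c)) (by
      rw [← hG1, map_sub]
      exact sub_eq_iff_eq_add'.2 e)
    exact (sub_eq_zero.1 this).symm
  -- degree `M - 1`
  have key2 : ∀ i, dgr i + 1 = M → ∃ c : J → R, ∃ y ∈ gr b dgr ((M : ℤ) - 2),
      b i - h1 (D (b i)) = ∑ j, c j • g₀ j + D y := by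
    intro i hi
    have hb : b i ∈ gr b dgr ((M : ℤ) - 1) := by
      have : (dgr i : ℤ) = (M : ℤ) - 1 := by omega
      exact this ▸ basis_mem_gr b dgr i
    refine H.H2 _ (Submodule.sub_mem _ hb (h1mem _ (hDm _ hb))) ?_
    have e := top _ (hDm _ hb)
    rw [q1D _ hb, map_zero, zero_add] at e
    rw [map_sub, ← e, sub_self]
  choose! c0 y0 hy0 hb0 using key2
  let q0 : V →ₗ[R] (J → R) := b.constr R fun i => if dgr i + 1 = M then c0 i else 0
  let h0 : V →ₗ[R] V := b.constr R fun i => if dgr i + 1 = M then y0 i else 0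
  have q0b : ∀ i, q0 (b i) = if dgr i + 1 = M then c0 i else 0 := fun i => by
    rw [Module.Basis.constr_basis]
  have h0b : ∀ i, h0 (b i) = if dgr i + 1 = M then y0 i else 0 := fun i => by
    rw [Module.Basis.constr_basis]
  have q0ne : ∀ k : ℤ, k ≠ (M : ℤ) - 1 → ∀ x ∈ gr b dgr k, q0 x = 0 := by
    intro k hk x hx
    refine gr_ext q0 (fun i hi => ?_) hx
    rw [q0b, if_neg (by intro h; apply hk; omega)]
  have h0ne : ∀ k : ℤ, k ≠ (M : ℤ) - 1 → ∀ x ∈ gr b dgr k, h0 x = 0 := by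
    intro k hk x hx
    refine gr_ext h0 (fun i hi => ?_) hx
    rw [h0b, if_neg (by intro h; apply hk; omega)]
  have sec : ∀ x ∈ gr b dgr ((M : ℤ) - 1), x - h1 (D x) = G0 (q0 x) + D (h0 x) := by
    intro x hx
    have := gr_ext (LinearMap.id - h1 ∘ₗ D - (G0 ∘ₗ q0 + D ∘ₗ h0)) (fun i hi => ?_) hx
    · rw [LinearMap.sub_apply, sub_eq_zero] at this
      exact this
    · have hi' : dgr i + 1 = M := by omega
      rw [LinearMap.sub_apply, LinearMap.sub_apply, LinearMap.add_apply, LinearMap.comp_apply,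
        LinearMap.comp_apply, LinearMap.comp_apply, LinearMap.id_apply, q0b, h0b, if_pos hi',
        if_pos hi', hG0, hb0 i hi', sub_self]
  have h0mem : ∀ x ∈ gr b dgr ((M : ℤ) - 1), h0 x ∈ gr b dgr ((M : ℤ) - 2) := by
    intro x hx
    refine gr_sub_mem h0 _ (fun i hi => ?_) hx
    have hi' : dgr i + 1 = M := by omega
    rw [h0b, if_pos hi']
    exact hy0 i hi'
  have hDm2 : ∀ x ∈ gr b dgr ((M : ℤ) - 2), D x ∈ gr b dgr ((M : ℤ) - 1) := by
    intro x hx
    have := H.hD _ x hx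
    have e : (M : ℤ) - 2 + 1 = M - 1 := by ring
    rwa [e] at this
  have q0D : ∀ y ∈ gr b dgr ((M : ℤ) - 2), q0 (D y) = 0 := by
    intro y hy
    have e := sec _ (hDm2 y hy)
    rw [H.DD, map_zero, sub_zero] at e
    refine H.H2u _ (y - h0 (D y)) (Submodule.sub_mem _ hy (h0mem _ (hDm2 y hy))) ?_
    rw [← hG0, map_sub]
    exact (eq_sub_iff_add_eq.2 e.symm)
  have DG0 : ∀ c, D (G0 c) = 0 := by
    intro c
    rw [hG0, map_sum]
    exact Finset.sum_eq_zero fun j _ => by rw [map_smul, H.D0, smul_zero]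
  have q0G : ∀ c, q0 (G0 c) = c := by
    intro c
    have e := sec _ (G0mem c)
    rw [DG0, map_zero, sub_zero] at e
    have := H.H2u (c - q0 (G0 c)) (h0 (G0 c)) (h0mem _ (G0mem c)) (by
      rw [← hG0, map_sub]
      exact sub_eq_iff_eq_add'.2 e)
    exact (sub_eq_zero.1 this).symm
  -- the map `q`
  let q : V →ₗ[R] (J ⊕ J → R) := LinearMap.pi fun s => Sum.elim
    (fun j => (LinearMap.proj j : (J → R) →ₗ[R] R) ∘ₗ q1)
    (fun j => (LinearMap.proj j : (J → R) →ₗ[R] R) ∘ₗ q0) s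
  have qi : ∀ x j, q x (Sum.inl j) = q1 x j := fun x j => rfl
  have qr : ∀ x j, q x (Sum.inr j) = q0 x j := fun x j => rfl
  have gq : ∀ x, gmap g₁ g₀ (q x) = G1 (q1 x) + G0 (q0 x) := by
    intro x
    rw [hG1, hG0]
    rfl
  have qDb : ∀ i, q (D (b i)) = 0 := by
    intro i
    have hDb : D (b i) ∈ gr b dgr ((dgr i : ℤ) + 1) := H.hD _ _ (basis_mem_gr b dgr i)
    have a1 : q1 (D (b i)) = 0 := by
      by_cases h : (dgr i : ℤ) + 1 = M
      · refine q1D _ ?_
        have : (dgr i : ℤ) = (M : ℤ) - 1 := by omega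
        exact this ▸ basis_mem_gr b dgr i
      · exact q1ne _ h _ hDb
    have a0 : q0 (D (b i)) = 0 := by
      by_cases h : (dgr i : ℤ) + 1 = (M : ℤ) - 1
      · refine q0D _ ?_
        have : (dgr i : ℤ) = (M : ℤ) - 2 := by omega
        exact this ▸ basis_mem_gr b dgr i
      · exact q0ne _ h _ hDb
    funext s
    rcases s with j | j
    · rw [qi, a1]
      rfl
    · rw [qr, a0]
      rfl
  have qD : ∀ x, q (D x) = 0 := by
    have : q ∘ₗ D = 0 := b.ext fun i => by
      rw [LinearMap.comp_apply, qDb, LinearMap.zero_apply]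
    intro x
    exact LinearMap.congr_fun this x
  let G : V →ₗ[R] V := gmap g₁ g₀ ∘ₗ q
  have hGD : ∀ x, G (D x) = 0 := fun x => by
    change gmap g₁ g₀ (q (D x)) = 0
    rw [qD, map_zero]
  have hGb : ∀ i, (dgr i : ℤ) < (M : ℤ) - 1 → G (b i) = 0 := by
    intro i hi
    change gmap g₁ g₀ (q (b i)) = 0
    rw [gq, q1b, q0b, if_neg (by omega), if_neg (by omega), map_zero, map_zero, add_zero]
  have start : ∃ h : V →ₗ[R] V, (∀ i, h (b i) ∈ gr b dgr ((dgr i : ℤ) - 1)) ∧
      ∀ k : ℤ, (M : ℤ) - 1 ≤ k → ∀ x ∈ gr b dgr k, D (h x) + h (D x) = x - G x := by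
    refine ⟨h1 + h0, fun i => ?_, fun k hk x hx => ?_⟩
    · rw [LinearMap.add_apply]
      refine Submodule.add_mem _ ?_ ?_
      · rw [h1b]
        by_cases h : dgr i = M
        · rw [if_pos h]
          have := hy1 i h
          rwa [← h] at this
        · rw [if_neg h]
          exact Submodule.zero_mem _
      · rw [h0b]
        by_cases h : dgr i + 1 = M
        · rw [if_pos h]
          have := hy0 i h
          have e : (M : ℤ) - 2 = (dgr i : ℤ) - 1 := by omega
          rwa [e] at this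
        · rw [if_neg h]
          exact Submodule.zero_mem _
    · change D (h1 x + h0 x) + (h1 (D x) + h0 (D x)) = x - gmap g₁ g₀ (q x)
      rw [gq]
      have hDx := H.hD k x hx
      by_cases hkM : k = (M : ℤ) - 1
      · subst hkM
        rw [h1ne _ (by omega) x hx, q1ne _ (by omega) x hx, h0ne _ (by omega) _ hDx]
        have e := sec x hx
        rw [zero_add, add_zero, map_zero, zero_add, eq_sub_iff_add_eq]
        rw [sub_eq_iff_eq_add] at e
        conv_rhs => rw [e]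
        abel
      · by_cases hkM2 : k = (M : ℤ)
        · subst hkM2
          rw [h0ne _ (by omega) x hx, q0ne _ (by omega) x hx, h0ne _ (by omega) _ hDx,
            h1ne _ (by omega) _ hDx]
          have e := top x hx
          rw [add_zero, add_zero, add_zero, map_zero, add_zero, eq_sub_iff_add_eq]
          conv_rhs => rw [e]
          abel
        · have hx0 : x = 0 := by
            have := gr_ext (LinearMap.id : V →ₗ[R] V) (fun i hi => ?_) hx
            · exact this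
            · have := H.le i
              omega
          rw [hx0]
          simp
  have ind : ∀ n : ℕ, ∃ h : V →ₗ[R] V, (∀ i, h (b i) ∈ gr b dgr ((dgr i : ℤ) - 1)) ∧
      ∀ k : ℤ, (M : ℤ) - 1 - n ≤ k → ∀ x ∈ gr b dgr k, D (h x) + h (D x) = x - G x := by
    intro n
    induction n with
    | zero => simpa using start
    | succ n ih =>
      refine hpy_step H G hGb hGD (by push_cast; omega) ?_
      have e : (M : ℤ) - 1 - ((n + 1 : ℕ) : ℤ) + 1 = (M : ℤ) - 1 - n := by push_cast; ring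
      rw [e]
      exact ih
  obtain ⟨h, -, hh⟩ := ind M
  refine ⟨h, q, ?_, ?_, ?_, qD, ?_⟩
  · have : D ∘ₗ h + h ∘ₗ D = LinearMap.id - G := b.ext fun i => by
      have := hh (dgr i) (by omega) _ (basis_mem_gr b dgr i)
      exact this
    intro x
    exact LinearMap.congr_fun this x
  · intro i j hij
    rw [qi, q1b] at hij
    by_contra h
    rw [if_neg h] at hij
    exact hij rfl
  · intro i j hij
    rw [qr, q0b] at hij
    by_contra h
    rw [if_neg h] at hij
    exact hij rfl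
  · intro c
    have ec : gmap g₁ g₀ c = G1 (fun j => c (Sum.inl j)) + G0 (fun j => c (Sum.inr j)) := by
      rw [hG1, hG0]
      rfl
    funext s
    rcases s with j | j
    · rw [qi, ec, map_add, q1G, q1ne _ (by omega) _ (G0mem _), add_zero]
    · rw [qr, ec, map_add, q0G, q0ne _ (by omega) _ (G1mem _), zero_add]

end

end HN
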