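import Pool.Agent.HN.Tw

/-! # HN/JLarge : the top cohomology vanishes in large weights; the basis `GB` (module HND-32)

PLAN.  `top_large`: put `n₁ = |Xs|`, `n₂ = |Xsᶜ|` (`n₁ ≥ 1` because `deg e = δ > 0` forces an
`x`-variable; `n₂ ≥ 1` as `0 < δ < dlog`).  For `a ∈ Xs`, `b ∉ Xs` let `M a b` be as in `UnitCond`, `M`
the maximum.  If `deg e = δ`, `e v ≥ thr v univ` and `wt e = w ≥ n₂ (M + 1)`, then some `b ∉ Xs` has
`e b ≥ M + 1`, and `∑_{v ∈ Xs} e v = δ + ∑_{v ∉ Xs} |wd v| e v ≥ w`, so (for `w ≥ n₁ (M + 1)`) some `a ∈ Xs`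
has `e a ≥ M + 1`.  So `X^e = X^(e₀) (X_a X_b)^M` with `e₀ v ≥ thr v univ` for all `v`.
`(X_a X_b)^M = ∑_v c_v g_v` with polynomials `c_v`; then
`X^e e_univ = ± Dk f (∑_v ± X^(e₀) c_v X_v^{-1} e_{univ \ v})` for `v ∉ Ys`
(`v ∂_v f * X_v^{-1} = g_v`; exponents of `X^(e₀) c_v X_v^{-1}` are `≥ thr u (univ.erase v)`, since
`thr v (univ.erase v) = 0`, `e₀ v ≥ 1`) and without `X_v^{-1}` for `v ∈ Ys` (`v ∂_v f = g_v`).  Take the
component of degree `δ` and weight `w - 1` (`mp_restr_wt_mem`, `restr_wt_Dk`, `restr_deg_Dk`).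
Alternatively apply `unit_exact`-like arguments.  By linearity (finite support) the same holds for all
of `KW`.
`exists_GB`: `Bs` = union of the bases of `exists_monomial_basis` for `0 ≤ w < W`; for `w < 0` and `w ≥ W`
the cokernel is `0` (`KW = 0`, resp. `top_large`), so `jnum = 0` by `finrank_coker` (or by
`exists_monomial_basis`, whose `Bs` must be empty by independence: if `e ∈ Bs` then
`bas univ e = Dk f η`).
-/

open MvPolynomial

namespace HN

section
variable {ι : Type*} [Fintype ι] [DecidableEq ι] [Ranked ι] {k : Type*} [Field k]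

private noncomputable def jxx (a b : ι) (M : ℕ) : ι → ℤ := fun v =>
  -(((M • (Finsupp.single a 1 + Finsupp.single b 1) : ι →₀ ℕ) v : ℕ) : ℤ)

omit [Fintype ι] [Ranked ι] in
private theorem jxx_ne {a b u : ι} (M : ℕ) (ha : u ≠ a) (hb : u ≠ b) : jxx a b M u = 0 := by
  unfold jxx
  rw [Finsupp.smul_apply, Finsupp.add_apply, Finsupp.single_eq_of_ne ha,
    Finsupp.single_eq_of_ne hb]
  simp

omit [Fintype ι] [Ranked ι] in
private theorem jxx_a {a b : ι} (M : ℕ) (hab : a ≠ b) : jxx a b M a = -(M : ℤ) := by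
  unfold jxx
  rw [Finsupp.smul_apply, Finsupp.add_apply, Finsupp.single_eq_same,
    Finsupp.single_eq_of_ne hab]
  simp

omit [Fintype ι] [Ranked ι] in
private theorem jxx_b {a b : ι} (M : ℕ) (hab : a ≠ b) : jxx a b M b = -(M : ℤ) := by
  unfold jxx
  rw [Finsupp.smul_apply, Finsupp.add_apply, Finsupp.single_eq_same,
    Finsupp.single_eq_of_ne hab.symm]
  simp

private theorem jmon_mul (e f : ι → ℤ) : (mon k e * mon k f : Lau ι k) = mon k (e + f) := by
  unfold mon
  rw [AddMonoidAlgebra.single_mul_single, mul_one]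

private theorem jmon_zero : (mon k 0 : Lau ι k) = 1 := rfl

private theorem jxx_mul (a b : ι) (M : ℕ) :
    (mon k (jxx a b M) * toL ((X a * X b : MvPolynomial ι k) ^ M) : Lau ι k) = 1 := by
  have e : (X a * X b : MvPolynomial ι k) ^ M =
      monomial (M • (Finsupp.single a 1 + Finsupp.single b 1)) 1 := by
    unfold X
    rw [monomial_mul, monomial_pow, mul_one, one_pow]
  rw [e, toL_monomial]
  change mon k (jxx a b M) * mon k _ = _
  rw [jmon_mul, ← jmon_zero]
  congr 1
  funext v
  simp [jxx]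

private def jss (C : CType ι) (v : ι) : ι → ℤ := fun u => if v ∉ C.Ys ∧ u = v then -1 else 0

private theorem jss_mul (C : CType ι) (F : MvPolynomial ι k) (v : ι) :
    (mon k (jss C v) * toL (X v * pderiv v F) : Lau ι k) = toL (C.g F v) := by
  unfold CType.g
  by_cases hv : v ∈ C.Ys
  · have e : jss C v = 0 := by
      funext u
      unfold jss
      rw [if_neg (fun h => h.1 hv)]
      rfl
    rw [e, jmon_zero, one_mul, if_pos hv]
  · rw [if_neg hv, map_mul, ← mul_assoc]
    have e : (toL (X v : MvPolynomial ι k) : Lau ι k) = mon k (Pi.single v (1 : ℤ)) := by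
      unfold toL mon
      rw [aeval_X]
    rw [e, jmon_mul]
    have e2 : jss C v + Pi.single v (1 : ℤ) = 0 := by
      funext u
      unfold jss
      rw [Pi.add_apply, Pi.single_apply]
      by_cases h : u = v
      · rw [if_pos ⟨hv, h⟩, if_pos h]
        rfl
      · rw [if_neg (fun h' => h h'.2), if_neg h]
        rfl
    rw [e2, jmon_zero, one_mul]

private theorem jthr_le_one (C : CType ι) (v : ι) (A : Finset ι) : C.thr v A ≤ 1 := by
  unfold CType.thr
  split_ifs <;> norm_num

/-- one monomial -/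
private theorem jl_mono {C : CType ι} {F : MvPolynomial ι k} (hF : C.Hom F) {a b : ι}
    (hab : a ≠ b) {M : ℕ}
    (hM : (X a * X b : MvPolynomial ι k) ^ M ∈ Ideal.span (Set.range (C.g F)))
    {δ : ℤ} {e : ι → ℤ} (hd : C.deg e = δ) (he : ∀ v, C.thr v Finset.univ ≤ e v)
    (hea : (M : ℤ) + 1 ≤ e a) (heb : (M : ℤ) + 1 ≤ e b) :
    ∃ η ∈ KT k C ∅ δ ((Fintype.card ι : ℤ) - 1), Dk F η = bas k Finset.univ e := by
  classical
  rw [Ideal.mem_span_range_iff_exists_fun] at hM
  obtain ⟨c, hc⟩ := hM
  obtain ⟨ξ, hξ⟩ : ∃ ξ : Finset ι → Lau ι k, ξ = bas k Finset.univ e := ⟨_, rfl⟩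
  have hξA : ∀ A, A ≠ Finset.univ → ξ A = 0 := by
    intro A hA
    rw [hξ]
    simp [bas, Pi.single_eq_of_ne hA]
  have hξu : ξ Finset.univ = mon k e := by
    rw [hξ]
    simp [bas]
  have h0 : Dk F ξ = 0 := by
    funext A
    have h1 : Dk F ξ A = ∑ v ∈ A, sg v A • Tm F v (ξ (A.erase v)) := kos_apply _ _ _
    rw [h1]
    refine Finset.sum_eq_zero fun v hv => ?_
    have h2 : A.erase v ≠ Finset.univ := by
      intro h
      have h3 : v ∈ A.erase v := by rw [h]; exact Finset.mem_univ v
      exact Finset.notMem_erase v A h3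
    rw [hξA _ h2, map_zero, smul_zero]
  let L : ι → Lau ι k := fun v => mon k (jxx a b M) * (toL (c v) * mon k (jss C v))
  let cc : ι → Lau ι k →ₗ[k] Lau ι k := fun v => LinearMap.mulLeft k (L v)
  have hcomm : ∀ u v x, cc u (Tm F v x) = Tm F v (cc u x) := by
    intro u v x
    change L u * (toL (X v * pderiv v F) * x) = toL (X v * pderiv v F) * (L u * x)
    ring
  have hsum : (∑ v, cc v ∘ₗ Tm F v : Lau ι k →ₗ[k] Lau ι k) = LinearMap.id := by
    refine LinearMap.ext fun x => ?_
    rw [LinearMap.sum_apply]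
    change ∑ v, L v * (toL (X v * pderiv v F) * x) = x
    have e' : ∀ v, L v * (toL (X v * pderiv v F) * x) =
        mon k (jxx a b M) * toL (c v * C.g F v) * x := by
      intro v
      change mon k (jxx a b M) * (toL (c v) * mon k (jss C v)) * (toL (X v * pderiv v F) * x) = _
      rw [map_mul (toL : MvPolynomial ι k →ₐ[k] Lau ι k) (c v) (C.g F v), ← jss_mul C F v]
      ring
    rw [Finset.sum_congr rfl fun v _ => e' v, ← Finset.sum_mul, ← Finset.mul_sum, ← map_sum, hc,
      jxx_mul, one_mul]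
  have h1 := ctr_kos hcomm ξ
  rw [hsum] at h1
  change ctr k cc (Dk F ξ) + Dk F (ctr k cc ξ) = _ at h1
  rw [h0, map_zero, zero_add] at h1
  have h2 : Dk F (ctr k cc ξ) = ξ := by
    rw [h1]
    rfl
  refine ⟨mp k (restr k {e | C.deg e = δ}) (ctr k cc ξ), ?_, ?_⟩
  swap
  · rw [← restr_deg_Dk hF δ, h2, ← hξ]
    funext A
    refine lau_ext fun e' => ?_
    change (restr k {e | C.deg e = δ} (ξ A)).coeff e' = _
    rw [restr_coeff]
    by_cases hd' : e' ∈ {e | C.deg e = δ}
    · rw [if_pos hd']
    · rw [if_neg hd']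
      by_cases hA : A = Finset.univ
      · rw [hA, hξu]
        unfold mon
        rw [AddMonoidAlgebra.coeff_single, Finsupp.single_apply, if_neg]
        intro h
        apply hd'
        rw [← h]
        exact hd
      · rw [hξA A hA]
        rfl
  · intro A e' he'
    change (restr k {e | C.deg e = δ} (ctr k cc ξ A)).coeff e' ≠ 0 at he'
    rw [restr_coeff] at he'
    have hd' : e' ∈ {e | C.deg e = δ} := by
      by_contra h
      rw [if_neg h] at he'
      exact he' rfl
    rw [if_pos hd', ctr_apply] at he'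
    have h3 : ∃ v ∈ Aᶜ, (sg v A • cc v (ξ (insert v A))).coeff e' ≠ 0 := by
      by_contra hcon
      push Not at hcon
      apply he'
      rw [AddMonoidAlgebra.coeff_sum, Finsupp.finset_sum_apply]
      exact Finset.sum_eq_zero hcon
    obtain ⟨v, hv, h4⟩ := h3
    have hvA : v ∉ A := Finset.mem_compl.1 hv
    have h5 : (L v * ξ (insert v A)).coeff e' ≠ 0 := by
      intro h
      apply h4
      change (sg v A • (L v * ξ (insert v A))).coeff e' = 0
      rw [AddMonoidAlgebra.coeff_smul, Finsupp.smul_apply, h, smul_zero]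
    have hins : insert v A = Finset.univ := by
      by_contra h
      apply h5
      rw [hξA _ h, mul_zero]
      rfl
    rw [hins, hξu] at h5
    have e6 : L v * mon k e =
        AddMonoidAlgebra.single (jxx a b M) 1 *
          (toL (c v) * (AddMonoidAlgebra.single (jss C v) 1 * mon k e)) := by
      change mon k (jxx a b M) * (toL (c v) * mon k (jss C v)) * mon k e = _
      unfold mon
      ring
    rw [e6, single_mul_coeff, one_mul] at h5
    obtain ⟨m, -, h7⟩ := exists_of_toL_mul_coeff_ne h5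
    rw [single_mul_coeff, one_mul] at h7
    have h8 : ∀ u, e' u - jxx a b M u - (m u : ℤ) - jss C v u = e u := by
      intro u
      by_contra h
      apply h7
      unfold mon
      rw [AddMonoidAlgebra.coeff_single, Finsupp.single_apply, if_neg]
      intro h9
      exact h (congrFun h9 u).symm
    refine ⟨?_, hd', fun u _ => ?_⟩
    · have h9 := Finset.card_insert_of_notMem hvA
      rw [hins, Finset.card_univ] at h9
      rw [h9]
      push_cast
      ring
    · have h9 := h8 u
      have h10 := he u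
      have h11 : (0 : ℤ) ≤ (m u : ℤ) := by positivity
      have h12 := jthr_le_one C u A
      have h13 := thr_mono C u (Finset.subset_univ A)
      have h14 := thr_nonneg C u Finset.univ
      by_cases huv : u = v
      · have h15 : C.thr u A = 0 := by
          unfold CType.thr
          rw [if_neg (fun h => hvA (huv ▸ h.1))]
        rw [h15]
        have h16 : -1 ≤ jss C v u := by
          unfold jss
          split_ifs <;> norm_num
        by_cases hua : u = a
        · rw [hua] at h9 h16 h11 ⊢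
          rw [jxx_a M hab] at h9
          omega
        · by_cases hub : u = b
          · rw [hub] at h9 h16 h11 ⊢
            rw [jxx_b M hab] at h9
            omega
          · rw [jxx_ne M hua hub] at h9
            unfold jss at h9
            unfold CType.thr at h10
            by_cases hY : u ∈ C.Ys
            · rw [if_neg (fun h => h.1 (huv ▸ hY))] at h9
              rw [if_neg (fun h => h.2 hY)] at h10
              omega
            · rw [if_pos ⟨Finset.mem_univ _, hY⟩] at h10
              rw [if_pos ⟨fun h => hY (huv ▸ h), huv⟩] at h9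
              omega
      · have h15 : jss C v u = 0 := by
          unfold jss
          rw [if_neg (fun h => huv h.2)]
        rw [h15] at h9
        by_cases hua : u = a
        · rw [hua] at h9 h11 h12 ⊢
          rw [jxx_a M hab] at h9
          omega
        · by_cases hub : u = b
          · rw [hub] at h9 h11 h12 ⊢
            rw [jxx_b M hab] at h9
            omega
          · rw [jxx_ne M hua hub] at h9
            omega

theorem top_large {C : CType ι} {f : MvPolynomial ι k} (hF : C.Hom f) (hU : C.UnitCond f)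
    {δ : ℤ} (hδ0 : 0 < δ) (hδ1 : δ < C.dlog) :
    ∃ W : ℕ, ∀ w : ℤ, (W : ℤ) ≤ w → ∀ ξ ∈ KW k C ∅ δ (Fintype.card ι) w,
      ∃ η ∈ KW k C ∅ δ ((Fintype.card ι : ℤ) - 1) (w - 1), Dk f η = ξ := by
  classical
  have hM : ∀ a b : ι, ∃ M : ℕ, a ∈ C.Xs → b ∉ C.Xs →
      (X a * X b : MvPolynomial ι k) ^ M ∈ Ideal.span (Set.range (C.g f)) := by
    intro a b
    by_cases h : a ∈ C.Xs ∧ b ∉ C.Xs
    · obtain ⟨M, hM⟩ := hU a h.1 b h.2
      exact ⟨M, fun _ _ => hM⟩
    · exact ⟨0, fun h1 h2 => absurd ⟨h1, h2⟩ h⟩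
  choose M hM using hM
  obtain ⟨m, hm⟩ : ∃ m : ℕ, m = Finset.univ.sup (fun q : ι × ι => M q.1 q.2) := ⟨_, rfl⟩
  have hMm : ∀ a b, M a b ≤ m := fun a b => by
    rw [hm]
    exact Finset.le_sup (f := fun q : ι × ι => M q.1 q.2) (Finset.mem_univ (a, b))
  refine ⟨Fintype.card ι * m + 1, fun w hw ξ hξ => ?_⟩
  -- it suffices to treat the monomials
  have key : ∀ e : ι → ℤ, C.deg e = δ → (∀ v, C.thr v Finset.univ ≤ e v) → C.wt e = w →
      bas k Finset.univ e ∈
        (KW k C ∅ δ ((Fintype.card ι : ℤ) - 1) (w - 1)).map (Dk f) := by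
    intro e hd he hwt
    have he0 : ∀ v, 0 ≤ e v := fun v => (thr_nonneg C v Finset.univ).trans (he v)
    have hcw : ((Fintype.card ι : ℕ) : ℤ) * (m : ℤ) < w := by
      have : ((Fintype.card ι * m + 1 : ℕ) : ℤ) ≤ w := hw
      push_cast at this
      linarith
    have hsmall : ∀ S : Finset ι, w ≤ ∑ v ∈ S, e v → ∃ v ∈ S, (m : ℤ) + 1 ≤ e v := by
      intro S hS
      by_contra hcon
      push Not at hcon
      have h1 : ∑ v ∈ S, e v ≤ ∑ v ∈ S, (m : ℤ) :=
        Finset.sum_le_sum fun v hv => by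
          have := hcon v hv
          omega
      rw [Finset.sum_const, nsmul_eq_mul] at h1
      have h2 : ((S.card : ℕ) : ℤ) * (m : ℤ) ≤ ((Fintype.card ι : ℕ) : ℤ) * (m : ℤ) := by
        refine mul_le_mul_of_nonneg_right ?_ (by positivity)
        exact_mod_cast Finset.card_le_univ S
      linarith
    obtain ⟨b, hb, heb⟩ := hsmall C.Xsᶜ (by rw [← hwt]; exact le_rfl)
    have hsplit : C.deg e = ∑ v ∈ C.Xs, e v + ∑ v ∈ C.Xsᶜ, C.wd v * e v := by
      unfold CType.deg
      rw [← Finset.sum_add_sum_compl C.Xs]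
      congr 1
      refine Finset.sum_congr rfl fun v hv => ?_
      rw [C.hX v hv, one_mul]
    have hneg : ∑ v ∈ C.Xsᶜ, C.wd v * e v ≤ - w := by
      rw [← hwt]
      unfold CType.wt
      rw [← Finset.sum_neg_distrib]
      refine Finset.sum_le_sum fun v hv => ?_
      have h1 := C.hneg v (Finset.mem_compl.1 hv)
      have h2 := he0 v
      nlinarith
    obtain ⟨a, ha, hea⟩ := hsmall C.Xs (by
      rw [hd] at hsplit
      linarith)
    have hb' : b ∉ C.Xs := Finset.mem_compl.1 hb
    have hab : a ≠ b := fun h => hb' (h ▸ ha)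
    have h1 : (M a b : ℤ) ≤ (m : ℤ) := by exact_mod_cast hMm a b
    obtain ⟨η, hη, hηe⟩ := jl_mono hF hab (hM a b ha hb') hd he (by linarith) (by linarith)
    refine ⟨mp k (restr k {e | C.wt e = w - 1}) η, mp_restr_wt_mem (w - 1) hη, ?_⟩
    rw [← restr_wt_Dk hF (w - 1), hηe]
    funext A
    refine lau_ext fun e' => ?_
    change (restr k {e | C.wt e = w - 1 + 1} (bas k Finset.univ e A)).coeff e' = _
    rw [restr_coeff]
    by_cases hd' : e' ∈ {e | C.wt e = w - 1 + 1}
    · rw [if_pos hd']
    · rw [if_neg hd']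
      by_cases hA : A = Finset.univ
      · rw [hA]
        simp only [bas, Pi.single_eq_same, mon]
        rw [AddMonoidAlgebra.coeff_single, Finsupp.single_apply, if_neg]
        intro h
        apply hd'
        rw [← h]
        change C.wt e = w - 1 + 1
        rw [hwt]
        ring
      · simp [bas, Pi.single_eq_of_ne hA]
  have hmem : ξ ∈ (KW k C ∅ δ ((Fintype.card ι : ℤ) - 1) (w - 1)).map (Dk f) := by
    rw [mb_top_eq hξ]
    refine Submodule.sum_mem _ fun e he => Submodule.smul_mem _ _ ?_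
    have h2 := hξ Finset.univ e (by simpa using he)
    exact key e h2.2.1 (fun v => h2.2.2.1 v (Finset.notMem_empty v)) h2.2.2.2
  obtain ⟨η, hη, h⟩ := hmem
  exact ⟨η, hη, h⟩

theorem exists_GB {C : CType ι} {f : MvPolynomial ι k} (hF : C.Hom f) (hU : C.UnitCond f)
    {δ : ℤ} (hδ0 : 0 < δ) (hδ1 : δ < C.dlog) :
    ∃ Bs : Finset (ι → ℤ), GB C f δ Bs ∧ (∀ e ∈ Bs, 0 ≤ C.wt e) ∧
      ∀ w : ℤ, ((Bs.filter (fun e => C.wt e = w)).card : ℤ) = jnum C δ w := by
  classical
  obtain ⟨W, hW⟩ := top_large hF hU hδ0 hδ1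
  have hB := fun w : ℤ => exists_monomial_basis hF hU hδ0 hδ1 (w := w)
  choose B hB1 hB2 hB3 hB4 using hB
  have hneg : ∀ w : ℤ, w < 0 → B w = ∅ := by
    intro w hw
    rw [Finset.eq_empty_iff_forall_notMem]
    intro e he
    obtain ⟨-, h2, h3⟩ := hB1 w e he
    have h4 : 0 ≤ C.wt e := Finset.sum_nonneg fun v _ =>
      (thr_nonneg C v Finset.univ).trans (h2 v)
    omega
  have hbig : ∀ w : ℤ, (W : ℤ) ≤ w → B w = ∅ := by
    intro w hw
    rw [Finset.eq_empty_iff_forall_notMem]
    intro e he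
    obtain ⟨h1, h2, h3⟩ := hB1 w e he
    have hmem : bas k Finset.univ e ∈ KW k C ∅ δ (Fintype.card ι) w :=
      mb_bas_mem ⟨by simp, h1, h2, h3⟩
    obtain ⟨η, hη, hηe⟩ := hW w hw _ hmem
    have h5 := hB4 w (fun e' => if e' = e then 1 else 0) η hη (by
      rw [hηe, Finset.sum_eq_single e]
      · simp
      · intro e' _ hne
        rw [if_neg hne, zero_smul]
      · intro h
        exact absurd he h) e he
    simp at h5
  obtain ⟨Bs, hBs⟩ : ∃ Bs : Finset (ι → ℤ), Bs = (Finset.range W).biUnion (fun i => B (i : ℤ)) :=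
    ⟨_, rfl⟩
  have hfil : ∀ w : ℤ, Bs.filter (fun e => C.wt e = w) = B w := by
    intro w
    ext e
    rw [Finset.mem_filter, hBs, Finset.mem_biUnion]
    constructor
    · rintro ⟨⟨i, -, hi⟩, hw⟩
      have h3 := (hB1 _ e hi).2.2
      rw [hw] at h3
      rw [h3]
      exact hi
    · intro he
      have hw := (hB1 w e he).2.2
      have h0 : 0 ≤ w := by
        by_contra h
        rw [hneg w (by omega)] at he
        exact Finset.notMem_empty _ he
      have h1 : w < W := by
        by_contra h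
        rw [hbig w (by omega)] at he
        exact Finset.notMem_empty _ he
      refine ⟨⟨w.toNat, ?_, ?_⟩, hw⟩
      · rw [Finset.mem_range]
        omega
      · rw [Int.toNat_of_nonneg h0]
        exact he
  have hmem : ∀ e ∈ Bs, e ∈ B (C.wt e) := by
    intro e he
    rw [← hfil, Finset.mem_filter]
    exact ⟨he, rfl⟩
  refine ⟨Bs, ⟨fun e he => ?_, fun w ξ hξ => ?_, fun w c η hη h e he hw => ?_⟩,
    fun e he => ?_, fun w => ?_⟩
  · obtain ⟨h1, h2, -⟩ := hB1 _ e (hmem e he)
    exact ⟨h1, h2⟩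
  · rw [hfil]
    exact hB3 w ξ hξ
  · rw [hfil] at h
    refine hB4 w c η hη h e ?_
    rw [← hw]
    exact hmem e he
  · by_contra h
    have h1 := hmem e he
    rw [hneg _ (by omega)] at h1
    exact Finset.notMem_empty _ h1
  · rw [hfil]
    exact hB2 w

end

end HN
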