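import Pool.Agent.HN.Tw1
import Pool.Agent.HN.Hpy

/-! # HN/KTb : the free module of all admissible forms (module HND-16)

PLAN.  `ktb`: `Module.Basis.ofRepr` of the linear equivalence `KTa R C δ ≃ (KI C δ →₀ R)`:
forward: `ξ ↦ (i ↦ (ξ i.1.1).coeff i.1.2)` (finite support: finitely many `A` (`Finset ι` is a
fintype) and finite supports), backward: `y ↦ ∑_i y_i • bas`.
`mem_gr_ktb`: `(ktb.repr x) i ≠ 0 ↔` the coefficient is `≠ 0`.
`KTa_ind`: every element of `KTa` is the sum over `j ≤ card ι` of its components of form degree `j`.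
-/

open MvPolynomial

namespace HN

section
variable {ι : Type*} [Fintype ι] [DecidableEq ι] [Ranked ι] (R : Type*) [CommRing R]

/-- all admissible forms of degree `δ` -/
def KTa (C : CType ι) (δ : ℤ) : Submodule R (Finset ι → Lau ι R) :=
  Sp R (fun A e => C.deg e = δ ∧ ∀ v, C.thr v A ≤ e v)

/-- index set of the monomial basis of `KTa` -/
def KI (C : CType ι) (δ : ℤ) : Type _ :=
  {x : Finset ι × (ι → ℤ) // C.deg x.2 = δ ∧ ∀ v, C.thr v x.1 ≤ x.2 v}

variable {R}

omit [Ranked ι] in
theorem ktb_bas_coeff (A : Finset ι) (e : ι → ℤ) (B : Finset ι) (e' : ι → ℤ) :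
    (bas R A e B).coeff e' = if (B, e') = (A, e) then 1 else 0 := by
  unfold bas mon
  by_cases hB : B = A
  · subst hB
    rw [Pi.single_eq_same, AddMonoidAlgebra.coeff_single, Finsupp.single_apply]
    by_cases he : e = e'
    · subst he; simp
    · rw [if_neg he, if_neg]
      intro h
      exact he (Prod.mk.inj h).2.symm
  · rw [Pi.single_eq_of_ne hB, if_neg]
    · rfl
    · intro h
      exact hB (Prod.mk.inj h).1

theorem bas_mem_KTa {C : CType ι} {δ : ℤ} (i : KI C δ) : bas R i.1.1 i.1.2 ∈ KTa R C δ := by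
  intro A e h
  rw [ktb_bas_coeff] at h
  by_cases h1 : (A, e) = (i.1.1, i.1.2)
  · obtain ⟨h2, h3⟩ := Prod.mk.inj h1
    subst h2 h3
    exact i.2
  · rw [if_neg h1] at h
    exact absurd rfl h

/-- the coefficients of an admissible form -/
noncomputable def ktbFwd (C : CType ι) (δ : ℤ) : KTa R C δ →ₗ[R] (KI C δ →₀ R) where
  toFun x := Finsupp.ofSupportFinite
    (fun i => ((x : Finset ι → Lau ι R) i.1.1).coeff i.1.2) (by
      have h1 : {y : Finset ι × (ι → ℤ) | ((x : Finset ι → Lau ι R) y.1).coeff y.2 ≠ 0}.Finite := by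
        have h2 : (⋃ A : Finset ι, (fun e : ι → ℤ => (A, e)) ''
            (((x : Finset ι → Lau ι R) A).coeff.support : Set (ι → ℤ))).Finite :=
          Set.finite_iUnion fun A => (Finset.finite_toSet _).image _
        refine h2.subset ?_
        rintro ⟨A, e⟩ hy
        refine Set.mem_iUnion.2 ⟨A, e, ?_, rfl⟩
        simpa using hy
      exact h1.preimage Subtype.val_injective.injOn)
  map_add' x y := by
    refine Finsupp.ext fun i => ?_
    rw [Finsupp.add_apply]
    show ((x : Finset ι → Lau ι R) i.1.1 + (y : Finset ι → Lau ι R) i.1.1).coeff i.1.2 =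
      ((x : Finset ι → Lau ι R) i.1.1).coeff i.1.2 + ((y : Finset ι → Lau ι R) i.1.1).coeff i.1.2
    simp
  map_smul' c x := by
    refine Finsupp.ext fun i => ?_
    rw [Finsupp.smul_apply]
    show (c • (x : Finset ι → Lau ι R) i.1.1).coeff i.1.2 =
      c • ((x : Finset ι → Lau ι R) i.1.1).coeff i.1.2
    simp

omit [Ranked ι] in
theorem ktbFwd_apply (C : CType ι) (δ : ℤ) (x : KTa R C δ) (i : KI C δ) :
    ktbFwd C δ x i = ((x : Finset ι → Lau ι R) i.1.1).coeff i.1.2 := rfl

theorem ktbFwd_bas (C : CType ι) (δ : ℤ) (i : KI C δ) :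
    ktbFwd (R := R) C δ ⟨bas R i.1.1 i.1.2, bas_mem_KTa i⟩ = Finsupp.single i 1 := by
  classical
  refine Finsupp.ext fun i' => ?_
  rw [ktbFwd_apply, Finsupp.single_apply, ktb_bas_coeff]
  by_cases h : i = i'
  · subst h; simp
  · rw [if_neg h, if_neg]
    intro h1
    exact h (Subtype.ext h1.symm)

theorem exists_ktb (C : CType ι) (δ : ℤ) : ∃ b : Module.Basis (KI C δ) R (KTa R C δ),
    (∀ i, ((b i : KTa R C δ) : Finset ι → Lau ι R) = bas R i.1.1 i.1.2) ∧
    (∀ x i, b.repr x i = ((x : Finset ι → Lau ι R) i.1.1).coeff i.1.2) := by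
  have hinj : Function.Injective (ktbFwd (R := R) C δ) := by
    rw [injective_iff_map_eq_zero]
    intro x hx
    apply Subtype.ext
    funext A
    refine lau_ext fun e => ?_
    by_contra hne
    have h1 := x.2 A e (by simpa using hne)
    have h2 : ((x : Finset ι → Lau ι R) A).coeff e = 0 := DFunLike.congr_fun hx ⟨(A, e), h1⟩
    exact hne (by simpa using h2)
  have hsurj : Function.Surjective (ktbFwd (R := R) C δ) := by
    intro y
    refine ⟨∑ i ∈ y.support, y i • ⟨bas R i.1.1 i.1.2, bas_mem_KTa i⟩, ?_⟩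
    rw [map_sum]
    simp only [map_smul, ktbFwd_bas]
    simp only [Finsupp.smul_single, smul_eq_mul, mul_one]
    exact Finsupp.sum_single y
  refine ⟨Module.Basis.ofRepr (LinearEquiv.ofBijective _ ⟨hinj, hsurj⟩), fun i => ?_, fun x i => ?_⟩
  · have h1 : (Module.Basis.ofRepr (LinearEquiv.ofBijective _ ⟨hinj, hsurj⟩)) i =
        (⟨bas R i.1.1 i.1.2, bas_mem_KTa i⟩ : KTa R C δ) := by
      rw [Module.Basis.coe_ofRepr, LinearEquiv.symm_apply_eq]
      exact (ktbFwd_bas C δ i).symm
    rw [h1]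
  · exact ktbFwd_apply C δ x i

variable (R) in
/-- the monomial basis -/
noncomputable def ktb (C : CType ι) (δ : ℤ) : Module.Basis (KI C δ) R (KTa R C δ) :=
  (exists_ktb C δ).choose

theorem ktb_coe (C : CType ι) (δ : ℤ) (i : KI C δ) :
    ((ktb R C δ i : KTa R C δ) : Finset ι → Lau ι R) = bas R i.1.1 i.1.2 :=
  (exists_ktb C δ).choose_spec.1 i

theorem ktb_repr (C : CType ι) (δ : ℤ) (x : KTa R C δ) (i : KI C δ) :
    (ktb R C δ).repr x i = ((x : Finset ι → Lau ι R) i.1.1).coeff i.1.2 :=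
  (exists_ktb C δ).choose_spec.2 x i

/-- form degree of a basis vector -/
def KI.dgr {C : CType ι} {δ : ℤ} (i : KI C δ) : ℕ := i.1.1.card

theorem mem_gr_ktb {C : CType ι} {δ j : ℤ} (x : KTa R C δ) :
    x ∈ gr (ktb R C δ) KI.dgr j ↔ (x : Finset ι → Lau ι R) ∈ KT R C ∅ δ j := by
  constructor
  · intro h A e hne
    have h1 := x.2 A e hne
    refine ⟨?_, h1.1, fun v _ => h1.2 v⟩
    obtain ⟨i, hi⟩ : ∃ i : KI C δ, i.1 = (A, e) := ⟨⟨(A, e), h1⟩, rfl⟩
    have h2 := h i (by rw [ktb_repr, hi]; exact hne)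
    rw [KI.dgr, hi] at h2
    exact h2
  · intro h i hi
    rw [ktb_repr] at hi
    exact (h i.1.1 i.1.2 hi).1

theorem KT_le_KTa (C : CType ι) (δ j : ℤ) : KT R C ∅ δ j ≤ KTa R C δ := by
  intro x hx A e hne
  obtain ⟨_, h2, h3⟩ := hx A e hne
  exact ⟨h2, fun v => h3 v (Finset.notMem_empty v)⟩

/-- to check an additive statement on `KTa` it suffices to check it on all `KT j` -/
theorem KTa_ind {C : CType ι} {δ : ℤ} {P : (Finset ι → Lau ι R) → Prop}
    (h0 : P 0) (hadd : ∀ x y, P x → P y → P (x + y))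
    (hj : ∀ j : ℤ, ∀ x ∈ KT R C ∅ δ j, P x) {x : Finset ι → Lau ι R} (hx : x ∈ KTa R C δ) :
    P x := by
  have h1 : ∀ s : Finset ℕ, P (∑ j ∈ s, fun A : Finset ι => if A.card = j then x A else 0) := by
    intro s
    induction s using Finset.induction_on with
    | empty => simpa using h0
    | insert a s ha ih =>
      rw [Finset.sum_insert ha]
      refine hadd _ _ (hj a _ ?_) ih
      intro A e hne
      by_cases hA : A.card = a
      · simp only [if_pos hA] at hne
        obtain ⟨h2, h3⟩ := hx A e hne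
        exact ⟨by exact_mod_cast hA, h2, fun v _ => h3 v⟩
      · simp only [if_neg hA] at hne
        exact absurd rfl hne
  have h2 : x = ∑ j ∈ Finset.range (Fintype.card ι + 1),
      fun A : Finset ι => if A.card = j then x A else 0 := by
    funext A
    rw [Finset.sum_apply, Finset.sum_ite_eq, if_pos]
    rw [Finset.mem_range]
    exact Nat.lt_succ_of_le (Finset.card_le_univ A)
  rw [h2]
  exact h1 _

end

end HN
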