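import Pool.Agent.HN.CN
import Pool.Agent.HN.EulX

/-! # HN/Kap : translation between `CN` in the top weight and the forms of HN/Stmt (module HN-C12)

`kapL ξ A' e'  = ξ (A' ∪ Z) (e'_v + [v ∈ A'] (v ∈ X), -1 on Y, 0 on Z)`, `kapI` the inverse.

PLAN.  Top weight `-r` in `CN` (`T' = T.image Sum.inl ⊆ Xs`): all `e_y = -1`, all `e_z = 0` and
`Z ⊆ A`, so `A = A' ∪ Z`, `|A| = a + s` iff `|A'| = a`; degrees: `deg e = ∑ e_x + ∑ d_i`,
`∑ e'_x + #(A' ∩ X) = ∑ e_x`, so `deg e = l + ∑ d_i`.
Weight `-r-1`: (Y_i) `e_y = -1 - 1_i`, `e_z = 0`, `Z ⊆ A`; (Z_j,in) `e_y = -1`, `e_z = - 1_j`, `Z ⊆ A`;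
(Z_j,out) `e_y = -1`, `e_z = -1_j`, `A = A' ∪ (Z \ j)`, `|A'| = a`.  `kapL (Dn η)` is
`rhowe i (f i)`, `dwe (h j)`, `± smulX (toLX (h j))` of the corresponding forms: in `Dn` only the
monomials of `F` divisible by `y_i` resp. `z_j` survive (others raise some exponent to its
threshold); `Tm F x_v = x_v ∂_v F`, `Tm F y_i = y_i f_i`, `Tm F z_j = z_j h_j`.  Signs: ranks are
ordered x < y < z, so `sg v (A' ∪ Z) = sg v A'` for `v ∈ X ∪ Y`, and
`sg z_j (A' ∪ Z) = (-1)^(a+j)`.
-/

open MvPolynomial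

namespace HN

section
variable {k : Type*} [Field k] {n r s : ℕ} {d : Fin r → ℕ} {c : Fin s → ℕ}

/-- the set of `z`-variables -/
def ZZ (n r s : ℕ) : Finset (Vr n r s) := Finset.univ.image (fun j => Sum.inr (Sum.inr j))

/-- embedding of component indices `A' ↦ A' ∪ Z` -/
def compI (A : Finset (Fin (n + 1) ⊕ Fin r)) : Finset (Vr n r s) :=
  A.image (Sum.elim Sum.inl (fun i => Sum.inr (Sum.inl i))) ∪ ZZ n r s

/-- embedding of exponents -/
def expI (s : ℕ) (A : Finset (Fin (n + 1) ⊕ Fin r)) (e : Fin (n + 1) → ℤ) : Vr n r s → ℤ :=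
  Sum.elim (fun v => e v + if Sum.inl v ∈ A then 1 else 0) (Sum.elim (fun _ => -1) (fun _ => 0))

/-- the subset of `Vr` corresponding to a set of `x`-variables -/
def TI (r s : ℕ) (T : Finset (Fin (n + 1))) : Finset (Vr n r s) := T.image Sum.inl

/-! ### auxiliary maps -/

/-- inclusion of the symbols `dx_v`, `η_i` -/
private def emb : Fin (n + 1) ⊕ Fin r ↪ Vr n r s :=
  ⟨Sum.elim Sum.inl (fun i => Sum.inr (Sum.inl i)), by
    rintro (x | x) (y | y) h <;> simp at h ⊢ <;> exact h⟩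

/-- inclusion of the `z_j` -/
private def zemb : Fin s ↪ Vr n r s := ⟨fun j => Sum.inr (Sum.inr j), by
  intro x y h; simpa using h⟩

/-- the part of `A` outside the `z_j` -/
private def pull (A : Finset (Vr n r s)) : Finset (Fin (n + 1) ⊕ Fin r) :=
  Finset.univ.filter (fun u => emb u ∈ A)

/-- indicator function of the `x`-part -/
private def xs (A' : Finset (Fin (n + 1) ⊕ Fin r)) : Fin (n + 1) → ℤ :=
  fun v => if Sum.inl v ∈ A' then 1 else 0

/-- components `A' ∪ Z'`, exponents `c` at `y, z` -/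
private noncomputable def Ex (c : Fin r ⊕ Fin s → ℤ) (Z' : Finset (Fin s)) :
    (Finset (Vr n r s) → Lau (Vr n r s) k) →ₗ[k] WForm k n r where
  toFun ξ A' := AddMonoidAlgebra.ofCoeff
    (((ξ (A'.map emb ∪ Z'.map zemb)).coeff).comapDomain
      (fun e' : Fin (n + 1) → ℤ => (Sum.elim (e' + xs A') c : Vr n r s → ℤ))
      (by
        intro x _ y _ h
        funext v
        have h1 := congrFun h (Sum.inl v)
        simpa using h1))
  map_add' x y := by
    funext A'
    ext e
    simp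
  map_smul' a x := by
    funext A'
    ext e
    simp

private theorem Ex_coeff (c : Fin r ⊕ Fin s → ℤ) (Z' : Finset (Fin s))
    (ξ : Finset (Vr n r s) → Lau (Vr n r s) k) (A' : Finset (Fin (n + 1) ⊕ Fin r))
    (e' : Fin (n + 1) → ℤ) : (Ex c Z' ξ A').coeff e' =
      (ξ (A'.map emb ∪ Z'.map zemb)).coeff (Sum.elim (e' + xs A') c) := rfl

private theorem el_inj (a : Fin (n + 1) → ℤ) (c : Fin r ⊕ Fin s → ℤ) : Function.Injective
    (fun e' : Fin (n + 1) → ℤ => (Sum.elim (e' + a) c : Vr n r s → ℤ)) := by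
  intro x y h
  funext v
  have h1 := congrFun h (Sum.inl v)
  simpa using h1

open Classical in
/-- the inverse of `Ex` -/
private noncomputable def Em (c : Fin r ⊕ Fin s → ℤ) (Z' : Finset (Fin s)) :
    WForm k n r →ₗ[k] (Finset (Vr n r s) → Lau (Vr n r s) k) where
  toFun ω B := if B ∩ ZZ n r s = Z'.map zemb then AddMonoidAlgebra.ofCoeff
    ((ω (pull B)).coeff.mapDomain
      (fun e' : Fin (n + 1) → ℤ => (Sum.elim (e' + xs (pull B)) c : Vr n r s → ℤ))) else 0
  map_add' x y := by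
    funext B
    by_cases h : B ∩ ZZ n r s = Z'.map zemb
    · simp [h, Finsupp.mapDomain_add]
    · simp [h]
  map_smul' a x := by
    funext B
    by_cases h : B ∩ ZZ n r s = Z'.map zemb
    · simp [h, Finsupp.mapDomain_smul]
    · simp [h]

private theorem Em_coeff_eq (c : Fin r ⊕ Fin s → ℤ) (Z' : Finset (Fin s)) (ω : WForm k n r)
    {B : Finset (Vr n r s)} (hB : B ∩ ZZ n r s = Z'.map zemb) (e' : Fin (n + 1) → ℤ) :
    (Em c Z' ω B).coeff (Sum.elim (e' + xs (pull B)) c) = (ω (pull B)).coeff e' := by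
  have h1 : Em c Z' ω B = AddMonoidAlgebra.ofCoeff
    ((ω (pull B)).coeff.mapDomain
      (fun e' : Fin (n + 1) → ℤ => (Sum.elim (e' + xs (pull B)) c : Vr n r s → ℤ))) := by
    unfold Em
    exact if_pos hB
  rw [h1]
  exact Finsupp.mapDomain_apply (el_inj _ _) _ _

private theorem Em_coeff_ne (c : Fin r ⊕ Fin s → ℤ) (Z' : Finset (Fin s)) (ω : WForm k n r)
    {B : Finset (Vr n r s)} {e : Vr n r s → ℤ} (h : (Em c Z' ω B).coeff e ≠ 0) :
    B ∩ ZZ n r s = Z'.map zemb ∧ ∃ e' : Fin (n + 1) → ℤ,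
      e = Sum.elim (e' + xs (pull B)) c ∧ (ω (pull B)).coeff e' ≠ 0 := by
  by_cases hB : B ∩ ZZ n r s = Z'.map zemb
  · refine ⟨hB, ?_⟩
    have h1 : Em c Z' ω B = AddMonoidAlgebra.ofCoeff
      ((ω (pull B)).coeff.mapDomain
        (fun e' : Fin (n + 1) → ℤ => (Sum.elim (e' + xs (pull B)) c : Vr n r s → ℤ))) := by
      unfold Em
      exact if_pos hB
    have h2 : e ∈ Set.range
        (fun e' : Fin (n + 1) → ℤ => (Sum.elim (e' + xs (pull B)) c : Vr n r s → ℤ)) := by
      by_contra hcon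
      refine h ?_
      rw [h1]
      exact Finsupp.mapDomain_of_notMem_range _ _ hcon
    obtain ⟨e', rfl⟩ := h2
    refine ⟨e', rfl, ?_⟩
    rw [← Em_coeff_eq c Z' ω hB]
    exact h
  · exfalso
    apply h
    have h1 : Em c Z' ω B = 0 := by
      unfold Em
      exact if_neg hB
    rw [h1]
    rfl

private theorem mem_ZZ {v : Vr n r s} : v ∈ ZZ n r s ↔ ∃ j, v = Sum.inr (Sum.inr j) := by
  simp [ZZ, eq_comm]

private theorem inter_ZZ (A' : Finset (Fin (n + 1) ⊕ Fin r)) (Z' : Finset (Fin s)) :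
    (A'.map (emb : _ ↪ Vr n r s) ∪ Z'.map zemb) ∩ ZZ n r s = Z'.map zemb := by
  ext v
  rw [Finset.mem_inter, Finset.mem_union, mem_ZZ]
  constructor
  · rintro ⟨h | h, j, rfl⟩
    · rw [Finset.mem_map] at h
      obtain ⟨u, _, hu⟩ := h
      rcases u with u | u <;> simp [emb] at hu
    · exact h
  · intro h
    refine ⟨Or.inr h, ?_⟩
    rw [Finset.mem_map] at h
    obtain ⟨j, _, rfl⟩ := h
    exact ⟨j, rfl⟩

private theorem pull_map (A' : Finset (Fin (n + 1) ⊕ Fin r)) (Z' : Finset (Fin s)) :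
    pull (A'.map (emb : _ ↪ Vr n r s) ∪ Z'.map zemb) = A' := by
  ext u
  simp only [pull, Finset.mem_filter, Finset.mem_univ, true_and, Finset.mem_union]
  constructor
  · rintro (h | h)
    · rw [Finset.mem_map] at h
      obtain ⟨w, hw, hwu⟩ := h
      rwa [← emb.injective hwu]
    · rw [Finset.mem_map] at h
      obtain ⟨j, _, hj⟩ := h
      rcases u with u | u <;> simp [emb, zemb] at hj
  · intro h
    exact Or.inl (Finset.mem_map_of_mem _ h)

private theorem map_pull {B : Finset (Vr n r s)} {Z' : Finset (Fin s)}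
    (h : B ∩ ZZ n r s = Z'.map zemb) : (pull B).map emb ∪ Z'.map zemb = B := by
  ext v
  rw [← h, Finset.mem_union, Finset.mem_inter, Finset.mem_map]
  constructor
  · rintro (⟨u, hu, rfl⟩ | h1)
    · simpa [pull] using hu
    · exact h1.1
  · intro hv
    rcases v with v | v | v
    · exact Or.inl ⟨Sum.inl v, by simpa [pull, emb] using hv, rfl⟩
    · exact Or.inl ⟨Sum.inr v, by simpa [pull, emb] using hv, rfl⟩
    · exact Or.inr ⟨hv, mem_ZZ.2 ⟨v, rfl⟩⟩

private theorem Ex_Em_same (c : Fin r ⊕ Fin s → ℤ) (Z' : Finset (Fin s)) (ω : WForm k n r) :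
    Ex c Z' (Em c Z' ω) = ω := by
  funext A'
  refine lau_ext fun e' => ?_
  rw [Ex_coeff]
  have h1 := Em_coeff_eq c Z' ω (inter_ZZ A' Z') e'
  rw [pull_map] at h1
  exact h1

private theorem Ex_Em_ne (c c' : Fin r ⊕ Fin s → ℤ) (Z' Z'' : Finset (Fin s)) (ω : WForm k n r)
    (h : (c', Z'') ≠ (c, Z')) : Ex c' Z'' (Em c Z' ω) = 0 := by
  funext A'
  refine lau_ext fun e' => ?_
  rw [Ex_coeff]
  by_contra hne
  obtain ⟨h1, e'', h2, -⟩ := Em_coeff_ne c Z' ω hne
  rw [inter_ZZ] at h1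
  apply h
  rw [Prod.mk.injEq]
  refine ⟨?_, Finset.map_injective _ h1⟩
  funext u
  have := congrFun h2 (Sum.inr u)
  simpa using this

/-- exponent of the top weight: `y_i^{-1}`, `z_j^0` -/
private def c0 (r s : ℕ) : Fin r ⊕ Fin s → ℤ := Sum.elim (fun _ => -1) (fun _ => 0)

private theorem compI_eq (A : Finset (Fin (n + 1) ⊕ Fin r)) :
    (compI A : Finset (Vr n r s)) = A.map emb ∪ Finset.univ.map zemb := by
  unfold compI ZZ
  rw [Finset.map_eq_image, Finset.map_eq_image]
  rfl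

private theorem expI_eq (A : Finset (Fin (n + 1) ⊕ Fin r)) (e : Fin (n + 1) → ℤ) :
    (expI s A e : Vr n r s → ℤ) = Sum.elim (e + xs A) (c0 r s) := rfl

/-- existence of the two translations -/
theorem exists_kap (k : Type*) [Field k] (n r s : ℕ) :
    ∃ (kapL : (Finset (Vr n r s) → Lau (Vr n r s) k) →ₗ[k] WForm k n r)
      (kapI : WForm k n r →ₗ[k] (Finset (Vr n r s) → Lau (Vr n r s) k)),
      (∀ ξ A e, (kapL ξ A).coeff e = (ξ (compI A)).coeff (expI s A e)) ∧
      (∀ ω A e, (kapI ω (compI A)).coeff (expI s A e) = (ω A).coeff e) ∧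
      (∀ ω B e', (kapI ω B).coeff e' ≠ 0 → ∃ A e, B = compI A ∧ e' = expI s A e) := by
  refine ⟨Ex (c0 r s) Finset.univ, Em (c0 r s) Finset.univ, ?_, ?_, ?_⟩
  · intro ξ A e
    rw [Ex_coeff, compI_eq, expI_eq]
  · intro ω A e
    rw [compI_eq, expI_eq]
    have h1 := Em_coeff_eq (c0 r s) Finset.univ ω (inter_ZZ A Finset.univ) e
    rw [pull_map] at h1
    exact h1
  · intro ω B e' h
    obtain ⟨h1, e, h2, -⟩ := Em_coeff_ne _ _ ω h
    refine ⟨pull B, e, ?_, ?_⟩
    · rw [compI_eq, map_pull h1]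
    · rw [h2, expI_eq]

noncomputable def kapL (k : Type*) [Field k] (n r s : ℕ) :
    (Finset (Vr n r s) → Lau (Vr n r s) k) →ₗ[k] WForm k n r := (exists_kap k n r s).choose

noncomputable def kapI (k : Type*) [Field k] (n r s : ℕ) :
    WForm k n r →ₗ[k] (Finset (Vr n r s) → Lau (Vr n r s) k) :=
  (exists_kap k n r s).choose_spec.choose

private theorem kapL_coeff (ξ : Finset (Vr n r s) → Lau (Vr n r s) k)
    (A : Finset (Fin (n + 1) ⊕ Fin r)) (e : Fin (n + 1) → ℤ) :
    (kapL k n r s ξ A).coeff e = (ξ (compI A)).coeff (expI s A e) :=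
  (exists_kap k n r s).choose_spec.choose_spec.1 ξ A e

private theorem kapI_coeff (ω : WForm k n r) (A : Finset (Fin (n + 1) ⊕ Fin r))
    (e : Fin (n + 1) → ℤ) : (kapI k n r s ω (compI A)).coeff (expI s A e) = (ω A).coeff e :=
  (exists_kap k n r s).choose_spec.choose_spec.2.1 ω A e

private theorem kapI_ne {ω : WForm k n r} {B : Finset (Vr n r s)} {e' : Vr n r s → ℤ}
    (h : (kapI k n r s ω B).coeff e' ≠ 0) : ∃ A e, B = compI A ∧ e' = expI s A e :=
  (exists_kap k n r s).choose_spec.choose_spec.2.2 ω B e' h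

private theorem kapL_eq (ξ : Finset (Vr n r s) → Lau (Vr n r s) k) :
    kapL k n r s ξ = Ex (c0 r s) Finset.univ ξ := by
  funext A
  refine lau_ext fun e => ?_
  have h1 := kapL_coeff ξ A e
  rw [compI_eq, expI_eq] at h1
  rw [Ex_coeff]
  exact h1

theorem kapL_kapI (ω : WForm k n r) : kapL k n r s (kapI k n r s ω) = ω := by
  funext A
  refine lau_ext fun e => ?_
  have h1 := kapL_coeff (kapI k n r s ω) A e
  rw [kapI_coeff] at h1
  exact h1

private theorem toLX_eq (g : MvPolynomial (Fin (n + 1)) k) : toLX g = toL g := rfl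

/-- exponent `c` in the variables `y, z` -/
private noncomputable def ext (c : Fin r ⊕ Fin s → ℤ) : Lau (Vr n r s) k →ₗ[k] LauX n k where
  toFun f := AddMonoidAlgebra.ofCoeff
    (f.coeff.comapDomain (fun e' : Fin (n + 1) → ℤ => (Sum.elim e' c : Vr n r s → ℤ))
      (by
        intro x _ y _ h
        funext v
        exact congrFun h (Sum.inl v)))
  map_add' x y := by
    ext e
    simp
  map_smul' a x := by
    ext e
    simp

private theorem ext_coeff (c : Fin r ⊕ Fin s → ℤ) (f : Lau (Vr n r s) k) (e' : Fin (n + 1) → ℤ) :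
    (ext c f).coeff e' = f.coeff (Sum.elim e' c) := rfl

/-- shift of the exponents -/
private noncomputable def sh (a : Fin (n + 1) → ℤ) : LauX n k →ₗ[k] LauX n k :=
  LinearMap.mulLeft k (AddMonoidAlgebra.single (-a) 1)

private theorem sh_coeff (a : Fin (n + 1) → ℤ) (f : LauX n k) (e : Fin (n + 1) → ℤ) :
    (sh a f).coeff e = f.coeff (e + a) := by
  have h := single_mul_coeff (R := k) (-a) 1 f e
  rw [one_mul] at h
  have h2 : (fun v => e v - (-a) v) = e + a := by
    funext v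
    simp
  rw [h2] at h
  exact h

private theorem sh_mul (a : Fin (n + 1) → ℤ) (g f : LauX n k) : sh a (g * f) = g * sh a f := by
  change AddMonoidAlgebra.single (-a) 1 * (g * f) = g * (AddMonoidAlgebra.single (-a) 1 * f)
  ring

private theorem Ex_eq (c : Fin r ⊕ Fin s → ℤ) (Z' : Finset (Fin s))
    (ξ : Finset (Vr n r s) → Lau (Vr n r s) k) (A' : Finset (Fin (n + 1) ⊕ Fin r)) :
    Ex c Z' ξ A' = sh (xs A') (ext c (ξ (A'.map emb ∪ Z'.map zemb))) := by
  refine lau_ext fun e => ?_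
  rw [Ex_coeff, sh_coeff, ext_coeff]

private theorem ext_mul (c : Fin r ⊕ Fin s → ℤ) (g : MvPolynomial (Fin (n + 1)) k)
    (f : Lau (Vr n r s) k) : ext c (toL (rename Sum.inl g) * f) = toLX g * ext c f := by
  rw [← g.support_sum_monomial_coeff, map_sum, map_sum, Finset.sum_mul, map_sum, toLX_eq, map_sum,
    Finset.sum_mul]
  refine Finset.sum_congr rfl fun m _ => ?_
  rw [rename_monomial, toL_monomial, toL_monomial]
  refine lau_ext fun e => ?_
  rw [ext_coeff, single_mul_coeff]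
  have h2 := single_mul_coeff (R := k) (fun v => (m v : ℤ)) (g.coeff m) (ext c f) e
  refine Eq.trans ?_ h2.symm
  rw [ext_coeff]
  congr 2
  funext v
  rcases v with v | v
  · simp only [Sum.elim_inl]
    rw [Finsupp.mapDomain_apply Sum.inl_injective]
  · simp only [Sum.elim_inr]
    rw [Finsupp.mapDomain_of_notMem_range m _ (by simp)]
    simp

private theorem ext_X (c : Fin r ⊕ Fin s → ℤ) (w : Fin r ⊕ Fin s) (f : Lau (Vr n r s) k) :
    ext c (toL (X (Sum.inr w)) * f) = ext (c - Pi.single w 1) f := by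
  refine lau_ext fun e => ?_
  rw [ext_coeff, ext_coeff]
  have h1 : (toL (X (Sum.inr w)) : Lau (Vr n r s) k) =
      AddMonoidAlgebra.single (Pi.single (Sum.inr w) (1 : ℤ)) (1 : k) := by
    unfold toL
    rw [aeval_X]
  rw [h1, single_mul_coeff, one_mul]
  congr 1
  funext v
  rcases v with v | v
  · simp
  · simp [Pi.single_apply]

private theorem sh_X (A' : Finset (Fin (n + 1) ⊕ Fin r)) (v : Fin (n + 1)) (hv : Sum.inl v ∈ A')
    (f : LauX n k) : sh (xs A') (toLX (X v) * f) = sh (xs (A'.erase (Sum.inl v))) f := by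
  refine lau_ext fun e => ?_
  rw [sh_coeff, sh_coeff]
  have h1 : (toLX (X v) : LauX n k) = AddMonoidAlgebra.single (Pi.single v (1 : ℤ)) (1 : k) := by
    unfold toLX
    rw [aeval_X]
  have h2 := single_mul_coeff (R := k) (Pi.single v (1 : ℤ)) 1 f (e + xs A')
  rw [one_mul] at h2
  rw [h1]
  refine h2.trans ?_
  congr 1
  funext u
  simp only [Pi.add_apply, xs, Finset.mem_erase, ne_eq, Sum.inl.injEq, Pi.single_apply]
  by_cases hu : u = v
  · subst hu
    simp [hv]
  · simp [hu]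

private theorem xs_inr (A' : Finset (Fin (n + 1) ⊕ Fin r)) (i : Fin r) :
    xs (A'.erase (Sum.inr i)) = xs A' := by
  funext u
  simp [xs]

private theorem pd_inr (w : Fin r ⊕ Fin s) (g : MvPolynomial (Fin (n + 1)) k) :
    pderiv (Sum.inr w : Vr n r s) (rename Sum.inl g) = 0 := by
  apply pderiv_eq_zero_of_notMem_vars
  intro h
  obtain ⟨i, _, hi⟩ := mem_vars_rename _ _ h
  exact absurd hi (by simp)

private theorem pd_z (D : Datum k n r s d c) (j : Fin s) :
    pderiv (Sum.inr (Sum.inr j)) (cayF D) = rename Sum.inl (D.h j) := by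
  classical
  simp only [cayF, map_add, map_sum, pderiv_mul, pd_inr, mul_zero, add_zero, pderiv_X]
  rw [Finset.sum_eq_zero (fun i _ => by simp), zero_add]
  rw [Finset.sum_eq_single j]
  · simp
  · intro i _ hi
    rw [Pi.single_eq_of_ne (by simpa using hi), zero_mul]
  · intro h; exact absurd (Finset.mem_univ j) h

private theorem pd_y (D : Datum k n r s d c) (j : Fin r) :
    pderiv (Sum.inr (Sum.inl j)) (cayF D) = rename Sum.inl (D.f j) := by
  classical
  simp only [cayF, map_add, map_sum, pderiv_mul, pd_inr, mul_zero, add_zero, pderiv_X]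
  have h2 : ∀ x : Fin s, (Pi.single (Sum.inr (Sum.inl j)) (1 : MvPolynomial (Vr n r s) k) :
      Vr n r s → MvPolynomial (Vr n r s) k) (Sum.inr (Sum.inr x)) = 0 := by
    intro x
    exact Pi.single_eq_of_ne (by simp) _
  simp only [h2, zero_mul, Finset.sum_const_zero, add_zero]
  rw [Finset.sum_eq_single j]
  · simp
  · intro i _ hi
    rw [Pi.single_eq_of_ne (by simpa using hi), zero_mul]
  · intro h; exact absurd (Finset.mem_univ j) h

private theorem pd_x (D : Datum k n r s d c) (v : Fin (n + 1)) :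
    pderiv (Sum.inl v) (cayF D) = ∑ i, X (Sum.inr (Sum.inl i)) * rename Sum.inl (pderiv v (D.f i))
      + ∑ j, X (Sum.inr (Sum.inr j)) * rename Sum.inl (pderiv v (D.h j)) := by
  classical
  simp only [cayF, map_add, map_sum, pderiv_mul]
  congr 1
  · refine Finset.sum_congr rfl fun i _ => ?_
    rw [pderiv_X_of_ne (by simp), zero_mul, zero_add, pderiv_rename Sum.inl_injective]
  · refine Finset.sum_congr rfl fun i _ => ?_
    rw [pderiv_X_of_ne (by simp), zero_mul, zero_add, pderiv_rename Sum.inl_injective]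

private theorem rk_emb (u : Fin (n + 1) ⊕ Fin r) : rk (emb u : Vr n r s) = rk u := by
  rcases u with u | u <;> rfl

private theorem rk_zemb (j : Fin s) : rk (zemb j : Vr n r s) = (n + 1) + (r + (j : ℕ)) := rfl

private theorem rk_lt (u : Fin (n + 1) ⊕ Fin r) : rk u < (n + 1) + r := by
  rcases u with u | u
  · have := u.2
    change (u : ℕ) < _
    omega
  · have := u.2
    change (n + 1) + (u : ℕ) < _
    omega

private theorem disj (A' : Finset (Fin (n + 1) ⊕ Fin r)) (Z' : Finset (Fin s)) :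
    Disjoint (A'.map (emb : _ ↪ Vr n r s)) (Z'.map zemb) := by
  rw [Finset.disjoint_left]
  intro x hx hz
  rw [Finset.mem_map] at hx hz
  obtain ⟨u, _, rfl⟩ := hx
  obtain ⟨j, _, hj⟩ := hz
  rcases u with u | u
  · exact absurd hj (by simp [zemb, emb])
  · exact absurd hj (by simp [zemb, emb])

private theorem sg_emb (A' : Finset (Fin (n + 1) ⊕ Fin r)) (u : Fin (n + 1) ⊕ Fin r) :
    sg (emb u : Vr n r s) (A'.map emb ∪ Finset.univ.map zemb) = sg u A' := by
  unfold sg
  congr 1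
  have h : (A'.map (emb : _ ↪ Vr n r s) ∪ Finset.univ.map zemb).filter
      (fun a => rk a < rk (emb u : Vr n r s)) =
      (A'.filter (fun a => rk a < rk u)).map emb := by
    ext x
    simp only [Finset.mem_filter, Finset.mem_union, Finset.mem_map, Finset.mem_univ, true_and]
    constructor
    · rintro ⟨⟨a, ha, rfl⟩ | ⟨j, rfl⟩, h2⟩
      · rw [rk_emb, rk_emb] at h2
        exact ⟨a, ⟨ha, h2⟩, rfl⟩
      · rw [rk_emb, rk_zemb] at h2
        have := rk_lt u
        omega
    · rintro ⟨a, ⟨ha, h2⟩, rfl⟩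
      refine ⟨Or.inl ⟨a, ha, rfl⟩, ?_⟩
      rw [rk_emb, rk_emb]
      exact h2
  rw [h, Finset.card_map]

private theorem sg_zemb (A' : Finset (Fin (n + 1) ⊕ Fin r)) (j : Fin s) :
    sg (zemb j : Vr n r s) (A'.map emb ∪ Finset.univ.map zemb) =
      (-1) ^ (A'.card + (j : ℕ)) := by
  unfold sg
  congr 1
  have h : (A'.map (emb : _ ↪ Vr n r s) ∪ Finset.univ.map zemb).filter
      (fun a => rk a < rk (zemb j : Vr n r s)) =
      A'.map emb ∪ (Finset.Iio j).map zemb := by
    ext x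
    simp only [Finset.mem_filter, Finset.mem_union, Finset.mem_map, Finset.mem_univ, true_and,
      Finset.mem_Iio]
    constructor
    · rintro ⟨⟨a, ha, rfl⟩ | ⟨i, rfl⟩, h2⟩
      · exact Or.inl ⟨a, ha, rfl⟩
      · rw [rk_zemb, rk_zemb] at h2
        refine Or.inr ⟨i, ?_, rfl⟩
        rw [Fin.lt_def]
        omega
    · rintro (⟨a, ha, rfl⟩ | ⟨i, hi, rfl⟩)
      · refine ⟨Or.inl ⟨a, ha, rfl⟩, ?_⟩
        rw [rk_emb, rk_zemb]
        have := rk_lt a
        omega
      · refine ⟨Or.inr ⟨i, rfl⟩, ?_⟩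
        rw [rk_zemb, rk_zemb]
        rw [Fin.lt_def] at hi
        omega
  rw [h, Finset.card_union_of_disjoint (disj _ _), Finset.card_map, Finset.card_map, Fin.card_Iio]

private theorem erase_emb (A' : Finset (Fin (n + 1) ⊕ Fin r)) (Z' : Finset (Fin s))
    (u : Fin (n + 1) ⊕ Fin r) :
    (A'.map (emb : _ ↪ Vr n r s) ∪ Z'.map zemb).erase (emb u) =
      (A'.erase u).map emb ∪ Z'.map zemb := by
  rw [Finset.erase_union_distrib, Finset.map_erase]
  congr 1
  refine Finset.erase_eq_of_notMem ?_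
  intro h
  rw [Finset.mem_map] at h
  obtain ⟨j, _, hj⟩ := h
  rcases u with u | u
  · exact absurd hj (by simp [zemb, emb])
  · exact absurd hj (by simp [zemb, emb])

private theorem erase_zemb (A' : Finset (Fin (n + 1) ⊕ Fin r)) (Z' : Finset (Fin s))
    (j : Fin s) :
    (A'.map (emb : _ ↪ Vr n r s) ∪ Z'.map zemb).erase (zemb j) =
      A'.map emb ∪ (Z'.erase j).map zemb := by
  rw [Finset.erase_union_distrib, Finset.map_erase]
  congr 1
  refine Finset.erase_eq_of_notMem ?_
  intro h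
  rw [Finset.mem_map] at h
  obtain ⟨u, _, hj⟩ := h
  rcases u with u | u
  · exact absurd hj (by simp [zemb, emb])
  · exact absurd hj (by simp [zemb, emb])

private theorem ext_Dn (D : Datum k n r s d c) (hd : ∀ i, 1 ≤ d i) (hc : ∀ j, 1 ≤ c j)
    (ξ : Finset (Vr n r s) → Lau (Vr n r s) k) (A' : Finset (Fin (n + 1) ⊕ Fin r)) :
    ext (c0 r s) (Dn (cayT n d c hd hc) (cayF D) ξ (A'.map emb ∪ Finset.univ.map zemb)) =
      ext (c0 r s) (Dk (cayF D) ξ (A'.map emb ∪ Finset.univ.map zemb)) := by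
  refine lau_ext fun e => ?_
  rw [ext_coeff, ext_coeff]
  change (nproj k (Negy (cayT n d c hd hc)) (Dk (cayF D) ξ) _).coeff _ = _
  classical
  rw [nproj_coeff, if_pos]
  intro v hv
  rcases v with v | v | v
  · simp [cayT] at hv
  · have h1 := thr_nonneg (cayT n d c hd hc) (Sum.inr (Sum.inl v))
      (A'.map (emb : _ ↪ Vr n r s) ∪ Finset.univ.map zemb)
    refine lt_of_lt_of_le ?_ h1
    simp [c0]
  · have h1 : (cayT n d c hd hc).thr (Sum.inr (Sum.inr v))
        (A'.map (emb : _ ↪ Vr n r s) ∪ Finset.univ.map zemb) = 1 := by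
      unfold CType.thr
      rw [if_pos]
      constructor
      · refine Finset.mem_union_right _ ?_
        rw [Finset.mem_map]
        exact ⟨v, Finset.mem_univ _, rfl⟩
      · simp [cayT]
    rw [h1]
    simp [c0]

private theorem term_x (D : Datum k n r s d c) (ξ : Finset (Vr n r s) → Lau (Vr n r s) k)
    (A' : Finset (Fin (n + 1) ⊕ Fin r)) (v : Fin (n + 1)) (hv : Sum.inl v ∈ A') :
    sh (xs A') (ext (c0 r s) (Tm (cayF D) (Sum.inl v)
      (ξ ((A'.erase (Sum.inl v)).map emb ∪ Finset.univ.map zemb)))) =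
      ∑ i, toLX (pderiv v (D.f i)) *
        Ex (c0 r s - Pi.single (Sum.inl i) 1) Finset.univ ξ (A'.erase (Sum.inl v)) +
      ∑ j, toLX (pderiv v (D.h j)) *
        Ex (c0 r s - Pi.single (Sum.inr j) 1) Finset.univ ξ (A'.erase (Sum.inl v)) := by
  set f := ξ ((A'.erase (Sum.inl v)).map emb ∪ Finset.univ.map zemb) with hf
  have h1 : Tm (cayF D) (Sum.inl v) f =
      toL (rename Sum.inl (X v)) * (∑ i, toL (X (Sum.inr (Sum.inl i))) *
        (toL (rename Sum.inl (pderiv v (D.f i))) * f) +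
        ∑ j, toL (X (Sum.inr (Sum.inr j))) * (toL (rename Sum.inl (pderiv v (D.h j))) * f)) := by
    change toL (X (Sum.inl v) * pderiv (Sum.inl v) (cayF D)) * f = _
    rw [pd_x, map_mul, map_add, map_sum, map_sum, rename_X, mul_assoc, add_mul, Finset.sum_mul,
      Finset.sum_mul]
    simp only [map_mul, mul_assoc]
  rw [h1, ext_mul, sh_X A' v hv, map_add, map_sum, map_sum, map_add, map_sum, map_sum]
  congr 1
  · refine Finset.sum_congr rfl fun i _ => ?_
    rw [ext_X, ext_mul, sh_mul, Ex_eq]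
  · refine Finset.sum_congr rfl fun i _ => ?_
    rw [ext_X, ext_mul, sh_mul, Ex_eq]

private theorem term_y (D : Datum k n r s d c) (ξ : Finset (Vr n r s) → Lau (Vr n r s) k)
    (A' : Finset (Fin (n + 1) ⊕ Fin r)) (i : Fin r) :
    sh (xs A') (ext (c0 r s) (Tm (cayF D) (Sum.inr (Sum.inl i))
      (ξ ((A'.erase (Sum.inr i)).map emb ∪ Finset.univ.map zemb)))) =
      toLX (D.f i) *
        Ex (c0 r s - Pi.single (Sum.inl i) 1) Finset.univ ξ (A'.erase (Sum.inr i)) := by
  set f := ξ ((A'.erase (Sum.inr i)).map emb ∪ Finset.univ.map zemb) with hf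
  have h1 : Tm (cayF D) (Sum.inr (Sum.inl i)) f =
      toL (X (Sum.inr (Sum.inl i))) * (toL (rename Sum.inl (D.f i)) * f) := by
    change toL (X (Sum.inr (Sum.inl i)) * pderiv (Sum.inr (Sum.inl i)) (cayF D)) * f = _
    rw [pd_y, map_mul, mul_assoc]
  rw [h1, ext_X, ext_mul, sh_mul, Ex_eq, xs_inr]

private theorem term_z (D : Datum k n r s d c) (ξ : Finset (Vr n r s) → Lau (Vr n r s) k)
    (A' : Finset (Fin (n + 1) ⊕ Fin r)) (j : Fin s) :
    sh (xs A') (ext (c0 r s) (Tm (cayF D) (Sum.inr (Sum.inr j))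
      (ξ (A'.map emb ∪ (Finset.univ.erase j).map zemb)))) =
      toLX (D.h j) *
        Ex (c0 r s - Pi.single (Sum.inr j) 1) (Finset.univ.erase j) ξ A' := by
  set f := ξ (A'.map emb ∪ (Finset.univ.erase j).map zemb) with hf
  have h1 : Tm (cayF D) (Sum.inr (Sum.inr j)) f =
      toL (X (Sum.inr (Sum.inr j))) * (toL (rename Sum.inl (D.h j)) * f) := by
    change toL (X (Sum.inr (Sum.inr j)) * pderiv (Sum.inr (Sum.inr j)) (cayF D)) * f = _
    rw [pd_z, map_mul, mul_assoc]
  rw [h1, ext_X, ext_mul, sh_mul, Ex_eq]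

private theorem smulX_apply (g : LauX n k) (ω : WForm k n r) (A' : Finset (Fin (n + 1) ⊕ Fin r)) :
    smulX g ω A' = g * ω A' := rfl

private theorem we_app (v : Fin (n + 1) ⊕ Fin r) (ω : WForm k n r)
    (A' : Finset (Fin (n + 1) ⊕ Fin r)) :
    we k v ω A' = if v ∈ A' then sg v A' • ω (A'.erase v) else 0 := rfl

private theorem dwe_apply (g : MvPolynomial (Fin (n + 1)) k) (ω : WForm k n r)
    (A' : Finset (Fin (n + 1) ⊕ Fin r)) :
    dwe g ω A' = ∑ v, if Sum.inl v ∈ A' then
      sg (Sum.inl v) A' • (toLX (pderiv v g) * ω (A'.erase (Sum.inl v))) else 0 := by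
  unfold dwe
  rw [LinearMap.sum_apply, Finset.sum_apply]
  refine Finset.sum_congr rfl fun v _ => ?_
  rw [LinearMap.comp_apply, smulX_apply, we_app]
  split_ifs
  · rw [mul_smul_comm]
  · rw [mul_zero]

private theorem rhowe_apply (i : Fin r) (g : MvPolynomial (Fin (n + 1)) k) (ω : WForm k n r)
    (A' : Finset (Fin (n + 1) ⊕ Fin r)) :
    rhowe i g ω A' = (∑ v, if Sum.inl v ∈ A' then
      sg (Sum.inl v) A' • (toLX (pderiv v g) * ω (A'.erase (Sum.inl v))) else 0) +
      (if Sum.inr i ∈ A' then sg (Sum.inr i) A' • (toLX g * ω (A'.erase (Sum.inr i))) else 0) := by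
  unfold rhowe
  rw [LinearMap.add_apply, Pi.add_apply, dwe_apply]
  congr 1
  rw [LinearMap.comp_apply, smulX_apply, we_app]
  split_ifs
  · rw [mul_smul_comm]
  · rw [mul_zero]

private theorem Ex_Dn (D : Datum k n r s d c) (hd : ∀ i, 1 ≤ d i) (hc : ∀ j, 1 ≤ c j)
    (ξ : Finset (Vr n r s) → Lau (Vr n r s) k) :
    Ex (c0 r s) Finset.univ (Dn (cayT n d c hd hc) (cayF D) ξ) =
      ∑ i, rhowe i (D.f i) (Ex (c0 r s - Pi.single (Sum.inl i) 1) Finset.univ ξ) +
      ∑ j, dwe (D.h j) (Ex (c0 r s - Pi.single (Sum.inr j) 1) Finset.univ ξ) +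
      ∑ j, smulX (toLX (D.h j)) (fun A' => (-1 : k) ^ (A'.card + (j : ℕ)) •
        Ex (c0 r s - Pi.single (Sum.inr j) 1) (Finset.univ.erase j) ξ A') := by
  classical
  funext A'
  rw [Ex_eq, ext_Dn]
  simp only [Pi.add_apply, Finset.sum_apply]
  unfold Dk
  rw [kos_apply, Finset.sum_union (disj _ _), Finset.sum_map, Finset.sum_map, map_add, map_add]
  congr 1
  · -- the `emb` part
    have h1 : ∀ u ∈ A', sg (emb u : Vr n r s) (A'.map emb ∪ Finset.univ.map zemb) •
        Tm (cayF D) (emb u) (ξ ((A'.map emb ∪ Finset.univ.map zemb).erase (emb u))) =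
        sg u A' • Tm (cayF D) (emb u) (ξ ((A'.erase u).map emb ∪ Finset.univ.map zemb)) := by
      intro u _
      rw [sg_emb, erase_emb]
    rw [Finset.sum_congr rfl h1, map_sum, map_sum]
    have h2 : ∀ u ∈ A', sh (xs A') (ext (c0 r s) (sg u A' • Tm (cayF D) (emb u)
        (ξ ((A'.erase u).map emb ∪ Finset.univ.map zemb)))) =
        sg u A' • Sum.elim
          (fun v => ∑ i, toLX (pderiv v (D.f i)) *
              Ex (c0 r s - Pi.single (Sum.inl i) 1) Finset.univ ξ (A'.erase (Sum.inl v)) +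
            ∑ j, toLX (pderiv v (D.h j)) *
              Ex (c0 r s - Pi.single (Sum.inr j) 1) Finset.univ ξ (A'.erase (Sum.inl v)))
          (fun i => toLX (D.f i) *
            Ex (c0 r s - Pi.single (Sum.inl i) 1) Finset.univ ξ (A'.erase (Sum.inr i))) u := by
      intro u hu
      rw [map_zsmul, map_zsmul]
      congr 1
      rcases u with v | i
      · exact term_x D ξ A' v hu
      · exact term_y D ξ A' i
    rw [Finset.sum_congr rfl h2]
    rw [← Finset.univ_inter A', ← Finset.sum_ite_mem, Fintype.sum_sum_type]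
    simp only [Finset.univ_inter, Sum.elim_inl, Sum.elim_inr, dwe_apply, rhowe_apply]
    rw [Finset.sum_add_distrib, Finset.sum_comm, Finset.sum_comm (γ := Fin s), add_right_comm,
      ← Finset.sum_add_distrib]
    congr 1
    refine Finset.sum_congr rfl fun v _ => ?_
    split_ifs
    · rw [smul_add, Finset.smul_sum, Finset.smul_sum]
    · simp
  · have h1 : ∀ j ∈ (Finset.univ : Finset (Fin s)),
        sg (zemb j : Vr n r s) (A'.map emb ∪ Finset.univ.map zemb) •
        Tm (cayF D) (zemb j) (ξ ((A'.map emb ∪ Finset.univ.map zemb).erase (zemb j))) =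
        ((-1 : ℤ) ^ (A'.card + (j : ℕ))) • Tm (cayF D) (zemb j)
          (ξ (A'.map emb ∪ (Finset.univ.erase j).map zemb)) := by
      intro u _
      rw [sg_zemb, erase_zemb]
    rw [Finset.sum_congr rfl h1, map_sum, map_sum]
    refine Finset.sum_congr rfl fun j _ => ?_
    rw [map_zsmul, map_zsmul]
    have h2 := term_z D ξ A' j
    rw [smulX_apply, mul_smul_comm]
    change ((-1 : ℤ) ^ (A'.card + (j : ℕ))) • sh (xs A') (ext (c0 r s) (Tm (cayF D)
      (Sum.inr (Sum.inr j)) (ξ (A'.map emb ∪ (Finset.univ.erase j).map zemb)))) = _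
    rw [h2, ← Int.cast_smul_eq_zsmul k]
    push_cast
    rfl

/-! ### membership -/

private theorem kp_deg (hd : ∀ i, 1 ≤ d i) (hc : ∀ j, 1 ≤ c j) (e : Vr n r s → ℤ) :
    (cayT n d c hd hc).deg e = ∑ v : Fin (n + 1), e (Sum.inl v) -
      ∑ i, (d i : ℤ) * e (Sum.inr (Sum.inl i)) - ∑ j, (c j : ℤ) * e (Sum.inr (Sum.inr j)) := by
  unfold CType.deg
  rw [Fintype.sum_sum_type, Fintype.sum_sum_type]
  simp only [cayT, Sum.elim_inl, Sum.elim_inr, one_mul, neg_mul, Finset.sum_neg_distrib]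
  ring

private theorem kp_wt (hd : ∀ i, 1 ≤ d i) (hc : ∀ j, 1 ≤ c j) (e : Vr n r s → ℤ) :
    (cayT n d c hd hc).wt e = ∑ u : Fin r ⊕ Fin s, e (Sum.inr u) := by
  unfold CType.wt
  have h11 : (cayT n d c hd hc).Xsᶜ = Finset.univ.map ⟨Sum.inr, Sum.inr_injective⟩ := by
    ext v
    rcases v with v | v <;> simp [cayT]
  rw [h11, Finset.sum_map]
  rfl

private theorem kp_xs (A' : Finset (Fin (n + 1) ⊕ Fin r)) :
    ∑ v, xs A' v = ((A'.filter (fun x => x.isLeft)).card : ℤ) := by
  have h1 : A'.filter (fun x => x.isLeft) =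
      (Finset.univ.filter (fun v : Fin (n + 1) => (Sum.inl v : Fin (n + 1) ⊕ Fin r) ∈ A')).map
        ⟨Sum.inl, Sum.inl_injective⟩ := by
    ext x
    rcases x with x | x <;> simp
  rw [h1, Finset.card_map, Finset.card_filter]
  push_cast
  rfl

private theorem kp_thr_x (hd : ∀ i, 1 ≤ d i) (hc : ∀ j, 1 ≤ c j)
    (A' : Finset (Fin (n + 1) ⊕ Fin r)) (Z' : Finset (Fin s)) (v : Fin (n + 1)) :
    (cayT n d c hd hc).thr (Sum.inl v) (A'.map emb ∪ Z'.map zemb) = xs A' v := by
  unfold CType.thr xs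
  have h1 : ((Sum.inl v : Vr n r s) ∈ A'.map emb ∪ Z'.map zemb ∧
      (Sum.inl v : Vr n r s) ∉ (cayT n d c hd hc).Ys) ↔ Sum.inl v ∈ A' := by
    simp [cayT, emb, zemb]
  simp only [h1]

private theorem kp_thr_y (hd : ∀ i, 1 ≤ d i) (hc : ∀ j, 1 ≤ c j)
    (B : Finset (Vr n r s)) (i : Fin r) :
    (cayT n d c hd hc).thr (Sum.inr (Sum.inl i)) B = 0 := by
  unfold CType.thr
  rw [if_neg]
  rintro ⟨-, h⟩
  exact h (by simp [cayT])

private theorem kp_thr_z (hd : ∀ i, 1 ≤ d i) (hc : ∀ j, 1 ≤ c j)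
    (B : Finset (Vr n r s)) (j : Fin s) :
    (cayT n d c hd hc).thr (Sum.inr (Sum.inr j)) B =
      if (Sum.inr (Sum.inr j) : Vr n r s) ∈ B then 1 else 0 := by
  unfold CType.thr
  have h1 : (Sum.inr (Sum.inr j) : Vr n r s) ∉ (cayT n d c hd hc).Ys := by simp [cayT]
  simp only [h1, not_false_iff, and_true]

private theorem kp_mem_z (A' : Finset (Fin (n + 1) ⊕ Fin r)) (Z' : Finset (Fin s)) (j : Fin s) :
    (Sum.inr (Sum.inr j) : Vr n r s) ∈ A'.map emb ∪ Z'.map zemb ↔ j ∈ Z' := by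
  simp [emb, zemb]

private theorem kp_cond (hd : ∀ i, 1 ≤ d i) (hc : ∀ j, 1 ≤ c j) (T : Finset (Fin (n + 1)))
    (δ j w : ℤ) (c' : Fin r ⊕ Fin s → ℤ) (Z' : Finset (Fin s))
    (A' : Finset (Fin (n + 1) ⊕ Fin r)) (e' : Fin (n + 1) → ℤ) :
    ((((A'.map (emb : _ ↪ Vr n r s) ∪ Z'.map zemb).card : ℤ) = j ∧
      (cayT n d c hd hc).deg (Sum.elim (e' + xs A') c') = δ ∧
      (cayT n d c hd hc).wt (Sum.elim (e' + xs A') c') = w ∧
      (∀ v ∈ (cayT n d c hd hc).Xs, v ∉ TI r s T →
        (cayT n d c hd hc).thr v (A'.map emb ∪ Z'.map zemb) ≤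
          (Sum.elim (e' + xs A') c' : Vr n r s → ℤ) v) ∧
      Negy (cayT n d c hd hc) (A'.map emb ∪ Z'.map zemb) (Sum.elim (e' + xs A') c'))) ↔
    ((A'.card : ℤ) + Z'.card = j ∧
      (∑ v, e' v + ((A'.filter (fun x => x.isLeft)).card : ℤ)) -
        ∑ i, (d i : ℤ) * c' (Sum.inl i) - ∑ j, (c j : ℤ) * c' (Sum.inr j) = δ ∧
      ∑ u, c' u = w ∧ (∀ v, v ∉ T → 0 ≤ e' v) ∧ (∀ i, c' (Sum.inl i) < 0) ∧
      ∀ j, c' (Sum.inr j) < if j ∈ Z' then 1 else 0) := by
  rw [kp_deg, kp_wt, Finset.card_union_of_disjoint (disj _ _), Finset.card_map, Finset.card_map]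
  simp only [Sum.elim_inl, Sum.elim_inr, Pi.add_apply, Finset.sum_add_distrib, kp_xs]
  push_cast
  refine and_congr Iff.rfl (and_congr Iff.rfl (and_congr Iff.rfl (and_congr ?_ ?_)))
  · constructor
    · intro h v hv
      have h1 := h (Sum.inl v) (by simp [cayT]) (by simpa [TI] using hv)
      rw [kp_thr_x] at h1
      simp only [Sum.elim_inl, Pi.add_apply] at h1
      linarith
    · intro h v hv hvT
      rcases v with v | v
      · rw [kp_thr_x]
        have h1 := h v (by simpa [TI] using hvT)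
        simp only [Sum.elim_inl, Pi.add_apply]
        linarith
      · simp [cayT] at hv
  · constructor
    · intro h
      refine ⟨fun i => ?_, fun j => ?_⟩
      · have h1 := h (Sum.inr (Sum.inl i)) (by simp [cayT])
        rw [kp_thr_y] at h1
        exact h1
      · have h1 := h (Sum.inr (Sum.inr j)) (by simp [cayT])
        rw [kp_thr_z] at h1
        simp only [kp_mem_z] at h1
        exact h1
    · rintro ⟨h1, h2⟩ v hv
      rcases v with v | v | v
      · exact absurd (by simp [cayT]) hv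
      · rw [kp_thr_y]
        exact h1 v
      · rw [kp_thr_z]
        simp only [kp_mem_z]
        exact h2 v

/-- degree of the exponent `c'` -/
private def kl (d : Fin r → ℕ) (c : Fin s → ℕ) (c' : Fin r ⊕ Fin s → ℤ) : ℤ :=
  ∑ i, (d i : ℤ) * c' (Sum.inl i) + ∑ j, (c j : ℤ) * c' (Sum.inr j)

private theorem Ex_mem (hd : ∀ i, 1 ≤ d i) (hc : ∀ j, 1 ≤ c j) {T : Finset (Fin (n + 1))}
    {δ j w a l : ℤ} {c' : Fin r ⊕ Fin s → ℤ} {Z' : Finset (Fin s)}
    {ξ : Finset (Vr n r s) → Lau (Vr n r s) k}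
    (h : ξ ∈ CN k (cayT n d c hd hc) (TI r s T) δ j w) (ha : a + Z'.card = j)
    (hl : l - kl d c c' = δ) : Ex c' Z' ξ ∈ Sec k n r T a l := by
  intro A' e' he
  rw [Ex_coeff] at he
  have h1 := (kp_cond hd hc T δ j w c' Z' A' e').1 (h _ _ he)
  unfold kl at hl
  refine ⟨by linarith [h1.1], by linarith [h1.2.1], h1.2.2.2.1⟩

private theorem Em_mem (hd : ∀ i, 1 ≤ d i) (hc : ∀ j, 1 ≤ c j) {T : Finset (Fin (n + 1))}
    {δ j w a l : ℤ} {c' : Fin r ⊕ Fin s → ℤ} {Z' : Finset (Fin s)} {ω : WForm k n r}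
    (h : ω ∈ Sec k n r T a l) (ha : a + Z'.card = j) (hl : l - kl d c c' = δ)
    (hw : ∑ u, c' u = w) (hy : ∀ i, c' (Sum.inl i) < 0)
    (hz : ∀ j, c' (Sum.inr j) < if j ∈ Z' then 1 else 0) :
    Em c' Z' ω ∈ CN k (cayT n d c hd hc) (TI r s T) δ j w := by
  intro B e he
  obtain ⟨h1, e', h2, h3⟩ := Em_coeff_ne _ _ _ he
  obtain ⟨h4, h5, h6⟩ := h _ _ h3
  have h7 := (kp_cond hd hc T δ j w c' Z' (pull B) e').2 (by
    unfold kl at hl
    exact ⟨by rw [h4]; exact ha, by linarith, hw, h6, hy, hz⟩)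
  rw [map_pull h1, ← h2] at h7
  exact h7

private theorem kl_c0 (d : Fin r → ℕ) (c : Fin s → ℕ) : kl d c (c0 r s) = - ∑ i, (d i : ℤ) := by
  unfold kl c0
  simp

private theorem kl_sub (d : Fin r → ℕ) (c : Fin s → ℕ) (c' c'' : Fin r ⊕ Fin s → ℤ) :
    kl d c (c' - c'') = kl d c c' - kl d c c'' := by
  unfold kl
  simp only [Pi.sub_apply, mul_sub, Finset.sum_sub_distrib]
  ring

private theorem kl_y (d : Fin r → ℕ) (c : Fin s → ℕ) (i : Fin r) :
    kl d c (Pi.single (Sum.inl i) 1) = d i := by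
  unfold kl
  simp [Pi.single_apply]

private theorem kl_z (d : Fin r → ℕ) (c : Fin s → ℕ) (j : Fin s) :
    kl d c (Pi.single (Sum.inr j) 1) = c j := by
  unfold kl
  simp [Pi.single_apply]

private theorem sum_c0 : ∑ u, c0 r s u = -(r : ℤ) := by
  rw [Fintype.sum_sum_type]
  simp [c0]

private theorem sum_c0_sub (w : Fin r ⊕ Fin s) :
    ∑ u, (c0 r s - Pi.single w 1 : Fin r ⊕ Fin s → ℤ) u = -(r : ℤ) - 1 := by
  simp only [Pi.sub_apply, Finset.sum_sub_distrib, sum_c0]
  simp

/-- the support in the top weight -/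
private theorem top_form (hd : ∀ i, 1 ≤ d i) (hc : ∀ j, 1 ≤ c j) {T : Finset (Vr n r s)} {δ j : ℤ}
    {ξ : Finset (Vr n r s) → Lau (Vr n r s) k}
    (h : ξ ∈ CN k (cayT n d c hd hc) T δ j (-(r : ℤ))) {B : Finset (Vr n r s)}
    {e' : Vr n r s → ℤ} (he : (ξ B).coeff e' ≠ 0) : ∃ A e, B = compI A ∧ e' = expI s A e := by
  obtain ⟨-, -, h3, -, h5⟩ := h B e' he
  rw [kp_wt, Fintype.sum_sum_type] at h3
  have hy : ∀ i : Fin r, e' (Sum.inr (Sum.inl i)) ≤ -1 := by
    intro i
    have h6 := h5 (Sum.inr (Sum.inl i)) (by simp [cayT])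
    rw [kp_thr_y] at h6
    linarith
  have hz : ∀ j : Fin s, e' (Sum.inr (Sum.inr j)) ≤ 0 := by
    intro j
    have h6 := h5 (Sum.inr (Sum.inr j)) (by simp [cayT])
    rw [kp_thr_z] at h6
    split_ifs at h6 <;> linarith
  have hy1 : ∑ i : Fin r, e' (Sum.inr (Sum.inl i)) ≤ -(r : ℤ) := by
    have h6 := Finset.sum_le_sum (s := (Finset.univ : Finset (Fin r))) fun i _ => hy i
    simpa using h6
  have hz1 : ∑ j : Fin s, e' (Sum.inr (Sum.inr j)) ≤ 0 := Finset.sum_nonpos fun j _ => hz j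
  have hy2 : ∀ i : Fin r, e' (Sum.inr (Sum.inl i)) = -1 := by
    have h6 : ∑ i : Fin r, (-1 - e' (Sum.inr (Sum.inl i))) = 0 := by
      rw [Finset.sum_sub_distrib]
      simp
      linarith
    rw [Finset.sum_eq_zero_iff_of_nonneg (fun i _ => by linarith [hy i])] at h6
    intro i
    linarith [h6 i (Finset.mem_univ i)]
  have hz2 : ∀ j : Fin s, e' (Sum.inr (Sum.inr j)) = 0 := by
    have h6 : ∑ j : Fin s, (-e' (Sum.inr (Sum.inr j))) = 0 := by
      rw [Finset.sum_neg_distrib]
      linarith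
    rw [Finset.sum_eq_zero_iff_of_nonneg (fun i _ => by linarith [hz i])] at h6
    intro i
    linarith [h6 i (Finset.mem_univ i)]
  have hB : B ∩ ZZ n r s = Finset.univ.map zemb := by
    ext v
    rw [Finset.mem_inter, mem_ZZ, Finset.mem_map]
    constructor
    · rintro ⟨-, j, rfl⟩
      exact ⟨j, Finset.mem_univ _, rfl⟩
    · rintro ⟨j, -, rfl⟩
      refine ⟨?_, j, rfl⟩
      have h6 := h5 (Sum.inr (Sum.inr j)) (by simp [cayT])
      rw [kp_thr_z, hz2] at h6
      by_contra h7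
      have h7' : (Sum.inr (Sum.inr j) : Vr n r s) ∉ B := h7
      rw [if_neg h7'] at h6
      exact lt_irrefl _ h6
  refine ⟨pull B, fun v => e' (Sum.inl v) - xs (pull B) v, ?_, ?_⟩
  · rw [compI_eq, map_pull hB]
  · rw [expI_eq]
    funext v
    rcases v with v | v | v
    · simp
    · simp [c0, hy2]
    · simp [c0, hz2]

theorem kapL_mem (hd : ∀ i, 1 ≤ d i) (hc : ∀ j, 1 ≤ c j) {T : Finset (Fin (n + 1))} {a l : ℤ}
    {ξ : Finset (Vr n r s) → Lau (Vr n r s) k}
    (h : ξ ∈ CN k (cayT n d c hd hc) (TI r s T) (l + ∑ i, (d i : ℤ)) (a + s) (-(r : ℤ))) :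
    kapL k n r s ξ ∈ Sec k n r T a l ∧ kapI k n r s (kapL k n r s ξ) = ξ := by
  refine ⟨?_, ?_⟩
  · rw [kapL_eq]
    refine Ex_mem hd hc h (by simp) ?_
    rw [kl_c0]
    ring
  · funext B
    refine lau_ext fun e' => ?_
    by_cases h1 : ∃ A e, B = compI A ∧ e' = expI s A e
    · obtain ⟨A, e, rfl, rfl⟩ := h1
      rw [kapI_coeff, kapL_coeff]
    · have h2 : (kapI k n r s (kapL k n r s ξ) B).coeff e' = 0 := by
        by_contra h3
        exact h1 (kapI_ne h3)
      have h3 : (ξ B).coeff e' = 0 := by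
        by_contra h4
        exact h1 (top_form hd hc h h4)
      rw [h2, h3]

theorem kapI_mem (hd : ∀ i, 1 ≤ d i) (hc : ∀ j, 1 ≤ c j) {T : Finset (Fin (n + 1))} {a l : ℤ}
    {ω : WForm k n r} (h : ω ∈ Sec k n r T a l) :
    kapI k n r s ω ∈ CN k (cayT n d c hd hc) (TI r s T) (l + ∑ i, (d i : ℤ)) (a + s)
      (-(r : ℤ)) := by
  have h1 : Em (c0 r s) Finset.univ ω ∈
      CN k (cayT n d c hd hc) (TI r s T) (l + ∑ i, (d i : ℤ)) (a + s) (-(r : ℤ)) := by
    refine Em_mem hd hc h (by simp) (by rw [kl_c0]; ring) sum_c0 ?_ ?_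
    · intro i
      simp [c0]
    · intro j
      simp [c0]
  have h2 := (kapL_mem hd hc h1).2
  rw [kapL_eq, Ex_Em_same] at h2
  rw [h2]
  exact h1

/-- boundaries are relations -/
theorem kapL_Dn (hd : ∀ i, 1 ≤ d i) (hc : ∀ j, 1 ≤ c j) (D : Datum k n r s d c)
    {T : Finset (Fin (n + 1))} {a l : ℤ} {η : Finset (Vr n r s) → Lau (Vr n r s) k}
    (h : η ∈ CN k (cayT n d c hd hc) (TI r s T) (l + ∑ i, (d i : ℤ)) (a + s - 1)
      (-(r : ℤ) - 1)) :
    kapL k n r s (Dn (cayT n d c hd hc) (cayF D) η) ∈ Rel D T a l := by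
  rw [kapL_eq, Ex_Dn]
  unfold Rel
  refine Submodule.add_mem _ (Submodule.add_mem _ ?_ ?_) ?_
  · refine Submodule.mem_sup_right (Submodule.sum_mem _ fun i _ => ?_)
    refine Submodule.mem_iSup_of_mem i (Submodule.mem_map_of_mem ?_)
    refine Ex_mem hd hc h (by simp; ring) ?_
    rw [kl_sub, kl_c0, kl_y]
    ring
  · refine Submodule.mem_sup_left (Submodule.mem_sup_right (Submodule.sum_mem _ fun j _ => ?_))
    refine Submodule.mem_iSup_of_mem j (Submodule.mem_map_of_mem ?_)
    refine Ex_mem hd hc h (by simp; ring) ?_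
    rw [kl_sub, kl_c0, kl_z]
    ring
  · refine Submodule.mem_sup_left (Submodule.mem_sup_left (Submodule.sum_mem _ fun j _ => ?_))
    refine Submodule.mem_iSup_of_mem j (Submodule.mem_map_of_mem ?_)
    have hs : ((Finset.univ.erase j).card : ℤ) = s - 1 := by
      rw [Finset.card_erase_of_mem (Finset.mem_univ _), Finset.card_univ, Fintype.card_fin,
        Nat.cast_sub (by have := j.2; omega)]
      simp
    have h1 : Ex (c0 r s - Pi.single (Sum.inr j) 1) (Finset.univ.erase j) η ∈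
        Sec k n r T a (l - c j) := by
      refine Ex_mem hd hc h (by rw [hs]; ring) ?_
      rw [kl_sub, kl_c0, kl_z]
      ring
    intro A' e' he
    refine h1 A' e' ?_
    intro h2
    apply he
    simp [h2]

/-- relations are boundaries, one generator at a time -/
private theorem exists_gen (hd : ∀ i, 1 ≤ d i) (hc : ∀ j, 1 ≤ c j) (D : Datum k n r s d c)
    {T : Finset (Fin (n + 1))} {a l : ℤ} :
    Rel D T a l ≤ ((CN k (cayT n d c hd hc) (TI r s T) (l + ∑ i, (d i : ℤ)) (a + s - 1)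
      (-(r : ℤ) - 1)).map (Ex (c0 r s) Finset.univ ∘ₗ Dn (cayT n d c hd hc) (cayF D))) := by
  unfold Rel
  refine sup_le (sup_le ?_ ?_) ?_
  · refine iSup_le fun j => ?_
    rintro _ ⟨ω, hω, rfl⟩
    have hs : ((Finset.univ.erase j).card : ℤ) = s - 1 := by
      rw [Finset.card_erase_of_mem (Finset.mem_univ _), Finset.card_univ, Fintype.card_fin,
        Nat.cast_sub (by have := j.2; omega)]
      simp
    -- correct the sign
    set ω' : WForm k n r := fun A' => (-1 : k) ^ (A'.card + (j : ℕ)) • ω A' with hω'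
    have hω'S : ω' ∈ Sec k n r T a (l - c j) := by
      intro A' e' he
      refine hω A' e' ?_
      intro h2
      apply he
      simp [hω', h2]
    have hsq : (fun A' => (-1 : k) ^ (A'.card + (j : ℕ)) • ω' A') = ω := by
      funext A'
      rw [hω']
      simp only [smul_smul, ← mul_pow]
      simp
    refine ⟨Em (c0 r s - Pi.single (Sum.inr j) 1) (Finset.univ.erase j) ω', ?_, ?_⟩
    · refine Em_mem hd hc hω'S (by rw [hs]; ring) (by rw [kl_sub, kl_c0, kl_z]; ring)
        (sum_c0_sub _) ?_ ?_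
      · intro i
        simp [c0]
      · intro i
        by_cases hij : i = j
        · subst hij
          simp [c0]
        · simp [c0, hij, Pi.single_apply]
    · rw [LinearMap.comp_apply, Ex_Dn]
      have e1 : ∀ i : Fin r, Ex (c0 r s - Pi.single (Sum.inl i) 1) Finset.univ
          (Em (k := k) (n := n) (c0 r s - Pi.single (Sum.inr j) 1) (Finset.univ.erase j) ω') =
            0 := by
        intro i
        refine Ex_Em_ne _ _ _ _ _ ?_
        intro h2
        rw [Prod.mk.injEq] at h2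
        exact (Finset.notMem_erase j Finset.univ) (h2.2 ▸ Finset.mem_univ j)
      have e2 : ∀ i : Fin s, Ex (c0 r s - Pi.single (Sum.inr i) 1) Finset.univ
          (Em (k := k) (n := n) (c0 r s - Pi.single (Sum.inr j) 1) (Finset.univ.erase j) ω') =
            0 := by
        intro i
        refine Ex_Em_ne _ _ _ _ _ ?_
        intro h2
        rw [Prod.mk.injEq] at h2
        exact (Finset.notMem_erase j Finset.univ) (h2.2 ▸ Finset.mem_univ j)
      have e3 : ∀ i : Fin s, i ≠ j → Ex (c0 r s - Pi.single (Sum.inr i) 1) (Finset.univ.erase i)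
          (Em (k := k) (n := n) (c0 r s - Pi.single (Sum.inr j) 1) (Finset.univ.erase j) ω') =
            0 := by
        intro i hij
        refine Ex_Em_ne _ _ _ _ _ ?_
        intro h2
        rw [Prod.mk.injEq] at h2
        have h3 : j ∈ Finset.univ.erase i := Finset.mem_erase.2 ⟨Ne.symm hij, Finset.mem_univ _⟩
        rw [h2.2] at h3
        exact (Finset.notMem_erase j Finset.univ) h3
      rw [Finset.sum_eq_zero (fun i _ => by rw [e1 i, map_zero]),
        Finset.sum_eq_zero (fun i _ => by rw [e2 i, map_zero]), zero_add, zero_add,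
        Finset.sum_eq_single j]
      · rw [Ex_Em_same, hsq]
      · intro i _ hij
        rw [e3 i hij]
        have : (fun A' : Finset (Fin (n + 1) ⊕ Fin r) => (-1 : k) ^ (A'.card + (i : ℕ)) •
            (0 : WForm k n r) A') = 0 := by
          funext A'
          simp
        rw [this, map_zero]
      · intro h
        exact absurd (Finset.mem_univ j) h
  · refine iSup_le fun j => ?_
    rintro _ ⟨ω, hω, rfl⟩
    refine ⟨Em (c0 r s - Pi.single (Sum.inr j) 1) Finset.univ ω, ?_, ?_⟩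
    · refine Em_mem hd hc hω (by simp; ring) (by rw [kl_sub, kl_c0, kl_z]; ring)
        (sum_c0_sub _) ?_ ?_
      · intro i
        simp [c0]
      · intro i
        by_cases hij : i = j
        · subst hij
          simp [c0]
        · simp [c0, hij, Pi.single_apply]
    · rw [LinearMap.comp_apply, Ex_Dn]
      have e1 : ∀ i : Fin r, Ex (c0 r s - Pi.single (Sum.inl i) 1) Finset.univ
          (Em (k := k) (n := n) (c0 r s - Pi.single (Sum.inr j) 1) Finset.univ ω) = 0 := by
        intro i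
        refine Ex_Em_ne _ _ _ _ _ ?_
        intro h2
        rw [Prod.mk.injEq] at h2
        have h3 := congrFun h2.1 (Sum.inr j)
        simp [c0] at h3
      have e2 : ∀ i : Fin s, i ≠ j → Ex (c0 r s - Pi.single (Sum.inr i) 1) Finset.univ
          (Em (k := k) (n := n) (c0 r s - Pi.single (Sum.inr j) 1) Finset.univ ω) = 0 := by
        intro i hij
        refine Ex_Em_ne _ _ _ _ _ ?_
        intro h2
        rw [Prod.mk.injEq] at h2
        have h3 := congrFun h2.1 (Sum.inr j)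
        simp [c0, Pi.single_apply, Ne.symm hij] at h3
      have e3 : ∀ i : Fin s, Ex (c0 r s - Pi.single (Sum.inr i) 1) (Finset.univ.erase i)
          (Em (k := k) (n := n) (c0 r s - Pi.single (Sum.inr j) 1) Finset.univ ω) = 0 := by
        intro i
        refine Ex_Em_ne _ _ _ _ _ ?_
        intro h2
        rw [Prod.mk.injEq] at h2
        have h3 : i ∈ (Finset.univ : Finset (Fin s)) := Finset.mem_univ _
        rw [← h2.2] at h3
        exact (Finset.notMem_erase i Finset.univ) h3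
      have e4 : ∀ i : Fin s, (fun A' : Finset (Fin (n + 1) ⊕ Fin r) =>
          (-1 : k) ^ (A'.card + (i : ℕ)) • Ex (c0 r s - Pi.single (Sum.inr i) 1)
            (Finset.univ.erase i)
          (Em (k := k) (n := n) (c0 r s - Pi.single (Sum.inr j) 1) Finset.univ ω) A') = 0 := by
        intro i
        funext A'
        rw [e3 i]
        simp
      rw [Finset.sum_eq_zero (fun i _ => by rw [e1 i, map_zero]), zero_add,
        Finset.sum_eq_zero (s := (Finset.univ : Finset (Fin s)))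
          (f := fun i => smulX (toLX (D.h i)) _) (fun i _ => by
            rw [e4 i, map_zero]), add_zero, Finset.sum_eq_single j]
      · rw [Ex_Em_same]
      · intro i _ hij
        rw [e2 i hij, map_zero]
      · intro h
        exact absurd (Finset.mem_univ j) h
  · refine iSup_le fun i₀ => ?_
    rintro _ ⟨ω, hω, rfl⟩
    refine ⟨Em (c0 r s - Pi.single (Sum.inl i₀) 1) Finset.univ ω, ?_, ?_⟩
    · refine Em_mem hd hc hω (by simp; ring) (by rw [kl_sub, kl_c0, kl_y]; ring)
        (sum_c0_sub _) ?_ ?_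
      · intro i
        by_cases hij : i = i₀
        · subst hij
          simp [c0]
        · simp [c0, hij, Pi.single_apply]
      · intro i
        simp [c0]
    · rw [LinearMap.comp_apply, Ex_Dn]
      have e1 : ∀ i : Fin r, i ≠ i₀ → Ex (c0 r s - Pi.single (Sum.inl i) 1) Finset.univ
          (Em (k := k) (n := n) (c0 r s - Pi.single (Sum.inl i₀) 1) Finset.univ ω) = 0 := by
        intro i hij
        refine Ex_Em_ne _ _ _ _ _ ?_
        intro h2
        rw [Prod.mk.injEq] at h2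
        have h3 := congrFun h2.1 (Sum.inl i₀)
        simp [c0, Pi.single_apply, Ne.symm hij] at h3
      have e2 : ∀ i : Fin s, Ex (c0 r s - Pi.single (Sum.inr i) 1) Finset.univ
          (Em (k := k) (n := n) (c0 r s - Pi.single (Sum.inl i₀) 1) Finset.univ ω) = 0 := by
        intro i
        refine Ex_Em_ne _ _ _ _ _ ?_
        intro h2
        rw [Prod.mk.injEq] at h2
        have h3 := congrFun h2.1 (Sum.inr i)
        simp [c0, Pi.single_apply] at h3
      have e3 : ∀ i : Fin s, Ex (c0 r s - Pi.single (Sum.inr i) 1) (Finset.univ.erase i)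
          (Em (k := k) (n := n) (c0 r s - Pi.single (Sum.inl i₀) 1) Finset.univ ω) = 0 := by
        intro i
        refine Ex_Em_ne _ _ _ _ _ ?_
        intro h2
        rw [Prod.mk.injEq] at h2
        have h3 : i ∈ (Finset.univ : Finset (Fin s)) := Finset.mem_univ _
        rw [← h2.2] at h3
        exact (Finset.notMem_erase i Finset.univ) h3
      have e4 : ∀ i : Fin s, (fun A' : Finset (Fin (n + 1) ⊕ Fin r) =>
          (-1 : k) ^ (A'.card + (i : ℕ)) • Ex (c0 r s - Pi.single (Sum.inr i) 1)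
            (Finset.univ.erase i)
          (Em (k := k) (n := n) (c0 r s - Pi.single (Sum.inl i₀) 1) Finset.univ ω) A') = 0 := by
        intro i
        funext A'
        rw [e3 i]
        simp
      rw [Finset.sum_eq_zero (s := (Finset.univ : Finset (Fin s)))
          (f := fun i => dwe (D.h i) _) (fun i _ => by
            rw [e2 i, map_zero]), add_zero,
        Finset.sum_eq_zero (s := (Finset.univ : Finset (Fin s)))
          (f := fun i => smulX (toLX (D.h i)) _) (fun i _ => by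
            rw [e4 i, map_zero]), add_zero, Finset.sum_eq_single i₀]
      · rw [Ex_Em_same]
      · intro i _ hij
        rw [e1 i hij, map_zero]
      · intro h
        exact absurd (Finset.mem_univ i₀) h

/-- relations are boundaries -/
theorem exists_of_rel (hd : ∀ i, 1 ≤ d i) (hc : ∀ j, 1 ≤ c j) (D : Datum k n r s d c)
    {T : Finset (Fin (n + 1))} {a l : ℤ} {ρ : WForm k n r} (h : ρ ∈ Rel D T a l) :
    ∃ η ∈ CN k (cayT n d c hd hc) (TI r s T) (l + ∑ i, (d i : ℤ)) (a + s - 1)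
      (-(r : ℤ) - 1), Dn (cayT n d c hd hc) (cayF D) η = kapI k n r s ρ := by
  obtain ⟨η, hη, hη0⟩ := exists_gen hd hc D h
  refine ⟨η, hη, ?_⟩
  have h1 := Dn_mem (cay_hom D hd hc) hη
  rw [sub_add_cancel, sub_add_cancel] at h1
  have h2 := (kapL_mem hd hc h1).2
  rw [kapL_eq] at h2
  rw [← h2]
  congr 1

end

end HN
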