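import Pool.Agent.HN.Unit
import Pool.Agent.HN.CeExact

/-! # HN/KosExact : the graded Koszul complex is exact below degree `card ι - 1` (module HN-06)

`kos_exact`: systems of submodules of `Finset ι → Lau ι R`:
* `Mc S` (cone over `S`): `KT R C T δ j` if `T ⊆ S`, `⊥` otherwise, differential `tot S (Dk F)`,
  used for `S = Xs`, `Xsᶜ`, `univ`;
* mixed `Mz` : `KT R C T δ j` if `T` meets `Xs` and `Xsᶜ`, `⊥` otherwise, differential `tot univ`.
-/

open MvPolynomial

namespace HN

section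
variable {ι : Type*} [Fintype ι] [DecidableEq ι] [Ranked ι] {R : Type*} [CommRing R]

/-- the cone over `S` -/
private def Mc (R : Type*) [CommRing R] (C : CType ι) (δ : ℤ) (S : Finset ι) (T : Finset ι)
    (j : ℤ) : Submodule R (Finset ι → Lau ι R) :=
  MM R C S Finset.univ (fun U => U = ∅) (fun _ e => C.deg e = δ) T j

private theorem mem_Mc {C : CType ι} {δ : ℤ} {S T : Finset ι} {j : ℤ} (h : T ⊆ S)
    {x : Finset ι → Lau ι R} : x ∈ Mc R C δ S T j ↔ x ∈ KT R C T δ j := by
  have h' : T \ S = ∅ := Finset.sdiff_eq_empty_iff_subset.2 h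
  constructor
  · intro hx A e he
    obtain ⟨-, h1, h2, h3⟩ := hx A e he
    exact ⟨h1, h2, fun v hv => h3 v (Finset.mem_univ v) hv⟩
  · intro hx A e he
    obtain ⟨h1, h2, h3⟩ := hx A e he
    exact ⟨h', h1, h2, fun v _ hv => h3 v hv⟩

private theorem Mc_eq_zero {C : CType ι} {δ : ℤ} {S T : Finset ι} {j : ℤ} (h : ¬ T ⊆ S)
    {x : Finset ι → Lau ι R} (hx : x ∈ Mc R C δ S T j) : x = 0 := by
  funext A
  refine lau_ext fun e => ?_
  by_contra he
  exact h (Finset.sdiff_eq_empty_iff_subset.1 (hx A e he).1)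

private theorem Mc_D {C : CType ι} {F : MvPolynomial ι R} (hF : C.Hom F) {δ : ℤ} (S T : Finset ι)
    (j : ℤ) (x : Finset ι → Lau ι R) (hx : x ∈ Mc R C δ S T j) :
    Dk F x ∈ Mc R C δ S T (j + 1) := by
  by_cases h : T ⊆ S
  · rw [mem_Mc h] at hx ⊢
    exact Dk_mem_KT hF hx
  · rw [Mc_eq_zero h hx, map_zero]
    exact Submodule.zero_mem _

private theorem Mc_incl {C : CType ι} {δ : ℤ} {S : Finset ι} (T : Finset ι) (j : ℤ) (v : ι)
    (hv : v ∈ S) (_ : v ∉ T) : Mc R C δ S T j ≤ Mc R C δ S (insert v T) j := by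
  intro x hx
  by_cases h : T ⊆ S
  · have h2 : insert v T ⊆ S := Finset.insert_subset hv h
    rw [mem_Mc h] at hx
    rw [mem_Mc h2]
    exact KT_mono C (Finset.subset_insert v T) δ j hx
  · rw [Mc_eq_zero h hx]
    exact Submodule.zero_mem _

/-- exactness of the cones -/
private theorem cone_exact {C : CType ι} {F : MvPolynomial ι R} (hF : C.Hom F) {δ : ℤ}
    (S : Finset ι) (m : ℤ)
    (hv : ∀ (A : Finset ι) (e : ι → ℤ) (T : Finset ι), (T.card : ℤ) + A.card = m →
      C.deg e = δ → T ⊆ S → (∀ v, v ∉ T → C.thr v A ≤ e v) → ∃ v ∈ S, C.thr v A ≤ e v)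
    (ξ : Finset ι → Finset ι → Lau ι R) (hξ : ξ ∈ Tt (Mc R C δ S) m)
    (h0 : tot S (Dk F) ξ = 0) :
    ∃ η ∈ Tt (Mc R C δ S) (m - 1), tot S (Dk F) η = ξ := by
  refine tot_of_ce (Mc R C δ S) S (Dk F) (fun T j x _ => Dk_Dk F x)
    (fun T j x hx => Mc_D hF S T j x hx) (fun T j v hvS hvT => Mc_incl T j v hvS hvT) m ?_ ξ hξ h0
  intro p j hpj ζ hζ hζ0
  refine ce_exact C S Finset.univ (Finset.subset_univ S) (fun U => U = ∅)
    (fun _ e => C.deg e = δ) p j ?_ ζ hζ hζ0
  intro A e T hT hA hQ hW hthr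
  exact hv A e T (by rw [hT, hA, hpj]) hQ (Finset.sdiff_eq_empty_iff_subset.1 hW)
    (fun v hvT => hthr v (Finset.mem_univ v) hvT)

private theorem thr_le_one (C : CType ι) (v : ι) (A : Finset ι) : C.thr v A ≤ 1 := by
  unfold CType.thr
  split_ifs <;> norm_num

private theorem hv_x {C : CType ι} {δ : ℤ} (hδ0 : 0 < δ) (A : Finset ι) (e : ι → ℤ)
    (T : Finset ι) (hd : C.deg e = δ) (hT : T ⊆ C.Xs) (h : ∀ v, v ∉ T → C.thr v A ≤ e v) :
    ∃ v ∈ C.Xs, C.thr v A ≤ e v := by
  by_contra hcon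
  push Not at hcon
  have h1 : C.deg e ≤ 0 := by
    unfold CType.deg
    refine Finset.sum_nonpos fun v _ => ?_
    by_cases hv : v ∈ C.Xs
    · have h2 := hcon v hv
      have h3 := thr_le_one C v A
      rw [C.hX v hv]
      linarith
    · have h2 := h v (fun hc => hv (hT hc))
      have h3 := thr_nonneg C v A
      have h4 := C.hneg v hv
      nlinarith
  linarith

private theorem hv_y {C : CType ι} {δ : ℤ} (hδ1 : δ < C.dlog) (A : Finset ι) (e : ι → ℤ)
    (T : Finset ι) (hd : C.deg e = δ) (hT : T ⊆ C.Xsᶜ) (h : ∀ v, v ∉ T → C.thr v A ≤ e v) :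
    ∃ v ∈ C.Xsᶜ, C.thr v A ≤ e v := by
  by_contra hcon
  push Not at hcon
  have h1 : C.dlog ≤ C.deg e := by
    unfold CType.deg CType.dlog
    have h2 : ∑ v ∈ C.Ys, - C.wd v = ∑ v, if v ∈ C.Ys then - C.wd v else 0 := by
      rw [Finset.sum_ite_mem, Finset.univ_inter]
    rw [h2]
    refine Finset.sum_le_sum fun v _ => ?_
    by_cases hv : v ∈ C.Xs
    · have hvY : v ∉ C.Ys := fun hc => C.hXY v hc hv
      have hvT : v ∉ T := fun hc => (Finset.mem_compl.1 (hT hc)) hv
      have h3 := h v hvT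
      have h4 := thr_nonneg C v A
      rw [if_neg hvY, C.hX v hv]
      linarith
    · have h3 := hcon v (Finset.mem_compl.2 hv)
      have h4 := C.hneg v hv
      by_cases hvY : v ∈ C.Ys
      · have h5 : C.thr v A = 0 := by
          unfold CType.thr
          exact if_neg (fun hc => hc.2 hvY)
        rw [h5] at h3
        rw [if_pos hvY]
        nlinarith
      · have h5 := thr_le_one C v A
        rw [if_neg hvY]
        have h6 : e v ≤ 0 := by linarith
        nlinarith
  linarith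

private theorem hv_full {C : CType ι} {m : ℤ} (hm : m < Fintype.card ι) (A : Finset ι) (e : ι → ℤ)
    (T : Finset ι) (hTA : (T.card : ℤ) + A.card = m) (h : ∀ v, v ∉ T → C.thr v A ≤ e v) :
    ∃ v ∈ (Finset.univ : Finset ι), C.thr v A ≤ e v := by
  have h1 : T ≠ Finset.univ := by
    rintro rfl
    rw [Finset.card_univ] at hTA
    have h2 : (0 : ℤ) ≤ (A.card : ℤ) := by positivity
    linarith
  obtain ⟨v, hv⟩ : ∃ v, v ∉ T := by
    by_contra hcon
    push Not at hcon
    exact h1 (Finset.eq_univ_iff_forall.2 hcon)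
  exact ⟨v, Finset.mem_univ v, h v hv⟩

/-- sets meeting `Xs` and its complement -/
private def Mixd (C : CType ι) (T : Finset ι) : Prop := (∃ a ∈ T, a ∈ C.Xs) ∧ ∃ b ∈ T, b ∉ C.Xs

/-- the mixed system -/
private def Mz (R : Type*) [CommRing R] (C : CType ι) (δ : ℤ) (T : Finset ι)
    (j : ℤ) : Submodule R (Finset ι → Lau ι R) :=
  Sp R (fun A e => Mixd C T ∧ (A.card : ℤ) = j ∧ C.deg e = δ ∧ ∀ v, v ∉ T → C.thr v A ≤ e v)

private theorem mem_Mz {C : CType ι} {δ : ℤ} {T : Finset ι} {j : ℤ} (h : Mixd C T)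
    {x : Finset ι → Lau ι R} : x ∈ Mz R C δ T j ↔ x ∈ KT R C T δ j := by
  constructor
  · intro hx A e he
    exact (hx A e he).2
  · intro hx A e he
    exact ⟨h, hx A e he⟩

private theorem Mz_eq_zero {C : CType ι} {δ : ℤ} {T : Finset ι} {j : ℤ} (h : ¬ Mixd C T)
    {x : Finset ι → Lau ι R} (hx : x ∈ Mz R C δ T j) : x = 0 := by
  funext A
  refine lau_ext fun e => ?_
  by_contra he
  exact h (hx A e he).1

private theorem Mz_le_KT {C : CType ι} {δ : ℤ} {T : Finset ι} {j : ℤ} :
    Mz R C δ T j ≤ KT R C T δ j := fun _ hx A e he => (hx A e he).2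

private theorem mixed_exact {C : CType ι} {F : MvPolynomial ι R} (hF : C.Hom F)
    (hU : C.UnitCond F) {δ : ℤ} (m : ℤ)
    (ξ : Finset ι → Finset ι → Lau ι R) (hξ : ξ ∈ Tt (Mz R C δ) m)
    (h0 : tot Finset.univ (Dk F) ξ = 0) :
    ∃ η ∈ Tt (Mz R C δ) (m - 1), tot Finset.univ (Dk F) η = ξ := by
  refine tot_of_D (Mz R C δ) Finset.univ (Dk F) (fun T j x _ => Dk_Dk F x) ?_ ?_ m ?_ ξ hξ h0
  · intro T j x hx
    by_cases h : Mixd C T
    · rw [mem_Mz h] at hx ⊢
      exact Dk_mem_KT hF hx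
    · rw [Mz_eq_zero h hx, map_zero]
      exact Submodule.zero_mem _
  · intro T j v _ _ x hx
    by_cases h : Mixd C T
    · have h2 : Mixd C (insert v T) := by
        obtain ⟨⟨a, ha, ha'⟩, b, hb, hb'⟩ := h
        exact ⟨⟨a, Finset.mem_insert_of_mem ha, ha'⟩, b, Finset.mem_insert_of_mem hb, hb'⟩
      rw [mem_Mz h] at hx
      rw [mem_Mz h2]
      exact KT_mono C (Finset.subset_insert v T) δ j hx
    · rw [Mz_eq_zero h hx]
      exact Submodule.zero_mem _
  · intro T x hx hx0
    by_cases h : Mixd C T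
    · rw [mem_Mz h] at hx
      obtain ⟨a, ha, ha'⟩ := h.1
      obtain ⟨b, hb, hb'⟩ := h.2
      obtain ⟨y, hy, hy'⟩ := unit_exact hF ha hb (hU a ha' b hb') hx hx0
      exact ⟨y, (mem_Mz h).2 hy, hy'⟩
    · exact ⟨0, Submodule.zero_mem _, by rw [map_zero, Mz_eq_zero h hx]⟩

/-- the Cech differential of a family of elements of `KT` -/
private theorem ce_mem_KT {C : CType ι} {δ m : ℤ} (S : Finset ι)
    {x : Finset ι → Finset ι → Lau ι R} (hx : ∀ T, x T ∈ KT R C T δ (m - T.card)) (T : Finset ι) :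
    ce R S x T ∈ KT R C T δ (m + 1 - T.card) := by
  rw [ce_apply]
  refine Submodule.sum_mem _ fun v hv => ?_
  have hvT := (Finset.mem_inter.1 hv).1
  have h1 := hx (T.erase v)
  have h2 : (m - ((T.erase v).card : ℤ)) = m + 1 - T.card := by
    rw [Finset.card_erase_of_mem hvT]
    have : 1 ≤ T.card := Finset.card_pos.2 ⟨v, hvT⟩
    push_cast [Nat.cast_sub this]
    ring
  rw [h2] at h1
  have h3 := KT_mono C (Finset.erase_subset v T) δ (m + 1 - T.card) h1
  exact zsmul_mem h3 _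

theorem kos_exact {C : CType ι} {F : MvPolynomial ι R} (hF : C.Hom F) (hU : C.UnitCond F)
    {δ j : ℤ} (hδ0 : 0 < δ) (hδ1 : δ < C.dlog) (hj : j < (Fintype.card ι : ℤ) - 1)
    {ξ : Finset ι → Lau ι R} (hξ : ξ ∈ KT R C ∅ δ j) (h0 : Dk F ξ = 0) :
    ∃ η ∈ KT R C ∅ δ (j - 1), Dk F η = ξ := by
  classical
  set a : Finset ι → Finset ι → Lau ι R := fun T => if T = ∅ then ξ else 0 with ha
  have haM : ∀ T, a T ∈ KT R C T δ (j - T.card) := by
    intro T
    by_cases hT : T = ∅
    · subst hT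
      simpa [ha] using hξ
    · simp only [ha, if_neg hT]
      exact Submodule.zero_mem _
  have hDa : ∀ T, Dk F (a T) = 0 := by
    intro T
    by_cases hT : T = ∅
    · simp only [ha, if_pos hT, h0]
    · simp only [ha, if_neg hT, map_zero]
  set dx := ce R C.Xs a with hdx
  have hdxM : ∀ T, dx T ∈ KT R C T δ (j + 1 - T.card) := ce_mem_KT C.Xs haM
  have hmp : ∀ (x : Finset ι → Finset ι → Lau ι R) (T : Finset ι), mp R (Dk F) x T = Dk F (x T) :=
    fun _ _ => rfl
  have hDdx : ∀ T, Dk F (dx T) = 0 := by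
    intro T
    rw [← hmp, hdx, mp_ce]
    have h1 : mp R (Dk F) a = 0 := by
      funext T
      exact hDa T
    rw [h1, map_zero]
    rfl
  have hceuniv : ∀ x : Finset ι → Finset ι → Lau ι R,
      ce R Finset.univ x = ce R C.Xs x + ce R C.Xsᶜ x := by
    intro x
    unfold ce
    rw [← LinearMap.add_apply, Finset.sum_add_sum_compl]
  have htotdx : tot Finset.univ (Dk F) dx = ce R C.Xsᶜ dx := by
    funext T
    have h1 : tot Finset.univ (Dk F) dx T
        = ce R Finset.univ dx T + (-1 : R) ^ T.card • Dk F (dx T) := rfl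
    rw [h1, hDdx, smul_zero, add_zero, hceuniv, hdx, ce_ce, zero_add]
  -- the mixed part
  have hZM : ce R C.Xsᶜ dx ∈ Tt (Mz R C δ) (j + 2) := by
    intro T
    by_cases h : Mixd C T
    · rw [mem_Mz h]
      have h1 := ce_mem_KT (m := j + 1) C.Xsᶜ hdxM T
      have h2 : j + 1 + 1 - (T.card : ℤ) = j + 2 - T.card := by ring
      rw [h2] at h1
      exact h1
    · have h1 : ce R C.Xsᶜ dx T = 0 := by
        rw [ce_apply]
        refine Finset.sum_eq_zero fun v hv => ?_
        have hv1 := (Finset.mem_inter.1 hv).1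
        have hv2 := Finset.mem_compl.1 (Finset.mem_inter.1 hv).2
        have h2 : dx (T.erase v) = 0 := by
          rw [hdx, ce_apply]
          refine Finset.sum_eq_zero fun u hu => ?_
          have hu1 := Finset.mem_of_mem_erase (Finset.mem_inter.1 hu).1
          exact absurd ⟨⟨u, hu1, (Finset.mem_inter.1 hu).2⟩, v, hv1, hv2⟩ h
        rw [h2, smul_zero]
      rw [h1]
      exact Submodule.zero_mem _
  have hcoc : tot Finset.univ (Dk F) (ce R C.Xsᶜ dx) = 0 := by
    rw [← htotdx]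
    exact tot_tot _ _ _ (fun T => Dk_Dk F _)
  obtain ⟨ζ, hζM, hζ⟩ := mixed_exact hF hU (j + 2) _ hZM hcoc
  have hζ0 : ∀ T, ¬ Mixd C T → ζ T = 0 := fun T hT => Mz_eq_zero hT (hζM T)
  -- the full complex
  have hθM : dx - ζ ∈ Tt (Mc R C δ Finset.univ) (j + 1) := by
    intro T
    rw [mem_Mc (Finset.subset_univ T)]
    refine Submodule.sub_mem _ (hdxM T) ?_
    have h1 := Mz_le_KT (hζM T)
    have h2 : j + 2 - 1 - (T.card : ℤ) = j + 1 - T.card := by ring
    rw [h2] at h1
    exact h1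
  have hθ0 : tot Finset.univ (Dk F) (dx - ζ) = 0 := by
    rw [map_sub, htotdx, hζ, sub_self]
  obtain ⟨η, hηM, hη⟩ := cone_exact hF Finset.univ (j + 1)
    (fun A e T hTA _ _ h => hv_full (by linarith) A e T hTA h) _ hθM hθ0
  have hηM' : ∀ T, η T ∈ KT R C T δ (j - T.card) := by
    intro T
    have h1 := (mem_Mc (Finset.subset_univ T)).1 (hηM T)
    have h2 : j + 1 - 1 - (T.card : ℤ) = j - T.card := by ring
    rw [h2] at h1
    exact h1
  -- values of the differential of `η`
  have htot : ∀ T, ∑ v ∈ T, sg v T • η (T.erase v) + (-1 : R) ^ T.card • Dk F (η T)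
      = dx T - ζ T := by
    intro T
    have h1 := congrFun hη T
    rw [tot_apply, Finset.inter_univ] at h1
    exact h1
  -- restriction to the `y`-side
  have hY : ∃ μ ∈ KT R C ∅ δ (j - 1), Dk F μ = η ∅ := by
    have hM : (fun T => if T ⊆ C.Xsᶜ then η T else 0) ∈ Tt (Mc R C δ C.Xsᶜ) j := by
      intro T
      by_cases hT : T ⊆ C.Xsᶜ
      · simp only [if_pos hT]
        rw [mem_Mc hT]
        exact hηM' T
      · simp only [if_neg hT]
        exact Submodule.zero_mem _
    have hT0 : tot C.Xsᶜ (Dk F) (fun T => if T ⊆ C.Xsᶜ then η T else 0) = 0 := by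
      funext T
      rw [tot_apply]
      by_cases hT : T ⊆ C.Xsᶜ
      · rw [Finset.inter_eq_left.2 hT]
        have h1 : ∀ v ∈ T, sg v T • (if T.erase v ⊆ C.Xsᶜ then η (T.erase v) else 0)
            = sg v T • η (T.erase v) := by
          intro v _
          rw [if_pos ((Finset.erase_subset v T).trans hT)]
        rw [Finset.sum_congr rfl h1, if_pos hT, htot T]
        have h2 : dx T = 0 := by
          rw [hdx, ce_apply]
          refine Finset.sum_eq_zero fun v hv => ?_
          exact absurd (Finset.mem_inter.1 hv).2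
            (Finset.mem_compl.1 (hT (Finset.mem_inter.1 hv).1))
        have h3 : ζ T = 0 := by
          refine hζ0 T fun hc => ?_
          obtain ⟨u, hu, hu'⟩ := hc.1
          exact Finset.mem_compl.1 (hT hu) hu'
        rw [h2, h3, sub_self]
        rfl
      · rw [if_neg hT, map_zero, smul_zero, add_zero]
        refine Finset.sum_eq_zero fun v hv => ?_
        rw [if_neg, smul_zero]
        intro hc
        refine hT fun u hu => ?_
        by_cases huv : u = v
        · rw [huv]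
          exact (Finset.mem_inter.1 hv).2
        · exact hc (Finset.mem_erase.2 ⟨huv, hu⟩)
    obtain ⟨ρ, hρM, hρ⟩ := cone_exact hF C.Xsᶜ j
      (fun A e T _ hd hT h => hv_y hδ1 A e T hd hT h) _ hM hT0
    refine ⟨ρ ∅, ?_, ?_⟩
    · have h1 := (mem_Mc (Finset.empty_subset _)).1 (hρM ∅)
      simpa using h1
    · have h1 := congrFun hρ ∅
      rw [tot_apply] at h1
      simpa using h1
  -- restriction to the `x`-side
  have hX : ∃ ν ∈ KT R C ∅ δ (j - 1), Dk F ν = ξ - η ∅ := by
    have hM : (fun T => if T ⊆ C.Xs then a T - η T else 0) ∈ Tt (Mc R C δ C.Xs) j := by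
      intro T
      by_cases hT : T ⊆ C.Xs
      · simp only [if_pos hT]
        rw [mem_Mc hT]
        exact Submodule.sub_mem _ (haM T) (hηM' T)
      · simp only [if_neg hT]
        exact Submodule.zero_mem _
    have hT0 : tot C.Xs (Dk F) (fun T => if T ⊆ C.Xs then a T - η T else 0) = 0 := by
      funext T
      rw [tot_apply]
      by_cases hT : T ⊆ C.Xs
      · rw [Finset.inter_eq_left.2 hT]
        have h1 : ∀ v ∈ T, sg v T • (if T.erase v ⊆ C.Xs then a (T.erase v) - η (T.erase v) else 0)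
            = sg v T • a (T.erase v) - sg v T • η (T.erase v) := by
          intro v _
          rw [if_pos ((Finset.erase_subset v T).trans hT), smul_sub]
        rw [Finset.sum_congr rfl h1, if_pos hT, Finset.sum_sub_distrib, map_sub, hDa T, zero_sub,
          smul_neg]
        have h3 : ζ T = 0 := by
          refine hζ0 T fun hc => ?_
          obtain ⟨u, hu, hu'⟩ := hc.2
          exact hu' (hT hu)
        have h4 := htot T
        have h5 : dx T = ∑ v ∈ T, sg v T • a (T.erase v) := by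
          rw [hdx, ce_apply, Finset.inter_eq_left.2 hT]
        rw [h3, sub_zero] at h4
        rw [← h5, ← h4]
        simp
      · rw [if_neg hT, map_zero, smul_zero, add_zero]
        refine Finset.sum_eq_zero fun v hv => ?_
        rw [if_neg, smul_zero]
        intro hc
        refine hT fun u hu => ?_
        by_cases huv : u = v
        · rw [huv]
          exact (Finset.mem_inter.1 hv).2
        · exact hc (Finset.mem_erase.2 ⟨huv, hu⟩)
    obtain ⟨ρ, hρM, hρ⟩ := cone_exact hF C.Xs j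
      (fun A e T _ hd hT h => hv_x hδ0 A e T hd hT h) _ hM hT0
    refine ⟨ρ ∅, ?_, ?_⟩
    · have h1 := (mem_Mc (Finset.empty_subset _)).1 (hρM ∅)
      simpa using h1
    · have h1 := congrFun hρ ∅
      rw [tot_apply] at h1
      simpa [ha] using h1
  obtain ⟨μ, hμ, hμ'⟩ := hY
  obtain ⟨ν, hν, hν'⟩ := hX
  exact ⟨μ + ν, Submodule.add_mem _ hμ hν, by rw [map_add, hμ', hν']; abel⟩

theorem kos_exact_wt {C : CType ι} {F : MvPolynomial ι R} (hF : C.Hom F) (hU : C.UnitCond F)
    {δ j w : ℤ} (hδ0 : 0 < δ) (hδ1 : δ < C.dlog) (hj : j < (Fintype.card ι : ℤ) - 1)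
    {ξ : Finset ι → Lau ι R} (hξ : ξ ∈ KW R C ∅ δ j w) (h0 : Dk F ξ = 0) :
    ∃ η ∈ KW R C ∅ δ (j - 1) (w - 1), Dk F η = ξ := by
  classical
  obtain ⟨η, hη, hη'⟩ := kos_exact hF hU hδ0 hδ1 hj (KW_le_KT C ∅ δ j w hξ) h0
  refine ⟨mp R (restr R {e | C.wt e = w - 1}) η, mp_restr_wt_mem (w - 1) hη, ?_⟩
  rw [← restr_wt_Dk hF, hη', sub_add_cancel]
  funext A
  refine lau_ext fun e => ?_
  have h1 : mp R (restr R {e | C.wt e = w}) ξ A = restr R {e | C.wt e = w} (ξ A) := rfl
  rw [h1, restr_coeff]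
  by_cases he : (ξ A).coeff e = 0
  · simp [he]
  · rw [if_pos]
    exact (hξ A e he).2.2.2

end

end HN
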