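import Pool.Agent.HN.ExtLem

/-! # HN/KosReg : Koszul cochain complex of a weakly regular sequence (module HN-C1)

PLAN.  Induction on `s`.  `List.ofFn h = List.ofFn (h ∘ castSucc) ++ [h (last s)]`
(`List.ofFn_succ'`, `RingTheory.Sequence.isWeaklyRegular_append_iff`).  Write
`g = a + e_last ∧ b`, `a, b` families over the subsets of `{0..s-1}` (as `last` has the largest
rank, signs are `(-1)^{|Z|}` at worst); `kos g = 0` means `kos' a = 0`, `h_s a = ± kos' b`.
If `i < s`: `a = kos' u`, then `kos' (b ∓ h_s u) = 0` and `b ∓ h_s u` (degree `i-1 < s`) is exact.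
If `i = s` (top degree of the small complex): `a` has the single coefficient `a_top`,
`h_s a_top ∈ (h_0..h_{s-1})`, hence `a_top ∈ (h_0..h_{s-1})` by regularity, i.e. `a = kos' u`;
conclude as before.
-/

namespace HN

section kosreg
variable {P : Type*} [CommRing P] {s : ℕ}

/-- the image of a subset of `Fin s` in `Fin (s + 1)` -/
private def krE (Z : Finset (Fin s)) : Finset (Fin (s + 1)) := Z.map Fin.castSuccEmb

/-- the trace of a subset of `Fin (s + 1)` on `Fin s` -/
private def krD (Z : Finset (Fin (s + 1))) : Finset (Fin s) :=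
  Finset.univ.filter fun v => v.castSucc ∈ Z

private theorem kr_mem {Z : Finset (Fin s)} {v : Fin s} : v.castSucc ∈ krE Z ↔ v ∈ Z := by
  unfold krE
  rw [Finset.mem_map]
  constructor
  · rintro ⟨w, hw, h⟩
    rwa [← Fin.castSucc_injective _ h]
  · intro h
    exact ⟨v, h, rfl⟩

private theorem kr_last (Z : Finset (Fin s)) : Fin.last s ∉ krE Z := by
  unfold krE
  rw [Finset.mem_map]
  rintro ⟨w, _, h⟩
  exact Fin.castSucc_ne_last w h

private theorem krD_krE (Z : Finset (Fin s)) : krD (krE Z) = Z := by
  ext v
  unfold krD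
  rw [Finset.mem_filter, kr_mem]
  simp

private theorem krD_insert (Z : Finset (Fin s)) : krD (insert (Fin.last s) (krE Z)) = Z := by
  ext v
  unfold krD
  rw [Finset.mem_filter, Finset.mem_insert, kr_mem]
  simp [Fin.castSucc_ne_last]

private theorem krE_krD (Z : Finset (Fin (s + 1))) (h : Fin.last s ∉ Z) : krE (krD Z) = Z := by
  ext v
  refine Fin.lastCases ?_ (fun w => ?_) v
  · exact ⟨fun h' => absurd h' (kr_last _), fun h' => absurd h' h⟩
  · rw [kr_mem]
    unfold krD
    simp

private theorem insert_krE_krD (Z : Finset (Fin (s + 1))) (h : Fin.last s ∈ Z) :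
    insert (Fin.last s) (krE (krD Z)) = Z := by
  ext v
  refine Fin.lastCases ?_ (fun w => ?_) v
  · exact ⟨fun _ => h, fun _ => Finset.mem_insert_self _ _⟩
  · rw [Finset.mem_insert, kr_mem]
    unfold krD
    simp [Fin.castSucc_ne_last]

private theorem kr_card (Z : Finset (Fin s)) : (krE Z).card = Z.card := Finset.card_map _

private theorem kr_card' (Z : Finset (Fin s)) :
    (insert (Fin.last s) (krE Z)).card = Z.card + 1 := by
  rw [Finset.card_insert_of_notMem (kr_last Z), kr_card]

private theorem kr_sg (v : Fin s) (Z : Finset (Fin s)) : sg v.castSucc (krE Z) = sg v Z := by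
  unfold sg krE
  rw [Finset.filter_map, Finset.card_map]
  rfl

private theorem kr_sg' (v : Fin s) (Z : Finset (Fin s)) :
    sg v.castSucc (insert (Fin.last s) (krE Z)) = sg v Z := by
  rw [← kr_sg v Z]
  unfold sg
  rw [Finset.filter_insert, if_neg]
  change ¬ (Fin.last s).val < v.castSucc.val
  rw [Fin.val_last, Fin.val_castSucc]
  exact not_lt.2 v.2.le

private theorem kr_sg_last (Z : Finset (Fin s)) :
    sg (Fin.last s) (insert (Fin.last s) (krE Z)) = (-1) ^ Z.card := by
  unfold sg
  rw [Finset.filter_insert, if_neg (lt_irrefl _), Finset.filter_true_of_mem, kr_card]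
  intro a ha
  unfold krE at ha
  obtain ⟨w, _, rfl⟩ := Finset.mem_map.1 ha
  change w.castSucc.val < (Fin.last s).val
  rw [Fin.val_last, Fin.val_castSucc]
  exact w.2

private theorem kr_kos1 (h : Fin (s + 1) → P) (g : Finset (Fin (s + 1)) → P)
    (Z : Finset (Fin s)) :
    kos P (fun j => LinearMap.mulLeft P (h j)) g (krE Z) =
      kos P (fun j => LinearMap.mulLeft P (h j.castSucc)) (fun Z' => g (krE Z')) Z := by
  rw [kos_apply, kos_apply]
  have h1 : ∀ F : Fin (s + 1) → P, ∑ v ∈ krE Z, F v = ∑ v ∈ Z, F v.castSucc := by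
    intro F
    unfold krE
    rw [Finset.sum_map]
    rfl
  rw [h1]
  refine Finset.sum_congr rfl fun v hv => ?_
  have h2 : (krE Z).erase v.castSucc = krE (Z.erase v) := by
    unfold krE
    rw [Finset.map_erase]
    rfl
  rw [kr_sg, h2]

private theorem kr_kos2 (h : Fin (s + 1) → P) (g : Finset (Fin (s + 1)) → P)
    (Z : Finset (Fin s)) :
    kos P (fun j => LinearMap.mulLeft P (h j)) g (insert (Fin.last s) (krE Z)) =
      (-1) ^ Z.card * (h (Fin.last s) * g (krE Z)) +
      kos P (fun j => LinearMap.mulLeft P (h j.castSucc))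
        (fun Z' => g (insert (Fin.last s) (krE Z'))) Z := by
  rw [kos_apply, kos_apply, Finset.sum_insert (kr_last Z)]
  congr 1
  · rw [kr_sg_last, Finset.erase_insert (kr_last Z)]
    simp [zsmul_eq_mul]
  · have h1 : ∀ F : Fin (s + 1) → P, ∑ v ∈ krE Z, F v = ∑ v ∈ Z, F v.castSucc := by
      intro F
      unfold krE
      rw [Finset.sum_map]
      rfl
    rw [h1]
    refine Finset.sum_congr rfl fun v hv => ?_
    have h2 : (insert (Fin.last s) (krE Z)).erase v.castSucc =
        insert (Fin.last s) (krE (Z.erase v)) := by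
      rw [Finset.erase_insert_of_ne (Fin.castSucc_ne_last v).symm]
      congr 1
      unfold krE
      rw [Finset.map_erase]
      rfl
    rw [kr_sg', h2]

/-- the top degree -/
private theorem kr_top (h : Fin s → P) (x : P)
    (hx : ∀ y : P, x * y ∈ Ideal.span (Set.range h) → y ∈ Ideal.span (Set.range h))
    (a b : Finset (Fin s) → P) (ha : ∀ Z, a Z ≠ 0 → Z.card = s)
    (hab : kos P (fun j => LinearMap.mulLeft P (h j)) b Finset.univ =
      (-1) ^ (s + 1) * (x * a Finset.univ)) :
    ∃ u : Finset (Fin s) → P, (∀ Z, u Z ≠ 0 → Z.card + 1 = s) ∧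
      kos P (fun j => LinearMap.mulLeft P (h j)) u = a := by
  have h1 : x * a Finset.univ ∈ Ideal.span (Set.range h) := by
    have h2 : kos P (fun j => LinearMap.mulLeft P (h j)) b Finset.univ ∈
        Ideal.span (Set.range h) := by
      rw [kos_apply]
      refine Ideal.sum_mem _ fun v _ => ?_
      rw [zsmul_eq_mul]
      refine Ideal.mul_mem_left _ _ ?_
      rw [LinearMap.mulLeft_apply]
      exact Ideal.mul_mem_right _ _ (Ideal.subset_span ⟨v, rfl⟩)
    rw [hab] at h2
    have h3 := Ideal.mul_mem_left (Ideal.span (Set.range h)) ((-1) ^ (s + 1)) h2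
    rwa [← mul_assoc, ← mul_pow, neg_one_mul, neg_neg, one_pow, one_mul] at h3
  obtain ⟨c, hc⟩ := Ideal.mem_span_range_iff_exists_fun.1 (hx _ h1)
  refine ⟨fun Z => ∑ v, if Z = Finset.univ.erase v then (sg v Finset.univ : P) * c v else 0,
    ?_, ?_⟩
  · intro Z hZ
    obtain ⟨v, _, hv⟩ := Finset.exists_ne_zero_of_sum_ne_zero hZ
    have hv' : Z = Finset.univ.erase v := by
      by_contra hcon
      exact hv (if_neg hcon)
    rw [hv', Finset.card_erase_of_mem (Finset.mem_univ v), Finset.card_univ, Fintype.card_fin]
    have := v.2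
    omega
  · funext Z
    rw [kos_apply]
    by_cases hZ : Z = Finset.univ
    · subst hZ
      rw [← hc]
      refine Finset.sum_congr rfl fun v _ => ?_
      rw [Finset.sum_eq_single v]
      · rw [if_pos rfl, LinearMap.mulLeft_apply, zsmul_eq_mul]
        have h4 : (sg v (Finset.univ : Finset (Fin s)) : P) * (sg v Finset.univ : P) = 1 := by
          rw [← Int.cast_mul]
          unfold sg
          rw [← mul_pow]
          norm_num
        linear_combination (h v * c v) * h4
      · intro w _ hwv
        rw [if_neg]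
        intro he
        have h5 : v ∈ (Finset.univ : Finset (Fin s)).erase v := by
          rw [he]
          exact Finset.mem_erase.2 ⟨hwv.symm, Finset.mem_univ _⟩
        exact Finset.notMem_erase v _ h5
      · intro h'
        exact absurd (Finset.mem_univ v) h'
    · have h6 : a Z = 0 := by
        by_contra h7
        exact hZ (Finset.card_eq_iff_eq_univ Z |>.1 (by rw [ha Z h7, Fintype.card_fin]))
      rw [h6]
      refine Finset.sum_eq_zero fun v hv => ?_
      rw [Finset.sum_eq_zero, map_zero, smul_zero]
      intro w _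
      rw [if_neg]
      intro he
      apply hZ
      rw [← Finset.card_eq_iff_eq_univ, Fintype.card_fin]
      have h8 := congrArg Finset.card he
      rw [Finset.card_erase_of_mem hv, Finset.card_erase_of_mem (Finset.mem_univ w),
        Finset.card_univ, Fintype.card_fin] at h8
      have h9 : 0 < Z.card := Finset.card_pos.2 ⟨v, hv⟩
      have := w.2
      omega

end kosreg

/-- For a weakly regular sequence the Koszul cochain complex is exact in degrees `< s`. -/
theorem kos_reg {P : Type*} [CommRing P] {s : ℕ} (h : Fin s → P)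
    (hreg : RingTheory.Sequence.IsWeaklyRegular P (List.ofFn h)) (i : ℕ) (hi : i < s)
    (g : Finset (Fin s) → P) (hg : ∀ Z, g Z ≠ 0 → Z.card = i)
    (hcl : kos P (fun j => LinearMap.mulLeft P (h j)) g = 0) :
    ∃ u : Finset (Fin s) → P, (∀ Z, u Z ≠ 0 → Z.card + 1 = i) ∧
      kos P (fun j => LinearMap.mulLeft P (h j)) u = g := by
  induction s generalizing i with
  | zero => exact absurd hi (Nat.not_lt_zero i)
  | succ s ih =>
    -- regularity
    have hof : List.ofFn h = List.ofFn (fun j : Fin s => h j.castSucc) ++ [h (Fin.last s)] := by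
      rw [List.ofFn_succ', List.concat_eq_append]
    rw [hof, RingTheory.Sequence.isWeaklyRegular_append_iff,
      RingTheory.Sequence.isWeaklyRegular_singleton_iff] at hreg
    obtain ⟨hreg1, hreg2⟩ := hreg
    have hx : ∀ y : P, h (Fin.last s) * y ∈
        Ideal.span (Set.range fun j : Fin s => h j.castSucc) →
        y ∈ Ideal.span (Set.range fun j : Fin s => h j.castSucc) := by
      have hI : (Ideal.ofList (List.ofFn fun j : Fin s => h j.castSucc) • ⊤ : Submodule P P) =
          Ideal.span (Set.range fun j : Fin s => h j.castSucc) := by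
        rw [smul_eq_mul, Ideal.mul_top]
        unfold Ideal.ofList
        congr 1
        ext z
        simp [List.mem_ofFn]
      intro y hy
      rw [← hI] at hy ⊢
      rw [← Submodule.Quotient.mk_eq_zero] at hy ⊢
      apply hreg2
      exact hy.trans (smul_zero _).symm
    -- decomposition
    set a : Finset (Fin s) → P := fun Z => g (krE Z) with ha
    set b : Finset (Fin s) → P := fun Z => g (insert (Fin.last s) (krE Z)) with hb
    have ha1 : ∀ Z, a Z ≠ 0 → Z.card = i := fun Z hZ => by rw [← kr_card]; exact hg _ hZ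
    have hb1 : ∀ Z, b Z ≠ 0 → Z.card + 1 = i := fun Z hZ => by rw [← kr_card']; exact hg _ hZ
    have ha2 : kos P (fun j => LinearMap.mulLeft P (h j.castSucc)) a = 0 := by
      funext Z
      rw [ha, ← kr_kos1, hcl]
      rfl
    have hb2 : ∀ Z, kos P (fun j => LinearMap.mulLeft P (h j.castSucc)) b Z =
        (-1) ^ (i + 1) * (h (Fin.last s) * a Z) := by
      intro Z
      have h1 := kr_kos2 h g Z
      rw [hcl] at h1
      have h2 : (0 : P) = (-1) ^ Z.card * (h (Fin.last s) * a Z) +
        kos P (fun j => LinearMap.mulLeft P (h j.castSucc)) b Z := h1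
      by_cases hZ : a Z = 0
      · rw [hZ, mul_zero, mul_zero, zero_add] at h2
        rw [hZ, mul_zero, mul_zero, ← h2]
      · rw [ha1 Z hZ] at h2
        rw [pow_succ]
        linear_combination -h2
    -- the first part
    obtain ⟨ua, hua1, hua2⟩ : ∃ u : Finset (Fin s) → P, (∀ Z, u Z ≠ 0 → Z.card + 1 = i) ∧
        kos P (fun j => LinearMap.mulLeft P (h j.castSucc)) u = a := by
      rcases Nat.lt_or_ge i s with his | his
      · exact ih (fun j => h j.castSucc) hreg1 i his a ha1 ha2
      · have his' : i = s := by omega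
        subst his'
        exact kr_top (fun j => h j.castSucc) (h (Fin.last i)) hx a b ha1 (hb2 Finset.univ)
    -- the second part
    set w : Finset (Fin s) → P := fun Z => b Z + (-1) ^ i * (h (Fin.last s) * ua Z) with hw
    have hw1 : ∀ Z, w Z ≠ 0 → Z.card + 1 = i := by
      intro Z hZ
      by_contra hcon
      apply hZ
      have e1 : b Z = 0 := by
        by_contra h'
        exact hcon (hb1 Z h')
      have e2 : ua Z = 0 := by
        by_contra h'
        exact hcon (hua1 Z h')
      simp only [hw, e1, e2, mul_zero, add_zero]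
    have hw2 : kos P (fun j => LinearMap.mulLeft P (h j.castSucc)) w = 0 := by
      have e1 : w = b + ((-1) ^ i * h (Fin.last s)) • ua := by
        funext Z
        simp only [hw, Pi.add_apply, Pi.smul_apply, smul_eq_mul, mul_assoc]
      rw [e1, map_add, map_smul, hua2]
      funext Z
      rw [Pi.add_apply, Pi.smul_apply, hb2, Pi.zero_apply, smul_eq_mul, pow_succ]
      ring
    obtain ⟨ub, hub1, hub2⟩ : ∃ u : Finset (Fin s) → P, (∀ Z, u Z ≠ 0 → Z.card + 2 = i) ∧
        kos P (fun j => LinearMap.mulLeft P (h j.castSucc)) u = w := by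
      rcases Nat.eq_zero_or_pos i with hi0 | hi0
      · refine ⟨0, fun Z hZ => absurd rfl hZ, ?_⟩
        rw [map_zero]
        funext Z
        by_contra hcon
        have := hw1 Z (fun h' => hcon (by rw [h']; rfl))
        omega
      · obtain ⟨u, hu1, hu2⟩ := ih (fun j => h j.castSucc) hreg1 (i - 1) (by omega) w
          (fun Z hZ => by have := hw1 Z hZ; omega) hw2
        exact ⟨u, fun Z hZ => by have := hu1 Z hZ; omega, hu2⟩
    -- the result
    refine ⟨fun Z => if Fin.last s ∈ Z then ub (krD Z) else ua (krD Z), fun Z hZ => ?_, ?_⟩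
    · by_cases hl : Fin.last s ∈ Z
      · rw [← insert_krE_krD Z hl, kr_card']
        simp only [hl, if_true] at hZ
        have := hub1 _ hZ
        omega
      · rw [← krE_krD Z hl, kr_card]
        simp only [hl, if_false] at hZ
        exact hua1 _ hZ
    · have hA : (fun Z' : Finset (Fin s) => (fun Z : Finset (Fin (s + 1)) =>
          if Fin.last s ∈ Z then ub (krD Z) else ua (krD Z)) (krE Z')) = ua := by
        funext Z'
        simp only [kr_last, if_false, krD_krE]
      have hB : (fun Z' : Finset (Fin s) => (fun Z : Finset (Fin (s + 1)) =>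
          if Fin.last s ∈ Z then ub (krD Z) else ua (krD Z))
            (insert (Fin.last s) (krE Z'))) = ub := by
        funext Z'
        simp only [Finset.mem_insert_self, if_true, krD_insert]
      funext Z
      by_cases hl : Fin.last s ∈ Z
      · rw [← insert_krE_krD Z hl, kr_kos2, hB, hub2]
        simp only [kr_last, if_false, krD_krE, hw, hb]
        by_cases hZ : ua (krD Z) = 0
        · rw [hZ]
          ring
        · have e := hua1 _ hZ
          rw [← e, pow_succ]
          ring
      · rw [← krE_krD Z hl, kr_kos1, hA, hua2]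

end HN
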