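import Pool.Agent.HN.KosReg
import Pool.Agent.HN.LauLem
import Pool.Agent.HN.Cay

/-! # HN/KosRegT : the `dz`-part of the Koszul differential is exact in weights `< s` (module HN-C2)

`dz D = ∑_j e_{z_j} ∧ (z_j h_j)`.

PLAN.  `Tm (cayF D) z_j` is multiplication by `z_j h_j(x)`.  For `ξ ∈ KW k C T δ j w` fix the part
`A' = A \ Z` (`Z` = the `z`-variables) of the component, the exponents `e_y`, and
`u_z = e_z - [z ∈ A] ≥ 0`: `dz` preserves these data and acts on the family
`Z' ↦ ∑_x (ξ (A' ∪ Z')).coeff (e_x, e_y, u + 1_{Z'}) x^{e_x}` of Laurent polynomials in `x`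
as the Koszul differential of `h_1..h_s` up to a sign depending only on `A'` (rank order x < y < z).
Multiply by a monomial in the `x_v`, `v ∈ T`, and divide by `∏_{v ∈ A' ∩ Xs \ T} x_v` to get
polynomials in `k[x]`, and apply `kos_reg` (degree `< s`: `Z' = Z` would force weight `≥ s`).  Only
finitely many data `(A', e_y, u)` occur.  At the end take the components of degree `δ`, weight `w-1`,
form degree `j-1` (all commute with `dz`).
-/

open MvPolynomial

namespace HN

section
variable {k : Type*} [Field k] {n r s : ℕ} {d : Fin r → ℕ} {c : Fin s → ℕ}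

/-- the `dz`-part of the Koszul differential -/
noncomputable def dzop (D : Datum k n r s d c) :
    (Finset (Vr n r s) → Lau (Vr n r s) k) →ₗ[k] (Finset (Vr n r s) → Lau (Vr n r s) k) :=
  ∑ j : Fin s, we k (Sum.inr (Sum.inr j)) ∘ₗ mp k (Tm (cayF D) (Sum.inr (Sum.inr j)))

/-- the other part -/
noncomputable def dxyop (D : Datum k n r s d c) :
    (Finset (Vr n r s) → Lau (Vr n r s) k) →ₗ[k] (Finset (Vr n r s) → Lau (Vr n r s) k) :=
  ∑ i : Fin r, we k (Sum.inr (Sum.inl i)) ∘ₗ mp k (Tm (cayF D) (Sum.inr (Sum.inl i)))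
    + ∑ v : Fin (n + 1), we k (Sum.inl v) ∘ₗ mp k (Tm (cayF D) (Sum.inl v))

private theorem kt_pderiv_inr (w : Fin r ⊕ Fin s) (g : MvPolynomial (Fin (n + 1)) k) :
    pderiv (Sum.inr w : Vr n r s) (rename Sum.inl g) = 0 := by
  apply pderiv_eq_zero_of_notMem_vars
  intro h
  obtain ⟨i, _, hi⟩ := mem_vars_rename _ _ h
  exact absurd hi (by simp)

private theorem kt_pderiv_z (D : Datum k n r s d c) (j : Fin s) :
    pderiv (Sum.inr (Sum.inr j)) (cayF D) = rename Sum.inl (D.h j) := by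
  classical
  simp only [cayF, map_add, map_sum, pderiv_mul, kt_pderiv_inr, mul_zero, add_zero, pderiv_X]
  rw [Finset.sum_eq_zero (fun i _ => by simp), zero_add]
  rw [Finset.sum_eq_single j]
  · simp
  · intro i _ hi
    rw [Pi.single_eq_of_ne (by simpa using hi), zero_mul]
  · intro h; exact absurd (Finset.mem_univ j) h

private theorem kt_pderiv_y (D : Datum k n r s d c) (j : Fin r) :
    pderiv (Sum.inr (Sum.inl j)) (cayF D) = rename Sum.inl (D.f j) := by
  classical
  simp only [cayF, map_add, map_sum, pderiv_mul, kt_pderiv_inr, mul_zero, add_zero, pderiv_X]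
  have h2 : ∀ x : Fin s, (Pi.single (Sum.inr (Sum.inl j)) (1 : MvPolynomial (Vr n r s) k) :
      Vr n r s → MvPolynomial (Vr n r s) k) (Sum.inr (Sum.inr x)) = 0 := by
    intro x
    exact Pi.single_eq_of_ne (by simp) _
  simp only [h2, zero_mul, Finset.sum_const_zero, add_zero]
  rw [Finset.sum_eq_single j]
  · simp
  · intro i _ hi
    rw [Pi.single_eq_of_ne (by simpa using hi), zero_mul]
  · intro h; exact absurd (Finset.mem_univ j) h

theorem Dk_cay (D : Datum k n r s d c) : Dk (cayF D) = dxyop D + dzop D := by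
  unfold Dk kos dxyop dzop
  rw [Fintype.sum_sum_type, Fintype.sum_sum_type]
  abel

/-- `v ∂_v F` for `v = z_j` -/
theorem Tm_z (D : Datum k n r s d c) (j : Fin s) :
    Tm (cayF D) (Sum.inr (Sum.inr j)) = LinearMap.mulLeft k
      (toL (X (Sum.inr (Sum.inr j)) * rename Sum.inl (D.h j))) := by
  unfold Tm
  rw [kt_pderiv_z]

/-- `v ∂_v F` for `v = y_i` -/
theorem Tm_y (D : Datum k n r s d c) (i : Fin r) :
    Tm (cayF D) (Sum.inr (Sum.inl i)) = LinearMap.mulLeft k
      (toL (X (Sum.inr (Sum.inl i)) * rename Sum.inl (D.f i))) := by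
  unfold Tm
  rw [kt_pderiv_y]

/-- the part of `A` without the `z`-variables -/
private def ktA (A : Finset (Vr n r s)) : Finset (Vr n r s) :=
  A.filter fun v => ∀ j : Fin s, v ≠ Sum.inr (Sum.inr j)

/-- the `z`-variables in `A` -/
private def ktZ (A : Finset (Vr n r s)) : Finset (Fin s) :=
  Finset.univ.filter fun j => (Sum.inr (Sum.inr j) : Vr n r s) ∈ A

/-- the set with parts `A` and `Z` -/
private def ktE (A : Finset (Vr n r s)) (Z : Finset (Fin s)) : Finset (Vr n r s) :=
  A ∪ Z.image fun j => Sum.inr (Sum.inr j)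

private theorem mem_ktZ {A : Finset (Vr n r s)} {j : Fin s} :
    j ∈ ktZ A ↔ (Sum.inr (Sum.inr j) : Vr n r s) ∈ A := by
  simp [ktZ]

private theorem mem_ktA {A : Finset (Vr n r s)} {v : Vr n r s} :
    v ∈ ktA A ↔ v ∈ A ∧ ∀ j : Fin s, v ≠ Sum.inr (Sum.inr j) := by
  simp [ktA]

private theorem mem_ktE {A : Finset (Vr n r s)} {Z : Finset (Fin s)} {v : Vr n r s} :
    v ∈ ktE A Z ↔ v ∈ A ∨ ∃ j ∈ Z, (Sum.inr (Sum.inr j) : Vr n r s) = v := by
  simp only [ktE, Finset.mem_union, Finset.mem_image]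

private theorem ktE_AZ (A : Finset (Vr n r s)) : ktE (ktA A) (ktZ A) = A := by
  ext v
  rw [mem_ktE, mem_ktA]
  constructor
  · rintro (h | ⟨j, hj, rfl⟩)
    · exact h.1
    · exact mem_ktZ.1 hj
  · intro h
    by_cases h1 : ∀ j : Fin s, v ≠ Sum.inr (Sum.inr j)
    · exact Or.inl ⟨h, h1⟩
    · push Not at h1
      obtain ⟨j, rfl⟩ := h1
      exact Or.inr ⟨j, mem_ktZ.2 h, rfl⟩

private theorem ktZ_E {A : Finset (Vr n r s)} (hA : ktA A = A) (Z : Finset (Fin s)) :
    ktZ (ktE A Z) = Z := by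
  ext j
  rw [mem_ktZ, mem_ktE]
  constructor
  · rintro (h | ⟨i, hi, h⟩)
    · rw [← hA, mem_ktA] at h
      exact absurd rfl (h.2 j)
    · have : i = j := by simpa using h
      rwa [← this]
  · intro h
    exact Or.inr ⟨j, h, rfl⟩

private theorem ktA_E {A : Finset (Vr n r s)} (hA : ktA A = A) (Z : Finset (Fin s)) :
    ktA (ktE A Z) = A := by
  ext v
  rw [mem_ktA, mem_ktE]
  constructor
  · rintro ⟨h | ⟨i, hi, h⟩, h2⟩
    · exact h
    · exact absurd h.symm (h2 i)
  · intro h
    refine ⟨Or.inl h, ?_⟩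
    rw [← hA, mem_ktA] at h
    exact h.2

private theorem ktA_A (A : Finset (Vr n r s)) : ktA (ktA A) = ktA A := by
  ext v
  rw [mem_ktA, mem_ktA]
  tauto

private theorem kt_card (A : Finset (Vr n r s)) : (ktA A).card + (ktZ A).card = A.card := by
  conv_rhs => rw [← ktE_AZ A]
  unfold ktE
  rw [Finset.card_union_of_disjoint]
  · rw [Finset.card_image_of_injective]
    intro i j h
    simpa using h
  · rw [Finset.disjoint_left]
    intro v hv hv'
    obtain ⟨j, _, rfl⟩ := Finset.mem_image.1 hv'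
    exact (mem_ktA.1 hv).2 j rfl

private theorem ktA_erase (A : Finset (Vr n r s)) (j : Fin s) :
    ktA (A.erase (Sum.inr (Sum.inr j))) = ktA A := by
  ext v
  rw [mem_ktA, mem_ktA, Finset.mem_erase]
  constructor
  · rintro ⟨⟨_, h1⟩, h2⟩
    exact ⟨h1, h2⟩
  · rintro ⟨h1, h2⟩
    exact ⟨⟨h2 j, h1⟩, h2⟩

private theorem ktZ_erase (A : Finset (Vr n r s)) (j : Fin s) :
    ktZ (A.erase (Sum.inr (Sum.inr j))) = (ktZ A).erase j := by
  ext i
  rw [mem_ktZ, Finset.mem_erase, Finset.mem_erase, mem_ktZ]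
  simp

private theorem kt_rk_z (j : Fin s) : rk (Sum.inr (Sum.inr j) : Vr n r s) = n + 1 + (r + j.1) := rfl

private theorem kt_rk_lt (v : Vr n r s) (j : Fin s) (h : ∀ i : Fin s, v ≠ Sum.inr (Sum.inr i)) :
    rk v < rk (Sum.inr (Sum.inr j) : Vr n r s) := by
  rw [kt_rk_z]
  rcases v with v | v | v
  · have h1 : rk (Sum.inl v : Vr n r s) = v.1 := rfl
    have := v.2
    omega
  · have h1 : rk (Sum.inr (Sum.inl v) : Vr n r s) = n + 1 + v.1 := rfl
    have := v.2
    omega
  · exact absurd rfl (h v)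

private theorem kt_sg (A : Finset (Vr n r s)) (j : Fin s) :
    sg (Sum.inr (Sum.inr j) : Vr n r s) A = (-1) ^ (ktA A).card * sg j (ktZ A) := by
  unfold sg
  rw [← pow_add]
  congr 1
  rw [← kt_card (A.filter fun a => rk a < rk (Sum.inr (Sum.inr j) : Vr n r s))]
  congr 2
  · ext v
    rw [mem_ktA, mem_ktA, Finset.mem_filter]
    constructor
    · rintro ⟨⟨h1, _⟩, h2⟩
      exact ⟨h1, h2⟩
    · rintro ⟨h1, h2⟩
      exact ⟨⟨h1, kt_rk_lt v j h2⟩, h2⟩
  · ext i
    rw [mem_ktZ, Finset.mem_filter, Finset.mem_filter, mem_ktZ, kt_rk_z, kt_rk_z]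
    have h1 : rk i = i.1 := rfl
    have h2 : rk j = j.1 := rfl
    rw [h1, h2]
    constructor
    · rintro ⟨h1, h2⟩
      exact ⟨h1, by omega⟩
    · rintro ⟨h1, h2⟩
      exact ⟨h1, by omega⟩

private theorem kt_dz (D : Datum k n r s d c) (ξ : Finset (Vr n r s) → Lau (Vr n r s) k)
    (A : Finset (Vr n r s)) :
    dzop D ξ A = ∑ j ∈ ktZ A, sg (Sum.inr (Sum.inr j) : Vr n r s) A •
      (toL (X (Sum.inr (Sum.inr j)) * rename Sum.inl (D.h j)) *
        ξ (A.erase (Sum.inr (Sum.inr j)))) := by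
  unfold dzop ktZ
  rw [LinearMap.sum_apply, Finset.sum_apply, Finset.sum_filter]
  refine Finset.sum_congr rfl fun j _ => ?_
  rw [Tm_z]
  rfl

private theorem kt_dz2 (D : Datum k n r s d c) (τ : Finset (Vr n r s) → Vr n r s → ℤ)
    (hτ : ∀ (A : Finset (Vr n r s)) (j : Fin s), (Sum.inr (Sum.inr j) : Vr n r s) ∈ A →
      (Pi.single (Sum.inr (Sum.inr j)) 1 : Vr n r s → ℤ) + τ (A.erase (Sum.inr (Sum.inr j)))
        = τ A)
    (g : Finset (Vr n r s) → MvPolynomial (Vr n r s) k) (A : Finset (Vr n r s)) :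
    dzop D (fun B => AddMonoidAlgebra.single (τ B) 1 * toL (g B)) A =
      AddMonoidAlgebra.single (τ A) 1 *
        toL (∑ j ∈ ktZ A, sg (Sum.inr (Sum.inr j) : Vr n r s) A •
        (rename Sum.inl (D.h j) * g (A.erase (Sum.inr (Sum.inr j))))) := by
  rw [kt_dz, map_sum, Finset.mul_sum]
  refine Finset.sum_congr rfl fun j hj => ?_
  have hj' : (Sum.inr (Sum.inr j) : Vr n r s) ∈ A := mem_ktZ.1 hj
  rw [map_zsmul, mul_smul_comm]
  congr 1
  have e1 : (toL (X (Sum.inr (Sum.inr j)) : MvPolynomial (Vr n r s) k)) =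
      AddMonoidAlgebra.single (Pi.single (Sum.inr (Sum.inr j)) (1 : ℤ)) (1 : k) := by
    simp [toL]
  have e2 : (AddMonoidAlgebra.single (τ A) (1 : k) : Lau (Vr n r s) k) =
      AddMonoidAlgebra.single (Pi.single (Sum.inr (Sum.inr j)) (1 : ℤ)) (1 : k) *
        AddMonoidAlgebra.single (τ (A.erase (Sum.inr (Sum.inr j)))) (1 : k) := by
    rw [AddMonoidAlgebra.single_mul_single, mul_one, hτ A j hj']
  rw [map_mul, map_mul, e1, e2]
  ring

private theorem kt_pol {ι : Type*} [Fintype ι] [DecidableEq ι] {R : Type*} [CommRing R]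
    (τ : ι → ℤ) (f : Lau ι R) (hf : ∀ e, f.coeff e ≠ 0 → ∀ v, τ v ≤ e v) :
    ∃ g : MvPolynomial ι R, f = AddMonoidAlgebra.single τ 1 * toL g ∧ (f = 0 → g = 0) := by
  classical
  refine ⟨∑ e ∈ f.coeff.support,
    monomial (Finsupp.equivFunOnFinite.symm fun v => (e v - τ v).toNat) (f.coeff e), ?_, ?_⟩
  · rw [map_sum, Finset.mul_sum]
    have h1 : ∀ e ∈ f.coeff.support, (AddMonoidAlgebra.single τ 1 *
        toL (monomial (Finsupp.equivFunOnFinite.symm fun v => (e v - τ v).toNat) (f.coeff e)) :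
          Lau ι R) = AddMonoidAlgebra.single e (f.coeff e) := by
      intro e he
      rw [toL_monomial, AddMonoidAlgebra.single_mul_single, one_mul]
      congr 1
      funext v
      have h2 := hf e (Finsupp.mem_support_iff.1 he) v
      simp only [Pi.add_apply, Finsupp.equivFunOnFinite_symm_apply_apply]
      omega
    rw [Finset.sum_congr rfl h1]
    refine lau_ext fun e => ?_
    rw [AddMonoidAlgebra.coeff_sum, Finsupp.finsetSum_apply]
    simp only [AddMonoidAlgebra.coeff_single, Finsupp.single_apply]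
    rw [Finset.sum_ite_eq']
    split_ifs with h
    · rfl
    · exact Finsupp.notMem_support_iff.1 h
  · intro h
    rw [h]
    simp

private theorem kt_unit {ι : Type*} [DecidableEq ι] {R : Type*} [CommRing R]
    (τ : ι → ℤ) {g : MvPolynomial ι R}
    (h : (AddMonoidAlgebra.single τ 1 * toL g : Lau ι R) = 0) : g = 0 := by
  have h1 : (AddMonoidAlgebra.single (-τ) 1 : Lau ι R) * (AddMonoidAlgebra.single τ 1 * toL g)
      = toL g := by
    rw [← mul_assoc, AddMonoidAlgebra.single_mul_single, mul_one, neg_add_cancel]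
    exact one_mul _
  rw [h, mul_zero] at h1
  apply toL_injective
  rw [← h1, map_zero]

private theorem kt_reg (D : Datum k n r s d c) :
    RingTheory.Sequence.IsWeaklyRegular (MvPolynomial (Vr n r s) k)
      (List.ofFn fun j => (rename Sum.inl (D.h j) : MvPolynomial (Vr n r s) k)) := by
  have h1 : RingTheory.Sequence.IsWeaklyRegular
      (MvPolynomial (Fin r ⊕ Fin s) (MvPolynomial (Fin (n + 1)) k))
      ((List.ofFn D.h).map (algebraMap (MvPolynomial (Fin (n + 1)) k)
        (MvPolynomial (Fin r ⊕ Fin s) (MvPolynomial (Fin (n + 1)) k)))) := D.hreg.of_flat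
  let e : MvPolynomial (Vr n r s) k ≃ₐ[k]
      MvPolynomial (Fin r ⊕ Fin s) (MvPolynomial (Fin (n + 1)) k) :=
    (renameEquiv k (Equiv.sumComm (Fin (n + 1)) (Fin r ⊕ Fin s))).trans
      (sumAlgEquiv k (Fin r ⊕ Fin s) (Fin (n + 1)))
  have he : ∀ p : MvPolynomial (Fin (n + 1)) k, e (rename Sum.inl p) = algebraMap _ _ p := by
    intro p
    induction p using MvPolynomial.induction_on with
    | C a => simp [e, sumAlgEquiv_C_inl]
    | add p q hp hq => rw [map_add, map_add, map_add, hp, hq]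
    | mul_X p i hp =>
      rw [map_mul, map_mul, map_mul, hp, rename_X]
      congr 1
      simp [e, sumAlgEquiv_X_inr]
  refine (AddEquiv.isWeaklyRegular_congr (e := e.toAddEquiv) ?_).2 h1
  rw [List.forall₂_map_right_iff]
  rw [List.forall₂_iff_get]
  refine ⟨by simp, fun i h2 h3 x => ?_⟩
  simp only [List.get_eq_getElem, List.getElem_ofFn]
  change e (_ * x) = _ * e x
  rw [map_mul, he]

private theorem kt_coeff {ι : Type*} [DecidableEq ι] {R : Type*} [CommRing R]
    (F : MvPolynomial ι R) (v : ι) (m : ι →₀ ℕ) :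
    (X v * pderiv v F).coeff m = (m v : R) * F.coeff m := by
  induction F using MvPolynomial.induction_on' with
  | monomial u a =>
    rw [MvPolynomial.X_mul_pderiv_monomial, MvPolynomial.coeff_smul, MvPolynomial.coeff_monomial]
    split_ifs with h
    · rw [h, nsmul_eq_mul]
    · simp
  | add p q hp hq => rw [map_add, mul_add, MvPolynomial.coeff_add, hp, hq, MvPolynomial.coeff_add,
      mul_add]

private theorem kt_restr (D : Datum k n r s d c) {φ : (Vr n r s → ℤ) → ℤ}
    (hφ : ∀ a b : Vr n r s → ℤ, φ (fun v => a v - b v) = φ a - φ b) {d' : ℤ}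
    (hm : ∀ (i : Fin s) (m : Vr n r s →₀ ℕ), (X (Sum.inr (Sum.inr i)) *
      rename Sum.inl (D.h i) : MvPolynomial (Vr n r s) k).coeff m ≠ 0 →
      φ (fun v => (m v : ℤ)) = d') (a : ℤ) (η : Finset (Vr n r s) → Lau (Vr n r s) k) :
    dzop D (fun A => restr k {e | φ e = a} (η A)) =
      fun A => restr k {e | φ e = a + d'} (dzop D η A) := by
  funext A
  rw [kt_dz, kt_dz, map_sum]
  refine Finset.sum_congr rfl fun i _ => ?_
  rw [map_zsmul]
  congr 1
  exact (restr_toL_mul hφ (hm i) a _).symm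

theorem dz_exact (hd : ∀ i, 1 ≤ d i) (hc : ∀ j, 1 ≤ c j) (D : Datum k n r s d c)
    {T : Finset (Vr n r s)} (hT : T ⊆ (cayT n d c hd hc).Xs) {δ j w : ℤ} (hw : w < s)
    {ξ : Finset (Vr n r s) → Lau (Vr n r s) k} (hξ : ξ ∈ KW k (cayT n d c hd hc) T δ j w)
    (h0 : dzop D ξ = 0) :
    ∃ η ∈ KW k (cayT n d c hd hc) T δ (j - 1) (w - 1), dzop D η = ξ := by
  classical
  -- a lower bound for the exponents
  obtain ⟨M, hM⟩ : ∃ M : ℤ, ∀ A e, (ξ A).coeff e ≠ 0 → ∀ v, -M ≤ e v := by
    obtain ⟨M, hM⟩ := (Finset.univ.biUnion fun A : Finset (Vr n r s) =>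
      (ξ A).coeff.support.biUnion fun e => Finset.univ.image fun v => - e v).bddAbove
    refine ⟨M, fun A e he v => ?_⟩
    have h : - e v ≤ M := by
      apply hM
      rw [Finset.mem_coe, Finset.mem_biUnion]
      exact ⟨A, Finset.mem_univ _, Finset.mem_biUnion.2 ⟨e, Finsupp.mem_support_iff.2 he,
        Finset.mem_image_of_mem _ (Finset.mem_univ v)⟩⟩
    linarith
  set Cc := cayT n d c hd hc with hCc
  have hYs : ∀ j : Fin s, (Sum.inr (Sum.inr j) : Vr n r s) ∉ Cc.Ys := by
    intro j; simp [hCc, cayT]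
  have hXs : ∀ j : Fin s, (Sum.inr (Sum.inr j) : Vr n r s) ∉ Cc.Xs := by
    intro j; simp [hCc, cayT]
  let τ : Finset (Vr n r s) → Vr n r s → ℤ := fun A v => if v ∈ T then -M else Cc.thr v A
  have hτ : ∀ (A : Finset (Vr n r s)) (j : Fin s), (Sum.inr (Sum.inr j) : Vr n r s) ∈ A →
      (Pi.single (Sum.inr (Sum.inr j)) 1 : Vr n r s → ℤ) + τ (A.erase (Sum.inr (Sum.inr j)))
        = τ A := by
    intro A j hj
    funext v
    simp only [Pi.add_apply, τ]
    by_cases hv : v = Sum.inr (Sum.inr j)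
    · subst hv
      have h1 : (Sum.inr (Sum.inr j) : Vr n r s) ∉ T := fun h => hXs j (hT h)
      rw [Pi.single_eq_same, if_neg h1, if_neg h1]
      simp [CType.thr, hj, hYs j]
    · rw [Pi.single_eq_of_ne hv, zero_add]
      have h2 : Cc.thr v (A.erase (Sum.inr (Sum.inr j))) = Cc.thr v A := by
        unfold CType.thr
        simp [Finset.mem_erase, hv]
      rw [h2]
  have hle : ∀ A e, (ξ A).coeff e ≠ 0 → ∀ v, τ A v ≤ e v := by
    intro A e he v
    simp only [τ]
    split_ifs with h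
    · exact hM A e he v
    · exact (hξ A e he).2.2.1 v h
  have hg := fun A => kt_pol (τ A) (ξ A) (hle A)
  choose g hg1 hg2 using hg
  have hξ' : ξ = fun B => AddMonoidAlgebra.single (τ B) 1 * toL (g B) := funext hg1
  have hcl : ∀ A, ∑ j ∈ ktZ A, sg (Sum.inr (Sum.inr j) : Vr n r s) A •
        ((rename Sum.inl (D.h j) : MvPolynomial (Vr n r s) k) *
          g (A.erase (Sum.inr (Sum.inr j)))) = 0 := by
    intro A
    have h1 := congrFun h0 A
    rw [hξ', kt_dz2 D τ hτ g A] at h1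
    exact kt_unit _ h1
  have hex : ∀ A, g A ≠ 0 → ∃ e, (ξ A).coeff e ≠ 0 := by
    intro A hA
    by_contra h
    push Not at h
    exact hA (hg2 A (lau_ext h))
  have hcard : ∀ A, g A ≠ 0 → (A.card : ℤ) = j := by
    intro A hA
    obtain ⟨e, he⟩ := hex A hA
    exact (hξ A e he).1
  have hZs : ∀ A, g A ≠ 0 → (ktZ A).card < s := by
    intro A hA
    obtain ⟨e, he⟩ := hex A hA
    obtain ⟨_, _, h2, h3⟩ := hξ A e he
    have h4 : ((ktZ A).card : ℤ) ≤ Cc.wt e := by
      unfold CType.wt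
      calc ((ktZ A).card : ℤ)
          = ∑ v ∈ (ktZ A).image (fun j => (Sum.inr (Sum.inr j) : Vr n r s)), (1 : ℤ) := by
            rw [Finset.sum_const, Finset.card_image_of_injective _ (by
              intro a b h; simpa using h)]
            simp
        _ ≤ ∑ v ∈ (ktZ A).image (fun j => (Sum.inr (Sum.inr j) : Vr n r s)), e v := by
            refine Finset.sum_le_sum fun v hv => ?_
            obtain ⟨i, hi, rfl⟩ := Finset.mem_image.1 hv
            have h5 := h2 (Sum.inr (Sum.inr i)) (fun h => hXs i (hT h))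
            have h6 : Cc.thr (Sum.inr (Sum.inr i)) A = 1 :=
              if_pos ⟨mem_ktZ.1 hi, hYs i⟩
            rwa [h6] at h5
        _ ≤ ∑ v ∈ Cc.Xsᶜ, e v := by
            refine Finset.sum_le_sum_of_subset_of_nonneg ?_ ?_
            · intro v hv
              obtain ⟨i, _, rfl⟩ := Finset.mem_image.1 hv
              exact Finset.mem_compl.2 (hXs i)
            · intro v hv _
              exact (thr_nonneg Cc v A).trans (h2 v fun h => (Finset.mem_compl.1 hv) (hT h))
    have h5 : ((ktZ A).card : ℤ) < s := by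
      rw [h3] at h4
      exact lt_of_le_of_lt h4 hw
    exact_mod_cast h5
  have hsq : ∀ m : ℕ, (-1 : ℤ) ^ m * (-1 : ℤ) ^ m = 1 := by
    intro m
    rw [← mul_pow]
    norm_num
  have hu : ∀ A₀ : Finset (Vr n r s), ∃ u : Finset (Fin s) → MvPolynomial (Vr n r s) k,
      (∀ Z, u Z ≠ 0 → (A₀.card + Z.card + 1 : ℤ) = j) ∧
      (ktA A₀ = A₀ → kos (MvPolynomial (Vr n r s) k) (fun i => LinearMap.mulLeft
        (MvPolynomial (Vr n r s) k) (rename Sum.inl (D.h i))) u = fun Z => g (ktE A₀ Z)) := by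
    intro A₀
    by_cases h1 : ktA A₀ = A₀
    swap
    · exact ⟨0, fun Z hZ => absurd rfl hZ, fun h => absurd h h1⟩
    by_cases h2 : ∀ Z, g (ktE A₀ Z) = 0
    · refine ⟨0, fun Z hZ => absurd rfl hZ, fun _ => ?_⟩
      rw [map_zero]
      funext Z
      exact (h2 Z).symm
    push Not at h2
    obtain ⟨Z₀, hZ₀⟩ := h2
    have hc1 : ∀ Z, g (ktE A₀ Z) ≠ 0 → (A₀.card + Z.card : ℤ) = j := by
      intro Z hZ
      have h3 := hcard _ hZ
      rw [← kt_card, ktA_E h1, ktZ_E h1] at h3
      push_cast at h3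
      exact h3
    have hc2 : Z₀.card < s := by
      have h3 := hZs _ hZ₀
      rwa [ktZ_E h1] at h3
    have hc3 : kos (MvPolynomial (Vr n r s) k) (fun i => LinearMap.mulLeft
        (MvPolynomial (Vr n r s) k) (rename Sum.inl (D.h i))) (fun Z => g (ktE A₀ Z)) = 0 := by
      funext Z
      rw [kos_apply]
      have h3 := hcl (ktE A₀ Z)
      rw [ktZ_E h1] at h3
      have h4 : ∀ i ∈ Z, sg (Sum.inr (Sum.inr i) : Vr n r s) (ktE A₀ Z) •
          ((rename Sum.inl (D.h i) : MvPolynomial (Vr n r s) k) *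
            g ((ktE A₀ Z).erase (Sum.inr (Sum.inr i)))) =
          (-1 : ℤ) ^ A₀.card • (sg i Z • (LinearMap.mulLeft (MvPolynomial (Vr n r s) k)
            (rename Sum.inl (D.h i)) (g (ktE A₀ (Z.erase i))))) := by
        intro i hi
        have h5 := ktE_AZ ((ktE A₀ Z).erase (Sum.inr (Sum.inr i)))
        rw [ktA_erase, ktZ_erase, ktA_E h1, ktZ_E h1] at h5
        rw [kt_sg, ktA_E h1, ktZ_E h1, mul_smul, ← h5]
        rfl
      rw [Finset.sum_congr rfl h4, ← Finset.smul_sum] at h3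
      have h6 := congrArg (fun x => (-1 : ℤ) ^ A₀.card • x) h3
      simp only [smul_smul, hsq, one_smul, smul_zero] at h6
      exact h6
    obtain ⟨u, hu1, hu2⟩ := kos_reg
      (fun j => (rename Sum.inl (D.h j) : MvPolynomial (Vr n r s) k)) (kt_reg D) Z₀.card hc2
      (fun Z => g (ktE A₀ Z)) (fun Z hZ => by
        have h7 := hc1 Z hZ
        have h8 := hc1 Z₀ hZ₀
        omega) hc3
    refine ⟨u, fun Z hZ => ?_, fun _ => hu2⟩
    have h4 := hu1 Z hZ
    have h5 := hc1 Z₀ hZ₀
    omega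
  choose u hu1 hu2 using hu
  let G : Finset (Vr n r s) → MvPolynomial (Vr n r s) k :=
    fun A => (-1 : ℤ) ^ (ktA A).card • u (ktA A) (ktZ A)
  let η' : Finset (Vr n r s) → Lau (Vr n r s) k :=
    fun B => AddMonoidAlgebra.single (τ B) 1 * toL (G B)
  have hη' : dzop D η' = ξ := by
    funext A
    have h1 : ∀ i ∈ ktZ A, sg (Sum.inr (Sum.inr i) : Vr n r s) A •
        ((rename Sum.inl (D.h i) : MvPolynomial (Vr n r s) k) *
          G (A.erase (Sum.inr (Sum.inr i)))) =
        sg i (ktZ A) • (LinearMap.mulLeft (MvPolynomial (Vr n r s) k)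
          (rename Sum.inl (D.h i)) (u (ktA A) ((ktZ A).erase i))) := by
      intro i hi
      simp only [G]
      rw [ktA_erase, ktZ_erase, kt_sg, mul_smul_comm, smul_smul, mul_right_comm, hsq, one_mul]
      rfl
    change dzop D (fun B => AddMonoidAlgebra.single (τ B) 1 * toL (G B)) A = ξ A
    rw [kt_dz2 D τ hτ G A, hg1 A, Finset.sum_congr rfl h1, ← kos_apply, hu2 (ktA A) (ktA_A A)]
    change AddMonoidAlgebra.single (τ A) 1 * toL (g (ktE (ktA A) (ktZ A))) = _
    rw [ktE_AZ]
  -- degrees and weights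
  have hmon : ∀ (i : Fin s) (m : Vr n r s →₀ ℕ), (X (Sum.inr (Sum.inr i)) *
      rename Sum.inl (D.h i) : MvPolynomial (Vr n r s) k).coeff m ≠ 0 →
      Cc.deg (fun v => (m v : ℤ)) = 0 ∧ Cc.wt (fun v => (m v : ℤ)) = 1 := by
    intro i m hm
    rw [← kt_pderiv_z, kt_coeff] at hm
    exact cay_hom D hd hc m (right_ne_zero_of_mul hm)
  have hdeg : ∀ a b : Vr n r s → ℤ, Cc.deg (fun v => a v - b v) = Cc.deg a - Cc.deg b := by
    intro a b
    simp only [CType.deg, mul_sub, Finset.sum_sub_distrib]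
  have hwt : ∀ a b : Vr n r s → ℤ, Cc.wt (fun v => a v - b v) = Cc.wt a - Cc.wt b := by
    intro a b
    simp only [CType.wt, Finset.sum_sub_distrib]
  have hr1 := kt_restr D hwt (fun i m hm => (hmon i m hm).2) (w - 1) η'
  have hr2 := kt_restr D hdeg (fun i m hm => (hmon i m hm).1) δ
    (fun A => restr k {e | Cc.wt e = w - 1} (η' A))
  refine ⟨fun A => restr k {e | Cc.deg e = δ} (restr k {e | Cc.wt e = w - 1} (η' A)), ?_, ?_⟩
  · intro A e he
    rw [restr_coeff] at he
    have h1 : Cc.deg e = δ := by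
      by_contra h
      exact he (if_neg h)
    rw [if_pos (show e ∈ {e | Cc.deg e = δ} from h1), restr_coeff] at he
    have h2 : Cc.wt e = w - 1 := by
      by_contra h
      exact he (if_neg h)
    rw [if_pos (show e ∈ {e | Cc.wt e = w - 1} from h2)] at he
    have h3 : (toL (G A) * AddMonoidAlgebra.single (τ A) 1 : Lau (Vr n r s) k).coeff e ≠ 0 := by
      rw [mul_comm]
      exact he
    obtain ⟨m, hm1, hm2⟩ := exists_of_toL_mul_coeff_ne h3
    have h4 : u (ktA A) (ktZ A) ≠ 0 := by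
      intro h
      apply hm1
      simp only [G, h, smul_zero, coeff_zero]
    have h5 := hu1 _ _ h4
    have h6 : (ktA A).card + (ktZ A).card = A.card := kt_card A
    have h7 : τ A = fun v => e v - (m v : ℤ) := by
      by_contra h
      apply hm2
      rw [AddMonoidAlgebra.coeff_single, Finsupp.single_apply, if_neg h]
    refine ⟨?_, h1, ?_, h2⟩
    · rw [← h6]
      push_cast
      linarith
    · intro v hv
      have h8 := congrFun h7 v
      have h9 : τ A v = Cc.thr v A := if_neg hv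
      rw [h9] at h8
      have h10 : (0 : ℤ) ≤ (m v : ℤ) := by positivity
      linarith
  · rw [hr2, hr1, hη']
    funext A
    refine lau_ext fun e => ?_
    rw [restr_coeff, restr_coeff]
    by_cases he : (ξ A).coeff e = 0
    · rw [he]
      simp
    · obtain ⟨_, h1, _, h2⟩ := hξ A e he
      rw [if_pos (show e ∈ {e | Cc.deg e = δ + 0} by rw [add_zero]; exact h1),
        if_pos (show e ∈ {e | Cc.wt e = w - 1 + 1} by rw [sub_add_cancel]; exact h2)]

end

end HN
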