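import Pool.Agent.HN.Hpy

/-! # HN/Lef : abstract Lefschetz formula (module HND-15)

PLAN.  `exists_homotopy`, `str_homotopy` with `s i = (-1)^(dgr i)`, `t (inl j) = (-1)^M`,
`t (inr j) = (-1)^(M-1)` (if `M = 0` there is no `j` with `q (b i) (inr j) ≠ 0`, and `g₀ j ∈ gr (-1)`
is `0`, but then `H2u` gives that `J` is empty or `R` trivial; to avoid this use
`t (inr j) = - (-1)^M`).  `q (Φ (g₁ j)) (inl j) = B₁ j j`: `Φ (g₁ j) = ∑ B₁ i j • g₁ i + D y`,
apply `q` (`q ∘ D = 0`, `q ∘ gmap = id`).  The finsum `str` is the finite sum over `S`.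
-/

namespace HN

section
variable {R V I : Type*} [CommRing R] [AddCommGroup V] [Module R V]

private theorem lef_g {J : Type*} [Fintype J] (g₁ g₀ : J → V) (c : J ⊕ J → R) :
    gmap g₁ g₀ c = ∑ j, c (Sum.inl j) • g₁ j + ∑ j, c (Sum.inr j) • g₀ j := rfl

private theorem lef_g1 {J : Type*} [Fintype J] [DecidableEq J] (g₁ g₀ : J → V) (j : J) :
    gmap g₁ g₀ (Pi.single (Sum.inl j) (1 : R) : J ⊕ J → R) = g₁ j := by
  rw [lef_g]
  simp [Pi.single_apply]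

private theorem lef_g0 {J : Type*} [Fintype J] [DecidableEq J] (g₁ g₀ : J → V) (j : J) :
    gmap g₁ g₀ (Pi.single (Sum.inr j) (1 : R) : J ⊕ J → R) = g₀ j := by
  rw [lef_g]
  simp [Pi.single_apply]

private theorem lef_b {b : Module.Basis I R V} {dgr : I → ℕ} (k : I) : b k ∈ gr b dgr (dgr k) := by
  classical
  intro i hi
  rw [Module.Basis.repr_self, Finsupp.single_apply] at hi
  by_cases hki : k = i
  · rw [hki]
  · rw [if_neg hki] at hi
    exact absurd rfl hi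

theorem lefschetz {b : Module.Basis I R V} {dgr : I → ℕ} {M : ℕ} {D : V →ₗ[R] V} {J : Type*}
    [Fintype J] [DecidableEq J] {g₁ g₀ : J → V} (H : HC b dgr M D g₁ g₀) {Φ : V →ₗ[R] V}
    (hΦ : ∀ j, ∀ x ∈ gr b dgr j, Φ x ∈ gr b dgr j) (hc : ∀ x, Φ (D x) = D (Φ x))
    (S : Finset I) (hS : ∀ i, i ∉ S → Φ (b i) = 0) (B₁ B₀ : Matrix J J R)
    (h1 : ∀ j, ∃ y, Φ (g₁ j) = ∑ i, B₁ i j • g₁ i + D y)
    (h0 : ∀ j, ∃ y, Φ (g₀ j) = ∑ i, B₀ i j • g₀ i + D y) :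
    ∑ i ∈ S, (-1 : R) ^ dgr i * b.repr (Φ (b i)) i = (-1) ^ M * (B₁.trace - B₀.trace) := by
  classical
  obtain ⟨h, q, hhom, hq1, hq0, hqD, hqg⟩ := exists_homotopy H
  have hs : str b (fun i => (-1 : R) ^ dgr i) Φ = ∑ j : J ⊕ J,
      (Sum.elim (fun _ => (-1 : R) ^ M) (fun _ => -(-1 : R) ^ M) j) *
        q (Φ (gmap g₁ g₀ (Pi.single j (1 : R)))) j := by
    refine str_homotopy (D := D) (h := h) ?_ ?_ ?_ ⟨S, hS⟩ hc hhom
    · intro i k hik
      have h2 := H.hD _ _ (lef_b k) i hik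
      have h3 : dgr i = dgr k + 1 := by exact_mod_cast h2
      rw [h3, pow_succ]
      ring
    · intro i k hik
      have h2 := hΦ _ _ (lef_b k) i hik
      have h3 : dgr i = dgr k := by exact_mod_cast h2
      rw [h3]
    · intro i j hij
      rcases j with j | j
      · rw [Sum.elim_inl, hq1 i j hij]
      · rw [Sum.elim_inr, ← hq0 i j hij, pow_succ]
        ring
  have hL : str b (fun i => (-1 : R) ^ dgr i) Φ =
      ∑ i ∈ S, (-1 : R) ^ dgr i * b.repr (Φ (b i)) i := by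
    unfold str
    refine finsum_eq_sum_of_support_subset _ fun i hi => ?_
    by_contra hiS
    apply hi
    show (-1 : R) ^ dgr i * b.repr (Φ (b i)) i = 0
    rw [hS i hiS, map_zero, Finsupp.zero_apply, mul_zero]
  have k1 : ∀ j, q (Φ (gmap g₁ g₀ (Pi.single (Sum.inl j) (1 : R)))) (Sum.inl j) = B₁ j j := by
    intro j
    obtain ⟨y, hy⟩ := h1 j
    have e1 : Φ (g₁ j) = gmap g₁ g₀ (Sum.elim (fun i => B₁ i j) (fun _ => 0)) + D y := by
      rw [lef_g, hy]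
      simp
    rw [lef_g1, e1, map_add, hqg, hqD, add_zero, Sum.elim_inl]
  have k0 : ∀ j, q (Φ (gmap g₁ g₀ (Pi.single (Sum.inr j) (1 : R)))) (Sum.inr j) = B₀ j j := by
    intro j
    obtain ⟨y, hy⟩ := h0 j
    have e1 : Φ (g₀ j) = gmap g₁ g₀ (Sum.elim (fun _ => 0) (fun i => B₀ i j)) + D y := by
      rw [lef_g, hy]
      simp
    rw [lef_g0, e1, map_add, hqg, hqD, add_zero, Sum.elim_inr]
  rw [← hL, hs, Fintype.sum_sum_type]
  have e1 : ∀ j : J, (Sum.elim (fun _ => (-1 : R) ^ M) (fun _ => -(-1 : R) ^ M) (Sum.inl j : J ⊕ J)) *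
      q (Φ (gmap g₁ g₀ (Pi.single (Sum.inl j) (1 : R)))) (Sum.inl j) = (-1 : R) ^ M * B₁ j j := by
    intro j
    rw [k1, Sum.elim_inl]
  have e0 : ∀ j : J, (Sum.elim (fun _ => (-1 : R) ^ M) (fun _ => -(-1 : R) ^ M) (Sum.inr j : J ⊕ J)) *
      q (Φ (gmap g₁ g₀ (Pi.single (Sum.inr j) (1 : R)))) (Sum.inr j) = -(-1 : R) ^ M * B₀ j j := by
    intro j
    rw [k0, Sum.elim_inr]
  rw [Finset.sum_congr rfl fun j _ => e1 j, Finset.sum_congr rfl fun j _ => e0 j,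
    ← Finset.mul_sum, ← Finset.mul_sum]
  have e2 : B₁.trace = ∑ j, B₁ j j := rfl
  have e3 : B₀.trace = ∑ j, B₀ j j := rfl
  rw [e2, e3]
  ring

end

end HN
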