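import Pool.Agent.HN.TwR4
import Pool.Agent.HN.KTb
import Pool.Agent.HN.Lef

/-! # HN/Lef2 : Lefschetz formula for the twisted complex (module HND-17)

PLAN.  `V = KTa R C δ`, basis `ktb`, `dgr = KI.dgr`, `M = card ι`, `D` = restriction of `Dt ga H.h` to
`KTa` (maps `KTa` to itself by `KTa_ind` and `Dt_mem_KT`), `J = Bs`, `g₁ e = bas univ e`,
`g₀ e = eul (bas univ e)`.  `HC`: `H1` `Sit.span`, `H1u` `Sit.unique`, `H2`, `H2u` (TwR4), `H3` `Sit.exact`,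
`D0` `Sit.eul_top`.  `Φ` restricted to `KTa`.  `B₁ = B`, `B₀ = Q • B`:
`Φ (eul (bas e)) = Q • eul (Φ (bas e)) = Q • (∑ B e' e • eul (bas e') - Dt (eul η))`.
-/

open MvPolynomial

namespace HN

section
variable {ι : Type*} [Fintype ι] [DecidableEq ι] [Ranked ι] {F R : Type*} [Field F] [CommRing R]
variable {C : CType ι} {p k : ℕ} {W : WD p k F R} {f : MvPolynomial ι F} {δ : ℤ}
  {H : TwH C p k R} {ga : ι → R}

private theorem lef2_Dt_KTa (S : Sit C p k W f δ H ga) :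
    ∀ x ∈ KTa R C δ, Dt ga H.h x ∈ KTa R C δ := by
  intro x hx
  refine KTa_ind (P := fun x => Dt ga H.h x ∈ KTa R C δ) ?_ ?_ ?_ hx
  · rw [map_zero]; exact (KTa R C δ).zero_mem
  · intro x y hx hy
    rw [map_add]; exact (KTa R C δ).add_mem hx hy
  · intro j x hx
    exact KT_le_KTa C δ (j + 1) (Dt_mem_KT S.hga H.h_mon hx)

private theorem lef2_Phi_KTa {Φ : (Finset ι → Lau ι R) →ₗ[R] (Finset ι → Lau ι R)}
    (hm : ∀ j, ∀ ξ ∈ KT R C ∅ δ j, Φ ξ ∈ KT R C ∅ δ j) :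
    ∀ x ∈ KTa R C δ, Φ x ∈ KTa R C δ := by
  intro x hx
  refine KTa_ind (P := fun x => Φ x ∈ KTa R C δ) ?_ ?_ ?_ hx
  · rw [map_zero]; exact (KTa R C δ).zero_mem
  · intro x y hx hy
    rw [map_add]; exact (KTa R C δ).add_mem hx hy
  · intro j x hx
    exact KT_le_KTa C δ j (hm j x hx)

theorem Sit.lef (S : Sit C p k W f δ H ga) {Bs : Finset (ι → ℤ)} (hB : GB C f δ Bs)
    {Φ : (Finset ι → Lau ι R) →ₗ[R] (Finset ι → Lau ι R)}
    (hm : ∀ j, ∀ ξ ∈ KT R C ∅ δ j, Φ ξ ∈ KT R C ∅ δ j)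
    (hD : ∀ j, ∀ ξ ∈ KT R C ∅ δ j, Φ (Dt ga H.h ξ) = Dt ga H.h (Φ ξ)) {Q : R}
    (he : ∀ j, ∀ ξ ∈ KT R C ∅ δ j, Φ (eul R C ξ) = Q • eul R C (Φ ξ))
    (T : Finset (Finset ι × (ι → ℤ)))
    (hT : ∀ x ∈ T, C.deg x.2 = δ ∧ ∀ v, C.thr v x.1 ≤ x.2 v)
    (hT' : ∀ (A : Finset ι) (e : ι → ℤ), C.deg e = δ → (∀ v, C.thr v A ≤ e v) → (A, e) ∉ T →
      Φ (bas R A e) = 0)
    (B : (ι → ℤ) → (ι → ℤ) → R)
    (hBm : ∀ e ∈ Bs, ∃ η ∈ KT R C ∅ δ ((Fintype.card ι : ℤ) - 1),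
      Φ (bas R Finset.univ e) = ∑ e' ∈ Bs, B e' e • bas R Finset.univ e' + Dt ga H.h η) :
    ∑ x ∈ T, (-1 : R) ^ x.1.card * (Φ (bas R x.1 x.2) x.1).coeff x.2
      = (-1) ^ Fintype.card ι * (1 - Q) * ∑ e ∈ Bs, B e e := by
  classical
  set D : KTa R C δ →ₗ[R] KTa R C δ := (Dt ga H.h).restrict (lef2_Dt_KTa S) with hDdef
  set Φ' : KTa R C δ →ₗ[R] KTa R C δ := Φ.restrict (lef2_Phi_KTa hm) with hΦdef
  have hbK : ∀ e ∈ Bs, bas R Finset.univ e ∈ KT R C ∅ δ (Fintype.card ι) := fun e he' =>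
    KW_le_KT _ _ _ _ _ (bas_mem (hB.adm e he').1 (hB.adm e he').2)
  have heK : ∀ e ∈ Bs, eul R C (bas R Finset.univ e) ∈ KT R C ∅ δ ((Fintype.card ι : ℤ) - 1) :=
    fun e he' => eul_mem_KT (hbK e he')
  set g₁ : Bs → KTa R C δ := fun j => ⟨bas R Finset.univ j.1, KT_le_KTa _ _ _ (hbK j.1 j.2)⟩
    with hg₁
  set g₀ : Bs → KTa R C δ := fun j =>
    ⟨eul R C (bas R Finset.univ j.1), KT_le_KTa _ _ _ (heK j.1 j.2)⟩ with hg₀
  have hDc : ∀ x : KTa R C δ, ((D x : KTa R C δ) : Finset ι → Lau ι R) = Dt ga H.h x := fun _ => rfl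
  have hΦc : ∀ x : KTa R C δ, ((Φ' x : KTa R C δ) : Finset ι → Lau ι R) = Φ x := fun _ => rfl
  have hsum1 : ∀ c : (ι → ℤ) → R,
      ((∑ j : Bs, c j.1 • g₁ j : KTa R C δ) : Finset ι → Lau ι R) =
        ∑ e ∈ Bs, c e • bas R Finset.univ e := by
    intro c
    rw [Submodule.coe_sum]
    exact Finset.sum_coe_sort Bs (fun e => c e • bas R Finset.univ e)
  have hsum0 : ∀ c : (ι → ℤ) → R,
      ((∑ j : Bs, c j.1 • g₀ j : KTa R C δ) : Finset ι → Lau ι R) =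
        ∑ e ∈ Bs, c e • eul R C (bas R Finset.univ e) := by
    intro c
    rw [Submodule.coe_sum]
    exact Finset.sum_coe_sort Bs (fun e => c e • eul R C (bas R Finset.univ e))
  have hext : ∀ c : Bs → R, ∃ c' : (ι → ℤ) → R, ∀ j : Bs, c' j.1 = c j := by
    intro c
    refine ⟨fun e => if h : e ∈ Bs then c ⟨e, h⟩ else 0, fun j => ?_⟩
    simp [j.2]
  have hHC : HC (ktb R C δ) KI.dgr (Fintype.card ι) D g₁ g₀ := by
    refine ⟨?_, ?_, ?_, ?_, ?_, ?_, ?_, ?_, ?_, ?_, ?_⟩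
    · intro i
      exact Finset.card_le_univ _
    · intro j x hx
      rw [mem_gr_ktb] at hx ⊢
      exact Dt_mem_KT S.hga H.h_mon hx
    · intro x
      apply Subtype.ext
      exact Dt_Dt H.h_sym _
    · intro j
      rw [mem_gr_ktb]
      exact hbK j.1 j.2
    · intro j
      rw [mem_gr_ktb]
      exact heK j.1 j.2
    · intro j
      apply Subtype.ext
      exact S.eul_top (hbK j.1 j.2)
    · intro x hx
      rw [mem_gr_ktb] at hx
      obtain ⟨c, η, hη, hc⟩ := S.span hB hx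
      refine ⟨fun j => c j.1, ⟨η, KT_le_KTa _ _ _ hη⟩, (mem_gr_ktb _).2 hη, ?_⟩
      apply Subtype.ext
      rw [Submodule.coe_add, hsum1 c]
      exact hc
    · intro c y hy h
      rw [mem_gr_ktb] at hy
      obtain ⟨c', hc'⟩ := hext c
      have h1 : ∑ e ∈ Bs, c' e • bas R Finset.univ e = Dt ga H.h y := by
        rw [← hsum1 c', ← hDc, ← h]
        congr 1
        exact Finset.sum_congr rfl fun j _ => by rw [hc']
      have h2 := S.unique hB c' hy h1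
      funext j
      rw [← hc' j]
      exact h2 j.1 j.2
    · intro x hx h0
      rw [mem_gr_ktb] at hx
      obtain ⟨c, η, hη, hc⟩ := S.H2 hB hx (congrArg Subtype.val h0)
      refine ⟨fun j => c j.1, ⟨η, KT_le_KTa _ _ _ hη⟩, (mem_gr_ktb _).2 hη, ?_⟩
      apply Subtype.ext
      rw [Submodule.coe_add, hsum0 c]
      exact hc
    · intro c y hy h
      rw [mem_gr_ktb] at hy
      obtain ⟨c', hc'⟩ := hext c
      have h1 : ∑ e ∈ Bs, c' e • eul R C (bas R Finset.univ e) = Dt ga H.h y := by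
        rw [← hsum0 c', ← hDc, ← h]
        congr 1
        exact Finset.sum_congr rfl fun j _ => by rw [hc']
      have h2 := S.H2u hB c' hy h1
      funext j
      rw [← hc' j]
      exact h2 j.1 j.2
    · intro j hj x hx h0
      rw [mem_gr_ktb] at hx
      obtain ⟨η, hη, h⟩ := S.exact hj hx (congrArg Subtype.val h0)
      exact ⟨⟨η, KT_le_KTa _ _ _ hη⟩, (mem_gr_ktb _).2 hη, Subtype.ext h⟩
  have hΦg : ∀ j, ∀ x ∈ gr (ktb R C δ) KI.dgr j, Φ' x ∈ gr (ktb R C δ) KI.dgr j := by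
    intro j x hx
    rw [mem_gr_ktb] at hx ⊢
    exact hm j _ hx
  have hcomm : ∀ x, Φ' (D x) = D (Φ' x) := by
    intro x
    apply Subtype.ext
    rw [hΦc, hDc, hDc, hΦc]
    refine KTa_ind (P := fun x => Φ (Dt ga H.h x) = Dt ga H.h (Φ x)) ?_ ?_ hD x.2
    · simp
    · intro x y hx hy
      simp only [map_add, hx, hy]
  set B₁ : Matrix Bs Bs R := Matrix.of fun i j => B i.1 j.1 with hB₁
  set B₀ : Matrix Bs Bs R := Matrix.of fun i j => Q * B i.1 j.1 with hB₀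
  have h1 : ∀ j, ∃ y, Φ' (g₁ j) = ∑ i, B₁ i j • g₁ i + D y := by
    intro j
    obtain ⟨η, hη, h⟩ := hBm j.1 j.2
    refine ⟨⟨η, KT_le_KTa _ _ _ hη⟩, ?_⟩
    apply Subtype.ext
    rw [Submodule.coe_add]
    refine h.trans ?_
    rw [← hsum1 (fun e => B e j.1)]
    rfl
  have h0 : ∀ j, ∃ y, Φ' (g₀ j) = ∑ i, B₀ i j • g₀ i + D y := by
    intro j
    obtain ⟨η, hη, h⟩ := hBm j.1 j.2
    refine ⟨⟨-(Q • eul R C η), (KTa R C δ).neg_mem ((KTa R C δ).smul_mem _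
      (KT_le_KTa _ _ _ (eul_mem_KT hη)))⟩, ?_⟩
    apply Subtype.ext
    rw [Submodule.coe_add]
    have h2 : Φ (eul R C (bas R Finset.univ j.1)) =
        ∑ e ∈ Bs, (Q * B e j.1) • eul R C (bas R Finset.univ e) +
          Dt ga H.h (-(Q • eul R C η)) := by
      rw [he _ _ (hbK j.1 j.2), h, map_add, map_sum, eul_Dt S.hga H.h_eul hη, map_neg, map_smul,
        smul_add, smul_neg, Finset.smul_sum]
      congr 1
      refine Finset.sum_congr rfl fun e _ => ?_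
      rw [map_smul, smul_smul]
    refine h2.trans ?_
    rw [← hsum0 (fun e => Q * B e j.1)]
    rfl
  set Sf : Finset (KI C δ) :=
    T.subtype (fun x => C.deg x.2 = δ ∧ ∀ v, C.thr v x.1 ≤ x.2 v) with hSf
  have hS : ∀ i, i ∉ Sf → Φ' (ktb R C δ i) = 0 := by
    intro i hi
    apply Subtype.ext
    rw [hΦc, ktb_coe]
    refine hT' i.1.1 i.1.2 i.2.1 i.2.2 fun hmem => hi ?_
    rw [hSf]
    exact Finset.mem_subtype.2 hmem
  have key := lefschetz hHC hΦg hcomm Sf hS B₁ B₀ h1 h0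
  have hL : ∑ i ∈ Sf, (-1 : R) ^ KI.dgr i * (ktb R C δ).repr (Φ' (ktb R C δ i)) i =
      ∑ x ∈ T, (-1 : R) ^ x.1.card * (Φ (bas R x.1 x.2) x.1).coeff x.2 := by
    rw [← Finset.sum_subtype_of_mem
      (fun x : Finset ι × (ι → ℤ) => (-1 : R) ^ x.1.card * (Φ (bas R x.1 x.2) x.1).coeff x.2) hT]
    refine Finset.sum_congr rfl fun i _ => ?_
    rw [ktb_repr, hΦc, ktb_coe]
    rfl
  rw [← hL, key]
  have ht1 : B₁.trace = ∑ e ∈ Bs, B e e := by
    rw [Matrix.trace]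
    exact Finset.sum_coe_sort Bs (fun e => B e e)
  have ht0 : B₀.trace = Q * ∑ e ∈ Bs, B e e := by
    rw [Matrix.trace, Finset.mul_sum]
    exact Finset.sum_coe_sort Bs (fun e => Q * B e e)
  rw [ht1, ht0]
  ring

end

end HN
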