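import Pool.Agent.HN.Dim

/-! # HN/MonBasis : a monomial basis of the top cohomology (module HN-09)

PLAN: the classes of `bas univ e`, `(univ, e) ∈ kset C δ N' w`, span the finite-dimensional
cokernel; extract a basis (`exists_linearIndependent'` / `Module.Basis.ofSpan` style), its
cardinality is `finrank = jnum` (`finrank_coker`).
-/

open MvPolynomial

namespace HN

section
variable {ι : Type*} [Fintype ι] [DecidableEq ι] [Ranked ι]
variable {k : Type*} [Field k]

variable (R : Type*) [CommRing R] in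
/-- basis vector `X^e e_A` -/
noncomputable def bas (A : Finset ι) (e : ι → ℤ) : Finset ι → Lau ι R := Pi.single A (mon R e)

/-- the exponents of the top degree monomials -/
theorem mb_bas_mem {C : CType ι} {δ w : ℤ} {e : ι → ℤ}
    (he : (Finset.univ, e) ∈ kset C δ (Fintype.card ι) w) :
    bas k Finset.univ e ∈ KW k C ∅ δ (Fintype.card ι) w := by
  obtain ⟨h1, h2, h3, h4⟩ := he
  intro A e' h
  by_cases hA : A = Finset.univ
  · subst hA
    have h5 : e' = e := by
      by_contra hne
      apply h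
      simp only [bas, Pi.single_eq_same, mon]
      rw [AddMonoidAlgebra.coeff_single, Finsupp.single_apply, if_neg (fun h => hne h.symm)]
    subst h5
    exact ⟨h1, h2, fun v _ => h3 v, h4⟩
  · exfalso
    apply h
    simp [bas, Pi.single_eq_of_ne hA]

/-- a top degree form is the sum of its monomials -/
theorem mb_top_eq {C : CType ι} {δ w : ℤ} {ξ : Finset ι → Lau ι k}
    (hξ : ξ ∈ KW k C ∅ δ (Fintype.card ι) w) :
    ξ = ∑ e ∈ (ξ Finset.univ).coeff.support,
      (ξ Finset.univ).coeff e • bas k Finset.univ e := by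
  funext A
  rw [Finset.sum_apply]
  by_cases hA : A = Finset.univ
  · subst hA
    simp only [bas, Pi.smul_apply, Pi.single_eq_same, mon]
    apply AddMonoidAlgebra.ext
    refine Finsupp.ext fun e' => ?_
    rw [AddMonoidAlgebra.coeff_sum, Finsupp.finset_sum_apply]
    simp only [AddMonoidAlgebra.coeff_smul, Finsupp.smul_apply, AddMonoidAlgebra.coeff_single,
      Finsupp.single_apply, smul_eq_mul, mul_ite, mul_one, mul_zero]
    rw [Finset.sum_ite_eq' ]
    by_cases h : e' ∈ (ξ Finset.univ).coeff.support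
    · rw [if_pos h]
    · rw [if_neg h]
      simpa using h
  · rw [Finset.sum_eq_zero]
    · apply AddMonoidAlgebra.ext
      refine Finsupp.ext fun e' => ?_
      by_contra hne
      have h1 := (hξ A e' hne).1
      apply hA
      rw [← Finset.card_eq_iff_eq_univ]
      exact_mod_cast h1
    · intro e _
      simp [bas, Pi.single_eq_of_ne hA]

/-- a basis of the cokernel consisting of monomials -/
theorem exists_monomial_basis {C : CType ι} {F : MvPolynomial ι k} (hF : C.Hom F)
    (hU : C.UnitCond F) {δ w : ℤ} (hδ0 : 0 < δ) (hδ1 : δ < C.dlog) :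
    ∃ Bs : Finset (ι → ℤ),
      (∀ e ∈ Bs, C.deg e = δ ∧ (∀ v, C.thr v Finset.univ ≤ e v) ∧ C.wt e = w) ∧
      (Bs.card : ℤ) = jnum C δ w ∧
      (∀ ξ ∈ KW k C ∅ δ (Fintype.card ι) w, ∃ c : (ι → ℤ) → k,
        ∃ η ∈ KW k C ∅ δ ((Fintype.card ι : ℤ) - 1) (w - 1),
          ξ = ∑ e ∈ Bs, c e • bas k Finset.univ e + Dk F η) ∧
      (∀ c : (ι → ℤ) → k, ∀ η ∈ KW k C ∅ δ ((Fintype.card ι : ℤ) - 1) (w - 1),
          ∑ e ∈ Bs, c e • bas k Finset.univ e = Dk F η → ∀ e ∈ Bs, c e = 0) := by
  classical
  set K := KW k C ∅ δ (Fintype.card ι) w with hK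
  set E : Set (ι → ℤ) := {e | (Finset.univ, e) ∈ kset C δ (Fintype.card ι) w} with hE
  have hEfin : E.Finite := by
    have h1 : E ⊆ Prod.snd '' kset C δ (Fintype.card ι) w := by
      intro e he
      exact ⟨(Finset.univ, e), he, rfl⟩
    exact ((kset_finite C δ (Fintype.card ι) w).image _).subset h1
  have : Finite E := hEfin.to_subtype
  set W := (topIm F C δ w).submoduleOf K with hW
  let bb : E → K := fun e => ⟨bas k Finset.univ e.1, mb_bas_mem e.2⟩
  let b : E → (K ⧸ W) := fun e => W.mkQ (bb e)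
  have hspan : Submodule.span k (Set.range b) = ⊤ := by
    rw [eq_top_iff]
    intro q _
    obtain ⟨ξ, rfl⟩ := W.mkQ_surjective q
    have h1 := mb_top_eq ξ.2
    have hin : ∀ e ∈ ((ξ : Finset ι → Lau ι k) Finset.univ).coeff.support, e ∈ E := by
      intro e he
      have h2 := ξ.2 Finset.univ e (by simpa using he)
      exact ⟨h2.1, h2.2.1, fun v => h2.2.2.1 v (Finset.notMem_empty v), h2.2.2.2⟩
    have h3 : ξ = ∑ e ∈ ((ξ : Finset ι → Lau ι k) Finset.univ).coeff.support.attach,
        ((ξ : Finset ι → Lau ι k) Finset.univ).coeff e.1 • bb ⟨e.1, hin e.1 e.2⟩ := by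
      apply Subtype.ext
      rw [AddSubmonoidClass.coe_finsetSum]
      simp only [Submodule.coe_smul, bb]
      rw [Finset.sum_attach ((ξ : Finset ι → Lau ι k) Finset.univ).coeff.support
        (fun e => ((ξ : Finset ι → Lau ι k) Finset.univ).coeff e • bas k Finset.univ e)]
      exact h1
    rw [h3, map_sum]
    apply Submodule.sum_mem
    intro e _
    rw [map_smul]
    apply Submodule.smul_mem
    apply Submodule.subset_span
    exact ⟨⟨e.1, hin e.1 e.2⟩, rfl⟩
  obtain ⟨κ, a, ha, hs, hli⟩ := exists_linearIndependent' k b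
  have : Finite κ := Finite.of_injective a ha
  have : Fintype κ := Fintype.ofFinite κ
  have ha' : Function.Injective (fun x : κ => ((a x : E) : ι → ℤ)) := fun x y h =>
    ha (Subtype.ext h)
  let B := Module.Basis.mk hli (by rw [hs, hspan])
  have hcard : Module.finrank k (K ⧸ W) = Fintype.card κ := Module.finrank_eq_card_basis B
  have hfin := finrank_coker hF hU hδ0 hδ1 (w := w)
  refine ⟨Finset.univ.map ⟨fun x : κ => ((a x : E) : ι → ℤ), ha'⟩, ?_, ?_, ?_, ?_⟩
  · intro e he
    rw [Finset.mem_map] at he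
    obtain ⟨x, _, rfl⟩ := he
    exact (a x).2.2
  · rw [Finset.card_map, Finset.card_univ, ← hcard]
    exact hfin
  · intro ξ hξ
    have h1 : W.mkQ ⟨ξ, hξ⟩ ∈ Submodule.span k (Set.range (b ∘ a)) := by
      rw [hs, hspan]; trivial
    rw [Submodule.mem_span_range_iff_exists_fun] at h1
    obtain ⟨c, hc⟩ := h1
    have h2 : (⟨ξ, hξ⟩ - ∑ x, c x • bb (a x) : K) ∈ W := by
      rw [← Submodule.Quotient.mk_eq_zero, ← Submodule.mkQ_apply, map_sub, map_sum, ← hc,
        sub_eq_zero]
      apply Finset.sum_congr rfl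
      intro x _
      rw [map_smul]
      rfl
    have h3 : ((⟨ξ, hξ⟩ - ∑ x, c x • bb (a x) : K) : Finset ι → Lau ι k) ∈ topIm F C δ w := h2
    obtain ⟨η, hη, hηe⟩ := h3
    refine ⟨Function.extend (fun x : κ => ((a x : E) : ι → ℤ)) c 0, η, hη, ?_⟩
    rw [Finset.sum_map, hηe]
    simp only [Function.Embedding.coeFn_mk, AddSubgroupClass.coe_sub,
      AddSubmonoidClass.coe_finsetSum, Submodule.coe_smul, bb]
    have h4 : ∀ x : κ, Function.extend (fun x : κ => ((a x : E) : ι → ℤ)) c 0
        ((a x : E) : ι → ℤ) = c x := fun x => ha'.extend_apply c 0 x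
    simp only [h4]
    abel
  · intro c η hη h e he
    rw [Finset.mem_map] at he
    obtain ⟨x, _, rfl⟩ := he
    rw [Finset.sum_map] at h
    simp only [Function.Embedding.coeFn_mk] at h ⊢
    have h1 : (∑ x, c (a x).1 • bb (a x) : K) ∈ W := by
      show ((∑ x, c (a x).1 • bb (a x) : K) : Finset ι → Lau ι k) ∈ topIm F C δ w
      rw [AddSubmonoidClass.coe_finsetSum]
      simp only [Submodule.coe_smul, bb]
      exact ⟨η, hη, h.symm⟩
    have h2 : ∑ x, c (a x).1 • (b ∘ a) x = 0 := by
      rw [← Submodule.Quotient.mk_eq_zero, ← Submodule.mkQ_apply, map_sum] at h1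
      rw [← h1]
      apply Finset.sum_congr rfl
      intro x _
      rw [map_smul]
      rfl
    exact (Fintype.linearIndependent_iff.mp hli) (fun x => c (a x).1) h2 x

end

end HN
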