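import Pool.Agent.HN.Data

/-! # HN/NEv : evaluation of power series at nilpotent elements (module HN-11)

PLAN: `nev f x = ∑_{n<L} f_n x^n` for every `L` with `x^L = 0` (`nilpotencyClass`); products by
regrouping (terms of total degree `≥ L` vanish; e.g. `PowerSeries.trunc` and polynomial evaluation).
-/

namespace HN

section
variable {S B : Type*} [CommRing S] [CommRing B] [Algebra S B]

/-- evaluation of a power series at a nilpotent element (junk value if `x` is not nilpotent) -/
noncomputable def nev (f : PowerSeries S) (x : B) : B :=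
  ∑ n ∈ Finset.range (nilpotencyClass x), algebraMap S B (PowerSeries.coeff n f) * x ^ n

theorem nev_eq (f : PowerSeries S) {x : B} {L : ℕ} (h : x ^ L = 0) :
    nev f x = ∑ n ∈ Finset.range L, algebraMap S B (PowerSeries.coeff n f) * x ^ n := by
  have hle : nilpotencyClass x ≤ L := Nat.sInf_le h
  unfold nev
  refine Finset.sum_subset (Finset.range_mono hle) ?_
  intro n _ hn
  rw [Finset.mem_range, not_lt] at hn
  have hx : IsNilpotent x := ⟨L, h⟩
  obtain ⟨k, rfl⟩ := Nat.exists_eq_add_of_le hn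
  rw [pow_add, pow_nilpotencyClass hx, zero_mul, mul_zero]

theorem nev_congr {f g : PowerSeries S} {x : B} {L : ℕ} (h : x ^ L = 0)
    (hfg : ∀ n < L, PowerSeries.coeff n f = PowerSeries.coeff n g) : nev f x = nev g x := by
  rw [nev_eq f h, nev_eq g h]
  exact Finset.sum_congr rfl fun n hn => by rw [hfg n (Finset.mem_range.1 hn)]

theorem nev_one (x : B) (hx : IsNilpotent x) : nev (1 : PowerSeries S) x = 1 := by
  obtain ⟨L, hL⟩ := hx
  have hL' : x ^ (L + 1) = 0 := by rw [pow_succ, hL, zero_mul]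
  rw [nev_eq _ hL', Finset.sum_range_succ']
  simp [PowerSeries.coeff_one]

theorem nev_add (f g : PowerSeries S) {x : B} (hx : IsNilpotent x) :
    nev (f + g) x = nev f x + nev g x := by
  obtain ⟨L, hL⟩ := hx
  rw [nev_eq _ hL, nev_eq _ hL, nev_eq _ hL, ← Finset.sum_add_distrib]
  exact Finset.sum_congr rfl fun n _ => by rw [map_add, map_add, add_mul]

theorem nev_mul (f g : PowerSeries S) {x : B} (hx : IsNilpotent x) :
    nev (f * g) x = nev f x * nev g x := by
  obtain ⟨L, hL⟩ := hx
  have hzero : ∀ n, L ≤ n → x ^ n = 0 := fun n hn => by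
    obtain ⟨k, rfl⟩ := Nat.exists_eq_add_of_le hn
    rw [pow_add, hL, zero_mul]
  have h1 : nev f x * nev g x = ∑ i ∈ Finset.range L, ∑ j ∈ Finset.range L,
      algebraMap S B (PowerSeries.coeff i f * PowerSeries.coeff j g) * x ^ (i + j) := by
    rw [nev_eq f hL, nev_eq g hL, Finset.sum_mul_sum]
    refine Finset.sum_congr rfl fun i _ => Finset.sum_congr rfl fun j _ => ?_
    rw [map_mul, pow_add]; ring
  rw [h1, nev_eq (f * g) (hzero (L + L) (Nat.le_add_left _ _)), ← Finset.sum_product']
  have h2 : ∀ n, algebraMap S B (PowerSeries.coeff n (f * g)) * x ^ n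
      = ∑ p ∈ Finset.HasAntidiagonal.antidiagonal n,
        algebraMap S B (PowerSeries.coeff p.1 f * PowerSeries.coeff p.2 g) * x ^ (p.1 + p.2) := by
    intro n
    rw [PowerSeries.coeff_mul, map_sum, Finset.sum_mul]
    refine Finset.sum_congr rfl fun p hp => ?_
    rw [Finset.HasAntidiagonal.mem_antidiagonal.1 hp]
  simp_rw [h2]
  rw [Finset.sum_sigma']
  symm
  refine Finset.sum_bij_ne_zero (fun p _ _ => ⟨p.1 + p.2, p⟩) ?_ ?_ ?_ ?_
  · intro p hp _
    rw [Finset.mem_product, Finset.mem_range, Finset.mem_range] at hp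
    rw [Finset.mem_sigma]
    refine ⟨Finset.mem_range.2 ?_, Finset.HasAntidiagonal.mem_antidiagonal.2 rfl⟩
    show p.1 + p.2 < L + L
    omega
  · intro p _ _ q _ _ h
    simpa using (Sigma.mk.inj_iff.1 h).2
  · rintro ⟨n, p⟩ hp hne
    rw [Finset.mem_sigma] at hp
    have hpn : p.1 + p.2 = n := Finset.HasAntidiagonal.mem_antidiagonal.1 hp.2
    have hlt : p.1 + p.2 < L := by
      by_contra hcon
      apply hne
      show _ * x ^ (p.1 + p.2) = 0
      rw [hzero _ (not_lt.1 hcon), mul_zero]
    refine ⟨p, ?_, ?_, ?_⟩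
    · rw [Finset.mem_product, Finset.mem_range, Finset.mem_range]
      omega
    · exact hne
    · subst hpn; rfl
  · intro p _ _
    rfl

theorem nev_pow (f : PowerSeries S) (n : ℕ) {x : B} (hx : IsNilpotent x) :
    nev (f ^ n) x = nev f x ^ n := by
  induction n with
  | zero => rw [pow_zero, pow_zero, nev_one x hx]
  | succ n ih => rw [pow_succ, pow_succ, nev_mul _ _ hx, ih]

theorem nev_prod {α : Type*} (s : Finset α) (f : α → PowerSeries S) {x : B}
    (hx : IsNilpotent x) : nev (∏ i ∈ s, f i) x = ∏ i ∈ s, nev (f i) x := by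
  classical
  induction s using Finset.induction_on with
  | empty => rw [Finset.prod_empty, Finset.prod_empty, nev_one x hx]
  | insert a s ha ih => rw [Finset.prod_insert ha, Finset.prod_insert ha, nev_mul _ _ hx, ih]

/-- evaluation at `0` -/
theorem nev_zero (f : PowerSeries S) :
    nev f (0 : B) = algebraMap S B (PowerSeries.coeff 0 f) := by
  rw [nev_eq f (x := (0 : B)) (L := 1) (pow_one 0)]
  simp

/-- `f = a + b X + X^2 (...)` -/
theorem nev_two (f : PowerSeries S) {x : B} (hx : IsNilpotent x) :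
    ∃ c : B, nev f x = algebraMap S B (PowerSeries.coeff 0 f)
      + algebraMap S B (PowerSeries.coeff 1 f) * x + x ^ 2 * c := by
  obtain ⟨L, hL⟩ := hx
  have hL' : x ^ (2 + L) = 0 := by rw [pow_add, hL, mul_zero]
  refine ⟨∑ n ∈ Finset.range L, algebraMap S B (PowerSeries.coeff (2 + n) f) * x ^ n, ?_⟩
  rw [nev_eq f hL', Finset.sum_range_add, Finset.sum_range_succ, Finset.sum_range_one,
    Finset.mul_sum]
  rw [pow_zero, mul_one, pow_one]
  congr 1
  refine Finset.sum_congr rfl fun n _ => ?_
  rw [pow_add]; ring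

/-- compatibility with algebra homomorphisms -/
theorem nev_map {B' : Type*} [CommRing B'] [Algebra S B'] (φ : B →ₐ[S] B')
    (f : PowerSeries S) {x : B} (hx : IsNilpotent x) : φ (nev f x) = nev f (φ x) := by
  obtain ⟨L, hL⟩ := hx
  have hL' : (φ x) ^ L = 0 := by rw [← map_pow, hL, map_zero]
  rw [nev_eq f hL, nev_eq f hL', map_sum]
  refine Finset.sum_congr rfl fun n _ => ?_
  rw [map_mul, map_pow, AlgHom.commutes]

/-- if `g_n = ∑ ...` are the coefficients of `f (a X^m)`: `g_{mi} = f_i a^i`, `g_n = 0` if `m ∤ n` -/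
theorem nev_comp (f g : PowerSeries S) (a : S) {m : ℕ} (hm : 1 ≤ m)
    (hg : ∀ n, PowerSeries.coeff n g = if m ∣ n then PowerSeries.coeff (n / m) f * a ^ (n / m)
      else 0) {x : B} (hx : IsNilpotent x) :
    nev g x = nev f (algebraMap S B a * x ^ m) := by
  obtain ⟨L, hL⟩ := hx
  have h1 : x ^ (m * L) = 0 := by rw [mul_comm, pow_mul, hL, zero_pow (by omega)]
  have h2 : (algebraMap S B a * x ^ m) ^ L = 0 := by
    rw [mul_pow, ← pow_mul, h1, mul_zero]
  rw [nev_eq g h1, nev_eq f h2]
  symm
  refine Finset.sum_bij_ne_zero (fun i _ _ => m * i) ?_ ?_ ?_ ?_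
  · intro i hi _
    exact Finset.mem_range.2 (Nat.mul_lt_mul_of_pos_left (Finset.mem_range.1 hi) (by omega))
  · intro i _ _ j _ _ h
    exact Nat.eq_of_mul_eq_mul_left (by omega) h
  · intro n hn hne
    by_cases hmn : m ∣ n
    · obtain ⟨i, rfl⟩ := hmn
      have hi : i < L := by
        have := Finset.mem_range.1 hn
        exact lt_of_mul_lt_mul_left this (Nat.zero_le m)
      refine ⟨i, Finset.mem_range.2 hi, ?_, rfl⟩
      intro h0
      apply hne
      rw [hg, if_pos (dvd_mul_right m i), Nat.mul_div_cancel_left i (by omega)]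
      rw [← h0, map_mul, map_pow, mul_pow, pow_mul]
      ring
    · exfalso
      apply hne
      rw [hg, if_neg hmn, map_zero, zero_mul]
  · intro i _ _
    rw [hg, if_pos (dvd_mul_right m i), Nat.mul_div_cancel_left i (by omega), map_mul, map_pow,
      mul_pow, pow_mul]
    ring

end

end HN
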