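import Pool.Agent.HN.Data

/-! # HN/Orth : orthogonality of Teichmüller representatives (module HND-27)

PLAN.  `p` is nilpotent in `A` (`W.ann k`), so an element with `π x ≠ 0` is a unit: `π` is surjective
(`πτ`), choose `y` with `π y = (π x)⁻¹`, `x y - 1 ∈ ker π` is divisible by `p`, hence nilpotent.
`tau_sum_zero`: `Kˣ` is cyclic of order `card K - 1`; if `¬ (card K - 1) ∣ u` there is `g ≠ 0` with
`g ^ u ≠ 1`; substituting `z ↦ g z`: `τ(g)^u S = S`, `(1 - τ(g)^u) S = 0`, and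
`π (1 - τ(g)^u) = 1 - g^u ≠ 0`.
`tau_sum_dvd`: the term `z = 0` vanishes (`1 ≤ u`), the others are `τ (z^u) = τ 1 = 1`.
-/

namespace HN

section
variable {p k : ℕ} {K A : Type*} [Field K] [Fintype K] [CommRing A]

private theorem orth_nilp (D : WD p k K A) : (p : A) ^ k = 0 := by
  have h := (D.ann k le_rfl 1).2 (by rw [Nat.sub_self, pow_zero])
  rwa [mul_one] at h

theorem WD.isUnit (D : WD p k K A) {x : A} (hx : D.π x ≠ 0) : IsUnit x := by
  have h1 : D.π (x * D.τ ((D.π x)⁻¹) - 1) = 0 := by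
    rw [map_sub, map_mul, D.πτ, map_one, mul_inv_cancel₀ hx, sub_self]
  obtain ⟨c, hc⟩ := (D.ker _).1 h1
  have h2 : IsNilpotent ((p : A) * c) := ⟨k, by rw [mul_pow, orth_nilp D, zero_mul]⟩
  have h3 : IsUnit (1 + (p : A) * c) := h2.isUnit_one_add
  have h4 : x * D.τ ((D.π x)⁻¹) = 1 + (p : A) * c := by
    rw [← hc]
    ring
  rw [← h4] at h3
  exact isUnit_of_mul_isUnit_left h3

theorem tau_sum_zero (D : WD p k K A) {u : ℕ} (hu : ¬ (Fintype.card K - 1) ∣ u) :
    ∑ z : K, D.τ z ^ u = 0 := by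
  have h1 : ¬ ∀ x : Kˣ, x ^ u = 1 := fun h => hu ((FiniteField.forall_pow_eq_one_iff K u).1 h)
  push Not at h1
  obtain ⟨g, hg⟩ := h1
  have hg' : (g : K) ^ u ≠ 1 := fun h => hg (by
    ext
    rw [Units.val_pow_eq_pow_val, h, Units.val_one])
  have h2 : D.τ (g : K) ^ u * ∑ z : K, D.τ z ^ u = ∑ z : K, D.τ z ^ u := by
    rw [Finset.mul_sum]
    refine Fintype.sum_equiv (Equiv.mulLeft₀ (g : K) g.ne_zero) _ _ fun z => ?_
    rw [← mul_pow, ← map_mul]
    rfl
  have h3 : IsUnit (D.τ (g : K) ^ u - 1) := by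
    refine D.isUnit ?_
    rw [map_sub, map_pow, D.πτ, map_one]
    exact sub_ne_zero.2 hg'
  have h4 : (D.τ (g : K) ^ u - 1) * ∑ z : K, D.τ z ^ u = (D.τ (g : K) ^ u - 1) * 0 := by
    rw [sub_mul, h2, one_mul, sub_self, mul_zero]
  exact h3.mul_left_cancel h4

theorem tau_sum_dvd (D : WD p k K A) {u : ℕ} (hu : (Fintype.card K - 1) ∣ u) (h1 : 1 ≤ u) :
    ∑ z : K, D.τ z ^ u = (Fintype.card K : A) - 1 := by
  classical
  have h2 : ∀ z : K, D.τ z ^ u = 1 - if z = 0 then 1 else 0 := by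
    intro z
    by_cases hz : z = 0
    · rw [if_pos hz, hz, map_zero, zero_pow (by omega), sub_self]
    · rw [if_neg hz, sub_zero, ← map_pow]
      obtain ⟨c, hc⟩ := hu
      rw [hc, pow_mul, FiniteField.pow_card_sub_one_eq_one z hz, one_pow, map_one]
  rw [Finset.sum_congr rfl fun z _ => h2 z, Finset.sum_sub_distrib, Finset.sum_const,
    Finset.sum_ite_eq' Finset.univ (0 : K) (fun _ => (1 : A)), if_pos (Finset.mem_univ _),
    nsmul_eq_mul, mul_one, Finset.card_univ]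

theorem tau_sum_pow_zero (D : WD p k K A) : ∑ z : K, D.τ z ^ 0 = (Fintype.card K : A) := by
  rw [Finset.sum_congr rfl fun z _ => pow_zero (D.τ z), Finset.sum_const, nsmul_eq_mul, mul_one,
    Finset.card_univ]

end

end HN
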