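import Pool.Agent.HN.PTh

/-! # HN/PPsi : the intertwining relation on power series (module HND-20)

PLAN.  `psi_monomial`: coefficientwise; `p • ν ≤ p • m + fs β ↔ ν ≤ m` because `β v < p`, and
`p • m + fs β - p • ν = p • (m - ν) + fs β`; `wN` additive.
`psi_Gj`: `f'` has the same support as `f`, `τ (a^p) = (τ a)^p`; `Gj` is a sum of monomials
(`coe_monomial`), `psi_monomial` with `ν = p^j • μ`, `wN (p^j • μ) = p^j` (`C.Hom f`).
`psi_tw`: compare the coefficients at `m`; put `n = p • m + fs β`, choose `J` with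
`tN n < p^J`, `k ≤ J`.  By `thP_mul`, `thP_Fh` (and `coeff_mul_congr`)
`[F̂ θ_v G]_n = n_v [F̂ G]_n - ∑_{j<J} [G_j F̂ G]_n`.  `w_j = 0` for `j ≥ k`
(`p^(p^j-1) ∣ w_j`, `p^j - 1 ≥ j ≥ k`, `p^k = 0` by `W.ann k`), so `h_v = ∑_{j<J} w_j G_j`.  The term
`j = 0` cancels (`w_0 = 1`), and `n_v + ga_v = p (m_v + ga'_v)`.  For `j + 1`:
`(w_{j+1} - 1) ψ(G_{j+1} F̂ G) = (w_{j+1} - 1) (p u)^(p^j) G'_j ψ(F̂ G) = p w_j G'_j ψ(F̂ G)`
(`psi_Gj`, `Pi.ws`).
-/

open MvPolynomial

namespace HN

section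
variable {ι : Type*} [Fintype ι] [DecidableEq ι] {R : Type*} [CommRing R]

theorem wN_add (C : CType ι) (m n : ι →₀ ℕ) : wN C (m + n) = wN C m + wN C n := by
  unfold wN
  rw [← Finset.sum_add_distrib]
  exact Finset.sum_congr rfl (fun v _ => by rw [Finsupp.add_apply])

theorem wN_smul (C : CType ι) (j : ℕ) (n : ι →₀ ℕ) : wN C (j • n) = j * wN C n := by
  unfold wN
  rw [Finset.mul_sum]
  exact Finset.sum_congr rfl (fun v _ => by rw [Finsupp.smul_apply, smul_eq_mul])

theorem wN_eq (C : CType ι) (n : ι →₀ ℕ) : (wN C n : ℤ) = C.wt (zz n) := by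
  unfold wN CType.wt zz
  push_cast
  rfl

theorem psi_monomial (C : CType ι) {p : ℕ} (ϖ : R) {β : ι → ℕ} (hβ : ∀ v, β v < p)
    (ν : ι →₀ ℕ) (c : R) (G : MvPowerSeries ι R) :
    psi C p ϖ β (MvPowerSeries.monomial (p • ν) c * G)
      = MvPowerSeries.monomial ν (c * ϖ ^ wN C ν) * psi C p ϖ β G := by
  classical
  ext m
  rw [coeff_psi, MvPowerSeries.coeff_monomial_mul, MvPowerSeries.coeff_monomial_mul]
  have hle : p • ν ≤ p • m + fs β ↔ ν ≤ m := by
    constructor
    · intro h v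
      have h1 := h v
      simp only [Finsupp.add_apply, Finsupp.smul_apply, smul_eq_mul, fs_apply] at h1
      have h2 := hβ v
      by_contra hc
      push Not at hc
      have h3 : m v + 1 ≤ ν v := hc
      have h4 : p * (m v + 1) ≤ p * ν v := Nat.mul_le_mul_left p h3
      have h5 : p * (m v + 1) = p * m v + p := by ring
      omega
    · intro h v
      have h1 := Nat.mul_le_mul_left p (h v)
      simp only [Finsupp.add_apply, Finsupp.smul_apply, smul_eq_mul, fs_apply]
      omega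
  by_cases h : ν ≤ m
  · rw [if_pos (hle.2 h), if_pos h, coeff_psi]
    have hs : p • m + fs β - p • ν = p • (m - ν) + fs β := by
      ext v
      have h1 := Nat.mul_le_mul_left p (h v)
      simp only [Finsupp.add_apply, Finsupp.smul_apply, smul_eq_mul, fs_apply,
        Finsupp.tsub_apply, Nat.mul_sub]
      omega
    have hw : wN C m = wN C ν + wN C (m - ν) := by
      rw [← wN_add, add_tsub_cancel_of_le h]
    rw [hs, hw, pow_add]
    ring
  · rw [if_neg (fun h' => h (hle.1 h')), if_neg h, mul_zero]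

variable {F : Type*} [Field F] {p k : ℕ}

theorem psi_Gj (W : WD p k F R) {C : CType ι} {f f' : MvPolynomial ι F} (hF : C.Hom f)
    (hf : ∀ m, f'.coeff m = f.coeff m ^ p) (hp : p.Prime) (ϖ : R) {β : ι → ℕ}
    (hβ : ∀ v, β v < p) (j : ℕ) (v : ι) (G : MvPowerSeries ι R) :
    psi C p ϖ β ((Gj W f (j + 1) v : MvPowerSeries ι R) * G)
      = ϖ ^ p ^ j • ((Gj W f' j v : MvPowerSeries ι R) * psi C p ϖ β G) := by
  classical
  have hsupp : f'.support = f.support := by
    ext m
    rw [MvPolynomial.mem_support_iff, MvPolynomial.mem_support_iff, hf m]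
    exact not_congr (pow_eq_zero_iff hp.ne_zero)
  unfold Gj
  rw [hsupp]
  have hcoe : ∀ (g : (ι →₀ ℕ) → MvPolynomial ι R) (s : Finset (ι →₀ ℕ)),
      ((∑ μ ∈ s, g μ : MvPolynomial ι R) : MvPowerSeries ι R)
        = ∑ μ ∈ s, (g μ : MvPowerSeries ι R) := by
    intro g s
    exact map_sum (MvPolynomial.coeToMvPowerSeries.ringHom (σ := ι) (R := R)) g s
  rw [hcoe, hcoe, Finset.sum_mul, Finset.sum_mul, map_sum, Finset.smul_sum]
  refine Finset.sum_congr rfl (fun μ hμ => ?_)
  rw [MvPolynomial.coe_monomial, MvPolynomial.coe_monomial]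
  have hpm : p ^ (j + 1) • μ = p • (p ^ j • μ) := by
    rw [smul_smul]
    congr 1
    ring
  have hw1 : wN C μ = 1 := by
    have h1 := (hF μ (MvPolynomial.mem_support_iff.1 hμ)).2
    have h2 := wN_eq C μ
    have h3 : C.wt (zz μ) = 1 := h1
    rw [h3] at h2
    exact_mod_cast h2
  have hw : wN C (p ^ j • μ) = p ^ j := by rw [wN_smul, hw1, mul_one]
  rw [hpm, psi_monomial C ϖ hβ, hw, hf μ, map_pow, ← smul_mul_assoc]
  congr 1
  rw [← LinearMap.map_smul, smul_eq_mul]
  congr 1
  rw [← pow_mul, pow_succ' p j]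
  ring

theorem psi_tw [Fact p.Prime] [Algebra ℤ_[p] R] (W : WD p k F R) (Pi : PiData p k R)
    (hk : 1 ≤ k) {C : CType ι} {f f' : MvPolynomial ι F} (hF : C.Hom f)
    (hf : ∀ m, f'.coeff m = f.coeff m ^ p) {β : ι → ℕ} (hβ : ∀ v, β v < p)
    {ga ga' : ι → R} (hga : ∀ v, (p : R) * ga' v = ga v + β v) (v : ι) (G : MvPowerSeries ι R) :
    psi C p ((p : R) * Pi.u) β (Fh W f * twP ga (hG W Pi f) v G)
      = (p : R) • twP ga' (hG W Pi f') v (psi C p ((p : R) * Pi.u) β (Fh W f * G)) := by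
  classical
  have hp : p.Prime := Fact.out
  have hpk : (p : R) ^ k = 0 := by
    have h1 := (W.ann k le_rfl 1).2 (by rw [Nat.sub_self, pow_zero])
    rwa [mul_one] at h1
  have hw0 : ∀ j, k ≤ j → Pi.w j = 0 := by
    intro j hj
    obtain ⟨c, hc⟩ := Pi.wd j
    have h1 : j < p ^ j := Nat.lt_pow_self hp.one_lt
    have h2 : p ^ j - 1 = k + (p ^ j - 1 - k) := by omega
    rw [hc, h2, pow_add, hpk, zero_mul, zero_mul]
  have hcoe : ∀ (g : ℕ → MvPolynomial ι R) (s : Finset ℕ),
      ((∑ i ∈ s, g i : MvPolynomial ι R) : MvPowerSeries ι R)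
        = ∑ i ∈ s, (g i : MvPowerSeries ι R) := by
    intro g s
    exact map_sum (MvPolynomial.coeToMvPowerSeries.ringHom (σ := ι) (R := R)) g s
  have hhG : ∀ (g : MvPolynomial ι F) (J : ℕ), k ≤ J → (hG W Pi g v : MvPowerSeries ι R)
      = ∑ j ∈ Finset.range J, Pi.w j • (Gj W g j v : MvPowerSeries ι R) := by
    intro g J hJ
    unfold hG
    rw [hcoe]
    have h1 : ∀ j, ((Pi.w j • Gj W g j v : MvPolynomial ι R) : MvPowerSeries ι R)
        = Pi.w j • (Gj W g j v : MvPowerSeries ι R) := fun j => MvPolynomial.coe_smul _ _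
    rw [Finset.sum_congr rfl (fun j _ => h1 j)]
    refine Finset.sum_subset (fun j hj => ?_) (fun j _ hj => ?_)
    · rw [Finset.mem_range] at hj ⊢
      omega
    · rw [Finset.mem_range] at hj
      rw [hw0 j (by omega), zero_smul]
  have h0 : ∀ μ ∈ f.support, μ ≠ 0 := by
    intro μ hμ h
    have h1 := (hF μ (MvPolynomial.mem_support_iff.1 hμ)).2
    rw [h] at h1
    unfold CType.wt at h1
    simp at h1
  ext m
  set n : ι →₀ ℕ := p • m + fs β with hn
  obtain ⟨J, hJk, hJn⟩ : ∃ J, k ≤ J ∧ tN n < p ^ (J + 1) := by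
    refine ⟨max k (tN n), le_max_left _ _, ?_⟩
    have h1 : tN n < p ^ tN n := Nat.lt_pow_self hp.one_lt
    exact h1.trans_le (Nat.pow_le_pow_right hp.pos ((le_max_right _ _).trans (Nat.le_succ _)))
  set H : MvPowerSeries ι R := Fh W f * G with hH
  -- the coefficient of the left side
  have key : MvPowerSeries.coeff n (Fh W f * twP ga (hG W Pi f) v G)
      = (p : R) * ((m v : R) + ga' v) * MvPowerSeries.coeff n H
        + ∑ j ∈ Finset.range J, (Pi.w (j + 1) - 1)
          * MvPowerSeries.coeff n ((Gj W f (j + 1) v : MvPowerSeries ι R) * H) := by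
    have e1 : Fh W f * twP ga (hG W Pi f) v G
        = thP v H - thP v (Fh W f) * G + ga v • H
          + (hG W Pi f v : MvPowerSeries ι R) * H := by
      rw [hH, thP_mul]
      unfold twP
      rw [mul_add, mul_add, mul_smul_comm]
      ring
    have e2 : MvPowerSeries.coeff n (thP v (Fh W f) * G)
        = ∑ j ∈ Finset.range (J + 1),
          MvPowerSeries.coeff n ((Gj W f j v : MvPowerSeries ι R) * H) := by
      rw [coeff_mul_congr (P' := Fh W f * ∑ j ∈ Finset.range (J + 1),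
        (Gj W f j v : MvPowerSeries ι R)) (Q' := G) (N := p ^ (J + 1))
        (fun m' hm' => thP_Fh W h0 v (J + 1) m' hm') (fun _ _ => rfl) n hJn]
      rw [← map_sum, ← Finset.sum_mul, hH]
      congr 1
      ring
    have e3 : MvPowerSeries.coeff n ((hG W Pi f v : MvPowerSeries ι R) * H)
        = ∑ j ∈ Finset.range (J + 1),
          Pi.w j * MvPowerSeries.coeff n ((Gj W f j v : MvPowerSeries ι R) * H) := by
      rw [hhG f (J + 1) (by omega), Finset.sum_mul, map_sum]
      refine Finset.sum_congr rfl (fun j _ => ?_)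
      rw [smul_mul_assoc, LinearMap.map_smul, smul_eq_mul]
    have hnv : ((n v : ℕ) : R) + ga v = (p : R) * ((m v : R) + ga' v) := by
      have h1 : n v = p * m v + β v := by
        rw [hn, Finsupp.add_apply, Finsupp.smul_apply, smul_eq_mul, fs_apply]
      rw [h1]
      push_cast
      linear_combination - hga v
    rw [e1, map_add, map_add, map_sub, coeff_thP, LinearMap.map_smul, smul_eq_mul, e2, e3,
      Finset.sum_range_succ', Finset.sum_range_succ', Pi.w0, ← hnv]
    have e4 : ∑ j ∈ Finset.range J, (Pi.w (j + 1) - 1)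
          * MvPowerSeries.coeff n ((Gj W f (j + 1) v : MvPowerSeries ι R) * H)
        = ∑ j ∈ Finset.range J, Pi.w (j + 1)
          * MvPowerSeries.coeff n ((Gj W f (j + 1) v : MvPowerSeries ι R) * H)
          - ∑ j ∈ Finset.range J,
          MvPowerSeries.coeff n ((Gj W f (j + 1) v : MvPowerSeries ι R) * H) := by
      rw [← Finset.sum_sub_distrib]
      exact Finset.sum_congr rfl (fun j _ => by ring)
    rw [e4]
    ring
  have hG' : ∀ j, ((p : R) * Pi.u) ^ wN C m * ((Pi.w (j + 1) - 1)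
      * MvPowerSeries.coeff n ((Gj W f (j + 1) v : MvPowerSeries ι R) * H))
      = (p : R) * (Pi.w j * MvPowerSeries.coeff m
        ((Gj W f' j v : MvPowerSeries ι R) * psi C p ((p : R) * Pi.u) β H)) := by
    intro j
    have h1 := congrArg (MvPowerSeries.coeff m)
      (psi_Gj W hF hf hp ((p : R) * Pi.u) hβ j v H)
    rw [coeff_psi, LinearMap.map_smul, smul_eq_mul, ← hn] at h1
    have h2 := Pi.ws j
    linear_combination (Pi.w (j + 1) - 1) * h1 + MvPowerSeries.coeff m
      ((Gj W f' j v : MvPowerSeries ι R) * psi C p ((p : R) * Pi.u) β H) * h2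
  rw [coeff_psi, ← hn, key, LinearMap.map_smul, smul_eq_mul]
  unfold twP
  rw [map_add, map_add, coeff_thP, LinearMap.map_smul, smul_eq_mul, hhG f' J hJk,
    Finset.sum_mul, map_sum, coeff_psi, ← hn, mul_add, Finset.mul_sum,
    Finset.sum_congr rfl (fun j _ => hG' j), ← Finset.mul_sum]
  have e5 : ∑ j ∈ Finset.range J, MvPowerSeries.coeff m
      ((Pi.w j • (Gj W f' j v : MvPowerSeries ι R)) * psi C p ((p : R) * Pi.u) β H)
      = ∑ j ∈ Finset.range J, Pi.w j * MvPowerSeries.coeff m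
        ((Gj W f' j v : MvPowerSeries ι R) * psi C p ((p : R) * Pi.u) β H) := by
    refine Finset.sum_congr rfl (fun j _ => ?_)
    rw [smul_mul_assoc, LinearMap.map_smul, smul_eq_mul]
  rw [e5]
  ring

end

end HN
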