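import Pool.Agent.HN.Tw

/-!
# HN/PSer : power series for the Frobenius operator (definitions)

* `thP v`     : `θ_v` on power series;
* `ems E a μ` : `E(a X^μ)`;
* `Gj`        : `G_{j,v} = ∑_μ μ_v [a_μ]^{p^j} X^{p^j μ}`;
* `Fh`        : `F̂ = ∏_μ E([a_μ] X^μ)`;
* `psi`       : `(ψ G)_m = ϖ^{wt m} G_{p m + β}`;
* `hG`        : `h_v = ∑_{j<k} w_j G_{j,v}`.
-/

open MvPolynomial

namespace HN

section
variable {ι : Type*} [Fintype ι] [DecidableEq ι] {R : Type*} [CommRing R]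

/-- weight of a natural exponent -/
def wN (C : CType ι) (m : ι →₀ ℕ) : ℕ := ∑ v ∈ C.Xsᶜ, m v

/-- total degree -/
def tN (m : ι →₀ ℕ) : ℕ := ∑ v, m v

/-- a function as a finitely supported function -/
noncomputable def fs (b : ι → ℕ) : ι →₀ ℕ := Finsupp.equivFunOnFinite.symm b

@[simp] theorem fs_apply (b : ι → ℕ) (v : ι) : fs b v = b v := rfl

/-- a natural exponent as an integer exponent -/
def zz (m : ι →₀ ℕ) : ι → ℤ := fun v => (m v : ℤ)

/-- an integer exponent as a natural exponent (truncated) -/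
noncomputable def nn (e : ι → ℤ) : ι →₀ ℕ := fs (fun v => (e v).toNat)

/-- `θ_v` on power series -/
noncomputable def thP (v : ι) : MvPowerSeries ι R →ₗ[R] MvPowerSeries ι R where
  toFun P := (fun m => (m v : R) * MvPowerSeries.coeff m P : (ι →₀ ℕ) → R)
  map_add' P Q := by
    ext m
    simp only [MvPowerSeries.coeff_apply, MvPowerSeries.coeff_apply]
    change (m v : R) * (P m + Q m) = (m v : R) * P m + (m v : R) * Q m
    ring
  map_smul' c P := by
    ext m
    change (m v : R) * (c * P m) = c * ((m v : R) * P m)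
    ring

theorem coeff_thP (v : ι) (P : MvPowerSeries ι R) (m : ι →₀ ℕ) :
    MvPowerSeries.coeff m (thP v P) = (m v : R) * MvPowerSeries.coeff m P := rfl

/-- `E(a X^μ)` (for `μ ≠ 0`) -/
noncomputable def ems {S : Type*} [CommRing S] [Algebra S R] (E : PowerSeries S) (a : R)
    (μ : ι →₀ ℕ) : MvPowerSeries ι R :=
  (fun m => ∑ n ∈ Finset.range (tN m + 1),
    if n • μ = m then algebraMap S R (PowerSeries.coeff n E) * a ^ n else 0 : (ι →₀ ℕ) → R)

theorem coeff_ems {S : Type*} [CommRing S] [Algebra S R] (E : PowerSeries S) (a : R)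
    (μ m : ι →₀ ℕ) : MvPowerSeries.coeff m (ems E a μ) = ∑ n ∈ Finset.range (tN m + 1),
      if n • μ = m then algebraMap S R (PowerSeries.coeff n E) * a ^ n else 0 := rfl

/-- `(ψ G)_m = ϖ^{wt m} G_{p m + β}` -/
noncomputable def psi (C : CType ι) (p : ℕ) (ϖ : R) (β : ι → ℕ) :
    MvPowerSeries ι R →ₗ[R] MvPowerSeries ι R where
  toFun P := (fun m => ϖ ^ wN C m * MvPowerSeries.coeff (p • m + fs β) P : (ι →₀ ℕ) → R)
  map_add' P Q := by
    ext m
    change ϖ ^ wN C m * (P _ + Q _) = ϖ ^ wN C m * P _ + ϖ ^ wN C m * Q _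
    ring
  map_smul' c P := by
    ext m
    change ϖ ^ wN C m * (c * P _) = c * (ϖ ^ wN C m * P _)
    ring

theorem coeff_psi (C : CType ι) (p : ℕ) (ϖ : R) (β : ι → ℕ) (P : MvPowerSeries ι R)
    (m : ι →₀ ℕ) : MvPowerSeries.coeff m (psi C p ϖ β P)
      = ϖ ^ wN C m * MvPowerSeries.coeff (p • m + fs β) P := rfl

variable {F : Type*} [Field F] {p k : ℕ}

/-- `G_{j,v} = ∑_μ μ_v [a_μ]^{p^j} X^{p^j μ}` -/
noncomputable def Gj (W : WD p k F R) (f : MvPolynomial ι F) (j : ℕ) (v : ι) :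
    MvPolynomial ι R :=
  ∑ μ ∈ f.support, monomial (p ^ j • μ) ((μ v : R) * W.τ (f.coeff μ) ^ p ^ j)

/-- `h_v = ∑_{j<k} w_j G_{j,v}` -/
noncomputable def hG (W : WD p k F R) (Pi : PiData p k R) (f : MvPolynomial ι F) (v : ι) :
    MvPolynomial ι R :=
  ∑ j ∈ Finset.range k, Pi.w j • Gj W f j v

/-- `F̂ = ∏_μ E([a_μ] X^μ)` -/
noncomputable def Fh [Fact p.Prime] [Algebra ℤ_[p] R] (W : WD p k F R) (f : MvPolynomial ι F) :
    MvPowerSeries ι R :=
  ∏ μ ∈ f.support, ems (AH p) (W.τ (f.coeff μ)) μ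

/-- the twisted operator on power series -/
noncomputable def twP (ga : ι → R) (h : ι → MvPolynomial ι R) (v : ι) (G : MvPowerSeries ι R) :
    MvPowerSeries ι R :=
  thP v G + ga v • G + (h v : MvPowerSeries ι R) * G

end

end HN
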