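import Pool.Agent.HN.GjL

/-! # HN/PTh : `θ_v F̂ = F̂ ∑_j G_{j,v}` (module HND-19)

PLAN.  `thP_mul`: coefficientwise, `m = m₁ + m₂` in the antidiagonal, `(m v) = (m₁ v) + (m₂ v)`.
`thP_ems` : let `μ ≠ 0`.  If `m = n • μ` for some (unique) `n`, then `(m v) E_n a^n = μ_v n E_n a^n` and
`n E_n = ∑_{p^j ≤ n} E_{n - p^j}` (`hE`); the right side is
`∑_{j < J} μ_v a^(p^j) [coefficient of ems at m - p^j • μ if p^j • μ ≤ m]` (`coeff_mul_monomial`), and
`p^j • μ ≤ m`, `m - p^j • μ = (n - p^j) • μ` iff `p^j ≤ n`; all `j` with `p^j ≤ n ≤ tN m < p^J` are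
`< J`.  If `m` is not a multiple of `μ` both sides vanish.
`thP_Fh`: induction over the finset `s ⊆ f.support` for the product
`∏_{μ ∈ s} ems E (a μ) μ` with
`θ_v (∏) ≡ ∏ * ∑_{μ ∈ s} ∑_{j<J} monomial (p^j • μ) (μ_v a_μ^(p^j))` in total degrees `< p^J`; the
coefficients of a product in degree `< N` only depend on the coefficients of the factors in degrees
`< N` (`tN` additive).
-/

open MvPolynomial

namespace HN

section
variable {ι : Type*} [Fintype ι] [DecidableEq ι] {R : Type*} [CommRing R]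

private theorem tN_add (m n : ι →₀ ℕ) : tN (m + n) = tN m + tN n := by
  simp [tN, Finset.sum_add_distrib]

private theorem tN_smul (n : ℕ) (m : ι →₀ ℕ) : tN (n • m) = n * tN m := by
  simp [tN, Finset.mul_sum]

private theorem tN_pos {μ : ι →₀ ℕ} (hμ : μ ≠ 0) : 1 ≤ tN μ := by
  obtain ⟨u, hu⟩ : ∃ u, μ u ≠ 0 := by
    by_contra h
    push Not at h
    exact hμ (Finsupp.ext h)
  have h1 : μ u ≤ tN μ := Finset.single_le_sum (f := fun v => μ v) (fun _ _ => Nat.zero_le _)
    (Finset.mem_univ u)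
  omega

theorem thP_mul (v : ι) (P Q : MvPowerSeries ι R) : thP v (P * Q) = thP v P * Q + P * thP v Q := by
  ext m
  rw [coeff_thP, map_add, MvPowerSeries.coeff_mul, MvPowerSeries.coeff_mul,
    MvPowerSeries.coeff_mul, Finset.mul_sum, ← Finset.sum_add_distrib]
  refine Finset.sum_congr rfl fun q hq => ?_
  rw [Finset.HasAntidiagonal.mem_antidiagonal] at hq
  rw [coeff_thP, coeff_thP, ← hq, Finsupp.add_apply]
  push_cast
  ring

theorem thP_one (v : ι) : thP v (1 : MvPowerSeries ι R) = 0 := by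
  ext m
  rw [coeff_thP, MvPowerSeries.coeff_one, map_zero]
  by_cases h : m = 0
  · rw [h]
    simp
  · rw [if_neg h, mul_zero]

/-- multiplication only sees lower degrees -/
theorem coeff_mul_congr {P P' Q Q' : MvPowerSeries ι R} {N : ℕ}
    (hP : ∀ m, tN m < N → MvPowerSeries.coeff m P = MvPowerSeries.coeff m P')
    (hQ : ∀ m, tN m < N → MvPowerSeries.coeff m Q = MvPowerSeries.coeff m Q')
    (m : ι →₀ ℕ) (hm : tN m < N) :
    MvPowerSeries.coeff m (P * Q) = MvPowerSeries.coeff m (P' * Q') := by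
  rw [MvPowerSeries.coeff_mul, MvPowerSeries.coeff_mul]
  refine Finset.sum_congr rfl fun q hq => ?_
  rw [Finset.HasAntidiagonal.mem_antidiagonal] at hq
  have h1 : tN q.1 + tN q.2 = tN m := by rw [← tN_add, hq]
  rw [hP q.1 (by omega), hQ q.2 (by omega)]

private theorem smul_inj {μ : ι →₀ ℕ} (hμ : μ ≠ 0) {n n' : ℕ} (h : n • μ = n' • μ) : n = n' := by
  have h1 := congrArg tN h
  rw [tN_smul, tN_smul] at h1
  exact Nat.eq_of_mul_eq_mul_right (tN_pos hμ) h1

private theorem smul_le {μ : ι →₀ ℕ} (hμ : μ ≠ 0) {n n' : ℕ} : n • μ ≤ n' • μ ↔ n ≤ n' := by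
  constructor
  · intro h
    obtain ⟨u, hu⟩ : ∃ u, μ u ≠ 0 := by
      by_contra h
      push Not at h
      exact hμ (Finsupp.ext h)
    have h1 := h u
    rw [Finsupp.smul_apply, Finsupp.smul_apply, smul_eq_mul, smul_eq_mul] at h1
    exact Nat.le_of_mul_le_mul_right h1 (Nat.pos_of_ne_zero hu)
  · intro h u
    rw [Finsupp.smul_apply, Finsupp.smul_apply, smul_eq_mul, smul_eq_mul]
    exact Nat.mul_le_mul_right _ h

private theorem ems_smul {S : Type*} [CommRing S] [Algebra S R] (E : PowerSeries S) (a : R)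
    {μ : ι →₀ ℕ} (hμ : μ ≠ 0) (n : ℕ) :
    MvPowerSeries.coeff (n • μ) (ems E a μ) =
      algebraMap S R (PowerSeries.coeff n E) * a ^ n := by
  rw [coeff_ems, Finset.sum_eq_single n]
  · rw [if_pos rfl]
  · intro k _ hk
    rw [if_neg]
    intro h
    exact hk (smul_inj hμ h)
  · intro h
    exfalso
    apply h
    rw [Finset.mem_range, tN_smul]
    have := Nat.mul_le_mul_left n (tN_pos hμ)
    omega

private theorem ems_ne {S : Type*} [CommRing S] [Algebra S R] (E : PowerSeries S) (a : R)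
    {μ m : ι →₀ ℕ} (h : ∀ n : ℕ, n • μ ≠ m) : MvPowerSeries.coeff m (ems E a μ) = 0 := by
  rw [coeff_ems]
  exact Finset.sum_eq_zero fun n _ => if_neg (h n)

theorem thP_ems {S : Type*} [CommRing S] [Algebra S R] {E : PowerSeries S} {p : ℕ} (hp : 2 ≤ p)
    (hE : ∀ n : ℕ, (n : S) * PowerSeries.coeff n E
      = ∑ l ∈ (Finset.range (n + 1)).filter (fun l => p ^ l ≤ n), PowerSeries.coeff (n - p ^ l) E)
    (a : R) {μ : ι →₀ ℕ} (hμ : μ ≠ 0) (v : ι) (J : ℕ) (m : ι →₀ ℕ) (hm : tN m < p ^ J) :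
    MvPowerSeries.coeff m (thP v (ems E a μ)) = MvPowerSeries.coeff m (ems E a μ *
      ∑ j ∈ Finset.range J, MvPowerSeries.monomial (p ^ j • μ) ((μ v : R) * a ^ p ^ j)) := by
  rw [coeff_thP, Finset.mul_sum, map_sum]
  by_cases hex : ∃ n : ℕ, n • μ = m
  · obtain ⟨n, rfl⟩ := hex
    have hn : n ≤ tN (n • μ) := by
      rw [tN_smul]
      have := Nat.mul_le_mul_left n (tN_pos hμ)
      omega
    rw [ems_smul E a hμ n]
    have h1 : ∀ j ∈ Finset.range J, MvPowerSeries.coeff (n • μ) (ems E a μ *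
        MvPowerSeries.monomial (p ^ j • μ) ((μ v : R) * a ^ p ^ j)) =
        if p ^ j ≤ n then (μ v : R) * (algebraMap S R (PowerSeries.coeff (n - p ^ j) E) * a ^ n)
          else 0 := by
      intro j _
      rw [MvPowerSeries.coeff_mul_monomial]
      by_cases h : p ^ j ≤ n
      · rw [if_pos ((smul_le hμ).2 h), if_pos h]
        have h2 : n • μ - p ^ j • μ = (n - p ^ j) • μ := by
          ext u
          rw [Finsupp.tsub_apply, Finsupp.smul_apply, Finsupp.smul_apply, Finsupp.smul_apply,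
            smul_eq_mul, smul_eq_mul, smul_eq_mul, Nat.sub_mul]
        have h3 : a ^ n = a ^ (n - p ^ j) * a ^ p ^ j := by
          rw [← pow_add]
          congr 1
          omega
        rw [h2, ems_smul E a hμ, h3]
        ring
      · rw [if_neg (fun h' => h ((smul_le hμ).1 h')), if_neg h]
    rw [Finset.sum_congr rfl h1, ← Finset.sum_filter]
    have hset : (Finset.range J).filter (fun j => p ^ j ≤ n) =
        (Finset.range (n + 1)).filter (fun l => p ^ l ≤ n) := by
      ext j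
      rw [Finset.mem_filter, Finset.mem_filter, Finset.mem_range, Finset.mem_range]
      constructor
      · rintro ⟨-, h⟩
        have : j < p ^ j := Nat.lt_pow_self (by omega : 1 < p)
        exact ⟨by omega, h⟩
      · rintro ⟨-, h⟩
        refine ⟨?_, h⟩
        by_contra hj
        push Not at hj
        have := Nat.pow_le_pow_right (n := p) (by omega) hj
        omega
    rw [hset, ← Finset.mul_sum, ← Finset.sum_mul, ← map_sum, ← hE n, map_mul, map_natCast,
      Finsupp.smul_apply, smul_eq_mul]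
    push_cast
    ring
  · push Not at hex
    rw [ems_ne E a hex, mul_zero]
    symm
    refine Finset.sum_eq_zero fun j _ => ?_
    rw [MvPowerSeries.coeff_mul_monomial]
    by_cases h : p ^ j • μ ≤ m
    · rw [if_pos h, ems_ne, zero_mul]
      intro n hn
      refine hex (n + p ^ j) ?_
      rw [add_smul, hn, tsub_add_cancel_of_le h]
    · rw [if_neg h]

variable {F : Type*} [Field F] {p k : ℕ} [hp : Fact p.Prime] [Algebra ℤ_[p] R]

private theorem thP_prod (W : WD p k F R) (f : MvPolynomial ι F) (v : ι) (J : ℕ)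
    (s : Finset (ι →₀ ℕ)) (h0 : ∀ μ ∈ s, μ ≠ 0) : ∀ m : ι →₀ ℕ, tN m < p ^ J →
    MvPowerSeries.coeff m (thP v (∏ μ ∈ s, ems (AH p) (W.τ (f.coeff μ)) μ)) =
      MvPowerSeries.coeff m ((∏ μ ∈ s, ems (AH p) (W.τ (f.coeff μ)) μ) *
        ∑ μ ∈ s, ∑ j ∈ Finset.range J,
          MvPowerSeries.monomial (p ^ j • μ) ((μ v : R) * W.τ (f.coeff μ) ^ p ^ j)) := by
  induction s using Finset.induction_on with
  | empty =>
    intro m _
    rw [Finset.prod_empty, thP_one, Finset.sum_empty, mul_zero]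
  | insert μ s hμ ih =>
    intro m hm
    have ih' := ih fun ν hν => h0 ν (Finset.mem_insert_of_mem hν)
    rw [Finset.prod_insert hμ, Finset.sum_insert hμ, thP_mul, map_add]
    have h1 := coeff_mul_congr (Q := ∏ μ ∈ s, ems (AH p) (W.τ (f.coeff μ)) μ)
      (Q' := ∏ μ ∈ s, ems (AH p) (W.τ (f.coeff μ)) μ)
      (fun m hm => thP_ems (R := R) hp.out.two_le (AH_rec p) (W.τ (f.coeff μ))
        (h0 μ (Finset.mem_insert_self μ s)) v J m hm) (fun _ _ => rfl) m hm
    have h2 := coeff_mul_congr (P := ems (AH p) (W.τ (f.coeff μ)) μ)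
      (P' := ems (AH p) (W.τ (f.coeff μ)) μ) (fun _ _ => rfl) ih' m hm
    rw [h1, h2, ← map_add]
    congr 1
    ring

theorem thP_Fh (W : WD p k F R) {f : MvPolynomial ι F} (h0 : ∀ μ ∈ f.support, μ ≠ 0) (v : ι)
    (J : ℕ) (m : ι →₀ ℕ) (hm : tN m < p ^ J) :
    MvPowerSeries.coeff m (thP v (Fh W f)) = MvPowerSeries.coeff m (Fh W f *
      ∑ j ∈ Finset.range J, (Gj W f j v : MvPowerSeries ι R)) := by
  have h1 := thP_prod W f v J f.support h0 m hm
  have h2 : ∑ j ∈ Finset.range J, (Gj W f j v : MvPowerSeries ι R) =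
      ∑ μ ∈ f.support, ∑ j ∈ Finset.range J,
        MvPowerSeries.monomial (p ^ j • μ) ((μ v : R) * W.τ (f.coeff μ) ^ p ^ j) := by
    rw [Finset.sum_comm]
    refine Finset.sum_congr rfl fun j _ => ?_
    have h3 : (Gj W f j v : MvPowerSeries ι R) =
        MvPolynomial.coeToMvPowerSeries.ringHom (Gj W f j v) := rfl
    rw [h3]
    unfold Gj
    rw [map_sum]
    refine Finset.sum_congr rfl fun μ _ => ?_
    exact MvPolynomial.coe_monomial _ _
  rw [h2]
  exact h1

private theorem deg_zz_add (C : CType ι) (m n : ι →₀ ℕ) :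
    C.deg (zz (m + n)) = C.deg (zz m) + C.deg (zz n) := by
  simp [CType.deg, zz, mul_add, Finset.sum_add_distrib]

private theorem deg_zz_smul (C : CType ι) (n : ℕ) (m : ι →₀ ℕ) :
    C.deg (zz (n • m)) = n * C.deg (zz m) := by
  simp only [CType.deg, zz, Finset.mul_sum, Finsupp.smul_apply, smul_eq_mul]
  refine Finset.sum_congr rfl fun v _ => ?_
  push_cast
  ring

/-- `F̂` has degree `0` -/
theorem Fh_deg (W : WD p k F R) {C : CType ι} {f : MvPolynomial ι F} (hF : C.Hom f)
    (m : ι →₀ ℕ) (h : MvPowerSeries.coeff m (Fh W f) ≠ 0) : C.deg (zz m) = 0 := by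
  have key : ∀ s : Finset (ι →₀ ℕ), s ⊆ f.support → ∀ m : ι →₀ ℕ,
      MvPowerSeries.coeff m (∏ μ ∈ s, ems (AH p) (W.τ (f.coeff μ)) μ) ≠ 0 →
      C.deg (zz m) = 0 := by
    intro s
    induction s using Finset.induction_on with
    | empty =>
      intro _ m hm
      rw [Finset.prod_empty, MvPowerSeries.coeff_one] at hm
      have h1 : m = 0 := by
        by_contra hne
        exact hm (if_neg hne)
      rw [h1]
      simp [CType.deg, zz]
    | insert μ s hμ ih =>
      intro hs m hm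
      have ih' := ih fun ν hν => hs (Finset.mem_insert_of_mem hν)
      rw [Finset.prod_insert hμ, MvPowerSeries.coeff_mul] at hm
      obtain ⟨q, hq, hne⟩ := Finset.exists_ne_zero_of_sum_ne_zero hm
      rw [Finset.HasAntidiagonal.mem_antidiagonal] at hq
      have h1 := ih' q.2 (right_ne_zero_of_mul hne)
      have h2 : ∃ n : ℕ, n • μ = q.1 := by
        by_contra hcon
        push Not at hcon
        exact left_ne_zero_of_mul hne (ems_ne _ _ hcon)
      obtain ⟨n, hn⟩ := h2
      have h3 : C.deg (zz μ) = 0 :=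
        (hF μ (MvPolynomial.mem_support_iff.1 (hs (Finset.mem_insert_self μ s)))).1
      rw [← hq, deg_zz_add, h1, ← hn, deg_zz_smul, h3, mul_zero, add_zero]
  exact key f.support (Finset.Subset.refl _) m h

end

end HN
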