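import Pool.Agent.HN.Dig

/-! # HN/PartD : final form of part D (interface)

For every `k ≥ 1` there are matrices `M l` over `R = W(F)/p^k` with `p^(wt e') ∣ M l e' e`, periodic in
`l`, with the trace formula over every extension `K/F` of degree `m`.
-/

open MvPolynomial

namespace HN

theorem per {X : Type*} {a : ℕ} (g : ℕ → X) (hg : ∀ l, g (l + a) = g l) (m : ℕ) :
    g (a * m) = g 0 := by
  induction m with
  | zero => rfl
  | succ n ih => rw [Nat.mul_succ, hg, ih]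

section
variable {ι : Type*} [Fintype ι] [DecidableEq ι] [Ranked ι] {F R : Type*} [Field F] [Fintype F]
  [CommRing R]
variable {p k : ℕ} [hp : Fact p.Prime] [Algebra ℤ_[p] R] [CharP F p]

/-- the trace identity for the extension `K` of degree `m`, `T = ∏ M` over one period -/
def TrId (C : CType ι) (W : WD p k F R) (Pi : PiData p k R) (a : ℕ) (b τ : ℕ → ι → ℕ)
    (f : MvPolynomial ι F) {U : Finset (ι → ℤ)} (T : Matrix U U R) : Prop :=
  ∀ (m : ℕ) (K A B : Type) [Field K] [Fintype K] [CommRing A] [CommRing B] [Algebra ℤ_[p] B]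
    [Algebra A B] (D : WD p k K A) (φ : F →+* K) (ρ : R →ₐ[ℤ_[p]] B) (γ : B),
    1 ≤ m → Fintype.card K = p ^ (a * m) →
    (∀ x, ρ (W.τ x) = algebraMap A B (D.τ (φ x))) →
    γ ^ (p - 1) = ρ ((p : R) * Pi.u) →
    γ ^ (m * ∑ l ∈ Finset.range a, ∑ v, τ l v) *
        ((-1) ^ Fintype.card ι * (1 - (p : B) ^ (a * m)) * ρ ((T ^ m).trace))
      = ∑ ζ : ι → K,
          (∏ v ∈ C.Ys, algebraMap A B (D.τ (ζ v)) ^
            (p ^ (a * m) - 1 - (p ^ (a * m) - 1) / (p ^ a - 1) * b 0 v)) *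
          ∏ μ ∈ f.support, Psi p (a * m) D γ (φ (f.coeff μ) * ∏ v, ζ v ^ μ v)

theorem partD (hk : 1 ≤ k) {a : ℕ} (hq : Fintype.card F = p ^ a) (W : WD p k F R)
    (Pi : PiData p k R) {C : CType ι} {f : MvPolynomial ι F} (hF : C.Hom f) (hU : C.UnitCond f)
    {b τ : ℕ → ι → ℕ} {δ : ℕ → ℤ} (H : Dig C p a b τ δ) {Bs : ℕ → Finset (ι → ℤ)}
    (hB : ∀ l, GB C (frt p f l) (δ l) (Bs l)) (hBa : ∀ l, Bs (l + a) = Bs l)
    {U : Finset (ι → ℤ)} (hU' : ∀ l, Bs l ⊆ U) :
    ∃ M : ℕ → Matrix U U R,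
      (∀ l (e' e : U), (e' : ι → ℤ) ∉ Bs (l + 1) ∨ (e : ι → ℤ) ∉ Bs l → M l e' e = 0) ∧
      (∀ l (e' e : U), (p : R) ^ (C.wt (e' : ι → ℤ)).toNat ∣ M l e' e) ∧
      (∀ l, M (l + a) = M l) ∧ TrId C W Pi a b τ f (Ac M a) := by
  obtain ⟨ga, hTD, hgp⟩ := H.td hk W hF hU
  have hτp := H.tau_per hp.out
  have hδp := H.delta_per hp.out
  obtain ⟨M, hM, hMp⟩ := hTD.exists_levA Pi hB hU' H.ha (frt_per hq f) hgp hδp hτp hBa
  refine ⟨M, hM.zero, hM.dvd, hMp, ?_⟩
  intro m K A B _ _ _ _ _ _ D φ ρ γ hm hK hφ hγ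
  have hL : 1 ≤ a * m := Nat.one_le_iff_ne_zero.mpr (by
    have := H.ha
    exact Nat.mul_ne_zero (by omega) (by omega))
  have key := trace_formula Pi hTD hB hU' hM hL (per (frt p f) (frt_per hq f) m) (per ga hgp m)
    (per δ hδp m) (per Bs hBa m) hK (fun v hv => H.be_lt hp.out hm hv) D φ ρ hφ hγ
  have hsum : ∑ l ∈ Finset.range (a * m), ∑ v, τ l v
      = m * ∑ l ∈ Finset.range a, ∑ v, τ l v := by
    clear key hL hK
    induction m with
    | zero => simp
    | succ n ih =>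
      rcases Nat.eq_zero_or_pos n with h | h
      · subst h; simp
      · rw [Nat.mul_succ, Finset.sum_range_add, ih h, add_mul, one_mul]
        congr 1
        refine Finset.sum_congr rfl fun l _ => ?_
        have : τ (a * n + l) = τ l := by
          rw [add_comm]
          have := per (fun j => τ (l + j)) (fun j => by
            show τ (l + (j + a)) = τ (l + j)
            rw [← add_assoc, hτp]) n
          simpa using this
        rw [this]
  rw [hsum, Ac_mul hMp m] at key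
  rw [key, frt_zero]
  refine Finset.sum_congr rfl fun ζ _ => ?_
  congr 1
  refine Finset.prod_congr rfl fun v _ => ?_
  have hq1 : 0 < p ^ a - 1 := by
    have h2 : 2 ≤ p ^ a := le_trans hp.out.two_le (Nat.le_self_pow (by have := H.ha; omega) p)
    omega
  have hdvd : (p ^ a - 1) ∣ (p ^ (a * m) - 1) := by
    rw [pow_mul]
    exact Nat.sub_one_dvd_pow_sub_one _ _
  have hbe := H.be_eq hp.out m v
  have : be p τ (a * m) v = (p ^ (a * m) - 1) / (p ^ a - 1) * b 0 v := by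
    obtain ⟨c, hc⟩ := hdvd
    rw [hc] at hbe ⊢
    rw [Nat.mul_div_cancel_left _ hq1]
    exact Nat.eq_of_mul_eq_mul_left hq1 (by rw [hbe]; ring)
  rw [this]

end

end HN
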