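import Pool.Agent.HN.TD
import Pool.Agent.HN.Lef2
import Pool.Agent.HN.Cmp

/-! # HN/PhC : the composite Frobenius, its matrix and its trace (module HND-25)

PLAN.  `Phc_mem`, `Phc_D`, `Phc_eul` by induction from `TD.Ph_mem`, `TD.Ph_D`, `Fr_eul`
(`(p • ·)` iterated: `p^L`).
`sP_Phc`: by induction on `L`: `Phc L (bas A e) A` has exponents `≥ 0` of degree `δ L` (from
`Phc_mem`), `sP_al` for `alL`, `Fr_apply`, powers of `p` collected.
`Phc_large`: `Phc (L+1) (bas A e) = 0` for `wt e` large since already `Ph 0 (bas A e) = 0`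
(`al_large`).
`Phc_mat`: by induction: apply `Ph L` to `∑_{e' ∈ Bs L} Ac L e' e • bas e' + Dt η`; `Ph_D`, and the
hypothesis `hA` for each `bas e'`.
`trace_Phc`: `Sit.lef` for `Φ = Phc L`, `Q = p^L`, `T = adm C (δ 0) N`, `B e' e = Ac L e' e`.
-/

open MvPolynomial

namespace HN

section
variable {ι : Type*} [Fintype ι] [DecidableEq ι] [Ranked ι] {F R : Type*} [Field F] [CommRing R]
variable {p k : ℕ} [hp : Fact p.Prime] [Algebra ℤ_[p] R]

/-- composite of the levels `0, ..., L - 1` -/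
noncomputable def Phc (C : CType ι) (W : WD p k F R) (Pi : PiData p k R)
    (f : ℕ → MvPolynomial ι F) (τ : ℕ → ι → ℕ) (δ : ℕ → ℤ) :
    ℕ → (Finset ι → Lau ι R) →ₗ[R] (Finset ι → Lau ι R)
  | 0 => LinearMap.id
  | L + 1 => Ph C W Pi f τ δ L ∘ₗ Phc C W Pi f τ δ L

/-- composite matrix -/
noncomputable def Ac {U : Type*} [Fintype U] [DecidableEq U] (A : ℕ → Matrix U U R) :
    ℕ → Matrix U U R
  | 0 => 1
  | L + 1 => A L * Ac A L

open Classical in
/-- admissible pairs of weight `< N` -/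
noncomputable def adm (C : CType ι) (δ : ℤ) (N : ℕ) : Finset (Finset ι × (ι → ℤ)) :=
  (Finset.univ ×ˢ bx C δ N).filter (fun x => ∀ v, C.thr v x.1 ≤ x.2 v)

variable {C : CType ι} {W : WD p k F R} (Pi : PiData p k R) {f : ℕ → MvPolynomial ι F}
  {τ : ℕ → ι → ℕ} {ga : ℕ → ι → R} {δ : ℕ → ℤ}

omit [Ranked ι] in
private theorem phc_bas_mem {C : CType ι} {d : ℤ} {A : Finset ι} {e : ι → ℤ} (he : C.deg e = d)
    (he' : ∀ v, C.thr v A ≤ e v) : bas R A e ∈ KT R C ∅ d A.card := by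
  intro B e' h
  rw [ktb_bas_coeff] at h
  by_cases h1 : (B, e') = (A, e)
  · obtain ⟨h2, h3⟩ := Prod.mk.inj h1
    subst h2 h3
    exact ⟨rfl, he, fun v _ => he' v⟩
  · rw [if_neg h1] at h
    exact absurd rfl h

omit [Fintype ι] [Ranked ι] in
private theorem phc_thr_nonneg (C : CType ι) (v : ι) (A : Finset ι) : 0 ≤ C.thr v A := by
  unfold CType.thr
  split_ifs <;> norm_num

omit [Fintype ι] [Ranked ι] in
private theorem phc_bas_self (A : Finset ι) (e : ι → ℤ) : bas R A e A = mon R e := by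
  simp [bas]

theorem TD.Phc_mem (H : TD C W f τ ga δ) (L : ℕ) {j : ℤ} {ξ : Finset ι → Lau ι R}
    (hξ : ξ ∈ KT R C ∅ (δ 0) j) : Phc C W Pi f τ δ L ξ ∈ KT R C ∅ (δ L) j := by
  induction L with
  | zero => exact hξ
  | succ L ih => exact H.Ph_mem Pi L ih

theorem TD.Phc_D (H : TD C W f τ ga δ) (L : ℕ) {j : ℤ} {ξ : Finset ι → Lau ι R}
    (hξ : ξ ∈ KT R C ∅ (δ 0) j) :
    Phc C W Pi f τ δ L (Dt (ga 0) (hG W Pi (f 0)) ξ)
      = Dt (ga L) (hG W Pi (f L)) (Phc C W Pi f τ δ L ξ) := by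
  induction L with
  | zero => rfl
  | succ L ih =>
    change Ph C W Pi f τ δ L (Phc C W Pi f τ δ L (Dt (ga 0) (hG W Pi (f 0)) ξ))
      = Dt (ga (L + 1)) (hG W Pi (f (L + 1))) (Ph C W Pi f τ δ L (Phc C W Pi f τ δ L ξ))
    rw [ih]
    exact H.Ph_D Pi L (H.Phc_mem Pi L hξ)

theorem TD.Phc_eul (H : TD C W f τ ga δ) (L : ℕ) (ξ : Finset ι → Lau ι R) :
    Phc C W Pi f τ δ L (eul R C ξ) = (p : R) ^ L • eul R C (Phc C W Pi f τ δ L ξ) := by
  induction L with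
  | zero => simp [Phc]
  | succ L ih =>
    change Ph C W Pi f τ δ L (Phc C W Pi f τ δ L (eul R C ξ))
      = (p : R) ^ (L + 1) • eul R C (Ph C W Pi f τ δ L (Phc C W Pi f τ δ L ξ))
    rw [ih, map_smul, Ph, Fr_eul, smul_smul, pow_succ]

theorem TD.sP_Phc (H : TD C W f τ ga δ) (L : ℕ) {A : Finset ι} {e : ι → ℤ}
    (he : C.deg e = δ 0) (he' : ∀ v, C.thr v A ≤ e v) :
    sP (Phc C W Pi f τ δ L (bas R A e) A) = (p : R) ^ (L * (Fintype.card ι - A.card)) •
      AlP C p ((p : R) * Pi.u) (fun l => Fh W (f l)) τ L (MvPowerSeries.monomial (nn e) 1) := by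
  induction L with
  | zero =>
    change sP (bas R A e A) = (p : R) ^ (0 * (Fintype.card ι - A.card)) •
      MvPowerSeries.monomial (nn e) 1
    rw [zero_mul, pow_zero, one_smul, phc_bas_self,
      sP_mon fun v => (phc_thr_nonneg C v A).trans (he' v)]
  | succ L ih =>
    have hmem := H.Phc_mem Pi L (phc_bas_mem (R := R) he he')
    have hn : Nonneg (Phc C W Pi f τ δ L (bas R A e) A) := fun e' h v =>
      (phc_thr_nonneg C v A).trans ((hmem A e' h).2.2 v (Finset.notMem_empty v))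
    have hd' : ∀ e', (Phc C W Pi f τ δ L (bas R A e) A).coeff e' ≠ 0 → C.deg e' = δ L :=
      fun e' h => (hmem A e' h).2.1
    change sP (Fr (alL C W Pi f τ δ L) p (Phc C W Pi f τ δ L (bas R A e)) A) =
      (p : R) ^ ((L + 1) * (Fintype.card ι - A.card)) •
      psi C p ((p : R) * Pi.u) (τ L) (Fh W (f L) *
        AlP C p ((p : R) * Pi.u) (fun l => Fh W (f l)) τ L (MvPowerSeries.monomial (nn e) 1))
    rw [Fr_apply, map_smul, alL, sP_al (H.alOK Pi L) hn hd', ih, mul_smul_comm, map_smul,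
      smul_smul, ← pow_add, add_mul, one_mul, add_comm]

theorem TD.Phc_large (H : TD C W f τ ga δ) {L : ℕ} (hL : 1 ≤ L) :
    ∃ N₀ : ℕ, ∀ (A : Finset ι) (e : ι → ℤ), C.deg e = δ 0 → (∀ v, C.thr v A ≤ e v) →
      (N₀ : ℤ) ≤ C.wt e → Phc C W Pi f τ δ L (bas R A e) = 0 := by
  refine ⟨p * k + ∑ v, τ 0 v, fun A e _ he' hw => ?_⟩
  have h0 : alL C W Pi f τ δ 0 (mon R e) = 0 := by
    refine al_large (H.alOK Pi 0) (fun v => (phc_thr_nonneg C v A).trans (he' v)) ?_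
    push_cast at hw
    exact hw
  have h1 : Ph C W Pi f τ δ 0 (bas R A e) = 0 := by
    rw [Ph, Fr_bas, h0, smul_zero, _root_.Pi.single_zero]
  induction L with
  | zero => omega
  | succ L ih =>
    change Ph C W Pi f τ δ L (Phc C W Pi f τ δ L (bas R A e)) = 0
    rcases Nat.eq_zero_or_pos L with h | h
    · subst h
      exact h1
    · rw [ih h, map_zero]

omit [DecidableEq ι] [Ranked ι] in
private theorem phc_Ac_zero {U : Finset (ι → ℤ)} {Bs : ℕ → Finset (ι → ℤ)}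
    {A : ℕ → Matrix U U R}
    (hA0 : ∀ l (e' e : U), (e' : ι → ℤ) ∉ Bs (l + 1) ∨ (e : ι → ℤ) ∉ Bs l → A l e' e = 0)
    (L : ℕ) (e' e : U) (h : (e' : ι → ℤ) ∉ Bs (L + 1)) : Ac A (L + 1) e' e = 0 := by
  change (A L * Ac A L) e' e = 0
  rw [Matrix.mul_apply]
  exact Finset.sum_eq_zero fun x _ => by rw [hA0 L e' x (Or.inl h), zero_mul]

omit [Fintype ι] [DecidableEq ι] [Ranked ι] in
private theorem phc_sum_coe {M : Type*} [AddCommMonoid M] {U Bs : Finset (ι → ℤ)} (hU : Bs ⊆ U)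
    (g : (ι → ℤ) → M) (hg : ∀ e : U, (e : ι → ℤ) ∉ Bs → g e = 0) :
    ∑ e : U, g e = ∑ e ∈ Bs, g e := by
  rw [Finset.sum_coe_sort U g]
  symm
  exact Finset.sum_subset hU fun x hx hx' => hg ⟨x, hx⟩ hx'

theorem TD.Phc_mat (H : TD C W f τ ga δ) {Bs : ℕ → Finset (ι → ℤ)}
    (hB : ∀ l, GB C (f l) (δ l) (Bs l)) {U : Finset (ι → ℤ)} (hU : ∀ l, Bs l ⊆ U)
    {A : ℕ → Matrix U U R}
    (hA0 : ∀ l (e' e : U), (e' : ι → ℤ) ∉ Bs (l + 1) ∨ (e : ι → ℤ) ∉ Bs l → A l e' e = 0)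
    (hA : ∀ l (e : U), (e : ι → ℤ) ∈ Bs l →
      ∃ η ∈ KT R C ∅ (δ (l + 1)) ((Fintype.card ι : ℤ) - 1),
        Ph C W Pi f τ δ l (bas R Finset.univ e)
          = ∑ e' : U, A l e' e • bas R Finset.univ (e' : ι → ℤ)
            + Dt (ga (l + 1)) (hG W Pi (f (l + 1))) η) (L : ℕ) (e : U) (he : (e : ι → ℤ) ∈ Bs 0) :
    ∃ η ∈ KT R C ∅ (δ L) ((Fintype.card ι : ℤ) - 1),
      Phc C W Pi f τ δ L (bas R Finset.univ e)
        = ∑ e' : U, Ac A L e' e • bas R Finset.univ (e' : ι → ℤ)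
          + Dt (ga L) (hG W Pi (f L)) η ∧ ∀ e' : U, (e' : ι → ℤ) ∉ Bs L → Ac A L e' e = 0 := by
  classical
  induction L with
  | zero =>
    refine ⟨0, Submodule.zero_mem _, ?_, ?_⟩
    · change bas R Finset.univ (e : ι → ℤ) = ∑ e' : U, (1 : Matrix U U R) e' e •
        bas R Finset.univ (e' : ι → ℤ) + Dt (ga 0) (hG W Pi (f 0)) 0
      rw [map_zero, add_zero, Finset.sum_eq_single e]
      · rw [Matrix.one_apply_eq, one_smul]
      · intro b _ hb
        rw [Matrix.one_apply_ne hb, zero_smul]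
      · intro h
        exact absurd (Finset.mem_univ e) h
    · intro e' he'
      have hne : e' ≠ e := by
        rintro rfl
        exact he' he
      change (1 : Matrix U U R) e' e = 0
      exact Matrix.one_apply_ne hne
  | succ L ih =>
    obtain ⟨η, hη, h1, h2⟩ := ih
    have hch : ∀ x : U, ∃ y ∈ KT R C ∅ (δ (L + 1)) ((Fintype.card ι : ℤ) - 1),
        Ac A L x e • Ph C W Pi f τ δ L (bas R Finset.univ (x : ι → ℤ))
          = ∑ e' : U, (A L e' x * Ac A L x e) • bas R Finset.univ (e' : ι → ℤ)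
            + Dt (ga (L + 1)) (hG W Pi (f (L + 1))) y := by
      intro x
      by_cases hx : (x : ι → ℤ) ∈ Bs L
      · obtain ⟨y, hy, h⟩ := hA L x hx
        refine ⟨Ac A L x e • y, Submodule.smul_mem _ _ hy, ?_⟩
        rw [h, smul_add, Finset.smul_sum, map_smul]
        congr 1
        refine Finset.sum_congr rfl fun e' _ => ?_
        rw [smul_smul, mul_comm]
      · refine ⟨0, Submodule.zero_mem _, ?_⟩
        rw [h2 x hx, zero_smul, map_zero, add_zero]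
        symm
        refine Finset.sum_eq_zero fun e' _ => ?_
        rw [mul_zero, zero_smul]
    choose y hy hyy using hch
    refine ⟨∑ x : U, y x + Ph C W Pi f τ δ L η,
      Submodule.add_mem _ (Submodule.sum_mem _ fun x _ => hy x) (H.Ph_mem Pi L hη), ?_, ?_⟩
    · change Ph C W Pi f τ δ L (Phc C W Pi f τ δ L (bas R Finset.univ (e : ι → ℤ))) = _
      rw [h1, map_add, map_sum, H.Ph_D Pi L hη]
      have h3 : ∀ x : U, Ph C W Pi f τ δ L (Ac A L x e • bas R Finset.univ (x : ι → ℤ))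
          = ∑ e' : U, (A L e' x * Ac A L x e) • bas R Finset.univ (e' : ι → ℤ)
            + Dt (ga (L + 1)) (hG W Pi (f (L + 1))) (y x) := by
        intro x
        rw [map_smul]
        exact hyy x
      rw [Finset.sum_congr rfl fun x _ => h3 x, Finset.sum_add_distrib, Finset.sum_comm,
        map_add, map_sum, add_assoc]
      congr 1
      refine Finset.sum_congr rfl fun e' _ => ?_
      rw [← Finset.sum_smul]
      rfl
    · intro e' he'
      exact phc_Ac_zero hA0 L e' e he'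

theorem TD.trace_Phc (H : TD C W f τ ga δ) {Bs : ℕ → Finset (ι → ℤ)}
    (hB : ∀ l, GB C (f l) (δ l) (Bs l)) {U : Finset (ι → ℤ)} (hU : ∀ l, Bs l ⊆ U)
    {A : ℕ → Matrix U U R}
    (hA0 : ∀ l (e' e : U), (e' : ι → ℤ) ∉ Bs (l + 1) ∨ (e : ι → ℤ) ∉ Bs l → A l e' e = 0)
    (hA : ∀ l (e : U), (e : ι → ℤ) ∈ Bs l →
      ∃ η ∈ KT R C ∅ (δ (l + 1)) ((Fintype.card ι : ℤ) - 1),
        Ph C W Pi f τ δ l (bas R Finset.univ e)
          = ∑ e' : U, A l e' e • bas R Finset.univ (e' : ι → ℤ)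
            + Dt (ga (l + 1)) (hG W Pi (f (l + 1))) η)
    {L : ℕ} (hL : 1 ≤ L) (hfL : f L = f 0) (hgL : ga L = ga 0) (hdL : δ L = δ 0)
    (hBL : Bs L = Bs 0) :
    ∃ N₀ : ℕ, ∀ N, N₀ ≤ N →
      ∑ x ∈ adm C (δ 0) N, (-1 : R) ^ x.1.card * ((p : R) ^ (L * (Fintype.card ι - x.1.card)) *
        MvPowerSeries.coeff (nn x.2) (AlP C p ((p : R) * Pi.u) (fun l => Fh W (f l)) τ L
          (MvPowerSeries.monomial (nn x.2) 1)))
      = (-1) ^ Fintype.card ι * (1 - (p : R) ^ L) * (Ac A L).trace := by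
  classical
  obtain ⟨N₀, hN₀⟩ := H.Phc_large (Pi := Pi) hL
  refine ⟨N₀, fun N hN => ?_⟩
  have S : Sit C p k W (f 0) (δ 0) (mkTwH hp.out W Pi (H.hF 0)) (ga 0) :=
    mk_sit hp.out H.hk W Pi (H.hF 0) (H.hU 0) (H.hδ0 0) (H.hδ1 0) (H.hGa 0)
  have hadm : ∀ x : Finset ι × (ι → ℤ), x ∈ adm C (δ 0) N ↔
      C.deg x.2 = δ 0 ∧ (∀ v, C.thr v x.1 ≤ x.2 v) ∧ C.wt x.2 < N := by
    intro x
    rw [adm, Finset.mem_filter, Finset.mem_product, mem_bx]
    constructor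
    · rintro ⟨⟨_, h1, _, h3⟩, h4⟩
      exact ⟨h1, h4, h3⟩
    · rintro ⟨h1, h4, h3⟩
      exact ⟨⟨Finset.mem_univ _, h1, fun v => (phc_thr_nonneg C v x.1).trans (h4 v), h3⟩, h4⟩
  set B : (ι → ℤ) → (ι → ℤ) → R := fun e' e =>
    if h : e' ∈ U ∧ e ∈ U then Ac A L ⟨e', h.1⟩ ⟨e, h.2⟩ else 0 with hBdef
  have hBU : ∀ e' e : U, B e' e = Ac A L e' e := by
    intro e' e
    rw [hBdef]
    simp only [e'.2, e.2, and_self, dif_pos, Subtype.coe_eta]
  have hdiag : ∀ e' e : U, (e' : ι → ℤ) ∉ Bs 0 → Ac A L e' e = 0 := by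
    intro e' e he'
    obtain ⟨L', rfl⟩ : ∃ L', L = L' + 1 := ⟨L - 1, by omega⟩
    exact phc_Ac_zero hA0 L' e' e (by rw [hBL]; exact he')
  have key := S.lef (hB 0) (Φ := Phc C W Pi f τ δ L)
    (fun j ξ hξ => by
      have h := H.Phc_mem Pi L hξ
      rwa [hdL] at h)
    (fun j ξ hξ => by
      have h := H.Phc_D Pi L hξ
      rwa [hgL, hfL] at h)
    (Q := (p : R) ^ L) (fun j ξ _ => H.Phc_eul Pi L ξ) (adm C (δ 0) N)
    (fun x hx => ⟨((hadm x).1 hx).1, ((hadm x).1 hx).2.1⟩)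
    (fun A' e h1 h2 h3 => by
      refine hN₀ A' e h1 h2 ?_
      by_contra h4
      exact h3 ((hadm (A', e)).2 ⟨h1, h2, by push_cast at *; omega⟩))
    B
    (fun e he => by
      obtain ⟨η, hη, h1, h2⟩ := H.Phc_mat Pi hB hU hA0 hA L ⟨e, hU 0 he⟩ he
      refine ⟨η, by rwa [hdL] at hη, ?_⟩
      rw [hgL, hfL] at h1
      refine h1.trans ?_
      congr 1
      rw [← phc_sum_coe (hU 0) (fun e' => B e' e • bas R Finset.univ e')]
      · refine Finset.sum_congr rfl fun e' _ => ?_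
        rw [← hBU]
      · intro e' he'
        change B (e' : ι → ℤ) e • _ = 0
        have h3 := hBU e' ⟨e, hU 0 he⟩
        change B (e' : ι → ℤ) e = _ at h3
        rw [h3, hdiag _ _ he', zero_smul])
  have hL1 : ∀ x ∈ adm C (δ 0) N,
      (-1 : R) ^ x.1.card * (Phc C W Pi f τ δ L (bas R x.1 x.2) x.1).coeff x.2
        = (-1 : R) ^ x.1.card * ((p : R) ^ (L * (Fintype.card ι - x.1.card)) *
        MvPowerSeries.coeff (nn x.2) (AlP C p ((p : R) * Pi.u) (fun l => Fh W (f l)) τ L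
          (MvPowerSeries.monomial (nn x.2) 1))) := by
    intro x hx
    obtain ⟨h1, h2, _⟩ := (hadm x).1 hx
    have h3 := congrArg (MvPowerSeries.coeff (nn x.2)) (H.sP_Phc Pi L h1 h2)
    rw [coeff_sP, zz_nn fun v => (phc_thr_nonneg C v x.1).trans (h2 v), map_smul,
      smul_eq_mul] at h3
    rw [h3]
  rw [← Finset.sum_congr rfl hL1, key]
  congr 1
  rw [Matrix.trace, ← phc_sum_coe (hU 0) (fun e => B e e)]
  · exact Finset.sum_congr rfl fun e _ => hBU e e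
  · intro e he
    rw [hBU e e, hdiag e e he]

end

end HN
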