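import Pool.Agent.HN.PhC

/-! # HN/Pt : sums over points (module HND-28)

`T` is a multiplicative map with `∑_z T(z)^u = 0`, `Q'`, `Q` for `Q' ∤ u`, `Q' ∣ u ≥ 1`, `u = 0`, where
`Q = Q' + 1 = card K`.

PLAN.  `pt_expand`: expand `H = ∑ m` in monomials, `eval` of a monomial is `∏_v T(ζ_v)^(m_v)`;
`Finset.prod_univ_sum` (a sum over `ζ : ι → K` of a product over `v` is the product of the sums).
`pt_sum`: factor of `v ∈ Ys`: exponent `m_v + Q' - c_v ≥ 1`: `Q'` if `Q' ∣ m_v - c_v`, i.e.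
`m_v = Q' e_v + c_v` with `e_v ≥ 0` (as `c_v < Q'`), `0` otherwise; factor of `v ∉ Ys`
(`c_v = 0`): `Q' + 1` if `m_v = 0`, `Q'` if `m_v = Q' e_v`, `e_v ≥ 1`, `0` otherwise.  So only
`m = Q' e + c`, `e ∈ ℕ^ι`, contribute, `0 = deg m = Q' deg e + ∑ wd_v c_v = Q' (deg e - δ)`, so
`deg e = δ`, and `wt e ≤ wt m < N` (`1 ≤ Q'`), `e ∈ bx C δ N`.
`pt_adm`: `∏_v (Q' or Q' + 1) = ∑_{A, thr v A ≤ e v} ∏_v (if v ∈ A then -1 else Q)`
(`Finset.prod_add` for the factors `(-1) + Q` of the `v` with `v ∈ Ys` or `1 ≤ e v`, the other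
factors are `Q`), and `∏_v = (-1)^|A| Q^(card ι - |A|)`.
-/

open MvPolynomial

namespace HN

section
variable {ι : Type*} [Fintype ι] [DecidableEq ι] {B K : Type*} [CommRing B] [Field K] [Fintype K]

/-- `T` behaves like a Teichmüller map -/
structure Orth (T : K →*₀ B) : Prop where
  h0 : ∀ u, ¬ (Fintype.card K - 1) ∣ u → ∑ z : K, T z ^ u = 0
  h1 : ∀ u, (Fintype.card K - 1) ∣ u → 1 ≤ u → ∑ z : K, T z ^ u = (Fintype.card K : B) - 1

theorem pt_expand (T : K →*₀ B) (s : ι → ℕ) (H : MvPolynomial ι B) :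
    ∑ ζ : ι → K, (∏ v, T (ζ v) ^ s v) * eval (fun v => T (ζ v)) H
      = ∑ m ∈ H.support, H.coeff m * ∏ v, ∑ z : K, T z ^ (m v + s v) := by
  classical
  have h1 : ∀ ζ : ι → K, (∏ v, T (ζ v) ^ s v) * eval (fun v => T (ζ v)) H
      = ∑ m ∈ H.support, H.coeff m * ∏ v, T (ζ v) ^ (m v + s v) := by
    intro ζ
    rw [eval_eq', Finset.mul_sum]
    refine Finset.sum_congr rfl fun m _ => ?_
    simp only [pow_add, Finset.prod_mul_distrib]
    ring
  rw [Finset.sum_congr rfl fun ζ _ => h1 ζ, Finset.sum_comm]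
  refine Finset.sum_congr rfl fun m _ => ?_
  rw [← Finset.mul_sum, Finset.prod_univ_sum, Fintype.piFinset_univ]

/-- exponent `Q' e + c` -/
noncomputable def qe (Q' : ℕ) (c : ι → ℕ) (e : ι → ℤ) : ι →₀ ℕ :=
  Q' • nn e + fs c

theorem pt_sum {C : CType ι} {T : K →*₀ B} (hT : Orth T) {H : MvPolynomial ι B} {N : ℕ}
    (hH : ∀ m, H.coeff m ≠ 0 → C.deg (zz m) = 0 ∧ wN C m < N) {c : ι → ℕ}
    (hc0 : ∀ v, v ∉ C.Ys → c v = 0) (hc1 : ∀ v ∈ C.Ys, c v < Fintype.card K - 1) {δ : ℤ}
    (hδ : ((Fintype.card K - 1 : ℕ) : ℤ) * δ + ∑ v, C.wd v * c v = 0) :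
    ∑ ζ : ι → K, (∏ v ∈ C.Ys, T (ζ v) ^ (Fintype.card K - 1 - c v)) *
        eval (fun v => T (ζ v)) H
      = ∑ e ∈ bx C δ N, (∏ v, (if v ∈ C.Ys ∨ 1 ≤ e v then (Fintype.card K : B) - 1
          else (Fintype.card K : B))) * H.coeff (qe (Fintype.card K - 1) c e) := by
  classical
  obtain ⟨Q', hQ'⟩ : ∃ Q', Q' = Fintype.card K - 1 := ⟨_, rfl⟩
  have hcard : 2 ≤ Fintype.card K := Fintype.one_lt_card
  have hQ1 : 1 ≤ Q' := by omega
  set s : ι → ℕ := fun v => if v ∈ C.Ys then Q' - c v else 0 with hs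
  rw [← hQ'] at hc1 hδ ⊢
  have hprod : ∀ ζ : ι → K, (∏ v ∈ C.Ys, T (ζ v) ^ (Q' - c v)) = ∏ v, T (ζ v) ^ s v := by
    intro ζ
    rw [← Finset.prod_subset (Finset.subset_univ C.Ys)]
    · refine Finset.prod_congr rfl fun v hv => ?_
      simp [hs, hv]
    · intro v _ hv
      simp [hs, hv]
  rw [Finset.sum_congr rfl fun ζ _ => by rw [hprod ζ], pt_expand]
  symm
  have hqe : ∀ (e : ι → ℤ) (v : ι), qe Q' c e v = Q' * (e v).toNat + c v := by
    intro e v
    simp [qe, nn, fs]
  have hfac : ∀ e : ι → ℤ, (∀ v, 0 ≤ e v) → ∏ v, ∑ z : K, T z ^ (qe Q' c e v + s v)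
      = ∏ v, (if v ∈ C.Ys ∨ 1 ≤ e v then (Fintype.card K : B) - 1 else (Fintype.card K : B)) := by
    intro e he
    refine Finset.prod_congr rfl fun v _ => ?_
    rw [hqe]
    by_cases hv : v ∈ C.Ys
    · have h3 : Q' * (e v).toNat + c v + s v = Q' * ((e v).toNat + 1) := by
        have := hc1 v hv
        simp only [hs, hv, if_true]
        rw [mul_add, mul_one]
        omega
      rw [h3, hT.h1 _ (by rw [← hQ']; exact dvd_mul_right _ _) (by nlinarith), if_pos (Or.inl hv)]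
    · have h3 : Q' * (e v).toNat + c v + s v = Q' * (e v).toNat := by
        simp [hs, hv, hc0 v hv]
      rw [h3]
      by_cases h1 : 1 ≤ e v
      · have h4 : 1 ≤ (e v).toNat := by omega
        rw [hT.h1 _ (by rw [← hQ']; exact dvd_mul_right _ _) (by nlinarith), if_pos (Or.inr h1)]
      · have h4 : (e v).toNat = 0 := by
          have := he v
          omega
        rw [h4, if_neg (by tauto)]
        simp
  refine Finset.sum_bij_ne_zero (fun e _ _ => qe Q' c e) ?_ ?_ ?_ ?_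
  · intro e he hne
    rw [mem_support_iff]
    exact right_ne_zero_of_mul hne
  · intro e he _ e' he' _ h
    funext v
    have h5 : qe Q' c e v = qe Q' c e' v := by
      have h5' : qe Q' c e = qe Q' c e' := h
      rw [h5']
    rw [hqe, hqe] at h5
    have h6 : (e v).toNat = (e' v).toNat := by
      have : Q' * (e v).toNat = Q' * (e' v).toNat := by omega
      exact Nat.eq_of_mul_eq_mul_left (by omega) this
    have h7 := (mem_bx.1 he).2.1 v
    have h8 := (mem_bx.1 he').2.1 v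
    omega
  · intro m hm hne
    have hcm : H.coeff m ≠ 0 := mem_support_iff.1 hm
    have hP : (∏ v, ∑ z : K, T z ^ (m v + s v)) ≠ 0 := right_ne_zero_of_mul hne
    have hdv : ∀ v, Q' ∣ m v + s v := by
      intro v
      by_contra hnd
      exact hP (Finset.prod_eq_zero (Finset.mem_univ v) (hT.h0 _ (by rw [← hQ']; exact hnd)))
    have hmv : ∀ v, m v = Q' * (m v / Q') + c v := by
      intro v
      by_cases hv : v ∈ C.Ys
      · have h9 := hdv v
        have h10 := hc1 v hv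
        simp only [hs, hv, if_true] at h9
        have h11 : (m v + (Q' - c v)) % Q' = 0 := Nat.mod_eq_zero_of_dvd h9
        have h12 : m v % Q' = c v := by
          have h13 : (m v + (Q' - c v) + c v) % Q' = c v % Q' := by
            rw [Nat.add_mod, h11]
            simp
          rw [Nat.mod_eq_of_lt h10] at h13
          have h14 : m v + (Q' - c v) + c v = m v + Q' := by omega
          rw [h14, Nat.add_mod_right] at h13
          exact h13
        rw [← h12]
        exact (Nat.div_add_mod (m v) Q').symm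
      · have h9 := hdv v
        simp only [hs, hv, if_false, add_zero] at h9
        rw [hc0 v hv, add_zero]
        exact (Nat.mul_div_cancel' h9).symm
    obtain ⟨e, he⟩ : ∃ e : ι → ℤ, ∀ v, e v = ((m v / Q' : ℕ) : ℤ) := ⟨_, fun v => rfl⟩
    have he0 : ∀ v, 0 ≤ e v := fun v => by rw [he]; positivity
    have hqm : qe Q' c e = m := by
      ext v
      rw [hqe, he v, Int.toNat_natCast]
      exact (hmv v).symm
    have hmz : ∀ v, (m v : ℤ) = (Q' : ℤ) * e v + c v := by
      intro v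
      rw [he v]
      exact_mod_cast hmv v
    have hdeg : C.deg e = δ := by
      have h15 := (hH m hcm).1
      unfold CType.deg zz at h15
      have h16 : ∑ v, C.wd v * (m v : ℤ) = (Q' : ℤ) * C.deg e + ∑ v, C.wd v * c v := by
        unfold CType.deg
        rw [Finset.mul_sum, ← Finset.sum_add_distrib]
        refine Finset.sum_congr rfl fun v _ => ?_
        rw [hmz v]
        ring
      rw [h15] at h16
      have h17 : (Q' : ℤ) * C.deg e = (Q' : ℤ) * δ := by linarith
      exact mul_left_cancel₀ (by positivity) h17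
    have hwt : C.wt e < N := by
      have h18 := (hH m hcm).2
      have h19 : C.wt e ≤ (wN C m : ℤ) := by
        unfold CType.wt wN
        push_cast
        refine Finset.sum_le_sum fun v _ => ?_
        rw [he v]
        exact_mod_cast Nat.div_le_self _ _
      have h20 : (wN C m : ℤ) < N := by exact_mod_cast h18
      linarith
    refine ⟨e, mem_bx.2 ⟨hdeg, he0, hwt⟩, ?_, hqm⟩
    rw [hqm, ← hfac e he0, hqm, mul_comm]
    exact hne
  · intro e he _
    rw [hfac e (mem_bx.1 he).2.1, mul_comm]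

theorem pt_adm {C : CType ι} {δ : ℤ} {N : ℕ} (Q : B) (g : (ι → ℤ) → B) :
    ∑ e ∈ bx C δ N, (∏ v, (if v ∈ C.Ys ∨ 1 ≤ e v then Q - 1 else Q)) * g e
      = ∑ x ∈ adm C δ N, (-1) ^ x.1.card * (Q ^ (Fintype.card ι - x.1.card) * g x.2) := by
  classical
  have hadm : ∑ x ∈ adm C δ N, (-1 : B) ^ x.1.card * (Q ^ (Fintype.card ι - x.1.card) * g x.2)
      = ∑ e ∈ bx C δ N, ∑ A : Finset ι, (if ∀ v, C.thr v A ≤ e v then
          (-1 : B) ^ A.card * (Q ^ (Fintype.card ι - A.card) * g e) else 0) := by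
    unfold adm
    rw [Finset.sum_filter, Finset.sum_product_right]
  rw [hadm]
  refine Finset.sum_congr rfl fun e he => ?_
  have he0 := (mem_bx.1 he).2.1
  have h1 : ∀ v, (if v ∈ C.Ys ∨ 1 ≤ e v then Q - 1 else Q)
      = (if v ∈ C.Ys ∨ 1 ≤ e v then (-1 : B) else 0) + Q := by
    intro v
    split_ifs <;> ring
  rw [Finset.prod_congr rfl fun v _ => h1 v, Finset.prod_add, Finset.sum_mul, Finset.powerset_univ]
  refine Finset.sum_congr rfl fun A _ => ?_
  rw [Finset.prod_const, ← Finset.compl_eq_univ_sdiff, Finset.card_compl]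
  by_cases h : ∀ v, C.thr v A ≤ e v
  · rw [if_pos h]
    have h2 : (∏ v ∈ A, (if v ∈ C.Ys ∨ 1 ≤ e v then (-1 : B) else 0)) = (-1) ^ A.card := by
      rw [← Finset.prod_const]
      refine Finset.prod_congr rfl fun v hv => ?_
      rw [if_pos]
      have h3 := h v
      unfold CType.thr at h3
      by_cases hY : v ∈ C.Ys
      · exact Or.inl hY
      · rw [if_pos ⟨hv, hY⟩] at h3
        exact Or.inr h3
    rw [h2]
    ring
  · rw [if_neg h]
    have h4 : ∃ v, ¬ C.thr v A ≤ e v := not_forall.1 h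
    obtain ⟨v, hv⟩ := h4
    unfold CType.thr at hv
    have h5 : v ∈ A ∧ v ∉ C.Ys := by
      by_contra h6
      rw [if_neg h6] at hv
      exact hv (he0 v)
    rw [if_pos h5] at hv
    have h7 : (∏ v ∈ A, (if v ∈ C.Ys ∨ 1 ≤ e v then (-1 : B) else 0)) = 0 :=
      Finset.prod_eq_zero h5.1 (if_neg (by rintro (h8 | h8); exacts [h5.2 h8, hv h8]))
    rw [h7]
    ring

end

end HN
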