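import Pool.Agent.HN.Tw

/-! # HN/Red : reduction of coefficients modulo `p` (module HND-03)

PLAN.  Everything is coefficientwise: `(rd φ ξ A).coeff e = φ ((ξ A).coeff e)`.
`rd_lift`: choose preimages of the (finitely many) coefficients (`Function.surjInv`, value `0` at `0`;
e.g. `Finsupp.mapRange` of a right inverse `σ` of `φ` with `σ 0 = 0`).
`rd_eq_zero`: if `φ x = 0 → p ∣ x`, divide all nonzero coefficients by `p` (choose `0` where the
coefficient is `0`, so that the support does not grow and membership in `KT`/`KW` is kept).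
`pow_smul_eq_zero`: the same with `WD.ann`.
`rd_Dt`, `rd_Dk`: compare coefficients with `kos_apply`, `toL_mul_coeff`; or use that
`rdL` is a ring homomorphism with `rdL (toL g) = toL (map φ g)`.
-/

set_option linter.unusedSectionVars false

open MvPolynomial

namespace HN

section
variable {ι : Type*} [Fintype ι] [DecidableEq ι] [Ranked ι] {R S : Type*} [CommRing R] [CommRing S]

/-- coefficientwise application of `φ` -/
noncomputable def rdL (φ : R →+* S) : Lau ι R →+* Lau ι S :=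
  AddMonoidAlgebra.mapRingHom (ι → ℤ) φ

/-- coefficientwise application of `φ` to forms -/
noncomputable def rd (φ : R →+* S) (ξ : Finset ι → Lau ι R) : Finset ι → Lau ι S :=
  fun A => rdL φ (ξ A)

private theorem rdL_coeff (φ : R →+* S) (f : Lau ι R) (e : ι → ℤ) :
    (rdL φ f).coeff e = φ (f.coeff e) := by
  simp [rdL]

private theorem rdL_single (φ : R →+* S) (a : ι → ℤ) (c : R) :
    rdL φ (AddMonoidAlgebra.single a c) = AddMonoidAlgebra.single a (φ c) := by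
  simp [rdL]

private theorem rdL_smul (φ : R →+* S) (c : R) (f : Lau ι R) :
    rdL φ (c • f) = φ c • rdL φ f := by
  refine lau_ext fun e => ?_
  rw [rdL_coeff, AddMonoidAlgebra.coeff_smul, AddMonoidAlgebra.coeff_smul, Finsupp.smul_apply,
    Finsupp.smul_apply, rdL_coeff, smul_eq_mul, smul_eq_mul, map_mul]

private theorem rdL_toL (φ : R →+* S) (g : MvPolynomial ι R) :
    rdL φ (toL g) = toL (map φ g) := by
  induction g using MvPolynomial.induction_on' with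
  | monomial u a =>
    rw [toL_monomial, rdL_single, MvPolynomial.map_monomial, toL_monomial]
  | add p q hp hq => rw [map_add, map_add, hp, hq, map_add, map_add]

private theorem rdL_diag (φ : R →+* S) (c : (ι → ℤ) → R) (f : Lau ι R) :
    rdL φ (diag R c f) = diag S (fun e => φ (c e)) (rdL φ f) := by
  refine lau_ext fun e => ?_
  rw [rdL_coeff, diag_coeff, diag_coeff, rdL_coeff, map_mul]

private theorem sp_map {P : Finset ι → (ι → ℤ) → Prop} {η : Finset ι → Lau ι S}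
    (hη : η ∈ Sp S P) (σ : S → R) (h0 : σ 0 = 0) :
    ∃ ξ ∈ Sp R P, ∀ A e, (ξ A).coeff e = σ ((η A).coeff e) := by
  have key : ∀ (A : Finset ι) (e : ι → ℤ),
      ((AddMonoidAlgebra.ofCoeff (Finsupp.mapRange σ h0 (η A).coeff) : Lau ι R)).coeff e =
        σ ((η A).coeff e) := by
    intro A e
    simp
  refine ⟨fun A => AddMonoidAlgebra.ofCoeff (Finsupp.mapRange σ h0 (η A).coeff), ?_, key⟩
  intro A e h
  refine hη A e fun h1 => h ?_
  rw [key A e, h1, h0]

private theorem exists_div (q : R) : ∃ σ : R → R, σ 0 = 0 ∧ ∀ x, q ∣ x → x = q * σ x := by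
  classical
  refine ⟨fun x => if h : x ≠ 0 ∧ q ∣ x then Classical.choose h.2 else 0, ?_, ?_⟩
  · simp
  · intro x hx
    by_cases h0 : x = 0
    · simp [h0]
    · have h : x ≠ 0 ∧ q ∣ x := ⟨h0, hx⟩
      simp only [dif_pos h]
      exact Classical.choose_spec h.2

private theorem sp_div {P : Finset ι → (ι → ℤ) → Prop} {ξ : Finset ι → Lau ι R}
    (hξ : ξ ∈ Sp R P) (q : R) (hq : ∀ A e, q ∣ (ξ A).coeff e) :
    ∃ ξ' ∈ Sp R P, ξ = q • ξ' := by
  obtain ⟨σ, h0, hσ⟩ := exists_div q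
  obtain ⟨ξ', hm, hc⟩ := sp_map hξ σ h0
  refine ⟨ξ', hm, ?_⟩
  funext A
  refine lau_ext fun e => ?_
  rw [Pi.smul_apply, AddMonoidAlgebra.coeff_smul, Finsupp.smul_apply, smul_eq_mul, hc A e]
  exact hσ _ (hq A e)

private theorem sp_lift {φ : R →+* S} (hφ : Function.Surjective φ)
    {P : Finset ι → (ι → ℤ) → Prop} {η : Finset ι → Lau ι S} (hη : η ∈ Sp S P) :
    ∃ ξ ∈ Sp R P, rd φ ξ = η := by
  classical
  obtain ⟨ξ, hm, hc⟩ := sp_map (R := R) hη
    (fun s => if s = 0 then 0 else Classical.choose (hφ s)) (by simp)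
  refine ⟨ξ, hm, ?_⟩
  funext A
  refine lau_ext fun e => ?_
  change (rdL φ (ξ A)).coeff e = _
  rw [rdL_coeff, hc A e]
  by_cases h : (η A).coeff e = 0
  · rw [if_pos h, h, map_zero]
  · rw [if_neg h]
    exact Classical.choose_spec (hφ _)

private theorem rd_mem_Sp (φ : R →+* S) {P : Finset ι → (ι → ℤ) → Prop}
    {ξ : Finset ι → Lau ι R} (h : ξ ∈ Sp R P) : rd φ ξ ∈ Sp S P := by
  intro A e h1
  refine h A e fun h2 => h1 ?_
  change (rdL φ (ξ A)).coeff e = 0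
  rw [rdL_coeff, h2, map_zero]

private theorem rd_kos (φ : R →+* S) (T : ι → Lau ι R →ₗ[R] Lau ι R)
    (T' : ι → Lau ι S →ₗ[S] Lau ι S) (hT : ∀ v f, rdL φ (T v f) = T' v (rdL φ f))
    (ξ : Finset ι → Lau ι R) : rd φ (kos R T ξ) = kos S T' (rd φ ξ) := by
  funext A
  change rdL φ (kos R T ξ A) = _
  rw [kos_apply, kos_apply, map_sum]
  refine Finset.sum_congr rfl fun v _ => ?_
  rw [map_zsmul, hT]
  rfl

theorem rd_coeff (φ : R →+* S) (ξ : Finset ι → Lau ι R) (A : Finset ι) (e : ι → ℤ) :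
    (rd φ ξ A).coeff e = φ ((ξ A).coeff e) := by
  exact rdL_coeff φ (ξ A) e

theorem rd_add (φ : R →+* S) (ξ η : Finset ι → Lau ι R) : rd φ (ξ + η) = rd φ ξ + rd φ η := by
  funext A
  exact map_add (rdL φ) (ξ A) (η A)

theorem rd_sub (φ : R →+* S) (ξ η : Finset ι → Lau ι R) : rd φ (ξ - η) = rd φ ξ - rd φ η := by
  funext A
  exact map_sub (rdL φ) (ξ A) (η A)

theorem rd_zero (φ : R →+* S) : rd φ (0 : Finset ι → Lau ι R) = 0 := by
  funext A
  exact map_zero (rdL φ)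

theorem rd_smul (φ : R →+* S) (c : R) (ξ : Finset ι → Lau ι R) :
    rd φ (c • ξ) = φ c • rd φ ξ := by
  funext A
  exact rdL_smul φ c (ξ A)

theorem rd_sum (φ : R →+* S) {α : Type*} (s : Finset α) (ξ : α → Finset ι → Lau ι R) :
    rd φ (∑ i ∈ s, ξ i) = ∑ i ∈ s, rd φ (ξ i) := by
  funext A
  change rdL φ ((∑ i ∈ s, ξ i) A) = (∑ i ∈ s, rd φ (ξ i)) A
  rw [Finset.sum_apply, Finset.sum_apply, map_sum]
  rfl

theorem rd_bas (φ : R →+* S) (A : Finset ι) (e : ι → ℤ) :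
    rd φ (bas R A e) = bas S A e := by
  funext B
  change rdL φ (bas R A e B) = bas S A e B
  unfold bas mon
  by_cases h : B = A
  · subst h
    rw [Pi.single_eq_same, Pi.single_eq_same, rdL_single, map_one]
  · rw [Pi.single_eq_of_ne h, Pi.single_eq_of_ne h, map_zero]

theorem rd_eul (φ : R →+* S) (C : CType ι) (ξ : Finset ι → Lau ι R) :
    rd φ (eul R C ξ) = eul S C (rd φ ξ) := by
  funext A
  change rdL φ (eul R C ξ A) = _
  rw [eul_apply, eul_apply, map_sum]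
  refine Finset.sum_congr rfl fun v _ => ?_
  rw [rdL_smul, map_zsmul, map_intCast]
  rfl

theorem rd_Dt (φ : R →+* S) (ga : ι → R) (h : ι → MvPolynomial ι R) (ξ : Finset ι → Lau ι R) :
    rd φ (Dt ga h ξ) = Dt (fun v => φ (ga v)) (fun v => map φ (h v)) (rd φ ξ) := by
  refine rd_kos φ (tw ga h) (tw (fun v => φ (ga v)) (fun v => map φ (h v))) ?_ ξ
  intro v f
  change rdL φ (diag R (fun e => (e v : R) + ga v) f + toL (h v) * f) =
    diag S (fun e => (e v : S) + φ (ga v)) (rdL φ f) + toL (map φ (h v)) * rdL φ f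
  have hc : (fun e : ι → ℤ => φ ((e v : R) + ga v)) = fun e => ((e v : S) + φ (ga v)) := by
    funext e
    rw [map_add, map_intCast]
  rw [map_add, map_mul, rdL_toL, rdL_diag, hc]

theorem rd_Mk (φ : R →+* S) (g : ι → MvPolynomial ι R) (ξ : Finset ι → Lau ι R) :
    rd φ (Mk g ξ) = Mk (fun v => map φ (g v)) (rd φ ξ) := by
  refine rd_kos φ (fun v => LinearMap.mulLeft R (toL (g v)))
    (fun v => LinearMap.mulLeft S (toL (map φ (g v)))) ?_ ξ
  intro v f
  change rdL φ (toL (g v) * f) = toL (map φ (g v)) * rdL φ f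
  rw [map_mul, rdL_toL]

theorem rd_mem_KT (φ : R →+* S) {C : CType ι} {δ j : ℤ} {ξ : Finset ι → Lau ι R}
    (h : ξ ∈ KT R C ∅ δ j) : rd φ ξ ∈ KT S C ∅ δ j := by
  exact rd_mem_Sp φ h

theorem rd_mem_KW (φ : R →+* S) {C : CType ι} {δ j w : ℤ} {ξ : Finset ι → Lau ι R}
    (h : ξ ∈ KW R C ∅ δ j w) : rd φ ξ ∈ KW S C ∅ δ j w := by
  exact rd_mem_Sp φ h

theorem rd_lift_KT {φ : R →+* S} (hφ : Function.Surjective φ) {C : CType ι} {δ j : ℤ}
    {η : Finset ι → Lau ι S} (h : η ∈ KT S C ∅ δ j) : ∃ ξ ∈ KT R C ∅ δ j, rd φ ξ = η := by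
  exact sp_lift hφ h

theorem rd_lift_KW {φ : R →+* S} (hφ : Function.Surjective φ) {C : CType ι} {δ j w : ℤ}
    {η : Finset ι → Lau ι S} (h : η ∈ KW S C ∅ δ j w) : ∃ ξ ∈ KW R C ∅ δ j w, rd φ ξ = η := by
  exact sp_lift hφ h

theorem rd_eq_zero_KT {φ : R →+* S} {p : ℕ} (hφ : ∀ x, φ x = 0 → (p : R) ∣ x) {C : CType ι}
    {δ j : ℤ} {ξ : Finset ι → Lau ι R} (h : ξ ∈ KT R C ∅ δ j) (h0 : rd φ ξ = 0) :
    ∃ ξ' ∈ KT R C ∅ δ j, ξ = (p : R) • ξ' := by
  refine sp_div h (p : R) fun A e => hφ _ ?_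
  rw [← rd_coeff φ ξ A e, h0]
  rfl

theorem rd_eq_zero_KW {φ : R →+* S} {p : ℕ} (hφ : ∀ x, φ x = 0 → (p : R) ∣ x) {C : CType ι}
    {δ j w : ℤ} {ξ : Finset ι → Lau ι R} (h : ξ ∈ KW R C ∅ δ j w) (h0 : rd φ ξ = 0) :
    ∃ ξ' ∈ KW R C ∅ δ j w, ξ = (p : R) • ξ' := by
  refine sp_div h (p : R) fun A e => hφ _ ?_
  rw [← rd_coeff φ ξ A e, h0]
  rfl

theorem pow_smul_eq_zero {F : Type*} [Field F] {p k : ℕ} (W : WD p k F R) {i : ℕ} (hi : i ≤ k)
    {C : CType ι} {δ j : ℤ} {ξ : Finset ι → Lau ι R} (h : ξ ∈ KT R C ∅ δ j)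
    (h0 : (p : R) ^ i • ξ = 0) : ∃ ξ' ∈ KT R C ∅ δ j, ξ = (p : R) ^ (k - i) • ξ' := by
  refine sp_div h ((p : R) ^ (k - i)) fun A e => (W.ann i hi _).1 ?_
  have h1 := congrArg (fun z : Finset ι → Lau ι R => (z A).coeff e) h0
  simp only [Pi.smul_apply, AddMonoidAlgebra.coeff_smul, Finsupp.smul_apply, smul_eq_mul] at h1
  rw [h1]
  rfl

end

end HN
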