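import Pool.Agent.HN.Tw

/-! # HN/Tw1 : first properties of the twisted Koszul complex (module HND-01)

`tw_comm`: `θ_u (h_v x) = (θ_u h_v) x + h_v θ_u x` with `θ_u h_v = X_u ∂_u h_v`; `Dt_Dt`: `kos_kos`;
`eul_Dt`: `eul_kos`.
-/

open MvPolynomial

set_option linter.unusedSectionVars false

namespace HN

section
variable {ι : Type*} [Fintype ι] [DecidableEq ι] [Ranked ι] {R : Type*} [CommRing R]

private noncomputable def tw1cf (e : ι → ℤ) : Lau ι R →ₗ[R] R where
  toFun f := f.coeff e
  map_add' f g := by simp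
  map_smul' c f := by simp

private theorem tw1_coeff_sum {κ : Type*} (s : Finset κ) (f : κ → Lau ι R) (e : ι → ℤ) :
    (∑ i ∈ s, f i).coeff e = ∑ i ∈ s, (f i).coeff e :=
  map_sum (tw1cf e) f s

private theorem tw1_coeff_zsmul (n : ℤ) (f : Lau ι R) (e : ι → ℤ) :
    (n • f).coeff e = n • f.coeff e :=
  map_zsmul (tw1cf e) n f

private theorem tw1_coeff_add (f g : Lau ι R) (e : ι → ℤ) :
    (f + g).coeff e = f.coeff e + g.coeff e :=
  map_add (tw1cf e) f g

private theorem tw1_coeff_pderiv (F : MvPolynomial ι R) (v : ι) (m : ι →₀ ℕ) :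
    (X v * pderiv v F).coeff m = (m v : R) * F.coeff m := by
  induction F using MvPolynomial.induction_on' with
  | monomial u a =>
    rw [MvPolynomial.X_mul_pderiv_monomial, MvPolynomial.coeff_smul, MvPolynomial.coeff_monomial]
    split_ifs with h
    · rw [h, nsmul_eq_mul]
    · simp
  | add p q hp hq => rw [map_add, mul_add, MvPolynomial.coeff_add, hp, hq, MvPolynomial.coeff_add,
      mul_add]

theorem tw1_tw_apply (ga : ι → R) (h : ι → MvPolynomial ι R) (v : ι) (x : Lau ι R) :
    tw ga h v x = diag R (fun e => (e v : R) + ga v) x + toL (h v) * x := rfl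

theorem tw_coeff (ga : ι → R) (h : ι → MvPolynomial ι R) (v : ι) (x : Lau ι R) (e : ι → ℤ) :
    (tw ga h v x).coeff e = ((e v : R) + ga v) * x.coeff e
      + ∑ m ∈ (h v).support, (h v).coeff m * x.coeff (fun u => e u - (m u : ℤ)) := by
  rw [tw1_tw_apply, tw1_coeff_add, diag_coeff, toL_mul_coeff]

/-- Leibniz rule for the diagonal operators -/
theorem tw1_theta_mul (ga : ι → R) (u : ι) (g : MvPolynomial ι R) (x : Lau ι R) :
    diag R (fun e => (e u : R) + ga u) (toL g * x) =
      toL (X u * pderiv u g) * x + toL g * diag R (fun e => (e u : R) + ga u) x := by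
  refine lau_ext fun e => ?_
  rw [diag_coeff, tw1_coeff_add, toL_mul_coeff, toL_mul_coeff, toL_mul_coeff]
  have h1 : ∑ m ∈ (X u * pderiv u g).support, (X u * pderiv u g).coeff m *
      x.coeff (fun v => e v - (m v : ℤ)) =
      ∑ m ∈ g.support, (X u * pderiv u g).coeff m * x.coeff (fun v => e v - (m v : ℤ)) := by
    refine Finset.sum_subset ?_ ?_
    · intro m hm
      rw [MvPolynomial.mem_support_iff, tw1_coeff_pderiv] at hm
      exact MvPolynomial.mem_support_iff.2 (right_ne_zero_of_mul hm)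
    · intro m _ hm
      rw [MvPolynomial.notMem_support_iff.1 hm, zero_mul]
  rw [h1, Finset.mul_sum, ← Finset.sum_add_distrib]
  refine Finset.sum_congr rfl fun m _ => ?_
  rw [tw1_coeff_pderiv, diag_coeff]
  push_cast
  ring

theorem tw_comm {ga : ι → R} {h : ι → MvPolynomial ι R}
    (hs : ∀ u v (m : ι →₀ ℕ), (m u : R) * (h v).coeff m = (m v : R) * (h u).coeff m)
    (u v : ι) (x : Lau ι R) :
    tw ga h u (tw ga h v x) = tw ga h v (tw ga h u x) := by
  have e1 : (X u * pderiv u (h v) : MvPolynomial ι R) = X v * pderiv v (h u) := by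
    ext m
    rw [tw1_coeff_pderiv, tw1_coeff_pderiv, hs]
  have e2 : diag R (fun e => (e u : R) + ga u) (diag R (fun e => (e v : R) + ga v) x) =
      diag R (fun e => (e v : R) + ga v) (diag R (fun e => (e u : R) + ga u) x) := by
    refine lau_ext fun e => ?_
    rw [diag_coeff, diag_coeff, diag_coeff, diag_coeff]
    ring
  rw [tw1_tw_apply, tw1_tw_apply, tw1_tw_apply, tw1_tw_apply, map_add, map_add, tw1_theta_mul, tw1_theta_mul, e1, e2,
    mul_add, mul_add, mul_left_comm (toL (h u)) (toL (h v)) x]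
  abel

theorem Dt_Dt {ga : ι → R} {h : ι → MvPolynomial ι R}
    (hs : ∀ u v (m : ι →₀ ℕ), (m u : R) * (h v).coeff m = (m v : R) * (h u).coeff m)
    (ξ : Finset ι → Lau ι R) : Dt ga h (Dt ga h ξ) = 0 :=
  kos_kos (fun u v x => tw_comm hs u v x) ξ

private theorem tw1_deg_sub (C : CType ι) (a b : ι → ℤ) :
    C.deg (fun v => a v - b v) = C.deg a - C.deg b := by
  simp only [CType.deg, mul_sub, Finset.sum_sub_distrib]

private theorem tw1_thr_erase (C : CType ι) {u v : ι} (h : u ≠ v) (A : Finset ι) :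
    C.thr u A = C.thr u (A.erase v) := by
  unfold CType.thr
  have : u ∈ A.erase v ↔ u ∈ A := by simp [Finset.mem_erase, h]
  simp only [this]

private theorem tw1_thr_le_one (C : CType ι) (v : ι) (A : Finset ι) : C.thr v A ≤ 1 := by
  unfold CType.thr
  split_ifs <;> norm_num

theorem Dt_mem_KT {C : CType ι} {ga : ι → R} {δ : ℤ} (hga : GaOK C ga δ)
    {h : ι → MvPolynomial ι R}
    (hm : ∀ v (m : ι →₀ ℕ), (h v).coeff m ≠ 0 → C.deg (fun u => (m u : ℤ)) = 0 ∧ 1 ≤ m v)
    {j : ℤ} {ξ : Finset ι → Lau ι R} (hξ : ξ ∈ KT R C ∅ δ j) :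
    Dt ga h ξ ∈ KT R C ∅ δ (j + 1) := by
  intro A e he
  have h1 : Dt ga h ξ A = ∑ v ∈ A, sg v A • tw ga h v (ξ (A.erase v)) := kos_apply _ _ _
  rw [h1, tw1_coeff_sum] at he
  obtain ⟨v, hv, h2⟩ := Finset.exists_ne_zero_of_sum_ne_zero he
  rw [tw1_coeff_zsmul] at h2
  have h3 : (tw ga h v (ξ (A.erase v))).coeff e ≠ 0 := by
    intro h4
    rw [h4, smul_zero] at h2
    exact h2 rfl
  have hcard := Finset.card_erase_add_one hv
  rw [tw_coeff] at h3
  by_cases h4 : ((e v : R) + ga v) * (ξ (A.erase v)).coeff e = 0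
  · rw [h4, zero_add] at h3
    obtain ⟨m, _, h5⟩ := Finset.exists_ne_zero_of_sum_ne_zero h3
    have h6 := left_ne_zero_of_mul h5
    have h7 := right_ne_zero_of_mul h5
    obtain ⟨d1, d2⟩ := hm v m h6
    obtain ⟨c1, c2, c3⟩ := hξ _ _ h7
    refine ⟨?_, ?_, fun u hu => ?_⟩
    · rw [← c1, ← hcard]
      push_cast
      rfl
    · have := tw1_deg_sub C e (fun v => (m v : ℤ))
      rw [c2, d1] at this
      linarith
    · have h8 := c3 u hu
      have h9 : (0 : ℤ) ≤ (m u : ℤ) := by positivity
      by_cases huv : u = v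
      · subst huv
        have h10 := thr_nonneg C u (A.erase u)
        have h11 := tw1_thr_le_one C u A
        have h12 : (1 : ℤ) ≤ (m u : ℤ) := by exact_mod_cast d2
        linarith
      · rw [tw1_thr_erase C huv]
        linarith
  · have h6 := left_ne_zero_of_mul h4
    have h7 := right_ne_zero_of_mul h4
    obtain ⟨c1, c2, c3⟩ := hξ _ _ h7
    refine ⟨?_, c2, fun u hu => ?_⟩
    · rw [← c1, ← hcard]
      push_cast
      rfl
    · have h8 := c3 u hu
      by_cases huv : u = v
      · subst huv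
        have h10 := thr_nonneg C u (A.erase u)
        by_cases hY : u ∈ C.Ys
        · have h11 : C.thr u A = 0 := if_neg (fun h => h.2 hY)
          rw [h11]
          linarith
        · rw [hga.h0 u hY, add_zero] at h6
          have h12 : e u ≠ 0 := fun h => h6 (by rw [h, Int.cast_zero])
          have h13 := tw1_thr_le_one C u A
          have h14 : 1 ≤ e u := by omega
          linarith
      · rw [tw1_thr_erase C huv]
        exact h8

theorem eul_Dt {C : CType ι} {ga : ι → R} {δ : ℤ} (hga : GaOK C ga δ)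
    {h : ι → MvPolynomial ι R} (he : ∑ v, (C.wd v : R) • h v = 0)
    {j : ℤ} {ξ : Finset ι → Lau ι R} (hξ : ξ ∈ KT R C ∅ δ j) :
    eul R C (Dt ga h ξ) = - Dt ga h (eul R C ξ) := by
  have h1 : eul R C (Dt ga h ξ) + Dt ga h (eul R C ξ) =
      mp R (∑ v, (C.wd v : R) • tw ga h v) ξ := eul_kos C (tw ga h) ξ
  have h2 : mp R (∑ v, (C.wd v : R) • tw ga h v) ξ = 0 := by
    funext A
    refine lau_ext fun e => ?_
    have h3 : mp R (∑ v, (C.wd v : R) • tw ga h v) ξ A =
        ∑ v, ((C.wd v : R) • diag R (fun e => (e v : R) + ga v) (ξ A)) +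
          toL (∑ v, (C.wd v : R) • h v) * ξ A := by
      show (∑ v, (C.wd v : R) • tw ga h v) (ξ A) = _
      rw [LinearMap.sum_apply, map_sum, Finset.sum_mul, ← Finset.sum_add_distrib]
      refine Finset.sum_congr rfl fun v _ => ?_
      rw [LinearMap.smul_apply, tw1_tw_apply, smul_add, map_smul, smul_mul_assoc]
    rw [h3, he, map_zero, zero_mul, add_zero, tw1_coeff_sum]
    have h4 : ∀ v, ((C.wd v : R) • diag R (fun e => (e v : R) + ga v) (ξ A)).coeff e =
        ((C.wd v : R) * ((e v : R) + ga v)) * (ξ A).coeff e := by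
      intro v
      have h5 : ((C.wd v : R) • diag R (fun e => (e v : R) + ga v) (ξ A)).coeff e =
          (C.wd v : R) • (diag R (fun e => (e v : R) + ga v) (ξ A)).coeff e :=
        map_smul (tw1cf e) _ _
      rw [h5, diag_coeff, smul_eq_mul, mul_assoc]
    simp only [h4]
    rw [← Finset.sum_mul]
    by_cases h5 : (ξ A).coeff e = 0
    · rw [h5, mul_zero]
      rfl
    · have h6 : C.deg e = δ := (hξ A e h5).2.1
      have h7 : ∑ v, ((C.wd v : R) * ((e v : R) + ga v)) = 0 := by
        simp only [mul_add, Finset.sum_add_distrib]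
        have h8 : (∑ v, (C.wd v : R) * (e v : R)) = (δ : R) := by
          rw [← h6, CType.deg]
          push_cast
          rfl
        rw [h8]
        exact hga.hδ
      rw [h7, zero_mul]
      rfl
  rw [h2] at h1
  exact eq_neg_of_add_eq_zero_left h1

end

end HN
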