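import Pool.Agent.HN.PPsi
import Pool.Agent.HN.Tw1

/-! # HN/SP : Laurent polynomials with nonnegative exponents as power series (module HND-21)

PLAN.  Coefficientwise.  `sP_mul`: `(toL g * f).coeff (zz m) = ∑_{a ∈ g.support} g_a f_(zz m - zz a)`
(`toL_mul_coeff`), only `a ≤ m` matter (otherwise the exponent `zz m - zz a` is not `≥ 0`, so the
coefficient of `f` vanishes), and `MvPowerSeries.coeff_mul` over the antidiagonal.
`sP_tw`: `diag_coeff`, `sP_mul`.
`bx_finite`: exponents `e ≥ 0` with `deg e = δ`, `wt e < N`: the `e v`, `v ∉ Xs`, are `≤ N`, and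
`∑_{v ∈ Xs} e v = δ - ∑_{v ∉ Xs} wd v * e v` is bounded, so `e` lies in a finite box
(`Set.Finite.subset (Set.finite_Icc _ _)`).
-/

open MvPolynomial

namespace HN

section
variable {ι : Type*} [Fintype ι] [DecidableEq ι] {R : Type*} [CommRing R]

theorem zz_add (m n : ι →₀ ℕ) : zz (m + n) = fun v => zz m v + zz n v := by
  funext v
  simp [zz]

theorem zz_nn {e : ι → ℤ} (he : ∀ v, 0 ≤ e v) : zz (nn e) = e := by
  funext v
  show (((nn e) v : ℕ) : ℤ) = e v
  unfold nn
  rw [fs_apply, Int.toNat_of_nonneg (he v)]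

theorem nn_zz (m : ι →₀ ℕ) : nn (zz m) = m := by
  ext v
  unfold nn zz
  rw [fs_apply, Int.toNat_natCast]

/-- Laurent polynomials as power series (negative exponents are forgotten) -/
noncomputable def sP : Lau ι R →ₗ[R] MvPowerSeries ι R where
  toFun f := (fun m => f.coeff (zz m) : (ι →₀ ℕ) → R)
  map_add' f g := by
    ext m
    change (f + g).coeff (zz m) = f.coeff (zz m) + g.coeff (zz m)
    simp
  map_smul' c f := by
    ext m
    change (c • f).coeff (zz m) = c * f.coeff (zz m)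
    simp

theorem coeff_sP (f : Lau ι R) (m : ι →₀ ℕ) : MvPowerSeries.coeff m (sP f) = f.coeff (zz m) := rfl

/-- exponents `≥ 0` -/
def Nonneg (f : Lau ι R) : Prop := ∀ e, f.coeff e ≠ 0 → ∀ v, 0 ≤ e v

theorem sP_inj {f g : Lau ι R} (hf : Nonneg f) (hg : Nonneg g) (h : sP f = sP g) : f = g := by
  refine lau_ext fun e => ?_
  by_cases he : ∀ v, 0 ≤ e v
  · have h1 : MvPowerSeries.coeff (nn e) (sP f) = MvPowerSeries.coeff (nn e) (sP g) := by rw [h]
    rw [coeff_sP, coeff_sP, zz_nn he] at h1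
    exact h1
  · have h1 : f.coeff e = 0 := by
      by_contra h1
      exact he (hf e h1)
    have h2 : g.coeff e = 0 := by
      by_contra h2
      exact he (hg e h2)
    rw [h1, h2]

theorem sP_mul (g : MvPolynomial ι R) {f : Lau ι R} (hf : Nonneg f) :
    sP (toL g * f) = (g : MvPowerSeries ι R) * sP f := by
  have hg : (g : MvPowerSeries ι R) = ∑ a ∈ g.support, MvPowerSeries.monomial a (g.coeff a) := by
    ext m
    rw [MvPolynomial.coeff_coe, map_sum]
    simp only [MvPowerSeries.coeff_monomial]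
    rw [Finset.sum_ite_eq]
    split_ifs with h
    · rfl
    · exact MvPolynomial.notMem_support_iff.1 h
  ext m
  rw [coeff_sP, toL_mul_coeff, hg, Finset.sum_mul, map_sum]
  refine Finset.sum_congr rfl fun a _ => ?_
  rw [MvPowerSeries.coeff_monomial_mul]
  split_ifs with h
  · rw [coeff_sP]
    congr 2
    funext v
    have hv : a v ≤ m v := h v
    simp only [zz, Finsupp.tsub_apply]
    rw [Nat.cast_sub hv]
  · have h0 : f.coeff (fun v => zz m v - (a v : ℤ)) = 0 := by
      by_contra h1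
      apply h
      intro v
      have h2 := hf _ h1 v
      simp only [zz] at h2
      omega
    rw [h0, mul_zero]

theorem sP_mon {e : ι → ℤ} (he : ∀ v, 0 ≤ e v) :
    sP (mon R e) = MvPowerSeries.monomial (nn e) 1 := by
  ext m
  rw [coeff_sP, MvPowerSeries.coeff_monomial]
  unfold mon
  rw [AddMonoidAlgebra.coeff_single, Finsupp.single_apply]
  have h : e = zz m ↔ m = nn e := by
    constructor
    · rintro rfl
      exact (nn_zz m).symm
    · rintro rfl
      exact (zz_nn he).symm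
  by_cases hm : m = nn e
  · rw [if_pos hm, if_pos (h.2 hm)]
  · rw [if_neg hm, if_neg (fun h' => hm (h.1 h'))]

theorem sP_tw (ga : ι → R) (h : ι → MvPolynomial ι R) (v : ι) {f : Lau ι R} (hf : Nonneg f) :
    sP (tw ga h v f) = twP ga h v (sP f) := by
  have h1 : tw ga h v f = diag R (fun e => (e v : R) + ga v) f + toL (h v) * f := rfl
  rw [h1, map_add, sP_mul (h v) hf]
  unfold twP
  congr 1
  ext m
  rw [coeff_sP, diag_coeff, map_add, coeff_thP, coeff_sP, MvPowerSeries.coeff_smul, coeff_sP]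
  have h2 : ((zz m v : ℤ) : R) = (m v : R) := by simp [zz]
  rw [h2, add_mul]

theorem nonneg_tw (ga : ι → R) (h : ι → MvPolynomial ι R) (v : ι) {f : Lau ι R} (hf : Nonneg f) :
    Nonneg (tw ga h v f) := by
  have h1 : tw ga h v f = diag R (fun e => (e v : R) + ga v) f + toL (h v) * f := rfl
  intro e he u
  rw [h1, AddMonoidAlgebra.coeff_add, Finsupp.add_apply, diag_coeff, toL_mul_coeff] at he
  by_cases h2 : ((e v : R) + ga v) * f.coeff e = 0
  · rw [h2, zero_add] at he
    obtain ⟨m, _, h3⟩ := Finset.exists_ne_zero_of_sum_ne_zero he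
    have h4 := hf _ (right_ne_zero_of_mul h3) u
    have h5 : (0 : ℤ) ≤ (m u : ℤ) := by positivity
    linarith
  · exact hf e (right_ne_zero_of_mul h2) u

theorem bx_finite (C : CType ι) (δ : ℤ) (N : ℕ) :
    {e : ι → ℤ | C.deg e = δ ∧ (∀ v, 0 ≤ e v) ∧ C.wt e < N}.Finite := by
  set B : ℤ := |δ| + N * ∑ v, |C.wd v| + N with hB
  refine (Set.finite_Icc (0 : ι → ℤ) (fun _ => B)).subset ?_
  rintro e ⟨hd, hn, hw⟩
  have hS : 0 ≤ ∑ v, |C.wd v| := Finset.sum_nonneg fun v _ => abs_nonneg _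
  have hN : (0 : ℤ) ≤ N := by positivity
  have h1 : ∀ v, v ∉ C.Xs → e v ≤ N := by
    intro v hv
    have : e v ≤ C.wt e := by
      unfold CType.wt
      exact Finset.single_le_sum (f := e) (fun u _ => hn u) (Finset.mem_compl.2 hv)
    linarith
  have h2 : ∑ v ∈ C.Xs, e v ≤ |δ| + N * ∑ v, |C.wd v| := by
    have h3 : C.deg e = ∑ v ∈ C.Xs, e v + ∑ v ∈ C.Xsᶜ, C.wd v * e v := by
      unfold CType.deg
      rw [← Finset.sum_add_sum_compl C.Xs]
      congr 1
      refine Finset.sum_congr rfl fun v hv => ?_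
      rw [C.hX v hv, one_mul]
    have h4 : -(∑ v ∈ C.Xsᶜ, C.wd v * e v) ≤ N * ∑ v, |C.wd v| := by
      rw [← Finset.sum_neg_distrib, Finset.mul_sum]
      calc ∑ v ∈ C.Xsᶜ, -(C.wd v * e v) ≤ ∑ v ∈ C.Xsᶜ, (N : ℤ) * |C.wd v| := by
            refine Finset.sum_le_sum fun v hv => ?_
            have h5 := h1 v (Finset.mem_compl.1 hv)
            have h6 : -C.wd v ≤ |C.wd v| := neg_le_abs _
            have h7 := hn v
            nlinarith [abs_nonneg (C.wd v)]
        _ ≤ ∑ v, (N : ℤ) * |C.wd v| :=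
            Finset.sum_le_univ_sum_of_nonneg fun v => mul_nonneg hN (abs_nonneg _)
    have h5 : δ ≤ |δ| := le_abs_self _
    rw [hd] at h3
    linarith
  refine ⟨fun v => hn v, fun v => ?_⟩
  show e v ≤ B
  have hab : 0 ≤ |δ| := abs_nonneg _
  have hNS : 0 ≤ (N : ℤ) * ∑ v, |C.wd v| := mul_nonneg hN hS
  by_cases hv : v ∈ C.Xs
  · have h3 : e v ≤ ∑ v ∈ C.Xs, e v := Finset.single_le_sum (f := e) (fun u _ => hn u) hv
    linarith
  · have := h1 v hv
    linarith

/-- exponents `≥ 0` of degree `δ` and weight `< N` -/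
noncomputable def bx (C : CType ι) (δ : ℤ) (N : ℕ) : Finset (ι → ℤ) :=
  (bx_finite C δ N).toFinset

theorem mem_bx {C : CType ι} {δ : ℤ} {N : ℕ} {e : ι → ℤ} :
    e ∈ bx C δ N ↔ C.deg e = δ ∧ (∀ v, 0 ≤ e v) ∧ C.wt e < N := by
  simp [bx]

end

end HN
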