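import Mathlib

/-! # HN/STr : supertraces (module HND-13)

PLAN.  `tr_comm`: choose a finite `S ⊆ I` with `A (b k) = 0` for `k ∉ S`, and a finite `S' ⊆ I'` containing
the supports of all `b'.repr (A (b k))`, `k ∈ S`.  Expanding `X (b' i) = ∑_k b.repr (X (b' i)) k • b k`
(only `k ∈ S` matter after applying `A`) gives
`b'.repr (A (X (b' i))) i = ∑_{k ∈ S} b.repr (X (b' i)) k * b'.repr (A (b k)) i`, which vanishes for
`i ∉ S'`; expanding `A (b k) = ∑_{i ∈ S'} b'.repr (A (b k)) i • b' i`,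
`b.repr (X (A (b k))) k = ∑_{i ∈ S'} b'.repr (A (b k)) i * b.repr (X (b' i)) k`, which vanishes for
`k ∉ S`.  Both finsums are the same double sum over `S' × S`, with `s' i = ε * s k` whenever
`b'.repr (A (b k)) i ≠ 0`.
`str_homotopy`: `str Φ = str (Φ D h) + str (Φ h D) + str (Φ g q)` (finsums of functions with finite
support: `Φ X` has only finitely many nonzero diagonal entries, see `fin_diag`), and
`str (Φ D h) = str ((D Φ) h) = - str (h (D Φ)) = - str ((h D) Φ) = - str (Φ (h D))` by `tr_comm`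
(`A = D Φ` odd, `ε = -1`; `A = Φ` even, `ε = 1`; both have `A (b k) = 0` outside a finite set).
-/

namespace HN

section
variable {R V V' I I' : Type*} [CommRing R] [AddCommGroup V] [Module R V] [AddCommGroup V']
  [Module R V']

/-- a finite-rank type operator: it kills almost all basis vectors -/
def FinCol (b : Module.Basis I R V) (A : V →ₗ[R] V') : Prop :=
  ∃ S : Finset I, ∀ i, i ∉ S → A (b i) = 0

/-- weighted trace (supertrace) -/
noncomputable def str (b : Module.Basis I R V) (s : I → R) (T : V →ₗ[R] V) : R :=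
  ∑ᶠ i, s i * b.repr (T (b i)) i

theorem FinCol.apply_eq {b : Module.Basis I R V} {A : V →ₗ[R] V'} {S : Finset I}
    (hS : ∀ i, i ∉ S → A (b i) = 0) (v : V) :
    A v = ∑ k ∈ S, b.repr v k • A (b k) := by
  classical
  have h1 : v = (b.repr v).sum fun k c => c • b k := by
    conv_lhs => rw [← b.linearCombination_repr v]
    rfl
  have h2 : A v = ∑ k ∈ (b.repr v).support, b.repr v k • A (b k) := by
    conv_lhs => rw [h1]
    rw [Finsupp.sum, map_sum]
    exact Finset.sum_congr rfl fun k _ => by rw [map_smul]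
  rw [h2]
  have h3 : ∑ k ∈ (b.repr v).support, b.repr v k • A (b k) =
      ∑ k ∈ (b.repr v).support ∪ S, b.repr v k • A (b k) := by
    refine Finset.sum_subset Finset.subset_union_left fun k _ hk => ?_
    rw [Finsupp.notMem_support_iff.1 hk, zero_smul]
  have h4 : ∑ k ∈ S, b.repr v k • A (b k) =
      ∑ k ∈ (b.repr v).support ∪ S, b.repr v k • A (b k) := by
    refine Finset.sum_subset Finset.subset_union_right fun k _ hk => ?_
    rw [hS k hk, smul_zero]
  rw [h3, h4]

theorem FinCol.exists_supp {b : Module.Basis I R V} (b' : Module.Basis I' R V') {A : V →ₗ[R] V'}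
    {S : Finset I} (hS : ∀ i, i ∉ S → A (b i) = 0) :
    ∃ S' : Finset I', ∀ v i, i ∉ S' → b'.repr (A v) i = 0 := by
  classical
  refine ⟨S.biUnion fun k => (b'.repr (A (b k))).support, fun v i hi => ?_⟩
  rw [FinCol.apply_eq hS v, map_sum, Finsupp.finsetSum_apply]
  refine Finset.sum_eq_zero fun k hk => ?_
  rw [map_smul, Finsupp.smul_apply]
  have : b'.repr (A (b k)) i = 0 := by
    by_contra h
    exact hi (Finset.mem_biUnion.2 ⟨k, hk, Finsupp.mem_support_iff.2 h⟩)
  rw [this, smul_zero]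

theorem fin_diag {b : Module.Basis I R V} {b' : Module.Basis I' R V'} {A : V →ₗ[R] V'}
    (hA : FinCol b A) (X : V' →ₗ[R] V) :
    {i | b'.repr (A (X (b' i))) i ≠ 0}.Finite ∧ {k | b.repr (X (A (b k))) k ≠ 0}.Finite := by
  obtain ⟨S, hS⟩ := hA
  obtain ⟨S', hS'⟩ := FinCol.exists_supp b' hS
  constructor
  · refine S'.finite_toSet.subset fun i hi => ?_
    by_contra h
    exact hi (hS' _ i h)
  · refine S.finite_toSet.subset fun k hk => ?_
    by_contra h
    apply hk
    rw [hS k h, map_zero, map_zero]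
    rfl

theorem tr_comm {b : Module.Basis I R V} {b' : Module.Basis I' R V'} {A : V →ₗ[R] V'}
    (hA : FinCol b A) (X : V' →ₗ[R] V) {s : I → R} {s' : I' → R} {ε : R}
    (hs : ∀ i k, b'.repr (A (b k)) i ≠ 0 → s' i = ε * s k) :
    str b' s' (A ∘ₗ X) = ε * str b s (X ∘ₗ A) := by
  classical
  obtain ⟨S, hS⟩ := hA
  obtain ⟨S', hS'⟩ := FinCol.exists_supp b' hS
  have e1 : str b' s' (A ∘ₗ X) =
      ∑ i ∈ S', ∑ k ∈ S, s' i * (b.repr (X (b' i)) k * b'.repr (A (b k)) i) := by
    unfold str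
    rw [finsum_eq_sum_of_support_subset (s := S')]
    · refine Finset.sum_congr rfl fun i _ => ?_
      rw [LinearMap.comp_apply, FinCol.apply_eq hS (X (b' i)), map_sum, Finsupp.finsetSum_apply,
        Finset.mul_sum]
      refine Finset.sum_congr rfl fun k _ => ?_
      rw [map_smul, Finsupp.smul_apply, smul_eq_mul]
    · intro i hi
      by_contra h
      apply hi
      change s' i * b'.repr ((A ∘ₗ X) (b' i)) i = 0
      rw [LinearMap.comp_apply, hS' _ i h, mul_zero]
  have e2 : str b s (X ∘ₗ A) =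
      ∑ k ∈ S, ∑ i ∈ S', s k * (b'.repr (A (b k)) i * b.repr (X (b' i)) k) := by
    unfold str
    rw [finsum_eq_sum_of_support_subset (s := S)]
    · refine Finset.sum_congr rfl fun k _ => ?_
      have h1 : A (b k) = ∑ i ∈ S', b'.repr (A (b k)) i • b' i := by
        conv_lhs => rw [← b'.linearCombination_repr (A (b k))]
        rw [Finsupp.linearCombination_apply, Finsupp.sum]
        refine Finset.sum_subset (fun i hi => ?_) fun i _ hi => ?_
        · by_contra h
          exact (Finsupp.mem_support_iff.1 hi) (hS' _ i h)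
        · rw [Finsupp.notMem_support_iff.1 hi, zero_smul]
      have h2 : X (A (b k)) = ∑ i ∈ S', b'.repr (A (b k)) i • X (b' i) := by
        conv_lhs => rw [h1]
        rw [map_sum]
        exact Finset.sum_congr rfl fun i _ => by rw [map_smul]
      rw [LinearMap.comp_apply, h2, map_sum, Finsupp.finsetSum_apply, Finset.mul_sum]
      refine Finset.sum_congr rfl fun i _ => ?_
      rw [map_smul, Finsupp.smul_apply, smul_eq_mul]
    · intro k hk
      by_contra h
      apply hk
      change s k * b.repr ((X ∘ₗ A) (b k)) k = 0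
      rw [LinearMap.comp_apply, hS k h, map_zero, map_zero, Finsupp.zero_apply, mul_zero]
  rw [e1, e2, Finset.sum_comm, Finset.mul_sum]
  refine Finset.sum_congr rfl fun k _ => ?_
  rw [Finset.mul_sum]
  refine Finset.sum_congr rfl fun i _ => ?_
  by_cases h : b'.repr (A (b k)) i = 0
  · rw [h]
    ring
  · rw [hs i k h]
    ring

/-- the supertrace of a chain map is computed on the homology -/
theorem str_homotopy {b : Module.Basis I R V} {s : I → R} {D h Φ : V →ₗ[R] V}
    {J : Type*} [Fintype J] [DecidableEq J] {g : (J → R) →ₗ[R] V} {q : V →ₗ[R] (J → R)} {t : J → R}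
    (hD : ∀ i k, b.repr (D (b k)) i ≠ 0 → s i = - s k)
    (hΦ : ∀ i k, b.repr (Φ (b k)) i ≠ 0 → s i = s k)
    (hq : ∀ i j, q (b i) j ≠ 0 → s i = t j)
    (hfin : FinCol b Φ) (hcomm : ∀ x, Φ (D x) = D (Φ x))
    (hhom : ∀ x, D (h x) + h (D x) = x - g (q x)) :
    str b s Φ = ∑ j, t j * q (Φ (g (Pi.single j 1))) j := by
  classical
  have fin_of : ∀ X : V →ₗ[R] V,
      (Function.support fun i => s i * b.repr ((Φ ∘ₗ X) (b i)) i).Finite := by
    intro X
    refine (fin_diag (b' := b) hfin X).1.subset fun i hi => ?_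
    intro h
    apply hi
    change s i * b.repr (Φ (X (b i))) i = 0
    rw [h, mul_zero]
  have sum3 : str b s Φ =
      str b s (Φ ∘ₗ (D ∘ₗ h)) + str b s (Φ ∘ₗ (h ∘ₗ D)) + str b s (Φ ∘ₗ (g ∘ₗ q)) := by
    unfold str
    rw [← finsum_add_distrib (fin_of _) (fin_of _), ← finsum_add_distrib _ (fin_of _)]
    · refine finsum_congr fun i => ?_
      have h1 : b i = D (h (b i)) + h (D (b i)) + g (q (b i)) := by
        rw [hhom]
        abel
      have h2 : Φ (b i) = Φ (D (h (b i))) + Φ (h (D (b i))) + Φ (g (q (b i))) := by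
        conv_lhs => rw [h1]
        rw [map_add, map_add]
      conv_lhs => rw [h2]
      rw [map_add, map_add, Finsupp.add_apply, Finsupp.add_apply, mul_add, mul_add]
      rfl
    · exact ((fin_of (D ∘ₗ h)).union (fin_of (h ∘ₗ D))).subset (Function.support_add _ _)
  have hDΦ : FinCol b (D ∘ₗ Φ) := by
    obtain ⟨S, hS⟩ := hfin
    exact ⟨S, fun i hi => by rw [LinearMap.comp_apply, hS i hi, map_zero]⟩
  have a1 : str b s (Φ ∘ₗ (D ∘ₗ h)) = -1 * str b s (h ∘ₗ (D ∘ₗ Φ)) := by
    have : Φ ∘ₗ (D ∘ₗ h) = (D ∘ₗ Φ) ∘ₗ h := by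
      ext x
      exact hcomm _
    rw [this]
    refine tr_comm hDΦ h fun i k hik => ?_
    have h1 : D (Φ (b k)) = ∑ l ∈ (b.repr (Φ (b k))).support, b.repr (Φ (b k)) l • D (b l) := by
      conv_lhs => rw [← b.linearCombination_repr (Φ (b k))]
      rw [Finsupp.linearCombination_apply, Finsupp.sum, map_sum]
      exact Finset.sum_congr rfl fun l _ => by rw [map_smul]
    rw [LinearMap.comp_apply, h1, map_sum, Finsupp.finsetSum_apply] at hik
    obtain ⟨l, hl, hl2⟩ := Finset.exists_ne_zero_of_sum_ne_zero hik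
    rw [map_smul, Finsupp.smul_apply, smul_eq_mul] at hl2
    have h3 := hD i l (right_ne_zero_of_mul hl2)
    have h4 := hΦ l k (Finsupp.mem_support_iff.1 hl)
    rw [h3, h4]
    ring
  have a2 : str b s (Φ ∘ₗ (h ∘ₗ D)) = 1 * str b s ((h ∘ₗ D) ∘ₗ Φ) := by
    refine tr_comm hfin _ fun i k hik => ?_
    rw [hΦ i k hik, one_mul]
  have a3 : str b s (Φ ∘ₗ (g ∘ₗ q)) = 1 * str b s ((g ∘ₗ q) ∘ₗ Φ) := by
    refine tr_comm hfin _ fun i k hik => ?_
    rw [hΦ i k hik, one_mul]
  have hqΦ : FinCol b (q ∘ₗ Φ) := by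
    obtain ⟨S, hS⟩ := hfin
    exact ⟨S, fun i hi => by rw [LinearMap.comp_apply, hS i hi, map_zero]⟩
  have a4 : str (Pi.basisFun R J) t ((q ∘ₗ Φ) ∘ₗ g) = 1 * str b s (g ∘ₗ (q ∘ₗ Φ)) := by
    refine tr_comm hqΦ g fun j k hjk => ?_
    rw [one_mul]
    have h1 : q (Φ (b k)) = ∑ l ∈ (b.repr (Φ (b k))).support, b.repr (Φ (b k)) l • q (b l) := by
      conv_lhs => rw [← b.linearCombination_repr (Φ (b k))]
      rw [Finsupp.linearCombination_apply, Finsupp.sum, map_sum]
      exact Finset.sum_congr rfl fun l _ => by rw [map_smul]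
    rw [Pi.basisFun_repr, LinearMap.comp_apply, h1, Finset.sum_apply] at hjk
    obtain ⟨l, hl, hl2⟩ := Finset.exists_ne_zero_of_sum_ne_zero hjk
    rw [Pi.smul_apply, smul_eq_mul] at hl2
    have h3 := hq l j (right_ne_zero_of_mul hl2)
    have h4 := hΦ l k (Finsupp.mem_support_iff.1 hl)
    rw [← h3, h4]
  have a5 : str (Pi.basisFun R J) t ((q ∘ₗ Φ) ∘ₗ g) =
      ∑ j, t j * q (Φ (g (Pi.single j 1))) j := by
    unfold str
    rw [finsum_eq_sum_of_fintype]
    refine Finset.sum_congr rfl fun j _ => ?_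
    rw [Pi.basisFun_repr, Pi.basisFun_apply]
    rfl
  have e1 : h ∘ₗ (D ∘ₗ Φ) = (h ∘ₗ D) ∘ₗ Φ := rfl
  have e2 : (g ∘ₗ q) ∘ₗ Φ = g ∘ₗ (q ∘ₗ Φ) := rfl
  rw [sum3, a1, a2, a3, e1, e2, ← a5, a4]
  ring

end

end HN
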