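import Pool.Agent.HN.TwR1

/-! # HN/TwR3 : reduction with control of the weights (module HND-11)

PLAN.  `Sit.span_w`: for all `i` there are `c`, `η`, `ξ'` in the right pieces with
`ξ = ∑ c e • bas e + Mk (H.G 0) η + p^i • ξ'` (induction on `i`: reduce `ξ'` modulo `p` (`rd_mem_KW`),
apply `GB.span` over `F`, lift (`W.τ` for the `c e`, `rd_lift_KW` for `η`), and
`rd_eq_zero_KW`; `rd W.π (Mk (H.G 0) η) = Mk (fun v => X v * pderiv v f) (rd W.π η) = Dk f (rd W.π η)` by
`rd_Mk`, `Sit.red`).  Take `i = k`, `p^k = 0`.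
`Sit.reduce`: induction on the pair (`k - v`, `w`) (e.g. outer induction on `n = k - v`, inner on a bound
for `w`; for `v ≥ k` everything is `0`, for `w < 0` `ξ = 0` because weights are `≥ 0`; the zero form
has `c = 0`, `η = 0`).  `span_w`: `ξ = ∑_{wt e = w} c e • bas e + Mk (H.G 0) τ`, `τ ∈ KW (card-1) (w-1)`;
by `Dt_H` (`H.c 0 = 1`, `1 ≤ k`) `Mk (H.G 0) τ = Dt τ - D0 τ - ∑_{1 ≤ i < k} c_i • Mk (H.G i) τ`;
`p^v • D0 τ`: weight `w - 1` (`D0_mem_KW`), induction; `c_i = p^(p^i-1) c'`,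
`p^v c_i • Mk (H.G i) τ = c' • p^(v+p^i-1) • (..)`, weight `w - 1 + p^i` (`Mk_mem_KW`), exponent
`v + p^i - 1 > v`, induction.  Divisibility: `v + (wt e - w + 1).toNat ≥ v + (wt e - w).toNat`;
`v + p^i - 1 + (wt e - (w - 1 + p^i)).toNat ≥ v + (wt e - w).toNat`; for `wt e = w` it is `v`.
`Sit.span`: `ξ` is the finite sum of its weight components `mp R (restr R {e | C.wt e = w}) ξ`
(`mp_restr_wt_mem`), `reduce` with `v = 0`.  `Sit.span_dvd`: the component of weight `w` is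
`p^w • ξ'_w` with `ξ'_w ∈ KW` (divide the nonzero coefficients); `reduce` with `v = w`.
-/

open MvPolynomial

namespace HN

section
variable {ι : Type*} [Fintype ι] [DecidableEq ι] [Ranked ι] {F R : Type*} [Field F] [CommRing R]
variable {C : CType ι} {p k : ℕ} {W : WD p k F R} {f : MvPolynomial ι F} {δ : ℤ}
  {H : TwH C p k R} {ga : ι → R}

omit [Ranked ι] in
private theorem tr3_bas_mem {e : ι → ℤ} {w : ℤ} (h1 : C.deg e = δ)
    (h2 : ∀ v, C.thr v Finset.univ ≤ e v) (h3 : C.wt e = w) :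
    bas R Finset.univ e ∈ KW R C ∅ δ (Fintype.card ι) w := by
  intro A e' h
  by_cases hA : A = Finset.univ
  · subst hA
    have h5 : e' = e := by
      by_contra hne
      apply h
      simp only [bas, Pi.single_eq_same, mon]
      rw [AddMonoidAlgebra.coeff_single, Finsupp.single_apply, if_neg (fun h => hne h.symm)]
    subst h5
    exact ⟨by rw [Finset.card_univ], h1, fun v _ => h2 v, h3⟩
  · exfalso
    apply h
    simp [bas, Pi.single_eq_of_ne hA]

private theorem tr3_pk (W : WD p k F R) : (p : R) ^ k = 0 := by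
  have h := (W.ann k le_rfl 1).mpr (by rw [Nat.sub_self, pow_zero])
  rwa [mul_one] at h

private theorem tr3_Dk (f : MvPolynomial ι F) (η : Finset ι → Lau ι F) :
    Mk (fun v => X v * pderiv v f) η = Dk f η := rfl

/-- one step: reduction modulo `p` -/
private theorem tr3_step (S : Sit C p k W f δ H ga) {Bs : Finset (ι → ℤ)} (hB : GB C f δ Bs)
    {w : ℤ} {ξ : Finset ι → Lau ι R} (hξ : ξ ∈ KW R C ∅ δ (Fintype.card ι) w) :
    ∃ c : (ι → ℤ) → R, ∃ η ∈ KW R C ∅ δ ((Fintype.card ι : ℤ) - 1) (w - 1),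
      ∃ ξ' ∈ KW R C ∅ δ (Fintype.card ι) w,
      ξ = ∑ e ∈ Bs.filter (fun e => C.wt e = w), c e • bas R Finset.univ e
        + Mk (H.G 0) η + (p : R) • ξ' := by
  obtain ⟨cF, ηF, hηF, hF⟩ := hB.span w (rd W.π ξ) (rd_mem_KW W.π hξ)
  have hsurj : Function.Surjective W.π := fun x => ⟨W.τ x, W.πτ x⟩
  obtain ⟨η, hη, hηe⟩ := rd_lift_KW hsurj hηF
  have hG : Mk (H.G 0) η ∈ KW R C ∅ δ (Fintype.card ι) w := by
    have h1 := Mk_mem_KW (g := H.G 0) (s := (p : ℤ) ^ 0) (fun v m hm => H.hG 0 v m hm) hη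
    have e1 : (Fintype.card ι : ℤ) - 1 + 1 = Fintype.card ι := by ring
    have e2 : w - 1 + (p : ℤ) ^ 0 = w := by rw [pow_zero]; ring
    rwa [e1, e2] at h1
  have hS : ∑ e ∈ Bs.filter (fun e => C.wt e = w), W.τ (cF e) • bas R Finset.univ e ∈
      KW R C ∅ δ (Fintype.card ι) w := by
    refine Submodule.sum_mem _ fun e he => Submodule.smul_mem _ _ ?_
    rw [Finset.mem_filter] at he
    exact tr3_bas_mem (hB.adm e he.1).1 (hB.adm e he.1).2 he.2
  have hz := Submodule.sub_mem _ (Submodule.sub_mem _ hξ hS) hG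
  have hrd : rd W.π (ξ - ∑ e ∈ Bs.filter (fun e => C.wt e = w),
      W.τ (cF e) • bas R Finset.univ e - Mk (H.G 0) η) = 0 := by
    rw [rd_sub, rd_sub, rd_sum, rd_Mk, hηe, hF]
    have h1 : (fun v => map W.π (H.G 0 v)) = fun v => X v * pderiv v f := funext S.red
    rw [h1, tr3_Dk]
    have h2 : ∑ e ∈ Bs.filter (fun e => C.wt e = w),
        rd W.π (W.τ (cF e) • bas R Finset.univ e) =
        ∑ e ∈ Bs.filter (fun e => C.wt e = w), cF e • bas F Finset.univ e := by
      refine Finset.sum_congr rfl fun e _ => ?_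
      rw [rd_smul, W.πτ, rd_bas]
    rw [h2]
    abel
  obtain ⟨ξ', hξ', he⟩ := rd_eq_zero_KW (p := p) (fun x => (W.ker x).1) hz hrd
  refine ⟨fun e => W.τ (cF e), η, hη, ξ', hξ', ?_⟩
  rw [← he]
  abel

private theorem tr3_iter (S : Sit C p k W f δ H ga) {Bs : Finset (ι → ℤ)} (hB : GB C f δ Bs)
    {w : ℤ} (i : ℕ) {ξ : Finset ι → Lau ι R} (hξ : ξ ∈ KW R C ∅ δ (Fintype.card ι) w) :
    ∃ c : (ι → ℤ) → R, ∃ η ∈ KW R C ∅ δ ((Fintype.card ι : ℤ) - 1) (w - 1),
      ∃ ξ' ∈ KW R C ∅ δ (Fintype.card ι) w,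
      ξ = ∑ e ∈ Bs.filter (fun e => C.wt e = w), c e • bas R Finset.univ e
        + Mk (H.G 0) η + (p : R) ^ i • ξ' := by
  induction i with
  | zero =>
    refine ⟨fun _ => 0, 0, Submodule.zero_mem _, ξ, hξ, ?_⟩
    simp
  | succ i ih =>
    obtain ⟨c, η, hη, ξ', hξ', h⟩ := ih
    obtain ⟨c1, η1, hη1, ξ1, hξ1, h1⟩ := tr3_step S hB hξ'
    refine ⟨fun e => c e + (p : R) ^ i * c1 e, η + (p : R) ^ i • η1,
      Submodule.add_mem _ hη (Submodule.smul_mem _ _ hη1), ξ1, hξ1, ?_⟩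
    conv_lhs => rw [h, h1]
    rw [map_add, map_smul, smul_add, smul_add, smul_smul, ← pow_succ]
    have h2 : ∑ e ∈ Bs.filter (fun e => C.wt e = w),
        (c e + (p : R) ^ i * c1 e) • bas R Finset.univ e =
        ∑ e ∈ Bs.filter (fun e => C.wt e = w), c e • bas R Finset.univ e +
        (p : R) ^ i • ∑ e ∈ Bs.filter (fun e => C.wt e = w), c1 e • bas R Finset.univ e := by
      rw [Finset.smul_sum, ← Finset.sum_add_distrib]
      refine Finset.sum_congr rfl fun e _ => ?_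
      rw [add_smul, smul_smul]
    rw [h2]
    abel

theorem Sit.span_w (S : Sit C p k W f δ H ga) {Bs : Finset (ι → ℤ)} (hB : GB C f δ Bs) {w : ℤ}
    {ξ : Finset ι → Lau ι R} (hξ : ξ ∈ KW R C ∅ δ (Fintype.card ι) w) :
    ∃ c : (ι → ℤ) → R, ∃ η ∈ KW R C ∅ δ ((Fintype.card ι : ℤ) - 1) (w - 1),
      ξ = ∑ e ∈ Bs.filter (fun e => C.wt e = w), c e • bas R Finset.univ e
        + Mk (H.G 0) η := by
  obtain ⟨c, η, hη, ξ', hξ', h⟩ := tr3_iter S hB k hξ
  refine ⟨c, η, hη, ?_⟩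
  have hpk : (p : R) ^ k = 0 := tr3_pk W
  rwa [hpk, zero_smul, add_zero] at h

/-- forms which reduce with divisibility of the coefficients -/
private def tr3S (C : CType ι) (p k : ℕ) (δ : ℤ) (H : TwH C p k R) (ga : ι → R)
    (Bs : Finset (ι → ℤ)) (d : (ι → ℤ) → ℕ) : Submodule R (Finset ι → Lau ι R) where
  carrier := {ζ | ∃ c : (ι → ℤ) → R, ∃ η ∈ KT R C ∅ δ ((Fintype.card ι : ℤ) - 1),
    ζ = ∑ e ∈ Bs, c e • bas R Finset.univ e + Dt ga H.h η ∧ ∀ e ∈ Bs, (p : R) ^ d e ∣ c e}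
  zero_mem' := ⟨fun _ => 0, 0, Submodule.zero_mem _, by simp, fun e _ => dvd_zero _⟩
  add_mem' := by
    rintro _ _ ⟨c, η, hη, rfl, hc⟩ ⟨c', η', hη', rfl, hc'⟩
    refine ⟨fun e => c e + c' e, η + η', Submodule.add_mem _ hη hη', ?_,
      fun e he => dvd_add (hc e he) (hc' e he)⟩
    simp only [add_smul, Finset.sum_add_distrib, map_add]
    abel
  smul_mem' := by
    rintro a _ ⟨c, η, hη, rfl, hc⟩
    refine ⟨fun e => a * c e, a • η, Submodule.smul_mem _ _ hη, ?_,
      fun e he => (hc e he).mul_left a⟩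
    rw [smul_add, Finset.smul_sum, map_smul]
    simp only [smul_smul]

private theorem tr3S_mono {Bs : Finset (ι → ℤ)} {d d' : (ι → ℤ) → ℕ}
    (h : ∀ e ∈ Bs, d' e ≤ d e) : tr3S C p k δ H ga Bs d ≤ tr3S C p k δ H ga Bs d' := by
  rintro _ ⟨c, η, hη, rfl, hc⟩
  exact ⟨c, η, hη, rfl, fun e he => (pow_dvd_pow _ (h e he)).trans (hc e he)⟩

private theorem tr3_wt_nonneg {δ' j : ℤ} {ξ : Finset ι → Lau ι R} (hξ : ξ ∈ KT R C ∅ δ' j)
    (A : Finset ι) (e : ι → ℤ) (h : (ξ A).coeff e ≠ 0) : 0 ≤ C.wt e := by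
  have h1 := (hξ A e h).2.2
  exact Finset.sum_nonneg fun v _ => (thr_nonneg C v A).trans (h1 v (Finset.notMem_empty v))

private theorem tr3_neg {w j : ℤ} (hw : w < 0) {ξ : Finset ι → Lau ι R}
    (hξ : ξ ∈ KW R C ∅ δ j w) : ξ = 0 := by
  funext A
  refine lau_ext fun e => ?_
  by_contra hne
  have h1 := hξ A e hne
  have h2 := tr3_wt_nonneg (KW_le_KT C ∅ δ j w hξ) A e hne
  rw [h1.2.2.2] at h2
  omega

private theorem tr3_main (S : Sit C p k W f δ H ga) {Bs : Finset (ι → ℤ)} (hB : GB C f δ Bs)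
    (m : ℕ) : ∀ v : ℕ, k ≤ v + m → ∀ (n : ℕ) (w : ℤ), w < n → ∀ ξ : Finset ι → Lau ι R,
      ξ ∈ KW R C ∅ δ (Fintype.card ι) w →
      (p : R) ^ v • ξ ∈ tr3S C p k δ H ga Bs (fun e => v + (C.wt e - w).toNat) := by
  have hpk : (p : R) ^ k = 0 := tr3_pk W
  induction m with
  | zero =>
    intro v hv n w _ ξ _
    have h1 : (p : R) ^ v = 0 := by
      rw [Nat.add_zero] at hv
      rw [← Nat.add_sub_of_le hv, pow_add, hpk, zero_mul]
    rw [h1, zero_smul]
    exact Submodule.zero_mem _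
  | succ m ihm =>
    intro v hv n
    induction n with
    | zero =>
      intro w hw ξ hξ
      rw [tr3_neg (by simpa using hw) hξ, smul_zero]
      exact Submodule.zero_mem _
    | succ n ihn =>
      intro w hw ξ hξ
      obtain ⟨c, τ, hτ, he⟩ := S.span_w hB hξ
      have hτT : τ ∈ KT R C ∅ δ ((Fintype.card ι : ℤ) - 1) := KW_le_KT _ _ _ _ _ hτ
      have hrange : Finset.range k = insert 0 (Finset.Ico 1 k) := by
        ext x
        simp only [Finset.mem_range, Finset.mem_insert, Finset.mem_Ico]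
        have := S.hk
        omega
      have hDt := Dt_H H ga τ
      rw [hrange, Finset.sum_insert (by simp), H.hc0, one_smul] at hDt
      have hM : Mk (H.G 0) τ = Dt ga H.h τ - D0 ga τ -
          ∑ i ∈ Finset.Ico 1 k, H.c i • Mk (H.G i) τ := by
        rw [hDt]; abel
      have e1 : (Fintype.card ι : ℤ) - 1 + 1 = Fintype.card ι := by ring
      -- the four terms
      have t1 : (p : R) ^ v • ∑ e ∈ Bs.filter (fun e => C.wt e = w), c e • bas R Finset.univ e ∈
          tr3S C p k δ H ga Bs (fun e => v + (C.wt e - w).toNat) := by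
        refine ⟨fun e => if C.wt e = w then (p : R) ^ v * c e else 0, 0, Submodule.zero_mem _,
          ?_, ?_⟩
        · rw [map_zero, add_zero, Finset.smul_sum, Finset.sum_filter]
          refine Finset.sum_congr rfl fun e _ => ?_
          dsimp only
          by_cases h : C.wt e = w
          · rw [if_pos h, if_pos h, smul_smul]
          · rw [if_neg h, if_neg h, zero_smul]
        · intro e _
          dsimp only
          by_cases h : C.wt e = w
          · rw [if_pos h, h, sub_self, Int.toNat_zero, Nat.add_zero]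
            exact dvd_mul_right _ _
          · rw [if_neg h]; exact dvd_zero _
      have t2 : (p : R) ^ v • Dt ga H.h τ ∈
          tr3S C p k δ H ga Bs (fun e => v + (C.wt e - w).toNat) := by
        refine ⟨fun _ => 0, (p : R) ^ v • τ, Submodule.smul_mem _ _ hτT, ?_,
          fun e _ => dvd_zero _⟩
        rw [map_smul]
        simp
      have t3 : (p : R) ^ v • D0 ga τ ∈
          tr3S C p k δ H ga Bs (fun e => v + (C.wt e - w).toNat) := by
        have h1 : D0 ga τ ∈ KW R C ∅ δ (Fintype.card ι) (w - 1) := by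
          have := D0_mem_KW S.hga.h0 hτ
          rwa [e1] at this
        have h2 := ihn (w - 1) (by push_cast at hw ⊢; linarith) _ h1
        refine tr3S_mono (fun e _ => ?_) h2
        omega
      have t4 : (p : R) ^ v • ∑ i ∈ Finset.Ico 1 k, H.c i • Mk (H.G i) τ ∈
          tr3S C p k δ H ga Bs (fun e => v + (C.wt e - w).toNat) := by
        rw [Finset.smul_sum]
        refine Submodule.sum_mem _ fun i hi => ?_
        rw [Finset.mem_Ico] at hi
        obtain ⟨c', hc'⟩ := H.hcd i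
        have hpi : 2 ≤ p ^ i := by
          calc 2 ≤ p := S.hp.two_le
            _ = p ^ 1 := (pow_one p).symm
            _ ≤ p ^ i := Nat.pow_le_pow_right S.hp.pos hi.1
        have h1 : Mk (H.G i) τ ∈ KW R C ∅ δ (Fintype.card ι) (w - 1 + (p : ℤ) ^ i) := by
          have := Mk_mem_KW (g := H.G i) (s := (p : ℤ) ^ i) (fun v m hm => H.hG i v m hm) hτ
          rwa [e1] at this
        have h2 := ihm (v + (p ^ i - 1)) (by omega) (w - 1 + (p : ℤ) ^ i + 1).toNat
          (w - 1 + (p : ℤ) ^ i) (by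
            have := Int.self_le_toNat (w - 1 + (p : ℤ) ^ i + 1)
            linarith) _ h1
        have h3 : (p : R) ^ v • H.c i • Mk (H.G i) τ =
            c' • (p : R) ^ (v + (p ^ i - 1)) • Mk (H.G i) τ := by
          rw [hc', smul_smul, smul_smul, pow_add]
          congr 1
          ring
        rw [h3]
        refine Submodule.smul_mem _ _ (tr3S_mono (fun e _ => ?_) h2)
        have hcast : ((p ^ i : ℕ) : ℤ) = (p : ℤ) ^ i := by push_cast; rfl
        rw [← hcast]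
        omega
      rw [he, hM]
      have h5 : (p : R) ^ v • (∑ e ∈ Bs.filter (fun e => C.wt e = w), c e • bas R Finset.univ e +
          (Dt ga H.h τ - D0 ga τ - ∑ i ∈ Finset.Ico 1 k, H.c i • Mk (H.G i) τ)) =
          (p : R) ^ v • ∑ e ∈ Bs.filter (fun e => C.wt e = w), c e • bas R Finset.univ e +
          ((p : R) ^ v • Dt ga H.h τ - (p : R) ^ v • D0 ga τ -
          (p : R) ^ v • ∑ i ∈ Finset.Ico 1 k, H.c i • Mk (H.G i) τ) := by
        rw [smul_add, smul_sub, smul_sub]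
      rw [h5]
      exact Submodule.add_mem _ t1 (Submodule.sub_mem _ (Submodule.sub_mem _ t2 t3) t4)

private theorem tr3_reduce (S : Sit C p k W f δ H ga) {Bs : Finset (ι → ℤ)} (hB : GB C f δ Bs)
    (v : ℕ) (w : ℤ) {ξ : Finset ι → Lau ι R} (hξ : ξ ∈ KW R C ∅ δ (Fintype.card ι) w) :
    (p : R) ^ v • ξ ∈ tr3S C p k δ H ga Bs (fun e => v + (C.wt e - w).toNat) := by
  refine tr3_main S hB k v (by omega) (w + 1).toNat w ?_ ξ hξ
  have := Int.self_le_toNat (w + 1)
  linarith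

theorem Sit.reduce (S : Sit C p k W f δ H ga) {Bs : Finset (ι → ℤ)} (hB : GB C f δ Bs) (v : ℕ)
    (w : ℤ) {ξ : Finset ι → Lau ι R} (hξ : ξ ∈ KW R C ∅ δ (Fintype.card ι) w) :
    ∃ c : (ι → ℤ) → R, ∃ η ∈ KT R C ∅ δ ((Fintype.card ι : ℤ) - 1),
      (p : R) ^ v • ξ = ∑ e ∈ Bs, c e • bas R Finset.univ e + Dt ga H.h η ∧
      ∀ e ∈ Bs, (p : R) ^ (v + (C.wt e - w).toNat) ∣ c e :=
  tr3_reduce S hB v w hξ

/-- decomposition into weight components -/
private theorem tr3_decomp {δ' j : ℤ} {ξ : Finset ι → Lau ι R} (hξ : ξ ∈ KT R C ∅ δ' j) :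
    ∃ Ws : Finset ℤ, (∀ w ∈ Ws, 0 ≤ w) ∧
      ξ = ∑ w ∈ Ws, mp R (restr R {e | C.wt e = w}) ξ := by
  classical
  refine ⟨(Finset.univ : Finset (Finset ι)).biUnion
    (fun A => (ξ A).coeff.support.image C.wt), ?_, ?_⟩
  · intro w hw
    rw [Finset.mem_biUnion] at hw
    obtain ⟨A, _, hA⟩ := hw
    rw [Finset.mem_image] at hA
    obtain ⟨e, he, rfl⟩ := hA
    exact tr3_wt_nonneg hξ A e (by simpa using he)
  · funext A
    refine lau_ext fun e => ?_
    rw [Finset.sum_apply, AddMonoidAlgebra.coeff_sum, Finsupp.finsetSum_apply]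
    have h1 : ∀ w : ℤ, ((mp R (restr R {e | C.wt e = w}) ξ) A).coeff e =
        if C.wt e = w then (ξ A).coeff e else 0 := by
      intro w
      change (restr R {e | C.wt e = w} (ξ A)).coeff e = _
      rw [restr_coeff]
      rfl
    simp only [h1]
    rw [Finset.sum_ite_eq]
    by_cases he : (ξ A).coeff e = 0
    · rw [he, ite_self]
    · rw [if_pos]
      rw [Finset.mem_biUnion]
      exact ⟨A, Finset.mem_univ A, Finset.mem_image_of_mem _ (by simpa using he)⟩

/-- every top form is a combination of the `bas univ e` modulo exact forms -/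
theorem Sit.span (S : Sit C p k W f δ H ga) {Bs : Finset (ι → ℤ)} (hB : GB C f δ Bs)
    {ξ : Finset ι → Lau ι R} (hξ : ξ ∈ KT R C ∅ δ (Fintype.card ι)) :
    ∃ c : (ι → ℤ) → R, ∃ η ∈ KT R C ∅ δ ((Fintype.card ι : ℤ) - 1),
      ξ = ∑ e ∈ Bs, c e • bas R Finset.univ e + Dt ga H.h η := by
  obtain ⟨Ws, -, hW⟩ := tr3_decomp hξ
  have h1 : ξ ∈ tr3S C p k δ H ga Bs (fun _ => 0) := by
    rw [hW]
    refine Submodule.sum_mem _ fun w _ => ?_
    have h2 := tr3_reduce S hB 0 w (mp_restr_wt_mem w hξ)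
    rw [pow_zero, one_smul] at h2
    exact tr3S_mono (fun e _ => Nat.zero_le _) h2
  obtain ⟨c, η, hη, he, -⟩ := h1
  exact ⟨c, η, hη, he⟩

omit [Ranked ι] in
private theorem tr3_div {δ' j w : ℤ} {r : R} {ξ : Finset ι → Lau ι R}
    (hξ : ξ ∈ KW R C ∅ δ' j w) (hd : ∀ A e, r ∣ (ξ A).coeff e) :
    ∃ ξ' ∈ KW R C ∅ δ' j w, ξ = r • ξ' := by
  classical
  choose g hg using hd
  refine ⟨fun A => AddMonoidAlgebra.ofCoeff (Finsupp.onFinset (ξ A).coeff.support
    (fun e => if (ξ A).coeff e = 0 then 0 else g A e) (by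
      intro e he
      rw [Finsupp.mem_support_iff]
      intro h0
      exact he (if_pos h0))), ?_, ?_⟩
  · intro A e he
    apply hξ A e
    intro h0
    apply he
    change (if (ξ A).coeff e = 0 then 0 else g A e) = 0
    exact if_pos h0
  · funext A
    refine lau_ext fun e => ?_
    rw [Pi.smul_apply, AddMonoidAlgebra.coeff_smul, Finsupp.smul_apply]
    change (ξ A).coeff e = r • (if (ξ A).coeff e = 0 then 0 else g A e)
    by_cases h0 : (ξ A).coeff e = 0
    · rw [if_pos h0, h0, smul_zero]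
    · rw [if_neg h0, smul_eq_mul]
      exact hg A e

/-- forms `∑_w p^w ξ_w` have coefficients divisible by `p^(wt e)` -/
theorem Sit.span_dvd (S : Sit C p k W f δ H ga) {Bs : Finset (ι → ℤ)} (hB : GB C f δ Bs)
    {ξ : Finset ι → Lau ι R} (hξ : ξ ∈ KT R C ∅ δ (Fintype.card ι))
    (hd : ∀ A e, (p : R) ^ (C.wt e).toNat ∣ (ξ A).coeff e) :
    ∃ c : (ι → ℤ) → R, ∃ η ∈ KT R C ∅ δ ((Fintype.card ι : ℤ) - 1),
      ξ = ∑ e ∈ Bs, c e • bas R Finset.univ e + Dt ga H.h η ∧
      ∀ e ∈ Bs, (p : R) ^ (C.wt e).toNat ∣ c e := by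
  classical
  obtain ⟨Ws, hW0, hW⟩ := tr3_decomp hξ
  have h1 : ξ ∈ tr3S C p k δ H ga Bs (fun e => (C.wt e).toNat) := by
    rw [hW]
    refine Submodule.sum_mem _ fun w hw => ?_
    have hw0 := hW0 w hw
    obtain ⟨ξ', hξ', he⟩ := tr3_div (r := (p : R) ^ w.toNat) (mp_restr_wt_mem w hξ) (by
      intro A e
      change _ ∣ (restr R {e | C.wt e = w} (ξ A)).coeff e
      rw [restr_coeff]
      by_cases h : e ∈ {e | C.wt e = w}
      · rw [if_pos h]
        have h' : C.wt e = w := h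
        rw [← h']
        exact hd A e
      · rw [if_neg h]
        exact dvd_zero _)
    rw [he]
    refine tr3S_mono (fun e _ => ?_) (tr3_reduce S hB w.toNat w hξ')
    omega
  exact h1

end

end HN
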