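import Pool.Agent.HN.TwI
import Pool.Agent.HN.TwR3
import Pool.Agent.HN.Al
import Pool.Agent.HN.Fr

/-! # HN/TD : all levels of the twist (module HND-24)

PLAN.  `alOK`: `hϖ`: `(p u)^k = 0` (`W.ann k`), `hP`: `Fh_deg`.  `Ph_mem`, `Ph_D`, `Ph_eul`: `Fr_mem`
(`al_thr`, `al_nonneg`, `al_deg`), `Fr_Dt` (`al_tw`), `Fr_eul`.
`exists_lev`: `Sit.span_dvd` (`mk_sit`) for `ξ = Ph l (bas univ e)` (`Fr_bas`, `al_dvd`).
-/

open MvPolynomial

namespace HN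

section
variable {ι : Type*} [Fintype ι] [DecidableEq ι] [Ranked ι] {F R : Type*} [Field F] [CommRing R]
variable {p k : ℕ} [hp : Fact p.Prime] [Algebra ℤ_[p] R]

/-- the data of all levels: `f l` the Frobenius twists of the polynomial, `τ l` the digits, `ga l` the
exponents, `δ l` the degrees -/
structure TD (C : CType ι) (W : WD p k F R) (f : ℕ → MvPolynomial ι F) (τ : ℕ → ι → ℕ)
    (ga : ℕ → ι → R) (δ : ℕ → ℤ) : Prop where
  hk : 1 ≤ k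
  hF : ∀ l, C.Hom (f l)
  hU : ∀ l, C.UnitCond (f l)
  hf : ∀ l m, (f (l + 1)).coeff m = (f l).coeff m ^ p
  hτ : ∀ l v, τ l v < p
  hτ0 : ∀ l v, v ∉ C.Ys → τ l v = 0
  hga : ∀ l v, (p : R) * ga (l + 1) v = ga l v + τ l v
  hGa : ∀ l, GaOK C (ga l) (δ l)
  hδ0 : ∀ l, 0 < δ l
  hδ1 : ∀ l, δ l < C.dlog
  hδ : ∀ l, (p : ℤ) * δ (l + 1) + ∑ v, C.wd v * τ l v = δ l

/-- the operator `α` of level `l` -/
noncomputable def alL (C : CType ι) (W : WD p k F R) (Pi : PiData p k R)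
    (f : ℕ → MvPolynomial ι F) (τ : ℕ → ι → ℕ) (δ : ℕ → ℤ) (l : ℕ) : Lau ι R →ₗ[R] Lau ι R :=
  al C p ((p : R) * Pi.u) (τ l) (δ (l + 1)) k (Fh W (f l))

/-- the Frobenius of level `l` -/
noncomputable def Ph (C : CType ι) (W : WD p k F R) (Pi : PiData p k R)
    (f : ℕ → MvPolynomial ι F) (τ : ℕ → ι → ℕ) (δ : ℕ → ℤ) (l : ℕ) :
    (Finset ι → Lau ι R) →ₗ[R] (Finset ι → Lau ι R) :=
  Fr (alL C W Pi f τ δ l) p

variable {C : CType ι} {W : WD p k F R} (Pi : PiData p k R) {f : ℕ → MvPolynomial ι F}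
  {τ : ℕ → ι → ℕ} {ga : ℕ → ι → R} {δ : ℕ → ℤ}

theorem TD.alOK (H : TD C W f τ ga δ) (l : ℕ) :
    AlOK C p ((p : R) * Pi.u) (τ l) (δ l) (δ (l + 1)) k (Fh W (f l)) := by
  refine ⟨hp.out.one_lt.le, H.hτ l, H.hτ0 l, H.hδ l, ?_, fun m h => Fh_deg W (H.hF l) m h⟩
  have h := (W.ann k le_rfl 1).mpr (by rw [Nat.sub_self, pow_zero])
  rw [mul_one] at h
  rw [mul_pow, h, zero_mul]

theorem TD.Ph_mem (H : TD C W f τ ga δ) (l : ℕ) {j : ℤ} {ξ : Finset ι → Lau ι R}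
    (hξ : ξ ∈ KT R C ∅ (δ l) j) : Ph C W Pi f τ δ l ξ ∈ KT R C ∅ (δ (l + 1)) j := by
  refine Fr_mem (fun A x hx e he => ⟨al_deg (H.alOK Pi l) x e he, fun v => ?_⟩) hξ
  have h0 : 0 ≤ e v := al_nonneg (H.alOK Pi l) x e he v
  obtain ⟨e0, h1, _, _, h4⟩ := al_thr (H.alOK Pi l) he
  have h5 := (hx e0 h1).2 v
  unfold CType.thr at h5 ⊢
  by_cases hv : v ∈ A ∧ v ∉ C.Ys
  · rw [if_pos hv] at h5 ⊢
    exact h4 v hv.2 h5
  · rw [if_neg hv]
    exact h0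

theorem TD.Ph_D (H : TD C W f τ ga δ) (l : ℕ) {j : ℤ} {ξ : Finset ι → Lau ι R}
    (hξ : ξ ∈ KT R C ∅ (δ l) j) :
    Ph C W Pi f τ δ l (Dt (ga l) (hG W Pi (f l)) ξ)
      = Dt (ga (l + 1)) (hG W Pi (f (l + 1))) (Ph C W Pi f τ δ l ξ) := by
  refine Fr_Dt (fun v x hx => ?_) hξ
  exact al_tw W Pi H.hk (H.hF l) (H.hf l) (H.alOK Pi l) (H.hga l) v
    (fun e he => (hx e he).2) (fun e he => (hx e he).1)

theorem TD.exists_lev (H : TD C W f τ ga δ) (l : ℕ) {Bs' : Finset (ι → ℤ)}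
    (hB' : GB C (f (l + 1)) (δ (l + 1)) Bs') {e : ι → ℤ} (he : C.deg e = δ l)
    (he' : ∀ v, C.thr v Finset.univ ≤ e v) :
    ∃ c : (ι → ℤ) → R, ∃ η ∈ KT R C ∅ (δ (l + 1)) ((Fintype.card ι : ℤ) - 1),
      Ph C W Pi f τ δ l (bas R Finset.univ e)
        = ∑ e' ∈ Bs', c e' • bas R Finset.univ e'
          + Dt (ga (l + 1)) (hG W Pi (f (l + 1))) η ∧
      ∀ e' ∈ Bs', (p : R) ^ (C.wt e').toNat ∣ c e' := by
  have S := mk_sit hp.out H.hk W Pi (H.hF (l + 1)) (H.hU (l + 1)) (H.hδ0 (l + 1))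
    (H.hδ1 (l + 1)) (H.hGa (l + 1))
  have hb : bas R Finset.univ e ∈ KT R C ∅ (δ l) (Fintype.card ι) := by
    intro A e1 hne
    by_cases hA : A = Finset.univ
    · subst hA
      have h5 : e1 = e := by
        by_contra hne'
        apply hne
        simp only [bas, _root_.Pi.single_eq_same, mon]
        rw [AddMonoidAlgebra.coeff_single, Finsupp.single_apply, if_neg (fun h => hne' h.symm)]
      subst h5
      exact ⟨by rw [Finset.card_univ], he, fun v _ => he' v⟩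
    · exfalso
      apply hne
      simp [bas, _root_.Pi.single_eq_of_ne hA]
  refine S.span_dvd hB' (H.Ph_mem Pi l hb) (fun A e1 => ?_)
  have h1 : Ph C W Pi f τ δ l (bas R Finset.univ e) = _root_.Pi.single Finset.univ
      ((p : R) ^ (Fintype.card ι - (Finset.univ : Finset ι).card) • alL C W Pi f τ δ l (mon R e)) :=
    Fr_bas _ p Finset.univ e
  rw [h1]
  by_cases hA : A = Finset.univ
  · subst hA
    rw [_root_.Pi.single_eq_same, Finset.card_univ, Nat.sub_self, pow_zero, one_smul]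
    exact al_dvd (mon R e) e1
  · rw [_root_.Pi.single_eq_of_ne hA]
    simp

end

end HN
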