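import Pool.Agent.HN.ExtLem

/-! # HN/TotD : exactness of total complexes (module HN-03)

PLAN. `tot_tot` (ExtLem) gives `tot (tot ξ) = 0` once `Dn (Dn (ξ T)) = 0` for all `T`.

`tot_of_D`: induction on `t`: if `ξ ∈ Tt M m`, `tot S Dn ξ = 0` and `ξ T = 0` for `|T| < t`, there is
`η`.  For `|T| = t`: `0 = (tot ξ) T = ± Dn (ξ T)` (the Čech part only sees `|T| - 1`), so
`ξ T = Dn y_T`, `η T := ± y_T` for `|T| = t`, `0` otherwise; replace `ξ` by `ξ - tot η`
(cocycle by `tot_tot`, in `Tt M m` by `tot_mem`), whose components with `|T| ≤ t` vanish.  Finite.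

`tot_of_ce`: the same with descending `|T|`: if `ξ T = 0` for `|T| > p`, let `ξ_p` be the part with
`|T| = p`; looking at `|T| = p + 1`, `ce S ξ_p = 0` and `ξ_p ∈ Tb M p (m - p)`, so
`ξ_p = ce S η`, `η ∈ Tb M (p-1) (m-p)`; replace `ξ` by `ξ - tot η`.
-/

namespace HN

section
variable {ι : Type*} [Fintype ι] [DecidableEq ι] [Ranked ι]
variable {R : Type*} [CommRing R] {V : Type*} [AddCommGroup V] [Module R V]

/-- `tot` raises the total degree by one (auxiliary version) -/
private theorem totD_mem (M : Finset ι → ℤ → Submodule R V) (S : Finset ι) (Dn : V →ₗ[R] V)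
    (hD : ∀ T j, ∀ x ∈ M T j, Dn x ∈ M T (j + 1))
    (hincl : ∀ T j, ∀ v ∈ S, v ∉ T → M T j ≤ M (insert v T) j)
    {m : ℤ} {ξ : Finset ι → V} (hξ : ξ ∈ Tt M m) : tot S Dn ξ ∈ Tt M (m + 1) := by
  intro T
  rw [tot_apply]
  refine (M T _).add_mem ?_ ?_
  · refine (M T _).sum_mem fun v hv => ?_
    rw [Finset.mem_inter] at hv
    refine zsmul_mem ?_ _
    have h1 := hξ (T.erase v)
    have h2 := hincl (T.erase v) (m - ((T.erase v).card : ℤ)) v hv.2 (Finset.notMem_erase v T) h1
    rw [Finset.insert_erase hv.1] at h2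
    have h3 : m - ((T.erase v).card : ℤ) = m + 1 - (T.card : ℤ) := by
      have := Finset.card_erase_add_one hv.1
      have h4 : ((T.erase v).card : ℤ) + 1 = T.card := by exact_mod_cast this
      linarith
    rw [h3] at h2
    exact h2
  · refine (M T _).smul_mem _ ?_
    have h1 := hD T _ _ (hξ T)
    have h3 : m - (T.card : ℤ) + 1 = m + 1 - (T.card : ℤ) := by ring
    rw [h3] at h1
    exact h1

private theorem totD_sq (t : ℕ) (x : V) : ((-1 : R) ^ t) • ((-1 : R) ^ t) • x = x := by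
  rw [smul_smul, ← mul_pow]
  simp

private theorem totD_cancel (t : ℕ) (x : V) (h : ((-1 : R) ^ t) • x = 0) : x = 0 := by
  rw [← totD_sq (R := R) t x, h, smul_zero]

private theorem totD_aux (M : Finset ι → ℤ → Submodule R V) (S : Finset ι) (Dn : V →ₗ[R] V)
    (hDD : ∀ T j, ∀ x ∈ M T j, Dn (Dn x) = 0)
    (hD : ∀ T j, ∀ x ∈ M T j, Dn x ∈ M T (j + 1))
    (hincl : ∀ T j, ∀ v ∈ S, v ∉ T → M T j ≤ M (insert v T) j)
    (m : ℤ)
    (hex : ∀ T, ∀ x ∈ M T (m - T.card), Dn x = 0 → ∃ y ∈ M T (m - T.card - 1), Dn y = x) :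
    ∀ (k t : ℕ), t + k = Fintype.card ι + 1 → ∀ ξ ∈ Tt M m, tot S Dn ξ = 0 →
      (∀ T : Finset ι, T.card < t → ξ T = 0) → ∃ η ∈ Tt M (m - 1), tot S Dn η = ξ := by
  intro k
  induction k with
  | zero =>
    intro t ht ξ _ _ hz
    refine ⟨0, (Tt M (m - 1)).zero_mem, ?_⟩
    rw [map_zero]
    funext T
    have h1 : T.card ≤ Fintype.card ι := Finset.card_le_univ T
    exact (hz T (by omega)).symm
  | succ k ih =>
    intro t ht ξ hξ h0 hz
    have hDz : ∀ T : Finset ι, T.card = t → Dn (ξ T) = 0 := by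
      intro T hT
      have h1 : tot S Dn ξ T = 0 := by rw [h0]; rfl
      rw [tot_apply, Finset.sum_eq_zero, zero_add] at h1
      · exact totD_cancel (R := R) _ _ h1
      · intro v hv
        rw [Finset.mem_inter] at hv
        have := Finset.card_erase_lt_of_mem hv.1
        rw [hz _ (by omega), smul_zero]
    have hy : ∀ T : Finset ι, ∃ y ∈ M T (m - T.card - 1), T.card = t → Dn y = ξ T := by
      intro T
      by_cases hT : T.card = t
      · obtain ⟨y, hy, hy2⟩ := hex T (ξ T) (hξ T) (hDz T hT)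
        exact ⟨y, hy, fun _ => hy2⟩
      · exact ⟨0, (M T _).zero_mem, fun h => absurd h hT⟩
    choose y hyM hyD using hy
    set η : Finset ι → V := fun T => if T.card = t then ((-1 : R) ^ t) • y T else 0 with hη
    have hηM : η ∈ Tt M (m - 1) := by
      intro T
      simp only [hη]
      split_ifs with hT
      · have h1 := hyM T
        have h2 : m - (T.card : ℤ) - 1 = m - 1 - (T.card : ℤ) := by ring
        rw [h2] at h1
        exact (M T _).smul_mem _ h1
      · exact (M T _).zero_mem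
    have htotη : ∀ T : Finset ι, T.card < t + 1 → tot S Dn η T = ξ T := by
      intro T hT
      rw [tot_apply, Finset.sum_eq_zero, zero_add]
      · by_cases hTt : T.card = t
        · have h1 : η T = ((-1 : R) ^ t) • y T := by simp only [hη]; rw [if_pos hTt]
          rw [h1, map_smul, hTt, totD_sq, hyD T hTt]
        · have h1 : η T = 0 := by simp only [hη]; rw [if_neg hTt]
          rw [h1, map_zero, smul_zero, hz T (by omega)]
      · intro v hv
        rw [Finset.mem_inter] at hv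
        have := Finset.card_erase_lt_of_mem hv.1
        have h1 : η (T.erase v) = 0 := by simp only [hη]; rw [if_neg (by omega)]
        rw [h1, smul_zero]
    have hηη : tot S Dn (tot S Dn η) = 0 := tot_tot S Dn η (fun T => hDD T _ _ (hηM T))
    have hsub : ξ - tot S Dn η ∈ Tt M m := by
      refine (Tt M m).sub_mem hξ ?_
      have h1 := totD_mem M S Dn hD hincl hηM
      rw [sub_add_cancel] at h1
      exact h1
    obtain ⟨η', hη', hη'2⟩ := ih (t + 1) (by omega) (ξ - tot S Dn η) hsub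
      (by rw [map_sub, h0, hηη, sub_zero])
      (by
        intro T hT
        rw [Pi.sub_apply, htotη T hT, sub_self])
    refine ⟨η + η', (Tt M (m - 1)).add_mem hηM hη', ?_⟩
    rw [map_add, hη'2]
    abel

private theorem totC_aux (M : Finset ι → ℤ → Submodule R V) (S : Finset ι) (Dn : V →ₗ[R] V)
    (hDD : ∀ T j, ∀ x ∈ M T j, Dn (Dn x) = 0)
    (hD : ∀ T j, ∀ x ∈ M T j, Dn x ∈ M T (j + 1))
    (hincl : ∀ T j, ∀ v ∈ S, v ∉ T → M T j ≤ M (insert v T) j)
    (m : ℤ)
    (hex : ∀ p j : ℤ, p + j = m → ∀ ξ ∈ Tb M p j, ce R S ξ = 0 →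
      ∃ η ∈ Tb M (p - 1) j, ce R S η = ξ) :
    ∀ (k : ℕ), ∀ ξ ∈ Tt M m, tot S Dn ξ = 0 →
      (∀ T : Finset ι, k ≤ T.card → ξ T = 0) → ∃ η ∈ Tt M (m - 1), tot S Dn η = ξ := by
  intro k
  induction k with
  | zero =>
    intro ξ _ _ hz
    refine ⟨0, (Tt M (m - 1)).zero_mem, ?_⟩
    rw [map_zero]
    funext T
    exact (hz T (Nat.zero_le _)).symm
  | succ k ih =>
    intro ξ hξ h0 hz
    set ξk : Finset ι → V := fun T => if T.card = k then ξ T else 0 with hξk
    have hk1 : ∀ T : Finset ι, T.card = k → ξk T = ξ T := by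
      intro T hT; simp only [hξk]; rw [if_pos hT]
    have hk0 : ∀ T : Finset ι, T.card ≠ k → ξk T = 0 := by
      intro T hT; simp only [hξk]; rw [if_neg hT]
    have hTb : ξk ∈ Tb M (k : ℤ) (m - k) := by
      intro T
      by_cases hT : T.card = k
      · rw [hk1 T hT]
        refine ⟨?_, fun h => absurd (by exact_mod_cast hT) h⟩
        have h1 := hξ T
        rw [hT] at h1
        exact h1
      · rw [hk0 T hT]
        exact ⟨(M T _).zero_mem, fun _ => rfl⟩
    have hce : ce R S ξk = 0 := by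
      funext T
      rw [ce_apply]
      by_cases hT : T.card = k + 1
      · have h1 : tot S Dn ξ T = 0 := by rw [h0]; rfl
        rw [tot_apply, hz T (by omega), map_zero, smul_zero, add_zero] at h1
        rw [Pi.zero_apply, ← h1]
        refine Finset.sum_congr rfl fun v hv => ?_
        rw [Finset.mem_inter] at hv
        have := Finset.card_erase_add_one hv.1
        rw [hk1 (T.erase v) (by omega)]
      · rw [Pi.zero_apply]
        refine Finset.sum_eq_zero fun v hv => ?_
        rw [Finset.mem_inter] at hv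
        have := Finset.card_erase_add_one hv.1
        rw [hk0 (T.erase v) (by omega), smul_zero]
    obtain ⟨η, hη, hη2⟩ := hex k (m - k) (by ring) ξk hTb hce
    have hη0 : ∀ T : Finset ι, k ≤ T.card → η T = 0 := by
      intro T hT
      refine (hη T).2 ?_
      have : (k : ℤ) ≤ T.card := by exact_mod_cast hT
      omega
    have hηM : η ∈ Tt M (m - 1) := by
      intro T
      by_cases hT : (T.card : ℤ) = k - 1
      · have h1 := (hη T).1
        have h2 : m - (k : ℤ) = m - 1 - (T.card : ℤ) := by rw [hT]; ring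
        rw [h2] at h1
        exact h1
      · rw [(hη T).2 hT]
        exact (M T _).zero_mem
    have htotη : ∀ T : Finset ι, k ≤ T.card → tot S Dn η T = ξ T := by
      intro T hT
      have h1 : tot S Dn η T = ce R S η T + (-1 : R) ^ T.card • Dn (η T) := by
        rw [tot_apply, ce_apply]
      rw [h1, hη2, hη0 T hT, map_zero, smul_zero, add_zero]
      by_cases hTk : T.card = k
      · exact hk1 T hTk
      · rw [hk0 T hTk, hz T (by omega)]
    have hηη : tot S Dn (tot S Dn η) = 0 := tot_tot S Dn η (fun T => hDD T _ _ (hηM T))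
    have hsub : ξ - tot S Dn η ∈ Tt M m := by
      refine (Tt M m).sub_mem hξ ?_
      have h1 := totD_mem M S Dn hD hincl hηM
      rw [sub_add_cancel] at h1
      exact h1
    obtain ⟨η', hη', hη'2⟩ := ih (ξ - tot S Dn η) hsub
      (by rw [map_sub, h0, hηη, sub_zero])
      (by
        intro T hT
        rw [Pi.sub_apply, htotη T hT, sub_self])
    refine ⟨η + η', (Tt M (m - 1)).add_mem hηM hη', ?_⟩
    rw [map_add, hη'2]
    abel

/-- filtration by `|T|`: if every column is exact, the total complex is exact.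
Proof: remove the components of `ξ` with `|T| = 0, 1, 2, ...` successively. -/
theorem tot_of_D (M : Finset ι → ℤ → Submodule R V) (S : Finset ι) (Dn : V →ₗ[R] V)
    (hDD : ∀ T j, ∀ x ∈ M T j, Dn (Dn x) = 0)
    (hD : ∀ T j, ∀ x ∈ M T j, Dn x ∈ M T (j + 1))
    (hincl : ∀ T j, ∀ v ∈ S, v ∉ T → M T j ≤ M (insert v T) j)
    (m : ℤ)
    (hex : ∀ T, ∀ x ∈ M T (m - T.card), Dn x = 0 → ∃ y ∈ M T (m - T.card - 1), Dn y = x)
    (ξ : Finset ι → V) (hξ : ξ ∈ Tt M m) (h0 : tot S Dn ξ = 0) :
    ∃ η ∈ Tt M (m - 1), tot S Dn η = ξ := by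
  exact totD_aux M S Dn hDD hD hincl m hex (Fintype.card ι + 1) 0 (by omega) ξ hξ h0
    (fun T hT => absurd hT (Nat.not_lt_zero _))

/-- filtration by `j`: if every row is exact, the total complex is exact.
Proof: remove the components of `ξ` with `|T| = card ι, card ι - 1, ...` successively. -/
theorem tot_of_ce (M : Finset ι → ℤ → Submodule R V) (S : Finset ι) (Dn : V →ₗ[R] V)
    (hDD : ∀ T j, ∀ x ∈ M T j, Dn (Dn x) = 0)
    (hD : ∀ T j, ∀ x ∈ M T j, Dn x ∈ M T (j + 1))
    (hincl : ∀ T j, ∀ v ∈ S, v ∉ T → M T j ≤ M (insert v T) j)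
    (m : ℤ)
    (hex : ∀ p j : ℤ, p + j = m → ∀ ξ ∈ Tb M p j, ce R S ξ = 0 →
      ∃ η ∈ Tb M (p - 1) j, ce R S η = ξ)
    (ξ : Finset ι → V) (hξ : ξ ∈ Tt M m) (h0 : tot S Dn ξ = 0) :
    ∃ η ∈ Tt M (m - 1), tot S Dn η = ξ := by
  exact totC_aux M S Dn hDD hD hincl m hex (Fintype.card ι + 1) ξ hξ h0
    (fun T hT => absurd (Finset.card_le_univ T) (by omega))

/-- `tot` raises the total degree by one -/
theorem tot_mem (M : Finset ι → ℤ → Submodule R V) (S : Finset ι) (Dn : V →ₗ[R] V)
    (hD : ∀ T j, ∀ x ∈ M T j, Dn x ∈ M T (j + 1))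
    (hincl : ∀ T j, ∀ v ∈ S, v ∉ T → M T j ≤ M (insert v T) j)
    {m : ℤ} {ξ : Finset ι → V} (hξ : ξ ∈ Tt M m) : tot S Dn ξ ∈ Tt M (m + 1) := by
  exact totD_mem M S Dn hD hincl hξ

end

end HN
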