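import Pool.Agent.HN.Pt
import Pool.Agent.HN.HBp
import Pool.Agent.HN.Orth

/-! # HN/TrF : the trace formula (module HND-30)

PLAN.  `T := algebraMap A B ∘ D.τ` as a monoid-with-zero homomorphism; `Orth T` from `Orth.lean`.
`γ` is nilpotent (`gam_nilp` or directly: `γ^(p-1) = p u`, `p^k = 0` in `A`), take `N₁` with
`γ^N₁ = 0`, `H = HB p γ (fun x => ρ (W.τ x)) (f 0) L N₁`.
Right side: `∏ μ, Psi p L D γ (..)  = eval H` (`eval_HB`, `hφ`), so by `pt_sum`
(`c = be p τ L`; `hδ`: from `TD.hδ`, `δ 0 = p^L δ L + ∑_{l<L} p^l ∑ wd τ_l` and `δ L = δ 0`) and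
`pt_adm` it is `∑_{x ∈ adm C (δ 0) N} (-1)^|x.1| Q^(..) H.coeff (qe (p^L-1) c x.2)` for every large `N`;
by `coe_HB` and `comp_coeff` (`t = γ`, `γ^(p-1) = ρ (p u)`, `AlP_map`)
`H.coeff (qe ..) = γ^(∑ wN (fs (τ l))) * ρ (coeff (nn e) (AlP .. (monomial (nn e) 1)))`;
`wN (fs (τ l)) = ∑_v τ l v` (`τ l v = 0` for `v ∈ Xs`, since `Ys` and `Xs` are disjoint, `C.hXY`).
Left side: apply `ρ` to `TD.trace_Phc` (`Q^(card ι - |A|) = p^(L (card ι - |A|))`).  Take `N` larger than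
all the bounds.
-/

open MvPolynomial

namespace HN

section
variable {ι : Type*} [Fintype ι] [DecidableEq ι] [Ranked ι]
  {F R A B K : Type*} [Field F] [CommRing R] [CommRing A] [CommRing B] [Field K] [Fintype K]
variable {p k : ℕ} [hp : Fact p.Prime] [Algebra ℤ_[p] R] [Algebra ℤ_[p] B] [Algebra A B]
variable {C : CType ι} {W : WD p k F R} (Pi : PiData p k R) {f : ℕ → MvPolynomial ι F}
  {τ : ℕ → ι → ℕ} {ga : ℕ → ι → R} {δ : ℕ → ℤ}

/-- the matrices `M l` describe the Frobenius of level `l` on the monomial bases `Bs l` -/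
structure LevA (C : CType ι) (W : WD p k F R) (Pi : PiData p k R) (f : ℕ → MvPolynomial ι F)
    (τ : ℕ → ι → ℕ) (ga : ℕ → ι → R) (δ : ℕ → ℤ) (Bs : ℕ → Finset (ι → ℤ))
    (U : Finset (ι → ℤ)) (M : ℕ → Matrix U U R) : Prop where
  zero : ∀ l (e' e : U), (e' : ι → ℤ) ∉ Bs (l + 1) ∨ (e : ι → ℤ) ∉ Bs l → M l e' e = 0
  dvd : ∀ l (e' e : U), (p : R) ^ (C.wt (e' : ι → ℤ)).toNat ∣ M l e' e
  rel : ∀ l (e : U), (e : ι → ℤ) ∈ Bs l →
      ∃ η ∈ KT R C ∅ (δ (l + 1)) ((Fintype.card ι : ℤ) - 1),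
        Ph C W Pi f τ δ l (bas R Finset.univ e)
          = ∑ e' : U, M l e' e • bas R Finset.univ (e' : ι → ℤ)
            + Dt (ga (l + 1)) (hG W Pi (f (l + 1))) η

/-- existence of the matrices (from `TD.exists_lev`, choosing `0` outside the bases); periodic
data give periodic matrices: take `M l := M' (l % a)` -/
theorem TD.exists_levA (H : TD C W f τ ga δ) {Bs : ℕ → Finset (ι → ℤ)}
    (hB : ∀ l, GB C (f l) (δ l) (Bs l)) {U : Finset (ι → ℤ)} (hU : ∀ l, Bs l ⊆ U) {a : ℕ}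
    (ha : 1 ≤ a) (hfa : ∀ l, f (l + a) = f l) (hga : ∀ l, ga (l + a) = ga l)
    (hδa : ∀ l, δ (l + a) = δ l) (hτa : ∀ l, τ (l + a) = τ l) (hBa : ∀ l, Bs (l + a) = Bs l) :
    ∃ M : ℕ → Matrix U U R, LevA C W Pi f τ ga δ Bs U M ∧ ∀ l, M (l + a) = M l := by
  classical
  have hex : ∀ (l : ℕ) (e : ι → ℤ), ∃ c : (ι → ℤ) → R, e ∈ Bs l →
      (∃ η ∈ KT R C ∅ (δ (l + 1)) ((Fintype.card ι : ℤ) - 1),
      Ph C W Pi f τ δ l (bas R Finset.univ e)
        = ∑ e' ∈ Bs (l + 1), c e' • bas R Finset.univ e'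
          + Dt (ga (l + 1)) (hG W Pi (f (l + 1))) η) ∧
      ∀ e' ∈ Bs (l + 1), (p : R) ^ (C.wt e').toNat ∣ c e' := by
    intro l e
    by_cases he : e ∈ Bs l
    · obtain ⟨c, η, hη, h1, h2⟩ := H.exists_lev Pi l (hB (l + 1)) ((hB l).adm e he).1
        ((hB l).adm e he).2
      exact ⟨c, fun _ => ⟨⟨η, hη, h1⟩, h2⟩⟩
    · exact ⟨0, fun h => absurd h he⟩
  choose c hc using hex
  obtain ⟨M', hM'⟩ : ∃ M' : ℕ → Matrix U U R, ∀ l e' e, M' l e' e =
      if (e' : ι → ℤ) ∈ Bs (l + 1) ∧ (e : ι → ℤ) ∈ Bs l then c l e e' else 0 :=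
    ⟨fun l => Matrix.of fun e' e => if (e' : ι → ℤ) ∈ Bs (l + 1) ∧ (e : ι → ℤ) ∈ Bs l
      then c l e e' else 0, fun l e' e => rfl⟩
  have mf : ∀ l, f (l % a) = f l := Function.Periodic.map_mod_nat (show Function.Periodic f a from hfa)
  have mf1 : ∀ l, f (l % a + 1) = f (l + 1) := Function.Periodic.map_mod_nat
    (f := fun l => f (l + 1)) (a := a) (fun l => by
      show f (l + a + 1) = f (l + 1)
      rw [← hfa (l + 1)]; congr 1; ring)
  have mga1 : ∀ l, ga (l % a + 1) = ga (l + 1) := Function.Periodic.map_mod_nat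
    (f := fun l => ga (l + 1)) (a := a) (fun l => by
      show ga (l + a + 1) = ga (l + 1)
      rw [← hga (l + 1)]; congr 1; ring)
  have mδ1 : ∀ l, δ (l % a + 1) = δ (l + 1) := Function.Periodic.map_mod_nat
    (f := fun l => δ (l + 1)) (a := a) (fun l => by
      show δ (l + a + 1) = δ (l + 1)
      rw [← hδa (l + 1)]; congr 1; ring)
  have mτ : ∀ l, τ (l % a) = τ l := Function.Periodic.map_mod_nat (show Function.Periodic τ a from hτa)
  have mB : ∀ l, Bs (l % a) = Bs l := Function.Periodic.map_mod_nat (show Function.Periodic Bs a from hBa)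
  have mB1 : ∀ l, Bs (l % a + 1) = Bs (l + 1) := Function.Periodic.map_mod_nat
    (f := fun l => Bs (l + 1)) (a := a) (fun l => by
      show Bs (l + a + 1) = Bs (l + 1)
      rw [← hBa (l + 1)]; congr 1; ring)
  have mPh : ∀ l, Ph C W Pi f τ δ (l % a) = Ph C W Pi f τ δ l := by
    intro l
    unfold Ph alL
    rw [mτ, mδ1, mf]
  refine ⟨fun l => M' (l % a), ⟨?_, ?_, ?_⟩, fun l => by
    show M' ((l + a) % a) = M' (l % a)
    rw [Nat.add_mod_right]⟩
  · intro l e' e h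
    show M' (l % a) e' e = 0
    rw [hM', if_neg]
    rintro ⟨h1, h2⟩
    rw [mB1] at h1
    rw [mB] at h2
    rcases h with h | h
    · exact h h1
    · exact h h2
  · intro l e' e
    show _ ∣ M' (l % a) e' e
    rw [hM']
    split_ifs with h
    · exact (hc (l % a) e h.2).2 e' h.1
    · exact dvd_zero _
  · intro l e he
    have he1 : (e : ι → ℤ) ∈ Bs (l % a) := by rw [mB]; exact he
    obtain ⟨⟨η, hη, h1⟩, -⟩ := hc (l % a) e he1
    rw [mPh, mga1, mf1] at h1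
    rw [mδ1] at hη
    refine ⟨η, hη, ?_⟩
    rw [h1]
    congr 1
    have h2 : ∑ e' : U, M' (l % a) e' e • bas R Finset.univ (e' : ι → ℤ)
        = ∑ e' ∈ U, (if e' ∈ Bs (l % a + 1) then c (l % a) e e' else 0) •
            bas R Finset.univ e' := by
      rw [← Finset.sum_coe_sort U (fun e' => (if e' ∈ Bs (l % a + 1) then c (l % a) e e' else 0) •
            bas R Finset.univ e')]
      refine Finset.sum_congr rfl fun e' _ => ?_
      rw [hM']
      congr 1
      by_cases h3 : (e' : ι → ℤ) ∈ Bs (l % a + 1)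
      · rw [if_pos ⟨h3, he1⟩, if_pos h3]
      · rw [if_neg (fun h => h3 h.1), if_neg h3]
    show _ = ∑ e' : U, M' (l % a) e' e • bas R Finset.univ (e' : ι → ℤ)
    rw [h2]
    refine Finset.sum_subset_zero_on_sdiff (hU _) ?_ ?_
    · intro e' he'
      rw [Finset.mem_sdiff] at he'
      rw [if_neg he'.2, zero_smul]
    · intro e' he'
      rw [if_pos he']

theorem trace_formula (H : TD C W f τ ga δ) {Bs : ℕ → Finset (ι → ℤ)}
    (hB : ∀ l, GB C (f l) (δ l) (Bs l)) {U : Finset (ι → ℤ)} (hU : ∀ l, Bs l ⊆ U)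
    {M : ℕ → Matrix U U R} (hM : LevA C W Pi f τ ga δ Bs U M)
    {L : ℕ} (hL : 1 ≤ L) (hfL : f L = f 0) (hgL : ga L = ga 0) (hdL : δ L = δ 0)
    (hBL : Bs L = Bs 0) (hK : Fintype.card K = p ^ L)
    (hbe : ∀ v ∈ C.Ys, be p τ L v < p ^ L - 1)
    (D : WD p k K A) (φ : F →+* K) (ρ : R →ₐ[ℤ_[p]] B)
    (hφ : ∀ x, ρ (W.τ x) = algebraMap A B (D.τ (φ x))) {γ : B}
    (hγ : γ ^ (p - 1) = ρ ((p : R) * Pi.u)) :
    γ ^ (∑ l ∈ Finset.range L, ∑ v, τ l v) *
        ((-1) ^ Fintype.card ι * (1 - (p : B) ^ L) * ρ (Ac M L).trace)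
      = ∑ ζ : ι → K, (∏ v ∈ C.Ys, algebraMap A B (D.τ (ζ v)) ^ (p ^ L - 1 - be p τ L v)) *
          ∏ μ ∈ (f 0).support, Psi p L D γ (φ ((f 0).coeff μ) * ∏ v, ζ v ^ μ v) := by
  classical
  have hpk : (p : R) ^ k = 0 := by
    have h := (W.ann k le_rfl 1).mpr (by rw [Nat.sub_self, pow_zero])
    rwa [mul_one] at h
  have hN1 : γ ^ ((p - 1) * k) = 0 := by
    rw [pow_mul, hγ, ← map_pow, mul_pow, hpk, zero_mul, map_zero]
  obtain ⟨T, hT⟩ : ∃ T : K →*₀ B, ∀ x, T x = algebraMap A B (D.τ x) :=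
    ⟨(algebraMap A B).toMonoidWithZeroHom.comp D.τ, fun x => rfl⟩
  have hOrth : Orth T := by
    constructor
    · intro u hu
      have h1 := congrArg (algebraMap A B) (tau_sum_zero D hu)
      rw [map_sum, map_zero] at h1
      rw [← h1]
      refine Finset.sum_congr rfl fun z _ => ?_
      rw [hT, map_pow]
    · intro u hu hu1
      have h1 := congrArg (algebraMap A B) (tau_sum_dvd D hu hu1)
      rw [map_sum, map_sub, map_natCast, map_one] at h1
      rw [← h1]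
      refine Finset.sum_congr rfl fun z _ => ?_
      rw [hT, map_pow]
  have hcard : Fintype.card K - 1 = p ^ L - 1 := by rw [hK]
  obtain ⟨NN, hNN⟩ := HB_mon (p := p) (H.hF 0) γ (fun x => ρ (W.τ x)) L ((p - 1) * k)
  obtain ⟨N₀, hN₀⟩ := H.trace_Phc Pi hB hU hM.zero hM.rel hL hfL hgL hdL hBL
  obtain ⟨N, hNa, hNb⟩ : ∃ N : ℕ, NN ≤ N ∧ N₀ ≤ N := ⟨max NN N₀, le_max_left _ _, le_max_right _ _⟩
  have key := congrArg ρ (hN₀ N hNb)
  -- the right side
  have hR : ∑ ζ : ι → K, (∏ v ∈ C.Ys, algebraMap A B (D.τ (ζ v)) ^ (p ^ L - 1 - be p τ L v)) *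
          ∏ μ ∈ (f 0).support, Psi p L D γ (φ ((f 0).coeff μ) * ∏ v, ζ v ^ μ v)
      = ∑ ζ : ι → K, (∏ v ∈ C.Ys, T (ζ v) ^ (Fintype.card K - 1 - be p τ L v)) *
        eval (fun v => T (ζ v)) (HB p γ (fun x => ρ (W.τ x)) (f 0) L ((p - 1) * k)) := by
    refine Finset.sum_congr rfl fun ζ _ => ?_
    congr 1
    · rw [hcard]
      refine Finset.prod_congr rfl fun v _ => ?_
      rw [hT]
    · rw [eval_HB (S := T) (φ := φ) (T := fun x => ρ (W.τ x)) (fun x => by rw [hT]; exact hφ x)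
        hN1 (f 0) L ζ]
      refine Finset.prod_congr rfl fun μ _ => ?_
      unfold Psi
      refine Finset.prod_congr rfl fun l _ => ?_
      rw [hT]
  have hbe0 : ∀ v, v ∉ C.Ys → be p τ L v = 0 := by
    intro v hv
    unfold be
    refine Finset.sum_eq_zero fun l _ => ?_
    rw [H.hτ0 l v hv, mul_zero]
  have hδL : ∀ n : ℕ, (p : ℤ) ^ n * δ n + ∑ v, C.wd v * (be p τ n v : ℤ) = δ 0 := by
    intro n
    induction n with
    | zero => simp [be]
    | succ n ih =>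
      have h1 : ∑ v, C.wd v * (be p τ (n + 1) v : ℤ)
          = ∑ v, C.wd v * (be p τ n v : ℤ) + (p : ℤ) ^ n * ∑ v, C.wd v * (τ n v : ℤ) := by
        rw [Finset.mul_sum, ← Finset.sum_add_distrib]
        refine Finset.sum_congr rfl fun v _ => ?_
        have h2 : be p τ (n + 1) v = be p τ n v + p ^ n * τ n v := by
          unfold be
          rw [Finset.sum_range_succ]
        rw [h2]
        push_cast
        ring
      rw [h1, ← ih]
      have h3 := H.hδ n
      rw [← h3]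
      ring
  have hδ' : ((Fintype.card K - 1 : ℕ) : ℤ) * δ 0 + ∑ v, C.wd v * (be p τ L v : ℤ) = 0 := by
    have h1 := hδL L
    rw [hdL] at h1
    have h2 : ((Fintype.card K - 1 : ℕ) : ℤ) = (p : ℤ) ^ L - 1 := by
      rw [hcard, Nat.cast_sub (Nat.one_le_pow _ _ hp.out.pos)]
      push_cast
      ring
    rw [h2]
    linarith
  rw [hR, pt_sum hOrth (N := N) (fun m hm => ⟨(hNN m hm).1, lt_of_lt_of_le (hNN m hm).2 hNa⟩)
    hbe0 (fun v hv => by rw [hcard]; exact hbe v hv) hδ', pt_adm]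
  have hQ : (Fintype.card K : B) = (p : B) ^ L := by rw [hK]; push_cast; ring
  have hw : ∀ l, wN C (fs (τ l)) = ∑ v, τ l v := by
    intro l
    unfold wN
    refine Finset.sum_subset (Finset.subset_univ _) ?_
    intro v _ hv
    rw [Finset.mem_compl, not_not] at hv
    rw [fs_apply]
    exact H.hτ0 l v (fun h => C.hXY v h hv)
  have hcoeff : ∀ e : ι → ℤ,
      (HB p γ (fun x => ρ (W.τ x)) (f 0) L ((p - 1) * k)).coeff
        (qe (Fintype.card K - 1) (be p τ L) e)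
      = γ ^ (∑ l ∈ Finset.range L, ∑ v, τ l v) *
        ρ (MvPowerSeries.coeff (nn e) (AlP C p ((p : R) * Pi.u) (fun l => Fh W (f l)) τ L
          (MvPowerSeries.monomial (nn e) 1))) := by
    intro e
    rw [← MvPolynomial.coeff_coe, coe_HB W (H.hF 0) H.hf ρ hN1 L]
    unfold qe
    rw [hcard, comp_coeff C hp.out.ne_zero γ _ H.hτ L (nn e)]
    congr 1
    · congr 1
      exact Finset.sum_congr rfl fun l _ => hw l
    · rw [hγ]
      have h1 := AlP_map (ρ : R →+* B) C p ((p : R) * Pi.u) (fun l => Fh W (f l)) τ L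
        (MvPowerSeries.monomial (nn e) 1)
      have h2 := congrArg (MvPowerSeries.coeff (nn e)) h1
      rw [MvPowerSeries.coeff_map] at h2
      have h3 : MvPowerSeries.map (ρ : R →+* B) (MvPowerSeries.monomial (nn e) (1 : R))
          = MvPowerSeries.monomial (nn e) (1 : B) := by
        rw [MvPowerSeries.map_monomial, map_one]
      rw [h3] at h2
      exact h2.symm
  rw [map_sum] at key
  have hL2 : ρ ((-1) ^ Fintype.card ι * (1 - (p : R) ^ L) * (Ac M L).trace)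
      = (-1) ^ Fintype.card ι * (1 - (p : B) ^ L) * ρ (Ac M L).trace := by
    simp only [map_mul, map_pow, map_sub, map_one, map_neg, map_natCast]
  rw [← hL2, ← key, Finset.mul_sum]
  refine Finset.sum_congr rfl fun x _ => ?_
  rw [hcoeff, hQ]
  simp only [map_mul, map_pow, map_neg, map_one, map_natCast]
  rw [pow_mul]
  ring

end

end HN
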