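import Pool.Agent.HN.Orbit
import Pool.Agent.HN.AddChar
import Pool.Agent.HN.CBin
import Pool.Agent.HN.Dim
import Pool.Agent.HN.PartD
import Pool.Agent.HN.JLarge

/-! # HN/TraceMain : main theorem of part D (helper67) -/

open MvPolynomial

namespace HN

open Classical in
/-- `∑_{ζ ∈ K^ι, ζ_v ≠ 0 for v ∈ Ys} ∏_μ Ψ(a_μ ζ^μ) ∏_{v ∈ Ys} [ζ_v]^{cc v}` -/
noncomputable def csum (p h : ℕ) [Fact p.Prime] {k : ℕ} {ι F K A B : Type*} [Fintype ι]
    [DecidableEq ι] [Field F] [Field K] [Fintype K] [Algebra F K] [CommRing A] [CommRing B]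
    [Algebra ℤ_[p] B] [Algebra A B] (C : CType ι) (Fp : MvPolynomial ι F) (DK : WD p k K A)
    (γ : B) (cc : ι → ℕ) : B :=
  ∑ ζ ∈ (Finset.univ : Finset (ι → K)).filter (fun ζ => ∀ v ∈ C.Ys, ζ v ≠ 0),
    (∏ μ ∈ Fp.support, Psi p h DK γ (algebraMap F K (Fp.coeff μ) * ∏ v, ζ v ^ μ v)) *
      ∏ v ∈ C.Ys, algebraMap A B (DK.τ (ζ v)) ^ cc v

theorem Ac_eq_prodM {R U : Type*} [CommRing R] [Fintype U] [DecidableEq U]
    (M : ℕ → Matrix U U R) (L : ℕ) : Ac M L = prodM M L := by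
  induction L with
  | zero => rfl
  | succ n ih =>
    show M n * Ac M n = M n * prodM M n
    rw [ih]

theorem trace_main (p a : ℕ) [Fact p.Prime] (ha : 1 ≤ a) (F : Type) [Field F] [Fintype F]
    (hF : Fintype.card F = p ^ a) {ι : Type} [Fintype ι] [DecidableEq ι] [Ranked ι]
    (C : CType ι) (hY : C.Ys.Nonempty) (Fp : MvPolynomial ι F) (hH : C.Hom Fp)
    (hU : C.UnitCond Fp) (O : Orbit p a C) :
    ∃ (BB : Finset (ι → ℤ)) (Bs : ℕ → Finset (ι → ℤ)),
      (∀ j, Bs j ⊆ BB) ∧ (∀ j, ∀ e ∈ Bs j, 0 ≤ C.wt e) ∧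
      (∀ (j : ℕ) (w : ℤ),
        (((Bs j).filter (fun e => C.wt e = w)).card : ℤ) = jnum C (O.δ j) w) ∧
      ∀ (k : ℕ), 1 ≤ k → ∀ (R : Type) [CommRing R] [Algebra ℤ_[p] R] (D : WD p k F R)
        (Pi : PiData p k R),
        ∃ A : ℕ → Matrix BB BB R,
          (∀ j b b', b.1 ∉ Bs (j + 1) → A j b b' = 0) ∧
          (∀ j b b', (p : R) ^ (C.wt b.1).toNat ∣ A j b b') ∧
          ∀ (m : ℕ), 1 ≤ m → ∀ (K : Type) [Field K] [Fintype K] [Algebra F K],
            Module.finrank F K = m →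
            ∀ (A' : Type) [CommRing A'] (DK : WD p k K A') (φ : R →+* A'),
              (∀ x, φ (D.τ x) = DK.τ (algebraMap F K x)) →
            ∀ (B : Type) [CommRing B] [Algebra ℤ_[p] B] [Algebra A' B] (γ : B),
              (∀ x : ℤ_[p], algebraMap ℤ_[p] B x
                = algebraMap A' B (φ (algebraMap ℤ_[p] R x))) →
              γ ^ (p - 1) = algebraMap A' B (p * φ Pi.u) →
              γ ^ (m * ∑ j ∈ Finset.range a, ∑ v, O.τ j v) * ((p : B) ^ (a * m) - 1) *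
                  (-1) ^ (Fintype.card ι - 1) *
                  algebraMap A' B (φ ((prodM A a ^ m).trace))
                = csum p (a * m) C Fp DK γ
                    (fun v => (p ^ a - 1 - O.b 0 v) * ((p ^ (a * m) - 1) / (p ^ a - 1))) := by
  classical
  haveI hch : CharP F p := charP_of_card_eq_prime_pow (p := p) hF
  have hp := (Fact.out : p.Prime)
  -- digits
  have hdig : Dig C p a O.b O.τ O.δ := by
    refine ⟨ha, O.step, ?_, fun l v hv => (O.out l v hv).1, ?_, fun l v => by rw [O.per l], ?_, hY⟩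
    · intro l v
      have := O.dig l v
      have := hp.one_lt
      omega
    · intro l v hv
      have h := O.pos l v hv
      exact ⟨h.1, by omega⟩
    · intro l
      rw [O.deg l]
      ring
  have hHl : ∀ l, C.Hom (frt p Fp l) := fun l => hom_mapD _ hH
  have hUl : ∀ l, C.UnitCond (frt p Fp l) := fun l => unitCond_mapD _ hU
  have hGB := fun l => exists_GB (hHl (l % a)) (hUl (l % a)) (hdig.delta_pos hp (l % a))
    (hdig.delta_lt hp (l % a))
  have permod : ∀ {X : Type} (g : ℕ → X), (∀ l, g (l + a) = g l) → ∀ l, g (l % a) = g l := by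
    intro X g hg l
    have h1 : ∀ n, g (l % a + a * n) = g (l % a) := by
      intro n
      induction n with
      | zero => rfl
      | succ n ih => rw [Nat.mul_succ, ← add_assoc, hg, ih]
    have h2 := h1 (l / a)
    rw [Nat.mod_add_div] at h2
    exact h2.symm
  have hfm : ∀ l, frt p Fp (l % a) = frt p Fp l := permod _ (frt_per hF Fp)
  have hδm : ∀ l, O.δ (l % a) = O.δ l := permod _ (hdig.delta_per hp)
  -- bases
  obtain ⟨Bs', hBs'⟩ : ∃ Bs' : ℕ → Finset (ι → ℤ), ∀ l, l < a →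
      (GB C (frt p Fp l) (O.δ l) (Bs' l) ∧ (∀ e ∈ Bs' l, 0 ≤ C.wt e) ∧
        ∀ w : ℤ, (((Bs' l).filter (fun e => C.wt e = w)).card : ℤ) = jnum C (O.δ l) w) := by
    choose B hB using hGB
    refine ⟨B, fun l hl => ?_⟩
    have := hB l
    rwa [Nat.mod_eq_of_lt hl] at this
  let Bs : ℕ → Finset (ι → ℤ) := fun l => Bs' (l % a)
  have hBsp : ∀ l, Bs (l + a) = Bs l := fun l => by simp [Bs]
  have hBs : ∀ l, (GB C (frt p Fp l) (O.δ l) (Bs l) ∧ (∀ e ∈ Bs l, 0 ≤ C.wt e) ∧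
      ∀ w : ℤ, (((Bs l).filter (fun e => C.wt e = w)).card : ℤ) = jnum C (O.δ l) w) := by
    intro l
    have h := hBs' (l % a) (Nat.mod_lt _ ha)
    rw [hfm, hδm] at h
    exact h
  let BB : Finset (ι → ℤ) := (Finset.range a).biUnion Bs'
  have hBB : ∀ j, Bs j ⊆ BB := fun j =>
    Finset.subset_biUnion_of_mem Bs' (Finset.mem_range.2 (Nat.mod_lt _ ha))
  refine ⟨BB, Bs, hBB, fun j => (hBs j).2.1, fun j w => ?_, ?_⟩
  · rw [← (hBs j).2.2 w]
  intro k hk R _ _ D Pi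
  obtain ⟨M, hM0, hMd, hMp, hTr⟩ := partD hk hF D Pi hH hU hdig (fun l => (hBs l).1) hBsp hBB
  refine ⟨M, fun j b b' hb => hM0 j b b' (Or.inl hb), hMd, ?_⟩
  intro m hm K _ _ _ hfin A' _ DK φ hφ B _ _ _ γ hB hγ
  have hK : Fintype.card K = p ^ (a * m) := by
    rw [pow_mul, ← hF, ← hfin]
    exact Module.card_eq_pow_finrank
  let ρ : R →ₐ[ℤ_[p]] B :=
    { (algebraMap A' B).comp φ with commutes' := fun x => (hB x).symm }
  have hρ : ∀ x, ρ x = algebraMap A' B (φ x) := fun x => rfl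
  have key := hTr m K A' B DK (algebraMap F K) ρ γ hm hK (fun x => by rw [hρ, hφ])
    (by rw [hγ, hρ, map_mul φ, map_natCast φ])
  have hcard : 1 ≤ Fintype.card ι := by
    obtain ⟨v, _⟩ := hY
    exact Fintype.card_pos_iff.2 ⟨v⟩
  rw [Ac_eq_prodM, hρ] at key
  have hsign : ((-1 : B) ^ Fintype.card ι * (1 - (p : B) ^ (a * m)))
      = ((p : B) ^ (a * m) - 1) * (-1) ^ (Fintype.card ι - 1) := by
    obtain ⟨c, hc⟩ : ∃ c, Fintype.card ι = c + 1 := ⟨Fintype.card ι - 1, by omega⟩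
    rw [hc, Nat.add_sub_cancel, pow_succ]
    ring
  have hlhs : γ ^ (m * ∑ j ∈ Finset.range a, ∑ v, O.τ j v) * ((p : B) ^ (a * m) - 1) *
        (-1) ^ (Fintype.card ι - 1) * algebraMap A' B (φ ((prodM M a ^ m).trace))
      = γ ^ (m * ∑ l ∈ Finset.range a, ∑ v, O.τ l v) * ((-1) ^ Fintype.card ι *
        (1 - (p : B) ^ (a * m)) * algebraMap A' B (φ ((prodM M a ^ m).trace))) := by
    rw [hsign]
    ring
  rw [hlhs, key]
  -- exponents
  have hq1 : 2 ≤ p ^ a := le_trans hp.two_le (Nat.le_self_pow (by omega) p)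
  have hdvd : (p ^ a - 1) ∣ (p ^ (a * m) - 1) := by
    rw [pow_mul]
    simpa using Nat.sub_dvd_pow_sub_pow (p ^ a) 1 m
  obtain ⟨c, hc⟩ := hdvd
  have hQ : 2 ≤ p ^ (a * m) := le_trans hp.two_le (Nat.le_self_pow (by
    exact Nat.mul_ne_zero (by omega) (by omega)) p)
  have hc1 : 1 ≤ c := by
    rcases Nat.eq_zero_or_pos c with h | h
    · subst h; omega
    · exact h
  have hcd : (p ^ (a * m) - 1) / (p ^ a - 1) = c := by
    rw [hc]
    exact Nat.mul_div_cancel_left _ (by omega)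
  have hexp : ∀ v, p ^ (a * m) - 1 - (p ^ (a * m) - 1) / (p ^ a - 1) * O.b 0 v
      = (p ^ a - 1 - O.b 0 v) * ((p ^ (a * m) - 1) / (p ^ a - 1)) := by
    intro v
    rw [hcd, hc, Nat.sub_mul (p ^ a - 1) (O.b 0 v) c, mul_comm c (O.b 0 v)]
  unfold csum
  rw [Finset.sum_filter]
  refine Finset.sum_congr rfl fun ζ _ => ?_
  by_cases hζ : ∀ v ∈ C.Ys, ζ v ≠ 0
  · rw [if_pos hζ, mul_comm]
    congr 1
    exact Finset.prod_congr rfl fun v _ => by rw [hexp v]
  · rw [if_neg hζ]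
    push Not at hζ
    obtain ⟨v, hv, hv0⟩ := hζ
    have hz : ∏ v ∈ C.Ys, algebraMap A' B (DK.τ (ζ v)) ^
        (p ^ (a * m) - 1 - (p ^ (a * m) - 1) / (p ^ a - 1) * O.b 0 v) = 0 := by
      refine Finset.prod_eq_zero hv ?_
      rw [hexp v, hv0, map_zero, map_zero, hcd]
      have h := O.pos 0 v hv
      exact zero_pow (Nat.mul_ne_zero (by omega) (by omega))
    rw [hz, zero_mul]

end HN
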