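import Pool.Agent.HN.MonBasis
import Pool.Agent.HN.AH

/-!
# HN/Tw : the twisted Koszul complex (definitions)

* `tw ga h v = θ_v + ga_v + h_v` on Laurent polynomials;
* `Dt ga h = ∑_v e_v ∧ tw ga h v`;
* `TwH` : a system of twisting polynomials `h v = ∑_{i<k} c_i G_{i,v}`;
* `GaOK` : compatibility of the exponents `ga` with the degree `δ`;
* `GB` : monomial basis of the top cohomology of the graded complex.
-/

open MvPolynomial

namespace HN

section
variable {ι : Type*} [Fintype ι] [DecidableEq ι] [Ranked ι] {R : Type*} [CommRing R]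

/-- the twisted operator `θ_v + ga_v + h_v` -/
noncomputable def tw (ga : ι → R) (h : ι → MvPolynomial ι R) (v : ι) : Lau ι R →ₗ[R] Lau ι R :=
  diag R (fun e => (e v : R) + ga v) + LinearMap.mulLeft R (toL (h v))

/-- the twisted Koszul differential -/
noncomputable def Dt (ga : ι → R) (h : ι → MvPolynomial ι R) :
    (Finset ι → Lau ι R) →ₗ[R] (Finset ι → Lau ι R) :=
  kos R (tw ga h)

/-- the diagonal part (preserves the weight) -/
noncomputable def D0 (ga : ι → R) : (Finset ι → Lau ι R) →ₗ[R] (Finset ι → Lau ι R) :=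
  kos R (fun v => diag R (fun e => (e v : R) + ga v))

/-- exterior multiplication by `∑ g_v e_v` -/
noncomputable def Mk (g : ι → MvPolynomial ι R) :
    (Finset ι → Lau ι R) →ₗ[R] (Finset ι → Lau ι R) :=
  kos R (fun v => LinearMap.mulLeft R (toL (g v)))

/-- a system of twisting polynomials -/
structure TwH (C : CType ι) (p k : ℕ) (R : Type*) [CommRing R] where
  G : ℕ → ι → MvPolynomial ι R
  c : ℕ → R
  hc0 : c 0 = 1
  hcd : ∀ i, (p : R) ^ (p ^ i - 1) ∣ c i
  hG : ∀ i v (m : ι →₀ ℕ), (G i v).coeff m ≠ 0 →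
    C.deg (fun u => (m u : ℤ)) = 0 ∧ C.wt (fun u => (m u : ℤ)) = (p : ℤ) ^ i ∧ 1 ≤ m v
  hsym : ∀ i u v (m : ι →₀ ℕ), (m u : R) * (G i v).coeff m = (m v : R) * (G i u).coeff m
  heul : ∀ i, ∑ v, (C.wd v : R) • G i v = 0

/-- `h v = ∑_{i<k} c_i G_{i,v}` -/
noncomputable def TwH.h {C : CType ι} {p k : ℕ} (H : TwH C p k R) (v : ι) : MvPolynomial ι R :=
  ∑ i ∈ Finset.range k, H.c i • H.G i v

/-- compatibility of the exponents `ga` with the degree `δ` -/
structure GaOK (C : CType ι) (ga : ι → R) (δ : ℤ) : Prop where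
  h0 : ∀ v, v ∉ C.Ys → ga v = 0
  hδ : (δ : R) + ∑ v, (C.wd v : R) * ga v = 0

end

section
variable {ι : Type*} [Fintype ι] [DecidableEq ι] [Ranked ι] {k : Type*} [Field k]

/-- `Bs` is a monomial basis of the top cohomology of the graded Koszul complex of `f`, in all
weights `w` -/
structure GB (C : CType ι) (f : MvPolynomial ι k) (δ : ℤ) (Bs : Finset (ι → ℤ)) : Prop where
  adm : ∀ e ∈ Bs, C.deg e = δ ∧ ∀ v, C.thr v Finset.univ ≤ e v
  span : ∀ w : ℤ, ∀ ξ ∈ KW k C ∅ δ (Fintype.card ι) w, ∃ c : (ι → ℤ) → k,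
    ∃ η ∈ KW k C ∅ δ ((Fintype.card ι : ℤ) - 1) (w - 1),
      ξ = ∑ e ∈ Bs.filter (fun e => C.wt e = w), c e • bas k Finset.univ e + Dk f η
  indep : ∀ w : ℤ, ∀ c : (ι → ℤ) → k, ∀ η ∈ KW k C ∅ δ ((Fintype.card ι : ℤ) - 1) (w - 1),
    ∑ e ∈ Bs.filter (fun e => C.wt e = w), c e • bas k Finset.univ e = Dk f η →
      ∀ e ∈ Bs, C.wt e = w → c e = 0

end

end HN
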