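import Pool.Agent.HN.Tw1

/-! # HN/Tw2 : weight decomposition of the twisted differential (module HND-02)

PLAN.  `Dt_eq`: linearity of `kos` in the operators (`kos_apply` or unfolding `kos`, `mp`).
`Dt_H`: `toL (∑ c_i G_i v) = ∑ c_i • toL (G_i v)`.
`D0_mem_KW`, `Mk_mem_KW`: as `Dt_mem_KT` (Tw1), following the weight; a monomial of `G_i v` has
weight `p^i`, degree `0` and `v`-exponent `≥ 1`.
-/

open MvPolynomial

namespace HN

section
variable {ι : Type*} [Fintype ι] [DecidableEq ι] [Ranked ι] {R : Type*} [CommRing R]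

/-- the coefficient of `X^e` -/
private noncomputable def tw2_cf (e : ι → ℤ) : Lau ι R →ₗ[R] R where
  toFun f := f.coeff e
  map_add' f g := by simp
  map_smul' c f := by simp

private theorem tw2_coeff_sum {κ : Type*} (s : Finset κ) (f : κ → Lau ι R) (e : ι → ℤ) :
    (∑ i ∈ s, f i).coeff e = ∑ i ∈ s, (f i).coeff e :=
  map_sum (tw2_cf e) f s

private theorem tw2_coeff_zsmul (n : ℤ) (f : Lau ι R) (e : ι → ℤ) :
    (n • f).coeff e = n • f.coeff e :=
  map_zsmul (tw2_cf e) n f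

private theorem tw2_deg_sub (C : CType ι) (a b : ι → ℤ) :
    C.deg (fun v => a v - b v) = C.deg a - C.deg b := by
  simp only [CType.deg, mul_sub, Finset.sum_sub_distrib]

private theorem tw2_wt_sub (C : CType ι) (a b : ι → ℤ) :
    C.wt (fun v => a v - b v) = C.wt a - C.wt b := by
  simp only [CType.wt, Finset.sum_sub_distrib]

private theorem tw2_thr_le_one (C : CType ι) (v : ι) (A : Finset ι) : C.thr v A ≤ 1 := by
  unfold CType.thr
  split_ifs <;> norm_num

private theorem tw2_thr_erase (C : CType ι) {u v : ι} (h : u ≠ v) (A : Finset ι) :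
    C.thr u A = C.thr u (A.erase v) := by
  unfold CType.thr
  have : u ∈ A.erase v ↔ u ∈ A := by simp [Finset.mem_erase, h]
  simp only [this]

/-- nonzero coefficients of `kos` -/
private theorem tw2_kos_ne {T : ι → Lau ι R →ₗ[R] Lau ι R} {ξ : Finset ι → Lau ι R}
    {A : Finset ι} {e : ι → ℤ} (h : (kos R T ξ A).coeff e ≠ 0) :
    ∃ v ∈ A, (T v (ξ (A.erase v))).coeff e ≠ 0 := by
  rw [kos_apply, tw2_coeff_sum] at h
  obtain ⟨v, hv, h2⟩ := Finset.exists_ne_zero_of_sum_ne_zero h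
  rw [tw2_coeff_zsmul] at h2
  refine ⟨v, hv, fun h4 => ?_⟩
  rw [h4, smul_zero] at h2
  exact h2 rfl

theorem Dt_eq (ga : ι → R) (h : ι → MvPolynomial ι R) (ξ : Finset ι → Lau ι R) :
    Dt ga h ξ = D0 ga ξ + Mk h ξ := by
  funext A
  rw [Pi.add_apply, Dt, D0, Mk, kos_apply, kos_apply, kos_apply, ← Finset.sum_add_distrib]
  refine Finset.sum_congr rfl fun v _ => ?_
  rw [tw, LinearMap.add_apply, smul_add]

theorem Dt_H {C : CType ι} {p k : ℕ} (H : TwH C p k R) (ga : ι → R) (ξ : Finset ι → Lau ι R) :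
    Dt ga H.h ξ = D0 ga ξ + ∑ i ∈ Finset.range k, H.c i • Mk (H.G i) ξ := by
  rw [Dt_eq]
  congr 1
  funext A
  rw [Finset.sum_apply, Mk, kos_apply]
  have h1 : ∀ i, (H.c i • Mk (H.G i) ξ) A =
      ∑ v ∈ A, sg v A • (H.c i • (toL (H.G i v) * ξ (A.erase v))) := by
    intro i
    rw [Pi.smul_apply, Mk, kos_apply, Finset.smul_sum]
    refine Finset.sum_congr rfl fun v _ => ?_
    rw [smul_comm]
    rfl
  rw [Finset.sum_congr rfl fun i _ => h1 i, Finset.sum_comm]
  refine Finset.sum_congr rfl fun v _ => ?_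
  rw [← Finset.smul_sum]
  congr 1
  rw [LinearMap.mulLeft_apply, TwH.h, map_sum, Finset.sum_mul]
  refine Finset.sum_congr rfl fun i _ => ?_
  rw [map_smul, smul_mul_assoc]

theorem D0_mem_KW {C : CType ι} {ga : ι → R} (h0 : ∀ v, v ∉ C.Ys → ga v = 0) {δ j w : ℤ}
    {ξ : Finset ι → Lau ι R} (hξ : ξ ∈ KW R C ∅ δ j w) : D0 ga ξ ∈ KW R C ∅ δ (j + 1) w := by
  intro A e he
  obtain ⟨v, hv, h1⟩ := tw2_kos_ne he
  rw [diag_coeff] at h1
  obtain ⟨c1, c2, c3, c4⟩ := hξ _ _ (right_ne_zero_of_mul h1)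
  refine ⟨?_, c2, ?_, c4⟩
  · have := Finset.card_erase_add_one hv
    rw [← c1, ← this]
    push_cast
    rfl
  · intro u hu
    by_cases huv : u = v
    · subst huv
      have h2 := c3 u hu
      have h3 := thr_nonneg C u (A.erase u)
      by_cases hY : u ∈ C.Ys
      · have h4 : C.thr u A = 0 := by
          unfold CType.thr
          rw [if_neg]
          exact fun h => h.2 hY
        rw [h4]
        linarith
      · have h4 := left_ne_zero_of_mul h1
        rw [h0 u hY, add_zero] at h4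
        have h5 : e u ≠ 0 := by
          intro h6
          rw [h6] at h4
          simp at h4
        have h6 := tw2_thr_le_one C u A
        omega
    · rw [tw2_thr_erase C huv]
      exact c3 u hu

theorem Mk_mem_KW {C : CType ι} {g : ι → MvPolynomial ι R} {s : ℤ}
    (hg : ∀ v (m : ι →₀ ℕ), (g v).coeff m ≠ 0 →
      C.deg (fun u => (m u : ℤ)) = 0 ∧ C.wt (fun u => (m u : ℤ)) = s ∧ 1 ≤ m v) {δ j w : ℤ}
    {ξ : Finset ι → Lau ι R} (hξ : ξ ∈ KW R C ∅ δ j w) : Mk g ξ ∈ KW R C ∅ δ (j + 1) (w + s) := by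
  intro A e he
  obtain ⟨v, hv, h1⟩ := tw2_kos_ne he
  rw [LinearMap.mulLeft_apply] at h1
  obtain ⟨m, h2, h3⟩ := exists_of_toL_mul_coeff_ne h1
  obtain ⟨c1, c2, c3, c4⟩ := hξ _ _ h3
  obtain ⟨d1, d2, d3⟩ := hg v m h2
  refine ⟨?_, ?_, ?_, ?_⟩
  · have := Finset.card_erase_add_one hv
    rw [← c1, ← this]
    push_cast
    rfl
  · have := tw2_deg_sub C e (fun v => (m v : ℤ))
    rw [c2, d1] at this
    linarith
  · intro u hu
    have h4 := c3 u hu
    have h5 : (0 : ℤ) ≤ (m u : ℤ) := by positivity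
    by_cases huv : u = v
    · subst huv
      have h6 := thr_nonneg C u (A.erase u)
      have h7 := tw2_thr_le_one C u A
      have h8 : (1 : ℤ) ≤ (m u : ℤ) := by exact_mod_cast d3
      linarith
    · rw [tw2_thr_erase C huv]
      linarith
  · have := tw2_wt_sub C e (fun v => (m v : ℤ))
    rw [c4, d2] at this
    linarith

private theorem tw2_h_coeff {C : CType ι} {p k : ℕ} (H : TwH C p k R) (v : ι) (m : ι →₀ ℕ) :
    (H.h v).coeff m = ∑ i ∈ Finset.range k, H.c i * (H.G i v).coeff m := by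
  rw [TwH.h, MvPolynomial.coeff_sum]
  refine Finset.sum_congr rfl fun i _ => ?_
  rw [MvPolynomial.coeff_smul, smul_eq_mul]

/-- the properties of `H.h` needed in `Tw1` -/
theorem TwH.h_mon {C : CType ι} {p k : ℕ} (H : TwH C p k R) (v : ι) (m : ι →₀ ℕ)
    (hm : (H.h v).coeff m ≠ 0) : C.deg (fun u => (m u : ℤ)) = 0 ∧ 1 ≤ m v := by
  rw [tw2_h_coeff] at hm
  obtain ⟨i, _, h1⟩ := Finset.exists_ne_zero_of_sum_ne_zero hm
  obtain ⟨d1, _, d3⟩ := H.hG i v m (right_ne_zero_of_mul h1)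
  exact ⟨d1, d3⟩

theorem TwH.h_sym {C : CType ι} {p k : ℕ} (H : TwH C p k R) (u v : ι) (m : ι →₀ ℕ) :
    (m u : R) * (H.h v).coeff m = (m v : R) * (H.h u).coeff m := by
  rw [tw2_h_coeff, tw2_h_coeff, Finset.mul_sum, Finset.mul_sum]
  refine Finset.sum_congr rfl fun i _ => ?_
  rw [mul_left_comm, H.hsym i u v m, mul_left_comm]

theorem TwH.h_eul {C : CType ι} {p k : ℕ} (H : TwH C p k R) :
    ∑ v, (C.wd v : R) • H.h v = 0 := by
  have h1 : ∀ v, (C.wd v : R) • H.h v =
      ∑ i ∈ Finset.range k, H.c i • ((C.wd v : R) • H.G i v) := by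
    intro v
    rw [TwH.h, Finset.smul_sum]
    refine Finset.sum_congr rfl fun i _ => ?_
    rw [smul_comm]
  rw [Finset.sum_congr rfl fun v _ => h1 v, Finset.sum_comm]
  refine Finset.sum_eq_zero fun i _ => ?_
  rw [← Finset.smul_sum, H.heul i, smul_zero]

end

end HN
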