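import Pool.Agent.HN.Tw2

/-! # HN/TwF : the twisted complex over the residue field, exactness (module HND-06)

PLAN (`Df_exact`).  Weights of exponents occurring in `KT _ C ∅ δ j` are `≥ 0` (`thr ≥ 0`).  Prove by
induction on `N : ℕ`: the statement for all `ξ` whose exponents have weight `< N`.  `N = 0`: `ξ = 0`.
`N + 1`: `ξ_N := mp F (restr F {e | C.wt e = N}) ξ ∈ KW δ j N` (`mp_restr_wt_mem`); the component of
weight `N + 1` of `Df ga f ξ = D0 ga ξ + Dk f ξ` is `Dk f ξ_N` (`restr_wt_Dk`, `D0` preserves the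
weight), so `Dk f ξ_N = 0`, `kos_exact_wt`: `ξ_N = Dk f η`, `η ∈ KW δ (j-1) (N-1)`; `ξ - Df ga f η` is closed
(`Dt_Dt`) and has only weights `< N`.
`Dk_closed_top`: `eul z ∈ KW δ (card-2) w` is killed by `Dk f` (`eul_Dk`) and `eul`; `bkos_exact`:
`eul z = Dk f η`, `eul η = 0`, `η = eul (wz η)` (`eul_wz`), `η' = wz F C η ∈ KW δ (card-2) (w-1)`;
`eul (z + Dk f η') = 0`, so `z + Dk f η' = eul (wz F C (z + Dk f η'))`.
-/

open MvPolynomial

namespace HN

section
variable {ι : Type*} [Fintype ι] [DecidableEq ι] [Ranked ι] {R : Type*} [CommRing R]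

/-- twisted differential with `h v = v ∂_v f` -/
noncomputable def Df (ga : ι → R) (f : MvPolynomial ι R) :
    (Finset ι → Lau ι R) →ₗ[R] (Finset ι → Lau ι R) :=
  Dt ga (fun v => X v * pderiv v f)

omit [Fintype ι] [Ranked ι] in
theorem coeff_theta (f : MvPolynomial ι R) (v : ι) (m : ι →₀ ℕ) :
    (X v * pderiv v f).coeff m = (m v : R) * f.coeff m := by
  induction f using MvPolynomial.induction_on' with
  | monomial u a =>
    rw [MvPolynomial.X_mul_pderiv_monomial, MvPolynomial.coeff_smul, MvPolynomial.coeff_monomial]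
    split_ifs with h
    · rw [h, nsmul_eq_mul]
    · simp
  | add p q hp hq => rw [map_add, mul_add, MvPolynomial.coeff_add, hp, hq, MvPolynomial.coeff_add,
      mul_add]

theorem Df_eq (ga : ι → R) (f : MvPolynomial ι R) (ξ : Finset ι → Lau ι R) :
    Df ga f ξ = D0 ga ξ + Dk f ξ :=
  Dt_eq ga (fun v => X v * pderiv v f) ξ

omit [Ranked ι] in
theorem theta_mon {C : CType ι} {f : MvPolynomial ι R} (hF : C.Hom f) (v : ι) (m : ι →₀ ℕ)
    (h : (X v * pderiv v f).coeff m ≠ 0) :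
    C.deg (fun u => (m u : ℤ)) = 0 ∧ C.wt (fun u => (m u : ℤ)) = 1 ∧ 1 ≤ m v := by
  rw [coeff_theta] at h
  obtain ⟨h1, h2⟩ := hF m (right_ne_zero_of_mul h)
  refine ⟨h1, h2, ?_⟩
  by_contra h3
  have h4 : m v = 0 := by omega
  rw [h4] at h
  simp at h

omit [Fintype ι] [Ranked ι] in
theorem theta_sym (f : MvPolynomial ι R) (u v : ι) (m : ι →₀ ℕ) :
    (m u : R) * (X v * pderiv v f).coeff m = (m v : R) * (X u * pderiv u f).coeff m := by
  rw [coeff_theta, coeff_theta]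
  ring

omit [Ranked ι] in
theorem theta_eul {C : CType ι} {f : MvPolynomial ι R} (hF : C.Hom f) :
    ∑ v, (C.wd v : R) • (X v * pderiv v f) = 0 := by
  ext m
  rw [MvPolynomial.coeff_sum, MvPolynomial.coeff_zero]
  have h1 : ∀ v, ((C.wd v : R) • (X v * pderiv v f)).coeff m =
      ((C.wd v * (m v : ℤ) : ℤ) : R) * f.coeff m := by
    intro v
    rw [MvPolynomial.coeff_smul, coeff_theta]
    push_cast
    rw [smul_eq_mul]
    ring
  simp only [h1]
  rw [← Finset.sum_mul, ← Int.cast_sum]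
  by_cases hm : f.coeff m = 0
  · rw [hm, mul_zero]
  · have h2 : ∑ v, C.wd v * (m v : ℤ) = 0 := (hF m hm).1
    rw [h2, Int.cast_zero, zero_mul]

/-- `D0` commutes with taking weight components -/
theorem restr_wt_D0 (C : CType ι) (ga : ι → R) (w : ℤ) (ξ : Finset ι → Lau ι R) :
    mp R (restr R {e | C.wt e = w}) (D0 ga ξ) = D0 ga (mp R (restr R {e | C.wt e = w}) ξ) := by
  classical
  funext A
  have h1 : D0 ga ξ A = ∑ v ∈ A, sg v A • diag R (fun e => (e v : R) + ga v) (ξ (A.erase v)) :=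
    kos_apply _ _ _
  have h2 : D0 ga (mp R (restr R {e | C.wt e = w}) ξ) A =
      ∑ v ∈ A, sg v A • diag R (fun e => (e v : R) + ga v)
        (mp R (restr R {e | C.wt e = w}) ξ (A.erase v)) := kos_apply _ _ _
  change restr R {e | C.wt e = w} (D0 ga ξ A) = _
  rw [h1, h2, map_sum]
  refine Finset.sum_congr rfl fun v _ => ?_
  rw [map_zsmul]
  congr 1
  refine lau_ext fun e => ?_
  change _ = (diag R (fun e => (e v : R) + ga v)
    (restr R {e | C.wt e = w} (ξ (A.erase v)))).coeff e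
  rw [restr_coeff, diag_coeff, diag_coeff, restr_coeff]
  by_cases h : e ∈ {e | C.wt e = w}
  · rw [if_pos h, if_pos h]
  · rw [if_neg h, if_neg h, mul_zero]

/-- the weight component of weight `w + 1` of `Df` -/
theorem restr_wt_Df {C : CType ι} {f : MvPolynomial ι R} (hF : C.Hom f) (ga : ι → R) (w : ℤ)
    (ξ : Finset ι → Lau ι R) :
    mp R (restr R {e | C.wt e = w + 1}) (Df ga f ξ) =
      D0 ga (mp R (restr R {e | C.wt e = w + 1}) ξ) +
        Dk f (mp R (restr R {e | C.wt e = w}) ξ) := by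
  rw [Df_eq, map_add, restr_wt_D0, restr_wt_Dk hF]

theorem Df_Df {ga : ι → R} {f : MvPolynomial ι R} (ξ : Finset ι → Lau ι R) :
    Df ga f (Df ga f ξ) = 0 :=
  Dt_Dt (theta_sym f) ξ

theorem Df_mem_KT {C : CType ι} {f : MvPolynomial ι R} (hF : C.Hom f) {ga : ι → R} {δ : ℤ}
    (hga : GaOK C ga δ) {j : ℤ} {ξ : Finset ι → Lau ι R} (hξ : ξ ∈ KT R C ∅ δ j) :
    Df ga f ξ ∈ KT R C ∅ δ (j + 1) :=
  Dt_mem_KT hga (fun v m hm => ⟨(theta_mon hF v m hm).1, (theta_mon hF v m hm).2.2⟩) hξ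

theorem eul_Df {C : CType ι} {f : MvPolynomial ι R} (hF : C.Hom f) {ga : ι → R} {δ : ℤ}
    (hga : GaOK C ga δ) {j : ℤ} {ξ : Finset ι → Lau ι R} (hξ : ξ ∈ KT R C ∅ δ j) :
    eul R C (Df ga f ξ) = - Df ga f (eul R C ξ) :=
  eul_Dt hga (theta_eul hF) hξ

/-- weights are nonnegative -/
theorem wt_nonneg_of_thr {C : CType ι} {A : Finset ι} {e : ι → ℤ}
    (h : ∀ v, v ∉ (∅ : Finset ι) → C.thr v A ≤ e v) : 0 ≤ C.wt e :=
  Finset.sum_nonneg fun v _ => (thr_nonneg C v A).trans (h v (Finset.notMem_empty v))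

/-- the weights of a form are bounded -/
theorem exists_wt_bound (C : CType ι) (ξ : Finset ι → Lau ι R) :
    ∃ N : ℕ, ∀ A e, (ξ A).coeff e ≠ 0 → C.wt e < N := by
  classical
  refine ⟨(∑ A : Finset ι, ∑ e ∈ (ξ A).coeff.support, (C.wt e).natAbs) + 1, fun A e he => ?_⟩
  have h1 : (C.wt e).natAbs ≤ ∑ e ∈ (ξ A).coeff.support, (C.wt e).natAbs :=
    Finset.single_le_sum (f := fun e => (C.wt e).natAbs) (fun _ _ => Nat.zero_le _)
      (Finsupp.mem_support_iff.2 he)
  have h2 : (∑ e ∈ (ξ A).coeff.support, (C.wt e).natAbs) ≤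
      ∑ A : Finset ι, ∑ e ∈ (ξ A).coeff.support, (C.wt e).natAbs :=
    Finset.single_le_sum (f := fun A => ∑ e ∈ (ξ A).coeff.support, (C.wt e).natAbs)
      (fun _ _ => Nat.zero_le _) (Finset.mem_univ A)
  have h3 : C.wt e ≤ ((C.wt e).natAbs : ℤ) := Int.le_natAbs
  have h4 := h1.trans h2
  omega

omit [Ranked ι] in
theorem mp_restr_coeff (C : CType ι) (w : ℤ) (ξ : Finset ι → Lau ι R) (A : Finset ι)
    (e : ι → ℤ) :
    (mp R (restr R {e | C.wt e = w}) ξ A).coeff e = if C.wt e = w then (ξ A).coeff e else 0 := by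
  classical
  exact restr_coeff {e | C.wt e = w} (ξ A) e

/-- the weight component of a homogeneous form -/
theorem mp_restr_of_mem_KW {C : CType ι} {T : Finset ι} {δ j w : ℤ} {ξ : Finset ι → Lau ι R}
    (h : ξ ∈ KW R C T δ j w) : mp R (restr R {e | C.wt e = w}) ξ = ξ := by
  funext A
  refine lau_ext fun e => ?_
  rw [mp_restr_coeff]
  by_cases h0 : (ξ A).coeff e = 0
  · simp [h0]
  · rw [if_pos (h A e h0).2.2.2]

theorem mp_restr_of_mem_KW_ne {C : CType ι} {T : Finset ι} {δ j w w' : ℤ} (hw : w' ≠ w)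
    {ξ : Finset ι → Lau ι R}
    (h : ξ ∈ KW R C T δ j w) : mp R (restr R {e | C.wt e = w'}) ξ = 0 := by
  funext A
  refine lau_ext fun e => ?_
  rw [mp_restr_coeff]
  by_cases h0 : (ξ A).coeff e = 0
  · simp [h0]
  · rw [if_neg]
    · rfl
    · rw [(h A e h0).2.2.2]
      exact hw.symm

variable {F : Type*} [Field F]

theorem Df_exact_aux {C : CType ι} {f : MvPolynomial ι F} (hF : C.Hom f) (hU : C.UnitCond f) {δ : ℤ}
    (hδ0 : 0 < δ) (hδ1 : δ < C.dlog) {ga : ι → F} (hga : GaOK C ga δ) {j : ℤ}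
    (hj : j < (Fintype.card ι : ℤ) - 1) (N : ℕ) : ∀ ξ : Finset ι → Lau ι F, ξ ∈ KT F C ∅ δ j →
    Df ga f ξ = 0 → (∀ A e, (ξ A).coeff e ≠ 0 → C.wt e < N) →
    ∃ η ∈ KT F C ∅ δ (j - 1), Df ga f η = ξ := by
  induction N with
  | zero =>
    intro ξ hξ _ hN
    refine ⟨0, Submodule.zero_mem _, ?_⟩
    rw [map_zero]
    funext A
    refine lau_ext fun e => ?_
    by_contra hne
    have hne' : (ξ A).coeff e ≠ 0 := fun h => hne (by rw [h]; rfl)
    have h1 := hN A e hne'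
    have h2 := wt_nonneg_of_thr (hξ A e hne').2.2
    push_cast at h1
    omega
  | succ N ih =>
    intro ξ hξ h0 hN
    have hN' : mp F (restr F {e | C.wt e = (N : ℤ) + 1}) ξ = 0 := by
      funext A
      refine lau_ext fun e => ?_
      rw [mp_restr_coeff]
      by_cases h1 : (ξ A).coeff e = 0
      · simp [h1]
      · rw [if_neg]
        · rfl
        · have h2 := hN A e h1
          push_cast at h2
          omega
    have h1 := restr_wt_Df hF ga (N : ℤ) ξ
    rw [h0, map_zero, hN', map_zero, zero_add] at h1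
    obtain ⟨η, hη, hη'⟩ := kos_exact_wt hF hU hδ0 hδ1 hj (mp_restr_wt_mem (N : ℤ) hξ) h1.symm
    have hDη : Df ga f η = D0 ga η + mp F (restr F {e | C.wt e = (N : ℤ)}) ξ := by
      rw [Df_eq, hη']
    have hηT := Df_mem_KT hF hga (KW_le_KT C ∅ δ _ _ hη)
    rw [sub_add_cancel] at hηT
    have h0η := D0_mem_KW hga.h0 hη
    obtain ⟨ζ, hζ, hζ'⟩ := ih (ξ - Df ga f η) (Submodule.sub_mem _ hξ hηT)
      (by rw [map_sub, h0, Df_Df, sub_zero]) (by
        intro A e he
        have h3 : ((ξ - Df ga f η) A).coeff e = (ξ A).coeff e - (D0 ga η A).coeff e -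
            (if C.wt e = (N : ℤ) then (ξ A).coeff e else 0) := by
          rw [hDη, ← mp_restr_coeff]
          simp only [Pi.sub_apply, Pi.add_apply, AddMonoidAlgebra.coeff_sub,
            AddMonoidAlgebra.coeff_add, Finsupp.sub_apply, Finsupp.add_apply]
          ring
        rw [h3] at he
        by_cases h4 : (D0 ga η A).coeff e = 0
        · rw [h4, sub_zero] at he
          by_cases h5 : C.wt e = (N : ℤ)
          · rw [if_pos h5, sub_self] at he
            exact absurd rfl he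
          · rw [if_neg h5, sub_zero] at he
            have h6 := hN A e he
            push_cast at h6
            omega
        · have h5 := (h0η A e h4).2.2.2
          omega)
    refine ⟨η + ζ, Submodule.add_mem _ (KW_le_KT C ∅ δ _ _ hη) hζ, ?_⟩
    rw [map_add, hζ']
    abel

theorem Df_exact {C : CType ι} {f : MvPolynomial ι F} (hF : C.Hom f) (hU : C.UnitCond f) {δ : ℤ}
    (hδ0 : 0 < δ) (hδ1 : δ < C.dlog) {ga : ι → F} (hga : GaOK C ga δ) {j : ℤ}
    (hj : j < (Fintype.card ι : ℤ) - 1) {ξ : Finset ι → Lau ι F} (hξ : ξ ∈ KT F C ∅ δ j)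
    (h0 : Df ga f ξ = 0) : ∃ η ∈ KT F C ∅ δ (j - 1), Df ga f η = ξ := by
  obtain ⟨N, hN⟩ := exists_wt_bound C ξ
  exact Df_exact_aux hF hU hδ0 hδ1 hga hj N ξ hξ h0 hN

theorem Dk_closed_top {C : CType ι} {f : MvPolynomial ι F} (hF : C.Hom f) (hU : C.UnitCond f)
    {δ : ℤ} (hδ0 : 0 < δ) (hδ1 : δ < C.dlog) {w : ℤ} {z : Finset ι → Lau ι F}
    (hz : z ∈ KW F C ∅ δ ((Fintype.card ι : ℤ) - 1) w) (h0 : Dk f z = 0) :
    ∃ y ∈ KW F C ∅ δ ((Fintype.card ι : ℤ) - 2) (w - 1), ∃ t ∈ KW F C ∅ δ (Fintype.card ι) w,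
      z = Dk f y + eul F C t := by
  have h1 : Dk f (eul F C z) = 0 := by
    have h2 := eul_Dk hF z
    rw [h0, map_zero] at h2
    exact neg_eq_zero.1 h2.symm
  obtain ⟨η, hη, heη, hDη⟩ := bkos_exact hF hU hδ0 hδ1
    (show (Fintype.card ι : ℤ) - 1 - 1 < (Fintype.card ι : ℤ) - 1 by omega)
    (eul_mem_KW hz) (eul_eul C z) h1
  have h3 : eul F C (wz F C η) = η := Pz_of_eul hδ0 (KW_le_KT C ∅ δ _ _ hη) heη
  have h4 : wz F C η ∈ KW F C ∅ δ ((Fintype.card ι : ℤ) - 2) (w - 1) := by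
    have := wz_mem_KW hη
    rwa [show (Fintype.card ι : ℤ) - 1 - 1 - 1 + 1 = (Fintype.card ι : ℤ) - 2 by ring] at this
  have h5 : Dk f (wz F C η) ∈ KW F C ∅ δ ((Fintype.card ι : ℤ) - 1) w := by
    have := Dk_mem_KW hF h4
    rwa [sub_add_cancel, show (Fintype.card ι : ℤ) - 2 + 1 = (Fintype.card ι : ℤ) - 1 by ring]
      at this
  have h6 := Submodule.add_mem _ hz h5
  have h7 : eul F C (z + Dk f (wz F C η)) = 0 := by
    rw [map_add, eul_Dk hF, h3, hDη, add_neg_cancel]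
  have h8 : eul F C (wz F C (z + Dk f (wz F C η))) = z + Dk f (wz F C η) :=
    Pz_of_eul hδ0 (KW_le_KT C ∅ δ _ _ h6) h7
  refine ⟨- wz F C η, Submodule.neg_mem _ h4, wz F C (z + Dk f (wz F C η)), ?_, ?_⟩
  · have := wz_mem_KW h6
    rwa [sub_add_cancel] at this
  · rw [h8, map_neg]
    abel

end

end HN
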