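import Pool.Agent.HN.TwKE
import Pool.Agent.HN.Red
import Pool.Agent.HN.Devis

/-! # HN/TwR1 : the twisted complex over `R = W/p^k`, exactness (module HND-09)

PLAN.  `Sit` collects the situation.  `Sit.red_h`: `W.π (H.c 0) = 1`, `W.π (H.c i) = 0` for `1 ≤ i`
(`p ∣ p^(p^i-1) ∣ c i`), so `map W.π (H.h v) = map W.π (H.G 0 v) = X v * pderiv v f` (`1 ≤ k`).
`Sit.rd_D`: `rd_Dt` and `red_h`.  `Sit.ga_red`: apply `W.π`.
`Sit.dv`: `hk` from `W.ann k` (`p^0 ∣ 1`), `ann` = `pow_smul_eq_zero`, `hD`, `DD` from Tw1 (with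
`TwH.h_mon`, `TwH.h_sym`).
`Sit.exact`: `devis_lt`; `h1`: `Dt z = p • c`, so `rd z` is closed, `Df_exact`: `rd z = Df η̄`, lift `η̄`
(`rd_lift_KT`, `W.π` is surjective by `πτ`), `z - Dt η` is in the kernel of `rd`, `rd_eq_zero_KT`.
-/

open MvPolynomial

namespace HN

section
variable {ι : Type*} [Fintype ι] [DecidableEq ι] [Ranked ι] {F R : Type*} [Field F] [CommRing R]

/-- the situation: `R = W(F)/p^k`, `H` twisting polynomials over `R` reducing to `v∂_v f` -/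
structure Sit (C : CType ι) (p k : ℕ) (W : WD p k F R) (f : MvPolynomial ι F) (δ : ℤ)
    (H : TwH C p k R) (ga : ι → R) : Prop where
  hp : p.Prime
  hk : 1 ≤ k
  hF : C.Hom f
  hU : C.UnitCond f
  hδ0 : 0 < δ
  hδ1 : δ < C.dlog
  hga : GaOK C ga δ
  red : ∀ v, map W.π (H.G 0 v) = X v * pderiv v f

variable {C : CType ι} {p k : ℕ} {W : WD p k F R} {f : MvPolynomial ι F} {δ : ℤ}
  {H : TwH C p k R} {ga : ι → R}

private theorem Sit.pi_p (W : WD p k F R) : W.π (p : R) = 0 := (W.ker _).2 dvd_rfl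

theorem Sit.red_h (S : Sit C p k W f δ H ga) (v : ι) : map W.π (H.h v) = X v * pderiv v f := by
  have h0 : (0 : ℕ) ∈ Finset.range k := Finset.mem_range.2 S.hk
  rw [TwH.h, map_sum, Finset.sum_eq_single 0]
  · rw [H.hc0, one_smul]
    exact S.red v
  · intro i _ hi
    have h1 : (p : R) ∣ H.c i := by
      refine (dvd_pow_self _ ?_).trans (H.hcd i)
      have h2 : p ^ 1 ≤ p ^ i := Nat.pow_le_pow_right S.hp.pos (by omega)
      have h3 := S.hp.two_le
      rw [pow_one] at h2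
      omega
    have h4 : W.π (H.c i) = 0 := (W.ker _).2 h1
    rw [MvPolynomial.smul_eq_C_mul, map_mul, map_C, h4, C_0, zero_mul]
  · intro h
    exact absurd h0 h

theorem Sit.rd_D (S : Sit C p k W f δ H ga) (ξ : Finset ι → Lau ι R) :
    rd W.π (Dt ga H.h ξ) = Df (fun v => W.π (ga v)) f (rd W.π ξ) := by
  rw [rd_Dt, Df]
  have h : (fun v => map W.π (H.h v)) = fun v => X v * pderiv v f := funext fun v => S.red_h v
  rw [h]

theorem Sit.ga_red (S : Sit C p k W f δ H ga) : GaOK C (fun v => W.π (ga v)) δ := by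
  refine ⟨fun v hv => ?_, ?_⟩
  · rw [S.hga.h0 v hv, map_zero]
  · have h := congrArg W.π S.hga.hδ
    simpa [map_add, map_sum, map_mul] using h

theorem Sit.dv (S : Sit C p k W f δ H ga) :
    DV (p : R) k (fun j => KT R C ∅ δ j) (Dt ga H.h) := by
  refine ⟨?_, ?_, ?_, ?_⟩
  · have := (W.ann 0 (Nat.zero_le k) ((p : R) ^ k)).2 (by simp)
    simpa using this
  · intro i hi j x hx h0
    exact pow_smul_eq_zero W hi hx h0
  · intro j x hx
    exact Dt_mem_KT S.hga (fun v m hm => H.h_mon v m hm) hx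
  · intro j x _
    exact Dt_Dt (fun u v m => H.h_sym u v m) x

private theorem Sit.pi_surj (W : WD p k F R) : Function.Surjective W.π := fun x => ⟨W.τ x, W.πτ x⟩

theorem Sit.exact (S : Sit C p k W f δ H ga) {j : ℤ} (hj : j < (Fintype.card ι : ℤ) - 1)
    {ξ : Finset ι → Lau ι R} (hξ : ξ ∈ KT R C ∅ δ j) (h0 : Dt ga H.h ξ = 0) :
    ∃ η ∈ KT R C ∅ δ (j - 1), Dt ga H.h η = ξ := by
  refine devis_lt S.dv ?_ ξ hξ h0
  rintro z hz ⟨c, _, hc⟩
  have h1 : Df (fun v => W.π (ga v)) f (rd W.π z) = 0 := by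
    rw [← S.rd_D, hc, rd_smul, Sit.pi_p W, zero_smul]
  obtain ⟨η, hη, hη2⟩ := Df_exact S.hF S.hU S.hδ0 S.hδ1 S.ga_red hj (rd_mem_KT W.π hz) h1
  obtain ⟨y, hy, hy2⟩ := rd_lift_KT (Sit.pi_surj W) hη
  have hDy : Dt ga H.h y ∈ KT R C ∅ δ j := by
    have := S.dv.hD (j - 1) y hy
    rw [sub_add_cancel] at this
    exact this
  have h2 : rd W.π (z - Dt ga H.h y) = 0 := by
    rw [rd_sub, S.rd_D, hy2, hη2, sub_self]
  obtain ⟨z', hz', h3⟩ := rd_eq_zero_KT (fun x hx => (W.ker x).1 hx)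
    (Submodule.sub_mem _ hz hDy) h2
  refine ⟨y, hy, z', hz', ?_⟩
  rw [← h3]
  abel

/-- the formal lemma applies over `R` -/
theorem Sit.ke (S : Sit C p k W f δ H ga) :
    KE (fun j => (KT R C ∅ δ j).toAddSubgroup) (Dt ga H.h).toAddMonoidHom
      (eul R C : (Finset ι → Lau ι R) →ₗ[R] (Finset ι → Lau ι R)).toAddMonoidHom
      (Fintype.card ι) :=
  KE_mk S.hδ0 S.hga (fun v m hm => H.h_mon v m hm) (fun u v m => H.h_sym u v m) H.h_eul
    (fun _ hj _ hx hx0 => S.exact hj hx hx0)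

/-- the formal lemma applies over the residue field -/
theorem Sit.keF (S : Sit C p k W f δ H ga) :
    KE (fun j => (KT F C ∅ δ j).toAddSubgroup) (Df (fun v => W.π (ga v)) f).toAddMonoidHom
      (eul F C : (Finset ι → Lau ι F) →ₗ[F] (Finset ι → Lau ι F)).toAddMonoidHom
      (Fintype.card ι) :=
  KE_mk S.hδ0 S.ga_red
    (fun v m hm => ⟨(theta_mon S.hF v m hm).1, (theta_mon S.hF v m hm).2.2⟩)
    (fun u v m => theta_sym f u v m) (theta_eul S.hF)
    (fun _ hj _ hx hx0 => Df_exact S.hF S.hU S.hδ0 S.hδ1 S.ga_red hj hx hx0)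

end

end HN
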