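import Pool.Agent.HN.GjL
import Pool.Agent.HN.TwR1

/-! # HN/TwI : the twisting system of `f` -/

open MvPolynomial

namespace HN

section
variable {ι : Type*} [Fintype ι] [DecidableEq ι] [Ranked ι] {F R : Type*} [Field F] [CommRing R]
variable {C : CType ι} {p k : ℕ}

/-- the twisting system of `f` -/
noncomputable def mkTwH (hp : p.Prime) (W : WD p k F R) (Pi : PiData p k R)
    {f : MvPolynomial ι F} (hF : C.Hom f) : TwH C p k R where
  G := Gj W f
  c := Pi.w
  hc0 := Pi.w0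
  hcd := Pi.wd
  hG := Gj_mon hp W hF
  hsym := Gj_sym W f
  heul := Gj_eul W hF

theorem mkTwH_h (hp : p.Prime) (W : WD p k F R) (Pi : PiData p k R)
    {f : MvPolynomial ι F} (hF : C.Hom f) : (mkTwH (C := C) hp W Pi hF).h = hG W Pi f := rfl

theorem mk_sit (hp : p.Prime) (hk : 1 ≤ k) (W : WD p k F R) (Pi : PiData p k R)
    {f : MvPolynomial ι F} (hF : C.Hom f) (hU : C.UnitCond f) {δ : ℤ} (hδ0 : 0 < δ)
    (hδ1 : δ < C.dlog) {ga : ι → R} (hga : GaOK C ga δ) :
    Sit C p k W f δ (mkTwH hp W Pi hF) ga :=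
  ⟨hp, hk, hF, hU, hδ0, hδ1, hga, Gj_red W f⟩

end

end HN
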