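import Pool.Agent.HN.TwU
import Pool.Agent.HN.E2

/-! # HN/TwKE : the formal lemma for the twisted complex (module HND-08)

PLAN.  Fields of `KE`: `hD` `Dt_mem_KT`, `hE` `eul_mem_KT`, `DD` `Dt_Dt`, `EE` `eul_eul`, `ED` `eul_Dt`,
`exE` `eul_exact`, `exD` hypothesis, `neg` `KT_neg`, `top` `KT_top`.
-/

open MvPolynomial

namespace HN

section
variable {ι : Type*} [Fintype ι] [DecidableEq ι] [Ranked ι] {R : Type*} [CommRing R]

theorem KE_mk {C : CType ι} {δ : ℤ} (hδ0 : 0 < δ) {ga : ι → R} (hga : GaOK C ga δ)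
    {h : ι → MvPolynomial ι R}
    (hm : ∀ v (m : ι →₀ ℕ), (h v).coeff m ≠ 0 → C.deg (fun u => (m u : ℤ)) = 0 ∧ 1 ≤ m v)
    (hs : ∀ u v (m : ι →₀ ℕ), (m u : R) * (h v).coeff m = (m v : R) * (h u).coeff m)
    (he : ∑ v, (C.wd v : R) • h v = 0)
    (hex : ∀ j, j < (Fintype.card ι : ℤ) - 1 → ∀ x ∈ KT R C ∅ δ j, Dt ga h x = 0 →
      ∃ y ∈ KT R C ∅ δ (j - 1), Dt ga h y = x) :
    KE (fun j => (KT R C ∅ δ j).toAddSubgroup) (Dt ga h).toAddMonoidHom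
      (eul R C : (Finset ι → Lau ι R) →ₗ[R] (Finset ι → Lau ι R)).toAddMonoidHom
      (Fintype.card ι) where
  hD _ _ hx := Dt_mem_KT hga hm hx
  hE _ _ hx := eul_mem_KT hx
  DD _ x _ := Dt_Dt hs x
  EE _ x _ := eul_eul C x
  ED _ _ hx := eul_Dt hga he hx
  exE _ _ hx h0 := eul_exact hδ0 hx h0
  exD j hj x hx h0 := hex j hj x hx h0
  neg _ hj _ hx := KT_neg hj hx
  top _ hj _ hx := KT_top hj hx

end

end HN
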