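import Pool.Agent.HN.TwR1

/-! # HN/TwR2 : closed forms of degree `card - 1` and uniqueness over `R` (module HND-10)

PLAN.  `Sit.closed`: `E2b` for `Sit.ke`.  `Sit.top`: `E2c` for `Sit.ke`.
`Sit.closed_p` : if `Dt z = p • c` then `rd z` is closed over `F`, `E2b` for `Sit.keF`:
`rd z = Df ȳ + eul t̄`; lift `ȳ`, `t̄` (`rd_lift_KT`) and divide `z - Dt y - eul t` by `p`
(`rd_eq_zero_KT`).
`Sit.unique`: `devis_u` with `h1 = closed_p` and `hu`: reduce modulo `p` (`rd_sum`, `rd_smul`,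
`rd_bas`, `rd_D`; `rd (p • x) = 0`), `Df_unique`, and `W.π (c e) = 0 ↔ p ∣ c e` (`W.ker`).
`hDE`: `Dt (eul t) = - eul (Dt t)` (`eul_Dt`), `Dt t ∈ KT δ (card + 1) = 0` (`KT_top`).
-/

open MvPolynomial

namespace HN

section
variable {ι : Type*} [Fintype ι] [DecidableEq ι] [Ranked ι] {F R : Type*} [Field F] [CommRing R]
variable {C : CType ι} {p k : ℕ} {W : WD p k F R} {f : MvPolynomial ι F} {δ : ℤ}
  {H : TwH C p k R} {ga : ι → R}

theorem Sit.closed (S : Sit C p k W f δ H ga) {z : Finset ι → Lau ι R}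
    (hz : z ∈ KT R C ∅ δ ((Fintype.card ι : ℤ) - 1)) (h0 : Dt ga H.h z = 0) :
    ∃ y ∈ KT R C ∅ δ ((Fintype.card ι : ℤ) - 2), ∃ t ∈ KT R C ∅ δ (Fintype.card ι),
      z = Dt ga H.h y + eul R C t := by
  obtain ⟨y, hy, t, ht, h⟩ := E2b S.ke (z := z) hz h0
  exact ⟨y, hy, t, ht, h⟩

theorem Sit.top (S : Sit C p k W f δ H ga) {t y : Finset ι → Lau ι R}
    (ht : t ∈ KT R C ∅ δ (Fintype.card ι))
    (hy : y ∈ KT R C ∅ δ ((Fintype.card ι : ℤ) - 2)) (h : eul R C t = Dt ga H.h y) :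
    ∃ s ∈ KT R C ∅ δ ((Fintype.card ι : ℤ) - 1), Dt ga H.h s = t := by
  obtain ⟨s, hs, h1⟩ := E2c S.ke (t := t) (y := y) ht hy h
  exact ⟨s, hs, h1⟩

private theorem Sit.pi_p (S : Sit C p k W f δ H ga) : W.π (p : R) = 0 :=
  (W.ker _).2 (dvd_refl _)

private theorem Sit.pi_surj (_S : Sit C p k W f δ H ga) : Function.Surjective W.π :=
  fun x => ⟨W.τ x, W.πτ x⟩

theorem Sit.closed_p (S : Sit C p k W f δ H ga) {z : Finset ι → Lau ι R}
    (hz : z ∈ KT R C ∅ δ ((Fintype.card ι : ℤ) - 1))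
    (h0 : ∃ c ∈ KT R C ∅ δ (Fintype.card ι), Dt ga H.h z = (p : R) • c) :
    ∃ y ∈ KT R C ∅ δ ((Fintype.card ι : ℤ) - 2), ∃ t ∈ KT R C ∅ δ (Fintype.card ι),
      ∃ z' ∈ KT R C ∅ δ ((Fintype.card ι : ℤ) - 1),
      z = Dt ga H.h y + eul R C t + (p : R) • z' := by
  obtain ⟨c, -, hc⟩ := h0
  have h1 : Df (fun v => W.π (ga v)) f (rd W.π z) = 0 := by
    rw [← S.rd_D, hc, rd_smul, S.pi_p, zero_smul]
  obtain ⟨y', hy', t', ht', h2⟩ := E2b S.keF (z := rd W.π z) (rd_mem_KT W.π hz) h1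
  obtain ⟨y, hy, rfl⟩ := rd_lift_KT (φ := W.π) S.pi_surj (show y' ∈ KT F C ∅ δ _ from hy')
  obtain ⟨t, ht, rfl⟩ := rd_lift_KT (φ := W.π) S.pi_surj (show t' ∈ KT F C ∅ δ _ from ht')
  have h2' : rd W.π z = Df (fun v => W.π (ga v)) f (rd W.π y) + eul F C (rd W.π t) := h2
  have hDy : Dt ga H.h y ∈ KT R C ∅ δ ((Fintype.card ι : ℤ) - 1) := by
    have h3 := S.ke.hD _ y hy
    have e : ((Fintype.card ι : ℤ) - 2 + 1) = (Fintype.card ι : ℤ) - 1 := by ring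
    rw [e] at h3
    exact h3
  have hEt : eul R C t ∈ KT R C ∅ δ ((Fintype.card ι : ℤ) - 1) := S.ke.hE _ t ht
  have hmem : z - (Dt ga H.h y + eul R C t) ∈ KT R C ∅ δ ((Fintype.card ι : ℤ) - 1) :=
    Submodule.sub_mem _ hz (Submodule.add_mem _ hDy hEt)
  have h4 : rd W.π (z - (Dt ga H.h y + eul R C t)) = 0 := by
    rw [rd_sub, rd_add, S.rd_D, rd_eul, h2', sub_self]
  obtain ⟨z', hz', h5⟩ := rd_eq_zero_KT (φ := W.π) (p := p) (fun x hx => (W.ker x).1 hx) hmem h4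
  refine ⟨y, hy, t, ht, z', hz', ?_⟩
  rw [← h5]
  abel

theorem Sit.eul_top (S : Sit C p k W f δ H ga) {t : Finset ι → Lau ι R}
    (ht : t ∈ KT R C ∅ δ (Fintype.card ι)) : Dt ga H.h (eul R C t) = 0 := by
  have h1 : eul R C (Dt ga H.h t) = - Dt ga H.h (eul R C t) := S.ke.ED _ t ht
  have h2 : Dt ga H.h t = 0 := S.ke.top _ (by linarith) _ (S.ke.hD _ t ht)
  rw [h2, map_zero] at h1
  exact neg_eq_zero.1 h1.symm

private theorem bas_mem_KT {e : ι → ℤ} (h1 : C.deg e = δ) (h2 : ∀ v, C.thr v Finset.univ ≤ e v) :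
    bas R Finset.univ e ∈ KT R C ∅ δ (Fintype.card ι) := by
  intro A e' h
  by_cases hA : A = Finset.univ
  · subst hA
    have h5 : e' = e := by
      by_contra hne
      apply h
      simp only [bas, Pi.single_eq_same, mon]
      rw [AddMonoidAlgebra.coeff_single, Finsupp.single_apply, if_neg (fun h => hne h.symm)]
    subst h5
    exact ⟨by rw [Finset.card_univ], h1, fun v _ => h2 v⟩
  · exfalso
    apply h
    simp [bas, Pi.single_eq_of_ne hA]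

theorem Sit.unique (S : Sit C p k W f δ H ga) {Bs : Finset (ι → ℤ)} (hB : GB C f δ Bs)
    (c : (ι → ℤ) → R) {η : Finset ι → Lau ι R}
    (hη : η ∈ KT R C ∅ δ ((Fintype.card ι : ℤ) - 1))
    (h : ∑ e ∈ Bs, c e • bas R Finset.univ e = Dt ga H.h η) : ∀ e ∈ Bs, c e = 0 := by
  have hDE : ∀ t ∈ (fun j : ℤ => KT R C ∅ δ j) (Fintype.card ι : ℤ),
      Dt ga H.h (eul R C t) = 0 := fun t ht => S.eul_top ht
  have hE : ∀ t ∈ (fun j : ℤ => KT R C ∅ δ j) (Fintype.card ι : ℤ),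
      (eul R C : (Finset ι → Lau ι R) →ₗ[R] (Finset ι → Lau ι R)) t ∈
        (fun j : ℤ => KT R C ∅ δ j) ((Fintype.card ι : ℤ) - 1) := fun t ht => S.ke.hE _ t ht
  have h1 : ∀ z ∈ (fun j : ℤ => KT R C ∅ δ j) ((Fintype.card ι : ℤ) - 1),
      (∃ c ∈ (fun j : ℤ => KT R C ∅ δ j) (Fintype.card ι : ℤ), Dt ga H.h z = (p : R) • c) →
      ∃ y ∈ (fun j : ℤ => KT R C ∅ δ j) ((Fintype.card ι : ℤ) - 2),
      ∃ t ∈ (fun j : ℤ => KT R C ∅ δ j) (Fintype.card ι : ℤ),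
      ∃ z' ∈ (fun j : ℤ => KT R C ∅ δ j) ((Fintype.card ι : ℤ) - 1),
        z = Dt ga H.h y + (eul R C : (Finset ι → Lau ι R) →ₗ[R] (Finset ι → Lau ι R)) t +
          (p : R) • z' := fun z hz hc => S.closed_p hz hc
  have hb : ∀ e ∈ Bs, bas R Finset.univ e ∈ (fun j : ℤ => KT R C ∅ δ j) (Fintype.card ι : ℤ) :=
    fun e he => bas_mem_KT (hB.adm e he).1 (hB.adm e he).2
  have hu : ∀ c : (ι → ℤ) → R, ∀ η ∈ (fun j : ℤ => KT R C ∅ δ j) ((Fintype.card ι : ℤ) - 1),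
      ∀ x ∈ (fun j : ℤ => KT R C ∅ δ j) (Fintype.card ι : ℤ),
      ∑ e ∈ Bs, c e • bas R Finset.univ e = Dt ga H.h η + (p : R) • x →
        ∀ e ∈ Bs, (p : R) ∣ c e := by
    intro c η hη x _ h1 e he
    have h2 := congrArg (rd W.π) h1
    rw [rd_sum, rd_add, S.rd_D, rd_smul, S.pi_p, zero_smul, add_zero] at h2
    have h3 : ∑ e ∈ Bs, W.π (c e) • bas F Finset.univ e =
        Df (fun v => W.π (ga v)) f (rd W.π η) := by
      rw [← h2]
      refine Finset.sum_congr rfl fun e _ => ?_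
      rw [rd_smul, rd_bas]
    exact (W.ker _).1 (Df_unique S.hF S.hU S.hδ0 S.hδ1 S.ga_red hB (fun e => W.π (c e))
      (rd_mem_KT W.π hη) h3 e he)
  exact devis_u (p := (p : R)) (k := k) (K := fun j : ℤ => KT R C ∅ δ j) (D := Dt ga H.h)
    (E := eul R C) S.dv (M := (Fintype.card ι : ℤ)) hDE hE h1 Bs
    (fun e => bas R Finset.univ e) hb hu c η hη h

end

end HN
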