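import Pool.Agent.HN.TwR2
import Pool.Agent.HN.TwR3

/-! # HN/TwR4 : basis of the cohomology of degree `card - 1` (module HND-12)

PLAN.  `H2`: `Sit.closed`: `z = Dt y + eul t`, `Sit.span`: `t = ∑ c e • bas e + Dt s`,
`eul t = ∑ c e • eul (bas e) - Dt (eul s)` (`eul_Dt`).
`H2u`: `eul (∑ c e • bas e) = Dt y`, so `∑ c e • bas e = Dt s` by `Sit.top`, `Sit.unique`.
-/

open MvPolynomial

namespace HN

section
variable {ι : Type*} [Fintype ι] [DecidableEq ι] [Ranked ι] {F R : Type*} [Field F] [CommRing R]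
variable {C : CType ι} {p k : ℕ} {W : WD p k F R} {f : MvPolynomial ι F} {δ : ℤ}
  {H : TwH C p k R} {ga : ι → R}

theorem bas_mem {C : CType ι} {δ : ℤ} {e : ι → ℤ} (h : C.deg e = δ)
    (h' : ∀ v, C.thr v Finset.univ ≤ e v) :
    bas R Finset.univ e ∈ KW R C ∅ δ (Fintype.card ι) (C.wt e) := by
  intro A e' hne
  by_cases hA : A = Finset.univ
  · subst hA
    have h5 : e' = e := by
      by_contra hne'
      apply hne
      simp only [bas, Pi.single_eq_same, mon]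
      rw [AddMonoidAlgebra.coeff_single, Finsupp.single_apply, if_neg (fun h => hne' h.symm)]
    subst h5
    exact ⟨by rw [Finset.card_univ], h, fun v _ => h' v, rfl⟩
  · exfalso
    apply hne
    simp [bas, Pi.single_eq_of_ne hA]

private theorem tr4_bas_KT {C : CType ι} {δ : ℤ} {e : ι → ℤ} (h : C.deg e = δ)
    (h' : ∀ v, C.thr v Finset.univ ≤ e v) :
    bas R Finset.univ e ∈ KT R C ∅ δ (Fintype.card ι) := by
  intro A e' hne
  have h1 := bas_mem (R := R) h h' A e' hne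
  exact ⟨h1.1, h1.2.1, h1.2.2.1⟩

theorem Sit.H2 (S : Sit C p k W f δ H ga) {Bs : Finset (ι → ℤ)} (hB : GB C f δ Bs)
    {z : Finset ι → Lau ι R} (hz : z ∈ KT R C ∅ δ ((Fintype.card ι : ℤ) - 1))
    (h0 : Dt ga H.h z = 0) :
    ∃ c : (ι → ℤ) → R, ∃ η ∈ KT R C ∅ δ ((Fintype.card ι : ℤ) - 2),
      z = ∑ e ∈ Bs, c e • eul R C (bas R Finset.univ e) + Dt ga H.h η := by
  obtain ⟨y, hy, t, ht, hzt⟩ := S.closed hz h0
  obtain ⟨c, s, hs, hts⟩ := S.span hB ht
  have hes : eul R C s ∈ KT R C ∅ δ ((Fintype.card ι : ℤ) - 2) := by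
    have h1 := eul_mem_KT (R := R) (C := C) hs
    rw [show (Fintype.card ι : ℤ) - 1 - 1 = (Fintype.card ι : ℤ) - 2 by ring] at h1
    exact h1
  refine ⟨c, y - eul R C s, sub_mem hy hes, ?_⟩
  have h2 := eul_Dt S.hga H.h_eul hs
  rw [hzt]
  conv_lhs => rw [hts]
  rw [map_add, h2, map_sum, map_sub]
  simp only [map_smul]
  abel

theorem Sit.H2u (S : Sit C p k W f δ H ga) {Bs : Finset (ι → ℤ)} (hB : GB C f δ Bs)
    (c : (ι → ℤ) → R) {η : Finset ι → Lau ι R}
    (hη : η ∈ KT R C ∅ δ ((Fintype.card ι : ℤ) - 2))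
    (h : ∑ e ∈ Bs, c e • eul R C (bas R Finset.univ e) = Dt ga H.h η) : ∀ e ∈ Bs, c e = 0 := by
  have ht : ∑ e ∈ Bs, c e • bas R Finset.univ e ∈ KT R C ∅ δ (Fintype.card ι) := by
    refine Submodule.sum_mem _ fun e he => Submodule.smul_mem _ _ ?_
    exact tr4_bas_KT (hB.adm e he).1 (hB.adm e he).2
  have h1 : eul R C (∑ e ∈ Bs, c e • bas R Finset.univ e) = Dt ga H.h η := by
    rw [map_sum, ← h]
    simp only [map_smul]
  obtain ⟨s, hs, hst⟩ := S.top ht hη h1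
  exact S.unique hB c hs hst.symm

end

end HN
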