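import Pool.Agent.HN.TwF

/-! # HN/TwU : uniqueness of the reduction over the residue field (module HND-07)

PLAN.  Weights are `≥ 0`, finitely many occur.  Show by downward induction on `T` (from a bound above all
weights of `Bs` down to `0`) that `c e = 0` for all `e ∈ Bs` with `C.wt e ≥ T`.  Step: assume it for
`T + 1`.  Claim: there is `η'` with `Df η' = Df η`, `η' ∈ KT δ (card-1)` and all weights of `η'` are `< T`.
(Induction on a bound `N > T` for the weights of `η`: `N+1 → N` for `N ≥ T`: the component of weight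
`N + 1` of `Df η = ∑ c e • bas e` is `Dk f η_N` and `0` on the right, so `Dk_closed_top`:
`η_N = Dk f y + eul t`; replace `η` by `η - Df y - eul t`; `Df (eul t) = - eul (Df t) = 0` since
`Df t ∈ KT δ (card+1) = 0`; the weight-`N` component of `Df y = D0 y + Dk f y` is `Dk f y`, as `D0 y`
has weight `N - 1`.)  The component of weight `T` of the equation is
`∑_{wt e = T} c e • bas e = Dk f η'_{T-1}` and `GB.indep` gives `c e = 0` for `wt e = T`.
-/

open MvPolynomial

namespace HN

section
variable {ι : Type*} [Fintype ι] [DecidableEq ι] [Ranked ι] {F : Type*} [Field F]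

omit [Ranked ι] in
/-- forms of degree `> card ι` vanish -/
theorem KT_top {R : Type*} [CommRing R] {C : CType ι} {T : Finset ι} {δ j : ℤ}
    (hj : (Fintype.card ι : ℤ) < j) {ξ : Finset ι → Lau ι R} (h : ξ ∈ KT R C T δ j) : ξ = 0 := by
  funext A
  refine lau_ext fun e => ?_
  by_contra hne
  have h1 := (h A e hne).1
  have h2 := Finset.card_le_univ A
  omega

omit [Ranked ι] in
theorem KT_neg {R : Type*} [CommRing R] {C : CType ι} {T : Finset ι} {δ j : ℤ}
    (hj : j < 0) {ξ : Finset ι → Lau ι R} (h : ξ ∈ KT R C T δ j) : ξ = 0 := by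
  funext A
  refine lau_ext fun e => ?_
  by_contra hne
  have h1 := (h A e hne).1
  omega

omit [Ranked ι] in
theorem mp_restr_bas {R : Type*} [CommRing R] (C : CType ι) (w : ℤ) (A : Finset ι) (e : ι → ℤ) :
    mp R (restr R {e | C.wt e = w}) (bas R A e) = if C.wt e = w then bas R A e else 0 := by
  funext B
  refine lau_ext fun e' => ?_
  rw [mp_restr_coeff]
  have h1 : (bas R A e B).coeff e' ≠ 0 → e' = e := by
    intro h
    by_cases hB : B = A
    · subst hB
      by_contra hne
      apply h
      simp only [bas, Pi.single_eq_same, mon]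
      rw [AddMonoidAlgebra.coeff_single, Finsupp.single_apply, if_neg (fun h => hne h.symm)]
    · exfalso
      apply h
      simp [bas, Pi.single_eq_of_ne hB]
  by_cases h2 : (bas R A e B).coeff e' = 0
  · rw [h2, ite_self]
    split_ifs with h3
    · exact h2.symm
    · rfl
  · have h3 := h1 h2
    rw [h3]
    by_cases h4 : C.wt e = w
    · rw [if_pos h4, if_pos h4]
    · rw [if_neg h4, if_neg h4]
      rfl

omit [Ranked ι] in
theorem mp_restr_sum_bas (C : CType ι) (w : ℤ) (Bs : Finset (ι → ℤ)) (c : (ι → ℤ) → F) :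
    mp F (restr F {e | C.wt e = w}) (∑ e ∈ Bs, c e • bas F Finset.univ e) =
      ∑ e ∈ Bs.filter (fun e => C.wt e = w), c e • bas F Finset.univ e := by
  rw [map_sum, Finset.sum_filter]
  refine Finset.sum_congr rfl fun e _ => ?_
  rw [map_smul, mp_restr_bas]
  split_ifs
  · rfl
  · rw [smul_zero]

theorem Df_unique_aux {C : CType ι} {f : MvPolynomial ι F} (hF : C.Hom f) (hU : C.UnitCond f)
    {δ : ℤ} (hδ0 : 0 < δ) (hδ1 : δ < C.dlog) {ga : ι → F} (hga : GaOK C ga δ)
    {Bs : Finset (ι → ℤ)} (c : (ι → ℤ) → F) (T : ℤ)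
    (hT : ∀ e ∈ Bs, T + 1 ≤ C.wt e → c e = 0) (n : ℕ) : ∀ η : Finset ι → Lau ι F,
    η ∈ KT F C ∅ δ ((Fintype.card ι : ℤ) - 1) →
    (∀ A e, (η A).coeff e ≠ 0 → C.wt e < T + n) →
    ∑ e ∈ Bs, c e • bas F Finset.univ e = Df ga f η →
    ∃ η' ∈ KT F C ∅ δ ((Fintype.card ι : ℤ) - 1),
      (∀ A e, (η' A).coeff e ≠ 0 → C.wt e < T) ∧
      ∑ e ∈ Bs, c e • bas F Finset.univ e = Df ga f η' := by
  induction n with
  | zero =>
    intro η hη hN h
    exact ⟨η, hη, fun A e he => by have := hN A e he; push_cast at this; omega, h⟩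
  | succ n ih =>
    intro η hη hN h
    set N : ℤ := T + n with hNdef
    have hN1 : mp F (restr F {e | C.wt e = N + 1}) η = 0 := by
      funext A
      refine lau_ext fun e => ?_
      rw [mp_restr_coeff]
      by_cases h1 : (η A).coeff e = 0
      · simp [h1]
      · rw [if_neg]
        · rfl
        · have h2 := hN A e h1
          push_cast at h2
          omega
    have h1 := restr_wt_Df hF ga N η
    rw [← h, mp_restr_sum_bas, hN1, map_zero, zero_add] at h1
    have h2 : ∑ e ∈ Bs.filter (fun e => C.wt e = N + 1), c e • bas F Finset.univ e = 0 := by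
      refine Finset.sum_eq_zero fun e he => ?_
      rw [Finset.mem_filter] at he
      rw [hT e he.1 (by rw [he.2]; omega), zero_smul]
    rw [h2] at h1
    obtain ⟨y, hy, t, ht, hyt⟩ := Dk_closed_top hF hU hδ0 hδ1 (mp_restr_wt_mem N hη) h1.symm
    have hDt : Df ga f t = 0 :=
      KT_top (lt_add_one _) (Df_mem_KT hF hga (KW_le_KT C ∅ δ _ _ ht))
    have hDe : Df ga f (eul F C t) = 0 := by
      have h3 := eul_Df hF hga (KW_le_KT C ∅ δ _ _ ht)
      rw [hDt, map_zero] at h3
      exact neg_eq_zero.1 h3.symm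
    have hy' := Df_mem_KT hF hga (KW_le_KT C ∅ δ _ _ hy)
    rw [show (Fintype.card ι : ℤ) - 2 + 1 = (Fintype.card ι : ℤ) - 1 by ring] at hy'
    have hD0y := D0_mem_KW hga.h0 hy
    have ht' := eul_mem_KT (KW_le_KT C ∅ δ _ _ ht)
    refine ih (η - Df ga f y - eul F C t) (Submodule.sub_mem _ (Submodule.sub_mem _ hη hy') ht')
      ?_ ?_
    · intro A e he
      have h3 : ((η - Df ga f y - eul F C t) A).coeff e = (η A).coeff e - (D0 ga y A).coeff e -
          (if C.wt e = N then (η A).coeff e else 0) := by
        rw [← mp_restr_coeff, hyt, Df_eq]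
        simp only [Pi.sub_apply, Pi.add_apply, AddMonoidAlgebra.coeff_sub,
          AddMonoidAlgebra.coeff_add, Finsupp.sub_apply, Finsupp.add_apply]
        ring
      rw [h3] at he
      by_cases h4 : (D0 ga y A).coeff e = 0
      · rw [h4, sub_zero] at he
        by_cases h5 : C.wt e = N
        · rw [if_pos h5, sub_self] at he
          exact absurd rfl he
        · rw [if_neg h5, sub_zero] at he
          have h6 := hN A e he
          push_cast at h6
          omega
      · have h5 := (hD0y A e h4).2.2.2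
        omega
    · rw [map_sub, map_sub, hDe, Df_Df, sub_zero, sub_zero, h]

theorem Df_unique {C : CType ι} {f : MvPolynomial ι F} (hF : C.Hom f) (hU : C.UnitCond f) {δ : ℤ}
    (hδ0 : 0 < δ) (hδ1 : δ < C.dlog) {ga : ι → F} (hga : GaOK C ga δ)
    {Bs : Finset (ι → ℤ)} (hB : GB C f δ Bs) (c : (ι → ℤ) → F) {η : Finset ι → Lau ι F}
    (hη : η ∈ KT F C ∅ δ ((Fintype.card ι : ℤ) - 1))
    (h : ∑ e ∈ Bs, c e • bas F Finset.univ e = Df ga f η) : ∀ e ∈ Bs, c e = 0 := by
  have hM : ∃ M : ℤ, ∀ e ∈ Bs, C.wt e < M := by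
    refine ⟨(∑ e ∈ Bs, (C.wt e).natAbs : ℕ) + 1, fun e he => ?_⟩
    have h1 : (C.wt e).natAbs ≤ ∑ e ∈ Bs, (C.wt e).natAbs :=
      Finset.single_le_sum (f := fun e => (C.wt e).natAbs) (fun _ _ => Nat.zero_le _) he
    have h3 : C.wt e ≤ ((C.wt e).natAbs : ℤ) := Int.le_natAbs
    omega
  obtain ⟨M, hM⟩ := hM
  have key : ∀ n : ℕ, ∀ e ∈ Bs, M - n ≤ C.wt e → c e = 0 := by
    intro n
    induction n with
    | zero =>
      intro e he hle
      have := hM e he
      push_cast at hle
      omega
    | succ n ih =>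
      intro e he hle
      by_cases h1 : M - n ≤ C.wt e
      · exact ih e he h1
      · have h2 : C.wt e = M - n - 1 := by
          push_cast at hle
          omega
        set T : ℤ := M - n - 1 with hTdef
        obtain ⟨N, hN⟩ := exists_wt_bound C η
        obtain ⟨η', hη', hw, h'⟩ := Df_unique_aux hF hU hδ0 hδ1 hga (Bs := Bs) c T
          (fun e he hle => ih e he (by omega)) (N - T).toNat η hη
          (fun A e he => by
            have h3 := hN A e he
            have h4 := Int.self_le_toNat (N - T)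
            omega) h
        have h3 := restr_wt_Df hF ga (T - 1) η'
        rw [sub_add_cancel, ← h', mp_restr_sum_bas] at h3
        have h4 : mp F (restr F {e | C.wt e = T}) η' = 0 := by
          funext A
          refine lau_ext fun e => ?_
          rw [mp_restr_coeff]
          by_cases h5 : (η' A).coeff e = 0
          · simp [h5]
          · rw [if_neg]
            · rfl
            · have h6 := hw A e h5
              omega
        rw [h4, map_zero, zero_add] at h3
        exact hB.indep T c _ (mp_restr_wt_mem (T - 1) hη') h3 e he h2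
  intro e he
  refine key (M - C.wt e).toNat e he ?_
  have := Int.self_le_toNat (M - C.wt e)
  omega

end

end HN
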